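import Pool.Agent.Lib.MP_2c79a0_ag.Geo

/-!
Charts of a blow-up given by its universal property.
-/

open AlgebraicGeometry CategoryTheory TopologicalSpace

noncomputable section

namespace Pool.Agent.Lib.MP_2c79a0_ag

namespace Blow

/-- Restriction of sections. -/
def rs {T : Scheme.{0}} {V W : T.Opens} (h : V ≤ W) : Γ(T, W) →+* Γ(T, V) :=
  (T.presheaf.map (homOfLE h).op).hom

/-- Pull back of sections. -/
def pb {T B : Scheme.{0}} (g : T ⟶ B) {U : B.Opens} {V : T.Opens} (e : V ≤ g ⁻¹ᵁ U) :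
    Γ(B, U) →+* Γ(T, V) := (g.appLE U V e).hom

variable {T' T B : Scheme.{0}}

lemma rs_rs {V W X : T.Opens} (h : V ≤ W) (h' : W ≤ X) (a : Γ(T, X)) :
    rs h (rs h' a) = rs (h.trans h') a := by
  simp only [rs]
  rw [← CommRingCat.comp_apply, ← Functor.map_comp]
  rfl

lemma rs_pb (g : T ⟶ B) {U : B.Opens} {V V' : T.Opens} (e : V ≤ g ⁻¹ᵁ U) (h : V' ≤ V)
    (a : Γ(B, U)) : rs h (pb g e a) = pb g (h.trans e) a := by
  simp only [rs, pb]
  rw [← CommRingCat.comp_apply, Scheme.Hom.appLE_map]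

lemma pb_rs (g : T ⟶ B) {U U' : B.Opens} {V : T.Opens} (e : V ≤ g ⁻¹ᵁ U) (h : U ≤ U')
    (e' : V ≤ g ⁻¹ᵁ U') (a : Γ(B, U')) : pb g e (rs h a) = pb g e' a := by
  simp only [rs, pb]
  rw [← CommRingCat.comp_apply, Scheme.Hom.map_appLE]

lemma pb_pb (k : T' ⟶ T) (g : T ⟶ B) {U : B.Opens} {V : T.Opens} {W : T'.Opens}
    (e : V ≤ g ⁻¹ᵁ U) (e' : W ≤ k ⁻¹ᵁ V) (e'' : W ≤ (k ≫ g) ⁻¹ᵁ U) (a : Γ(B, U)) :
    pb k e' (pb g e a) = pb (k ≫ g) e'' a := by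
  simp only [pb]
  rw [← CommRingCat.comp_apply, Scheme.Hom.appLE_comp_appLE]

lemma nzd_basic {V : T.Opens} (hV : IsAffineOpen V) (α : Γ(T, V)) {u : Γ(T, V)}
    (hu : u ∈ nonZeroDivisors Γ(T, V)) :
    rs (T.basicOpen_le α) u ∈ nonZeroDivisors Γ(T, T.basicOpen α) :=
  have := hV.isLocalization_basicOpen α
  IsLocalization.nonZeroDivisors_le_comap (Submonoid.powers α) Γ(T, T.basicOpen α) hu

lemma unit_basic {V : T.Opens} (α : Γ(T, V)) : IsUnit (rs (T.basicOpen_le α) α) :=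
  RingedSpace.isUnit_res_basicOpen T.toRingedSpace α

lemma eq_zero_of_local {W : T.Opens} (c : Γ(T, W))
    (h : ∀ x ∈ W, ∃ (V : T.Opens) (i : V ≤ W), x ∈ V ∧ rs i c = 0) : c = 0 := by
  choose V i hx h0 using h
  refine T.sheaf.eq_of_locally_eq' (fun x : W => V x.1 x.2) W (fun x => homOfLE (i x.1 x.2))
    (fun x hx' => Opens.mem_iSup.2 ⟨⟨x, hx'⟩, hx x hx'⟩) c 0 fun x => ?_
  exact (h0 x.1 x.2).trans (map_zero (rs (i x.1 x.2))).symm

variable (g : T ⟶ B) {U : B.Opens} (s t : Γ(B, U))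

/-- On the affine open set `V` the section `s` is regular and divides `t`. -/
def Gd (V : T.Opens) : Prop :=
  IsAffineOpen V ∧ ∃ e : V ≤ g ⁻¹ᵁ U, pb g e s ∈ nonZeroDivisors Γ(T, V) ∧ pb g e s ∣ pb g e t

/-- The locus where `s` is regular and divides `t`. -/
def loc : T.Opens := ⨆ V : {V // Gd g s t V}, V.1

variable {g s t}

lemma mem_loc {x : T} : x ∈ loc g s t ↔ ∃ V, Gd g s t V ∧ x ∈ V := by
  simp [loc]

lemma loc_le : loc g s t ≤ g ⁻¹ᵁ U := iSup_le fun V => V.2.2.1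

lemma Gd.le {V : T.Opens} (h : Gd g s t V) : V ≤ loc g s t :=
  le_iSup (fun V : {V // Gd g s t V} => V.1) ⟨V, h⟩

lemma nzd_of_le {W : T.Opens} (h : W ≤ loc g s t) (e : W ≤ g ⁻¹ᵁ U) :
    pb g e s ∈ nonZeroDivisors Γ(T, W) := by
  refine mem_nonZeroDivisors_iff_right.2 fun c hc => eq_zero_of_local c fun x hx => ?_
  obtain ⟨V, ⟨hV, eV, h1, -⟩, hxV⟩ := mem_loc.1 (h hx)
  obtain ⟨α, h2, h3⟩ := hV.exists_basicOpen_le (V := W) ⟨x, hx⟩ hxV
  refine ⟨_, h2, h3, ?_⟩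
  have h4 := nzd_basic hV α h1
  rw [rs_pb] at h4
  have h5 := congrArg (rs h2) hc
  rw [map_mul, map_zero, rs_pb] at h5
  exact mem_nonZeroDivisors_iff_right.1 h4 _ h5

lemma dvd_loc : ∃ r, pb g loc_le t = r * pb g (loc_le (s := s) (t := t)) s := by
  have h1 : ∀ V : {V // Gd g s t V}, ∃ r, pb g V.2.2.1 t = pb g V.2.2.1 s * r :=
    fun V => V.2.2.2.2
  choose r hr using h1
  obtain ⟨c, hc, -⟩ := T.sheaf.existsUnique_gluing' (fun V : {V // Gd g s t V} => V.1)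
    (loc g s t) (fun V => homOfLE V.2.le) le_rfl r fun V W => by
      have h2 := nzd_of_le (inf_le_left.trans V.2.le : V.1 ⊓ W.1 ≤ _) (inf_le_left.trans V.2.2.1)
      have h3 := congrArg (rs (inf_le_left : V.1 ⊓ W.1 ≤ V.1)) (hr V)
      have h4 := congrArg (rs (inf_le_right : V.1 ⊓ W.1 ≤ W.1)) (hr W)
      rw [map_mul, rs_pb, rs_pb] at h3 h4
      exact (mul_cancel_left_mem_nonZeroDivisors h2).1 (h3.symm.trans h4)
  refine ⟨c, sub_eq_zero.1 (eq_zero_of_local _ fun x hx => ?_)⟩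
  obtain ⟨V, hV, hxV⟩ := mem_loc.1 hx
  refine ⟨V, hV.le, hxV, ?_⟩
  have h5 : rs hV.le c = r ⟨V, hV⟩ := hc ⟨V, hV⟩
  rw [map_sub, map_mul, rs_pb, rs_pb, h5, hr ⟨V, hV⟩, mul_comm, sub_self]

lemma gd_basic {V : T.Opens} (hV : IsAffineOpen V) (e : V ≤ g ⁻¹ᵁ U) {u α β : Γ(T, V)}
    (hu : u ∈ nonZeroDivisors Γ(T, V)) (hs : pb g e s = α * u) (ht : pb g e t = β * u) :
    Gd g s t (T.basicOpen α) := by
  have h1 := nzd_basic hV α hu
  have h2 := unit_basic α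
  refine ⟨hV.basicOpen α, (T.basicOpen_le α).trans e, ?_, ?_⟩
  · rw [← rs_pb g e (T.basicOpen_le α), hs, map_mul]
    exact mul_mem h2.mem_nonZeroDivisors h1
  · rw [← rs_pb g e (T.basicOpen_le α) s, ← rs_pb g e (T.basicOpen_le α) t, hs, ht, map_mul,
      map_mul]
    exact mul_dvd_mul_right h2.dvd _

lemma exists_local {I : B.IdealSheafData} (hI : InvPull g I) (hU : IsAffineOpen U)
    (hst : I.ideal ⟨U, hU⟩ = Ideal.span {s, t}) {x : T} (hx : x ∈ g ⁻¹ᵁ U) :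
    ∃ (V : T.Opens) (e : V ≤ g ⁻¹ᵁ U) (u α β γ δ : Γ(T, V)), IsAffineOpen V ∧ x ∈ V ∧
      u ∈ nonZeroDivisors Γ(T, V) ∧ pb g e s = α * u ∧ pb g e t = β * u ∧ γ * α + δ * β = 1 := by
  obtain ⟨U', V, e, u, hxV, hu, hspan⟩ := hI x
  obtain ⟨ρ, h1, h2⟩ := hU.exists_basicOpen_le (V := U'.1) ⟨g x, e hxV⟩ hx
  obtain ⟨α, h3, h4⟩ := V.2.exists_basicOpen_le (V := g ⁻¹ᵁ B.basicOpen ρ) ⟨x, h2⟩ hxV
  have e' : T.basicOpen α ≤ g ⁻¹ᵁ U := fun y hy => B.basicOpen_le ρ (h3 hy)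
  have h5 : (I.ideal U').map (rs h1) = I.ideal ⟨_, hU.basicOpen ρ⟩ :=
    I.map_ideal (U := ⟨_, hU.basicOpen ρ⟩) (V := U') h1
  have h6 : (I.ideal ⟨U, hU⟩).map (rs (B.basicOpen_le ρ)) = I.ideal ⟨_, hU.basicOpen ρ⟩ :=
    I.map_ideal (U := ⟨_, hU.basicOpen ρ⟩) (V := ⟨U, hU⟩) (B.basicOpen_le ρ)
  have h7 : Ideal.span {pb g e' s, pb g e' t} = Ideal.span {rs (T.basicOpen_le α) u} := by
    have h8 : (pb g h3).comp (rs h1) = (rs (T.basicOpen_le α)).comp (pb g e) :=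
      RingHom.ext fun a => (pb_rs g h3 h1 _ a).trans (rs_pb g e _ a).symm
    have h9 : (pb g h3).comp (rs (B.basicOpen_le ρ)) = pb g e' :=
      RingHom.ext fun a => pb_rs g h3 _ e' a
    have h10 : (I.ideal U').map (pb g e) = Ideal.span {u} := hspan
    have h11 := congrArg (Ideal.map (pb g h3)) (h6.trans h5.symm)
    rw [Ideal.map_map, Ideal.map_map, h8, h9, ← Ideal.map_map, h10, hst, Ideal.map_span,
      Ideal.map_span, Set.image_pair, Set.image_singleton] at h11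
    exact h11
  have hu' := nzd_basic V.2 α hu
  obtain ⟨a, ha⟩ := Ideal.mem_span_singleton'.1 (h7 ▸ Ideal.subset_span (Set.mem_insert _ _) :
    pb g e' s ∈ Ideal.span {rs (T.basicOpen_le α) u})
  obtain ⟨b, hb⟩ := Ideal.mem_span_singleton'.1
    (h7 ▸ Ideal.subset_span (Set.mem_insert_of_mem _ rfl) :
    pb g e' t ∈ Ideal.span {rs (T.basicOpen_le α) u})
  obtain ⟨c, d, hcd⟩ := Ideal.mem_span_pair.1 (h7.symm ▸ Ideal.subset_span rfl :
    rs (T.basicOpen_le α) u ∈ Ideal.span {pb g e' s, pb g e' t})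
  refine ⟨_, e', _, a, b, c, d, V.2.basicOpen α, h4, hu', ha.symm, hb.symm, ?_⟩
  refine (mul_cancel_right_mem_nonZeroDivisors hu').1 ?_
  rw [one_mul, add_mul, mul_assoc, mul_assoc, ha, hb, hcd]

lemma cover {I : B.IdealSheafData} (hI : InvPull g I) (hU : IsAffineOpen U)
    (hst : I.ideal ⟨U, hU⟩ = Ideal.span {s, t}) {x : T} (hx : x ∈ g ⁻¹ᵁ U) :
    x ∈ loc g s t ∨ x ∈ loc g t s := by
  obtain ⟨V, e, u, α, β, γ, δ, hV, hxV, hu, hs, ht, h1⟩ := exists_local hI hU hst hx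
  have h2 := congrArg (T.presheaf.germ V x hxV).hom h1
  rw [map_add, map_mul, map_mul, map_one] at h2
  rcases IsLocalRing.isUnit_or_isUnit_of_add_one h2 with h3 | h3
  · exact Or.inl ((gd_basic hV e hu hs ht).le
      ((T.mem_basicOpen α x hxV).2 (isUnit_of_mul_isUnit_right h3)))
  · exact Or.inr ((gd_basic hV e hu ht hs).le
      ((T.mem_basicOpen β x hxV).2 (isUnit_of_mul_isUnit_right h3)))

lemma map_mem_loc {I : B.IdealSheafData} (hI : InvPull g I) (hU : IsAffineOpen U)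
    (hst : I.ideal ⟨U, hU⟩ = Ideal.span {s, t}) (k : T' ⟶ T) {x : T'}
    (hx : x ∈ loc (k ≫ g) s t) : k x ∈ loc g s t := by
  obtain ⟨V, e, u, α, β, γ, δ, hV, hxV, hu, hs, ht, h1⟩ :=
    exists_local hI hU hst (x := k x) (by simpa using loc_le hx)
  refine (gd_basic hV e hu hs ht).le ?_
  set W : T'.Opens := loc (k ≫ g) s t ⊓ k ⁻¹ᵁ V with hW
  have e1 : W ≤ k ⁻¹ᵁ V := inf_le_right
  have e2 : W ≤ (k ≫ g) ⁻¹ᵁ U := inf_le_left.trans loc_le
  have h2 := nzd_of_le (inf_le_left : W ≤ loc (k ≫ g) s t) e2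
  obtain ⟨r, hr⟩ := dvd_loc (g := k ≫ g) (s := s) (t := t)
  have h3 := congrArg (rs (inf_le_left : W ≤ loc (k ≫ g) s t)) hr
  rw [map_mul, rs_pb, rs_pb, ← pb_pb k g e e1, ← pb_pb k g e e1, hs, ht, map_mul, map_mul,
    ← mul_assoc] at h3
  rw [← pb_pb k g e e1, hs, map_mul] at h2
  have h4 := (mul_cancel_right_mem_nonZeroDivisors (mul_mem_nonZeroDivisors.1 h2).2).1 h3
  have h5 := congrArg (pb k e1) h1
  rw [map_add, map_mul, map_mul, map_one, h4, ← mul_assoc, ← add_mul] at h5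
  have h6 : IsUnit (pb k e1 α) := IsUnit.of_mul_eq_one_right _ h5
  have h7 : x ∈ T'.basicOpen (pb k e1 α) := by
    rw [T'.basicOpen_of_isUnit h6]
    exact ⟨hx, hxV⟩
  have h8 : T'.basicOpen (pb k e1 α) = W ⊓ k ⁻¹ᵁ T.basicOpen α := Scheme.basicOpen_appLE k W V e1 α
  rw [h8] at h7
  exact h7.2

lemma invPull_of_loc {I : B.IdealSheafData} (hU : IsAffineOpen U)
    (hst : I.ideal ⟨U, hU⟩ = Ideal.span {s, t}) (h : ∀ x, x ∈ loc g s t) : InvPull g I := by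
  intro x
  obtain ⟨V, ⟨hV, e, h1, h2⟩, hx⟩ := mem_loc.1 (h x)
  refine ⟨⟨U, hU⟩, ⟨V, hV⟩, e, pb g e s, hx, h1, ?_⟩
  show (I.ideal ⟨U, hU⟩).map (pb g e) = _
  rw [hst, Ideal.map_span, Set.image_pair, Ideal.span_pair_eq_span_left_iff_dvd.2 h2]

lemma mem_loc_open (k : T' ⟶ T) [IsOpenImmersion k] {x : T'} (hx : k x ∈ loc g s t) :
    x ∈ loc (k ≫ g) s t := by
  obtain ⟨V, ⟨hV, e, h1, h2⟩, hxV⟩ := mem_loc.1 hx
  obtain ⟨α, h3, h4⟩ := hV.exists_basicOpen_le (V := k.opensRange) ⟨k x, x, rfl⟩ hxV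
  have e0 := (T.basicOpen_le α).trans e
  have h5 := nzd_basic hV α h1
  have h6 := map_dvd (rs (T.basicOpen_le α)) h2
  rw [rs_pb] at h5 h6
  rw [rs_pb] at h6
  have e1 : k ⁻¹ᵁ T.basicOpen α ≤ (k ≫ g) ⁻¹ᵁ U := fun y hy => by simpa using e0 hy
  have hb : Function.Bijective (pb k (le_refl (k ⁻¹ᵁ T.basicOpen α))) := by
    have := k.isIso_app _ h3
    rw [pb, Scheme.Hom.appLE_eq_app]
    exact ConcreteCategory.bijective_of_isIso _
  refine mem_loc.2 ⟨k ⁻¹ᵁ T.basicOpen α,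
    ⟨(hV.basicOpen α).preimage_of_isOpenImmersion k h3, e1, ?_, ?_⟩, h4⟩
  · rw [← pb_pb k g e0 le_rfl]
    refine mem_nonZeroDivisors_iff_right.2 fun c hc => ?_
    obtain ⟨c, rfl⟩ := hb.2 c
    rw [← map_mul, ← map_zero (pb k (le_refl (k ⁻¹ᵁ T.basicOpen α)))] at hc
    rw [mem_nonZeroDivisors_iff_right.1 h5 _ (hb.1 hc), map_zero]
  · rw [← pb_pb k g e0 le_rfl, ← pb_pb k g e0 le_rfl]
    exact map_dvd _ h6

lemma pb_spec (hU : IsAffineOpen U) {A : CommRingCat.{0}} (φ : Γ(B, U) ⟶ A)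
    (e : ⊤ ≤ (Spec.map φ ≫ hU.fromSpec) ⁻¹ᵁ U) (a : Γ(B, U)) :
    pb (Spec.map φ ≫ hU.fromSpec) e a = (Scheme.ΓSpecIso A).inv (φ a) := by
  have h1 : hU.fromSpec.appLE U ⊤ hU.fromSpec_preimage_self.ge =
      (Scheme.ΓSpecIso Γ(B, U)).inv := by
    rw [Scheme.Hom.appLE, hU.fromSpec_app_self, Category.assoc, ← Functor.map_comp]
    exact Category.comp_id _
  rw [← pb_pb (Spec.map φ) hU.fromSpec hU.fromSpec_preimage_self.ge le_top e, pb, pb, h1,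
    ← CommRingCat.comp_apply, ← CommRingCat.comp_apply, Scheme.ΓSpecIso_inv_naturality]
  congr 3

lemma gd_spec (hU : IsAffineOpen U) {A : CommRingCat.{0}} (φ : Γ(B, U) ⟶ A) {u α β : A}
    (hu : u ∈ nonZeroDivisors A) (hs : φ s = α * u) (ht : φ t = β * u) {P : PrimeSpectrum A}
    (hP : α ∉ P.asIdeal) : (P : Spec A) ∈ loc (Spec.map φ ≫ hU.fromSpec) s t := by
  have e : ⊤ ≤ (Spec.map φ ≫ hU.fromSpec) ⁻¹ᵁ U := fun y _ => by
    simp
  have hb : Function.Bijective (Scheme.ΓSpecIso A).inv := ConcreteCategory.bijective_of_isIso _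
  have h1 : (Scheme.ΓSpecIso A).inv u ∈ nonZeroDivisors Γ(Spec A, ⊤) := by
    refine mem_nonZeroDivisors_iff_right.2 fun c hc => ?_
    obtain ⟨c, rfl⟩ := hb.2 c
    rw [← map_mul, ← map_zero (Scheme.ΓSpecIso A).inv.hom] at hc
    rw [mem_nonZeroDivisors_iff_right.1 hu _ (hb.1 hc), map_zero]
  refine (gd_basic (isAffineOpen_top (Spec A)) e h1 (α := (Scheme.ΓSpecIso A).inv α)
    (β := (Scheme.ΓSpecIso A).inv β) (by rw [pb_spec, hs, map_mul])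
    (by rw [pb_spec, ht, map_mul])).le ?_
  rw [basicOpen_eq_of_affine]
  exact hP

/-- The chart where `s` generates. -/
theorem chart {B' : Scheme.{0}} {f : B' ⟶ B} {I : B.IdealSheafData} (hf : IsBlowUp f I)
    (hU : IsAffineOpen U) (hst : I.ideal ⟨U, hU⟩ = Ideal.span {s, t}) {A : Type} [CommRing A]
    (φ : Γ(B, U) →+* A) (r : A) (hc : IsChart φ s t r) :
    ∃ g : Spec (.of A) ⟶ B', IsOpenImmersion g ∧
      g ≫ f = Spec.map (CommRingCat.ofHom φ) ≫ hU.fromSpec ∧ Set.range g = loc f s t := by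
  have h1 : ∀ P, P ∈ loc (Spec.map (CommRingCat.ofHom φ) ≫ hU.fromSpec) s t := fun P =>
    gd_spec hU (A := .of A) (CommRingCat.ofHom φ) (u := φ s) (α := 1) (β := r) hc.1
      (one_mul _).symm hc.2.1 (Ideal.ne_top_iff_one _ |>.1 P.isPrime.ne_top)
  obtain ⟨g, hg, -⟩ := hf.2 _ _ (invPull_of_loc hU hst h1)
  obtain ⟨r', hr'⟩ := dvd_loc (g := f) (s := s) (t := t)
  obtain ⟨ψ, hψ, -⟩ := hc.2.2 _ (pb f (loc_le (s := s) (t := t))) r' (nzd_of_le le_rfl _) hr'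
  set a : (loc f s t).toScheme ⟶ Spec (.of A) :=
    (loc f s t).toSpecΓ ≫ Spec.map (CommRingCat.ofHom ψ) with ha
  have h2 : a ≫ Spec.map (CommRingCat.ofHom φ) ≫ hU.fromSpec = (loc f s t).ι ≫ f := by
    have h3 : CommRingCat.ofHom φ ≫ CommRingCat.ofHom ψ = f.appLE U (loc f s t) loc_le :=
      CommRingCat.hom_ext hψ
    rw [ha, Category.assoc, ← Spec.map_comp_assoc, h3,
      Scheme.Opens.toSpecΓ_SpecMap_appLE_assoc, hU.toSpecΓ_fromSpec, Scheme.Hom.resLE_comp_ι]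
  have h4 : a ≫ g = (loc f s t).ι :=
    (hf.2 _ _ (invPull_of_loc hU hst fun x => mem_loc_open (loc f s t).ι (by simp))).unique
      (by rw [Category.assoc, hg, h2]) rfl
  have h5 : Set.range g ⊆ Set.range (loc f s t).ι := by
    rintro _ ⟨P, rfl⟩
    rw [Scheme.Opens.range_ι]
    exact map_mem_loc hf.1 hU hst g (hg ▸ h1 P)
  set g' := IsOpenImmersion.lift (loc f s t).ι g h5 with hg'
  have h6 : g' ≫ (loc f s t).ι = g := IsOpenImmersion.lift_fac _ _ _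
  have h7 : a ≫ g' = 𝟙 _ := by
    rw [← cancel_mono (loc f s t).ι, Category.assoc, h6, h4, Category.id_comp]
  have h8 : g' ≫ a = 𝟙 _ := by
    obtain ⟨χ, hχ⟩ := Spec.map_surjective (g' ≫ a)
    have h9 : Spec.map χ ≫ Spec.map (CommRingCat.ofHom φ) = Spec.map (CommRingCat.ofHom φ) := by
      rw [← cancel_mono hU.fromSpec, hχ, Category.assoc, Category.assoc, h2, ← Category.assoc, h6,
        hg]
    rw [← Spec.map_comp] at h9
    have h10 : χ.hom.comp φ = φ := congrArg CommRingCat.Hom.hom (Spec.map_injective h9)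
    have h11 : χ.hom = RingHom.id A :=
      (hc.2.2 A φ r hc.1 hc.2.1).unique h10 (RingHom.id_comp φ)
    rw [← hχ, ← Spec.map_id]
    congr 1
    exact CommRingCat.hom_ext h11
  have : IsIso g' := ⟨⟨a, h8, h7⟩⟩
  refine ⟨g, h6 ▸ inferInstance, hg, subset_antisymm (by rwa [Scheme.Opens.range_ι] at h5) ?_⟩
  intro x hx
  refine ⟨a ⟨x, hx⟩, ?_⟩
  rw [← Scheme.Hom.comp_apply, h4]
  rfl

lemma isChart_comp {R R' A : Type} [CommRing R] [CommRing R'] [CommRing A] (θ : R' ≃+* R)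
    {φ : R →+* A} {s t : R} {r : A} (h : IsChart φ s t r) :
    IsChart (φ.comp θ.toRingHom) (θ.symm s) (θ.symm t) r := by
  refine ⟨by simpa using h.1, by simpa using h.2.1, fun A' _ ψ r' h1 h2 => ?_⟩
  obtain ⟨ψ', h3, h4⟩ := h.2.2 A' (ψ.comp θ.symm.toRingHom) r' h1 h2
  refine ⟨ψ', RingHom.ext fun x => ?_, fun ψ'' h5 => h4 _ (RingHom.ext fun x => ?_)⟩
  · simpa using RingHom.congr_fun h3 (θ x)
  · simpa using RingHom.congr_fun h5 (θ.symm x)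

lemma exists_iso {R : Type} [CommRing R] (j : Spec (.of R) ⟶ B) [IsOpenImmersion j] :
    ∃ (U : B.Opens) (hU : IsAffineOpen U) (θ : Γ(B, U) ≅ .of R),
      Spec.map θ.hom ≫ hU.fromSpec = j := by
  have hU := (isAffineOpen_top (Spec (.of R))).image_of_isOpenImmersion j
  refine ⟨_, hU, j.appIso ⊤ ≪≫ Scheme.ΓSpecIso _, ?_⟩
  rw [Iso.trans_hom, Spec.map_comp, Category.assoc, Scheme.Hom.appIso_hom',
    IsAffineOpen.SpecMap_appLE_fromSpec j hU (isAffineOpen_top _), IsAffineOpen.fromSpec_top,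
    Scheme.isoSpec_Spec_inv, ← Spec.map_comp_assoc, Iso.inv_hom_id, Spec.map_id, Category.id_comp]

theorem two {B' : Scheme.{0}} {f : B' ⟶ B} {C : Closeds B}
    (hf : IsBlowUp f (Scheme.IdealSheafData.vanishingIdeal C))
    (R R₁ R₂ : Type) [CommRing R] [CommRing R₁] [CommRing R₂] (j : Spec (.of R) ⟶ B)
    [IsOpenImmersion j] (s t : R) (φ₁ : R →+* R₁) (r₁ : R₁) (φ₂ : R →+* R₂) (r₂ : R₂)
    (hrad : (Ideal.span {s, t}).IsRadical)
    (hC : ∀ P : PrimeSpectrum R, j P ∈ C ↔ s ∈ P.asIdeal ∧ t ∈ P.asIdeal)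
    (h₁ : IsChart φ₁ s t r₁) (h₂ : IsChart φ₂ t s r₂) :
    ∃ (g₁ : Spec (.of R₁) ⟶ B') (g₂ : Spec (.of R₂) ⟶ B'),
      IsOpenImmersion g₁ ∧ IsOpenImmersion g₂ ∧
      g₁ ≫ f = Spec.map (CommRingCat.ofHom φ₁) ≫ j ∧
      g₂ ≫ f = Spec.map (CommRingCat.ofHom φ₂) ≫ j ∧
      Set.range g₁ ∪ Set.range g₂ = f ⁻¹' Set.range j ∧
      (∀ P : PrimeSpectrum R₁, r₁ ∉ P.asIdeal → g₁ P ∈ Set.range g₂) ∧
      (∀ P : PrimeSpectrum R₂, r₂ ∉ P.asIdeal → g₂ P ∈ Set.range g₁) := by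
  obtain ⟨U, hU, θ, rfl⟩ := exists_iso j
  set e : Γ(B, U) ≃+* R := θ.commRingCatIsoToRingEquiv with he
  have hθ : θ.hom = CommRingCat.ofHom e.toRingHom := rfl
  have hst : (Scheme.IdealSheafData.vanishingIdeal C).ideal ⟨U, hU⟩ =
      Ideal.span {e.symm s, e.symm t} := by
    have h1 : Ideal.span {e.symm s, e.symm t} = (Ideal.span {s, t}).comap e := by
      rw [← Ideal.map_symm, Ideal.map_span, Set.image_pair]
    have h2 : (Ideal.span {e.symm s, e.symm t}).IsRadical := h1 ▸ hrad.comap e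
    rw [Scheme.IdealSheafData.vanishingIdeal_ideal, ← h2.radical,
      ← PrimeSpectrum.vanishingIdeal_zeroLocus_eq_radical, PrimeSpectrum.zeroLocus_span]
    congr 1
    ext P
    have h3 := hC (Spec.map θ.inv P)
    rw [← Scheme.Hom.comp_apply, ← Spec.map_comp_assoc, Iso.hom_inv_id, Spec.map_id,
      Category.id_comp] at h3
    refine h3.trans ?_
    rw [PrimeSpectrum.mem_zeroLocus, Set.pair_subset_iff]
    rfl
  have hts : (Scheme.IdealSheafData.vanishingIdeal C).ideal ⟨U, hU⟩ =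
      Ideal.span {e.symm t, e.symm s} := by rw [hst, Set.pair_comm]
  have c₁ := isChart_comp e h₁
  have c₂ := isChart_comp e h₂
  obtain ⟨g₁, o₁, e₁, ρ₁⟩ := chart hf hU hst _ _ c₁
  obtain ⟨g₂, o₂, e₂, ρ₂⟩ := chart hf hU hts _ _ c₂
  refine ⟨g₁, g₂, o₁, o₂, ?_, ?_, ?_, fun P hP => ?_, fun P hP => ?_⟩
  · rw [e₁, hθ, ← Spec.map_comp_assoc]; rfl
  · rw [e₂, hθ, ← Spec.map_comp_assoc]; rfl
  · have h1 : Set.range (Spec.map θ.hom ≫ hU.fromSpec) = U := by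
      rw [Scheme.Hom.comp_base, TopCat.coe_comp,
        (Scheme.Hom.surjective (Spec.map θ.hom)).range_comp, hU.range_fromSpec]
    rw [ρ₁, ρ₂, h1]
    ext x
    exact ⟨fun hx => hx.elim (fun h => loc_le h) fun h => loc_le h, cover hf.1 hU hst⟩
  · rw [ρ₂]
    refine map_mem_loc hf.1 hU hts g₁ ?_
    rw [e₁]
    exact gd_spec hU (A := .of R₁) _ c₁.1 c₁.2.1 (one_mul _).symm hP
  · rw [ρ₁]
    refine map_mem_loc hf.1 hU hst g₂ ?_
    rw [e₂]
    exact gd_spec hU (A := .of R₂) _ c₂.1 c₂.2.1 (one_mul _).symm hP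

lemma invPull_of_notMem {C : Closeds B} (g : T ⟶ B) (h : ∀ x, g x ∉ C) :
    InvPull g (Scheme.IdealSheafData.vanishingIdeal C) := by
  intro x
  obtain ⟨_, ⟨U, hU, rfl⟩, hxU, hUC⟩ :=
    B.isBasis_affineOpens.exists_subset_of_mem_open (h x) C.isClosed.isOpen_compl
  obtain ⟨_, ⟨V, hV, rfl⟩, hxV, hVU⟩ :=
    T.isBasis_affineOpens.exists_subset_of_mem_open (a := x) hxU (g ⁻¹ᵁ U).isOpen
  refine ⟨⟨U, hU⟩, ⟨V, hV⟩, hVU, 1, hxV, one_mem _, ?_⟩
  have h1 : (Scheme.IdealSheafData.vanishingIdeal C).ideal ⟨U, hU⟩ = ⊤ := by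
    rw [Scheme.IdealSheafData.vanishingIdeal_ideal, ← PrimeSpectrum.vanishingIdeal_empty]
    congr 1
    refine Set.eq_empty_of_forall_notMem fun P hP => hUC ?_ hP
    rw [← hU.range_fromSpec]
    exact ⟨P, rfl⟩
  rw [h1, Ideal.map_top, Ideal.span_singleton_one]

end Blow

theorem blowStmt : BlowStmt := by
  intro B' B f C hf
  refine ⟨Blow.two hf, fun R _ j _ hj => ?_, fun T h h' e hx => ?_⟩
  · have hc : IsChart (RingHom.id R) 1 1 1 :=
      ⟨one_mem _, (one_mul _).symm, fun A _ ψ _ _ _ =>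
        ⟨ψ, ψ.comp_id, fun ψ' h => ψ'.comp_id.symm.trans h⟩⟩
    obtain ⟨g₁, g₂, o₁, -, e₁, -, h1, -, h2⟩ := Blow.two hf R R R j 1 1 _ 1 _ 1
      (by rw [Set.pair_eq_singleton, Ideal.span_singleton_one]; exact le_top)
      (fun P => iff_of_false (hj P) fun h => (Ideal.ne_top_iff_one _).1 P.isPrime.ne_top h.1) hc hc
    refine ⟨g₁, o₁, by simpa using e₁, ?_⟩
    rw [← h1, eq_comm, Set.union_eq_left]
    rintro _ ⟨P, rfl⟩
    exact h2 P ((Ideal.ne_top_iff_one _).1 P.isPrime.ne_top)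
  · exact (hf.2 T (h ≫ f) (Blow.invPull_of_notMem _ fun x => by simpa using hx x)).unique rfl e.symm

end Pool.Agent.Lib.MP_2c79a0_ag
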