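import Mathlib

/-!
Definitions used in the statement: cycles, rational equivalence, the Serre intersection product of
properly meeting cycles, numerical triviality, blow-ups, the iterated blow-up of projective space
along the strict transforms of the pairwise intersections of hyperplanes, and the double cover.
-/

open AlgebraicGeometry CategoryTheory TopologicalSpace

noncomputable section

namespace Pool.Agent.Lib.MP_2c79a0_ag.St

/-- `c` is a cycle of codimension `k` with rational coefficients: a finitely supported function on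
the points of `X` (a point stands for its closure, a subvariety), supported in codimension `k`. -/
def IsCycle (X : Scheme.{0}) (k : ℕ) (c : X → ℚ) : Prop :=
  (Function.support c).Finite ∧ ∀ x, c x ≠ 0 → Order.coheight x = (k : ℕ∞)

/-- The codimension `k` cycles rationally equivalent to zero: the span of the divisors of nonzero
rational functions on integral closed subschemes of codimension `k - 1`. -/
def Rat (X : Scheme.{0}) (k : ℕ) : Submodule ℚ (X → ℚ) :=
  Submodule.span ℚ {c | ∃ (W : Scheme.{0}) (_ : IsIntegral W) (_ : IsLocallyNoetherian W)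
    (ι : W ⟶ X) (_ : IsClosedImmersion ι) (φ : W.functionField), φ ≠ 0 ∧
    Order.coheight (ι (genericPoint W)) + 1 = (k : ℕ∞) ∧
    c = Function.extend ι (fun z => (W.ord φ z : ℚ)) 0}

/-- The inverse image of the maximal ideal of a local ring. -/
def comapMax {A B : CommRingCat.{0}} [IsLocalRing B] (φ : A ⟶ B) : Ideal A :=
  (IsLocalRing.maximalIdeal B).comap φ.hom

open Classical in
/-- The prime ideal of the local ring at `z` defining the closure of `v`. -/
def primeAt {X : Scheme.{0}} (v z : X) : Ideal (X.presheaf.stalk z) :=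
  if h : v ⤳ z then comapMax (X.presheaf.stalkSpecializes h) else ⊤

/-- Serre's alternating sum of the lengths of the `Tor` modules of `A / I` and `A / J`. -/
def serreRing (A : Type) [CommRing A] (I J : Ideal A) : ℤ :=
  ∑ᶠ k : ℕ, (-1) ^ k * ((Module.length A (((Tor (ModuleCat.{0} A) k).obj
    (ModuleCat.of A (A ⧸ I))).obj (ModuleCat.of A (A ⧸ J)))).toNat : ℤ)

/-- Serre's intersection multiplicity at `z` of the closures of `v` and `w`. -/
def serre {X : Scheme.{0}} (v w z : X) : ℤ :=
  serreRing (X.presheaf.stalk z) (primeAt v z) (primeAt w z)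

/-- `z` is the generic point of an irreducible component of the intersection of the closures of
`v` and `w`. -/
def Comp {X : Scheme.{0}} (v w z : X) : Prop :=
  v ⤳ z ∧ w ⤳ z ∧ ∀ y, v ⤳ y → w ⤳ y → y ⤳ z → y = z

/-- The cycles `a` and `b` meet properly. -/
def Proper {X : Scheme.{0}} (a b : X → ℚ) : Prop :=
  ∀ v w z, a v ≠ 0 → b w ≠ 0 → Comp v w z →
    Order.coheight z = Order.coheight v + Order.coheight w

open Classical in
/-- The intersection product of properly meeting cycles, by Serre's `Tor` formula. -/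
def inter {X : Scheme.{0}} (a b : X → ℚ) : X → ℚ := fun z =>
  ∑ᶠ v, ∑ᶠ w, if Comp v w z then a v * b w * (serre v w z : ℚ) else 0

/-- The class of the codimension `k` cycle `γ` on the `n`-fold `X` is numerically trivial: it has
intersection number zero with every cycle of complementary codimension. -/
def NumTriv (X : Scheme.{0}) (n k : ℕ) (γ : X → ℚ) : Prop :=
  ∀ (l : ℕ) (a δ : X → ℚ), k + l = n → IsCycle X k a → IsCycle X l δ → γ - a ∈ Rat X k →
    Proper a δ → ∑ᶠ z, inter a δ z = 0

/-- The extension of the ideal `I` along `φ` is generated by a nonzerodivisor. -/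
def InvMap {A B : CommRingCat.{0}} (φ : A ⟶ B) (I : Ideal A) : Prop :=
  ∃ u ∈ nonZeroDivisors B, I.map φ.hom = Ideal.span {u}

/-- The inverse image of the ideal sheaf `I` under `g` is invertible. -/
def InvPull {T B : Scheme.{0}} (g : T ⟶ B) (I : B.IdealSheafData) : Prop :=
  ∀ x : T, ∃ (U : B.affineOpens) (V : T.affineOpens) (e : V.1 ≤ g ⁻¹ᵁ U.1),
    x ∈ V.1 ∧ InvMap (g.appLE U.1 V.1 e) (I.ideal U)

/-- `f` is the blow-up along `I`, by its universal property. -/
def IsBlowUp {B' B : Scheme.{0}} (f : B' ⟶ B) (I : B.IdealSheafData) : Prop :=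
  InvPull f I ∧ ∀ (T : Scheme.{0}) (g : T ⟶ B), InvPull g I → ∃! h : T ⟶ B', h ≫ f = g

attribute [local instance] MvPolynomial.gradedAlgebra

/-- The standard grading of the polynomial ring in `n + 1` variables. -/
abbrev gr (n : ℕ) : ℕ → Submodule ℂ (MvPolynomial (Fin (n + 1)) ℂ) :=
  MvPolynomial.homogeneousSubmodule (Fin (n + 1)) ℂ

/-- Complex projective `n`-space. -/
def Pn (n : ℕ) : Scheme.{0} := Proj (gr n)

/-- The open set of projective space where the form `f` does not vanish. -/
def Dplus {n : ℕ} (f : MvPolynomial (Fin (n + 1)) ℂ) : (Pn n).Opens := Proj.basicOpen (gr n) f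

/-- The linear form with coefficient vector `v`. -/
def lin {n : ℕ} (v : Fin (n + 1) → ℂ) : MvPolynomial (Fin (n + 1)) ℂ :=
  ∑ k, MvPolynomial.C (v k) * MvPolynomial.X k

/-- The hyperplanes are in general position: any at most `n + 1` of the linear forms are linearly
independent. -/
def GenPos {n : ℕ} (ℓ : Fin (2 * n + 2) → Fin (n + 1) → ℂ) : Prop :=
  ∀ s : Finset (Fin (2 * n + 2)), s.card ≤ n + 1 → LinearIndependent ℂ (fun i : s => ℓ i)

/-- `Tower ℓ B p Z S`: the morphism `p` from `B` to projective space is obtained by blowing up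
successively, for the pairs `s` in `S` in some order, the strict transform of the intersection of
the two hyperplanes indexed by `s`; `Z t` is the strict transform in `B` of the intersection of the
hyperplanes indexed by `t`. -/
inductive Tower {n : ℕ} (ℓ : Fin (2 * n + 2) → Fin (n + 1) → ℂ) :
    (B : Scheme.{0}) → (B ⟶ Pn n) → (Finset (Fin (2 * n + 2)) → Set B) →
      Finset (Finset (Fin (2 * n + 2))) → Prop
  | base : Tower ℓ (Pn n) (𝟙 _) (fun t => ⋂ i ∈ t, (Dplus (lin (ℓ i)) : Set (Pn n))ᶜ) ∅
  | step {B B' : Scheme.{0}} {p : B ⟶ Pn n} {Z : Finset (Fin (2 * n + 2)) → Set B}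
      {S : Finset (Finset (Fin (2 * n + 2)))} (s : Finset (Fin (2 * n + 2))) (f : B' ⟶ B) :
      Tower ℓ B p Z S → s.card = 2 → s ∉ S →
      IsBlowUp f (Scheme.IdealSheafData.vanishingIdeal (Closeds.closure (Z s))) →
      Tower ℓ B' (f ≫ p) (fun t => closure (f ⁻¹' (Z t \ Z s))) (insert s S)

/-- The degree zero fraction `h` with denominator a power of `F` equals `F / G`. -/
def IsRatio {A : Type} [CommRing A] [Algebra ℂ A] (𝒜 : ℕ → Submodule ℂ A) (F G : A)
    (h : HomogeneousLocalization.Away 𝒜 F) : Prop :=
  h.val * algebraMap A (Localization.Away F) G = algebraMap A (Localization.Away F) F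

/-- The value of a ring map. -/
def ev {A B : CommRingCat.{0}} (φ : A ⟶ B) (a : A) : B := φ a

/-- A degree zero fraction as a regular function on the open set where `F` does not vanish. -/
def sect {A : Type} [CommRing A] [Algebra ℂ A] (𝒜 : ℕ → Submodule ℂ A) [GradedAlgebra 𝒜] (F : A)
    (h : HomogeneousLocalization.Away 𝒜 F) : Γ(Proj 𝒜, Proj.basicOpen 𝒜 F) :=
  ev (Proj.awayToSection 𝒜 F) h

/-- `B` is obtained from `A` by adjoining a square root `w` of `h`, free with basis `1, w`. -/
def IsSqrtExt {A B : CommRingCat.{0}} (φ : A ⟶ B) (h : A) : Prop :=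
  ∃ w : B, w ^ 2 = φ h ∧ Function.Bijective fun ab : A × A => φ ab.1 + φ ab.2 * w

/-- Over the open set `U`, the morphism `q` is given by adjoining a square root of `h`. -/
def SqrtOver {X P : Scheme.{0}} (q : X ⟶ P) (U : P.Opens) (h : Γ(P, U)) : Prop :=
  IsSqrtExt (q.app U) h

/-- Over the open set where `F` does not vanish, `q` is given by `w ^ 2 = F / G`. -/
def ProjSqrt {A : Type} [CommRing A] [Algebra ℂ A] (𝒜 : ℕ → Submodule ℂ A) [GradedAlgebra 𝒜]
    {X : Scheme.{0}} (q : X ⟶ Proj 𝒜) (F G : A) : Prop :=
  ∃ h, IsRatio 𝒜 F G h ∧ SqrtOver q (Proj.basicOpen 𝒜 F) (sect 𝒜 F h)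

/-- The product of the linear forms. -/
def prodLin {n : ℕ} (ℓ : Fin (2 * n + 2) → Fin (n + 1) → ℂ) : MvPolynomial (Fin (n + 1)) ℂ :=
  ∏ i, lin (ℓ i)

/-- `π` is the double cover of `B` induced by the double cover of projective space branched along
the hyperplanes: `X` is integral and normal, `π` is finite, and over the complement of the
hyperplanes `X` is given by `w ^ 2 = F / ℓ₀ ^ (2 n + 2)`, where `F` is the product of the linear
forms. -/
def DoubleCover {n : ℕ} (ℓ : Fin (2 * n + 2) → Fin (n + 1) → ℂ) {X B : Scheme.{0}}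
    (π : X ⟶ B) (p : B ⟶ Pn n) : Prop :=
  IsIntegral X ∧ (∀ x : X, IsIntegrallyClosed (X.presheaf.stalk x)) ∧ IsFinite π ∧
  ProjSqrt (gr n) (π ≫ p) (prodLin ℓ) (lin (ℓ 0) ^ (2 * n + 2))

end Pool.Agent.Lib.MP_2c79a0_ag.St
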