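import Pool.Agent.Lib.MP_2c79a0_ag.Defs
import Pool.Agent.Lib.MP_2c79a0_ag.Stmt

/-!
The definitions of the statement agree with those of the library.
-/

open AlgebraicGeometry CategoryTheory TopologicalSpace

namespace Pool.Agent.Lib.MP_2c79a0_ag.Bridge

lemma invPull_iff {T B : Scheme.{0}} (g : T ⟶ B) (I : B.IdealSheafData) :
    St.InvPull g I ↔ InvPull g I :=
  ⟨fun h x => by
    obtain ⟨U, V, e, hx, u, hu, h'⟩ := h x
    exact ⟨U, V, e, u, hx, hu, h'⟩, fun h x => by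
    obtain ⟨U, V, e, u, hx, hu, h'⟩ := h x
    exact ⟨U, V, e, hx, u, hu, h'⟩⟩

lemma isBlowUp {B' B : Scheme.{0}} {f : B' ⟶ B} {I : B.IdealSheafData} (h : St.IsBlowUp f I) :
    IsBlowUp f I :=
  ⟨(invPull_iff _ _).1 h.1, fun T g hg => h.2 T g ((invPull_iff _ _).2 hg)⟩

lemma tower {n : ℕ} {ℓ : Fin (2 * n + 2) → Fin (n + 1) → ℂ} {B : Scheme.{0}} {p : B ⟶ St.Pn n}
    {Z : Finset (Fin (2 * n + 2)) → Set B} {S : Finset (Finset (Fin (2 * n + 2)))}
    (h : St.Tower ℓ B p Z S) : Tower ℓ B p Z S := by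
  induction h with
  | base => exact Tower.base
  | step s f _ hs hS hf ih => exact Tower.step s f ih hs hS (isBlowUp hf)

lemma doubleCover {n : ℕ} {ℓ : Fin (2 * n + 2) → Fin (n + 1) → ℂ} {X B : Scheme.{0}}
    {π : X ⟶ B} {p : B ⟶ St.Pn n} (h : St.DoubleCover ℓ π p) : DoubleCover ℓ π p := by
  obtain ⟨h1, h2, h3, h, h4, w, h5, h6⟩ := h
  exact ⟨h1, h2, h3, h, w, h4, h5, h6⟩

lemma inter_eq {X : Scheme.{0}} (a b : X → ℚ) : St.inter a b = inter a b := rfl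

lemma rat_eq (X : Scheme.{0}) (k : ℕ) : St.Rat X k = Rat X k := rfl

lemma numTriv {X : Scheme.{0}} {n k : ℕ} {γ : X → ℚ} (h : St.NumTriv X n k γ) :
    NumTriv X n k γ := h

end Pool.Agent.Lib.MP_2c79a0_ag.Bridge
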