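import Pool.Agent.Lib.MP_2c79a0_ag.Geo

/-!
Algebra of the toric-like charts of the iterated blow-up.
-/

open Algebra

noncomputable section

namespace Pool.Agent.Lib.MP_2c79a0_ag

namespace ChartB

/-! ### Generic algebra -/

lemma isChart_of {R R₁ : Type} [CommRing R] [CommRing R₁] (φ : R →+* R₁)
    (hφ : Function.Injective φ) (s t : R) (r : R₁) (hs : φ s ∈ nonZeroDivisors R₁)
    (ht : φ t = r * φ s)
    (hgen : ∀ p : R₁ → Prop, (∀ a, p (φ a)) → p r → (∀ x y, p x → p y → p (x + y)) →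
      (∀ x y, p x → p y → p (x * y)) → ∀ x, p x) : IsChart φ s t r := by
  refine ⟨hs, ht, fun A _ ψ r' hs' ht' => ?_⟩
  let Rl : R₁ → A → Prop := fun x z => ∃ (k : ℕ) (p : R), x * φ s ^ k = φ p ∧ z * ψ s ^ k = ψ p
  have hadd : ∀ x y z w, Rl x z → Rl y w → Rl (x + y) (z + w) := by
    rintro x y z w ⟨k, p, h1, h2⟩ ⟨l, q, h3, h4⟩
    refine ⟨k + l, p * s ^ l + q * s ^ k, ?_, ?_⟩
    · simp only [map_add, map_mul, map_pow, ← h1, ← h3]; ring
    · simp only [map_add, map_mul, map_pow, ← h2, ← h4]; ring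
  have hmul : ∀ x y z w, Rl x z → Rl y w → Rl (x * y) (z * w) := by
    rintro x y z w ⟨k, p, h1, h2⟩ ⟨l, q, h3, h4⟩
    refine ⟨k + l, p * q, ?_, ?_⟩
    · simp only [map_mul, ← h1, ← h3]; ring
    · simp only [map_mul, ← h2, ← h4]; ring
  have hbase : ∀ a, Rl (φ a) (ψ a) := fun a => ⟨0, a, by simp, by simp⟩
  have hex : ∀ x, ∃ z, Rl x z := by
    refine hgen _ (fun a => ⟨_, hbase a⟩) ⟨r', 1, t, by simp [ht], by simp [ht']⟩ ?_ ?_
    · rintro x y ⟨z, hz⟩ ⟨w, hw⟩; exact ⟨_, hadd _ _ _ _ hz hw⟩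
    · rintro x y ⟨z, hz⟩ ⟨w, hw⟩; exact ⟨_, hmul _ _ _ _ hz hw⟩
  have huniq : ∀ x z w, Rl x z → Rl x w → z = w := by
    rintro x z w ⟨k, p, h1, h2⟩ ⟨l, q, h3, h4⟩
    have e : p * s ^ l = q * s ^ k := by
      apply hφ
      simp only [map_mul, map_pow, ← h1, ← h3]; ring
    have e2 : z * ψ s ^ (k + l) = w * ψ s ^ (k + l) := by
      have := congrArg ψ e
      simp only [map_mul, map_pow, ← h2, ← h4] at this
      rw [pow_add]; linear_combination this
    exact (mul_cancel_right_mem_nonZeroDivisors (pow_mem hs' (k + l))).mp e2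
  choose F hF using hex
  have hF' : ∀ a, F (φ a) = ψ a := fun a => huniq _ _ _ (hF _) (hbase a)
  let ψ' : R₁ →+* A :=
    { toFun := F
      map_one' := by simpa using hF' 1
      map_zero' := by simpa using hF' 0
      map_mul' := fun x y => huniq _ _ _ (hF _) (hmul _ _ _ _ (hF x) (hF y))
      map_add' := fun x y => huniq _ _ _ (hF _) (hadd _ _ _ _ (hF x) (hF y)) }
  refine ⟨ψ', RingHom.ext fun a => hF' a, fun ψ'' h => RingHom.ext fun x => ?_⟩
  obtain ⟨k, p, h1, h2⟩ := hF x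
  refine huniq x _ _ ⟨k, p, h1, ?_⟩ (hF x)
  have e1 : ∀ a, ψ'' (φ a) = ψ a := fun a => by rw [← h]; rfl
  rw [← e1, ← e1, ← map_pow, ← map_mul, h1]

open Classical in
lemma span_X_eq_ker {ι : Type} (S : Set ι) :
    Ideal.span (MvPolynomial.X '' S : Set (MvPolynomial ι ℂ)) =
      RingHom.ker (MvPolynomial.aeval (R := ℂ) (S₁ := MvPolynomial ι ℂ)
        fun i => if i ∈ S then 0 else MvPolynomial.X i) := by
  apply le_antisymm
  · rw [Ideal.span_le]
    rintro _ ⟨i, hi, rfl⟩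
    simp [RingHom.mem_ker, hi]
  · have key : ∀ p : MvPolynomial ι ℂ, p - MvPolynomial.aeval (R := ℂ) (S₁ := MvPolynomial ι ℂ)
        (fun i => if i ∈ S then 0 else MvPolynomial.X i) p ∈
        Ideal.span (MvPolynomial.X '' S : Set (MvPolynomial ι ℂ)) := by
      intro p
      induction p using MvPolynomial.induction_on with
      | C a => simp
      | add p q hp hq =>
        have := Ideal.add_mem _ hp hq
        convert this using 1
        rw [map_add]; ring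
      | mul_X p i hp =>
        by_cases hi : i ∈ S
        · simp only [map_mul, MvPolynomial.aeval_X, hi, if_true, mul_zero, sub_zero]
          exact Ideal.mul_mem_left _ _ (Ideal.subset_span ⟨i, hi, rfl⟩)
        · simp only [map_mul, MvPolynomial.aeval_X, hi, if_false]
          rw [← sub_mul]
          exact Ideal.mul_mem_right _ _ hp
    intro p hp
    have := key p
    rw [RingHom.mem_ker] at hp
    rwa [hp, sub_zero] at this

lemma span_X_prime {ι : Type} (S : Set ι) :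
    (Ideal.span (MvPolynomial.X '' S : Set (MvPolynomial ι ℂ))).IsPrime := by
  rw [span_X_eq_ker]; exact RingHom.ker_isPrime _

lemma X_notMem {ι : Type} (S : Set ι) (i : ι) (hi : i ∉ S) :
    MvPolynomial.X i ∉ Ideal.span (MvPolynomial.X '' S : Set (MvPolynomial ι ℂ)) := by
  rw [span_X_eq_ker, RingHom.mem_ker]
  simp [hi, MvPolynomial.X_ne_zero]

lemma cc_of_mem {ι : Type} (S : Set ι) (p : MvPolynomial ι ℂ)
    (hp : p ∈ Ideal.span (MvPolynomial.X '' S : Set (MvPolynomial ι ℂ))) :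
    MvPolynomial.constantCoeff p = 0 := by
  have : Ideal.span (MvPolynomial.X '' S : Set (MvPolynomial ι ℂ)) ≤
      RingHom.ker (MvPolynomial.constantCoeff : MvPolynomial ι ℂ →+* ℂ) := by
    rw [Ideal.span_le]
    rintro _ ⟨i, _, rfl⟩
    simp [RingHom.mem_ker]
  exact this hp

/-- Consequences of being a localisation of a polynomial ring at elements not vanishing at `0`. -/
lemma loc_facts {ι R : Type} [CommRing R] [Algebra ℂ R] (φ : MvPolynomial ι ℂ →ₐ[ℂ] R)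
    (hinj : Function.Injective φ)
    (hfr : ∀ r, ∃ a s, MvPolynomial.constantCoeff s ≠ 0 ∧ IsUnit (φ s) ∧ r * φ s = φ a) :
    (∃ ev : R →ₐ[ℂ] ℂ, ∀ i, ev (φ (MvPolynomial.X i)) = 0) ∧
    ∀ S : Set ι, (Ideal.span ((fun i => φ (MvPolynomial.X i)) '' S)).IsPrime ∧
      ∀ i ∉ S, φ (MvPolynomial.X i) ∉ Ideal.span ((fun i => φ (MvPolynomial.X i)) '' S) := by
  let M : Submonoid (MvPolynomial ι ℂ) :=
    { carrier := {s | MvPolynomial.constantCoeff s ≠ 0 ∧ IsUnit (φ s)}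
      one_mem' := by simp
      mul_mem' := by
        rintro a b ⟨h1, h2⟩ ⟨h3, h4⟩
        refine ⟨?_, ?_⟩
        · rw [map_mul]; exact mul_ne_zero h1 h3
        · rw [map_mul]; exact h2.mul h4 }
  letI : Algebra (MvPolynomial ι ℂ) R := (φ : MvPolynomial ι ℂ →+* R).toAlgebra
  have ham : ∀ a, algebraMap (MvPolynomial ι ℂ) R a = φ a := fun _ => rfl
  haveI : IsLocalization M R := by
    rw [isLocalization_iff]
    refine ⟨fun y => y.2.2, fun z => ?_, fun {x y} h => ⟨1, by rw [hinj h]⟩⟩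
    obtain ⟨a, s, h1, h2, h3⟩ := hfr z
    exact ⟨(a, ⟨s, h1, h2⟩), h3⟩
  refine ⟨?_, fun S => ?_⟩
  · have hu : ∀ y : M, IsUnit ((MvPolynomial.constantCoeff : MvPolynomial ι ℂ →+* ℂ) y) :=
      fun y => isUnit_iff_ne_zero.mpr y.2.1
    let e : R →+* ℂ := IsLocalization.lift (M := M) hu
    have he : ∀ a, e (φ a) = MvPolynomial.constantCoeff a := fun a =>
      IsLocalization.lift_eq (M := M) hu a
    refine ⟨{ e with commutes' := fun c => ?_ }, fun i => ?_⟩
    · have := he (MvPolynomial.C c)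
      rw [← MvPolynomial.algebraMap_eq, AlgHom.commutes] at this
      simpa using this
    · change e _ = 0
      rw [he]; simp
  · have hmap : Ideal.span ((fun i => φ (MvPolynomial.X i)) '' S) =
        (Ideal.span (MvPolynomial.X '' S : Set (MvPolynomial ι ℂ))).map
          (algebraMap (MvPolynomial ι ℂ) R) := by
      rw [Ideal.map_span, Set.image_image]; rfl
    have hd : Disjoint (M : Set (MvPolynomial ι ℂ))
        (Ideal.span (MvPolynomial.X '' S : Set (MvPolynomial ι ℂ)) : Set (MvPolynomial ι ℂ)) :=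
      Set.disjoint_left.mpr fun s hs hs' => hs.1 (cc_of_mem S s hs')
    rw [hmap]
    refine ⟨IsLocalization.isPrime_of_isPrime_disjoint M R _ (span_X_prime S) hd,
      fun i hi h => ?_⟩
    rw [IsLocalization.mem_map_algebraMap_iff M] at h
    obtain ⟨⟨a, s⟩, h⟩ := h
    have e : (MvPolynomial.X i : MvPolynomial ι ℂ) * (s : MvPolynomial ι ℂ) =
        (a : MvPolynomial ι ℂ) := by
      apply hinj
      rw [map_mul]; exact h
    rcases (span_X_prime S).mem_or_mem (e ▸ a.2) with h1 | h1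
    · exact X_notMem S i hi h1
    · exact s.2.1 (cc_of_mem S _ h1)

lemma prod_step {N : ℕ} {G : Type} [CommMonoid G] (σ : Cone N) (a b : Fin N) (hab : a ≠ b)
    (ha : ({a} : Ray N) ∈ σ) (hb : ({b} : Ray N) ∈ σ) (hs : ({a, b} : Ray N) ∉ σ)
    (y y' : Ray N → G) (h1 : y' {a, b} = y {a}) (h2 : y {a} * y' {b} = y {b})
    (h3 : ∀ ρ, ρ ≠ {a, b} → ρ ≠ {b} → y' ρ = y ρ) (i : Fin N) :
    ∏ ρ ∈ (cStep σ a b).filter (i ∈ ·), y' ρ = ∏ ρ ∈ σ.filter (i ∈ ·), y ρ := by
  have hne : ({b} : Ray N) ≠ {a} := fun h => hab (Finset.singleton_injective h).symm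
  have hb' : ({b} : Ray N) ∈ σ.erase {a} := Finset.mem_erase.mpr ⟨hne, hb⟩
  have hs' : ({a, b} : Ray N) ∉ σ.erase {a} := fun h => hs (Finset.mem_of_mem_erase h)
  rw [Finset.prod_filter, Finset.prod_filter, cStep, Finset.prod_insert hs',
    ← Finset.mul_prod_erase _ _ ha, ← Finset.mul_prod_erase _ _ hb',
    ← Finset.mul_prod_erase _ _ hb', ← mul_assoc, ← mul_assoc]
  congr 1
  · by_cases hia : i = a
    · subst hia
      simp [h1, hab]
    · by_cases hib : i = b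
      · subst hib
        simp [h1, h2, hia]
      · simp [hia, hib]
  · refine Finset.prod_congr rfl fun ρ hρ => ?_
    rw [h3 ρ (fun h => hs' (h ▸ Finset.mem_of_mem_erase hρ)) (Finset.ne_of_mem_erase hρ)]

lemma supp_step {N : ℕ} (σ : Cone N) (a b : Fin N)
    (ha : ({a} : Ray N) ∈ σ) (hb : ({b} : Ray N) ∈ σ) : supp (cStep σ a b) = supp σ := by
  ext i
  simp only [supp, cStep, Finset.mem_biUnion, Finset.mem_insert, Finset.mem_erase, _root_.id]
  constructor
  · rintro ⟨ρ, rfl | ⟨_, h⟩, hi⟩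
    · rcases Finset.mem_insert.mp hi with rfl | hi
      · exact ⟨_, ha, Finset.mem_singleton_self _⟩
      · exact ⟨_, hb, hi⟩
    · exact ⟨ρ, h, hi⟩
  · rintro ⟨ρ, h, hi⟩
    by_cases e : ρ = {a}
    · subst e
      exact ⟨_, Or.inl rfl, by simp [Finset.mem_singleton.mp hi]⟩
    · exact ⟨ρ, Or.inr ⟨e, h⟩, hi⟩

/-! ### Linear forms -/

/-- The linear form with given coefficients, as a rational function. -/
def linL (n : ℕ) : (Fin (n + 1) → ℂ) →ₗ[ℂ] Om n where
  toFun v := algebraMap (MvPolynomial (Fin (n + 1)) ℂ) _ (lin v)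
  map_add' v w := by
    rw [← map_add]; congr 1
    simp [lin, add_mul, Finset.sum_add_distrib]
  map_smul' c v := by
    rw [RingHom.id_apply, Algebra.smul_def (A := Om n),
      IsScalarTower.algebraMap_apply ℂ (MvPolynomial (Fin (n + 1)) ℂ) (Om n), ← map_mul]
    congr 1
    simp [lin, Finset.mul_sum, mul_assoc]

lemma linL_single (n : ℕ) (k : Fin (n + 1)) :
    linL n (Pi.single k 1) = algebraMap (MvPolynomial (Fin (n + 1)) ℂ) _ (MvPolynomial.X k) := by
  change algebraMap (MvPolynomial (Fin (n + 1)) ℂ) _ (lin _) = _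
  congr 1
  rw [lin, Finset.sum_eq_single k]
  · simp
  · intro j _ hj; simp [Pi.single_eq_of_ne hj]
  · simp

lemma lin_ne_zero {n : ℕ} (v : Fin (n + 1) → ℂ) (hv : v ≠ 0) : lin v ≠ 0 := by
  intro h
  apply hv
  funext k
  have := congrArg (MvPolynomial.eval (Pi.single k 1 : Fin (n + 1) → ℂ)) h
  rw [lin, map_sum, Finset.sum_eq_single k] at this
  · simpa using this
  · intro j _ hj; simp [Pi.single_eq_of_ne hj]
  · simp

variable {n : ℕ} {ℓ : Fin (2 * n + 2) → Fin (n + 1) → ℂ}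

lemma LL_eq (i : Fin (2 * n + 2)) : LL ℓ i = linL n (ℓ i) := rfl

lemma LL_ne (hG : GenPos ℓ) (i : Fin (2 * n + 2)) : LL ℓ i ≠ 0 := by
  have h := (hG {i} (by simp)).ne_zero ⟨i, Finset.mem_singleton_self i⟩
  exact (map_ne_zero_iff _ (IsFractionRing.injective _ _)).mpr (lin_ne_zero _ h)

lemma expand (hG : GenPos ℓ) (T : Finset (Fin (2 * n + 2))) (hT : T.card = n)
    (i0 : Fin (2 * n + 2)) (h0 : i0 ∉ T) (v : Fin (n + 1) → ℂ) :
    ∃ (c0 : ℂ) (c : Fin (2 * n + 2) → ℂ), v = c0 • ℓ i0 + ∑ i ∈ T, c i • ℓ i := by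
  have hc : (insert i0 T).card = n + 1 := by rw [Finset.card_insert_of_notMem h0, hT]
  have hli := hG (insert i0 T) hc.le
  have hsp : Submodule.span ℂ (Set.range fun i : (insert i0 T : Finset _) => ℓ i) = ⊤ :=
    hli.span_eq_top_of_card_eq_finrank' (by rw [Fintype.card_coe, hc]; simp)
  have hv : v ∈ Submodule.span ℂ (Set.range fun i : (insert i0 T : Finset _) => ℓ i) := by
    rw [hsp]; trivial
  obtain ⟨c, hc'⟩ := (Submodule.mem_span_range_iff_exists_fun ℂ).mp hv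
  let d : Fin (2 * n + 2) → ℂ := fun i => if h : i ∈ insert i0 T then c ⟨i, h⟩ else 0
  refine ⟨d i0, d, ?_⟩
  rw [← Finset.sum_insert (f := fun i => d i • ℓ i) h0, ← hc',
    ← Finset.sum_coe_sort (insert i0 T) (fun i => d i • ℓ i)]
  refine Finset.sum_congr rfl fun i _ => ?_
  simp only [d, i.2, dif_pos]

lemma expand_ne (hG : GenPos ℓ) (T : Finset (Fin (2 * n + 2))) (hT : T.card = n)
    (j : Fin (2 * n + 2)) (hj : j ∉ T) (c : Fin (2 * n + 2) → ℂ) :
    ℓ j ≠ ∑ i ∈ T, c i • ℓ i := by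
  intro h
  have hc : (insert j T).card = n + 1 := by rw [Finset.card_insert_of_notMem hj, hT]
  have hli := hG (insert j T) hc.le
  have h2 : LinearIndepOn ℂ ℓ ((insert j T : Finset _) : Set _) := hli
  rw [Finset.coe_insert] at h2
  have h3 := (linearIndepOn_insert (by simpa using hj)).mp h2
  apply h3.2
  rw [h]
  exact Submodule.sum_mem _ fun i hi =>
    Submodule.smul_mem _ _ (Submodule.subset_span ⟨i, hi, rfl⟩)

variable {σ : Cone (2 * n + 2)} {i0 : Fin (2 * n + 2)} {y : Ray (2 * n + 2) → Om n}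

lemma exists_poly (hG : GenPos ℓ) (h : Good ℓ σ i0 y) (v : Fin (n + 1) → ℂ) :
    ∃ g : MvPolynomial σ ℂ, MvPolynomial.aeval (fun ρ : σ => y ρ) g * LL ℓ i0 = linL n v ∧
      ∀ j ∉ supp σ, v = ℓ j → MvPolynomial.constantCoeff g ≠ 0 := by
  obtain ⟨c0, c, hv⟩ := expand hG (supp σ) h.card_supp i0 h.i0_notMem v
  refine ⟨MvPolynomial.C c0 + ∑ i ∈ supp σ, MvPolynomial.C (c i) *
    ∏ ρ ∈ Finset.univ.filter (fun ρ : σ => i ∈ ρ.1), (MvPolynomial.X ρ : MvPolynomial σ ℂ),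
    ?_, fun j hj e => ?_⟩
  · rw [hv]
    simp only [map_add, map_sum, map_mul, map_prod, MvPolynomial.aeval_C, MvPolynomial.aeval_X,
      map_smul, add_mul, Finset.sum_mul, Algebra.smul_def (A := Om n), ← LL_eq]
    congr 1
    refine Finset.sum_congr rfl fun i hi => ?_
    rw [h.mono i hi, Finset.prod_filter, Finset.prod_filter,
      Finset.prod_coe_sort σ (fun ρ => if i ∈ ρ then y ρ else 1)]
    ring
  · have h0 : ∀ i ∈ supp σ, MvPolynomial.constantCoeff (MvPolynomial.C (c i) *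
        ∏ ρ ∈ Finset.univ.filter (fun ρ : σ => i ∈ ρ.1),
          (MvPolynomial.X ρ : MvPolynomial σ ℂ)) = 0 := by
      intro i hi
      obtain ⟨ρ, hρ, hi⟩ := Finset.mem_biUnion.mp hi
      rw [map_mul, map_prod, Finset.prod_eq_zero (i := ⟨ρ, hρ⟩), mul_zero]
      · simpa using hi
      · simp
    rw [map_add, map_sum, Finset.sum_eq_zero h0, add_zero, MvPolynomial.constantCoeff_C]
    intro hc
    rw [hc, zero_smul, zero_add, e] at hv
    exact expand_ne hG _ h.card_supp j hj c hv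

lemma alg_indep (hG : GenPos ℓ) (h : Good ℓ σ i0 y) :
    Function.Injective (MvPolynomial.aeval (R := ℂ) fun ρ : σ => y ρ) := by
  let x : Option σ → Om n := fun o => o.elim (LL ℓ i0) fun ρ => y ρ
  have hX : ∀ p : MvPolynomial (Fin (n + 1)) ℂ,
      algebraMap _ (Om n) p ∈ adjoin ℂ (Set.range x) := by
    intro p
    induction p using MvPolynomial.induction_on with
    | C a => exact Subalgebra.algebraMap_mem _ a
    | add p q hp hq => rw [map_add]; exact add_mem hp hq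
    | mul_X p k hp =>
      rw [map_mul]
      refine mul_mem hp ?_
      obtain ⟨g, hg, -⟩ := exists_poly hG h (Pi.single k 1)
      rw [← linL_single, ← hg]
      refine mul_mem ?_ (subset_adjoin ⟨none, rfl⟩)
      have : MvPolynomial.aeval (fun ρ : σ => y ρ) g ∈ adjoin ℂ (Set.range fun ρ : σ => y ρ) := by
        rw [Algebra.adjoin_range_eq_range_aeval]; exact ⟨g, rfl⟩
      exact adjoin_mono (by rintro _ ⟨ρ, rfl⟩; exact ⟨some ρ, rfl⟩) this
  haveI : Algebra.IsAlgebraic (adjoin ℂ (Set.range x)) (Om n) := by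
    refine ⟨fun z => ?_⟩
    obtain ⟨p, q, hq, rfl⟩ := IsFractionRing.div_surjective (A := MvPolynomial (Fin (n + 1)) ℂ) z
    have hq' : algebraMap _ (Om n) q ≠ 0 :=
      (map_ne_zero_iff _ (IsFractionRing.injective _ _)).mpr (nonZeroDivisors.ne_zero hq)
    refine ⟨Polynomial.C ⟨_, hX q⟩ * Polynomial.X - Polynomial.C ⟨_, hX p⟩, ?_, ?_⟩
    · intro e
      have := congrArg (fun P => Polynomial.coeff P 1) e
      simp only [Polynomial.coeff_sub, Polynomial.coeff_C_mul, Polynomial.coeff_X_one, mul_one,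
        Polynomial.coeff_C, one_ne_zero, if_false, sub_zero, Polynomial.coeff_zero] at this
      exact hq' (congrArg Subtype.val this)
    · simp only [map_sub, map_mul, Polynomial.aeval_C, Polynomial.aeval_X]
      change algebraMap _ (Om n) q * _ - algebraMap _ (Om n) p = 0
      field_simp
      ring
  have hX' : AlgebraicIndependent ℂ
      (fun k : Fin (n + 1) => algebraMap (MvPolynomial (Fin (n + 1)) ℂ) (Om n)
        (MvPolynomial.X k)) :=
    (MvPolynomial.algebraicIndependent_X (Fin (n + 1)) ℂ).map'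
      (f := IsScalarTower.toAlgHom ℂ (MvPolynomial (Fin (n + 1)) ℂ) (Om n))
      (IsFractionRing.injective _ _)
  have hb : IsTranscendenceBasis ℂ x := by
    apply Algebra.IsAlgebraic.isTranscendenceBasis_of_le_trdeg_of_finite
    refine le_trans (le_of_eq ?_) hX'.cardinalMk_le_trdeg
    simp [h.card_eq]
  exact hb.1.comp some (Option.some_injective _)

lemma coe_aeval (h : MvPolynomial σ ℂ) :
    ((MvPolynomial.aeval (R := ℂ) (fun ρ : σ => yc ℓ σ i0 y ρ) h : Rc ℓ σ i0 y) : Om n) =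
      MvPolynomial.aeval (fun ρ : σ => y ρ) h := by
  have : (Rc ℓ σ i0 y).val.comp (MvPolynomial.aeval (R := ℂ) (fun ρ : σ => yc ℓ σ i0 y ρ)) =
      MvPolynomial.aeval (fun ρ : σ => y ρ) := by
    ext ρ
    simp [yc, ρ.2]
  exact congrArg (fun f => f h) this

lemma frac (hG : GenPos ℓ) (h : Good ℓ σ i0 y) (r : Rc ℓ σ i0 y) :
    ∃ a s, MvPolynomial.constantCoeff s ≠ 0 ∧
      IsUnit (MvPolynomial.aeval (R := ℂ) (fun ρ : σ => yc ℓ σ i0 y ρ) s) ∧
      r * MvPolynomial.aeval (R := ℂ) (fun ρ : σ => yc ℓ σ i0 y ρ) s =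
        MvPolynomial.aeval (R := ℂ) (fun ρ : σ => yc ℓ σ i0 y ρ) a := by
  obtain ⟨r, hr⟩ := r
  induction hr using Algebra.adjoin_induction with
  | mem x hx =>
    rcases hx with ⟨ρ, hρ, rfl⟩ | ⟨j, hj, rfl⟩
    · refine ⟨MvPolynomial.X ⟨ρ, hρ⟩, 1, by simp, by simp, ?_⟩
      simp [yc, hρ]
    · obtain ⟨g, hg, hg'⟩ := exists_poly hG h (ℓ j)
      have e : (⟨LL ℓ i0 / LL ℓ j, subset_adjoin (Or.inr ⟨j, hj, rfl⟩)⟩ : Rc ℓ σ i0 y) *
          MvPolynomial.aeval (R := ℂ) (fun ρ : σ => yc ℓ σ i0 y ρ) g = 1 := by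
        apply Subtype.ext
        rw [MulMemClass.coe_mul, coe_aeval, OneMemClass.coe_one]
        have := LL_ne hG j
        rw [← LL_eq] at hg
        field_simp
        rw [← hg]; ring
      exact ⟨1, g, hg' j hj rfl, IsUnit.of_mul_eq_one_right _ e, by rw [map_one]; exact e⟩
  | algebraMap c =>
    refine ⟨MvPolynomial.C c, 1, by simp, by simp, ?_⟩
    rw [map_one, mul_one, MvPolynomial.aeval_C]; rfl
  | add x z hx hz ihx ihz =>
    obtain ⟨a, s, h1, h2, h3⟩ := ihx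
    obtain ⟨b, t, h4, h5, h6⟩ := ihz
    refine ⟨a * t + b * s, s * t, by rw [map_mul]; exact mul_ne_zero h1 h4,
      by rw [map_mul]; exact h2.mul h5, ?_⟩
    rw [map_add, map_mul, map_mul, map_mul, ← h3, ← h6]
    change ((⟨x, hx⟩ : Rc ℓ σ i0 y) + ⟨z, hz⟩) * _ = _
    ring
  | mul x z hx hz ihx ihz =>
    obtain ⟨a, s, h1, h2, h3⟩ := ihx
    obtain ⟨b, t, h4, h5, h6⟩ := ihz
    refine ⟨a * b, s * t, by rw [map_mul]; exact mul_ne_zero h1 h4,
      by rw [map_mul]; exact h2.mul h5, ?_⟩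
    rw [map_mul, map_mul, ← h3, ← h6]
    change ((⟨x, hx⟩ : Rc ℓ σ i0 y) * ⟨z, hz⟩) * _ = _
    ring

lemma ratio_mem (i j : Fin (2 * n + 2)) : LL ℓ i / LL ℓ j ∈ R0 ℓ := subset_adjoin ⟨i, j, rfl⟩

lemma good_facts (hG : GenPos ℓ) (h : Good ℓ σ i0 y) :
    Rc ℓ σ i0 y ≤ R0 ℓ ∧ (∀ j, LL ℓ j / LL ℓ i0 ∈ Rc ℓ σ i0 y) ∧
      LocSurj (MvPolynomial.aeval fun ρ : σ => yc ℓ σ i0 y ρ) ∧
      Function.Injective (MvPolynomial.aeval (R := ℂ) fun ρ : σ => yc ℓ σ i0 y ρ) ∧
      (∃ ev : Rc ℓ σ i0 y →ₐ[ℂ] ℂ, ∀ ρ ∈ σ, ev (yc ℓ σ i0 y ρ) = 0) ∧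
      ∀ τ ⊆ σ, (Ideal.span (yc ℓ σ i0 y '' τ)).IsPrime ∧
        ∀ ρ ∈ σ, ρ ∉ τ → yc ℓ σ i0 y ρ ∉ Ideal.span (yc ℓ σ i0 y '' τ) := by
  have hinj : Function.Injective (MvPolynomial.aeval (R := ℂ) fun ρ : σ => yc ℓ σ i0 y ρ) := by
    intro a b e
    apply alg_indep hG h
    rw [← coe_aeval (ℓ := ℓ) (i0 := i0), ← coe_aeval (ℓ := ℓ) (i0 := i0), e]
  obtain ⟨⟨ev, hev⟩, hP⟩ := loc_facts _ hinj (frac hG h)
  refine ⟨?_, fun j => ?_, fun r => ?_, hinj, ⟨ev, fun ρ hρ => ?_⟩, fun τ hτ => ?_⟩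
  · refine adjoin_le ?_
    rintro _ (⟨ρ, hρ, rfl⟩ | ⟨j, _, rfl⟩)
    · exact (h.torus ρ hρ).1
    · exact ratio_mem _ _
  · obtain ⟨g, hg, -⟩ := exists_poly hG h (ℓ j)
    rw [← LL_eq, ← coe_aeval (ℓ := ℓ) (i0 := i0)] at hg
    rw [← hg, mul_div_cancel_right₀ _ (LL_ne hG i0)]
    exact Subtype.property _
  · obtain ⟨a, s, -, h2, h3⟩ := frac hG h r
    exact ⟨a, s, h2, h3⟩
  · simpa using hev ⟨ρ, hρ⟩
  · have e : (fun i : σ => MvPolynomial.aeval (R := ℂ) (fun ρ : σ => yc ℓ σ i0 y ρ)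
        (MvPolynomial.X i)) '' {ρ : σ | ρ.1 ∈ τ} = yc ℓ σ i0 y '' τ := by
      ext z
      constructor
      · rintro ⟨ρ, hρ, rfl⟩
        exact ⟨ρ.1, hρ, by simp⟩
      · rintro ⟨ρ, hρ, rfl⟩
        exact ⟨⟨ρ, hτ hρ⟩, hρ, by simp⟩
    obtain ⟨h1, h2⟩ := hP {ρ : σ | ρ.1 ∈ τ}
    rw [e] at h1 h2
    refine ⟨h1, fun ρ hρ hρ' => ?_⟩
    simpa using h2 ⟨ρ, hρ⟩ hρ'

lemma good_base (hG : GenPos ℓ) (hσ : σ ∈ baseFan n (2 * n + 2)) (hc : σ.card = n)
    (h0 : i0 ∉ supp σ) : Good ℓ σ i0 fun ρ => ∏ i ∈ ρ, LL ℓ i / LL ℓ i0 := by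
  have hs : ∀ ρ ∈ σ, ∃ k, ρ = {k} := fun ρ hρ => Finset.card_eq_one.mp (hσ.1 ρ hρ)
  have hmem : ∀ i ∈ supp σ, ({i} : Ray _) ∈ σ := by
    intro i hi
    obtain ⟨ρ, hρ, hi⟩ := Finset.mem_biUnion.mp hi
    obtain ⟨k, rfl⟩ := hs ρ hρ
    rwa [Finset.mem_singleton.mp hi]
  refine ⟨h0, ?_, hc, fun i hi => ?_, fun i hi => ?_, fun ρ _ => ⟨?_, ?_, ?_⟩⟩
  · rw [supp, Finset.card_biUnion]
    · simp only [_root_.id]
      rw [Finset.sum_congr rfl (g := fun _ => 1) fun ρ hρ => hσ.1 ρ hρ]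
      simp [hc]
    · intro ρ hρ ρ' hρ' hne
      obtain ⟨k, rfl⟩ := hs ρ hρ
      obtain ⟨k', rfl⟩ := hs ρ' hρ'
      simpa [Function.onFun] using fun e => hne (by rw [e])
  · have : σ.filter (i ∈ ·) = {{i}} := by
      ext ρ
      simp only [Finset.mem_filter, Finset.mem_singleton]
      constructor
      · rintro ⟨hρ, hi⟩
        obtain ⟨k, rfl⟩ := hs ρ hρ
        rw [Finset.mem_singleton.mp hi]
      · rintro rfl
        exact ⟨hmem i hi, Finset.mem_singleton_self _⟩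
    rw [this, Finset.prod_singleton, Finset.prod_singleton]
    have := LL_ne hG i0
    field_simp
  · refine ⟨fun ρ => if ρ = {i} then 1 else 0, fun j => ?_⟩
    rw [Finset.sum_ite_eq']
    simp [hmem i hi]
  · exact prod_mem fun i _ => ratio_mem _ _
  · rw [← Finset.prod_inv_distrib]
    exact prod_mem fun i _ => by rw [inv_div]; exact ratio_mem _ _
  · exact Finset.prod_ne_zero_iff.mpr fun i _ => div_ne_zero (LL_ne hG i) (LL_ne hG i0)

lemma step_facts (h : Good ℓ σ i0 y) (a b : Fin (2 * n + 2)) (hab : a ≠ b)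
    (ha : ({a} : Ray _) ∈ σ) (hb : ({b} : Ray _) ∈ σ) (hs : ({a, b} : Ray _) ∉ σ) :
    Good ℓ (cStep σ a b) i0 (yStep y a b) ∧
      ∃ h : Rc ℓ σ i0 y ≤ Rc ℓ (cStep σ a b) i0 (yStep y a b),
        IsChart (R := Rc ℓ σ i0 y) (R₁ := Rc ℓ (cStep σ a b) i0 (yStep y a b))
          (Subalgebra.inclusion h).toRingHom (yc ℓ σ i0 y {a}) (yc ℓ σ i0 y {b})
          (yc ℓ (cStep σ a b) i0 (yStep y a b) {b}) := by
  have hne : ({b} : Ray (2 * n + 2)) ≠ {a} := fun e => hab (Finset.singleton_injective e).symm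
  have hne2 : ({a, b} : Ray (2 * n + 2)) ≠ {b} := fun e => hs (by rw [e]; exact hb)
  have hs' : ({a, b} : Ray (2 * n + 2)) ∉ σ.erase {a} := fun e => hs (Finset.mem_of_mem_erase e)
  have ya := (h.torus _ ha).2.2
  have y1 : yStep y a b {a, b} = y {a} := by
    rw [yStep, Function.update_of_ne hne2, Function.update_self]
  have y2 : yStep y a b {b} = y {b} / y {a} := by rw [yStep, Function.update_self]
  have y2' : y {a} * yStep y a b {b} = y {b} := by rw [y2]; field_simp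
  have y3 : ∀ ρ, ρ ≠ {a, b} → ρ ≠ {b} → yStep y a b ρ = y ρ := fun ρ e1 e2 => by
    rw [yStep, Function.update_of_ne e2, Function.update_of_ne e1]
  have hsupp := supp_step σ a b ha hb
  have m1 : ({a, b} : Ray (2 * n + 2)) ∈ cStep σ a b := Finset.mem_insert_self _ _
  have m2 : ({b} : Ray (2 * n + 2)) ∈ cStep σ a b :=
    Finset.mem_insert_of_mem (Finset.mem_erase.mpr ⟨hne, hb⟩)
  have hcases : ∀ ρ ∈ cStep σ a b, ρ = {a, b} ∨ ρ = {b} ∨ (ρ ∈ σ ∧ yStep y a b ρ = y ρ) := by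
    intro ρ hρ
    by_cases e1 : ρ = {a, b}
    · exact Or.inl e1
    by_cases e2 : ρ = {b}
    · exact Or.inr (Or.inl e2)
    rcases Finset.mem_insert.mp hρ with e | e
    · exact absurd e e1
    · exact Or.inr (Or.inr ⟨Finset.mem_of_mem_erase e, y3 ρ e1 e2⟩)
  have gen : ∀ ρ ∈ cStep σ a b, yStep y a b ρ ∈ Rc ℓ (cStep σ a b) i0 (yStep y a b) :=
    fun ρ hρ => subset_adjoin (Or.inl ⟨ρ, hρ, rfl⟩)
  have hle : Rc ℓ σ i0 y ≤ Rc ℓ (cStep σ a b) i0 (yStep y a b) := by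
    refine adjoin_le ?_
    rintro _ (⟨ρ, hρ, rfl⟩ | ⟨j, hj, rfl⟩)
    · by_cases e1 : ρ = {a}
      · rw [e1, ← y1]; exact gen _ m1
      by_cases e2 : ρ = {b}
      · rw [e2, ← y2', ← y1]; exact mul_mem (gen _ m1) (gen _ m2)
      rw [← y3 ρ (fun e => hs (e ▸ hρ)) e2]
      exact gen _ (Finset.mem_insert_of_mem (Finset.mem_erase.mpr ⟨e1, hρ⟩))
    · exact subset_adjoin (Or.inr ⟨j, hsupp ▸ hj, rfl⟩)
  refine ⟨⟨hsupp ▸ h.i0_notMem, hsupp ▸ h.card_supp, ?_, fun i hi => ?_, fun i hi => ?_,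
    fun ρ hρ => ?_⟩, hle, ?_⟩
  · rw [cStep, Finset.card_insert_of_notMem hs', Finset.card_erase_add_one ha, h.card_eq]
  · rw [prod_step σ a b hab ha hb hs y _ y1 y2' y3 i]
    exact h.mono i (hsupp ▸ hi)
  · obtain ⟨lam, hl⟩ := h.unimod i (hsupp ▸ hi)
    let lam' := Function.update (Function.update lam {a, b} (lam {a})) {b} (lam {b} - lam {a})
    refine ⟨lam', fun j => ?_⟩
    rw [← hl j]
    have := prod_step σ a b hab ha hb hs (fun ρ => Multiplicative.ofAdd (lam ρ))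
      (fun ρ => Multiplicative.ofAdd (lam' ρ))
      (by simp only [lam', Function.update_of_ne hne2, Function.update_self])
      (by simp only [lam', Function.update_self, ← ofAdd_add, add_sub_cancel])
      (fun ρ e1 e2 => by simp only [lam', Function.update_of_ne e2, Function.update_of_ne e1]) j
    rw [← ofAdd_sum, ← ofAdd_sum] at this
    exact Multiplicative.ofAdd.injective this
  · obtain ⟨a1, a2, a3⟩ := h.torus _ ha
    obtain ⟨b1, b2, b3⟩ := h.torus _ hb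
    rcases hcases ρ hρ with rfl | rfl | ⟨h1, h2⟩
    · rw [y1]; exact ⟨a1, a2, a3⟩
    · rw [y2]
      refine ⟨?_, ?_, div_ne_zero b3 a3⟩
      · rw [div_eq_mul_inv]; exact mul_mem b1 a2
      · rw [inv_div, div_eq_mul_inv]; exact mul_mem a1 b2
    · rw [h2]; exact h.torus ρ h1
  · refine isChart_of _ (Subalgebra.inclusion_injective hle) _ _ _ ?_ ?_ ?_
    · apply mem_nonZeroDivisors_of_ne_zero
      intro e
      have := congrArg Subtype.val e
      simp only [yc, ha, dif_pos] at this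
      exact ya this
    · apply Subtype.ext
      simp only [yc, ha, hb, m2, dif_pos]
      change y {b} = yStep y a b {b} * y {a}
      exact y2'.symm.trans (mul_comm _ _)
    · intro p h1 h2 h3 h4 x
      obtain ⟨x, hx⟩ := x
      induction hx using Algebra.adjoin_induction with
      | mem x hx =>
        rcases hx with ⟨ρ, hρ, rfl⟩ | ⟨j, hj, rfl⟩
        · rcases hcases ρ hρ with rfl | rfl | ⟨e1, e2⟩
          · convert h1 ⟨y {a}, subset_adjoin (Or.inl ⟨_, ha, rfl⟩)⟩ using 1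
            exact Subtype.ext y1
          · convert h2 using 1
            simp only [yc, m2, dif_pos]
          · convert h1 ⟨y ρ, subset_adjoin (Or.inl ⟨_, e1, rfl⟩)⟩ using 1
            exact Subtype.ext e2
        · exact h1 ⟨_, subset_adjoin (Or.inr ⟨j, hsupp ▸ hj, rfl⟩)⟩
      | algebraMap c => exact h1 (algebraMap ℂ _ c)
      | add x z hx hz ihx ihz => exact h3 _ _ ihx ihz
      | mul x z hx hz ihx ihz => exact h4 _ _ ihx ihz

end ChartB

theorem chartB : ChartBStmt := fun _ _ _ hG =>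
  ⟨ChartB.LL_ne hG, fun _ _ _ h => ChartB.good_facts hG h,
    fun _ hσ hc _ h0 => ChartB.good_base hG hσ hc h0,
    fun _ _ _ a b h hab ha hb hs => ChartB.step_facts h a b hab ha hb hs⟩

end Pool.Agent.Lib.MP_2c79a0_ag
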