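import Pool.Agent.Lib.MP_2c79a0_ag.Geo

/-!
Algebra of the charts of the double cover: the integral closure of a chart, and the unramified part.
-/

open Algebra

noncomputable section

namespace Pool.Agent.Lib.MP_2c79a0_ag

namespace ChartX

lemma mem_range_aux {A S K L : Type} [CommRing A] [IsDomain A] [IsIntegrallyClosed A]
    [CommRing S] [IsDomain S] [Field K] [Algebra A K] [IsFractionRing A K] [Field L] [Algebra S L]
    [IsFractionRing S L] (α : A →+* S) (hα : Function.Injective α) {x : S}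
    (hx : α.IsIntegralElem x) {a b : A} (hb : b ≠ 0) (h : x * α b = α a) : ∃ c, α c = x := by
  have hinj : Function.Injective ((algebraMap S L).comp α) :=
    (IsFractionRing.injective S L).comp hα
  obtain ⟨j, hj⟩ : ∃ j : K →+* L, j.comp (algebraMap A K) = (algebraMap S L).comp α :=
    ⟨IsFractionRing.lift hinj, RingHom.ext fun r => IsFractionRing.lift_algebraMap hinj r⟩
  have hj' : ∀ r, j (algebraMap A K r) = algebraMap S L (α r) := fun r => RingHom.congr_fun hj r
  have hb2 : α b ≠ 0 := fun e => hb (hα (by rw [e, map_zero]))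
  have hb3 : algebraMap S L (α b) ≠ 0 := fun e =>
    hb2 (IsFractionRing.injective S L (by rw [e, map_zero]))
  have hz : j (algebraMap A K a / algebraMap A K b) = algebraMap S L x := by
    rw [map_div₀, hj', hj', ← h, map_mul, mul_div_cancel_right₀ _ hb3]
  have h1 := hx.map (algebraMap S L)
  rw [← hj, ← hz] at h1
  have h2 : IsIntegral A (algebraMap A K a / algebraMap A K b) :=
    RingHom.IsIntegralElem.of_map j.injective h1
  obtain ⟨c, hc⟩ := IsIntegrallyClosed.isIntegral_iff.1 h2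
  refine ⟨c, IsFractionRing.injective S L ?_⟩
  rw [← hz, ← hc, hj']

/-- An integral fraction over a normal domain lies in the domain. -/
lemma mem_range_of_integral {A S : Type} [CommRing A] [IsDomain A] [IsIntegrallyClosed A]
    [CommRing S] [IsDomain S] (α : A →+* S) (hα : Function.Injective α) {x : S}
    (hx : α.IsIntegralElem x) {a b : A} (hb : b ≠ 0) (h : x * α b = α a) : ∃ c, α c = x :=
  mem_range_aux (K := FractionRing A) (L := FractionRing S) α hα hx hb h

lemma integral_of_sq {A S : Type} [CommRing A] [CommRing S] (α : A →+* S) {x : S} {a : A}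
    (h : x ^ 2 = α a) : α.IsIntegralElem x :=
  ⟨Polynomial.X ^ 2 - Polynomial.C a, Polynomial.monic_X_pow_sub_C a two_ne_zero, by simp [h]⟩

/-- The conjugation of a quadratic extension. -/
lemma exists_conj {R R' : Type} [CommRing R] [CommRing R'] (β : R →+* R') (w : R') (h : R)
    (hw : w ^ 2 = β h) (hb : Function.Bijective fun ab : R × R => β ab.1 + β ab.2 * w) :
    ∃ ι : R' →+* R', ∀ a b, ι (β a + β b * w) = β a - β b * w := by
  let E := Equiv.ofBijective _ hb
  let f : R' → R' := fun r => β (E.symm r).1 - β (E.symm r).2 * w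
  have hf : ∀ a b, f (β a + β b * w) = β a - β b * w := fun a b => by
    have : E.symm (β a + β b * w) = (a, b) := E.symm_apply_apply (a, b)
    simp only [f, this]
  refine ⟨{ toFun := f, map_one' := ?_, map_mul' := ?_, map_zero' := ?_, map_add' := ?_ }, hf⟩
  · simpa using hf 1 0
  · intro x y
    obtain ⟨⟨a, b⟩, rfl⟩ := hb.2 x
    obtain ⟨⟨c, d⟩, rfl⟩ := hb.2 y
    have e : (β a + β b * w) * (β c + β d * w) =
        β (a * c + b * d * h) + β (a * d + b * c) * w := by
      simp only [map_add, map_mul]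
      linear_combination (β b * β d) * hw
    simp only []
    rw [e, hf, hf, hf]
    simp only [map_add, map_mul]
    linear_combination (-(β b * β d)) * hw
  · simpa using hf 0 0
  · intro x y
    obtain ⟨⟨a, b⟩, rfl⟩ := hb.2 x
    obtain ⟨⟨c, d⟩, rfl⟩ := hb.2 y
    have e : (β a + β b * w) + (β c + β d * w) = β (a + c) + β (b + d) * w := by
      simp only [map_add]
      ring
    simp only []
    rw [e, hf, hf, hf]
    simp only [map_add]
    ring

lemma inj_of_bij {R R' : Type} [CommRing R] [CommRing R'] (β : R →+* R') (w : R')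
    (hb : Function.Bijective fun ab : R × R => β ab.1 + β ab.2 * w) : Function.Injective β :=
  fun a b e => congrArg Prod.fst (hb.1 (a₁ := (a, 0)) (a₂ := (b, 0)) (by simpa using e))

lemma bij_mul_unit {R R' : Type} [CommRing R] [CommRing R'] (β : R →+* R') (w : R')
    (hb : Function.Bijective fun ab : R × R => β ab.1 + β ab.2 * w) {k : R} (hk : IsUnit k) :
    Function.Bijective fun ab : R × R => β ab.1 + β ab.2 * (w * β k) := by
  obtain ⟨k, rfl⟩ := hk
  have e : (fun ab : R × R => β ab.1 + β ab.2 * (w * β k)) =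
      (fun ab : R × R => β ab.1 + β ab.2 * w) ∘ Prod.map _root_.id (k.mulRight : R → R) := by
    ext ab
    simp only [Function.comp_apply, Prod.map_fst, Prod.map_snd, id_eq, Units.mulRight_apply, map_mul]
    ring
  rw [e]
  exact hb.comp (Function.bijective_id.prodMap k.mulRight.bijective)

/-- The integral closure of a normal domain in a quadratic extension ramified along one prime. -/
lemma quad_closure {C R A R' : Type} [CommRing C] [IsDomain C] [IsIntegrallyClosed C]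
    [CommRing R] [IsDomain R] [CommRing A] [IsDomain A] [IsIntegrallyClosed A] [CommRing R']
    [IsDomain R'] (j : C →+* R) (hj : Function.Injective j)
    (hfr : ∀ r : R, ∃ a b : C, b ≠ 0 ∧ r * j b = j a) (h2 : IsUnit (2 : C))
    (γ : C →+* A) (hγ : γ.IsIntegral) (β : R →+* R') (α : A →+* R') (hα : Function.Injective α)
    (hc : ∀ r, α (γ r) = β (j r)) (w : R') (u y : C) (hu : IsUnit u) (hy : Prime y)
    (hw : w ^ 2 = β (j (u * y))) (hb : Function.Bijective fun ab : R × R => β ab.1 + β ab.2 * w)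
    (hfr' : ∀ r : R', ∃ a b : A, b ≠ 0 ∧ r * α b = α a) :
    ∃ v : A, α v = w ∧ v ^ 2 = γ (u * y) ∧
      Function.Bijective fun ab : C × C => γ ab.1 + γ ab.2 * v := by
  obtain ⟨v, hv⟩ : ∃ v : A, α v = w := by
    obtain ⟨a, b, hb0, e⟩ := hfr' w
    exact mem_range_of_integral α hα (integral_of_sq α (a := γ (u * y)) (by rw [hw, hc])) hb0 e
  have hβ := inj_of_bij β w hb
  have hmem : ∀ r : R, (β.comp j).IsIntegralElem (β r) → ∃ c, j c = r := fun r hr => by
    obtain ⟨a, b, hb0, e⟩ := hfr r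
    exact mem_range_of_integral j hj (hr.of_map hβ) hb0 e
  refine ⟨v, hv, hα (by rw [map_pow, hv, hw, hc]), ?_, fun a => ?_⟩
  · rintro ⟨a, b⟩ ⟨c, d⟩ e
    have e1 := congrArg α e
    simp only [map_add, map_mul, hv, hc] at e1
    have e2 := hb.1 (a₁ := (j a, j b)) (a₂ := (j c, j d)) e1
    exact Prod.ext (hj (congrArg Prod.fst e2)) (hj (congrArg Prod.snd e2))
  · obtain ⟨ι, hι⟩ := exists_conj β w _ hw hb
    obtain ⟨⟨c, d⟩, e⟩ := hb.2 (α a)
    simp only [] at e
    have hcomp : α.comp γ = β.comp j := RingHom.ext hc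
    have hcomp' : ι.comp (β.comp j) = β.comp j := RingHom.ext fun r => by
      simpa using hι (j r) 0
    have i1 : (β.comp j).IsIntegralElem (β c + β d * w) := by
      rw [e, ← hcomp]
      exact (hγ a).map α
    have i2 : (β.comp j).IsIntegralElem (β c - β d * w) := by
      rw [← hι, ← hcomp']
      exact i1.map ι
    obtain ⟨c', hc'⟩ : ∃ c', j c' = c := by
      obtain ⟨c2, h⟩ := hmem (2 * c) (by
        have := i1.add _ i2
        rwa [show β c + β d * w + (β c - β d * w) = β (2 * c) by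
          rw [map_mul, map_ofNat]; ring] at this)
      obtain ⟨t, ht⟩ := h2.exists_left_inv
      refine ⟨t * c2, ?_⟩
      have := congrArg j ht
      rw [map_mul, map_ofNat, map_one] at this
      rw [map_mul, h, ← mul_assoc, this, one_mul]
    obtain ⟨m, hm⟩ := hmem (c ^ 2 - d ^ 2 * j (u * y)) (by
      have := i1.mul _ i2
      rwa [show (β c + β d * w) * (β c - β d * w) = β (c ^ 2 - d ^ 2 * j (u * y)) by
        rw [map_sub, map_mul, map_pow, map_pow, ← hw]; ring] at this)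
    have hsq : (d * j (u * y)) ^ 2 = j ((c' ^ 2 - m) * (u * y)) := by
      rw [map_mul j (c' ^ 2 - m), map_sub, map_pow, hc', hm]
      ring
    obtain ⟨g, hg⟩ := hmem (d * j (u * y)) ((integral_of_sq j hsq).map β)
    have hdvd : y ∣ g := by
      refine hy.dvd_of_dvd_pow (n := 2) ⟨(c' ^ 2 - m) * u, hj ?_⟩
      rw [map_pow, hg, hsq]
      congr 1
      ring
    obtain ⟨g', rfl⟩ := hdvd
    obtain ⟨t, ht⟩ := hu.exists_left_inv
    have hy0 : j y ≠ 0 := fun e => hy.ne_zero (hj (by rw [e, map_zero]))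
    have hd : j (t * g') = d := by
      have h1 : j g' = d * j u := by
        apply mul_left_cancel₀ hy0
        rw [← map_mul, hg, map_mul]
        ring
      have h3 := congrArg j ht
      rw [map_mul, map_one] at h3
      rw [map_mul, h1]
      linear_combination d * h3
    refine ⟨(c', t * g'), hα ?_⟩
    simp only [map_add]
    rw [map_mul α, hc, hc, hv, hc', hd, e]

section LS

variable {T S R : Type} [CommRing T] [Algebra ℂ T] [CommRing S] [Algebra ℂ S] [CommRing R]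
  [Algebra ℂ R]

lemma locSurj_comp {ψ : S →ₐ[ℂ] R} {φ : T →ₐ[ℂ] S} (hψ : LocSurj ψ) (hφ : LocSurj φ) :
    LocSurj (ψ.comp φ) := by
  intro r
  obtain ⟨a, s, hs, e⟩ := hψ r
  obtain ⟨a1, s1, hs1, e1⟩ := hφ s
  obtain ⟨a2, s2, hs2, e2⟩ := hφ a
  refine ⟨a2 * s1, a1 * s2, ?_, ?_⟩
  · rw [map_mul, AlgHom.comp_apply, ← e1, map_mul]
    exact (hs.mul (hs1.map ψ)).mul (hs2.map ψ)
  · simp only [AlgHom.comp_apply, map_mul]
    rw [← e1, ← e2, map_mul, map_mul, ← e]
    ring

lemma locSurj_of_surj {φ : S →ₐ[ℂ] R} (h : Function.Surjective φ) : LocSurj φ := fun r => by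
  obtain ⟨a, rfl⟩ := h r
  exact ⟨a, 1, by simp, by simp⟩

lemma normal_of_locSurj [IsDomain S] [IsIntegrallyClosed S] [Nontrivial R] {φ : S →ₐ[ℂ] R}
    (h : LocSurj φ) (hi : Function.Injective φ) : IsIntegrallyClosed R := by
  let _ : Algebra S R := (φ : S →+* R).toAlgebra
  let M : Submonoid S := (IsUnit.submonoid R).comap (φ : S →+* R)
  have : IsLocalization M R :=
    { map_units := fun s => s.2
      surj := fun r => by
        obtain ⟨a, s, hs, e⟩ := h r
        exact ⟨(a, ⟨s, hs⟩), e⟩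
      exists_of_eq := fun {a b} e => ⟨1, by rw [hi e]⟩ }
  refine isIntegrallyClosed_of_isLocalization R M fun s hs => mem_nonZeroDivisors_of_ne_zero ?_
  rintro rfl
  have h0 : IsUnit (φ 0) := hs
  rw [map_zero] at h0
  exact not_isUnit_zero h0

lemma cm_gen [IsDomain S] [IsDomain R] {φ : S →ₐ[ℂ] R} (hi : Function.Injective φ) :
    cm φ (gen R) = gen S := by
  ext a
  rw [mem_cm]
  exact map_eq_zero_iff φ hi

end LS

section Ch

variable {n : ℕ} {ℓ : Fin (2 * n + 2) → Fin (n + 1) → ℂ}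

lemma ratio_mul (hL : ∀ i, LL ℓ i ≠ 0) (i j k : Fin (2 * n + 2)) :
    ratio ℓ i j * ratio ℓ j k = ratio ℓ i k := by
  apply Subtype.ext
  have := hL j
  change LL ℓ i / LL ℓ j * (LL ℓ j / LL ℓ k) = LL ℓ i / LL ℓ k
  field_simp

lemma ratio_unit (hL : ∀ i, LL ℓ i ≠ 0) (i j : Fin (2 * n + 2)) : IsUnit (ratio ℓ i j) := by
  refine IsUnit.of_mul_eq_one (ratio ℓ j i) ?_
  rw [ratio_mul hL]
  exact Subtype.ext (div_self (hL i))

lemma locSurj_incl (hL : ∀ i, LL ℓ i ≠ 0) {C : Subalgebra ℂ (Om n)} (hle : C ≤ R0 ℓ)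
    {i0 : Fin (2 * n + 2)} (h : ∀ j, LL ℓ j / LL ℓ i0 ∈ C) :
    LocSurj (Subalgebra.inclusion hle) := by
  rintro ⟨r, hr⟩
  induction hr using adjoin_induction with
  | mem x hx =>
    obtain ⟨i, j, rfl⟩ := hx
    exact ⟨⟨_, h i⟩, ⟨_, h j⟩, ratio_unit hL j i0, ratio_mul hL i j i0⟩
  | algebraMap c => exact ⟨algebraMap _ _ c, 1, by simp, by simp; rfl⟩
  | add x y hx hy ihx ihy =>
    obtain ⟨a, s, hs, e⟩ := ihx
    obtain ⟨b, t, ht, f⟩ := ihy
    refine ⟨a * t + b * s, s * t, by rw [map_mul]; exact hs.mul ht, ?_⟩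
    rw [map_add, map_mul, map_mul, map_mul, ← e, ← f]
    change ((⟨x, hx⟩ : R0 ℓ) + ⟨y, hy⟩) * _ = _
    ring
  | mul x y hx hy ihx ihy =>
    obtain ⟨a, s, hs, e⟩ := ihx
    obtain ⟨b, t, ht, f⟩ := ihy
    refine ⟨a * b, s * t, by rw [map_mul]; exact hs.mul ht, ?_⟩
    rw [map_mul, map_mul, ← e, ← f]
    change ((⟨x, hx⟩ : R0 ℓ) * ⟨y, hy⟩) * _ = _
    ring

lemma coe_yc {σ : Cone (2 * n + 2)} (i0 : Fin (2 * n + 2)) (y : Ray (2 * n + 2) → Om n)
    {ρ : Ray (2 * n + 2)} (h : ρ ∈ σ) : (yc ℓ σ i0 y ρ : Om n) = y ρ := by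
  simp [yc, h]

/-- The product of all the forms in the coordinates of a chart. -/
lemma prod_LL (hL : ∀ i, LL ℓ i ≠ 0) {σ : Cone (2 * n + 2)} {i0 : Fin (2 * n + 2)}
    {y : Ray (2 * n + 2) → Om n} (hG : Good ℓ σ i0 y) {o : Fin (2 * n + 2)}
    (ho : ({o} : Ray _) ∈ σ) (h2 : ∀ ρ ∈ σ, ρ ≠ {o} → ρ.card = 2) :
    ∏ i, LL ℓ i = LL ℓ i0 ^ (2 * n + 2) * (∏ j ∈ (supp σ)ᶜ, LL ℓ j / LL ℓ i0) * y {o} *
      (∏ ρ ∈ σ.erase {o}, y ρ) ^ 2 := by
  have h1 : ∏ i, LL ℓ i = LL ℓ i0 ^ (2 * n + 2) * ∏ i, LL ℓ i / LL ℓ i0 := by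
    rw [Finset.prod_div_distrib, Finset.prod_const, Finset.card_univ, Fintype.card_fin,
      mul_div_cancel₀ _ (pow_ne_zero _ (hL i0))]
  have h3 : ∏ i ∈ supp σ, LL ℓ i / LL ℓ i0 = ∏ ρ ∈ σ, y ρ ^ ρ.card := by
    rw [Finset.prod_congr rfl fun i hi =>
      show LL ℓ i / LL ℓ i0 = ∏ ρ ∈ σ.filter (i ∈ ·), y ρ by
        rw [hG.mono i hi, mul_div_cancel_left₀ _ (hL i0)]]
    rw [Finset.prod_comm' (t' := σ) (s' := fun ρ => ρ)]
    · simp
    · intro i ρ
      simp only [supp, Finset.mem_biUnion, id_eq, Finset.mem_filter]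
      exact ⟨fun h => ⟨h.2.2, h.2.1⟩, fun h => ⟨⟨ρ, h.2, h.1⟩, h.2, h.1⟩⟩
  have h4 : ∏ ρ ∈ σ.erase {o}, y ρ ^ ρ.card = (∏ ρ ∈ σ.erase {o}, y ρ) ^ 2 := by
    rw [← Finset.prod_pow]
    exact Finset.prod_congr rfl fun ρ hρ => by
      rw [h2 ρ (Finset.mem_of_mem_erase hρ) (Finset.ne_of_mem_erase hρ)]
  rw [h1, ← Finset.prod_mul_prod_compl (supp σ), h3, ← Finset.mul_prod_erase σ _ ho, h4,
    Finset.card_singleton, pow_one]
  ring

end Ch

end ChartX

open ChartX

theorem chartX (hB : ChartBStmt) (h2 : ChartX2Stmt) : ChartXStmt := by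
  intro n ℓ hn hℓ σ i0 y hG hle o ho hcard A _ _ _ _ γ R' _ _ β α w h0 hfin hα hc hh0 hw hb hfr
  obtain ⟨hL, hB2, -, -⟩ := hB n ℓ hn hℓ
  obtain ⟨-, hmem, hls, hinj, -, hpr⟩ := hB2 σ i0 y hG
  have : IsIntegrallyClosed (Rc ℓ σ i0 y) := normal_of_locSurj hls hinj
  let q : Fin (2 * n + 2) → Rc ℓ σ i0 y := fun j => ⟨_, hmem j⟩
  have hq : ∀ j, j ∉ supp σ → IsUnit (q j) := fun j hj =>
    IsUnit.of_mul_eq_one ⟨LL ℓ i0 / LL ℓ j, subset_adjoin (Or.inr ⟨j, hj, rfl⟩)⟩ (Subtype.ext (by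
      have h1 := hL j
      have h2 := hL i0
      change LL ℓ j / LL ℓ i0 * (LL ℓ i0 / LL ℓ j) = 1
      field_simp))
  let u : Rc ℓ σ i0 y := ∏ j ∈ (supp σ)ᶜ, q j
  have hu : IsUnit u := IsUnit.prod_iff.2 fun j hj => hq j (Finset.mem_compl.1 hj)
  have hu' : (u : Om n) = ∏ j ∈ (supp σ)ᶜ, LL ℓ j / LL ℓ i0 := by
    simp only [u, SubmonoidClass.coe_finsetProd, q]
  have hy : Prime (yc ℓ σ i0 y {o}) := by
    have h1 := (hpr {{o}} (Finset.singleton_subset_iff.2 ho)).1
    rw [Finset.coe_singleton, Set.image_singleton] at h1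
    refine (Ideal.span_singleton_prime fun e => (hG.torus _ ho).2.2 ?_).1 h1
    rw [← coe_yc (ℓ := ℓ) i0 y ho, e]
    rfl
  have hY0 : ∏ ρ ∈ σ.erase {o}, y ρ ≠ 0 :=
    Finset.prod_ne_zero_iff.2 fun ρ hρ => (hG.torus ρ (Finset.mem_of_mem_erase hρ)).2.2
  let Y : R0 ℓ := ⟨∏ ρ ∈ σ.erase {o}, y ρ,
    prod_mem fun ρ hρ => (hG.torus ρ (Finset.mem_of_mem_erase hρ)).1⟩
  let Y' : R0 ℓ := ⟨(∏ ρ ∈ σ.erase {o}, y ρ)⁻¹, by
    rw [← Finset.prod_inv_distrib]
    exact prod_mem fun ρ hρ => (hG.torus ρ (Finset.mem_of_mem_erase hρ)).2.1⟩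
  have hY' : IsUnit Y' := IsUnit.of_mul_eq_one Y (Subtype.ext (inv_mul_cancel₀ hY0))
  let k : R0 ℓ := ratio ℓ 0 i0 ^ (n + 1) * Y'
  have hk : IsUnit k := ((ratio_unit hL 0 i0).pow _).mul hY'
  have hk2 : h0 * k ^ 2 = Subalgebra.inclusion hle (u * yc ℓ σ i0 y {o}) := by
    apply Subtype.ext
    change (h0 : Om n) * ((LL ℓ 0 / LL ℓ i0) ^ (n + 1) * (∏ ρ ∈ σ.erase {o}, y ρ)⁻¹) ^ 2 =
      (u : Om n) * (yc ℓ σ i0 y {o} : Om n)
    rw [prod_LL hL hG ho hcard, ← hu'] at hh0
    rw [coe_yc i0 y ho, mul_pow, ← pow_mul, div_pow, show (n + 1) * 2 = 2 * n + 2 by ring]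
    have h1 := pow_ne_zero (2 * n + 2) (hL i0)
    field_simp
    linear_combination hh0
  have hls0 := locSurj_incl hL hle hmem
  obtain ⟨v, -, hv2, hvb⟩ := quad_closure (Subalgebra.inclusion hle : Rc ℓ σ i0 y →+* R0 ℓ)
    (Subalgebra.inclusion_injective hle)
    (fun r => by
      obtain ⟨a, s, hs, e⟩ := hls0 r
      refine ⟨a, s, ?_, e⟩
      rintro rfl
      rw [map_zero] at hs
      exact not_isUnit_zero hs)
    (by
      have := (IsUnit.mk0 (2 : ℂ) two_ne_zero).map (algebraMap ℂ (Rc ℓ σ i0 y))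
      rwa [map_ofNat] at this)
    (γ : Rc ℓ σ i0 y →+* A) hfin.to_isIntegral β α hα hc (w * β k) u _ hu hy
    (by rw [mul_pow, hw, ← map_pow, ← map_mul, hk2]; rfl) (bij_mul_unit β w hb hk) hfr
  have hv3 : v ^ 2 = γ u * γ (yc ℓ σ i0 y {o}) := by rw [← map_mul]; exact hv2
  refine ⟨_, h2 n ℓ hn hℓ σ i0 y hG o ho hcard A γ v u hu' hv2 hvb, fun ρ P => ?_, ?_⟩
  · by_cases hρ : ρ = {o}
    · rw [hρ, Function.update_self, ← P.isPrime.pow_mem_iff_mem 2 two_pos, hv3,
        Ideal.unit_mul_mem_iff_mem _ (hu.map γ)]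
    · rw [Function.update_of_ne hρ]
  · have key : ∀ i, ∃ c : A, IsUnit c ∧ γ (q i) = c * ∏ ρ ∈ σ.filter (i ∈ ·),
        Function.update (fun ρ => γ (yc ℓ σ i0 y ρ)) {o} v ρ ^ ee ρ := by
      intro i
      by_cases hi : i ∈ supp σ
      · have e1 : q i = ∏ ρ ∈ σ.filter (i ∈ ·), yc ℓ σ i0 y ρ := by
          apply Subtype.ext
          rw [SubmonoidClass.coe_finsetProd, Finset.prod_congr rfl fun ρ hρ =>
            coe_yc (ℓ := ℓ) i0 y (Finset.mem_filter.1 hρ).1]
          change LL ℓ i / LL ℓ i0 = _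
          rw [hG.mono i hi, mul_div_cancel_left₀ _ (hL i0)]
        have e2 : Associated (∏ ρ ∈ σ.filter (i ∈ ·),
            Function.update (fun ρ => γ (yc ℓ σ i0 y ρ)) {o} v ρ ^ ee ρ)
            (∏ ρ ∈ σ.filter (i ∈ ·), γ (yc ℓ σ i0 y ρ)) := by
          refine Associated.prod _ _ _ fun ρ hρ => ?_
          by_cases hρ' : ρ = {o}
          · rw [hρ', Function.update_self, ee, if_pos (Finset.card_singleton o), hv3]
            exact associated_unit_mul_left _ _ (hu.map γ)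
          · rw [Function.update_of_ne hρ', ee,
              if_neg (by rw [hcard ρ (Finset.mem_filter.1 hρ).1 hρ']; decide), pow_one]
            exact Associated.refl _
        obtain ⟨c, hc⟩ := e2
        exact ⟨c, c.isUnit, by rw [e1, map_prod, ← hc, mul_comm]⟩
      · refine ⟨γ (q i), (hq i hi).map γ, ?_⟩
        have e1 : σ.filter (i ∈ ·) = ∅ :=
          Finset.filter_eq_empty_iff.2 fun ρ hρ h => hi (Finset.mem_biUnion.2 ⟨ρ, hρ, h⟩)
        rw [e1, Finset.prod_empty, mul_one]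
    choose c hc1 hc2 using key
    refine ⟨β (ratio ℓ i0 0), c, (ratio_unit hL i0 0).map β, fun i => ⟨hc1 i, ?_⟩⟩
    rw [← hc2, hc, ← map_mul, ← ratio_mul hL i i0 0, mul_comm (ratio ℓ i i0)]
    rfl

theorem torusX (hD : DimStmt) (hB : ChartBStmt) : TorusXStmt := by
  intro n ℓ hn hℓ R' _ _ _ β w h0 hh0 hw hb
  obtain ⟨hL, hB2, hB3, -⟩ := hB n ℓ hn hℓ
  obtain ⟨s, hs, hsc⟩ := Finset.exists_subset_card_eq
    (s := (Finset.univ : Finset (Fin (2 * n + 2))).erase 0) (n := n) (by simp; omega)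
  let σ : Cone (2 * n + 2) := s.image fun i => {i}
  have hσc : σ.card = n := by
    rw [Finset.card_image_of_injective _ Finset.singleton_injective, hsc]
  have hσ : σ ∈ baseFan n (2 * n + 2) := ⟨fun ρ hρ => by
    obtain ⟨i, -, rfl⟩ := Finset.mem_image.1 hρ
    exact Finset.card_singleton i, hσc.le⟩
  have h0σ : (0 : Fin (2 * n + 2)) ∉ supp σ := fun h => by
    obtain ⟨ρ, hρ, h1⟩ := Finset.mem_biUnion.1 h
    obtain ⟨i, hi, rfl⟩ := Finset.mem_image.1 hρ
    exact Finset.ne_of_mem_erase (hs hi) (Finset.mem_singleton.1 h1).symm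
  have hG := hB3 σ hσ hσc 0 h0σ
  generalize (fun ρ : Ray (2 * n + 2) => ∏ i ∈ ρ, LL ℓ i / LL ℓ 0) = y at hG
  obtain ⟨hle, hmem, hls, hinj, -, -⟩ := hB2 σ 0 y hG
  let e : Fin n ≃ σ := (σ.equivFinOfCardEq hσc).symm
  let φ : MvPolynomial (Fin n) ℂ →ₐ[ℂ] R0 ℓ := (Subalgebra.inclusion hle).comp
    ((MvPolynomial.aeval fun ρ : σ => yc ℓ σ 0 y ρ).comp (MvPolynomial.rename e))
  have hφ : LocSurj φ := locSurj_comp (locSurj_incl hL hle hmem)
    (locSurj_comp hls (locSurj_of_surj (MvPolynomial.rename_surjective _ e.surjective)))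
  have hφi : Function.Injective φ := (Subalgebra.inclusion_injective hle).comp
    (hinj.comp (MvPolynomial.rename_injective _ e.injective))
  have hβ : Function.Injective β := inj_of_bij (β : R0 ℓ →+* R') w hb
  have hfin : (β : R0 ℓ →+* R').Finite := by
    let _ : Algebra (R0 ℓ) R' := (β : R0 ℓ →+* R').toAlgebra
    refine Module.Finite.of_surjective
      ((LinearMap.toSpanSingleton (R0 ℓ) R' 1).coprod (LinearMap.toSpanSingleton (R0 ℓ) R' w))
      fun r => ?_
    obtain ⟨ab, rfl⟩ := hb.2 r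
    refine ⟨ab, ?_⟩
    simp only [LinearMap.coprod_apply, LinearMap.toSpanSingleton_apply, Algebra.smul_def, mul_one]
    rfl
  have hft0 : FiniteType ℂ (R0 ℓ) := by
    refine FiniteType.adjoin_of_finite ((Set.finite_range
      fun ij : Fin (2 * n + 2) × Fin (2 * n + 2) => LL ℓ ij.1 / LL ℓ ij.2).subset ?_)
    rintro _ ⟨i, j, rfl⟩
    exact ⟨(i, j), rfl⟩
  refine ⟨?_, ?_, ?_⟩
  · have h1 : β.FiniteType := RingHom.FiniteType.of_finite hfin
    have h2 : (Algebra.ofId ℂ (R0 ℓ)).FiniteType := RingHom.finiteType_algebraMap.2 hft0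
    have h3 := h1.comp h2
    rw [Subsingleton.elim (β.comp _) (Algebra.ofId ℂ R')] at h3
    exact RingHom.finiteType_algebraMap.1 h3
  · obtain ⟨-, -, -, d1, d2, -, -, d5⟩ := hD
    rw [← d2 _ _ β hfin.to_isIntegral, cm_gen hβ, ← d1 _ _ φ hφ, cm_gen hφi, d5, Fintype.card_fin]
  · obtain ⟨ι, hι⟩ := exists_conj (β : R0 ℓ →+* R') w h0 hw hb
    have hι' : ∀ a b, ι (β a + β b * w) = β a - β b * w := hι
    have hfix : ∀ a, ι (β a) = β a := fun a => by simpa using hι' a 0
    have hinv : Function.Involutive ι := fun r => by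
      obtain ⟨⟨a, b⟩, rfl⟩ := hb.2 r
      have := hι' a (-b)
      rw [map_neg, neg_mul, ← sub_eq_add_neg, sub_neg_eq_add] at this
      simp only []
      rw [hι', this]
    let ι₁ : R' →ₐ[ℂ] R' := ⟨ι, fun c => by rw [← β.commutes]; exact hfix _⟩
    have hae : MvPolynomial.aeval (fun i => β (φ (MvPolynomial.X i))) = β.comp φ := by
      apply MvPolynomial.algHom_ext
      intro i
      rw [MvPolynomial.aeval_X]
      rfl
    have hh : h0 = ∏ i, ratio ℓ i 0 := by
      apply Subtype.ext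
      rw [SubmonoidClass.coe_finsetProd]
      change _ = ∏ i, LL ℓ i / LL ℓ 0
      rw [Finset.prod_div_distrib, Finset.prod_const, Finset.card_univ, Fintype.card_fin,
        eq_div_iff (pow_ne_zero _ (hL 0)), hh0]
    refine ⟨{ x := fun i => β (φ (MvPolynomial.X i))
              ι := AlgEquiv.ofBijective ι₁ hinv.bijective
              w := w
              inj := by rw [hae]; exact hβ.comp hφi
              invol := hinv
              fix := fun i => hfix _
              unit := ?_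
              neg := show ι w = -w by simpa using hι' 0 1
              frac := fun r hr => ?_ }⟩
    · rw [← isUnit_pow_iff two_ne_zero, hw, hh]
      exact (IsUnit.prod_iff.2 fun i _ => ratio_unit hL i 0).map β
    · obtain ⟨⟨a, b⟩, rfl⟩ := hb.2 r
      have h1 : β a - β b * w = β a + β b * w := (hι' a b).symm.trans hr
      have h2 := congrArg Prod.snd (hb.1 (a₁ := (a, -b)) (a₂ := (a, b)) (by
        simp only [map_neg]
        rw [← h1]
        ring))
      have h3 : b = 0 := by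
        have h4 : -(b : Om n) = b := congrArg Subtype.val h2
        have : CharZero (Om n) := charZero_of_injective_algebraMap (algebraMap ℂ (Om n)).injective
        exact Subtype.ext (neg_eq_self.1 h4)
      obtain ⟨p, s, hs, e⟩ := hφ a
      refine ⟨p, s, ?_, ?_⟩
      · rw [hae]
        exact hs.map β
      · rw [hae, h3]
        simp only [map_zero, zero_mul, add_zero, AlgHom.comp_apply]
        rw [← map_mul, e]

end Pool.Agent.Lib.MP_2c79a0_ag
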