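import Pool.Agent.Lib.MP_2c79a0_ag.ChartX2B

/-!
The strata of the chart of the double cover are localised polynomial rings.
-/

open Algebra MvPolynomial

noncomputable section

namespace Pool.Agent.Lib.MP_2c79a0_ag

namespace ChartX2

variable {n : ℕ} {ℓ : Fin (2 * n + 2) → Fin (n + 1) → ℂ}

lemma lin_sum {ι : Type} [Fintype ι] (c : ι → ℂ) (v : ι → Fin (n + 1) → ℂ) :
    lin (∑ i, c i • v i) = ∑ i, C (c i) * lin (v i) := by
  simp only [lin, Finset.sum_apply, Pi.smul_apply, smul_eq_mul, map_sum, map_mul, Finset.sum_mul,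
    Finset.mul_sum, mul_assoc]
  exact Finset.sum_comm

lemma exists_comb (hℓ : GenPos ℓ) {s : Finset (Fin (2 * n + 2))} (hs : s.card = n + 1)
    (j : Fin (2 * n + 2)) :
    ∃ c : s → ℂ, LL ℓ j = ∑ i : s, algebraMap ℂ (Om n) (c i) * LL ℓ i := by
  have h1 := (hℓ s hs.le).span_eq_top_of_card_eq_finrank' (by simp [hs])
  have h2 : ℓ j ∈ Submodule.span ℂ (Set.range fun i : s => ℓ i) := h1 ▸ Submodule.mem_top
  obtain ⟨c, hc⟩ := (Submodule.mem_span_range_iff_exists_fun ℂ).1 h2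
  refine ⟨c, ?_⟩
  rw [LL, ← hc, lin_sum, map_sum]
  refine Finset.sum_congr rfl fun i _ => ?_
  rw [map_mul]
  rfl

lemma odd_lam {N : ℕ} {σ : Cone N} {o i : Fin N} (ho : ({o} : Ray N) ∈ σ)
    (h2 : ∀ ρ ∈ σ, ρ ≠ {o} → ρ.card = 2) {lam : Ray N → ℤ}
    (h : ∀ j, ∑ ρ ∈ σ.filter (j ∈ ·), lam ρ = if j = i then 1 else 0) : Odd (lam {o}) := by
  have h1 : ∑ j, ∑ ρ ∈ σ.filter (j ∈ ·), lam ρ = 1 := by simp [h]
  have h3 : ∑ j, ∑ ρ ∈ σ.filter (j ∈ ·), lam ρ = ∑ ρ ∈ σ, (ρ.card : ℤ) * lam ρ := by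
    simp only [Finset.sum_filter]
    rw [Finset.sum_comm]
    refine Finset.sum_congr rfl fun ρ _ => ?_
    rw [← Finset.sum_filter]
    simp
  rw [h3, ← Finset.add_sum_erase _ _ ho, Finset.sum_congr rfl (g := fun ρ => 2 * lam ρ)
    (fun ρ hρ => by
      rw [h2 ρ (Finset.mem_of_mem_erase hρ) (Finset.ne_of_mem_erase hρ)]; rfl),
    ← Finset.mul_sum, Finset.card_singleton] at h1
  exact ⟨-∑ ρ ∈ σ.erase {o}, lam ρ, by push_cast at h1; linarith⟩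

lemma prod_zpow_sum {G ι : Type} [CommGroup G] (v : G) (s : Finset ι) (f : ι → ℤ) :
    ∏ i ∈ s, v ^ f i = v ^ ∑ i ∈ s, f i := by
  classical
  induction s using Finset.induction_on with
  | empty => simp
  | insert a s ha ih => rw [Finset.prod_insert ha, Finset.sum_insert ha, ih, zpow_add]

lemma coe_yc {σ : Cone (2 * n + 2)} {i0 : Fin (2 * n + 2)} {y : Ray (2 * n + 2) → Om n}
    {ρ : Ray (2 * n + 2)} (h : ρ ∈ σ) : (yc ℓ σ i0 y ρ : Om n) = y ρ := by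
  simp [yc, h]

end ChartX2

open ChartX2

theorem chartX2 (hD : DimStmt) (hC : CycStmt) (hA : AffStmt) (hB : ChartBStmt) : ChartX2Stmt := by
  intro n ℓ hn hℓ σ i0 y hg o ho h2 A _ _ _ γ w u hu hw hbij
  obtain ⟨hL, hB2, -, -⟩ := hB n ℓ hn hℓ
  obtain ⟨-, hr, hls, hinj, -, hpr⟩ := hB2 σ i0 y hg
  have hmem : ∏ j ∈ (supp σ)ᶜ, LL ℓ i0 / LL ℓ j ∈ Rc ℓ σ i0 y :=
    prod_mem fun j hj => subset_adjoin (Or.inr ⟨j, Finset.mem_compl.1 hj, rfl⟩)
  have hmul : u * ⟨_, hmem⟩ = 1 := by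
    apply Subtype.ext
    change (u : Om n) * ∏ j ∈ (supp σ)ᶜ, LL ℓ i0 / LL ℓ j = 1
    rw [hu, ← Finset.prod_mul_distrib]
    refine Finset.prod_eq_one fun j _ => ?_
    have := hL j
    have := hL i0
    field_simp
  let v : (Rc ℓ σ i0 y)ˣ := Units.mkOfMulEqOne _ _ hmul
  have H : Setup σ {o} (yc ℓ σ i0 y) v γ w := by
    refine ⟨ho, ?_, fun ρ hρ => by simp [yc, hρ], hls, hinj, fun τ hτ => (hpr τ hτ).1,
      fun τ hτ => (hpr τ hτ).2, fun ρ₀ hρ₀ hne => ?_, hw, hbij⟩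
    · refine FiniteType.adjoin_of_finite (Set.Finite.union ?_ ?_)
      · exact ((σ.finite_toSet.image y).subset fun x ⟨ρ, h, e⟩ => ⟨ρ, h, e.symm⟩)
      · exact ((Set.finite_range fun j => LL ℓ i0 / LL ℓ j).subset fun x ⟨j, _, e⟩ => ⟨j, e.symm⟩)
    obtain ⟨i, hi⟩ : ρ₀.Nonempty := Finset.card_pos.1 (by rw [h2 ρ₀ hρ₀ hne]; norm_num)
    obtain ⟨lam, hlam⟩ := hg.unimod i (Finset.mem_biUnion.2 ⟨ρ₀, hρ₀, hi⟩)
    refine ⟨lam, odd_lam ho h2 hlam, ?_⟩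
    set U := adjoin ℂ ({x | ∃ ρ ∈ σ, x = ((v ^ lam ρ : (Rc ℓ σ i0 y)ˣ) : Rc ℓ σ i0 y) *
      yc ℓ σ i0 y ρ} ∪ (Ideal.span {yc ℓ σ i0 y ρ₀} : Set (Rc ℓ σ i0 y))) with hU
    have hx : ∀ k ∈ supp σ, (⟨_, hr k⟩ : Rc ℓ σ i0 y) ∈ U := by
      intro k hk
      have e : (⟨_, hr k⟩ : Rc ℓ σ i0 y) = ∏ ρ ∈ σ.filter (k ∈ ·), yc ℓ σ i0 y ρ := by
        apply Subtype.ext
        rw [SubmonoidClass.coe_finsetProd, Finset.prod_congr rfl
          (fun ρ hρ => coe_yc (Finset.mem_filter.1 hρ).1)]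
        change LL ℓ k / LL ℓ i0 = _
        rw [hg.mono k hk, mul_div_cancel_left₀ _ (hL i0)]
      rw [e]
      by_cases hki : k = i
      · refine subset_adjoin (Or.inr (Ideal.mem_span_singleton.2 ?_))
        exact Finset.dvd_prod_of_mem _ (Finset.mem_filter.2 ⟨hρ₀, hki ▸ hi⟩)
      · have e2 : ∏ ρ ∈ σ.filter (k ∈ ·), yc ℓ σ i0 y ρ = ∏ ρ ∈ σ.filter (k ∈ ·),
            ((v ^ lam ρ : (Rc ℓ σ i0 y)ˣ) : Rc ℓ σ i0 y) * yc ℓ σ i0 y ρ := by
          rw [Finset.prod_mul_distrib, ← Units.coe_prod, prod_zpow_sum, hlam k,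
            if_neg hki, zpow_zero, Units.val_one, one_mul]
        rw [e2]
        exact prod_mem fun ρ hρ => subset_adjoin (Or.inl ⟨ρ, (Finset.mem_filter.1 hρ).1, rfl⟩)
    have hj : ∀ j, (⟨_, hr j⟩ : Rc ℓ σ i0 y) ∈ U := by
      intro j
      obtain ⟨c, hc⟩ := exists_comb hℓ (s := insert i0 (supp σ))
        (by rw [Finset.card_insert_of_notMem hg.i0_notMem, hg.card_supp]) j
      have e : (⟨_, hr j⟩ : Rc ℓ σ i0 y) =
          ∑ k : (insert i0 (supp σ) : Finset _), c k • (⟨_, hr k⟩ : Rc ℓ σ i0 y) := by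
        apply Subtype.ext
        rw [AddSubmonoidClass.coe_finsetSum]
        change LL ℓ j / LL ℓ i0 = _
        rw [hc, Finset.sum_div]
        refine Finset.sum_congr rfl fun k _ => ?_
        rw [Subalgebra.coe_smul, Algebra.smul_def, mul_div_assoc]
      rw [e]
      refine sum_mem fun k _ => Subalgebra.smul_mem _ ?_ _
      rcases Finset.mem_insert.1 k.2 with h | h
      · have e3 : (⟨_, hr k⟩ : Rc ℓ σ i0 y) = 1 := by
          apply Subtype.ext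
          change LL ℓ k / LL ℓ i0 = 1
          rw [h, div_self (hL i0)]
        rw [e3]
        exact one_mem _
      · exact hx k h
    have e : (v : Rc ℓ σ i0 y) = ∏ j ∈ (supp σ)ᶜ, (⟨_, hr j⟩ : Rc ℓ σ i0 y) := by
      apply Subtype.ext
      rw [SubmonoidClass.coe_finsetProd]
      exact hu
    rw [e]
    exact prod_mem fun j _ => hj j
  have := H.xchart hD hC hA
  rwa [hg.card_eq] at this

end Pool.Agent.Lib.MP_2c79a0_ag
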