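import Pool.Agent.Lib.MP_2c79a0_ag.Geo

/-!
Abstract algebra of a double cover `A = B + B w` of a localised affine space.
-/

open Algebra MvPolynomial

noncomputable section

namespace Pool.Agent.Lib.MP_2c79a0_ag.ChartX2

/-! ### Fractions -/

section Fr

variable {M T : Type} [CommRing M] [Algebra ℂ M] [CommRing T] [Algebra ℂ T]

/-- Fractions with unit denominator. -/
def fr (ψ : M →ₐ[ℂ] T) : Subalgebra ℂ T where
  carrier := {r | ∃ a s, IsUnit (ψ s) ∧ r * ψ s = ψ a}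
  mul_mem' := by
    rintro r r' ⟨a, s, hs, e⟩ ⟨a', s', hs', e'⟩
    refine ⟨a * a', s * s', by rw [map_mul]; exact hs.mul hs', ?_⟩
    rw [map_mul, map_mul, ← e, ← e']; ring
  add_mem' := by
    rintro r r' ⟨a, s, hs, e⟩ ⟨a', s', hs', e'⟩
    refine ⟨a * s' + a' * s, s * s', by rw [map_mul]; exact hs.mul hs', ?_⟩
    rw [map_add, map_mul, map_mul, map_mul, ← e, ← e']; ring
  algebraMap_mem' c := ⟨algebraMap ℂ M c, 1, by simp, by simp⟩

lemma map_mem_fr (ψ : M →ₐ[ℂ] T) (a : M) : ψ a ∈ fr ψ := ⟨a, 1, by simp, by simp⟩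

lemma inv_mem_fr {ψ : M →ₐ[ℂ] T} {r r' : T} (h : r ∈ fr ψ) (e : r * r' = 1) : r' ∈ fr ψ := by
  obtain ⟨a, s, hs, e1⟩ := h
  refine ⟨s, a, ?_, ?_⟩
  · rw [← e1]; exact (IsUnit.of_mul_eq_one _ e).mul hs
  · rw [← e1, ← mul_assoc, mul_comm r' r, e, one_mul]

lemma zpow_mem_fr {ψ : M →ₐ[ℂ] T} {v : Tˣ} (h : (v : T) ∈ fr ψ) (k : ℤ) :
    ((v ^ k : Tˣ) : T) ∈ fr ψ := by
  obtain ⟨m, rfl | rfl⟩ := k.eq_nat_or_neg
  · rw [zpow_natCast, Units.val_pow_eq_pow_val]; exact pow_mem h m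
  · rw [zpow_neg, zpow_natCast]
    refine inv_mem_fr (r := ((v ^ m : Tˣ) : T)) ?_ (Units.mul_inv _)
    rw [Units.val_pow_eq_pow_val]; exact pow_mem h m

lemma mem_fr_of_locSurj {S B : Type} [CommRing S] [Algebra ℂ S] [CommRing B] [Algebra ℂ B]
    {ψ : M →ₐ[ℂ] T} {e : S →ₐ[ℂ] B} (he : LocSurj e) (h : B →ₐ[ℂ] T)
    (H : ∀ m, h (e m) ∈ fr ψ) (b : B) : h b ∈ fr ψ := by
  obtain ⟨a, s, hs, e1⟩ := he b
  obtain ⟨v, hv⟩ := (hs.map h).exists_right_inv
  have h1 : h b = h (e a) * v := by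
    rw [← e1, map_mul, mul_assoc, hv, mul_one]
  rw [h1]
  exact mul_mem (H a) (inv_mem_fr (H s) hv)

lemma aeval_mem {ι : Type} (U : Subalgebra ℂ T) {x : ι → T} (hx : ∀ i, x i ∈ U)
    (m : MvPolynomial ι ℂ) : aeval x m ∈ U := by
  induction m using MvPolynomial.induction_on with
  | C a => rw [aeval_C]; exact U.algebraMap_mem a
  | add p q hp hq => rw [map_add]; exact add_mem hp hq
  | mul_X p i hp => rw [map_mul, aeval_X]; exact mul_mem hp (hx i)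

end Fr

/-! ### A unit times a prime is not a square -/

lemma sq_ne {D : Type} [CommRing D] [IsDomain D] [IsNoetherianRing D] {y u a b : D}
    (hy : Prime y) (hu : IsUnit u) (h : a ^ 2 = b ^ 2 * (u * y)) : a = 0 ∧ b = 0 := by
  by_cases hb : b = 0
  · refine ⟨?_, hb⟩
    rw [hb] at h
    simpa using h
  exfalso
  have ha : a ≠ 0 := by
    intro ha
    rw [ha] at h
    have : b ^ 2 * (u * y) ≠ 0 := mul_ne_zero (pow_ne_zero _ hb) (mul_ne_zero hu.ne_zero hy.ne_zero)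
    exact this (by rw [← h]; simp)
  obtain ⟨m, a', ha', rfl⟩ := WfDvdMonoid.max_power_factor ha hy.irreducible
  obtain ⟨k, b', hb', rfl⟩ := WfDvdMonoid.max_power_factor hb hy.irreducible
  rcases le_or_gt m k with hmk | hmk
  · obtain ⟨j, rfl⟩ := Nat.exists_eq_add_of_le hmk
    have h1 : y ^ (2 * m) * a' ^ 2 = y ^ (2 * m) * (y * (y ^ (2 * j) * b' ^ 2 * u)) := by
      linear_combination h
    have h2 := mul_left_cancel₀ (pow_ne_zero _ hy.ne_zero) h1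
    exact ha' (hy.dvd_of_dvd_pow ⟨_, h2⟩)
  · obtain ⟨j, rfl⟩ := Nat.exists_eq_add_of_lt hmk
    have h1 : y ^ (2 * k + 1) * (b' ^ 2 * u) = y ^ (2 * k + 1) * (y * (y ^ (2 * j) * a' ^ 2)) := by
      linear_combination -h
    have h2 := mul_left_cancel₀ (pow_ne_zero _ hy.ne_zero) h1
    have h3 : y ∣ b' ^ 2 * u := ⟨_, h2⟩
    rcases hy.dvd_or_dvd h3 with h4 | h4
    · exact hb' (hy.dvd_of_dvd_pow h4)
    · exact hy.not_isUnit (isUnit_of_dvd_unit h4 hu)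

lemma sq_mem {B : Type} [CommRing B] [IsNoetherianRing B] {J : Ideal B} [hJ : J.IsPrime]
    {y u a b : B} (hy : (J ⊔ Ideal.span {y}).IsPrime) (hyJ : y ∉ J) (hu : IsUnit u)
    (h : a ^ 2 - b ^ 2 * (u * y) ∈ J) : a ∈ J ∧ b ∈ J := by
  have hy0 : Ideal.Quotient.mk J y ≠ 0 := fun h => hyJ (Ideal.Quotient.eq_zero_iff_mem.1 h)
  have hp : Prime (Ideal.Quotient.mk J y) := by
    rw [← Ideal.span_singleton_prime hy0]
    have h1 : (J ⊔ Ideal.span {y}).map (Ideal.Quotient.mk J) =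
        Ideal.span {Ideal.Quotient.mk J y} := by
      rw [Ideal.map_sup, Ideal.map_quotient_self, bot_sup_eq, Ideal.map_span, Set.image_singleton]
    rw [← h1]
    exact Ideal.map_isPrime_of_surjective Ideal.Quotient.mk_surjective (by simp)
  have h2 := Ideal.Quotient.eq_zero_iff_mem.2 h
  simp only [map_sub, map_mul, map_pow, sub_eq_zero] at h2
  have := sq_ne hp (hu.map _) h2
  simpa only [Ideal.Quotient.eq_zero_iff_mem] using this

/-! ### The ideals of the double cover -/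

section Cover

variable {B A : Type} [CommRing B] [Algebra ℂ B] [CommRing A] [Algebra ℂ A]
  (γ : B →ₐ[ℂ] A) (w : A) (d : B) (hw : w ^ 2 = γ d)

/-- The ideal of elements with components in `J₁` and `J₂`. -/
def pairI (J₁ J₂ : Ideal B) (h12 : J₁ ≤ J₂) (hd : ∀ b ∈ J₂, b * d ∈ J₁)
    (hs : Function.Surjective (fun ab : B × B => γ ab.1 + γ ab.2 * w)) : Ideal A where
  carrier := {x | ∃ a ∈ J₁, ∃ b ∈ J₂, x = γ a + γ b * w}
  zero_mem' := ⟨0, zero_mem _, 0, zero_mem _, by simp⟩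
  add_mem' := by
    rintro _ _ ⟨a, ha, b, hb, rfl⟩ ⟨a', ha', b', hb', rfl⟩
    exact ⟨a + a', add_mem ha ha', b + b', add_mem hb hb', by simp only [map_add]; ring⟩
  smul_mem' := by
    rintro c _ ⟨a, ha, b, hb, rfl⟩
    obtain ⟨⟨c₁, c₂⟩, rfl⟩ := hs c
    refine ⟨c₁ * a + c₂ * (b * d), add_mem (J₁.mul_mem_left _ ha) (J₁.mul_mem_left _ (hd b hb)),
      c₁ * b + c₂ * a, add_mem (J₂.mul_mem_left _ hb) (J₂.mul_mem_left _ (h12 ha)), ?_⟩
    simp only [smul_eq_mul, map_add, map_mul, ← hw]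
    ring

variable {γ w d}

lemma mem_pairI {J₁ J₂ : Ideal B} {h12 : J₁ ≤ J₂} {hd : ∀ b ∈ J₂, b * d ∈ J₁}
    (hb : Function.Bijective (fun ab : B × B => γ ab.1 + γ ab.2 * w)) (a b : B) :
    γ a + γ b * w ∈ pairI γ w d hw J₁ J₂ h12 hd hb.2 ↔ a ∈ J₁ ∧ b ∈ J₂ := by
  constructor
  · rintro ⟨a', ha, b', hb', e⟩
    have := hb.1 (a₁ := (a, b)) (a₂ := (a', b')) e
    rw [Prod.mk.injEq] at this
    rw [this.1, this.2]
    exact ⟨ha, hb'⟩
  · rintro ⟨ha, hb'⟩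
    exact ⟨a, ha, b, hb', rfl⟩

include hw in
lemma mul_pair (a b a' b' : B) : (γ a + γ b * w) * (γ a' + γ b' * w) =
    γ (a * a' + b * b' * d) + γ (a * b' + b * a') * w := by
  simp only [map_add, map_mul, ← hw]
  ring

end Cover

end Pool.Agent.Lib.MP_2c79a0_ag.ChartX2
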