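import Pool.Agent.Lib.MP_2c79a0_ag.ChartX2A

/-!
The strata of the abstract double cover.
-/

open Algebra MvPolynomial

noncomputable section

namespace Pool.Agent.Lib.MP_2c79a0_ag.ChartX2

/-- The data of an abstract chart and its double cover. -/
structure Setup {N : ℕ} (σ : Cone N) (o : Ray N) {B : Type} [CommRing B] [Algebra ℂ B]
    (y : Ray N → B) (u : Bˣ) {A : Type} [CommRing A] [Algebra ℂ A] (γ : B →ₐ[ℂ] A) (w : A) :
    Prop where
  ho : o ∈ σ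
  ft : FiniteType ℂ B
  one : ∀ ρ ∉ σ, y ρ = 1
  ls : LocSurj (aeval fun ρ : σ => y ρ : MvPolynomial σ ℂ →ₐ[ℂ] B)
  inj : Function.Injective (aeval fun ρ : σ => y ρ : MvPolynomial σ ℂ →ₐ[ℂ] B)
  prime : ∀ τ ⊆ σ, (Ideal.span (y '' τ)).IsPrime
  notMem : ∀ τ ⊆ σ, ∀ ρ ∈ σ, ρ ∉ τ → y ρ ∉ Ideal.span (y '' τ)
  hu : ∀ ρ₀ ∈ σ, ρ₀ ≠ o → ∃ lam : Ray N → ℤ, Odd (lam o) ∧ (u : B) ∈
    adjoin ℂ ({x | ∃ ρ ∈ σ, x = ((u ^ lam ρ : Bˣ) : B) * y ρ} ∪ (Ideal.span {y ρ₀} : Set B))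
  hw : w ^ 2 = γ (u * y o)
  bij : Function.Bijective (fun ab : B × B => γ ab.1 + γ ab.2 * w)

variable {N : ℕ} {σ : Cone N} {o : Ray N} {B : Type} [CommRing B] [Algebra ℂ B]
  {y : Ray N → B} {u : Bˣ} {A : Type} [CommRing A] [Algebra ℂ A] {γ : B →ₐ[ℂ] A} {w : A}

/-- The local equations on the double cover. -/
abbrev tt (o : Ray N) (y : Ray N → B) (γ : B →ₐ[ℂ] A) (w : A) : Ray N → A :=
  Function.update (fun ρ => γ (y ρ)) o w

namespace Setup

variable (H : Setup σ o y u γ w)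
include H

lemma surj (x : A) : ∃ a b, x = γ a + γ b * w := by
  obtain ⟨⟨a, b⟩, e⟩ := H.bij.2 x
  exact ⟨a, b, e.symm⟩

lemma γ_inj : Function.Injective γ := by
  intro a b e
  have := H.bij.1 (a₁ := (a, 0)) (a₂ := (b, 0)) (by simp [e])
  exact (Prod.mk.inj this).1

lemma γ_mem {τ : Cone N} {a : B} (ha : a ∈ Ideal.span (y '' τ)) :
    γ a ∈ Ideal.span (tt o y γ w '' τ) := by
  have : Ideal.span (y '' τ) ≤ (Ideal.span (tt o y γ w '' τ)).comap (γ : B →+* A) := by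
    rw [Ideal.span_le]
    rintro _ ⟨ρ, hρ, rfl⟩
    change γ (y ρ) ∈ Ideal.span (tt o y γ w '' τ)
    have h1 : tt o y γ w ρ ∈ Ideal.span (tt o y γ w '' τ) := Ideal.subset_span ⟨ρ, hρ, rfl⟩
    by_cases h : ρ = o
    · subst h
      rw [tt, Function.update_self] at h1
      have h2 : γ (y ρ) = (γ (u⁻¹ : Bˣ) * w) * w := by
        rw [mul_assoc, ← sq, H.hw, ← map_mul, Units.inv_mul_cancel_left]
      rw [h2]
      exact Ideal.mul_mem_left _ _ h1
    · rwa [tt, Function.update_of_ne h] at h1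
  exact this ha

lemma mem_of_mem {τ : Cone N} (hτ : o ∈ τ) (a b : B) :
    γ a + γ b * w ∈ Ideal.span (tt o y γ w '' τ) ↔ a ∈ Ideal.span (y '' τ) := by
  have hyo : y o ∈ Ideal.span (y '' τ) := Ideal.subset_span ⟨o, hτ, rfl⟩
  constructor
  · intro h
    have hle : Ideal.span (tt o y γ w '' τ) ≤ pairI γ w _ H.hw (Ideal.span (y '' τ)) ⊤ le_top
        (fun b _ => Ideal.mul_mem_left _ _ (Ideal.mul_mem_left _ _ hyo)) H.bij.2 := by
      rw [Ideal.span_le]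
      rintro _ ⟨ρ, hρ, rfl⟩
      by_cases h : ρ = o
      · subst h
        exact ⟨0, zero_mem _, 1, trivial, by simp⟩
      · exact ⟨y ρ, Ideal.subset_span ⟨ρ, hρ, rfl⟩, 0, trivial, by simp [Function.update_of_ne h]⟩
    exact ((mem_pairI H.hw H.bij a b).1 (hle h)).1
  · intro h
    refine add_mem (H.γ_mem h) (Ideal.mul_mem_left _ _ (Ideal.subset_span ⟨o, hτ, ?_⟩))
    simp

lemma mem_of_notMem {τ : Cone N} (hτ : o ∉ τ) (a b : B) :
    γ a + γ b * w ∈ Ideal.span (tt o y γ w '' τ) ↔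
      a ∈ Ideal.span (y '' τ) ∧ b ∈ Ideal.span (y '' τ) := by
  constructor
  · intro h
    have hle : Ideal.span (tt o y γ w '' τ) ≤ pairI γ w _ H.hw (Ideal.span (y '' τ)) _ le_rfl
        (fun b hb => Ideal.mul_mem_right _ _ hb) H.bij.2 := by
      rw [Ideal.span_le]
      rintro _ ⟨ρ, hρ, rfl⟩
      have h : ρ ≠ o := fun h => hτ (h ▸ hρ)
      exact ⟨y ρ, Ideal.subset_span ⟨ρ, hρ, rfl⟩, 0, zero_mem _,
        by simp [Function.update_of_ne h]⟩
    exact (mem_pairI H.hw H.bij a b).1 (hle h)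
  · intro h
    exact add_mem (H.γ_mem h.1) (Ideal.mul_mem_right _ _ (H.γ_mem h.2))

lemma primeA {τ : Cone N} (hτ : τ ⊆ σ) : (Ideal.span (tt o y γ w '' τ)).IsPrime := by
  have hJ := H.prime τ hτ
  have := H.ft
  have : IsNoetherianRing B := FiniteType.isNoetherianRing ℂ B
  have h1 : (1 : A) = γ 1 + γ 0 * w := by simp
  by_cases ho : o ∈ τ
  · refine ⟨?_, fun {x x'} h => ?_⟩
    · rw [Ideal.ne_top_iff_one, h1, H.mem_of_mem ho]
      exact (Ideal.ne_top_iff_one _).1 hJ.ne_top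
    · obtain ⟨a, b, rfl⟩ := H.surj x
      obtain ⟨a', b', rfl⟩ := H.surj x'
      rw [mul_pair H.hw, H.mem_of_mem ho] at h
      rw [H.mem_of_mem ho, H.mem_of_mem ho]
      have hyo : y o ∈ Ideal.span (y '' τ) := Ideal.subset_span ⟨o, ho, rfl⟩
      have h2 := sub_mem h (Ideal.mul_mem_left _ (b * b') (Ideal.mul_mem_left _ (u : B) hyo))
      rw [add_sub_cancel_right] at h2
      exact hJ.mem_or_mem h2
  · refine ⟨?_, fun {x x'} h => ?_⟩
    · rw [Ideal.ne_top_iff_one, h1, H.mem_of_notMem ho]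
      exact fun h => (Ideal.ne_top_iff_one _).1 hJ.ne_top h.1
    · obtain ⟨a, b, rfl⟩ := H.surj x
      obtain ⟨a', b', rfl⟩ := H.surj x'
      rw [mul_pair H.hw, H.mem_of_notMem ho] at h
      rw [H.mem_of_notMem ho, H.mem_of_notMem ho]
      have h2 : (a ^ 2 - b ^ 2 * (u * y o)) * (a' ^ 2 - b' ^ 2 * (u * y o)) ∈
          Ideal.span (y '' τ) := by
        have h3 := sub_mem (Ideal.mul_mem_left _ (a * a' + b * b' * (u * y o)) h.1)
          (Ideal.mul_mem_left _ ((a * b' + b * a') * (u * y o)) h.2)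
        convert h3 using 1
        ring
      have hp : (Ideal.span (y '' τ) ⊔ Ideal.span {y o}).IsPrime := by
        have := H.prime (insert o τ) (Finset.insert_subset H.ho hτ)
        rwa [Finset.coe_insert, Set.image_insert_eq, Ideal.span_insert, sup_comm] at this
      have hn := H.notMem τ hτ o H.ho ho
      exact (hJ.mem_or_mem h2).imp (sq_mem hp hn u.isUnit) (sq_mem hp hn u.isUnit)

lemma notMemA {τ : Cone N} (hτ : τ ⊆ σ) {ρ : Ray N} (hρ : ρ ∈ σ) (hρτ : ρ ∉ τ) :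
    tt o y γ w ρ ∉ Ideal.span (tt o y γ w '' τ) := by
  have hJ := H.prime τ hτ
  by_cases h : ρ = o
  · subst h
    have h1 : tt ρ y γ w ρ = γ 0 + γ 1 * w := by simp
    rw [h1, H.mem_of_notMem hρτ]
    exact fun h => (Ideal.ne_top_iff_one _).1 hJ.ne_top h.2
  · have h1 : tt o y γ w ρ = γ (y ρ) + γ 0 * w := by simp [Function.update_of_ne h]
    rw [h1]
    by_cases ho : o ∈ τ
    · rw [H.mem_of_mem ho]; exact H.notMem τ hτ ρ hρ hρτ
    · rw [H.mem_of_notMem ho]; exact fun h => H.notMem τ hτ ρ hρ hρτ h.1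

lemma finite : (γ : B →+* A).Finite := by
  classical
  let _ := (γ : B →+* A).toAlgebra
  refine ⟨⟨{1, w}, ?_⟩⟩
  rw [_root_.eq_top_iff]
  intro x _
  obtain ⟨a, b, rfl⟩ := H.surj x
  have h1 : γ a + γ b * w = a • (1 : A) + b • w := by
    simp only [Algebra.smul_def, mul_one]; rfl
  rw [h1]
  exact add_mem (Submodule.smul_mem _ _ (Submodule.subset_span (by simp)))
    (Submodule.smul_mem _ _ (Submodule.subset_span (by simp)))

lemma ftA : FiniteType ℂ A := by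
  let _ := (γ : B →+* A).toAlgebra
  have : IsScalarTower ℂ B A := IsScalarTower.of_algebraMap_eq fun c => (γ.commutes c).symm
  have : Module.Finite B A := H.finite
  have := H.ft
  exact FiniteType.trans (S := B) inferInstance inferInstance

/-- The prime of a stratum. -/
def pI (τ : Cone N) (hτ : τ ⊆ σ) : PrimeSpectrum A := ⟨_, H.primeA hτ⟩

lemma dm_ge (hD : DimStmt) (k : ℕ) : ∀ (τ : Cone N) (hτ : τ ⊆ σ), (σ \ τ).card = k →
    k ≤ dm (H.pI τ hτ) := by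
  have := H.ftA
  induction k with
  | zero => exact fun _ _ _ => Nat.zero_le _
  | succ k ih =>
    intro τ hτ hk
    obtain ⟨ρ, hρ⟩ : (σ \ τ).Nonempty := Finset.card_pos.1 (by omega)
    have hρ' := Finset.mem_sdiff.1 hρ
    have h1 := ih (insert ρ τ) (Finset.insert_subset hρ'.1 hτ) (by
      rw [Finset.sdiff_insert, Finset.card_erase_of_mem hρ]; omega)
    have h2 : H.pI τ hτ < H.pI (insert ρ τ) (Finset.insert_subset hρ'.1 hτ) := by
      refine lt_of_le_of_ne (Ideal.span_mono (Set.image_mono (by simp))) fun e => ?_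
      apply H.notMemA hτ hρ'.1 hρ'.2
      have h3 : tt o y γ w ρ ∈ (H.pI (insert ρ τ) (Finset.insert_subset hρ'.1 hτ)).asIdeal :=
        Ideal.subset_span ⟨ρ, by simp, rfl⟩
      rwa [← e] at h3
    have h4 := hD.1 A _ _ h2
    omega

/-- Polynomial coordinates on a stratum. -/
lemma exists_coord {τ : Cone N} (hτ : τ ⊆ σ) (hne : τ.Nonempty) {T : Type} [CommRing T]
    [Algebra ℂ T] (φ : A →ₐ[ℂ] T) (hφ : LocSurj φ)
    (hker : ∀ a ∈ Ideal.span (tt o y γ w '' τ), φ a = 0) :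
    ∃ ψ : MvPolynomial (σ \ τ : Cone N) ℂ →ₐ[ℂ] T, LocSurj ψ := by
  have key : ∀ ψ : MvPolynomial (σ \ τ : Cone N) ℂ →ₐ[ℂ] T, (∀ ρ ∈ σ, φ (γ (y ρ)) ∈ fr ψ) →
      φ w ∈ fr ψ → LocSurj ψ := by
    intro ψ h1 h2 r
    have h3 : ∀ b, φ (γ b) ∈ fr ψ := by
      refine mem_fr_of_locSurj H.ls (φ.comp γ) fun m => ?_
      rw [← AlgHom.comp_apply, comp_aeval]
      exact aeval_mem _ (fun ρ : σ => h1 ρ.1 ρ.2) m
    refine mem_fr_of_locSurj hφ (AlgHom.id ℂ T) (fun a => ?_) r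
    obtain ⟨a, b, rfl⟩ := H.surj a
    rw [AlgHom.id_apply, map_add, map_mul]
    exact add_mem (h3 a) (mul_mem (h3 b) h2)
  have hz : ∀ ρ ∈ τ, φ (γ (y ρ)) = 0 := fun ρ hρ =>
    hker _ (H.γ_mem (Ideal.subset_span ⟨ρ, hρ, rfl⟩))
  by_cases ho : o ∈ τ
  · refine ⟨aeval fun ρ => φ (γ (y ρ)), key _ (fun ρ hρ => ?_) ?_⟩
    · by_cases h : ρ ∈ τ
      · rw [hz ρ h]; exact zero_mem _
      · have := map_mem_fr (aeval fun ρ : (σ \ τ : Cone N) => φ (γ (y ρ)))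
          (X ⟨ρ, Finset.mem_sdiff.2 ⟨hρ, h⟩⟩)
        rwa [aeval_X] at this
    · rw [hker w (Ideal.subset_span ⟨o, ho, by simp⟩)]; exact zero_mem _
  · obtain ⟨ρ₀, hρ₀⟩ := hne
    obtain ⟨lam, ⟨k, hk⟩, hu⟩ := H.hu ρ₀ (hτ hρ₀) (fun h => ho (h ▸ hρ₀))
    set v : Tˣ := Units.map (φ.comp γ : B →* T) u with hv
    have hvz : ∀ m : ℤ, φ (γ ((u ^ m : Bˣ) : B)) = ((v ^ m : Tˣ) : T) := by
      intro m
      rw [hv, ← map_zpow]
      rfl
    set ψ : MvPolynomial (σ \ τ : Cone N) ℂ →ₐ[ℂ] T := aeval fun ρ =>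
      if ρ.1 = o then ((v ^ k : Tˣ) : T) * φ w else ((v ^ lam ρ : Tˣ) : T) * φ (γ (y ρ)) with hψ
    have h1 : ((v ^ k : Tˣ) : T) * φ w ∈ fr ψ := by
      have := map_mem_fr ψ (X ⟨o, Finset.mem_sdiff.2 ⟨H.ho, ho⟩⟩)
      rwa [hψ, aeval_X, if_pos rfl] at this
    have h2 : ∀ ρ ∈ σ, ((v ^ lam ρ : Tˣ) : T) * φ (γ (y ρ)) ∈ fr ψ := by
      intro ρ hρ
      by_cases h : ρ ∈ τ
      · rw [hz ρ h, mul_zero]; exact zero_mem _
      by_cases h' : ρ = o
      · subst h'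
        have h3 : ((v ^ lam ρ : Tˣ) : T) * φ (γ (y ρ)) = (((v ^ k : Tˣ) : T) * φ w) ^ 2 := by
          have h4 : φ (γ u) = v := rfl
          rw [mul_pow, ← map_pow, H.hw, map_mul, map_mul, h4, hk, zpow_add, zpow_one, two_mul,
            zpow_add, Units.val_mul, Units.val_mul]
          ring
        rw [h3]
        exact pow_mem h1 2
      · have := map_mem_fr ψ (X ⟨ρ, Finset.mem_sdiff.2 ⟨hρ, h⟩⟩)
        rwa [hψ, aeval_X, if_neg h'] at this
    have h3 : (v : T) ∈ fr ψ := by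
      have h4 : adjoin ℂ ({x | ∃ ρ ∈ σ, x = ((u ^ lam ρ : Bˣ) : B) * y ρ} ∪
          (Ideal.span {y ρ₀} : Set B)) ≤ (fr ψ).comap (φ.comp γ) := by
        rw [adjoin_le_iff]
        rintro x (⟨ρ, hρ, rfl⟩ | hx)
        · change φ (γ _) ∈ fr ψ
          rw [map_mul, map_mul, hvz]
          exact h2 ρ hρ
        · change φ (γ _) ∈ fr ψ
          obtain ⟨c, rfl⟩ := Ideal.mem_span_singleton'.1 hx
          rw [map_mul, map_mul, hz ρ₀ hρ₀, mul_zero]
          exact zero_mem _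
      exact h4 hu
    have h5 : ∀ (m : ℤ) (x : T), ((v ^ m : Tˣ) : T) * x ∈ fr ψ → x ∈ fr ψ := by
      intro m x hx
      have := mul_mem (zpow_mem_fr h3 (-m)) hx
      rwa [zpow_neg, Units.inv_mul_cancel_left] at this
    exact ⟨ψ, key ψ (fun ρ hρ => h5 _ _ (h2 ρ hρ)) (h5 _ _ h1)⟩

end Setup

lemma cm_gen {S R : Type} [CommRing S] [IsDomain S] [Algebra ℂ S] [CommRing R] [IsDomain R]
    [Algebra ℂ R] {φ : S →ₐ[ℂ] R} (h : Function.Injective φ) : cm φ (gen R) = gen S := by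
  ext a
  rw [mem_cm]
  change φ a ∈ (⊥ : Ideal R) ↔ a ∈ (⊥ : Ideal S)
  rw [Ideal.mem_bot, Ideal.mem_bot, map_eq_zero_iff _ h]

lemma ratOn_supp (hV : DvStmt) {R : Type} [CommRing R] [Algebra ℂ R] [EssFiniteType ℂ R]
    {J : Ideal R} {c : Cyc R} (hc : c ∈ RatOn J) (z : PrimeSpectrum R) (hz : ¬ J ≤ z.asIdeal) :
    c z = 0 := by
  induction hc using Submodule.span_induction with
  | mem c hc =>
    obtain ⟨w, a, hw, rfl⟩ := hc
    by_contra h
    exact hz (hw.trans ((hV R w).1 a z h).1.le)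
  | zero => rfl
  | add c c' _ _ h h' => simp [h, h']
  | smul a c _ h => simp [h]

namespace Setup

variable (H : Setup σ o y u γ w)
include H

lemma oneA {ρ : Ray N} (hρ : ρ ∉ σ) : tt o y γ w ρ = 1 := by
  have h : ρ ≠ o := fun h => hρ (h ▸ H.ho)
  simp [Function.update_of_ne h, H.one ρ hρ]

lemma dimA (hD : DimStmt) [IsDomain A] : dm (gen A) = σ.card := by
  have : IsDomain B := H.γ_inj.isDomain (γ : B →+* A)
  obtain ⟨-, -, -, h1, h2, -, -, h5⟩ := hD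
  rw [← h2 B A γ H.finite.to_isIntegral, cm_gen H.γ_inj, ← h1 _ _ _ H.ls, cm_gen H.inj, h5,
    Fintype.card_coe]

lemma affA (hD : DimStmt) (hC : CycStmt) (hA : AffStmt) {τ : Cone N} (hτ : τ ⊆ σ)
    (hne : τ.Nonempty) (P : PrimeSpectrum A) (hP : Ideal.span (tt o y γ w '' τ) < P.asIdeal)
    (hP' : ∀ ρ ∉ τ, tt o y γ w ρ ∉ P.asIdeal) :
    ∃ c ∈ RatOn (Ideal.span (tt o y γ w '' τ)), ∀ z : PrimeSpectrum A,
      (∀ ρ ∉ τ, tt o y γ w ρ ∉ z.asIdeal) → c z = Finsupp.single P (1 : ℚ) z := by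
  classical
  have := H.ftA
  set I := Ideal.span (tt o y γ w '' τ) with hI
  have hIp : I.IsPrime := H.primeA hτ
  set f : A := ∏ ρ ∈ σ \ τ, tt o y γ w ρ with hf
  have hfz : ∀ z : PrimeSpectrum A, (∀ ρ ∈ σ, ρ ∉ τ → tt o y γ w ρ ∉ z.asIdeal) →
      f ∉ z.asIdeal := by
    intro z hz h
    obtain ⟨ρ, hρ, h'⟩ := Ideal.IsPrime.prod_mem_iff.1 h
    exact hz ρ (Finset.mem_sdiff.1 hρ).1 (Finset.mem_sdiff.1 hρ).2 h'
  have hf0 : Ideal.Quotient.mk I f ≠ 0 := fun h =>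
    hfz ⟨I, hIp⟩ (fun ρ h1 h2 => H.notMemA hτ h1 h2) (Ideal.Quotient.eq_zero_iff_mem.1 h)
  have hle : Submonoid.powers (Ideal.Quotient.mk I f) ≤ nonZeroDivisors (A ⧸ I) :=
    powers_le_nonZeroDivisors_of_noZeroDivisors hf0
  let T := Localization.Away (Ideal.Quotient.mk I f)
  have : IsDomain T := IsLocalization.isDomain_localization hle
  let φ : A →ₐ[ℂ] T := (IsScalarTower.toAlgHom ℂ (A ⧸ I) T).comp (Ideal.Quotient.mkₐ ℂ I)
  have hφa : ∀ a, φ a = algebraMap (A ⧸ I) T (Ideal.Quotient.mk I a) := fun _ => rfl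
  have hker : ∀ a, φ a = 0 ↔ a ∈ I := by
    intro a
    rw [hφa, map_eq_zero_iff _ (IsLocalization.injective T hle), Ideal.Quotient.eq_zero_iff_mem]
  have hφ : LocSurj φ := by
    intro r
    obtain ⟨⟨a, s⟩, e⟩ := IsLocalization.surj (Submonoid.powers (Ideal.Quotient.mk I f)) r
    obtain ⟨a', ha⟩ := Ideal.Quotient.mk_surjective a
    obtain ⟨s', hs⟩ := Ideal.Quotient.mk_surjective s.1
    refine ⟨a', s', ?_, ?_⟩
    · rw [hφa, hs]; exact IsLocalization.map_units T s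
    · rw [hφa, hφa, hs, ha]; exact e
  obtain ⟨-, hR2, -, -, -, -, hR7⟩ := hC.2.2.2.1 A T φ hφ
  have hrange : ∀ z : PrimeSpectrum A, I ≤ z.asIdeal → (∀ ρ ∉ τ, tt o y γ w ρ ∉ z.asIdeal) →
      z ∈ Set.range (cm φ) := by
    intro z h1 h2
    refine (hR2 z).2 ⟨fun a ha => h1 ((hker a).1 ha), fun s hs hu => ?_⟩
    rw [hφa, IsLocalization.Away.algebraMap_isUnit_iff (Ideal.Quotient.mk I f)] at hu
    obtain ⟨m, c, hc⟩ := hu
    obtain ⟨c', rfl⟩ := Ideal.Quotient.mk_surjective c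
    rw [← map_pow, ← map_mul, Ideal.Quotient.eq] at hc
    have h3 := add_mem (h1 hc) (z.asIdeal.mul_mem_right c' hs)
    rw [sub_add_cancel] at h3
    exact hfz z (fun ρ _ h => h2 ρ h) (z.isPrime.mem_of_pow_mem m h3)
  have hgen : cm φ (gen T) = H.pI τ hτ := by
    ext a
    rw [mem_cm]
    exact Ideal.mem_bot.trans (hker a)
  obtain ⟨ψ, hψ⟩ := H.exists_coord hτ hne φ hφ fun a ha => (hker a).2 ha
  have hinj : Function.Injective ψ := by
    by_contra hcon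
    have h1 : gen (MvPolynomial (σ \ τ : Cone N) ℂ) < cm ψ (gen T) := by
      refine lt_of_le_of_ne (bot_le (α := Ideal _)) fun e => hcon ?_
      rw [injective_iff_map_eq_zero]
      intro a ha
      have h2 : a ∈ (cm ψ (gen T)).asIdeal := (mem_cm _ _ _).2 (Ideal.mem_bot.2 ha)
      rw [← e] at h2
      exact Ideal.mem_bot.1 h2
    have h2 := hD.1 _ _ _ h1
    rw [hD.2.2.2.1 _ _ _ hψ, ← hD.2.2.2.1 _ _ _ hφ, hgen, hD.2.2.2.2.2.2.2,
      Fintype.card_coe] at h2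
    have h3 := H.dm_ge hD _ τ hτ rfl
    omega
  obtain ⟨P', rfl⟩ := hrange P hP.le hP'
  have hP0 : P'.asIdeal ≠ ⊥ := by
    intro h
    have h1 : P' = gen T := PrimeSpectrum.ext h
    rw [h1, hgen] at hP
    exact lt_irrefl _ hP
  obtain ⟨c, hc, hc'⟩ := hR7 ⊥ _ (hA _ T ψ hψ hinj P' hP0)
  have hcomap : (⊥ : Ideal T).comap (φ : A →+* T) = I := congrArg PrimeSpectrum.asIdeal hgen
  rw [hcomap] at hc
  refine ⟨c, hc, fun z hz => ?_⟩
  by_cases h : I ≤ z.asIdeal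
  · obtain ⟨z', rfl⟩ := hrange z h hz
    rw [← res_apply φ hφ, hc', Finsupp.single_apply, Finsupp.single_apply]
    simp only [hφ.cm_injective.eq_iff]
  · rw [ratOn_supp hC.2.1 hc z h, Finsupp.single_eq_of_ne]
    rintro rfl
    exact h hP.le

theorem xchart (hD : DimStmt) (hC : CycStmt) (hA : AffStmt) [IsDomain A] :
    XChart σ.card σ A (tt o y γ w) where
  ft := H.ftA
  dim := H.dimA hD
  one _ h := H.oneA h
  prime _ h := H.primeA h
  notMem _ h _ h1 h2 := H.notMemA h h1 h2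
  aff _ h1 h2 P h3 h4 := H.affA hD hC hA h1 h2 P h3 h4

end Setup

end Pool.Agent.Lib.MP_2c79a0_ag.ChartX2
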