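import Pool.Agent.Lib.MP_2c79a0_ag.Geo

/-!
Charts on the double cover.
-/

open AlgebraicGeometry CategoryTheory TopologicalSpace Algebra

noncomputable section

namespace Pool.Agent.Lib.MP_2c79a0_ag

namespace Cover

/-- The ring map induced by a morphism from an affine open set to an affine chart. -/
lemma exists_ring_map {X B : Scheme.{0}} (f : X ⟶ B) {R : CommRingCat.{0}} (j : Spec R ⟶ B)
    [IsOpenImmersion j] {U : X.Opens} (hU : IsAffineOpen U) (h : U ≤ f ⁻¹ᵁ j.opensRange) :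
    ∃ γ : R ⟶ Γ(X, U), Spec.map γ ≫ j = hU.fromSpec ≫ f := by
  have H : Set.range (hU.fromSpec ≫ f) ⊆ Set.range j := by
    rintro _ ⟨x, rfl⟩
    have hx : hU.fromSpec x ∈ U := by
      have : hU.fromSpec x ∈ Set.range hU.fromSpec := ⟨x, rfl⟩
      rwa [hU.range_fromSpec] at this
    have := h hx
    simpa using this
  refine ⟨Spec.preimage (IsOpenImmersion.lift j (hU.fromSpec ≫ f) H), ?_⟩
  rw [Spec.map_preimage, IsOpenImmersion.lift_fac]

lemma finite_of_fac {X B : Scheme.{0}} (f : X ⟶ B) [IsFinite f] {R : CommRingCat.{0}}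
    (j : Spec R ⟶ B) [IsOpenImmersion j] (hU : IsAffineOpen (f ⁻¹ᵁ j.opensRange))
    (γ : R ⟶ Γ(X, f ⁻¹ᵁ j.opensRange)) (hγ : Spec.map γ ≫ j = hU.fromSpec ≫ f) :
    γ.hom.Finite := by
  have H := IsOpenImmersion.isPullback (Spec.map γ) hU.fromSpec j f hγ.symm (by simp)
  have : IsFinite (Spec.map γ) := MorphismProperty.of_isPullback H.flip ‹_›
  exact (IsFinite.SpecMap_iff γ).mp this

lemma exists_chart {X B : Scheme.{0}} (f : X ⟶ B) [IsFinite f] {R : CommRingCat.{0}}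
    (j : Spec R ⟶ B) (hj : IsOpenImmersion j) :
    ∃ (U : X.Opens) (hU : IsAffineOpen U) (γ : R ⟶ Γ(X, U)),
      (∀ x, x ∈ U ↔ f x ∈ Set.range j) ∧ Spec.map γ ≫ j = hU.fromSpec ≫ f ∧ γ.hom.Finite := by
  have hU : IsAffineOpen (f ⁻¹ᵁ j.opensRange) := (isAffineOpen_opensRange j).preimage f
  obtain ⟨γ, hγ⟩ := exists_ring_map f j hU le_rfl
  exact ⟨_, hU, γ, fun _ => Iff.rfl, hγ, finite_of_fac f j hU γ hγ⟩

lemma normal_of_stalks {X : Scheme.{0}} (hX : ∀ x : X, IsIntegrallyClosed (X.presheaf.stalk x))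
    {U : X.Opens} (hU : IsAffineOpen U) [IsDomain Γ(X, U)] : IsIntegrallyClosed Γ(X, U) := by
  refine IsIntegrallyClosed.of_localization_maximal fun P _ hP => ?_
  let y : PrimeSpectrum Γ(X, U) := ⟨P, hP.isPrime⟩
  have hy : hU.fromSpec y ∈ U := by
    have : hU.fromSpec y ∈ Set.range hU.fromSpec := ⟨y, rfl⟩
    rwa [hU.range_fromSpec] at this
  let _ : Algebra Γ(X, U) (X.presheaf.stalk (hU.fromSpec y)) :=
    TopCat.Presheaf.algebra_section_stalk X.presheaf ⟨hU.fromSpec y, hy⟩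
  have h1 : IsLocalization.AtPrime (X.presheaf.stalk (hU.fromSpec y)) P :=
    hU.isLocalization_stalk' y hy
  have h2 := hX (hU.fromSpec y)
  exact IsIntegrallyClosed.of_equiv
    (IsLocalization.algEquiv P.primeCompl (X.presheaf.stalk (hU.fromSpec y))
      (Localization.AtPrime P)).toRingEquiv

lemma frac {X : Scheme.{0}} [IsIntegral X] {U V : X.Opens} (hU : IsAffineOpen U) (h : V ≤ U)
    [Nonempty V] (r : Γ(X, V)) : ∃ a b : Γ(X, U), b ≠ 0 ∧
      r * X.presheaf.map (homOfLE h).op b = X.presheaf.map (homOfLE h).op a := by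
  have hne : Nonempty U := by
    obtain ⟨⟨x, hx⟩⟩ := ‹Nonempty V›
    exact ⟨⟨x, h hx⟩⟩
  have := functionField_isFractionRing_of_isAffineOpen X U hU
  obtain ⟨⟨a, b⟩, e⟩ := IsLocalization.surj (nonZeroDivisors Γ(X, U))
    (X.germToFunctionField V r : X.functionField)
  refine ⟨a, b, nonZeroDivisors.ne_zero b.2, ?_⟩
  apply X.germToFunctionField_injective V
  rw [map_mul]
  simp only [Scheme.germToFunctionField, TopCat.Presheaf.germ_res_apply]
  exact e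

lemma mem_iff {X B : Scheme.{0}} (f : X ⟶ B) {R : CommRingCat.{0}} (j : Spec R ⟶ B)
    {U : X.Opens} (hU : IsAffineOpen U) (γ : R ⟶ Γ(X, U))
    (hγ : Spec.map γ ≫ j = hU.fromSpec ≫ f) (x : X) (hx : x ∈ U) :
    f x = j (PrimeSpectrum.comap γ.hom (hU.primeIdealOf ⟨x, hx⟩)) := by
  have h1 : ∀ P : Spec Γ(X, U), j (Spec.map γ P) = f (hU.fromSpec P) := fun P => by
    rw [← Scheme.Hom.comp_apply, ← Scheme.Hom.comp_apply, hγ]
  have h2 := h1 (hU.primeIdealOf ⟨x, hx⟩)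
  rw [hU.fromSpec_primeIdealOf ⟨x, hx⟩] at h2
  exact h2.symm

lemma mem_primeIdealOf {X : Scheme.{0}} {U : X.Opens} (hU : IsAffineOpen U) (x : X) (hx : x ∈ U)
    (r : Γ(X, U)) : r ∈ (hU.primeIdealOf ⟨x, hx⟩).asIdeal ↔ x ∉ X.basicOpen r := by
  have h1 : hU.primeIdealOf ⟨x, hx⟩ ∈ hU.fromSpec ⁻¹ᵁ X.basicOpen r ↔ x ∈ X.basicOpen r := by
    change hU.fromSpec (hU.primeIdealOf ⟨x, hx⟩) ∈ X.basicOpen r ↔ _
    rw [hU.fromSpec_primeIdealOf ⟨x, hx⟩]
  rw [← h1, hU.fromSpec_preimage_basicOpen]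
  exact (not_not (a := r ∈ (hU.primeIdealOf ⟨x, hx⟩).asIdeal)).symm

attribute [local instance] MvPolynomial.gradedAlgebra

lemma lin_mem {n : ℕ} (v : Fin (n + 1) → ℂ) : lin v ∈ gr n 1 := by
  refine Submodule.sum_mem _ fun k _ => ?_
  exact (MvPolynomial.isHomogeneous_C_mul_X (v k) k)

lemma prod_mem {n : ℕ} (ℓ : Fin (2 * n + 2) → Fin (n + 1) → ℂ) :
    ∏ i, lin (ℓ i) ∈ gr n (2 * n + 2) := by
  have := MvPolynomial.IsHomogeneous.prod Finset.univ (fun i => lin (ℓ i)) (fun _ => 1)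
    (fun i _ => lin_mem (ℓ i))
  simpa using this

lemma away_fac {n m : ℕ} (F : MvPolynomial (Fin (n + 1)) ℂ) (hF : F ∈ gr n m) (hm : 0 < m) :
    Spec.map (Proj.awayToSection (gr n) F) ≫ Proj.awayι (gr n) F hF hm =
      (Proj.isAffineOpen_basicOpen (gr n) F hF hm).fromSpec := by
  rw [← cancel_epi (Proj.isAffineOpen_basicOpen (gr n) F hF hm).isoSpec.hom,
    IsAffineOpen.isoSpec_hom_fromSpec, IsAffineOpen.isoSpec_hom, ← Category.assoc]
  change Proj.basicOpenToSpec (gr n) F ≫ _ = _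
  rw [← Proj.basicOpenIsoSpec_hom (gr n) F hF hm, Proj.awayι, Iso.hom_inv_id_assoc]

lemma away_bij {n m : ℕ} (F : MvPolynomial (Fin (n + 1)) ℂ) (hF : F ∈ gr n m) (hm : 0 < m) :
    Function.Bijective (Proj.awayToSection (gr n) F) := by
  rw [← Proj.basicOpenIsoAway_hom (gr n) F hF hm]
  exact (Proj.basicOpenIsoAway (gr n) F hF hm).commRingCatIsoToRingEquiv.bijective

lemma two_of_ne {n N : ℕ} {K : Set (Cone N)} (hF : FanBasicStmt) (hn : 2 ≤ n) (hN : n < N)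
    (hK : FanTower n N K (Finset.powersetCard 2 Finset.univ)) {σ : Cone N} (hσ : σ ∈ K)
    {o : Fin N} (ho : ({o} : Ray N) ∈ σ) : ∀ ρ ∈ σ, ρ ≠ {o} → ρ.card = 2 := by
  obtain ⟨-, hdown, -, -, hray, hS, hpair, -⟩ := hF n N K _ hn hN hK
  intro ρ hρ hne
  rcases hray σ hσ ρ hρ with h1 | h2
  · exfalso
    obtain ⟨c, rfl⟩ := Finset.card_eq_one.mp h1
    have hco : c ≠ o := fun e => hne (by rw [e])
    have hsub : ({{c}, {o}} : Cone N) ⊆ σ := by
      intro r hr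
      rcases Finset.mem_insert.mp hr with rfl | hr
      · exact hρ
      · rw [Finset.mem_singleton.mp hr]; exact ho
    refine (hpair c o hco).mp (hdown σ hσ _ hsub) ?_
    exact Finset.mem_powersetCard.mpr ⟨Finset.subset_univ _, Finset.card_pair hco⟩
  · exact hS ρ h2

lemma torus_part {n : ℕ} {ℓ : Fin (2 * n + 2) → Fin (n + 1) → ℂ} {B X : Scheme.{0}}
    {p : B ⟶ Pn n} {π : X ⟶ B} {K : Set (Cone (2 * n + 2))} (M : BModel ℓ B p K)
    (hD : DoubleCover ℓ π p) :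
    ∃ (U0 : X.Opens) (aff0 : IsAffineOpen U0) (β : R0 ℓ →+* Γ(X, U0)) (w : Γ(X, U0))
      (h0 : R0 ℓ), (∀ x, x ∈ U0 ↔ π x ∈ Set.range M.j0) ∧ Nonempty U0 ∧
      Spec.map (CommRingCat.ofHom β) ≫ M.j0 = aff0.fromSpec ≫ π ∧
      (h0 : Om n) * LL ℓ 0 ^ (2 * n + 2) = ∏ i, LL ℓ i ∧ w ^ 2 = β h0 ∧
      Function.Bijective (fun ab : R0 ℓ × R0 ℓ => β ab.1 + β ab.2 * w) := by
  obtain ⟨hint, hnorm, hfin, h, w, hh, hw, hbij⟩ := hD
  have hm : 0 < 2 * n + 2 := by omega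
  have hFm := prod_mem ℓ
  have := M.open_j0
  -- the open set over the complement of the hyperplanes
  let F : MvPolynomial (Fin (n + 1)) ℂ := ∏ i, lin (ℓ i)
  let U0 : X.Opens := (π ≫ p) ⁻¹ᵁ Dplus F
  have hmem0 : ∀ x, x ∈ U0 ↔ π x ∈ Set.range M.j0 := fun x => by
    rw [M.range0]
    exact Iff.rfl
  have hU0 : U0 = π ⁻¹ᵁ M.j0.opensRange := Opens.ext (Set.ext hmem0)
  have aff0 : IsAffineOpen U0 := hU0 ▸ (isAffineOpen_opensRange M.j0).preimage π
  let a0 : CommRingCat.of (HomogeneousLocalization.Away (gr n) F) ⟶ Γ(Pn n, Dplus F) :=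
    Proj.awayToSection (gr n) F
  have ha0 : Function.Bijective a0 := away_bij F hFm hm
  let β : R0 ℓ →+* Γ(X, U0) :=
    ((π ≫ p).app (Dplus F)).hom.comp (a0.hom.comp M.e0.symm.toRingHom)
  have hβ : ∀ r, β (M.e0 r) = (π ≫ p).app (Dplus F) (a0 r) := fun r =>
    congrArg (fun z => (π ≫ p).app (Dplus F) (a0 z)) (M.e0.symm_apply_apply r)
  have hbij' : Function.Bijective (fun ab : R0 ℓ × R0 ℓ => β ab.1 + β ab.2 * w) := by
    have h1 : Function.Bijective (fun r : R0 ℓ => a0 (M.e0.symm r)) :=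
      ha0.comp M.e0.symm.bijective
    exact hbij.comp (h1.prodMap h1)
  have hne0 : Nonempty U0 := by
    by_contra hcon
    have hb : U0 = ⊥ := by rwa [← Opens.not_nonempty_iff_eq_bot, ← Set.nonempty_coe_sort]
    have hs : Subsingleton Γ(X, U0) := by
      rw [hb]; infer_instance
    have := hbij'.injective (a₁ := (0, 0)) (a₂ := (1, 0)) (Subsingleton.elim _ _)
    exact zero_ne_one (congrArg Prod.fst this)
  have hβfac : Spec.map (CommRingCat.ofHom β) ≫ M.j0 = aff0.fromSpec ≫ π := by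
    obtain ⟨γ0, hγ0⟩ := exists_ring_map π M.j0 aff0 hU0.le
    have hD : IsAffineOpen (Dplus F) := Proj.isAffineOpen_basicOpen (gr n) F hFm hm
    let aι : Spec (.of (HomogeneousLocalization.Away (gr n) F)) ⟶ Pn n :=
      Proj.awayι (gr n) F hFm hm
    have haι : IsOpenImmersion aι := inferInstanceAs (IsOpenImmersion (Proj.awayι (gr n) F hFm hm))
    have e1 : Spec.map (a0 ≫ (π ≫ p).app (Dplus F)) ≫ aι = aff0.fromSpec ≫ π ≫ p := by
      have e2 : Spec.map a0 ≫ aι = hD.fromSpec := away_fac F hFm hm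
      rw [Spec.map_comp, Category.assoc, e2, Scheme.Hom.app_eq_appLE]
      exact IsAffineOpen.SpecMap_appLE_fromSpec (π ≫ p) hD aff0 le_rfl
    have e3 : Spec.map (CommRingCat.ofHom M.e0.toRingHom ≫ γ0) ≫ aι =
        aff0.fromSpec ≫ π ≫ p := by
      have e2 : M.j0 ≫ p = Spec.map (CommRingCat.ofHom M.e0.toRingHom) ≫ aι := M.base hFm hm
      rw [Spec.map_comp, Category.assoc, ← e2, ← Category.assoc, hγ0, Category.assoc]
    have e4 : a0 ≫ (π ≫ p).app (Dplus F) = CommRingCat.ofHom M.e0.toRingHom ≫ γ0 := by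
      apply Spec.map_injective
      rw [← cancel_mono aι, e1, e3]
    have e5 : CommRingCat.ofHom β = γ0 := by
      ext r
      obtain ⟨r, rfl⟩ := M.e0.surjective r
      exact (hβ r).trans (congrArg (fun g => g.hom r) e4)
    rw [e5, hγ0]
  have hh0 : ((M.e0 h : R0 ℓ) : Om n) * LL ℓ 0 ^ (2 * n + 2) = ∏ i, LL ℓ i := by
    have := M.he0 h _ _ hh
    rwa [map_pow, map_prod] at this
  have hw' : w ^ 2 = β (M.e0 h) := hw.trans (hβ h).symm
  exact ⟨U0, aff0, β, w, M.e0 h, hmem0, hne0, hβfac, hh0, hw', hbij'⟩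

end Cover

open Cover

attribute [local instance] MvPolynomial.gradedAlgebra

theorem coverStmt (hF : FanBasicStmt) (_hB : ChartBStmt) (hX : ChartXStmt) (hT : TorusXStmt) :
    CoverStmt := by
  intro n ℓ hn hgen B X p π K hK M hD
  obtain ⟨U0, aff0, β, w, h0, hmem0, hne0, hβfac, hh0, hw', hbij'⟩ := torus_part M hD
  obtain ⟨hint, hnorm, hfin, -⟩ := hD
  have hN : n < 2 * n + 2 := by omega
  have := M.open_j
  have dom0 : IsDomain Γ(X, U0) := IsIntegral.component_integral U0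
  let alg0 : Algebra ℂ Γ(X, U0) := (β.comp (algebraMap ℂ (R0 ℓ))).toAlgebra
  let βA : R0 ℓ →ₐ[ℂ] Γ(X, U0) := { β with commutes' := fun _ => rfl }
  obtain ⟨ft0, dim0, ⟨torus⟩⟩ := hT n ℓ hn hgen Γ(X, U0) βA w h0 hh0 hw' hbij'
  -- the charts
  choose U aff γ hmemU hγ hγfin using fun σ : MaxC n K => exists_chart π (M.j σ) (M.open_j σ)
  have hle : ∀ σ, U0 ≤ U σ := fun σ x hx => by
    have h1 := (M.memU0 _).mp ((hmem0 x).mp hx)
    exact (hmemU σ x).mpr ((M.memU σ (π x)).mpr fun ρ _ => h1 ρ)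
  have hne : ∀ σ, Nonempty (U σ) := fun σ => by
    obtain ⟨⟨x, hx⟩⟩ := hne0
    exact ⟨⟨x, hle σ hx⟩⟩
  have dom : ∀ σ, IsDomain Γ(X, U σ) := fun σ => IsIntegral.component_integral (U σ)
  let alg : ∀ σ, Algebra ℂ Γ(X, U σ) := fun σ =>
    ((γ σ).hom.comp (algebraMap ℂ (Rc ℓ σ.1 (M.i0 σ) (M.y σ)))).toAlgebra
  have hcompat : ∀ σ r, X.presheaf.map (homOfLE (hle σ)).op (γ σ r) =
      β (Subalgebra.inclusion (M.le σ) r) := fun σ r => by
    have e1 : γ σ ≫ X.presheaf.map (homOfLE (hle σ)).op =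
        CommRingCat.ofHom (Subalgebra.inclusion (M.le σ)).toRingHom ≫ CommRingCat.ofHom β := by
      apply Spec.map_injective
      rw [← cancel_mono (M.j σ), Spec.map_comp, Spec.map_comp, Category.assoc, Category.assoc,
        M.compat σ, hγ σ, hβfac, ← Category.assoc, (aff σ).map_fromSpec aff0]
    exact congrArg (fun g => g.hom r) e1
  have hchart : ∀ σ : MaxC n K, ∃ t : Ray (2 * n + 2) → Γ(X, U σ), XChart n σ.1 Γ(X, U σ) t ∧
      (∀ ρ (P : PrimeSpectrum Γ(X, U σ)), t ρ ∈ P.asIdeal ↔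
        γ σ (yc ℓ σ.1 (M.i0 σ) (M.y σ) ρ) ∈ P.asIdeal) ∧
      ∃ (g : Γ(X, U0)) (u : Fin (2 * n + 2) → Γ(X, U σ)), IsUnit g ∧ ∀ i, IsUnit (u i) ∧
        β (ratio ℓ i 0) = g * X.presheaf.map (homOfLE (hle σ)).op
          (u i * ∏ ρ ∈ σ.1.filter (i ∈ ·), t ρ ^ ee ρ) := fun σ => by
    obtain ⟨o, ho⟩ := (hF n _ K _ hn hN hK).2.2.2.2.2.2.2 σ.1 σ.2.1 σ.2.2
    have hnormal : IsIntegrallyClosed Γ(X, U σ) := normal_of_stalks hnorm (aff σ)
    let γA : Rc ℓ σ.1 (M.i0 σ) (M.y σ) →ₐ[ℂ] Γ(X, U σ) :=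
      { (γ σ).hom with commutes' := fun _ => rfl }
    exact hX n ℓ hn hgen σ.1 (M.i0 σ) (M.y σ) (M.good σ) (M.le σ) o ho
      (two_of_ne hF hn hN hK σ.2.1 ho) Γ(X, U σ) γA Γ(X, U0) β
      (X.presheaf.map (homOfLE (hle σ)).op).hom w h0
      (hγfin σ)
      (map_injective_of_isIntegral X (homOfLE (hle σ))) (hcompat σ) hh0 hw' hbij'
      (frac (aff σ) (hle σ))
  choose t hch hmem hchars using hchart
  have hcover : ∀ x, ∃ σ, x ∈ U σ := fun x => (M.cover (π x)).imp fun σ => (hmemU σ x).mpr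
  refine ⟨{
    integral := hint
    noeth := ?_
    U := U
    aff := aff
    dom := dom
    alg := alg
    t := t
    chart := hch
    U0 := U0
    aff0 := aff0
    dom0 := dom0
    alg0 := alg0
    ft0 := ft0
    dim0 := dim0
    torus := torus
    le := hle
    D := fun ρ => π ⁻¹' M.D ρ
    memD := fun σ ρ x hx => ?_
    memU := fun σ x => (hmemU σ x).trans (M.memU σ (π x))
    memU0 := fun x => (hmem0 x).trans (M.memU0 (π x))
    cover := hcover
    χ := fun i => β (ratio ℓ i 0)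
    chars := hchars }⟩
  · refine isLocallyNoetherian_of_affine_cover (S := fun σ => ⟨U σ, aff σ⟩) ?_ fun σ => ?_
    · exact top_le_iff.mp fun x _ => Opens.mem_iSup.mpr (hcover x)
    · have := (hch σ).ft
      exact Algebra.FiniteType.isNoetherianRing ℂ Γ(X, U σ)
  · rw [← mem_primeIdealOf (aff σ) x hx, hmem, Set.mem_preimage,
      mem_iff π (M.j σ) (aff σ) (γ σ) (hγ σ) x hx]
    exact M.memD σ ρ _

end Pool.Agent.Lib.MP_2c79a0_ag
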