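import Pool.Agent.Lib.MP_2c79a0_ag.Defs

/-!
Affine cycle calculus: definitions, and the interface statements of the commutative algebra modules.
-/

open scoped TensorProduct

noncomputable section

namespace Pool.Agent.Lib.MP_2c79a0_ag

section Defs

variable {R : Type} [CommRing R]

/-- Length of the localisation of `M` at `p`. -/
def lenAt (p : PrimeSpectrum R) (M : Type) [AddCommGroup M] [Module R M] : ℕ∞ :=
  Module.length (Localization.AtPrime p.asIdeal) (LocalizedModule p.asIdeal.primeCompl M)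

/-- Dimension of the subvariety defined by `p`: the transcendence degree of `R / p`. -/
def dm [Algebra ℂ R] (p : PrimeSpectrum R) : ℕ :=
  Cardinal.toNat (Algebra.trdeg ℂ (R ⧸ p.asIdeal))

/-- Cycles on `Spec R`. -/
abbrev Cyc (R : Type) [CommRing R] : Type := PrimeSpectrum R →₀ ℚ

open Classical in
/-- A function as a finitely supported function (zero if the support is infinite). -/
def toFin {α : Type} (f : α → ℚ) : α →₀ ℚ :=
  if h : (Function.support f).Finite then Finsupp.ofSupportFinite f h else 0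

lemma toFin_apply {α : Type} {f : α → ℚ} (h : (Function.support f).Finite) (a : α) :
    toFin f a = f a := by
  simp [toFin, h, Finsupp.ofSupportFinite_coe]

variable [Algebra ℂ R]

/-- The `d`-dimensional cycle of a module. -/
def cyc (d : ℕ) (M : Type) [AddCommGroup M] [Module R M] : Cyc R :=
  toFin fun p => if dm p = d then ((lenAt p M).toNat : ℚ) else 0

/-- The support of `M` has dimension at most `d`. -/
def DimLE (R : Type) [CommRing R] [Algebra ℂ R] (d : ℕ) (M : Type) [AddCommGroup M]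
    [Module R M] : Prop :=
  ∀ p ∈ Module.support R M, dm p ≤ d

open Classical in
/-- The divisor of `a` on the subvariety `w` (zero if `a` vanishes on it). -/
def dv (w : PrimeSpectrum R) (a : R) : Cyc R :=
  if a ∈ w.asIdeal then 0 else cyc (dm w - 1) (R ⧸ (w.asIdeal ⊔ Ideal.span {a}))

/-- Intersection with the principal divisor of `a`, on the level of cycles. -/
def G (a : R) : Cyc R →ₗ[ℚ] Cyc R := Finsupp.linearCombination ℚ fun w => dv w a

/-- Iterated intersection with principal divisors, the head of the list first. -/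
def Gs : List R → (Cyc R →ₗ[ℚ] Cyc R)
  | [] => LinearMap.id
  | a :: l => Gs l ∘ₗ G a

/-- Cycles rationally equivalent to zero on `V(J)`. -/
def RatOn (J : Ideal R) : Submodule ℚ (Cyc R) :=
  Submodule.span ℚ {c | ∃ w a, J ≤ w.asIdeal ∧ c = dv w a}

variable {S : Type} [CommRing S] [Algebra ℂ S]

/-- `R` is a localisation of a quotient of `S`. -/
def LocSurj (φ : S →ₐ[ℂ] R) : Prop := ∀ r, ∃ a s, IsUnit (φ s) ∧ r * φ s = φ a

/-- The map on spectra induced by an algebra map. -/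
def cm (φ : S →ₐ[ℂ] R) (P : PrimeSpectrum R) : PrimeSpectrum S :=
  PrimeSpectrum.comap (φ : S →+* R) P

@[simp] lemma mem_cm (φ : S →ₐ[ℂ] R) (P : PrimeSpectrum R) (a : S) :
    a ∈ (cm φ P).asIdeal ↔ φ a ∈ P.asIdeal := Iff.rfl

lemma LocSurj.cm_le_iff {φ : S →ₐ[ℂ] R} (h : LocSurj φ) (P Q : PrimeSpectrum R) :
    cm φ P ≤ cm φ Q ↔ P ≤ Q := by
  refine ⟨fun H r hr => ?_, fun H a ha => H ha⟩
  obtain ⟨a, s, hs, e⟩ := h r
  have h1 : a ∈ (cm φ P).asIdeal := by
    rw [mem_cm, ← e]; exact P.asIdeal.mul_mem_right _ hr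
  have h2 : φ a ∈ Q.asIdeal := H h1
  rw [← e] at h2
  exact (Ideal.mul_unit_mem_iff_mem _ hs).mp h2

lemma LocSurj.cm_injective {φ : S →ₐ[ℂ] R} (h : LocSurj φ) : Function.Injective (cm φ) :=
  fun P Q e => le_antisymm ((h.cm_le_iff P Q).mp e.le) ((h.cm_le_iff Q P).mp e.ge)

/-- Restriction of cycles along a localisation of a quotient. -/
def res (φ : S →ₐ[ℂ] R) (h : LocSurj φ) : Cyc S →ₗ[ℚ] Cyc R :=
  Finsupp.lcomapDomain (cm φ) h.cm_injective

@[simp] lemma res_apply (φ : S →ₐ[ℂ] R) (h : LocSurj φ) (c : Cyc S) (P : PrimeSpectrum R) :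
    res φ h c P = c (cm φ P) := rfl

/-- The kernel of `φ` lies in `I` up to elements that become units. -/
def KerLE (φ : S →ₐ[ℂ] R) (I : Ideal S) : Prop :=
  ∀ k, φ k = 0 → ∃ s, IsUnit (φ s) ∧ s * k ∈ I

/-- Flat pull-back of cycles along `R → S / I`, of relative dimension `e`. -/
def pb (φ : R →ₐ[ℂ] S) (I : Ideal S) (e : ℕ) : Cyc R →ₗ[ℚ] Cyc S :=
  Finsupp.linearCombination ℚ fun w =>
    cyc (dm w + e) (S ⧸ (I ⊔ w.asIdeal.map (φ : R →+* S)))

/-- The zero ideal of a domain. -/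
def gen (R : Type) [CommRing R] [IsDomain R] : PrimeSpectrum R := ⟨⊥, Ideal.isPrime_bot⟩

end Defs

open Algebra

/-! ### Dimension theory -/

/-- Strict inclusions lower the dimension. -/
def DimLtStmt : Prop :=
  ∀ (R : Type) [CommRing R] [Algebra ℂ R] [EssFiniteType ℂ R] (p q : PrimeSpectrum R),
    p < q → dm q < dm p

/-- A prime minimal over `p + (a)`, `a ∉ p`, has dimension one less; same for covering pairs. -/
def DimCovStmt : Prop :=
  ∀ (R : Type) [CommRing R] [Algebra ℂ R] [EssFiniteType ℂ R] (p q : PrimeSpectrum R),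
    (p ⋖ q → dm p = dm q + 1) ∧
    ∀ a : R, a ∉ p.asIdeal → q.asIdeal ∈ (p.asIdeal ⊔ Ideal.span {a}).minimalPrimes →
      dm p = dm q + 1

/-- The dimension formula, and Krull's height theorem in terms of `dm`. -/
def DimHeightStmt : Prop :=
  (∀ (R : Type) [CommRing R] [IsDomain R] [Algebra ℂ R] [EssFiniteType ℂ R] (p : PrimeSpectrum R),
    p.asIdeal.height + (dm p : ℕ∞) = (dm (gen R) : ℕ∞)) ∧
  ∀ (R : Type) [CommRing R] [Algebra ℂ R] [EssFiniteType ℂ R] (p q : PrimeSpectrum R)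
    (fs : List R), q.asIdeal ∈ (p.asIdeal ⊔ Ideal.ofList fs).minimalPrimes →
      dm p ≤ dm q + fs.length

/-- Behaviour of `dm` under maps. -/
def DimMapStmt : Prop :=
  (∀ (S R : Type) [CommRing S] [Algebra ℂ S] [CommRing R] [Algebra ℂ R] (φ : S →ₐ[ℂ] R),
    LocSurj φ → ∀ P : PrimeSpectrum R, dm (cm φ P) = dm P) ∧
  (∀ (S R : Type) [CommRing S] [Algebra ℂ S] [CommRing R] [Algebra ℂ R] (φ : S →ₐ[ℂ] R),
    (φ : S →+* R).IsIntegral → ∀ P : PrimeSpectrum R, dm (cm φ P) = dm P) ∧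
  (∀ (R : Type) [CommRing R] [Algebra ℂ R] [EssFiniteType ℂ R]
    (P : PrimeSpectrum (Polynomial R)), dm P ≤ dm (cm (Polynomial.CAlgHom) P) + 1) ∧
  (∀ (R S : Type) [CommRing R] [Algebra ℂ R] [EssFiniteType ℂ R] [CommRing S] [Algebra ℂ S]
    [EssFiniteType ℂ S] (P : PrimeSpectrum (R ⊗[ℂ] S)),
    dm P ≤ dm (cm (Algebra.TensorProduct.includeLeft : R →ₐ[ℂ] R ⊗[ℂ] S) P) +
      dm (cm (Algebra.TensorProduct.includeRight : S →ₐ[ℂ] R ⊗[ℂ] S) P)) ∧
  (∀ (ι : Type) [Fintype ι], dm (gen (MvPolynomial ι ℂ)) = Fintype.card ι)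

/-- All dimension statements. -/
def DimStmt : Prop := DimLtStmt ∧ DimCovStmt ∧ DimHeightStmt ∧ DimMapStmt

/-! ### Cycles of modules -/

/-- Basic properties of `lenAt` and `cyc`. -/
def CycBasicStmt : Prop :=
  ∀ (R : Type) [CommRing R] [Algebra ℂ R] [EssFiniteType ℂ R],
    (∀ (M : Type) [AddCommGroup M] [Module R M] [Module.Finite R M] (d : ℕ) (p : PrimeSpectrum R),
      cyc d M p = if dm p = d then ((lenAt p M).toNat : ℚ) else 0) ∧
    (∀ (M : Type) [AddCommGroup M] [Module R M] (p : PrimeSpectrum R),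
      lenAt p M = 0 ↔ p ∉ Module.support R M) ∧
    (∀ (M : Type) [AddCommGroup M] [Module R M] [Module.Finite R M] (p : PrimeSpectrum R),
      DimLE R (dm p) M → lenAt p M ≠ ⊤) ∧
    (∀ (M N : Type) [AddCommGroup M] [Module R M] [AddCommGroup N] [Module R N] (d : ℕ),
      (M ≃ₗ[R] N) → (cyc d M : Cyc R) = cyc d N) ∧
    (∀ (M₁ M₂ M₃ : Type) [AddCommGroup M₁] [Module R M₁] [AddCommGroup M₂] [Module R M₂]
      [AddCommGroup M₃] [Module R M₃] [Module.Finite R M₂] (f : M₁ →ₗ[R] M₂) (g : M₂ →ₗ[R] M₃)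
      (d : ℕ), Function.Injective f → Function.Surjective g → Function.Exact f g →
      DimLE R d M₂ → (cyc d M₂ : Cyc R) = cyc d M₁ + cyc d M₃) ∧
    (∀ p : PrimeSpectrum R, cyc (dm p) (R ⧸ p.asIdeal) = Finsupp.single p 1) ∧
    (∀ (M : Type) [AddCommGroup M] [Module R M] [Module.Finite R M] (d : ℕ) (p : PrimeSpectrum R),
      cyc d M p ≠ 0 → dm p = d ∧ p ∈ Module.support R M)

/-- Basic properties of `dv`. -/
def DvStmt : Prop :=
  ∀ (R : Type) [CommRing R] [Algebra ℂ R] [EssFiniteType ℂ R] (w : PrimeSpectrum R),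
    (∀ a z, dv w a z ≠ 0 → w < z ∧ a ∈ z.asIdeal ∧ a ∉ w.asIdeal ∧ dm z + 1 = dm w) ∧
    (∀ a z, a ∉ w.asIdeal → z.asIdeal ∈ (w.asIdeal ⊔ Ideal.span {a}).minimalPrimes →
      0 < dv w a z) ∧
    (∀ a b, a ∉ w.asIdeal → b ∉ w.asIdeal → dv w (a * b) = dv w a + dv w b) ∧
    (∀ a b, a - b ∈ w.asIdeal → dv w a = dv w b) ∧
    (∀ a (z : PrimeSpectrum R), a ∉ w.asIdeal → w.asIdeal ⊔ Ideal.span {a} = z.asIdeal →
      dv w a = Finsupp.single z 1)

/-- The cycle of `M / x M` minus the cycle of `M[x]`. -/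
def McycStmt : Prop :=
  ∀ (R : Type) [CommRing R] [Algebra ℂ R] [EssFiniteType ℂ R] (M : Type) [AddCommGroup M]
    [Module R M] [Module.Finite R M] (x : R) (d : ℕ),
    (∀ p ∈ Module.support R M, dm p ≤ d + 1 ∧ (x ∈ p.asIdeal → dm p ≤ d)) →
    (cyc d (QuotSMulTop x M) : Cyc R) - cyc d (Submodule.torsionBy R M x) = G x (cyc (d + 1) M)

/-- Restriction along localisations of quotients. -/
def ResStmt : Prop :=
  ∀ (S R : Type) [CommRing S] [Algebra ℂ S] [EssFiniteType ℂ S] [CommRing R] [Algebra ℂ R]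
    (φ : S →ₐ[ℂ] R) (h : LocSurj φ),
    EssFiniteType ℂ R ∧
    (∀ p : PrimeSpectrum S, p ∈ Set.range (cm φ) ↔
      RingHom.ker (φ : S →+* R) ≤ p.asIdeal ∧ ∀ s ∈ p.asIdeal, ¬ IsUnit (φ s)) ∧
    (∀ (I : Ideal S) (d : ℕ), KerLE φ I →
      res φ h (cyc d (S ⧸ I)) = cyc d (R ⧸ I.map (φ : S →+* R))) ∧
    (∀ (P : PrimeSpectrum R) (a : S), res φ h (dv (cm φ P) a) = dv P (φ a)) ∧
    (∀ (c : Cyc S) (a : S), (∀ p, c p ≠ 0 → KerLE φ p.asIdeal) →
      res φ h (G a c) = G (φ a) (res φ h c)) ∧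
    (∀ I : Ideal S, KerLE φ I → ∀ c ∈ RatOn I,
      res φ h c ∈ RatOn (I.map (φ : S →+* R))) ∧
    (∀ J : Ideal R, ∀ c ∈ RatOn J, ∃ c' ∈ RatOn (J.comap (φ : S →+* R)), res φ h c' = c)

/-- Flat pull-back commutes with taking divisors. -/
def PbStmt : Prop :=
  ∀ (R S : Type) [CommRing R] [Algebra ℂ R] [EssFiniteType ℂ R] [CommRing S] [Algebra ℂ S]
    [EssFiniteType ℂ S] (φ : R →ₐ[ℂ] S) (I : Ideal S) (e : ℕ),
    ((Ideal.Quotient.mk I).comp (φ : R →+* S)).Flat →
    (∀ Z : PrimeSpectrum S, I ≤ Z.asIdeal → dm Z ≤ dm (cm φ Z) + e) →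
    (∀ (w : PrimeSpectrum R) (a : R), pb φ I e (dv w a) = G (φ a) (pb φ I e (Finsupp.single w 1))) ∧
    ∀ c ∈ RatOn (⊥ : Ideal R), pb φ I e c ∈ RatOn I

/-- All statements on cycles of modules. -/
def CycStmt : Prop := CycBasicStmt ∧ DvStmt ∧ McycStmt ∧ ResStmt ∧ PbStmt

/-! ### The key lemma -/

/-- Finite push-forward of a principal divisor is rationally trivial. -/
def NormStmt : Prop :=
  ∀ (R D : Type) [CommRing R] [Algebra ℂ R] [EssFiniteType ℂ R] [CommRing D] [Algebra R D]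
    [Module.Finite R D] (q : PrimeSpectrum D) (x : D), x ∉ q.asIdeal →
    (cyc (dm (PrimeSpectrum.comap (algebraMap R D) q) - 1) (D ⧸ (q.asIdeal ⊔ Ideal.span {x})) :
      Cyc R) ∈ RatOn (PrimeSpectrum.comap (algebraMap R D) q).asIdeal

/-- The key lemma on a normal domain. -/
def KeyNormalStmt : Prop :=
  ∀ (R : Type) [CommRing R] [IsDomain R] [IsIntegrallyClosed R] [Algebra ℂ R] [EssFiniteType ℂ R]
    (a f : R), G f (dv (gen R) a) ∈ RatOn (Ideal.span {f})

/-- The key lemma. -/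
def KeyStmt : Prop :=
  ∀ (R : Type) [CommRing R] [Algebra ℂ R] [FiniteType ℂ R] (w : PrimeSpectrum R) (a f : R),
    G f (dv w a) ∈ RatOn (w.asIdeal ⊔ Ideal.span {f})

/-! ### Open subsets of affine space -/

/-- Proper subvarieties of a localisation of affine space are rationally trivial. -/
def AffStmt : Prop :=
  ∀ (ι : Type) [Finite ι] (R : Type) [CommRing R] [Algebra ℂ R] (ψ : MvPolynomial ι ℂ →ₐ[ℂ] R),
    LocSurj ψ → Function.Injective ψ → ∀ P : PrimeSpectrum R, P.asIdeal ≠ ⊥ →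
      Finsupp.single P (1 : ℚ) ∈ RatOn (⊥ : Ideal R)

/-! ### Serre's formula and iterated divisors -/

/-- Serre's multiplicity equals the multiplicity obtained by cutting with a regular sequence. -/
def SerreStmt : Prop :=
  ∀ (A B : Type) [CommRing A] [IsNoetherianRing A] [CommRing B] [Algebra ℂ B] [EssFiniteType ℂ B]
    [IsLocalRing B] [Algebra A B] [Module.Flat A B] (fs : List B) (I J : Ideal A),
    RingTheory.Sequence.IsWeaklyRegular B fs →
    Function.Surjective ((Ideal.Quotient.mk (Ideal.ofList fs)).comp (algebraMap A B)) →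
    I = (Ideal.ofList fs).comap (algebraMap A B) →
    (∀ P : PrimeSpectrum B, J.map (algebraMap A B) ≤ P.asIdeal → Ideal.ofList fs ≤ P.asIdeal →
      P = IsLocalRing.closedPoint B) →
    (serreRing A I J : ℚ) =
      Gs fs (cyc (dm (IsLocalRing.closedPoint B) + fs.length) (B ⧸ J.map (algebraMap A B)))
        (IsLocalRing.closedPoint B)

/-! ### Products on an unramified double cover of an open subset of affine space -/

/-- `R` is an unramified double cover of a localisation of affine `n`-space. -/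
structure TorusData (n : ℕ) (R : Type) [CommRing R] [Algebra ℂ R] where
  x : Fin n → R
  ι : R ≃ₐ[ℂ] R
  w : R
  inj : Function.Injective (MvPolynomial.aeval x : MvPolynomial (Fin n) ℂ →ₐ[ℂ] R)
  invol : ∀ r, ι (ι r) = r
  fix : ∀ i, ι (x i) = x i
  unit : IsUnit w
  neg : ι w = -w
  frac : ∀ r, ι r = r → ∃ a s : MvPolynomial (Fin n) ℂ,
    IsUnit (MvPolynomial.aeval x s) ∧ r * MvPolynomial.aeval x s = MvPolynomial.aeval x a

/-- The Serre product of two proper subvarieties is rationally trivial. -/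
def ProdStmt : Prop :=
  ∀ (n : ℕ) (R : Type) [CommRing R] [IsDomain R] [Algebra ℂ R] [FiniteType ℂ R],
    TorusData n R → ∀ p q : PrimeSpectrum R, p.asIdeal ≠ ⊥ → q.asIdeal ≠ ⊥ →
    ∃ c ∈ RatOn (⊥ : Ideal R), ∀ z : PrimeSpectrum R,
      (c z ≠ 0 → p ≤ z ∧ q ≤ z ∧ dm z + n = dm p + dm q) ∧
      (z.asIdeal ∈ (p.asIdeal ⊔ q.asIdeal).minimalPrimes → dm z + n = dm p + dm q →
        ∀ (A : Type) [CommRing A] [Algebra R A] [IsLocalization.AtPrime A z.asIdeal],
          c z = serreRing A (p.asIdeal.map (algebraMap R A)) (q.asIdeal.map (algebraMap R A)))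

end Pool.Agent.Lib.MP_2c79a0_ag
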