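import Pool.Agent.Lib.MP_2c79a0_ag.Cyc

/-!
Cycles of modules: additivity, divisors of elements, devissage.
-/

noncomputable section

namespace Pool.Agent.Lib.MP_2c79a0_ag

open Algebra Function
open scoped Pointwise

namespace CycA

section Len

variable {R : Type} [CommRing R] {M₁ M₂ M₃ : Type} [AddCommGroup M₁] [Module R M₁]
  [AddCommGroup M₂] [Module R M₂] [AddCommGroup M₃] [Module R M₃]

lemma lenAt_add (f : M₁ →ₗ[R] M₂) (g : M₂ →ₗ[R] M₃) (hf : Injective f) (hg : Surjective g)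
    (h : Exact f g) (p : PrimeSpectrum R) : lenAt p M₂ = lenAt p M₁ + lenAt p M₃ :=
  Module.length_eq_add_of_exact (LocalizedModule.map p.asIdeal.primeCompl f)
    (LocalizedModule.map p.asIdeal.primeCompl g) (LocalizedModule.map_injective _ f hf)
    (LocalizedModule.map_surjective _ g hg) (LocalizedModule.map_exact _ f g h)

lemma lenAt_congr (e : M₁ ≃ₗ[R] M₂) (p : PrimeSpectrum R) : lenAt p M₁ = lenAt p M₂ :=
  (LinearEquiv.ofBijective (LocalizedModule.map p.asIdeal.primeCompl e.toLinearMap)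
    ⟨LocalizedModule.map_injective _ _ e.injective,
      LocalizedModule.map_surjective _ _ e.surjective⟩).length_eq

lemma lenAt_zero (p : PrimeSpectrum R) : lenAt p M₁ = 0 ↔ p ∉ Module.support R M₁ := by
  rw [lenAt, Module.length_eq_zero_iff, Module.notMem_support_iff]

lemma mem_supp (I : Ideal R) (p : PrimeSpectrum R) :
    p ∈ Module.support R (R ⧸ I) ↔ I ≤ p.asIdeal := by
  rw [Module.mem_support_iff_of_finite, Ideal.annihilator_quotient]

lemma lenAt_self (p : PrimeSpectrum R) : lenAt p (R ⧸ p.asIdeal) = 1 := by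
  rw [lenAt, Module.length_eq_one_iff, isSimpleModule_iff_toSpanSingleton_surjective]
  refine ⟨Module.mem_support_iff.1 ((mem_supp _ _).2 le_rfl), fun x hx y => ?_⟩
  induction x using LocalizedModule.induction_on with
  | _ a s =>
  induction y using LocalizedModule.induction_on with
  | _ b t =>
  obtain ⟨a, rfl⟩ := Ideal.Quotient.mk_surjective a
  obtain ⟨b, rfl⟩ := Ideal.Quotient.mk_surjective b
  have ha : a ∈ p.asIdeal.primeCompl := fun h => hx (by
    rw [Ideal.Quotient.eq_zero_iff_mem.2 h, LocalizedModule.zero_mk])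
  refine ⟨Localization.mk (b * s) (⟨a, ha⟩ * t), ?_⟩
  rw [LinearMap.toSpanSingleton_apply, LocalizedModule.mk_smul_mk, LocalizedModule.mk_eq]
  refine ⟨1, ?_⟩
  simp only [one_smul, Submonoid.smul_def, Submonoid.coe_mul, Algebra.smul_def,
    Ideal.Quotient.algebraMap_eq, ← map_mul]
  congr 1
  ring

/-- multiplication by `a` between quotients -/
def mulQ (a : R) (I J : Ideal R) (h : ∀ r ∈ I, a * r ∈ J) : (R ⧸ I) →ₗ[R] (R ⧸ J) :=
  Submodule.mapQ I J (LinearMap.mulLeft R a) h

lemma ses (w : PrimeSpectrum R) {a : R} (ha : a ∉ w.asIdeal) (I : Ideal R) :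
    ∃ (f : (R ⧸ (w.asIdeal ⊔ I)) →ₗ[R] (R ⧸ (w.asIdeal ⊔ Ideal.span {a} * I)))
      (g : (R ⧸ (w.asIdeal ⊔ Ideal.span {a} * I)) →ₗ[R] (R ⧸ (w.asIdeal ⊔ Ideal.span {a}))),
      Injective f ∧ Surjective g ∧ Exact f g := by
  have h1 : ∀ r ∈ w.asIdeal ⊔ I, a * r ∈ w.asIdeal ⊔ Ideal.span {a} * I := by
    intro r hr
    obtain ⟨u, hu, v, hv, rfl⟩ := Submodule.mem_sup.1 hr
    rw [mul_add]
    exact Submodule.add_mem_sup (Ideal.mul_mem_left _ _ hu)
      (Ideal.mul_mem_mul (Ideal.mem_span_singleton_self a) hv)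
  have h2 : w.asIdeal ⊔ Ideal.span {a} * I ≤ w.asIdeal ⊔ Ideal.span {a} :=
    sup_le_sup_left Ideal.mul_le_left _
  refine ⟨mulQ a _ _ h1, Submodule.factor h2, ?_, Submodule.factor_surjective h2, ?_⟩
  · rw [injective_iff_map_eq_zero]
    intro r hr
    obtain ⟨r, rfl⟩ := Submodule.Quotient.mk_surjective _ r
    have h3 : a * r ∈ w.asIdeal ⊔ Ideal.span {a} * I := (Submodule.Quotient.mk_eq_zero _).1 hr
    obtain ⟨u, hu, v, hv, e⟩ := Submodule.mem_sup.1 h3
    obtain ⟨c, hc, rfl⟩ := Ideal.mem_span_singleton_mul.1 hv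
    have h4 : a * (r - c) ∈ w.asIdeal := by
      rw [mul_sub, ← e, add_sub_cancel_right]; exact hu
    rw [Submodule.Quotient.mk_eq_zero, ← sub_add_cancel r c]
    exact Submodule.add_mem_sup ((w.isPrime.mem_or_mem h4).resolve_left ha) hc
  · intro r
    obtain ⟨r, rfl⟩ := Submodule.Quotient.mk_surjective _ r
    constructor
    · intro hr
      have h3 : r ∈ w.asIdeal ⊔ Ideal.span {a} := (Submodule.Quotient.mk_eq_zero _).1 hr
      obtain ⟨u, hu, v, hv, rfl⟩ := Submodule.mem_sup.1 h3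
      obtain ⟨c, rfl⟩ := Ideal.mem_span_singleton'.1 hv
      refine ⟨Submodule.Quotient.mk c, (Submodule.Quotient.eq _).2 ?_⟩
      refine Submodule.mem_sup_left ?_
      have : LinearMap.mulLeft R a c - (u + c * a) = -u := by
        rw [LinearMap.mulLeft_apply]; ring
      rw [this]
      exact neg_mem hu
    · rintro ⟨c, hc⟩
      obtain ⟨c, rfl⟩ := Submodule.Quotient.mk_surjective _ c
      rw [← hc]
      exact (Submodule.Quotient.mk_eq_zero _).2 (Submodule.mem_sup_right
        (Ideal.mul_mem_right _ _ (Ideal.mem_span_singleton_self a)))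

lemma lenAt_top {q p : PrimeSpectrum R} (h : q < p) : lenAt p (R ⧸ q.asIdeal) = ⊤ := by
  obtain ⟨a, hap, haq⟩ := SetLike.exists_of_lt (show q.asIdeal < p.asIdeal from h)
  obtain ⟨f, g, hf, hg, hfg⟩ := ses q haq ⊥
  have e := lenAt_add f g hf hg hfg p
  rw [Ideal.mul_bot, sup_bot_eq] at e
  have h0 : lenAt p (R ⧸ (q.asIdeal ⊔ Ideal.span {a})) ≠ 0 := fun h0 =>
    (lenAt_zero p).1 h0 ((mem_supp _ _).2
      (sup_le h.le ((Ideal.span_singleton_le_iff_mem _).2 hap)))
  by_contra ht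
  have : lenAt p (R ⧸ q.asIdeal) + 0 =
      lenAt p (R ⧸ q.asIdeal) + lenAt p (R ⧸ (q.asIdeal ⊔ Ideal.span {a})) := by
    rw [add_zero]; exact e
  exact h0 ((ENat.add_right_injective_of_ne_top ht) this).symm

lemma lenAt_ne_top [IsNoetherianRing R] (M : Type) [AddCommGroup M] [Module R M]
    [hM : Module.Finite R M] (p : PrimeSpectrum R) :
    lenAt p M ≠ ⊤ ↔ ∀ q ∈ Module.support R M, ¬ q < p := by
  induction hM using IsNoetherianRing.induction_on_isQuotientEquivQuotientPrime R with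
  | subsingleton N =>
    have : lenAt p N = 0 := (lenAt_zero p).2 (by simp [Module.support_eq_empty])
    simp [this, Module.support_eq_empty]
  | quotient N q e =>
    rw [lenAt_congr e, e.support_eq]
    simp only [mem_supp]
    constructor
    · intro h z hz hzp
      exact h (lenAt_top (lt_of_le_of_lt (show q ≤ z from hz) hzp))
    · intro h
      by_cases hq : q ≤ p
      · rw [(hq.eq_or_lt.resolve_right (h q le_rfl)).symm, lenAt_self]
        exact ENat.one_ne_top
      · rw [(lenAt_zero p).2 fun h' => hq ((mem_supp _ _).1 h')]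
        exact ENat.zero_ne_top
  | exact N₁ N₂ N₃ f g hf hg hfg h₁ h₃ =>
    rw [lenAt_add f g hf hg hfg, Module.support_of_exact hfg hf hg]
    simp only [ne_eq, ENat.add_eq_top, not_or, Set.mem_union, or_imp,
      forall_and]
    exact and_congr h₁ h₃

lemma ne_top_of_min [IsNoetherianRing R] (I : Ideal R) (z : PrimeSpectrum R)
    (hz : z.asIdeal ∈ I.minimalPrimes) : lenAt z (R ⧸ I) ≠ ⊤ :=
  (lenAt_ne_top _ _).2 fun q hq hlt =>
    hlt.not_ge (hz.2 ⟨q.isPrime, (mem_supp _ _).1 hq⟩ hlt.le)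

end Len

section Cy

variable {R : Type} [CommRing R] [Algebra ℂ R] {M₁ M₂ M₃ : Type} [AddCommGroup M₁] [Module R M₁]
  [AddCommGroup M₂] [Module R M₂] [AddCommGroup M₃] [Module R M₃]

lemma cyc_apply [IsNoetherianRing R] [Module.Finite R M₁] (d : ℕ) (p : PrimeSpectrum R) :
    cyc d M₁ p = if dm p = d then ((lenAt p M₁).toNat : ℚ) else 0 := by
  refine toFin_apply ?_ p
  refine ((Ideal.finite_minimalPrimes_of_isNoetherianRing R
    (Module.annihilator R M₁)).preimage (f := PrimeSpectrum.asIdeal)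
    fun _ _ _ _ e => PrimeSpectrum.ext e).subset ?_
  intro z hz
  have h1 : (lenAt z M₁).toNat ≠ 0 := by
    intro h
    simp [h] at hz
  rw [ne_eq, ENat.toNat_eq_zero, not_or] at h1
  refine ⟨⟨z.isPrime, Module.mem_support_iff_of_finite.1 (not_not.1 (mt (lenAt_zero z).2 h1.1))⟩,
    fun q hq hle => ?_⟩
  have h2 := (lenAt_ne_top M₁ z).1 h1.2 ⟨q, hq.1⟩ (Module.mem_support_iff_of_finite.2 hq.2)
  exact ((show (⟨q, hq.1⟩ : PrimeSpectrum R) ≤ z from hle).eq_or_lt.resolve_right h2).ge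

lemma cyc_congr (e : M₁ ≃ₗ[R] M₂) (d : ℕ) : (cyc d M₁ : Cyc R) = cyc d M₂ := by
  simp only [cyc, lenAt_congr e]

lemma cyc_ne [IsNoetherianRing R] [Module.Finite R M₁] {d : ℕ} {p : PrimeSpectrum R}
    (h : cyc d M₁ p ≠ 0) : dm p = d ∧ p ∈ Module.support R M₁ := by
  rw [cyc_apply] at h
  refine ⟨by_contra fun h' => h (if_neg h'), by_contra fun h' => h ?_⟩
  simp [(lenAt_zero p).2 h']

lemma cyc_zero [IsNoetherianRing R] [Module.Finite R M₁] {d : ℕ}
    (h : ∀ p ∈ Module.support R M₁, dm p ≠ d) : (cyc d M₁ : Cyc R) = 0 :=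
  Finsupp.ext fun p => by_contra fun hp => h p (cyc_ne hp).2 (cyc_ne hp).1

variable [EssFiniteType ℂ R]

lemma noeth : IsNoetherianRing R := Algebra.EssFiniteType.isNoetherianRing ℂ R

lemma ne_top (hD : DimLtStmt) [Module.Finite R M₁] (p : PrimeSpectrum R)
    (h : DimLE R (dm p) M₁) : lenAt p M₁ ≠ ⊤ :=
  haveI := noeth (R := R)
  (lenAt_ne_top _ _).2 fun q hq hlt => (hD R q p hlt).not_ge (h q hq)

lemma cyc_add (hD : DimLtStmt) [Module.Finite R M₂] (f : M₁ →ₗ[R] M₂) (g : M₂ →ₗ[R] M₃) (d : ℕ)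
    (hf : Injective f) (hg : Surjective g) (h : Exact f g) (hd : DimLE R d M₂) :
    (cyc d M₂ : Cyc R) = cyc d M₁ + cyc d M₃ := by
  have := noeth (R := R)
  have := Module.Finite.of_injective f hf
  have := Module.Finite.of_surjective g hg
  ext p
  simp only [Finsupp.add_apply, cyc_apply]
  split_ifs with hp
  · have h2 := ne_top hD p (hp ▸ hd)
    rw [lenAt_add f g hf hg h] at h2 ⊢
    rw [ENat.toNat_add (fun e => h2 (by simp [e])) (fun e => h2 (by simp [e])), Nat.cast_add]
  · simp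

lemma cyc_self (hD : DimLtStmt) (p : PrimeSpectrum R) :
    cyc (dm p) (R ⧸ p.asIdeal) = Finsupp.single p 1 := by
  have := noeth (R := R)
  ext q
  by_cases h : q = p
  · subst h
    simp [cyc_apply, lenAt_self]
  · rw [Finsupp.single_eq_of_ne h]
    by_contra hq
    obtain ⟨h1, h2⟩ := cyc_ne hq
    have h3 : p < q := lt_of_le_of_ne ((mem_supp _ _).1 h2) (Ne.symm h)
    exact (hD R p q h3).ne h1

lemma cyc_range (hD : DimLtStmt) [Module.Finite R M₂] (f : M₁ →ₗ[R] M₂) (g : M₂ →ₗ[R] M₃) (d : ℕ)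
    (h : Exact f g) (hd : DimLE R d M₂) :
    (cyc d M₂ : Cyc R) = cyc d (LinearMap.range f) + cyc d (LinearMap.range g) :=
  cyc_add hD (LinearMap.range f).subtype g.rangeRestrict d (Submodule.subtype_injective _)
    g.surjective_rangeRestrict (by
      rw [LinearMap.exact_iff, LinearMap.ker_rangeRestrict, Submodule.range_subtype]
      exact h.linearMap_ker_eq) hd

end Cy

section Tors

variable {R : Type} [CommRing R] {M₁ M₂ M₃ : Type} [AddCommGroup M₁] [Module R M₁]
  [AddCommGroup M₂] [Module R M₂] [AddCommGroup M₃] [Module R M₃]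

/-- the map induced on the elements killed by `x` -/
def tmap (x : R) (f : M₁ →ₗ[R] M₂) :
    Submodule.torsionBy R M₁ x →ₗ[R] Submodule.torsionBy R M₂ x :=
  f.restrict fun m hm => by
    rw [Submodule.mem_torsionBy_iff] at hm ⊢
    rw [← map_smul, hm, map_zero]

lemma tmap_inj (x : R) {f : M₁ →ₗ[R] M₂} (hf : Injective f) : Injective (tmap x f) :=
  fun _ _ h => Subtype.ext (hf (congrArg Subtype.val h))

lemma tmap_exact (x : R) {f : M₁ →ₗ[R] M₂} {g : M₂ →ₗ[R] M₃} (hf : Injective f) (h : Exact f g) :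
    Exact (tmap x f) (tmap x g) := by
  intro m
  constructor
  · intro hm
    obtain ⟨a, ha⟩ := (h m.1).1 (congrArg Subtype.val hm)
    refine ⟨⟨a, (Submodule.mem_torsionBy_iff _ _).2 (hf ?_)⟩, Subtype.ext ha⟩
    rw [map_smul, ha, map_zero]
    exact (Submodule.mem_torsionBy_iff _ _).1 m.2
  · rintro ⟨a, rfl⟩
    exact Subtype.ext (h.apply_apply_eq_zero a.1)

lemma ex_ker (x : R) (M : Type) [AddCommGroup M] [Module R M] :
    Exact (Submodule.torsionBy R M x).subtype (LinearMap.lsmul R M x) := by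
  rw [LinearMap.exact_iff, Submodule.range_subtype]
  ext m
  simp

lemma ex_coker (x : R) (M : Type) [AddCommGroup M] [Module R M] :
    Exact (LinearMap.lsmul R M x) (x • (⊤ : Submodule R M)).mkQ := by
  rw [LinearMap.exact_iff, Submodule.ker_mkQ]
  ext m
  simp [Submodule.mem_smul_pointwise_iff_exists]

lemma supp_tors (x : R) {p : PrimeSpectrum R}
    (hp : p ∈ Module.support R (Submodule.torsionBy R M₁ x)) :
    p ∈ Module.support R M₁ ∧ x ∈ p.asIdeal :=
  ⟨Module.support_subset_of_injective _ (Submodule.subtype_injective _) hp,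
    Module.annihilator_le_of_mem_support hp (Module.mem_annihilator.2 fun m =>
      Subtype.ext ((Submodule.mem_torsionBy_iff _ _).1 m.2))⟩

lemma supp_quot (x : R) {p : PrimeSpectrum R} (hp : p ∈ Module.support R (QuotSMulTop x M₁)) :
    p ∈ Module.support R M₁ ∧ x ∈ p.asIdeal :=
  ⟨Module.support_subset_of_surjective _ (Submodule.mkQ_surjective _) hp,
    Module.annihilator_le_of_mem_support hp (QuotSMulTop.mem_annihilator M₁ x)⟩

/-- the quotient of `R / I` by `x` -/
def quotEquiv (I : Ideal R) (x : R) : QuotSMulTop x (R ⧸ I) ≃ₗ[R] R ⧸ (I ⊔ Ideal.span {x}) :=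
  Submodule.quotEquivOfEq _ (Submodule.map (Submodule.mkQ I) (Ideal.span {x})) (by
    ext m
    obtain ⟨m, rfl⟩ := Submodule.Quotient.mk_surjective _ m
    rw [Submodule.mem_smul_pointwise_iff_exists, Submodule.mem_map]
    constructor
    · rintro ⟨b, -, hb⟩
      obtain ⟨b, rfl⟩ := Submodule.Quotient.mk_surjective _ b
      exact ⟨x * b, Ideal.mul_mem_right _ _ (Ideal.mem_span_singleton_self x), hb⟩
    · rintro ⟨b, hb, e⟩
      obtain ⟨c, rfl⟩ := Ideal.mem_span_singleton'.1 hb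
      exact ⟨Submodule.Quotient.mk c, trivial, by rw [← e, mul_comm]; rfl⟩) ≪≫ₗ
    Submodule.quotientQuotientEquivQuotientSup I (Ideal.span {x})

variable [Algebra ℂ R] [EssFiniteType ℂ R]

/-- the six term sequence -/
lemma six (hD : DimLtStmt) [Module.Finite R M₁] [Module.Finite R M₂] [Module.Finite R M₃]
    (f : M₁ →ₗ[R] M₂) (g : M₂ →ₗ[R] M₃) (hf : Injective f) (hg : Surjective g) (h : Exact f g)
    (x : R) (d : ℕ) (hd : ∀ p ∈ Module.support R M₂, x ∈ p.asIdeal → dm p ≤ d) :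
    (cyc d (QuotSMulTop x M₂) : Cyc R) - cyc d (Submodule.torsionBy R M₂ x) =
      (cyc d (QuotSMulTop x M₁) - cyc d (Submodule.torsionBy R M₁ x)) +
        (cyc d (QuotSMulTop x M₃) - cyc d (Submodule.torsionBy R M₃ x)) := by
  have := noeth (R := R)
  have h₁ : f.comp (LinearMap.lsmul R M₁ x) = (LinearMap.lsmul R M₂ x).comp f := by ext; simp
  have h₂ : g.comp (LinearMap.lsmul R M₂ x) = (LinearMap.lsmul R M₃ x).comp g := by ext; simp
  have s₁ := Module.support_subset_of_injective f hf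
  have s₃ := Module.support_subset_of_surjective g hg
  have e1 := SnakeLemma.exact_δ'_right _ _ _ f g h f g h h₁ h₂ _ (ex_ker x M₂) _ (ex_ker x M₃) _
    (ex_coker x M₁) hg hf (tmap x g) rfl (Submodule.subtype_injective _)
  have e2 := SnakeLemma.exact_δ'_left _ _ _ f g h f g h h₁ h₂ _ (ex_ker x M₃) _ (ex_coker x M₁) _
    (ex_coker x M₂) hg hf (QuotSMulTop.map x f) (QuotSMulTop.map_comp_mkQ x f)
    (Submodule.mkQ_surjective _)
  have c0 := cyc_congr (LinearEquiv.ofInjective _ (tmap_inj x hf)) d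
  have c1 := cyc_range hD _ _ d (tmap_exact x hf h)
    fun p hp => hd p (supp_tors x hp).1 (supp_tors x hp).2
  have c2 := cyc_range hD _ _ d e1 fun p hp => hd p (s₃ (supp_tors x hp).1) (supp_tors x hp).2
  have c3 := cyc_range hD _ _ d e2 fun p hp => hd p (s₁ (supp_quot x hp).1) (supp_quot x hp).2
  have c4 := cyc_range hD _ _ d (QuotSMulTop.map_exact x h hg)
    fun p hp => hd p (supp_quot x hp).1 (supp_quot x hp).2
  have c5 := cyc_congr (LinearEquiv.ofTop _
    (LinearMap.range_eq_top.2 (QuotSMulTop.map_surjective x hg))) d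
  rw [c0, c1, c2, c4, ← c5]
  erw [c3]
  abel

lemma mcyc_prime (hD : DimLtStmt) (p : PrimeSpectrum R) (x : R) (d : ℕ) (h1 : dm p ≤ d + 1)
    (h2 : x ∈ p.asIdeal → dm p ≤ d) :
    (cyc d (QuotSMulTop x (R ⧸ p.asIdeal)) : Cyc R) -
      cyc d (Submodule.torsionBy R (R ⧸ p.asIdeal) x) = G x (cyc (d + 1) (R ⧸ p.asIdeal)) := by
  have := noeth (R := R)
  have hz : dm p ≤ d → (cyc (d + 1) (R ⧸ p.asIdeal) : Cyc R) = 0 := fun h =>
    cyc_zero fun q hq e => by
      rcases (show p ≤ q from (mem_supp _ _).1 hq).eq_or_lt with rfl | hlt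
      · omega
      · have := hD R p q hlt
        omega
  rw [cyc_congr (quotEquiv p.asIdeal x)]
  by_cases hx : x ∈ p.asIdeal
  · rw [hz (h2 hx), map_zero, sup_eq_left.2 ((Ideal.span_singleton_le_iff_mem _).2 hx),
      cyc_congr (LinearEquiv.ofTop (Submodule.torsionBy R (R ⧸ p.asIdeal) x) ?_), sub_self]
    rw [_root_.eq_top_iff]
    intro m _
    obtain ⟨m, rfl⟩ := Submodule.Quotient.mk_surjective _ m
    exact (Submodule.mem_torsionBy_iff _ _).2
      ((Submodule.Quotient.mk_eq_zero _).2 (Ideal.mul_mem_right _ _ hx))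
  have ht : Submodule.torsionBy R (R ⧸ p.asIdeal) x = ⊥ := by
    rw [eq_bot_iff]
    intro m hm
    obtain ⟨m, rfl⟩ := Submodule.Quotient.mk_surjective _ m
    have : x * m ∈ p.asIdeal :=
      (Submodule.Quotient.mk_eq_zero _).1 ((Submodule.mem_torsionBy_iff _ _).1 hm)
    exact (Submodule.Quotient.mk_eq_zero _).2 ((p.isPrime.mem_or_mem this).resolve_left hx)
  have h0 : (cyc d (Submodule.torsionBy R (R ⧸ p.asIdeal) x) : Cyc R) = 0 := by
    rw [ht]
    exact cyc_zero fun q hq => by simp [Module.support_eq_empty] at hq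
  rw [h0, sub_zero]
  rcases h1.eq_or_lt with e | hlt
  · rw [← e, cyc_self hD, G, Finsupp.linearCombination_single, one_smul, dv, if_neg hx, e]
    rfl
  · rw [hz (by omega), map_zero]
    refine cyc_zero fun q hq e => ?_
    have h3 := (mem_supp _ _).1 hq
    have h4 : p < q := lt_of_le_of_ne (le_sup_left.trans h3) fun e' =>
      hx (e' ▸ (le_sup_right.trans h3) (Ideal.mem_span_singleton_self x))
    have := hD R p q h4
    omega

end Tors

end CycA

open CycA

theorem cycBasic (hD : DimStmt) : CycBasicStmt := fun R _ _ _ =>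
  haveI := noeth (R := R)
  ⟨fun _ _ _ _ d p => cyc_apply d p, fun _ _ _ p => lenAt_zero p,
    fun _ _ _ _ p h => ne_top hD.1 p h, fun _ _ _ _ _ _ d e => cyc_congr e d,
    fun _ _ _ _ _ _ _ _ _ _ f g d hf hg h hd => cyc_add hD.1 f g d hf hg h hd,
    cyc_self hD.1, fun _ _ _ _ _ _ h => cyc_ne h⟩

theorem dvStmt (hD : DimStmt) : DvStmt := by
  intro R _ _ _ w
  have := noeth (R := R)
  have hlt : ∀ a (z : PrimeSpectrum R), a ∉ w.asIdeal → w.asIdeal ⊔ Ideal.span {a} ≤ z.asIdeal →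
      w < z ∧ a ∈ z.asIdeal := fun a z ha h =>
    have h1 : a ∈ z.asIdeal := (le_sup_right.trans h) (Ideal.mem_span_singleton_self a)
    ⟨lt_of_le_of_ne (le_sup_left.trans h) fun e => ha (e ▸ h1), h1⟩
  refine ⟨fun a z h => ?_, fun a z ha hz => ?_, fun a b ha hb => ?_, fun a b h => ?_,
    fun a z ha hz => ?_⟩
  · have ha : a ∉ w.asIdeal := fun ha => h (by simp [dv, ha])
    rw [dv, if_neg ha] at h
    obtain ⟨h1, h2⟩ := cyc_ne h
    obtain ⟨h3, h4⟩ := hlt a z ha ((mem_supp _ _).1 h2)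
    have := hD.1 R w z h3
    exact ⟨h3, h4, ha, by omega⟩
  · have h1 := (hD.2.1 R w z).2 a ha hz
    rw [dv, if_neg ha, cyc_apply, if_pos (by omega), Nat.cast_pos, Nat.pos_iff_ne_zero, ne_eq,
      ENat.toNat_eq_zero, not_or]
    exact ⟨fun h0 => (lenAt_zero z).1 h0 ((mem_supp _ _).2 hz.1.2), ne_top_of_min _ z hz⟩
  · have hab : a * b ∉ w.asIdeal := fun h => (w.isPrime.mem_or_mem h).elim ha hb
    obtain ⟨f, g, hf, hg, hfg⟩ := ses w ha (Ideal.span {b})
    rw [dv, dv, dv, if_neg ha, if_neg hb, if_neg hab, ← Ideal.span_singleton_mul_span_singleton,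
      add_comm]
    refine cyc_add hD.1 f g _ hf hg hfg fun z hz => ?_
    rw [Ideal.span_singleton_mul_span_singleton, mem_supp] at hz
    have := hD.1 R w z (hlt _ z hab hz).1
    omega
  · have key : ∀ a b : R, a - b ∈ w.asIdeal →
        w.asIdeal ⊔ Ideal.span {a} ≤ w.asIdeal ⊔ Ideal.span {b} := fun a b h =>
      sup_le le_sup_left ((Ideal.span_singleton_le_iff_mem _).2 (by
        rw [← sub_add_cancel a b]
        exact Submodule.add_mem_sup h (Ideal.mem_span_singleton_self b)))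
    have h' : b - a ∈ w.asIdeal := by rw [← neg_sub]; exact neg_mem h
    have e : a ∈ w.asIdeal ↔ b ∈ w.asIdeal :=
      ⟨fun h1 => by simpa using add_mem h' h1, fun h1 => by simpa using add_mem h h1⟩
    rw [dv, dv, le_antisymm (key a b h) (key b a h')]
    by_cases ha : a ∈ w.asIdeal
    · rw [if_pos ha, if_pos (e.1 ha)]
    · rw [if_neg ha, if_neg (mt e.2 ha)]
  · have h1 := (hD.2.1 R w z).2 a ha (by
      rw [hz, Ideal.minimalPrimes_eq_subsingleton_self]; rfl)
    rw [dv, if_neg ha, hz, h1]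
    exact cyc_self hD.1 z

theorem mcyc (hD : DimStmt) : McycStmt := by
  intro R _ _ _ M _ _ hM x d
  have := noeth (R := R)
  induction hM using IsNoetherianRing.induction_on_isQuotientEquivQuotientPrime R with
  | subsingleton N =>
    intro _
    have h0 : ∀ p, p ∉ Module.support R N := by simp [Module.support_eq_empty]
    rw [cyc_zero fun p hp => (h0 p (supp_quot x hp).1).elim,
      cyc_zero fun p hp => (h0 p (supp_tors x hp).1).elim, cyc_zero fun p hp => (h0 p hp).elim,
      map_zero, sub_zero]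
  | quotient N q e =>
    intro h
    obtain ⟨h1, h2⟩ := h q (by rw [e.support_eq, mem_supp])
    have e2 : Submodule.torsionBy R N x ≃ₗ[R] Submodule.torsionBy R (R ⧸ q.asIdeal) x :=
      LinearEquiv.ofLinearMap (tmap x e.toLinearMap) (tmap x e.symm.toLinearMap)
        (LinearMap.ext fun m => Subtype.ext (e.apply_symm_apply m.1))
        (LinearMap.ext fun m => Subtype.ext (e.symm_apply_apply m.1))
    rw [cyc_congr (QuotSMulTop.congr x e), cyc_congr e2, cyc_congr e]
    exact mcyc_prime hD.1 q x d h1 h2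
  | exact N₁ N₂ N₃ f g hf hg hfg h₁ h₃ =>
    intro h
    rw [six hD.1 f g hf hg hfg x d fun p hp => (h p hp).2,
      cyc_add hD.1 f g (d + 1) hf hg hfg fun p hp => (h p hp).1, map_add,
      h₁ fun p hp => h p (Module.support_subset_of_injective f hf hp),
      h₃ fun p hp => h p (Module.support_subset_of_surjective g hg hp)]

end Pool.Agent.Lib.MP_2c79a0_ag
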