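import Mathlib

/-! Dimension formula for finitely generated domains over a field. -/

namespace Pool.Agent.Lib.MP_2c79a0_ag.H68Dim

open Order PrimeSpectrum

universe u v

section Integral
variable {A B : Type*} [CommRing A] [CommRing B] [Algebra A B]

lemma strictMono_comap [Algebra.IsIntegral A B] :
    StrictMono (PrimeSpectrum.comap (algebraMap A B)) := by
  intro P Q h
  have h' : P.asIdeal < Q.asIdeal := h
  obtain ⟨x, hxQ, hxP⟩ := Set.exists_of_ssubset h'
  exact Ideal.comap_lt_comap_of_integral_mem_sdiff h'.le ⟨hxQ, hxP⟩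
    (Algebra.IsIntegral.isIntegral x)

lemma coheight_comap [Algebra.IsIntegral A B] (P : PrimeSpectrum B) :
    coheight (PrimeSpectrum.comap (algebraMap A B) P) = coheight P := by
  refine (coheight_eq_of_strictMono _ strictMono_comap ?_ P).symm
  intro a b hab
  have hlt : a.asIdeal.under A < b.asIdeal := hab
  obtain ⟨Q, hQ, hQp, hQo⟩ := Ideal.exists_ideal_gt_liesOver_of_lt a.asIdeal hlt
  exact ⟨⟨Q, hQp⟩, hQ, PrimeSpectrum.ext hQo.over.symm⟩

lemma height_comap [Algebra.IsIntegral A B] [Algebra.HasGoingDown A B] (P : PrimeSpectrum B) :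
    height (PrimeSpectrum.comap (algebraMap A B) P) = height P := by
  refine (height_eq_of_strictMono _ strictMono_comap ?_ P).symm
  intro a b hab
  have hlt : b.asIdeal < a.asIdeal.under A := hab
  obtain ⟨Q, hQ, hQp, hQo⟩ := Ideal.exists_ideal_lt_liesOver_of_lt a.asIdeal hlt
  exact ⟨⟨Q, hQp⟩, hQ, PrimeSpectrum.ext hQo.over.symm⟩

lemma comap_bot [IsDomain A] [IsDomain B] [FaithfulSMul A B] :
    PrimeSpectrum.comap (algebraMap A B) ⊥ = ⊥ := by
  apply PrimeSpectrum.ext
  change Ideal.comap _ ⊥ = ⊥
  exact Ideal.comap_bot_of_injective _ (FaithfulSMul.algebraMap_injective A B)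

end Integral

section Quot
variable {R : Type*} [CommRing R]

lemma comap_mk_bot (p : PrimeSpectrum R) :
    PrimeSpectrum.comap (algebraMap R (R ⧸ p.asIdeal)) ⊥ = p := by
  apply PrimeSpectrum.ext
  change Ideal.comap (Ideal.Quotient.mk _) ⊥ = p.asIdeal
  rw [← RingHom.ker_eq_comap_bot, Ideal.mk_ker]

lemma coheight_bot_quot (p : PrimeSpectrum R) :
    coheight (⊥ : PrimeSpectrum (R ⧸ p.asIdeal)) = coheight p := by
  rw [← coheight_comap (A := R), comap_mk_bot]

lemma ringKrullDim_quot (p : PrimeSpectrum R) :
    ringKrullDim (R ⧸ p.asIdeal) = (coheight p : ℕ∞) := by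
  rw [← coheight_bot_quot, coheight_bot_eq_krullDim]; rfl

/-- The image of `q ⊇ p` in the spectrum of `R / p`. -/
def quotPt (I : Ideal R) (q : PrimeSpectrum R) (h : I ≤ q.asIdeal) : PrimeSpectrum (R ⧸ I) :=
  ⟨q.asIdeal.map (Ideal.Quotient.mk I),
    Ideal.map_isPrime_of_surjective Ideal.Quotient.mk_surjective (by rwa [Ideal.mk_ker])⟩

lemma comap_quotPt (I : Ideal R) (q : PrimeSpectrum R) (h : I ≤ q.asIdeal) :
    PrimeSpectrum.comap (algebraMap R (R ⧸ I)) (quotPt I q h) = q := by
  apply PrimeSpectrum.ext
  change Ideal.comap (Ideal.Quotient.mk _) (Ideal.map _ _) = q.asIdeal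
  rw [Ideal.comap_map_of_surjective _ Ideal.Quotient.mk_surjective, ← RingHom.ker_eq_comap_bot,
    Ideal.mk_ker]
  exact sup_eq_left.mpr h

lemma coheight_quotPt (I : Ideal R) (q : PrimeSpectrum R) (h : I ≤ q.asIdeal) :
    coheight (quotPt I q h) = coheight q := by
  rw [← coheight_comap (A := R), comap_quotPt]

lemma height_add_le_of_comap (p : PrimeSpectrum R) (P : PrimeSpectrum (R ⧸ p.asIdeal)) :
    height p + height P ≤ height (PrimeSpectrum.comap (algebraMap R (R ⧸ p.asIdeal)) P) := by
  have key : ∀ n : ℕ, ∀ P : PrimeSpectrum (R ⧸ p.asIdeal), (n : ℕ∞) ≤ height P →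
      height p + n ≤ height (PrimeSpectrum.comap (algebraMap R (R ⧸ p.asIdeal)) P) := by
    intro n
    induction n with
    | zero =>
      intro P _
      simp only [Nat.cast_zero, add_zero]
      apply height_mono
      conv_lhs => rw [← comap_mk_bot p]
      exact strictMono_comap.monotone bot_le
    | succ n ih =>
      intro P hP
      obtain ⟨l, hl, hlen⟩ := exists_series_of_le_height P hP
      have hlt : l.eraseLast.last < P := by
        rw [← hl]
        exact l.eraseLast_last_rel_last (by omega)
      have h1 : (n : ℕ∞) ≤ height l.eraseLast.last := by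
        have := length_le_height_last (p := l.eraseLast)
        simpa [hlen] using this
      have h2 := height_add_one_le (strictMono_comap (A := R) hlt)
      calc height p + ((n + 1 : ℕ) : ℕ∞) = height p + n + 1 := by push_cast; ring
        _ ≤ _ + 1 := by gcongr; exact ih _ h1
        _ ≤ _ := h2
  induction hP : height P using ENat.recTopCoe with
  | top =>
    have : height (PrimeSpectrum.comap (algebraMap R (R ⧸ p.asIdeal)) P) = ⊤ := by
      apply ENat.eq_top_iff_forall_ge.mpr
      intro n
      exact le_trans le_add_self (key n P (by simp [hP]))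
    rw [this]; exact le_top
  | coe n => exact key n P hP.ge

lemma height_add_coheight_le [IsDomain R] (p : PrimeSpectrum R) :
    height p + coheight p ≤ coheight (⊥ : PrimeSpectrum R) := by
  have h1 := krullDim_eq_iSup_height_add_coheight_of_nonempty (α := PrimeSpectrum R)
  have h2 := coheight_bot_eq_krullDim (α := PrimeSpectrum R)
  rw [h1] at h2
  have h3 := WithBot.coe_injective h2
  rw [h3]
  exact le_iSup (fun a : PrimeSpectrum R => height a + coheight a) p

lemma height_le_coheight_bot [IsDomain R] (p : PrimeSpectrum R) :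
    height p ≤ coheight (⊥ : PrimeSpectrum R) :=
  le_trans le_self_add (height_add_coheight_le p)

/-- In a Noetherian domain every nonzero prime contains a prime of height one. -/
lemma exists_height_one [IsDomain R] [IsNoetherianRing R] (p : PrimeSpectrum R) (hp : p ≠ ⊥) :
    ∃ q : PrimeSpectrum R, q ≤ p ∧ height q = 1 := by
  have hp' : p.asIdeal ≠ ⊥ := fun h => hp (PrimeSpectrum.ext h)
  obtain ⟨f, hf, hf0⟩ := Submodule.exists_mem_ne_zero_of_ne_bot hp'
  obtain ⟨q, hq, hqp⟩ := Ideal.exists_minimalPrimes_le (I := Ideal.span {f}) (J := p.asIdeal)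
    (by simpa using hf)
  have hqprime : q.IsPrime := hq.1.1
  refine ⟨⟨q, hqprime⟩, hqp, ?_⟩
  rw [← PrimeSpectrum.height_eq_orderHeight]
  apply le_antisymm (Ideal.height_le_one_of_isPrincipal_of_mem_minimalPrimes _ q hq)
  rw [Order.one_le_iff_ne_zero, ne_eq, Ideal.height_eq_zero_iff_eq_bot]
  intro h
  have : f ∈ q := hq.1.2 (Ideal.subset_span rfl)
  rw [h] at this
  exact hf0 this

end Quot

section Poly
variable (k : Type*) [Field k]

lemma height_maximal_mvPolynomial (s : ℕ) (m : Ideal (MvPolynomial (Fin s) k)) [m.IsMaximal] :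
    m.height = s := by
  induction s with
  | zero =>
    have e := MvPolynomial.isEmptyAlgEquiv k (Fin 0)
    have : m = ⊥ := by
      have hf : IsField (MvPolynomial (Fin 0) k) := e.toMulEquiv.isField (Field.toIsField k)
      let := hf.toField
      exact Ideal.eq_bot_of_prime m
    subst this
    simp
  | succ s ih =>
    let e := (MvPolynomial.finSuccEquiv k s).toRingEquiv
    let P : Ideal (Polynomial (MvPolynomial (Fin s) k)) := m.map e
    have hP : P.IsMaximal := Ideal.map_isMaximal_of_equiv e
    have h1 : P.height = m.height := e.height_map m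
    have hm : (P.under (MvPolynomial (Fin s) k)).IsMaximal :=
      Polynomial.isMaximal_comap_C_of_isJacobsonRing P
    rw [← h1, Polynomial.height_eq_height_add_one (P.under (MvPolynomial (Fin s) k)) P, ih]
    push_cast; rfl

lemma coheight_bot_mvPolynomial (s : ℕ) :
    coheight (⊥ : PrimeSpectrum (MvPolynomial (Fin s) k)) = s := by
  have h := coheight_bot_eq_krullDim (α := PrimeSpectrum (MvPolynomial (Fin s) k))
  have h2 : ringKrullDim (MvPolynomial (Fin s) k) = s := by
    simp [MvPolynomial.ringKrullDim_of_isNoetherianRing, ringKrullDim_eq_zero_of_field]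
  unfold ringKrullDim at h2
  rw [h2] at h
  exact_mod_cast h

lemma coheight_of_height_one_mvPolynomial (s : ℕ) (p : PrimeSpectrum (MvPolynomial (Fin s) k))
    (hp : height p = 1) : coheight p + 1 = s := by
  have hne : p.asIdeal ≠ ⊥ := by
    apply Ideal.ne_bot_of_height_eq_one
    rw [PrimeSpectrum.height_eq_orderHeight, hp]
  apply le_antisymm
  · rw [← coheight_bot_mvPolynomial k s]
    exact coheight_add_one_le (bot_lt_iff_ne_bot.mpr fun h => hne (by rw [h]; rfl))
  · obtain ⟨f, hfp, hf⟩ := p.isPrime.exists_mem_prime_of_ne_bot hne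
    have hspan : p.asIdeal = Ideal.span {f} :=
      Ideal.eq_span_singleton_of_height_eq_one
        (by rw [PrimeSpectrum.height_eq_orderHeight, hp]) hfp hf
    obtain ⟨m, hm, hpm⟩ := Ideal.exists_le_maximal p.asIdeal p.isPrime.ne_top
    have h1 := Ideal.height_le_ringKrullDim_quotient_add_one (p := m) (r := f) (hpm hfp)
    rw [height_maximal_mvPolynomial k s m, ← hspan, ringKrullDim_quot] at h1
    exact_mod_cast h1

end Poly

section Main
variable (k : Type u) [Field k]

lemma exists_normalization (R : Type v) [CommRing R] [IsDomain R] [Algebra k R]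
    [Algebra.FiniteType k R] :
    ∃ s : ℕ, coheight (⊥ : PrimeSpectrum R) = s ∧
      (∀ p : PrimeSpectrum R, height p = 1 → coheight p + 1 = s) ∧
      (∀ p : PrimeSpectrum R, p.asIdeal.IsMaximal → height p = s) := by
  obtain ⟨s, g, hg, hint⟩ := exists_integral_inj_algHom_of_fg k R
  let : Algebra (MvPolynomial (Fin s) k) R := g.toRingHom.toAlgebra
  have : Algebra.IsIntegral (MvPolynomial (Fin s) k) R := ⟨hint⟩
  have : FaithfulSMul (MvPolynomial (Fin s) k) R :=
    (faithfulSMul_iff_algebraMap_injective _ _).mpr hg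
  refine ⟨s, ?_, ?_, ?_⟩
  · rw [← coheight_comap (A := MvPolynomial (Fin s) k), comap_bot, coheight_bot_mvPolynomial]
  · intro p hp
    rw [← coheight_comap (A := MvPolynomial (Fin s) k)]
    apply coheight_of_height_one_mvPolynomial
    rw [height_comap, hp]
  · intro p hp
    rw [← height_comap (A := MvPolynomial (Fin s) k), ← PrimeSpectrum.height_eq_orderHeight]
    have : (PrimeSpectrum.comap (algebraMap (MvPolynomial (Fin s) k) R) p).asIdeal.IsMaximal :=
      Ideal.isMaximal_comap_of_isIntegral_of_isMaximal p.asIdeal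
    exact height_maximal_mvPolynomial k s _

lemma coheight_bot_ne_top (R : Type v) [CommRing R] [IsDomain R] [Algebra k R]
    [Algebra.FiniteType k R] : coheight (⊥ : PrimeSpectrum R) ≠ ⊤ := by
  obtain ⟨s, hs, -⟩ := exists_normalization k R
  simp [hs]

private lemma aux (n : ℕ) : ∀ (R : Type v) [CommRing R] [IsDomain R] [Algebra k R]
    [Algebra.FiniteType k R], coheight (⊥ : PrimeSpectrum R) = n →
    ∀ p : PrimeSpectrum R, (n : ℕ∞) ≤ height p + coheight p := by
  induction n using Nat.strong_induction_on with
  | _ n ih =>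
    intro R _ _ _ _ hn p
    by_cases hp : p = ⊥
    · subst hp
      rw [hn]; exact le_add_self
    have : IsNoetherianRing R := Algebra.FiniteType.isNoetherianRing k R
    obtain ⟨q, hqp, hq⟩ := exists_height_one p hp
    obtain ⟨s, hs, hs1, -⟩ := exists_normalization k R
    have hsn : s = n := by rw [hs] at hn; exact_mod_cast hn
    subst hsn
    have h1 := hs1 q hq
    obtain ⟨m, hm⟩ : ∃ m : ℕ, coheight q = m := by
      refine ⟨(coheight q).toNat, (ENat.natCast_toNat ?_).symm⟩
      intro h; rw [h] at h1; simp at h1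
    have hms : m + 1 = s := by rw [hm] at h1; exact_mod_cast h1
    have h2 := ih m (by omega) (R ⧸ q.asIdeal) (by rw [coheight_bot_quot, hm])
      (quotPt q.asIdeal p hqp)
    have h3 := height_add_le_of_comap q (quotPt q.asIdeal p hqp)
    rw [comap_quotPt, hq] at h3
    rw [coheight_quotPt] at h2
    calc (s : ℕ∞) = 1 + m := by rw [← hms]; push_cast; ring
      _ ≤ 1 + (height (quotPt q.asIdeal p hqp) + coheight p) := by gcongr
      _ = (1 + height (quotPt q.asIdeal p hqp)) + coheight p := by ring
      _ ≤ _ := by gcongr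

/-- Dimension formula. -/
theorem height_add_coheight (R : Type v) [CommRing R] [IsDomain R] [Algebra k R]
    [Algebra.FiniteType k R] (p : PrimeSpectrum R) :
    height p + coheight p = coheight (⊥ : PrimeSpectrum R) := by
  apply le_antisymm (height_add_coheight_le p)
  obtain ⟨s, hs, -⟩ := exists_normalization k R
  rw [hs]
  exact aux k s R hs p

theorem height_add_ringKrullDim (R : Type v) [CommRing R] [IsDomain R] [Algebra k R]
    [Algebra.FiniteType k R] (p : Ideal R) [hp : p.IsPrime] :
    (p.height : WithBot ℕ∞) + ringKrullDim (R ⧸ p) = ringKrullDim R := by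
  have h := height_add_coheight k R ⟨p, hp⟩
  have h1 := ringKrullDim_quot (⟨p, hp⟩ : PrimeSpectrum R)
  have h2 := PrimeSpectrum.height_eq_orderHeight (⟨p, hp⟩ : PrimeSpectrum R)
  simp only at h1 h2
  rw [h1, h2, ← WithBot.coe_add, h, coheight_bot_eq_krullDim]; rfl

lemma coheight_ne_top (R : Type v) [CommRing R] [Algebra k R]
    [Algebra.FiniteType k R] (p : PrimeSpectrum R) : coheight p ≠ ⊤ := by
  rw [← coheight_bot_quot]; exact coheight_bot_ne_top k _

/-- In any finitely generated algebra: relative height plus codimension. -/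
theorem height_quotPt_add_coheight (R : Type v) [CommRing R] [Algebra k R]
    [Algebra.FiniteType k R] (p q : PrimeSpectrum R) (h : p ≤ q) :
    height (quotPt p.asIdeal q h) + coheight q = coheight p := by
  rw [← coheight_bot_quot p, ← height_add_coheight k _ (quotPt p.asIdeal q h), coheight_quotPt]

lemma height_quotPt_eq_one_iff {R : Type*} [CommRing R] (p q : PrimeSpectrum R) (h : p ≤ q) :
    height (quotPt p.asIdeal q h) = 1 ↔ p ⋖ q := by
  have hm := strictMono_comap (A := R) (B := R ⧸ p.asIdeal)
  constructor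
  · intro h1
    have hne : quotPt p.asIdeal q h ≠ ⊥ := by
      intro h0; rw [h0] at h1; simp at h1
    refine ⟨?_, ?_⟩
    · have := hm (bot_lt_iff_ne_bot.mpr hne)
      rwa [comap_mk_bot, comap_quotPt] at this
    · intro c hpc hcq
      have h2 : (⊥ : PrimeSpectrum (R ⧸ p.asIdeal)) < quotPt p.asIdeal c hpc.le := by
        refine bot_lt_iff_ne_bot.mpr fun h0 => hpc.ne ?_
        rw [← comap_quotPt p.asIdeal c hpc.le, h0, comap_mk_bot]
      have h3 : quotPt p.asIdeal c hpc.le < quotPt p.asIdeal q h := by
        refine lt_of_le_of_ne (Ideal.map_mono hcq.le) fun h0 => hcq.ne ?_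
        rw [← comap_quotPt p.asIdeal c hpc.le, h0, comap_quotPt]
      have := one_lt_height_iff.mpr ⟨_, _, h2, h3⟩
      rw [h1] at this
      exact lt_irrefl _ this
  · intro hc
    apply le_antisymm
    · by_contra hlt
      obtain ⟨y, z, hzy, hy⟩ := one_lt_height_iff.mp (not_le.mp hlt)
      have h1 := hm hy
      have h2 := hm (lt_of_le_of_lt bot_le hzy)
      rw [comap_quotPt] at h1
      rw [comap_mk_bot] at h2
      exact hc.2 h2 h1
    · rw [Order.one_le_iff_ne_zero, ne_eq, height_eq_zero]
      intro hmin
      have h0 : quotPt p.asIdeal q h = ⊥ := le_bot_iff.mp (hmin bot_le)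
      apply hc.1.ne
      rw [← comap_quotPt p.asIdeal q h, h0, comap_mk_bot]

/-- Covering relation in terms of codimension (any finitely generated algebra). -/
theorem covBy_iff_coheight (R : Type v) [CommRing R] [Algebra k R]
    [Algebra.FiniteType k R] (p q : PrimeSpectrum R) (h : p ≤ q) :
    p ⋖ q ↔ coheight q + 1 = coheight p := by
  rw [← height_quotPt_eq_one_iff p q h, ← height_quotPt_add_coheight k R p q h]
  constructor
  · intro h1; rw [h1, add_comm]
  · intro h1
    rw [add_comm (height _)] at h1
    exact (ENat.add_right_injective_of_ne_top (coheight_ne_top k R q) h1).symm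

/-- Catenarity in a finitely generated domain. -/
theorem covBy_iff_height (R : Type v) [CommRing R] [IsDomain R] [Algebra k R]
    [Algebra.FiniteType k R] (p q : PrimeSpectrum R) (h : p ≤ q) :
    p ⋖ q ↔ height q = height p + 1 := by
  rw [covBy_iff_coheight k R p q h]
  have h1 := height_add_coheight k R p
  have h2 := height_add_coheight k R q
  obtain ⟨s, hs, -⟩ := exists_normalization k R
  rw [hs] at h1 h2
  have f1 : height p ≠ ⊤ := by intro h0; rw [h0] at h1; simp at h1
  have f2 : height q ≠ ⊤ := by intro h0; rw [h0] at h2; simp at h2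
  have f3 := coheight_ne_top k R p
  have f4 := coheight_ne_top k R q
  lift height p to ℕ using f1 with a
  lift height q to ℕ using f2 with b
  lift coheight p to ℕ using f3 with c
  lift coheight q to ℕ using f4 with d
  norm_cast at h1 h2 ⊢
  omega

theorem height_maximal (R : Type v) [CommRing R] [IsDomain R] [Algebra k R]
    [Algebra.FiniteType k R] (p : PrimeSpectrum R) (hp : p.asIdeal.IsMaximal) :
    height p = coheight (⊥ : PrimeSpectrum R) := by
  obtain ⟨s, hs, -, h⟩ := exists_normalization k R
  rw [hs, h p hp]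

end Main

end Pool.Agent.Lib.MP_2c79a0_ag.H68Dim
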