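import Pool.Agent.Lib.MP_2c79a0_ag.Geo

/-!
Points of affine open sets, and divisors of rational functions on closures of points.
-/

open AlgebraicGeometry CategoryTheory TopologicalSpace Algebra

noncomputable section

namespace Pool.Agent.Lib.MP_2c79a0_ag

namespace Div

lemma mem_prime {X : Scheme.{0}} {U : X.Opens} (hU : IsAffineOpen U) {z : X} (hz : z ∈ U)
    (r : Γ(X, U)) : r ∈ (hU.primeIdealOf ⟨z, hz⟩).asIdeal ↔
      X.presheaf.germ U z hz r ∈ IsLocalRing.maximalIdeal (X.presheaf.stalk z) := by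
  rw [hU.primeIdealOf_eq_map_closedPoint]
  rfl

lemma spec_iff {X : Scheme.{0}} {U : X.Opens} (hU : IsAffineOpen U) {x z : X} (hx : x ∈ U)
    (hz : z ∈ U) : x ⤳ z ↔ hU.primeIdealOf ⟨x, hx⟩ ≤ hU.primeIdealOf ⟨z, hz⟩ := by
  rw [PrimeSpectrum.le_iff_specializes]
  have h := hU.fromSpec.isOpenEmbedding.isInducing.specializes_iff
    (x := hU.primeIdealOf ⟨x, hx⟩) (y := hU.primeIdealOf ⟨z, hz⟩)
  rw [hU.fromSpec_primeIdealOf, hU.fromSpec_primeIdealOf] at h
  exact h

lemma coheight_eq {X : Scheme.{0}} {U : X.Opens} (hU : IsAffineOpen U) {z : X} (hz : z ∈ U) :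
    Order.coheight z = (hU.primeIdealOf ⟨z, hz⟩).asIdeal.height := by
  have h := coheight_eq_of_isOpenImmersion (x := hU.primeIdealOf ⟨z, hz⟩) hU.fromSpec
  rw [← idealHeight_eq_coheight] at h
  rw [← h]
  exact congrArg _ (hU.fromSpec_primeIdealOf ⟨z, hz⟩).symm

/-- The local length of a cyclic module, computed in any localisation. -/
lemma lenAt_quot {B : Type} [CommRing B] (q : PrimeSpectrum B) (S : Type) [CommRing S]
    [Algebra B S] [IsLocalization.AtPrime S q.asIdeal] (I : Ideal B) :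
    lenAt q (B ⧸ I) = Module.length S (S ⧸ I.map (algebraMap B S)) := by
  let e := IsLocalization.algEquiv q.asIdeal.primeCompl (Localization.AtPrime q.asIdeal) S
  let : Algebra (Localization.AtPrime q.asIdeal) S := e.toRingHom.toAlgebra
  have : IsScalarTower B (Localization.AtPrime q.asIdeal) S :=
    IsScalarTower.of_algebraMap_eq fun b => (e.commutes b).symm
  have : IsLocalizedModule q.asIdeal.primeCompl
      (IsScalarTower.toAlgHom B (B ⧸ I) (S ⧸ I.map (algebraMap B S))).toLinearMap :=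
    isLocalizedModule_iff_isLocalization.2 inferInstance
  let f := (IsLocalizedModule.iso q.asIdeal.primeCompl
    (IsScalarTower.toAlgHom B (B ⧸ I) (S ⧸ I.map (algebraMap B S))).toLinearMap
      ).extendScalarsOfIsLocalization q.asIdeal.primeCompl (Localization.AtPrime q.asIdeal)
  rw [lenAt, f.length_eq]
  exact Module.length_eq_of_surjective e.surjective

/-- The reduced closed subscheme structure on the closure of a point. -/
lemma exists_sub (X : Scheme.{0}) [IsLocallyNoetherian X] (x : X) :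
    ∃ (W : Scheme.{0}) (_ : IsIntegral W) (_ : IsLocallyNoetherian W) (ι : W ⟶ X)
      (_ : IsClosedImmersion ι), ι (genericPoint W) = x := by
  let I := Scheme.IdealSheafData.vanishingIdeal (X := X) (Closeds.closure {x})
  have hr : Set.range I.subschemeι = closure {x} := by
    rw [I.range_subschemeι, Scheme.IdealSheafData.coe_support_vanishingIdeal]
    rfl
  have : IsReduced I.subscheme := by
    have : ∀ i, IsReduced (I.subschemeCover.openCover.X i) := fun U => by
      have : _root_.IsReduced (Γ(X, U.1) ⧸ I.ideal U) :=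
        (Ideal.isRadical_iff_quotient_reduced _).1 (PrimeSpectrum.isRadical_vanishingIdeal _)
      exact inferInstanceAs (IsReduced (Spec (.of (Γ(X, U.1) ⧸ I.ideal U))))
    exact IsReduced.of_openCover _ I.subschemeCover.openCover
  have : IrreducibleSpace I.subscheme := by
    have h1 : IsIrreducible (Set.range I.subschemeι) := hr ▸ isIrreducible_singleton.closure
    have := Subtype.irreducibleSpace h1
    exact I.subschemeι.isEmbedding.toHomeomorph.symm.surjective.irreducibleSpace
      I.subschemeι.isEmbedding.toHomeomorph.symm.continuous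
  have : IsIntegral I.subscheme := isIntegral_of_irreducibleSpace_of_isReduced _
  refine ⟨I.subscheme, inferInstance, LocallyOfFiniteType.isLocallyNoetherian I.subschemeι,
    I.subschemeι, inferInstance, ?_⟩
  have h1 := (genericPoint_spec I.subscheme).image I.subschemeι.continuous
  rw [Set.image_univ, hr, closure_closure] at h1
  exact h1.eq isGenericPoint_closure

/-- The order of vanishing in an affine chart of an integral scheme. -/
lemma ord_eq (hD : DimStmt) (hC : CycStmt) {W : Scheme.{0}} [IsIntegral W] [IsLocallyNoetherian W]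
    {V : W.Opens} (hV : IsAffineOpen V) [Nonempty V] [Algebra ℂ Γ(W, V)]
    [EssFiniteType ℂ Γ(W, V)] {w : W} (hw : w ∈ V) {b : Γ(W, V)} (hb : b ≠ 0) :
    (W.ord (W.germToFunctionField V b) w : ℚ) = dv (gen Γ(W, V)) b (hV.primeIdealOf ⟨w, hw⟩) := by
  set q := hV.primeIdealOf ⟨w, hw⟩ with hq
  have hh := hD.2.2.1.1 Γ(W, V) q
  have hco : Order.coheight w = q.asIdeal.height := coheight_eq hV hw
  by_cases h1 : Order.coheight w = 1
  · have h2 : dm q = dm (gen Γ(W, V)) - 1 := by
      rw [← hco, h1] at hh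
      have : 1 + dm q = dm (gen Γ(W, V)) := by exact_mod_cast hh
      omega
    have hb' : b ∉ (gen Γ(W, V)).asIdeal := hb
    rw [dv, if_neg hb', (hC.1 Γ(W, V)).1, if_pos h2]
    let : Algebra Γ(W, V) (W.presheaf.stalk w) := (W.presheaf.germ V w hw).hom.toAlgebra
    have : IsLocalization.AtPrime (W.presheaf.stalk w) q.asIdeal := hV.isLocalization_stalk ⟨w, hw⟩
    have : Ring.KrullDimLE 1 (W.presheaf.stalk w) := krullDimLE_of_coheight_le h1.le
    have hs : W.presheaf.germ V w hw b ≠ 0 :=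
      (map_ne_zero_iff _ (germ_injective_of_isIntegral W w hw)).2 hb
    have hs' := mem_nonZeroDivisors_of_ne_zero hs
    have h3 : lenAt q (Γ(W, V) ⧸ ((gen Γ(W, V)).asIdeal ⊔ Ideal.span {b})) =
        Ring.ord (W.presheaf.stalk w) (W.presheaf.germ V w hw b) := by
      rw [lenAt_quot q (W.presheaf.stalk w), Ring.ord]
      have e : ((gen Γ(W, V)).asIdeal ⊔ Ideal.span {b}).map
          (algebraMap Γ(W, V) (W.presheaf.stalk w)) = Ideal.span {W.presheaf.germ V w hw b} := by
        rw [show (gen Γ(W, V)).asIdeal = ⊥ from rfl, bot_sup_eq, Ideal.map_span,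
          Set.image_singleton]
        rfl
      rw [e]
    have h4 : W.ord (W.germToFunctionField V b) w =
        ((Ring.ord (W.presheaf.stalk w) (W.presheaf.germ V w hw b)).toNat : ℤ) := by
      rw [Scheme.ord_eq_iff h1 ((map_ne_zero_iff _ (W.germToFunctionField_injective V)).2 hb),
        ← Scheme.algebraMap_germ_eq_germToFunctionField W hw]
      exact (Ring.ordFrac_eq_ord _ hs).trans (Ring.ordMonoidWithZeroHom_eq_coe _ hs'
        (ENat.natCast_toNat (Ring.ord_ne_top hs')).symm)
    rw [h3, h4, Int.cast_natCast]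
  · rw [Scheme.ord_eq_zero_of_coheight_neq_one h1, Int.cast_zero]
    by_contra h2
    have h3 := ((hC.2.1 Γ(W, V) (gen Γ(W, V))).1 b q (Ne.symm h2)).2.2.2
    rw [← h3, Nat.cast_add, add_comm (dm q : ℕ∞)] at hh
    exact h1 (hco.trans (WithTop.add_right_cancel (ENat.natCast_ne_top _) hh))

end Div

open Pool.Agent.Lib.MP_2c79a0_ag.Div

theorem pointStmt : PointStmt := by
  intro X U hU x z hx hz
  refine ⟨spec_iff hU hx hz, coheight_eq hU hz, fun r => ?_, fun h => ?_⟩
  · rw [mem_prime, IsLocalRing.mem_maximalIdeal, mem_nonunits_iff, X.mem_basicOpen r z hz]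
  · let : Algebra Γ(X, U) (X.presheaf.stalk z) := (X.presheaf.germ U z hz).hom.toAlgebra
    have : IsLocalization.AtPrime (X.presheaf.stalk z) (hU.primeIdealOf ⟨z, hz⟩).asIdeal :=
      hU.isLocalization_stalk ⟨z, hz⟩
    have e : (primeAt x z).comap (algebraMap Γ(X, U) (X.presheaf.stalk z)) =
        (hU.primeIdealOf ⟨x, hx⟩).asIdeal := by
      ext r
      rw [mem_prime, primeAt, dif_pos h, Ideal.mem_comap, Ideal.mem_comap,
        ← X.presheaf.germ_stalkSpecializes hz h]
      rfl
    rw [← e]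
    exact (IsLocalization.map_under (hU.primeIdealOf ⟨z, hz⟩).asIdeal.primeCompl _ _).symm

theorem divStmt (hD : DimStmt) (hC : CycStmt) : DivStmt := by
  intro X _
  suffices h : ∀ x : X, ∃ d : X.residueField x → X → ℚ,
      (∀ θ θ', θ ≠ 0 → θ' ≠ 0 → d (θ * θ') = d θ + d θ') ∧ (∀ θ z, d θ z ≠ 0 → x ⤳ z) ∧
      (∀ θ (k : ℕ), θ ≠ 0 → Order.coheight x + 1 = (k : ℕ∞) → d θ ∈ Rat X k) ∧
      ∀ (U : X.Opens) (hU : IsAffineOpen U) [Algebra ℂ Γ(X, U)] [EssFiniteType ℂ Γ(X, U)]
        (z : X) (hx : x ∈ U) (hz : z ∈ U) (r : Γ(X, U)), r ∉ (hU.primeIdealOf ⟨x, hx⟩).asIdeal →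
        d (X.evaluation U x hx r) z =
          dv (hU.primeIdealOf ⟨x, hx⟩) r (hU.primeIdealOf ⟨z, hz⟩) by
    choose d h1 h2 h3 h4 using h
    exact ⟨d, h1, h2, h3, fun U hU _ _ x => h4 x U hU⟩
  intro x
  obtain ⟨W, _, _, ι, _, rfl⟩ := exists_sub X x
  have hι : Function.Injective ι := ι.isClosedEmbedding.injective
  let e : X.residueField (ι (genericPoint W)) →+* W.functionField :=
    (Scheme.descResidueField (K := W.functionField) (ι.stalkMap (genericPoint W))).hom
  have he : ∀ θ, θ ≠ 0 → e θ ≠ 0 := fun θ h => (map_ne_zero e).2 h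
  refine ⟨fun θ => Function.extend ι (fun w => (W.ord (e θ) w : ℚ)) 0, fun θ θ' h h' => ?_,
    fun θ z h => ?_, fun θ k h hk => ?_, fun U hU _ _ z hx hz r hr => ?_⟩
  · funext z
    by_cases hz : ∃ w, ι w = z
    · obtain ⟨w, rfl⟩ := hz
      simp only [Pi.add_apply, hι.extend_apply, map_mul, Scheme.ord_mul (he θ h) (he θ' h'),
        Int.cast_add]
    · simp only [Pi.add_apply, Function.extend_apply' _ _ _ hz, Pi.zero_apply, add_zero]
  · by_cases hz : ∃ w, ι w = z
    · obtain ⟨w, rfl⟩ := hz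
      exact (genericPoint_specializes w).map ι.continuous
    · exact absurd (Function.extend_apply' _ _ _ hz) h
  · exact Submodule.subset_span ⟨W, inferInstance, inferInstance, ι, inferInstance, e θ, he θ h,
      hk, rfl⟩
  · by_cases hw : ∃ w, ι w = z
    · obtain ⟨w, rfl⟩ := hw
      have hV : IsAffineOpen (ι ⁻¹ᵁ U) := hU.preimage ι
      have : Nonempty (ι ⁻¹ᵁ U) := ⟨⟨w, hz⟩⟩
      let : Algebra ℂ Γ(W, ι ⁻¹ᵁ U) := ((ι.app U).hom.comp (algebraMap ℂ Γ(X, U))).toAlgebra
      let φ : Γ(X, U) →ₐ[ℂ] Γ(W, ι ⁻¹ᵁ U) := ⟨(ι.app U).hom, fun _ => rfl⟩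
      have hφ : LocSurj φ := fun b => by
        obtain ⟨a, ha⟩ := ι.app_surjective U hU b
        exact ⟨a, 1, by rw [map_one]; exact isUnit_one, by rw [map_one, mul_one]; exact ha.symm⟩
      obtain ⟨_, -, -, hR, -⟩ := hC.2.2.2.1 _ _ φ hφ
      have hcm : ∀ (v : W) (hv : ι v ∈ U),
          cm φ (hV.primeIdealOf ⟨v, hv⟩) = hU.primeIdealOf ⟨ι v, hv⟩ := fun v hv => by
        rw [← IsAffineOpen.comap_primeIdealOf_appLE U hU (ι ⁻¹ᵁ U) hV le_rfl hv,
          ← Scheme.Hom.app_eq_appLE]
        rfl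
      have hg : hV.primeIdealOf ⟨genericPoint W, hx⟩ = gen Γ(W, ι ⁻¹ᵁ U) :=
        hV.primeIdealOf_genericPoint.trans (genericPoint_eq_bot_of_affine _)
      have hb : φ r ≠ 0 := fun h0 => hr (by
        rw [← hcm, hg, mem_cm, h0]
        exact Ideal.zero_mem _)
      have ee : e (X.evaluation U _ hx r) = W.germToFunctionField (ι ⁻¹ᵁ U) (φ r) :=
        Scheme.Hom.germ_stalkMap_apply ι U (genericPoint W) hx r
      rw [← hcm _ hx, ← hcm _ hz, hg, ← res_apply φ hφ, hR, ← ord_eq hD hC hV hz hb, ← ee]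
      exact hι.extend_apply _ _ w
    · simp only [Function.extend_apply' _ _ _ hw, Pi.zero_apply]
      by_contra h
      have h1 := ((hC.2.1 _ _).1 r _ (Ne.symm h)).1.le
      exact hw (((spec_iff hU hx hz).2 h1).mem_closed ι.isClosedEmbedding.isClosed_range
        ⟨_, rfl⟩)

end Pool.Agent.Lib.MP_2c79a0_ag
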