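import Pool.Agent.Lib.MP_2c79a0_ag.Geo

/-!
Combinatorics of the iterated stellar subdivisions, and Poincare duality for the final fan.
-/

noncomputable section

namespace Pool.Agent.Lib.MP_2c79a0_ag

namespace FanA

open Finset

variable {N : ℕ}

lemma sing_ne_pair {a b c : Fin N} (h : a ≠ b) : ({c} : Ray N) ≠ {a, b} := fun e => by
  have := congrArg card e
  rw [card_singleton, card_pair h] at this
  omega

lemma blow_comm (K : Set (Cone N)) (a b : Fin N) : blowFan K a b = blowFan K b a := by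
  ext σ
  simp only [blowFan, Set.mem_ofPred_eq]
  rw [pair_comm b a, Finset.insert_comm ({b} : Ray N) {a}, and_comm (a := ({a} : Ray N) ∈ σ)]

lemma swap_mem {K : Set (Cone N)} {a b : Fin N} (h : a ≠ b) {σ : Cone N} (hσ : σ ∈ K)
    (ha : ({a} : Ray N) ∈ σ) (hb : ({b} : Ray N) ∈ σ) (hs : ({a, b} : Ray N) ∉ σ) :
    insert ({a, b} : Ray N) (σ.erase {a}) ∈ blowFan K a b := by
  refine ⟨fun hh => ?_, Or.inr ⟨mem_insert_self _ _, ?_⟩⟩
  · have := hh.1
    simp [sing_ne_pair h] at this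
  · rw [erase_insert (fun hh => hs (mem_of_mem_erase hh)),
      insert_eq_of_mem (mem_erase.mpr ⟨by simpa using h.symm, hb⟩), insert_erase ha]
    exact hσ

lemma card_le_up {a b : Fin N} {σ : Cone N} (hs : ({a, b} : Ray N) ∈ σ)
    (hn : ¬ (({a} : Ray N) ∈ σ ∧ ({b} : Ray N) ∈ σ)) :
    σ.card ≤ (insert ({a} : Ray N) (insert ({b} : Ray N) (σ.erase {a, b}))).card := by
  have h1 := card_erase_add_one hs
  by_cases ha : ({a} : Ray N) ∈ σ
  · have hb : ({b} : Ray N) ∉ σ.erase {a, b} := fun hh => hn ⟨ha, mem_of_mem_erase hh⟩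
    exact (by rw [card_insert_of_notMem hb, h1] : σ.card ≤ _).trans
      (card_le_card (subset_insert _ _))
  · have ha' : ({a} : Ray N) ∉ σ.erase {a, b} := fun hh => ha (mem_of_mem_erase hh)
    exact (by rw [card_insert_of_notMem ha', h1] : σ.card ≤ _).trans
      (card_le_card (insert_subset_insert _ (subset_insert _ _)))

lemma base_sub {n : ℕ} {σ : Cone N} (h : σ ∈ baseFan n N) :
    σ ⊆ univ.image fun i : Fin N => ({i} : Ray N) := fun ρ hρ => by
  obtain ⟨i, rfl⟩ := card_eq_one.mp (h.1 ρ hρ)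
  exact mem_image_of_mem _ (mem_univ i)

lemma card_sing : (univ.image fun i : Fin N => ({i} : Ray N)).card = N := by
  rw [card_image_of_injective _ singleton_injective, card_univ, Fintype.card_fin]

end FanA

open FanA Finset in
theorem fanBasic : FanBasicStmt := by
  intro n N K S hn hN H
  induction H with
  | base =>
    refine ⟨⟨by simp, by simp⟩, fun σ hσ τ h => ⟨fun ρ hρ => hσ.1 ρ (h hρ),
      (card_le_card h).trans hσ.2⟩, fun σ hσ => hσ.2, fun τ hτ => ?_,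
      fun σ hσ ρ hρ => Or.inl (hσ.1 ρ hρ), by simp, fun c d _ => ?_, fun σ hσ hc => ?_⟩
    · obtain ⟨σ, h1, h2, h3⟩ := exists_subsuperset_card_eq (base_sub hτ) hτ.2
        (by rw [card_sing]; exact hN.le)
      refine ⟨σ, ⟨fun ρ hρ => ?_, h3.le⟩, h1, h3⟩
      obtain ⟨i, -, rfl⟩ := mem_image.mp (h2 hρ)
      exact card_singleton i
    · refine iff_of_true ⟨fun ρ hρ => ?_, card_le_two.trans hn⟩ (by simp)
      simp only [mem_insert, mem_singleton] at hρ
      rcases hρ with rfl | rfl <;> exact card_singleton _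
    · obtain ⟨ρ, hρ⟩ := card_pos.mp (by omega : 0 < σ.card)
      obtain ⟨i, rfl⟩ := card_eq_one.mp (hσ.1 ρ hρ)
      exact ⟨i, hρ⟩
  | @step K S a b _ hab hS ih =>
    obtain ⟨h1, h2, h3, h4, h5, h6, h7, h8⟩ := ih
    have hs : ∀ σ ∈ K, ({a, b} : Ray N) ∉ σ := fun σ hσ hh => by
      rcases h5 σ hσ _ hh with h | h
      · rw [card_pair hab] at h; omega
      · exact hS h
    refine ⟨⟨by simp, Or.inl ⟨by simp, h1⟩⟩, fun σ hσ τ h => ⟨fun hh => hσ.1 ⟨h hh.1, h hh.2⟩, ?_⟩,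
      fun σ hσ => ?_, fun τ hτ => ?_, fun σ hσ ρ hρ => ?_, fun ρ hρ => ?_, fun c d hcd => ?_,
      fun σ hσ hc => ?_⟩
    · rcases hσ.2 with ⟨e1, e2⟩ | ⟨e1, e2⟩
      · exact Or.inl ⟨fun hh => e1 (h hh), h2 σ e2 τ h⟩
      · by_cases ht : ({a, b} : Ray N) ∈ τ
        · exact Or.inr ⟨ht, h2 _ e2 _
            (insert_subset_insert _ (insert_subset_insert _ (erase_subset_erase _ h)))⟩
        · exact Or.inl ⟨ht, h2 _ e2 _ fun ρ hρ => mem_insert_of_mem (mem_insert_of_mem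
            (mem_erase.mpr ⟨fun e => ht (e ▸ hρ), h hρ⟩))⟩
    · rcases hσ.2 with ⟨-, e2⟩ | ⟨e1, e2⟩
      · exact h3 σ e2
      · exact (card_le_up e1 hσ.1).trans (h3 _ e2)
    · obtain ⟨σ, k1, k2, k3, k4⟩ : ∃ σ ∈ K, σ.card = n ∧ τ.erase {a, b} ⊆ σ ∧
          (({a, b} : Ray N) ∈ τ → ({a} : Ray N) ∈ σ ∧ ({b} : Ray N) ∈ σ) := by
        rcases hτ.2 with ⟨e1, e2⟩ | ⟨e1, e2⟩
        · obtain ⟨σ, k1, k2, k3⟩ := h4 τ e2
          exact ⟨σ, k1, k3, (erase_subset _ _).trans k2, fun hh => (e1 hh).elim⟩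
        · obtain ⟨σ, k1, k2, k3⟩ := h4 _ e2
          exact ⟨σ, k1, k3, fun ρ hρ => k2 (mem_insert_of_mem (mem_insert_of_mem hρ)),
            fun _ => ⟨k2 (mem_insert_self _ _), k2 (mem_insert_of_mem (mem_insert_self _ _))⟩⟩
      by_cases hh : ({a} : Ray N) ∈ σ ∧ ({b} : Ray N) ∈ σ
      · have sub : ∀ x : Ray N, x ∉ τ → τ ⊆ insert ({a, b} : Ray N) (σ.erase x) := by
          intro x hx ρ hρ
          by_cases e : ρ = {a, b}
          · exact e ▸ mem_insert_self _ _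
          · exact mem_insert_of_mem (mem_erase.mpr ⟨fun e' => hx (e' ▸ hρ),
              k3 (mem_erase.mpr ⟨e, hρ⟩)⟩)
        have cd : ∀ x ∈ σ, (insert ({a, b} : Ray N) (σ.erase x)).card = n := fun x hx => by
          rw [card_insert_of_notMem fun e => hs σ k1 (mem_of_mem_erase e), card_erase_add_one hx, k2]
        by_cases ha : ({a} : Ray N) ∈ τ
        · refine ⟨_, ?_, sub {b} fun e => hτ.1 ⟨ha, e⟩, cd _ hh.2⟩
          rw [blow_comm, pair_comm]
          exact swap_mem hab.symm k1 hh.2 hh.1 (pair_comm a b ▸ hs σ k1)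
        · exact ⟨_, swap_mem hab k1 hh.1 hh.2 (hs σ k1), sub _ ha, cd _ hh.1⟩
      · refine ⟨σ, ⟨hh, Or.inl ⟨hs σ k1, k1⟩⟩, ?_, k2⟩
        rwa [erase_eq_of_notMem fun e => hh (k4 e)] at k3
    · by_cases e : ρ = {a, b}
      · exact Or.inr (e ▸ mem_insert_self _ _)
      · refine Or.imp_right mem_insert_of_mem ?_
        rcases hσ.2 with ⟨-, e2⟩ | ⟨-, e2⟩
        · exact h5 σ e2 ρ hρ
        · exact h5 _ e2 ρ (mem_insert_of_mem (mem_insert_of_mem (mem_erase.mpr ⟨e, hρ⟩)))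
    · rcases mem_insert.mp hρ with rfl | hρ
      · exact card_pair hab
      · exact h6 ρ hρ
    · have e1 : ({a, b} : Ray N) ∉ ({{c}, {d}} : Cone N) := by
        simp [(sing_ne_pair hab).symm]
      have e2 : (({a} : Ray N) ∈ ({{c}, {d}} : Cone N) ∧ ({b} : Ray N) ∈ ({{c}, {d}} : Cone N)) ↔
          ({c, d} : Ray N) = {a, b} := by
        simp only [mem_insert, mem_singleton, singleton_inj]
        constructor
        · rintro ⟨rfl | rfl, rfl | rfl⟩
          · exact (hab rfl).elim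
          · rfl
          · exact pair_comm _ _
          · exact (hab rfl).elim
        · intro e
          have k1 : a ∈ ({c, d} : Ray N) := e ▸ mem_insert_self _ _
          have k2 : b ∈ ({c, d} : Ray N) := e ▸ mem_insert_of_mem (mem_singleton_self _)
          exact ⟨by simpa using k1, by simpa using k2⟩
      rw [mem_insert, not_or, ← h7 c d hcd, ← e2]
      exact and_congr_right fun _ => ⟨fun h => h.elim (·.2) fun h => (e1 h.1).elim,
        fun h => Or.inl ⟨e1, h⟩⟩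
    · rcases hσ.2 with ⟨-, e2⟩ | ⟨e1, e2⟩
      · exact h8 σ e2 hc
      · by_contra hh
        push Not at hh
        have k := h3 _ e2
        rw [card_insert_of_notMem, card_insert_of_notMem fun e => hh b (mem_of_mem_erase e),
          card_erase_add_one e1] at k
        · omega
        · simp [hab, hh a]

namespace FanA

open Finset

variable {N : ℕ}

lemma pr_sing (m : Fin N → ℤ) (i : Fin N) : pr m {i} = m i := sum_singleton _ _

lemma pr_sub (m m' : Fin N → ℤ) (ρ : Ray N) : pr (m - m') ρ = pr m ρ - pr m' ρ := by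
  simp [pr, sum_sub_distrib]

lemma dual_step {a b : Fin N} (hab : a ≠ b) {σ U : Cone N}
    (hU : ∀ ρ ∈ U, ∃ m : Fin N → ℤ, ∑ i, m i = 0 ∧ pr m ρ = 1 ∧ ∀ ρ' ∈ U, ρ' ≠ ρ → pr m ρ' = 0)
    (ha : ({a} : Ray N) ∈ U) (hb : ({b} : Ray N) ∈ U) (hn : ({b} : Ray N) ∉ σ)
    (hs : ∀ ρ ∈ σ, ρ ≠ {a, b} → ρ ∈ U) :
    ∀ ρ ∈ σ, ∃ m : Fin N → ℤ, ∑ i, m i = 0 ∧ pr m ρ = 1 ∧ ∀ ρ' ∈ σ, ρ' ≠ ρ → pr m ρ' = 0 := by
  intro ρ hρ
  have hp : ∀ m : Fin N → ℤ, pr m {a, b} = pr m {a} + pr m {b} := fun m => by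
    rw [pr_sing, pr_sing]; exact sum_pair hab
  have hne : ({a} : Ray N) ≠ {b} := by simpa using hab
  have hb' : ∀ ρ ∈ σ, ρ ≠ {b} := fun ρ hρ e => hn (e ▸ hρ)
  obtain ⟨ν, n1, n2, n3⟩ := hU _ hb
  by_cases e : ρ = {a, b}
  · subst e
    exact ⟨ν, n1, by rw [hp, n2, n3 _ ha hne]; rfl,
      fun ρ' h1 h2 => n3 _ (hs _ h1 h2) (hb' _ h1)⟩
  obtain ⟨μ, m1, m2, m3⟩ := hU _ (hs _ hρ e)
  by_cases e' : ρ = {a}
  · subst e'
    refine ⟨μ - ν, by simp [sum_sub_distrib, m1, n1], by rw [pr_sub, m2, n3 _ ha hne]; rfl,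
      fun ρ' h1 h2 => ?_⟩
    rw [pr_sub]
    by_cases e2 : ρ' = {a, b}
    · rw [e2, hp, hp, m2, n2, n3 _ ha hne, m3 _ hb hne.symm]; rfl
    · rw [m3 _ (hs _ h1 e2) h2, n3 _ (hs _ h1 e2) (hb' _ h1)]; rfl
  · refine ⟨μ, m1, m2, fun ρ' h1 h2 => ?_⟩
    by_cases e2 : ρ' = {a, b}
    · rw [e2, hp, m3 _ ha (Ne.symm e'), m3 _ hb (hb' _ hρ).symm]; rfl
    · exact m3 _ (hs _ h1 e2) h2

end FanA

open FanA Finset in
theorem fanDual : FanDualStmt := by
  intro n N K S hn hN H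
  induction H with
  | base =>
    intro σ hσ ρ hρ
    obtain ⟨i, rfl⟩ := card_eq_one.mp (hσ.1 ρ hρ)
    obtain ⟨ρ', k1, k2⟩ := exists_mem_notMem_of_card_lt_card
      (show σ.card < (univ.image fun i : Fin N => ({i} : Ray N)).card by
        rw [card_sing]; exact hσ.2.trans_lt hN)
    obtain ⟨j, -, rfl⟩ := mem_image.mp k1
    have hij : i ≠ j := fun e => k2 (e ▸ hρ)
    refine ⟨Pi.single i 1 - Pi.single j 1, by simp [sum_sub_distrib], by simp [pr_sing, hij],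
      fun ρ' h1 h2 => ?_⟩
    obtain ⟨k, rfl⟩ := card_eq_one.mp (hσ.1 ρ' h1)
    have e1 : k ≠ i := fun e => h2 (by rw [e])
    have e2 : k ≠ j := fun e => k2 (e ▸ h1)
    simp [pr_sing, e1, e2]
  | @step K S a b _ hab _ ih =>
    intro σ hσ
    rcases hσ.2 with ⟨-, e2⟩ | ⟨-, e2⟩
    · exact ih σ e2
    · have hs : ∀ ρ ∈ σ, ρ ≠ {a, b} →
          ρ ∈ insert ({a} : Ray N) (insert ({b} : Ray N) (σ.erase {a, b})) := fun ρ h1 h2 =>
        mem_insert_of_mem (mem_insert_of_mem (mem_erase.mpr ⟨h2, h1⟩))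
      by_cases hb : ({b} : Ray N) ∈ σ
      · exact dual_step hab.symm (ih _ e2) (mem_insert_of_mem (mem_insert_self _ _))
          (mem_insert_self _ _) (fun e => hσ.1 ⟨e, hb⟩) (pair_comm a b ▸ hs)
      · exact dual_step hab (ih _ e2) (mem_insert_self _ _)
          (mem_insert_of_mem (mem_insert_self _ _)) hb hs

namespace FanA

open Finset MvPolynomial

variable {N : ℕ} {K : Set (Cone N)}

lemma xs_mem {σ : Cone N} (h : σ ∉ K) : xs σ ∈ JJ K :=
  Ideal.subset_span (Or.inl ⟨σ, h, rfl⟩)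

lemma xs_insert {σ : Cone N} {ρ : Ray N} (h : ρ ∉ σ) : xs (insert ρ σ) = X ρ * xs σ :=
  prod_insert h

/-- Combinations of monomials of cones with `j` rays, modulo the ideal. -/
def V (K : Set (Cone N)) (j : ℕ) : Submodule ℚ (MvPolynomial (Ray N) ℚ) :=
  Submodule.span ℚ {f | ∃ σ ∈ K, σ.card = j ∧ f = xs σ} ⊔ (JJ K).restrictScalars ℚ

lemma V_of_JJ {j : ℕ} {f : MvPolynomial (Ray N) ℚ} (h : f ∈ JJ K) : f ∈ V K j :=
  Submodule.mem_sup_right h

lemma V_xs (σ : Cone N) : xs σ ∈ V K σ.card := by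
  by_cases h : σ ∈ K
  · exact Submodule.mem_sup_left (Submodule.subset_span ⟨σ, h, rfl, rfl⟩)
  · exact V_of_JJ (xs_mem h)

lemma V_map {j : ℕ} {M : Type} [AddCommGroup M] [Module ℚ M]
    (L : MvPolynomial (Ray N) ℚ →ₗ[ℚ] M) (W : Submodule ℚ M)
    (h1 : ∀ σ ∈ K, σ.card = j → L (xs σ) ∈ W) (h2 : ∀ f ∈ JJ K, L f ∈ W) :
    ∀ f ∈ V K j, L f ∈ W := by
  have : V K j ≤ W.comap L := sup_le (Submodule.span_le.mpr (by
    rintro _ ⟨σ, k1, k2, rfl⟩
    exact h1 σ k1 k2)) h2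
  exact this

lemma V_X (hD : HasDual K) (ρ : Ray N) {j : ℕ} : ∀ f ∈ V K j, X ρ * f ∈ V K (j + 1) := by
  refine V_map (LinearMap.mulLeft ℚ (X ρ)) _ (fun σ hσ hj => ?_)
    fun f hf => V_of_JJ (Ideal.mul_mem_left _ _ hf)
  have out : ∀ ρ' ∉ σ, X ρ' * xs σ ∈ V K (j + 1) := fun ρ' h => by
    rw [← xs_insert h, ← hj, ← card_insert_of_notMem h]
    exact V_xs _
  change X ρ * xs σ ∈ _
  by_cases h : ρ ∈ σ
  swap
  · exact out ρ h
  obtain ⟨m, m1, m2, m3⟩ := hD σ hσ ρ h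
  have k1 : linf m * xs σ ∈ V K (j + 1) :=
    V_of_JJ (Ideal.mul_mem_right _ _ (Ideal.subset_span (Or.inr ⟨m, m1, rfl⟩)))
  rw [linf, ← add_sum_erase _ _ (mem_univ ρ), m2, add_mul, sum_mul] at k1
  have k2 : ∑ ρ' ∈ univ.erase ρ, C (pr m ρ' : ℚ) * X ρ' * xs σ ∈ V K (j + 1) := by
    refine Submodule.sum_mem _ fun ρ' h' => ?_
    by_cases e : ρ' ∈ σ
    · simp [m3 ρ' e (ne_of_mem_erase h')]
    · rw [mul_assoc, ← smul_eq_C_mul]
      exact Submodule.smul_mem _ _ (out ρ' e)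
  simpa using (Submodule.add_mem_iff_left _ k2).mp k1

lemma V_mul (hD : HasDual K) (σ : Cone N) {j : ℕ} :
    ∀ f ∈ V K j, xs σ * f ∈ V K (σ.card + j) := by
  induction σ using Finset.induction_on with
  | empty => intro f hf; simpa [xs] using hf
  | insert ρ σ h ih =>
    intro f hf
    rw [xs_insert h, card_insert_of_notMem h, mul_assoc, add_right_comm]
    exact V_X hD ρ _ (ih f hf)

lemma V_top (hD : HasDual K) (g : MvPolynomial (Ray N) ℚ) : g ∈ ⨆ j, V K j := by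
  induction g using MvPolynomial.induction_on with
  | C a =>
    refine Submodule.mem_iSup_of_mem 0 ?_
    have := Submodule.smul_mem _ a (V_xs (K := K) ∅)
    simpa [xs, smul_eq_C_mul] using this
  | add p q hp hq => exact Submodule.add_mem _ hp hq
  | mul_X p ρ hp =>
    have : ⨆ j, V K j ≤ (⨆ j, V K j).comap (LinearMap.mulLeft ℚ (X ρ)) :=
      iSup_le fun j f hf => Submodule.mem_iSup_of_mem (j + 1) (V_X hD ρ f hf)
    rw [mul_comm]
    exact this hp

lemma move (h2 : ∀ σ ∈ K, ∀ τ ⊆ σ, τ ∈ K) (hD : HasDual K) (τ : Cone N) (k : ℕ) :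
    ∀ (j : ℕ) (σ : Cone N), (σ ∩ τ).card = j → σ ∈ K → σ.card = k →
      Finsupp.single σ (1 : ℚ) ∈ Finsupp.supported ℚ ℚ
        {σ | σ ∈ K ∧ σ.card = k ∧ (Disjoint σ τ ∨ σ ∪ τ ∉ K)} ⊔ Rel1 K := by
  classical
  intro j
  induction j using Nat.strong_induction_on with
  | _ j ih =>
  intro σ hj hσ hk
  by_cases hg : Disjoint σ τ ∨ σ ∪ τ ∉ K
  · exact Submodule.mem_sup_left (Finsupp.single_mem_supported _ _ ⟨hσ, hk, hg⟩)
  push Not at hg
  obtain ⟨ρ, r1, r2⟩ := not_disjoint_iff.mp hg.1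
  obtain ⟨m, m1, m2, m3⟩ := hD _ hg.2 ρ (mem_union_left _ r1)
  have k1 : rel1 K (σ.erase ρ) m ∈ Rel1 K := Submodule.subset_span
    ⟨_, h2 σ hσ _ (erase_subset _ _), m, m1, fun ρ' h =>
      m3 ρ' (mem_union_left _ (mem_of_mem_erase h)) (ne_of_mem_erase h), rfl⟩
  have k3 := Submodule.mem_sup_right (S := Finsupp.supported ℚ ℚ
    {σ | σ ∈ K ∧ σ.card = k ∧ (Disjoint σ τ ∨ σ ∪ τ ∉ K)}) k1
  rw [rel1, ← add_sum_erase _ _ (mem_univ ρ), insert_erase r1,
    if_pos ⟨notMem_erase _ _, hσ⟩, m2, Int.cast_one] at k3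
  refine (Submodule.add_mem_iff_left _ (Submodule.sum_mem _ fun ρ' h' => ?_)).mp k3
  split_ifs with hh
  swap
  · exact Submodule.zero_mem _
  by_cases e : ρ' ∈ τ
  · simp [m3 ρ' (mem_union_right _ e) (ne_of_mem_erase h')]
  · rw [← mul_one (pr m ρ' : ℚ), ← smul_eq_mul, ← Finsupp.smul_single]
    refine Submodule.smul_mem _ _ (ih _ ?_ _ rfl hh.2 ?_)
    · rw [insert_inter_of_notMem e, erase_inter, ← hj]
      exact card_erase_lt_of_mem (mem_inter.mpr ⟨r1, r2⟩)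
    · rw [card_insert_of_notMem hh.1, card_erase_add_one r1, hk]

/-- Product of the ramification indices. -/
def wt (σ : Cone N) : ℚ := ∏ ρ ∈ σ, (ee ρ : ℚ)

lemma wt_ne (σ : Cone N) : wt σ ≠ 0 := prod_ne_zero_iff.mpr fun ρ _ => by
  unfold ee; split_ifs <;> norm_num

/-- Scaling of the cones by their weights. -/
def xi : (Cone N →₀ ℚ) →ₗ[ℚ] (Cone N →₀ ℚ) :=
  Finsupp.linearCombination ℚ fun σ => Finsupp.single σ (wt σ)

lemma xi_single (σ : Cone N) (a : ℚ) : xi (Finsupp.single σ a) = Finsupp.single σ (wt σ * a) := by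
  simp [xi, mul_comm]

lemma xi_apply (c : Cone N →₀ ℚ) (σ : Cone N) : xi c σ = wt σ * c σ := by
  induction c using Finsupp.induction_linear with
  | zero => simp
  | add f g hf hg => simp [hf, hg, mul_add]
  | single τ a =>
    rw [xi_single]
    by_cases h : τ = σ
    · simp [h]
    · simp [h]

lemma xi_rel {c : Cone N →₀ ℚ} (h : c ∈ Rel1 K) : xi c ∈ Rel K := by
  have : Rel1 K ≤ (Rel K).comap xi := Submodule.span_le.mpr (by
    rintro _ ⟨τ, k1, m, k2, k3, rfl⟩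
    have : xi (rel1 K τ m) = wt τ • rel K τ m := by
      rw [rel1, rel, map_sum, smul_sum]
      refine sum_congr rfl fun ρ _ => ?_
      split_ifs with hh
      · rw [xi_single, wt, prod_insert hh.1, Finsupp.smul_single, smul_eq_mul, wt]
        congr 1
        ring
      · simp
    change xi _ ∈ Rel K
    rw [this]
    exact Submodule.smul_mem _ _ (Submodule.subset_span ⟨τ, k1, m, k2, k3, rfl⟩))
  exact this h

lemma xi_surj (c : Cone N →₀ ℚ) : ∃ c₁, xi c₁ = c := by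
  refine ⟨Finsupp.equivFunOnFinite.symm fun σ => (wt σ)⁻¹ * c σ, Finsupp.ext fun σ => ?_⟩
  rw [xi_apply]
  simp [wt_ne σ]

end FanA

open FanA Finset in
theorem fanMain (hI : FanInjStmt) (hP : FanPDStmt) : FanMainStmt := by
  classical
  intro n N K hn hN H k l c hkl hc hyp
  obtain ⟨h1, h2, -, -, -, -, h7, h8⟩ := fanBasic n N K _ hn hN H
  have hD := fanDual n N K _ hn hN H
  have hI' := hI N K h1 h2 hD
  obtain ⟨deg, d1, d2, d3⟩ := hP n N K _ hn hN H
  have w2 : ∀ σ ∈ K, σ.card = n → wt σ = 2 := fun σ hσ hcard => by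
    obtain ⟨o, ho⟩ := h8 σ hσ hcard
    rw [wt, prod_eq_single_of_mem _ ho fun ρ hρ hne => ?_]
    · simp [ee]
    · rw [ee, if_neg, Nat.cast_one]
      intro e
      obtain ⟨i, rfl⟩ := card_eq_one.mp e
      have hio : i ≠ o := fun e => hne (by rw [e])
      refine (h7 i o hio).mp (h2 σ hσ _ ?_) (by simp [hio])
      exact insert_subset hρ (singleton_subset_iff.mpr ho)
  obtain ⟨c₁, rfl⟩ := xi_surj c
  have hc₁ : ∀ σ, c₁ σ ≠ 0 → σ ∈ K ∧ σ.card = k := fun σ h =>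
    hc σ (by rw [xi_apply]; exact mul_ne_zero (wt_ne σ) h)
  refine xi_rel ((hI' c₁ fun σ h => (hc₁ σ h).1).mp (d2 _ fun g => ?_))
  set x := Finsupp.linearCombination ℚ (xs (N := N)) with hx
  have key : ∀ τ ∈ K, deg (x c₁ * xs τ) = 0 := by
    intro τ hτ
    by_cases hl : τ.card = l
    swap
    · have e1 : x c₁ ∈ V K k := by
        rw [hx, Finsupp.linearCombination_apply]
        exact Submodule.sum_mem _ fun σ hσ => Submodule.smul_mem _ _
          ((hc₁ σ (Finsupp.mem_support_iff.mp hσ)).2 ▸ V_xs σ)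
      rw [mul_comm]
      refine V_map deg ⊥ (fun σ _ hj => ?_) d1 _ (V_mul hD τ _ e1)
      rw [Submodule.mem_bot, d3, if_neg fun hh => by omega]
    have e1 : c₁ ∈ Finsupp.supported ℚ ℚ
        {σ | σ ∈ K ∧ σ.card = k ∧ (Disjoint σ τ ∨ σ ∪ τ ∉ K)} ⊔ Rel1 K := by
      rw [← Finsupp.sum_single c₁]
      refine Submodule.sum_mem _ fun σ hσ => ?_
      have hh := hc₁ σ (Finsupp.mem_support_iff.mp hσ)
      rw [← mul_one (c₁ σ), ← smul_eq_mul, ← Finsupp.smul_single]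
      exact Submodule.smul_mem _ _ (move h2 hD τ k _ σ rfl hh.1 hh.2)
    obtain ⟨c', e2, r, e3, e4⟩ := Submodule.mem_sup.mp e1
    have e5 : ∀ σ, c' σ ≠ 0 → σ ∈ K ∧ σ.card = k ∧ (Disjoint σ τ ∨ σ ∪ τ ∉ K) := fun σ h =>
      (Finsupp.mem_supported ℚ c').mp e2 (Finsupp.mem_support_iff.mpr h)
    have e6 : x r ∈ JJ K := (hI' r fun σ h => by
      by_contra hh
      have a1 : c₁ σ = 0 := by_contra fun a => hh (hc₁ σ a).1
      have a2 : c' σ = 0 := by_contra fun a => hh (e5 σ a).1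
      rw [← e4, Finsupp.add_apply, a2, zero_add] at a1
      exact h a1).mpr e3
    have e7 := hyp τ hτ hl (xi c') (fun σ h => e5 σ fun a => h (by rw [xi_apply, a, mul_zero]))
      (by rw [← map_sub, ← e4, add_sub_cancel_left]; exact xi_rel e3)
    rw [Finsupp.sum_fintype _ _ (by simp)] at e7
    rw [← e4, map_add, add_mul, map_add, d1 _ (Ideal.mul_mem_right _ _ e6), add_zero, hx,
      Finsupp.linearCombination_apply, Finsupp.sum_fintype _ _ (by simp), sum_mul, map_sum]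
    have e8 : ∀ σ, deg (c' σ • xs σ * xs τ) =
        wt τ / 2 * if σ ∪ τ ∈ K then xi c' σ else 0 := by
      intro σ
      rw [smul_mul_assoc, map_smul, smul_eq_mul, xi_apply]
      by_cases h0 : c' σ = 0
      · simp [h0]
      obtain ⟨-, a2, a3⟩ := e5 σ h0
      by_cases hK : σ ∪ τ ∈ K
      · have a4 : Disjoint σ τ := a3.resolve_right (not_not.mpr hK)
        have a5 : (σ ∪ τ).card = n := by rw [card_union_of_disjoint a4]; omega
        have a6 := w2 _ hK a5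
        rw [wt, prod_union a4] at a6
        change wt σ * wt τ = 2 at a6
        rw [if_pos hK, xs, xs, ← prod_union a4]
        change c' σ * deg (xs (σ ∪ τ)) = _
        rw [d3, if_pos ⟨hK, a5⟩]
        linear_combination (-(c' σ) / 2) * a6
      · have a4 : xs σ * xs τ = xs (σ ∪ τ) * xs (σ ∩ τ) := prod_union_inter.symm
        rw [if_neg hK, a4, d1 _ (Ideal.mul_mem_right _ _ (xs_mem hK))]
        simp
    rw [sum_congr rfl fun σ _ => e8 σ, ← mul_sum, e7, mul_zero]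
  have : ⨆ j, V K j ≤ LinearMap.ker (deg ∘ₗ LinearMap.mulLeft ℚ (x c₁)) :=
    iSup_le fun j f hf => V_map (deg ∘ₗ LinearMap.mulLeft ℚ (x c₁)) ⊥ (fun σ hσ _ => key σ hσ)
      (fun f hf => d1 _ (Ideal.mul_mem_left _ _ hf)) f hf
  exact this (V_top hD g)

end Pool.Agent.Lib.MP_2c79a0_ag
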