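import Pool.Agent.Lib.MP_2c79a0_ag.Geo

/-!
The Chow group given by cones and relations embeds in the Chow ring: multiplication operators on
the quotient by the relations.
-/

noncomputable section

namespace Pool.Agent.Lib.MP_2c79a0_ag

namespace FanInj

section Abstract

variable {ι : Type} [Fintype ι] [DecidableEq ι] {M : Type} [AddCommGroup M]

/-- The sum over the rays outside a cone. -/
def ex (e : Finset ι → M) (a : ι → ℤ) (σ : Finset ι) : M :=
  ∑ ρ, if ρ ∈ σ then 0 else a ρ • e (insert ρ σ)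

theorem ex_sub (e : Finset ι → M) (a b : ι → ℤ) (σ : Finset ι) :
    ex e (a - b) σ = ex e a σ - ex e b σ := by
  unfold ex
  rw [← Finset.sum_sub_distrib]
  refine Finset.sum_congr rfl fun ρ _ => ?_
  split_ifs
  · simp
  · simp [sub_smul]

theorem ex_smul (e : Finset ι → M) (c : ℤ) (a : ι → ℤ) (σ : Finset ι) :
    ex e (c • a) σ = c • ex e a σ := by
  unfold ex
  rw [Finset.smul_sum]
  refine Finset.sum_congr rfl fun ρ _ => ?_
  split_ifs
  · simp
  · simp [mul_smul]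

theorem ex_eq_zero {e : Finset ι → M} {σ : Finset ι} (a : ι → ℤ)
    (h : ∀ ρ, e (insert ρ σ) = 0) : ex e a σ = 0 := by
  unfold ex
  refine Finset.sum_eq_zero fun ρ _ => ?_
  rw [h ρ]
  simp

/-- The data on which the operators are built. -/
structure Good (K : Set (Finset ι)) (L : Submodule ℤ (ι → ℤ)) (e : Finset ι → M) : Prop where
  down : ∀ σ ∈ K, ∀ τ ⊆ σ, τ ∈ K
  dual : ∀ σ ∈ K, ∀ a : ι → ℤ, ∃ l ∈ L, ∀ ρ ∈ σ, l ρ = a ρ
  e0 : ∀ σ, σ ∉ K → e σ = 0
  rel : ∀ σ, ∀ l ∈ L, (∀ ρ ∈ σ, l ρ = 0) → ex e l σ = 0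

open Classical in
/-- The product of the linear form `a` with the class of the cone `σ`. -/
def tt (L : Submodule ℤ (ι → ℤ)) (e : Finset ι → M) (a : ι → ℤ) (σ : Finset ι) : M :=
  if h : ∃ l ∈ L, ∀ ρ ∈ σ, l ρ = a ρ then ex e (a - h.choose) σ else 0

variable {K : Set (Finset ι)} {L : Submodule ℤ (ι → ℤ)} {e : Finset ι → M}

theorem Good.ex_not (h : Good K L e) {σ : Finset ι} (hσ : σ ∉ K) (a : ι → ℤ) : ex e a σ = 0 :=
  ex_eq_zero a fun ρ => h.e0 _ fun hK => hσ (h.down _ hK _ (Finset.subset_insert ρ σ))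

theorem Good.tt_not (h : Good K L e) {σ : Finset ι} (hσ : σ ∉ K) (a : ι → ℤ) :
    tt L e a σ = 0 := by
  unfold tt
  split_ifs
  · exact h.ex_not hσ _
  · rfl

theorem Good.tt_spec (h : Good K L e) {σ : Finset ι} {a l : ι → ℤ} (hl : l ∈ L)
    (hla : ∀ ρ ∈ σ, l ρ = a ρ) : tt L e a σ = ex e (a - l) σ := by
  have h0 : ∃ l ∈ L, ∀ ρ ∈ σ, l ρ = a ρ := ⟨l, hl, hla⟩
  unfold tt
  rw [dif_pos h0]
  obtain ⟨h1, h2⟩ := h0.choose_spec
  have h3 := h.rel σ (h0.choose - l) (L.sub_mem h1 hl) fun ρ hρ => by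
    rw [Pi.sub_apply, h2 ρ hρ, hla ρ hρ, sub_self]
  rw [ex_sub] at h3
  rw [ex_sub, ex_sub, sub_eq_zero.mp h3]

theorem Good.tt_sub (h : Good K L e) (a : ι → ℤ) {l : ι → ℤ} (hl : l ∈ L) :
    tt L e (a - l) = tt L e a := by
  funext σ
  by_cases hσ : σ ∈ K
  · obtain ⟨l', h1, h2⟩ := h.dual σ hσ a
    rw [h.tt_spec h1 h2, h.tt_spec (L.sub_mem h1 hl) fun ρ hρ => by
      rw [Pi.sub_apply, Pi.sub_apply, h2 ρ hρ], sub_sub_sub_cancel_right]
  · rw [h.tt_not hσ, h.tt_not hσ]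

theorem Good.tt_mem (h : Good K L e) {l : ι → ℤ} (hl : l ∈ L) (σ : Finset ι) :
    tt L e l σ = 0 := by
  rw [h.tt_spec hl fun _ _ => rfl, ex_sub, sub_self]

theorem Good.tt_insert (h : Good K L e) (σ : Finset ι) (ρ : ι) :
    ∃ u : M, ρ ∉ σ → ∀ a : ι → ℤ, (∀ ρ' ∈ σ, a ρ' = 0) →
      tt L e a (insert ρ σ) = ex e a (insert ρ σ) + a ρ • u := by
  by_cases hσ : insert ρ σ ∈ K
  · obtain ⟨ν, h1, h2⟩ := h.dual _ hσ (Pi.single ρ 1)
    refine ⟨-ex e ν (insert ρ σ), fun hρ a ha => ?_⟩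
    rw [h.tt_spec (L.smul_mem (a ρ) h1), ex_sub, ex_smul, smul_neg, sub_eq_add_neg]
    intro ρ' hρ'
    rw [Pi.smul_apply, h2 ρ' hρ', smul_eq_mul]
    rcases Finset.mem_insert.mp hρ' with rfl | h3
    · simp
    · have h4 : ρ' ≠ ρ := fun h5 => hρ (h5 ▸ h3)
      rw [Pi.single_eq_of_ne h4, ha ρ' h3, mul_zero]
  · exact ⟨0, fun _ a _ => by rw [h.tt_not hσ, h.ex_not hσ, smul_zero, add_zero]⟩

theorem Good.symm0 (h : Good K L e) (σ : Finset ι) {a b : ι → ℤ} (ha : ∀ ρ ∈ σ, a ρ = 0)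
    (hb : ∀ ρ ∈ σ, b ρ = 0) : ex (tt L e a) b σ = ex (tt L e b) a σ := by
  choose u hu using h.tt_insert σ
  have key : ∀ a b : ι → ℤ, (∀ ρ ∈ σ, a ρ = 0) → ex (tt L e a) b σ =
      (∑ ρ, ∑ ρ', if ρ ∈ σ ∨ ρ' ∈ σ ∨ ρ' = ρ then 0
        else (b ρ * a ρ') • e (insert ρ' (insert ρ σ))) +
      ∑ ρ, if ρ ∈ σ then 0 else (b ρ * a ρ) • u ρ := by
    intro a b ha
    rw [← Finset.sum_add_distrib]
    unfold ex
    refine Finset.sum_congr rfl fun ρ _ => ?_
    by_cases hρ : ρ ∈ σ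
    · simp [hρ]
    · rw [if_neg hρ, if_neg hρ, hu ρ hρ a ha, smul_add, mul_smul]
      congr 1
      unfold ex
      rw [Finset.smul_sum]
      refine Finset.sum_congr rfl fun ρ' _ => ?_
      by_cases h1 : ρ' ∈ insert ρ σ
      · rw [if_pos h1, if_pos, smul_zero]
        rcases Finset.mem_insert.mp h1 with h2 | h2
        · exact Or.inr (Or.inr h2)
        · exact Or.inr (Or.inl h2)
      · rw [if_neg h1, if_neg, mul_smul]
        rintro (h2 | h2 | h2)
        · exact hρ h2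
        · exact h1 (Finset.mem_insert_of_mem h2)
        · exact h1 (h2 ▸ Finset.mem_insert_self _ _)
  rw [key a b ha, key b a hb, Finset.sum_comm]
  congr 1
  · refine Finset.sum_congr rfl fun ρ _ => Finset.sum_congr rfl fun ρ' _ => ?_
    rw [Finset.insert_comm, mul_comm]
    refine if_congr ?_ rfl rfl
    constructor
    · rintro (h1 | h1 | h1)
      · exact Or.inr (Or.inl h1)
      · exact Or.inl h1
      · exact Or.inr (Or.inr h1.symm)
    · rintro (h1 | h1 | h1)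
      · exact Or.inr (Or.inl h1)
      · exact Or.inl h1
      · exact Or.inr (Or.inr h1.symm)
  · refine Finset.sum_congr rfl fun ρ _ => ?_
    rw [mul_comm]

theorem Good.tt_rel (h : Good K L e) (a : ι → ℤ) (σ : Finset ι) {l : ι → ℤ} (hl : l ∈ L)
    (h0 : ∀ ρ ∈ σ, l ρ = 0) : ex (tt L e a) l σ = 0 := by
  by_cases hσ : σ ∈ K
  · obtain ⟨la, h1, h2⟩ := h.dual σ hσ a
    rw [← h.tt_sub a h1, h.symm0 σ (fun ρ hρ => by rw [Pi.sub_apply, h2 ρ hρ, sub_self]) h0]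
    exact ex_eq_zero _ fun ρ => h.tt_mem hl _
  · exact ex_eq_zero _ fun ρ => h.tt_not
      (fun hK => hσ (h.down _ hK _ (Finset.subset_insert ρ σ))) a

theorem Good.comm (h : Good K L e) (T : (ι → ℤ) → M →+ M)
    (hT : ∀ a σ, T a (e σ) = tt L e a σ) (a b : ι → ℤ) (σ : Finset ι) :
    T a (tt L e b σ) = T b (tt L e a σ) := by
  have hex : ∀ a b : ι → ℤ, T a (ex e b σ) = ex (tt L e a) b σ := by
    intro a b
    unfold ex
    rw [map_sum]
    refine Finset.sum_congr rfl fun ρ _ => ?_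
    split_ifs
    · exact map_zero _
    · rw [map_zsmul, hT]
  by_cases hσ : σ ∈ K
  · obtain ⟨la, h1, h2⟩ := h.dual σ hσ a
    obtain ⟨lb, h3, h4⟩ := h.dual σ hσ b
    rw [h.tt_spec h1 h2, h.tt_spec h3 h4, hex, hex, ← h.tt_sub a h1, ← h.tt_sub b h3]
    exact h.symm0 σ (fun ρ hρ => by rw [Pi.sub_apply, h2 ρ hρ, sub_self])
      (fun ρ hρ => by rw [Pi.sub_apply, h4 ρ hρ, sub_self])
  · rw [h.tt_not hσ, h.tt_not hσ, map_zero, map_zero]

end Abstract

open scoped IsMulCommutative in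
theorem exists_algHom {ι A : Type} [Ring A] [Algebra ℚ A] (T : ι → A)
    (hT : ∀ i j, T i * T j = T j * T i) :
    ∃ Φ : MvPolynomial ι ℚ →ₐ[ℚ] A, ∀ i, Φ (MvPolynomial.X i) = T i := by
  have hc : IsMulCommutative (Algebra.adjoin ℚ (Set.range T)) :=
    Algebra.isMulCommutative_adjoin ℚ (by
      rintro _ ⟨i, rfl⟩ _ ⟨j, rfl⟩
      exact hT i j)
  refine ⟨(Algebra.adjoin ℚ (Set.range T)).val.comp (MvPolynomial.aeval fun i =>
    (⟨T i, Algebra.subset_adjoin ⟨i, rfl⟩⟩ : Algebra.adjoin ℚ (Set.range T))), fun i => ?_⟩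
  simp

variable {N : ℕ}

/-- The values of the characters of degree zero. -/
def LL (N : ℕ) : Submodule ℤ (Ray N → ℤ) where
  carrier := {l | ∃ m : Fin N → ℤ, ∑ i, m i = 0 ∧ l = pr m}
  add_mem' := by
    rintro _ _ ⟨m, hm, rfl⟩ ⟨m', hm', rfl⟩
    refine ⟨m + m', by simp [Finset.sum_add_distrib, hm, hm'], ?_⟩
    funext ρ
    simp [pr, Finset.sum_add_distrib]
  zero_mem' := ⟨0, by simp, by funext ρ; simp [pr]⟩
  smul_mem' := by
    rintro c _ ⟨m, hm, rfl⟩
    refine ⟨c • m, by simp [← Finset.mul_sum, hm], ?_⟩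
    funext ρ
    simp [pr, Finset.mul_sum]

open Classical in
/-- The class of a cone, zero outside the complex. -/
def ec (K : Set (Cone N)) (σ : Cone N) : (Cone N →₀ ℚ) ⧸ Rel1 K :=
  if σ ∈ K then (Rel1 K).mkQ (Finsupp.single σ 1) else 0

theorem lc_rel1 {K : Set (Cone N)} {M : Type} [AddCommGroup M] [Module ℚ M] (f : Cone N → M)
    (hf : ∀ σ, σ ∉ K → f σ = 0) (τ : Cone N) (m : Fin N → ℤ) :
    Finsupp.linearCombination ℚ f (rel1 K τ m) = ex f (pr m) τ := by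
  unfold rel1 ex
  rw [map_sum]
  refine Finset.sum_congr rfl fun ρ _ => ?_
  by_cases h1 : ρ ∈ τ
  · rw [if_pos h1, if_neg fun h => h.1 h1, map_zero]
  · by_cases h2 : insert ρ τ ∈ K
    · rw [if_neg h1, if_pos ⟨h1, h2⟩, Finsupp.linearCombination_single, Int.cast_smul_eq_zsmul]
    · rw [if_neg h1, if_neg fun h => h2 h.2, map_zero, hf _ h2, smul_zero]

theorem lc_ec {K : Set (Cone N)} (c : Cone N →₀ ℚ) (hc : ∀ σ, c σ ≠ 0 → σ ∈ K) :
    Finsupp.linearCombination ℚ (ec K) c = (Rel1 K).mkQ c := by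
  conv_rhs => rw [← Finsupp.sum_single c]
  rw [Finsupp.linearCombination_apply, Finsupp.sum, Finsupp.sum, map_sum]
  refine Finset.sum_congr rfl fun σ hσ => ?_
  unfold ec
  rw [if_pos (hc σ (Finsupp.mem_support_iff.mp hσ)), ← map_smul, Finsupp.smul_single,
    smul_eq_mul, mul_one]

theorem rel1_supp (K : Set (Cone N)) (τ : Cone N) (m : Fin N → ℤ) (σ : Cone N)
    (h : rel1 K τ m σ ≠ 0) : σ ∈ K := by
  by_contra hσ
  apply h
  unfold rel1
  rw [Finsupp.finsetSum_apply]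
  refine Finset.sum_eq_zero fun ρ _ => ?_
  split_ifs with h1
  · exact Finsupp.single_eq_of_ne fun h2 => hσ (h2 ▸ h1.2)
  · rfl

theorem good {K : Set (Cone N)} (hd : ∀ σ ∈ K, ∀ τ ⊆ σ, τ ∈ K) (hD : HasDual K) :
    Good K (LL N) (ec K) where
  down := hd
  dual := by
    intro σ hσ a
    choose! m hm using hD σ hσ
    refine ⟨∑ ρ ∈ σ, a ρ • pr (m ρ), Submodule.sum_mem _ fun ρ hρ =>
      Submodule.smul_mem _ _ ⟨m ρ, (hm ρ hρ).1, rfl⟩, fun ρ hρ => ?_⟩
    rw [Finset.sum_apply, Finset.sum_eq_single ρ]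
    · rw [Pi.smul_apply, (hm ρ hρ).2.1, smul_eq_mul, mul_one]
    · intro ρ' hρ' hne
      rw [Pi.smul_apply, (hm ρ' hρ').2.2 ρ hρ hne.symm, smul_zero]
    · exact fun h => absurd hρ h
  e0 := fun σ hσ => if_neg hσ
  rel := by
    rintro σ _ ⟨m, hm, rfl⟩ h0
    by_cases hσ : σ ∈ K
    · rw [← lc_rel1 (K := K) (ec K) (fun σ hσ => if_neg hσ), lc_ec _ (rel1_supp K σ m),
        Submodule.mkQ_apply, Submodule.Quotient.mk_eq_zero]
      exact Submodule.subset_span ⟨σ, hσ, m, hm, h0, rfl⟩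
    · exact ex_eq_zero _ fun ρ => if_neg fun hK => hσ (hd _ hK _ (Finset.subset_insert ρ σ))

theorem back (K : Set (Cone N)) (c : Cone N →₀ ℚ) (hc : c ∈ Rel1 K) :
    Finsupp.linearCombination ℚ xs c ∈ JJ K := by
  have hle : Rel1 K ≤ ((JJ K).restrictScalars ℚ).comap (Finsupp.linearCombination ℚ xs) := by
    refine Submodule.span_le.mpr ?_
    rintro _ ⟨τ, -, m, hm, h0, rfl⟩
    change Finsupp.linearCombination ℚ xs (rel1 K τ m) ∈ JJ K
    have h1 : linf m * xs τ ∈ JJ K :=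
      Ideal.mul_mem_right _ _ (Ideal.subset_span (Or.inr ⟨m, hm, rfl⟩))
    refine (Submodule.sub_mem_iff_right _ h1).mp ?_
    unfold linf rel1
    rw [Finset.sum_mul, map_sum, ← Finset.sum_sub_distrib]
    refine Submodule.sum_mem _ fun ρ _ => ?_
    by_cases h2 : ρ ∈ τ
    · rw [if_neg fun h => h.1 h2, h0 ρ h2]
      simp
    · have h3 : MvPolynomial.X ρ * xs τ = xs (insert ρ τ) := by
        unfold xs
        rw [Finset.prod_insert h2]
      rw [mul_assoc, h3]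
      by_cases h4 : insert ρ τ ∈ K
      · rw [if_pos ⟨h2, h4⟩, Finsupp.linearCombination_single, MvPolynomial.smul_eq_C_mul,
          sub_self]
        exact Submodule.zero_mem _
      · rw [if_neg fun h => h4 h.2, map_zero, sub_zero]
        exact Ideal.mul_mem_left _ _ (Ideal.subset_span (Or.inl ⟨_, h4, rfl⟩))
  exact hle hc

theorem forth {K : Set (Cone N)} (hd : ∀ σ ∈ K, ∀ τ ⊆ σ, τ ∈ K) (hD : HasDual K)
    (c : Cone N →₀ ℚ) (hc : ∀ σ, c σ ≠ 0 → σ ∈ K)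
    (h : Finsupp.linearCombination ℚ xs c ∈ JJ K) : c ∈ Rel1 K := by
  have hg := good hd hD
  have hker : ∀ a : Ray N → ℤ,
      Rel1 K ≤ LinearMap.ker (Finsupp.linearCombination ℚ (tt (LL N) (ec K) a)) := by
    intro a
    refine Submodule.span_le.mpr ?_
    rintro _ ⟨τ, -, m, hm, h0, rfl⟩
    change Finsupp.linearCombination ℚ (tt (LL N) (ec K) a) (rel1 K τ m) = 0
    rw [lc_rel1 (K := K) _ fun σ hσ => hg.tt_not hσ a]
    exact hg.tt_rel a τ ⟨m, hm, rfl⟩ h0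
  obtain ⟨T, hT⟩ : ∃ T : (Ray N → ℤ) → Module.End ℚ ((Cone N →₀ ℚ) ⧸ Rel1 K),
      ∀ a σ, T a ((Rel1 K).mkQ (Finsupp.single σ 1)) = tt (LL N) (ec K) a σ :=
    ⟨fun a => (Rel1 K).liftQ _ (hker a), fun a σ => by
      rw [Submodule.mkQ_apply, Submodule.liftQ_apply, Finsupp.linearCombination_single,
        one_smul]⟩
  have hT' : ∀ a σ, T a (ec K σ) = tt (LL N) (ec K) a σ := by
    intro a σ
    by_cases hσ : σ ∈ K
    · rw [← hT]
      unfold ec
      rw [if_pos hσ]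
    · rw [hg.e0 σ hσ, hg.tt_not hσ, map_zero]
  have hcomm : ∀ a b, T a * T b = T b * T a := by
    intro a b
    refine Submodule.linearMap_qext _ (Finsupp.lhom_ext' fun σ => LinearMap.ext_ring ?_)
    change T a (T b ((Rel1 K).mkQ (Finsupp.single σ 1))) =
      T b (T a ((Rel1 K).mkQ (Finsupp.single σ 1)))
    rw [hT, hT]
    exact hg.comm (fun a => (T a).toAddMonoidHom) hT' a b σ
  obtain ⟨Φ, hΦ⟩ := exists_algHom (fun ρ : Ray N => T (Pi.single ρ 1)) fun i j => hcomm _ _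
  have hX : ∀ (ρ : Ray N) (σ : Cone N), ρ ∉ σ →
      Φ (MvPolynomial.X ρ) (ec K σ) = ec K (insert ρ σ) := by
    intro ρ σ hρ
    rw [hΦ, hT', hg.tt_spec (LL N).zero_mem fun ρ' hρ' => by
      rw [Pi.zero_apply, Pi.single_eq_of_ne fun h5 : ρ' = ρ => hρ (h5 ▸ hρ')], sub_zero]
    unfold ex
    rw [Finset.sum_eq_single ρ]
    · rw [if_neg hρ, Pi.single_eq_same, one_smul]
    · intro ρ' _ hne
      rw [Pi.single_eq_of_ne hne, zero_smul, ite_self]
    · exact fun h => absurd (Finset.mem_univ _) h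
  have hxs : ∀ σ : Cone N, Φ (xs σ) (ec K ∅) = ec K σ := by
    intro σ
    induction σ using Finset.induction_on with
    | empty => simp [xs]
    | insert ρ σ hρ ih =>
      have h3 : xs (insert ρ σ) = MvPolynomial.X ρ * xs σ := by
        unfold xs
        rw [Finset.prod_insert hρ]
      rw [h3, map_mul, Module.End.mul_apply, ih, hX ρ σ hρ]
  have hJ : ∀ f ∈ JJ K, Φ f (ec K ∅) = 0 := by
    intro f hf
    induction hf using Submodule.span_induction with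
    | mem f hf =>
      rcases hf with ⟨σ, hσ, rfl⟩ | ⟨m, hm, rfl⟩
      · rw [hxs, hg.e0 σ hσ]
      · rw [← hg.rel ∅ (pr m) ⟨m, hm, rfl⟩ (by simp)]
        unfold linf ex
        rw [map_sum, LinearMap.sum_apply]
        refine Finset.sum_congr rfl fun ρ _ => ?_
        rw [← MvPolynomial.smul_eq_C_mul, map_smul, LinearMap.smul_apply,
          hX ρ ∅ (Finset.notMem_empty ρ), if_neg (Finset.notMem_empty ρ), Int.cast_smul_eq_zsmul]
    | zero => simp
    | add f g _ _ h1 h2 => rw [map_add, LinearMap.add_apply, h1, h2, add_zero]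
    | smul g f _ h1 => rw [smul_eq_mul, map_mul, Module.End.mul_apply, h1, map_zero]
  have h1 := hJ _ h
  have h2 : Φ (Finsupp.linearCombination ℚ xs c) (ec K ∅) =
      Finsupp.linearCombination ℚ (ec K) c := by
    rw [Finsupp.linearCombination_apply, Finsupp.linearCombination_apply, Finsupp.sum,
      Finsupp.sum, map_sum, LinearMap.sum_apply]
    refine Finset.sum_congr rfl fun σ _ => ?_
    rw [map_smul, LinearMap.smul_apply, hxs]
  rw [h2, lc_ec c hc, Submodule.mkQ_apply, Submodule.Quotient.mk_eq_zero] at h1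
  exact h1

end FanInj

theorem fanInj : FanInjStmt := fun _ K _ hd hD c hc =>
  ⟨FanInj.forth hd hD c hc, FanInj.back K c⟩

end Pool.Agent.Lib.MP_2c79a0_ag
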