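import Pool.Agent.Lib.MP_2c79a0_ag.FanPDB

/-!
Poincare duality for the Chow rings of the fans: the induction step and the conclusion.
-/

open MvPolynomial

noncomputable section

namespace Pool.Agent.Lib.MP_2c79a0_ag

namespace FanPD

variable {N : ℕ}

namespace Setup

variable {K K' : Set (Cone N)} {a b s : Ray N} (D : Setup K K' a b s)

include D in
lemma mem_of_not_s {σ : Cone N} (hs : s ∉ σ) (h : σ ∈ K') : σ ∈ K := by
  rcases ((D.mem σ).mp h).2 with h | h
  · exact h.2
  · exact absurd h.1 hs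

include D in
lemma mem_of_s {σ τ : Cone N} (hs : s ∈ σ) (h : σ ∈ K')
    (hτ : τ ⊆ insert a (insert b (σ.erase s))) : τ ∈ K := by
  rcases ((D.mem σ).mp h).2 with h | h
  · exact absurd hs h.1
  · exact D.down _ h.2 τ hτ

include D in
lemma notMem_of_ab {σ : Cone N} (ha : a ∈ σ) (hb : b ∈ σ) : σ ∉ K' :=
  fun h => ((D.mem σ).mp h).1 ⟨ha, hb⟩

include D in
lemma ab_mem (τ : Cone N) : (X a * X b : PP N) ∈ JJ (St K' τ) := by
  have : xs ({a, b} : Cone N) = X a * X b := by
    rw [xs_insert (by simpa using D.ab), xs_singleton]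
  rw [← this]
  exact xs_mem (D.notMem_of_ab (by simp) (by simp))

include D in
lemma b_mem {τ : Cone N} (h : a ∈ τ) : (X b : PP N) ∈ JJ (St K' τ) := by
  rw [← xs_singleton]
  exact xs_mem (D.notMem_of_ab (by simp [h]) (by simp))

lemma φ_xs_of_s {σ : Cone N} (h : s ∈ σ) : D.φ (xs σ) = 0 := by
  rw [xs, map_prod]
  exact Finset.prod_eq_zero h D.φs

lemma φ_xs {σ : Cone N} (h : s ∉ σ) :
    ∃ c, D.φ (xs σ) = xs σ + X s * xs ((σ.erase a).erase b) * c := by
  set σ0 := (σ.erase a).erase b with h0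
  have hf : Free a b s σ0 := by simp [Free, h0, h]
  have e0 := (D.free_xs hf).1
  have eb : b ∈ σ → σ.erase a = insert b σ0 := fun hb => by
    rw [h0, Finset.insert_erase (by simp [hb, D.ab.symm])]
  have eb' : b ∉ σ → σ.erase a = σ0 := fun hb => by
    rw [h0, Finset.erase_eq_of_notMem (s := σ.erase a) (by simp [hb])]
  have ea : a ∈ σ → xs σ = X a * xs (σ.erase a) := fun ha => by
    rw [← xs_insert (Finset.notMem_erase a σ), Finset.insert_erase ha]
  have ea' : a ∉ σ → xs σ = xs (σ.erase a) := fun ha => by rw [Finset.erase_eq_of_notMem ha]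
  by_cases ha : a ∈ σ <;> by_cases hb : b ∈ σ
  · rw [ea ha, eb hb, xs_insert hf.2.1, map_mul, map_mul, e0, D.φa, D.φb]
    exact ⟨X a + X b + X s, by ring⟩
  · rw [ea ha, eb' hb, map_mul, e0, D.φa]
    exact ⟨1, by ring⟩
  · rw [ea' ha, eb hb, xs_insert hf.2.1, map_mul, e0, D.φb]
    exact ⟨1, by ring⟩
  · rw [ea' ha, eb' hb, e0]
    exact ⟨0, by ring⟩

/-- Pull-back on the star of an old cone. -/
lemma φ_mem_old {τ : Cone N} (hτ : s ∉ τ) {f : PP N} (hf : f ∈ JJ (St K τ)) :
    D.φ f ∈ JJ (St K' τ) := by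
  have : JJ (St K τ) ≤ (JJ (St K' τ)).comap D.φ := by
    refine JJ_le (fun σ hσ => ?_) fun m hm => ?_
    · rw [Ideal.mem_comap]
      by_cases hs : s ∈ σ
      · rw [D.φ_xs_of_s hs]; exact Ideal.zero_mem _
      obtain ⟨c, hc⟩ := D.φ_xs hs
      rw [hc]
      refine Ideal.add_mem _ (xs_mem fun h => hσ ?_) (Ideal.mul_mem_right _ _ ?_)
      · exact D.mem_of_not_s (by simp [hs, hτ]) h
      · rw [← xs_insert (by simp [hs])]
        refine xs_mem fun h => hσ (D.mem_of_s (by simp) h fun ρ hρ => ?_)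
        have : ρ ≠ s := by rintro rfl; simp [hs, hτ] at hρ
        simp only [Finset.mem_union, Finset.mem_insert, Finset.mem_erase] at hρ ⊢
        tauto
    · rw [Ideal.mem_comap, D.φ_linf]; exact linf_mem _ hm
  exact this hf

/-- Pull-back on the star of a new cone. -/
lemma φ_mem_new {τ : Cone N} (hτ : s ∉ τ) {f : PP N}
    (hf : f ∈ JJ (St K (insert a (insert b τ)))) : D.φ f ∈ JJ (St K' (insert s τ)) := by
  have : JJ (St K (insert a (insert b τ))) ≤ (JJ (St K' (insert s τ))).comap D.φ := by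
    refine JJ_le (fun σ hσ => ?_) fun m hm => ?_
    · rw [Ideal.mem_comap]
      by_cases hs : s ∈ σ
      · rw [D.φ_xs_of_s hs]; exact Ideal.zero_mem _
      obtain ⟨c, hc⟩ := D.φ_xs hs
      have h0 : xs ((σ.erase a).erase b) ∈ JJ (St K' (insert s τ)) := by
        refine xs_mem fun h => hσ (D.mem_of_s (by simp) h fun ρ hρ => ?_)
        have : ρ ≠ s := by rintro rfl; simp [hs, hτ, D.as.symm, D.bs.symm] at hρ
        simp only [Finset.mem_union, Finset.mem_insert, Finset.mem_erase] at hρ ⊢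
        tauto
      rw [hc]
      refine Ideal.add_mem _ (Ideal.mem_of_dvd _ (xs_dvd ?_) h0)
        (Ideal.mul_mem_right _ _ (Ideal.mul_mem_left _ _ h0))
      exact (Finset.erase_subset _ _).trans (Finset.erase_subset _ _)
    · rw [Ideal.mem_comap, D.φ_linf]; exact linf_mem _ hm
  exact this hf

lemma re_a (f : PP N) : D.re (X a * f) = X a * (D.re f + X b * D.im f) := by
  rw [D.re_mul, D.rea, D.ima]; ring

lemma im_a (f : PP N) : D.im (X a * f) = -(D.re f + X b * D.im f) := by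
  rw [D.im_mul, D.rea, D.ima]; ring

lemma re_s (f : PP N) : D.re (X s * f) = -(X a * X b * D.im f) := by
  rw [D.re_mul, D.res, D.ims]; ring

lemma im_s (f : PP N) : D.im (X s * f) = D.re f + (X a + X b) * D.im f := by
  rw [D.im_mul, D.res, D.ims]; ring

include D in
lemma xs_ab {σ : Cone N} (h : Free a b s σ) :
    xs (insert a (insert b σ)) = X a * X b * xs σ := by
  rw [xs_insert (by simp [D.ab, h.1]), xs_insert h.2.1, mul_assoc]

include D in
lemma xs_sa {σ : Cone N} (h : Free a b s σ) :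
    xs (insert s (insert a σ)) = X s * (X a * xs σ) := by
  rw [xs_insert (by simp [D.as.symm, h.2.2]), xs_insert h.1]

include D in
lemma cone_cases (σ : Cone N) : (a ∈ σ ∧ b ∈ σ) ∨ ∃ σ0, Free a b s σ0 ∧
    (σ = σ0 ∨ σ = insert a σ0 ∨ σ = insert b σ0 ∨ σ = insert s σ0 ∨
      σ = insert s (insert a σ0) ∨ σ = insert s (insert b σ0)) := by
  by_cases hab : a ∈ σ ∧ b ∈ σ
  · exact Or.inl hab
  refine Or.inr ⟨((σ.erase s).erase a).erase b, by simp [Free], ?_⟩
  have h1 := D.ab
  have h2 := D.as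
  have h3 := D.bs
  by_cases ha : a ∈ σ <;> by_cases hb : b ∈ σ <;> by_cases hs : s ∈ σ
  · exact absurd ⟨ha, hb⟩ hab
  · exact absurd ⟨ha, hb⟩ hab
  · refine Or.inr (Or.inr (Or.inr (Or.inr (Or.inl ?_))))
    ext ρ; simp only [Finset.mem_insert, Finset.mem_erase]; grind
  · refine Or.inr (Or.inl ?_)
    ext ρ; simp only [Finset.mem_insert, Finset.mem_erase]; grind
  · refine Or.inr (Or.inr (Or.inr (Or.inr (Or.inr ?_))))
    ext ρ; simp only [Finset.mem_insert, Finset.mem_erase]; grind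
  · refine Or.inr (Or.inr (Or.inl ?_))
    ext ρ; simp only [Finset.mem_insert, Finset.mem_erase]; grind
  · refine Or.inr (Or.inr (Or.inr (Or.inl ?_)))
    ext ρ; simp only [Finset.mem_insert, Finset.mem_erase]; grind
  · refine Or.inl ?_
    ext ρ; simp only [Finset.mem_erase]; grind

lemma Free.symm {σ : Cone N} (h : Free a b s σ) : Free b a s σ := ⟨h.2.1, h.1, h.2.2⟩

include D in
lemma mem_free {σ : Cone N} (h : Free a b s σ) : σ ∈ K' ↔ σ ∈ K := by
  rw [D.mem]; simp [h.1, h.2.2]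

include D in
lemma mem_a {σ : Cone N} (h : Free a b s σ) : insert a σ ∈ K' ↔ insert a σ ∈ K := by
  rw [D.mem]; simp [h.2.1, h.2.2, D.ab.symm, D.as.symm]

include D in
lemma mem_s {σ : Cone N} (h : Free a b s σ) : insert s σ ∈ K' ↔ insert a (insert b σ) ∈ K := by
  rw [D.mem]; simp [h.1, h.2.2, D.as, Finset.erase_insert h.2.2]

include D in
lemma mem_sa {σ : Cone N} (h : Free a b s σ) :
    insert s (insert a σ) ∈ K' ↔ insert a (insert b σ) ∈ K := by
  have e : (insert s (insert a σ)).erase s = insert a σ :=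
    Finset.erase_insert (by simp [h.2.2, D.as.symm])
  have e' : insert a (insert b (insert a σ)) = insert a (insert b σ) := by
    rw [Finset.insert_comm b a, Finset.insert_idem]
  rw [D.mem, e, e']; simp [h.2.1, D.ab.symm, D.bs]

/-- The ideal cut out by the two components. -/
def II : Ideal (PP N) where
  carrier := {f | D.re f ∈ JJ K ∧ X a * X b * D.im f ∈ JJ K}
  add_mem' := fun {f g} hf hg => by
    simp only [Set.mem_ofPred_eq, map_add, mul_add]
    exact ⟨Ideal.add_mem _ hf.1 hg.1, Ideal.add_mem _ hf.2 hg.2⟩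
  zero_mem' := by simp
  smul_mem' := fun c f hf => by
    simp only [Set.mem_ofPred_eq, smul_eq_mul]
    constructor
    · have : D.re (c * f) = D.re c * D.re f + -D.im c * (X a * X b * D.im f) := by
        rw [D.re_mul]; ring
      rw [this]
      exact Ideal.add_mem _ (Ideal.mul_mem_left _ _ hf.1) (Ideal.mul_mem_left _ _ hf.2)
    · have : X a * X b * D.im (c * f) = (X a * X b * D.im c) * D.re f +
          (D.re c + (X a + X b) * D.im c) * (X a * X b * D.im f) := by
        rw [D.im_mul]; ring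
      rw [this]
      exact Ideal.add_mem _ (Ideal.mul_mem_left _ _ hf.1) (Ideal.mul_mem_left _ _ hf.2)

lemma mem_II {f : PP N} : f ∈ D.II ↔ D.re f ∈ JJ K ∧ X a * X b * D.im f ∈ JJ K := Iff.rfl

lemma mem_II_symm {f : PP N} (h : f ∈ D.symm.II) : f ∈ D.II :=
  ⟨h.1, by have := h.2; rwa [mul_comm (X b)] at this⟩

lemma II_a {σ : Cone N} (h : Free a b s σ) (hK : insert a σ ∉ K') : xs (insert a σ) ∈ D.II := by
  have h1 := xs_mem (mt (D.mem_a h).mpr hK)
  rw [xs_insert h.1] at h1
  rw [mem_II, xs_insert h.1, D.re_a, D.im_a, (D.free_xs h).2.1, (D.free_xs h).2.2]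
  refine ⟨by simpa using h1, ?_⟩
  convert Ideal.mul_mem_left _ (-X b) h1 using 1
  ring

lemma II_sa {σ : Cone N} (h : Free a b s σ) (hK : insert s (insert a σ) ∉ K') :
    xs (insert s (insert a σ)) ∈ D.II := by
  have h1 := xs_mem (mt (D.mem_sa h).mpr hK)
  rw [D.xs_ab h] at h1
  rw [mem_II, D.xs_sa h, D.re_s, D.im_s, D.re_a, D.im_a, (D.free_xs h).2.1, (D.free_xs h).2.2]
  constructor
  · convert h1 using 1
    ring
  · convert Ideal.mul_mem_left _ (-X b) h1 using 1
    ring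

lemma JJ_le_II : JJ K' ≤ D.II := by
  refine JJ_le (fun σ hσ => ?_) fun m hm => ?_
  · rcases D.cone_cases σ with ⟨ha, hb⟩ | ⟨σ0, hf, rfl | rfl | rfl | rfl | rfl | rfl⟩
    · have : (X a * X b : PP N) ∈ D.II := by
        rw [mem_II, D.re_a, D.im_a, D.reb, D.imb]; simp
      refine Ideal.mem_of_dvd _ ?_ this
      have e : xs ({a, b} : Cone N) = X a * X b := by
        rw [xs_insert (by simpa using D.ab), xs_singleton]
      rw [← e]
      exact xs_dvd (by simp [Finset.insert_subset_iff, ha, hb])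
    · rw [mem_II, (D.free_xs hf).2.1, (D.free_xs hf).2.2]
      exact ⟨xs_mem (mt (D.mem_free hf).mpr hσ), by simp⟩
    · exact D.II_a hf hσ
    · exact D.mem_II_symm (D.symm.II_a hf.symm hσ)
    · have h1 := xs_mem (mt (D.mem_s hf).mpr hσ)
      rw [D.xs_ab hf] at h1
      rw [mem_II, xs_insert hf.2.2, D.re_s, D.im_s, (D.free_xs hf).2.1, (D.free_xs hf).2.2]
      exact ⟨by simp, by simpa using h1⟩
    · exact D.II_sa hf hσ
    · exact D.mem_II_symm (D.symm.II_sa hf.symm hσ)
  · rw [mem_II, (D.comp_linf m).1, (D.comp_linf m).2]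
    exact ⟨Ideal.sub_mem _ (linf_mem _ hm) (Ideal.mul_mem_left _ _ D.Xs_mem), by simp⟩

section Deg

variable {deg : PP N →ₗ[ℚ] ℚ} (h0 : ∀ f ∈ JJ K, deg f = 0)
  (h1 : ∀ τ f, (∀ g, deg (xs τ * f * g) = 0) → f ∈ JJ (St K τ))

include h0 in
lemma pair {z : PP N} (H : ∀ g, deg (D.re (z * g)) = 0) :
    (∀ g, deg (D.re z * g) = 0) ∧ ∀ g, deg (X a * X b * D.im z * g) = 0 := by
  refine ⟨fun g => ?_, fun g => ?_⟩
  · obtain ⟨e, c, hc⟩ := D.comp_φ g
    have := H (D.φ g)
    rw [D.re_mul, e, hc] at this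
    have e2 : D.re z * g = (D.re z * (g + X s * c) - X a * X b * D.im z * 0) +
      -(D.re z * c) * X s := by ring
    rw [e2, map_add, this, h0 _ (Ideal.mul_mem_left _ _ D.Xs_mem), add_zero]
  · obtain ⟨e, c, hc⟩ := D.comp_φ g
    have := H (X s * D.φ g)
    rw [D.re_mul, D.re_s, D.im_s, e, hc] at this
    have e2 : X a * X b * D.im z * g =
      -(D.re z * -(X a * X b * 0) - X a * X b * D.im z * (g + X s * c + (X a + X b) * 0)) +
      -(X a * X b * D.im z * c) * X s := by ring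
    rw [e2, map_add, map_neg, this, h0 _ (Ideal.mul_mem_left _ _ D.Xs_mem)]
    simp

include h0 h1 in
lemma pd_free {τ : Cone N} (h : Free a b s τ) {f : PP N}
    (H : ∀ g, deg (D.re (xs τ * f * g)) = 0) : f ∈ JJ (St K' τ) := by
  obtain ⟨p1, p2⟩ := D.pair h0 H
  rw [D.re_free_mul h] at p1
  rw [D.im_free_mul h] at p2
  have q1 := D.φ_mem_old h.2.2 (h1 τ _ p1)
  have q2 := X_mul_mem (D.φ_mem_new h.2.2 (h1 (insert a (insert b τ)) (D.im f) fun g => by
    rw [D.xs_ab h, mul_assoc (X a * X b)]; exact p2 g))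
  obtain ⟨c, hc⟩ := D.decomp f
  rw [hc]
  exact Ideal.add_mem _ (Ideal.add_mem _ q1 q2) (Ideal.mul_mem_right _ _ (D.ab_mem τ))

lemma mem_of_gamma {τ : Cone N} (ha : a ∈ τ) {f : PP N}
    (h : D.φ (D.re f + X b * D.im f) ∈ JJ (St K' τ)) : f ∈ JJ (St K' τ) := by
  obtain ⟨c, hc⟩ := D.decomp f
  have e : f = D.φ (D.re f + X b * D.im f) + X b * (X a * c - D.φ (D.im f)) := by
    rw [map_add, map_mul, D.φb]
    linear_combination hc
  rw [e]
  exact Ideal.add_mem _ h (Ideal.mul_mem_right _ _ (D.b_mem ha))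

include h0 h1 in
lemma pd_a {τ : Cone N} (h : Free a b s τ) {f : PP N}
    (H : ∀ g, deg (D.re (xs (insert a τ) * f * g)) = 0) : f ∈ JJ (St K' (insert a τ)) := by
  obtain ⟨p1, -⟩ := D.pair h0 H
  rw [xs_insert h.1, mul_assoc, D.re_a, D.re_free_mul h, D.im_free_mul h] at p1
  refine D.mem_of_gamma (by simp) (D.φ_mem_old (by simp [h.2.2, D.as.symm]) (h1 _ _ fun g => ?_))
  rw [← p1 g, xs_insert h.1]
  congr 1
  ring

include h0 h1 in
lemma pd_s {τ : Cone N} (h : Free a b s τ) {f : PP N}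
    (H : ∀ g, deg (D.re (xs (insert s τ) * f * g)) = 0) : f ∈ JJ (St K' (insert s τ)) := by
  obtain ⟨p1, p2⟩ := D.pair h0 H
  rw [xs_insert h.2.2, mul_assoc, D.re_s, D.im_free_mul h] at p1
  rw [xs_insert h.2.2, mul_assoc (X s), D.im_s, D.re_free_mul h, D.im_free_mul h] at p2
  have q1 : D.im f ∈ JJ (St K (insert a (insert b τ))) := h1 _ _ fun g => by
    rw [← p1 (-g), D.xs_ab h]
    congr 1
    ring
  have q2 : D.re f + (X a + X b) * D.im f ∈ JJ (St K (insert a (insert b τ))) :=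
    h1 _ _ fun g => by
      rw [← p2 g, D.xs_ab h]
      congr 1
      ring
  have q3 : D.re f ∈ JJ (St K (insert a (insert b τ))) := by
    have := Ideal.sub_mem _ q2 (Ideal.mul_mem_left _ (X a + X b) q1)
    rwa [add_sub_cancel_right] at this
  obtain ⟨c, hc⟩ := D.decomp f
  rw [hc]
  exact Ideal.add_mem _ (Ideal.add_mem _ (D.φ_mem_new h.2.2 q3)
    (Ideal.mul_mem_left _ _ (D.φ_mem_new h.2.2 q1))) (Ideal.mul_mem_right _ _ (D.ab_mem _))

include h0 h1 in
lemma pd_sa {τ : Cone N} (h : Free a b s τ) {f : PP N}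
    (H : ∀ g, deg (D.re (xs (insert s (insert a τ)) * f * g)) = 0) :
    f ∈ JJ (St K' (insert s (insert a τ))) := by
  obtain ⟨p1, -⟩ := D.pair h0 H
  rw [D.xs_sa h, mul_assoc, mul_assoc, D.re_s, D.im_a, D.re_free_mul h, D.im_free_mul h] at p1
  refine D.mem_of_gamma (by simp) (D.φ_mem_new (by simp [h.2.2, D.as.symm]) ?_)
  rw [Finset.insert_comm b a, Finset.insert_idem]
  refine h1 _ _ fun g => ?_
  rw [← p1 g, D.xs_ab h]
  congr 1
  ring

end Deg

include D in
theorem inv_step {n : ℕ} (hn : ∀ σ ∈ K, σ.card ≤ n) (h : Inv n K) : Inv n K' := by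
  classical
  obtain ⟨deg, h0, h1, h2⟩ := h
  have hz : ∀ f ∈ JJ K', deg (D.re f) = 0 := fun f hf => h0 _ (D.JJ_le_II hf).1
  have da : ∀ {a b : Ray N} (D : Setup K K' a b s) (σ : Cone N), Free a b s σ →
      deg (D.re (xs (insert a σ))) =
        if insert a σ ∈ K' ∧ (insert a σ).card = n then 1 else 0 := by
    intro a b D σ hf
    rw [D.mem_a hf, ← h2, xs_insert hf.1, D.re_a, (D.free_xs hf).2.1, (D.free_xs hf).2.2]
    simp
  have dsa : ∀ {a b : Ray N} (D : Setup K K' a b s) (σ : Cone N), Free a b s σ →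
      deg (D.re (xs (insert s (insert a σ)))) =
        if insert s (insert a σ) ∈ K' ∧ (insert s (insert a σ)).card = n then 1 else 0 := by
    intro a b D σ hf
    have e : (insert s (insert a σ)).card = (insert a (insert b σ)).card := by
      rw [Finset.card_insert_of_notMem (by simp [hf.2.2, D.as.symm]),
        Finset.card_insert_of_notMem hf.1, Finset.card_insert_of_notMem (by simp [hf.1, D.ab]),
        Finset.card_insert_of_notMem hf.2.1]
    rw [D.mem_sa hf, e, ← h2, D.xs_sa hf, D.xs_ab hf, D.re_s, D.im_a, (D.free_xs hf).2.1,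
      (D.free_xs hf).2.2]
    simp
  refine ⟨deg ∘ₗ D.re, hz, fun τ f H => ?_, fun σ => ?_⟩
  · rcases D.cone_cases τ with ⟨ha, hb⟩ | ⟨τ0, hf, rfl | rfl | rfl | rfl | rfl | rfl⟩
    · exact mem_JJ_St_of_notMem (D.notMem_of_ab ha hb) f
    · exact D.pd_free h0 h1 hf H
    · exact D.pd_a h0 h1 hf H
    · exact D.symm.pd_a h0 h1 hf.symm H
    · exact D.pd_s h0 h1 hf H
    · exact D.pd_sa h0 h1 hf H
    · exact D.symm.pd_sa h0 h1 hf.symm H
  · rw [LinearMap.comp_apply]
    rcases D.cone_cases σ with ⟨ha, hb⟩ | ⟨σ0, hf, rfl | rfl | rfl | rfl | rfl | rfl⟩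
    · rw [hz _ (xs_mem (D.notMem_of_ab ha hb)), if_neg fun h => D.notMem_of_ab ha hb h.1]
    · rw [D.mem_free hf, ← h2, (D.free_xs hf).2.1]
    · exact da D σ0 hf
    · exact da D.symm σ0 hf.symm
    · rw [xs_insert hf.2.2, D.re_s, (D.free_xs hf).2.2, if_neg]
      · simp
      · rintro ⟨k1, k2⟩
        have := hn _ ((D.mem_s hf).mp k1)
        rw [Finset.card_insert_of_notMem (by simp [hf.1, D.ab]),
          Finset.card_insert_of_notMem hf.2.1] at this
        rw [Finset.card_insert_of_notMem hf.2.2] at k2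
        omega
    · exact dsa D σ0 hf
    · exact dsa D.symm σ0 hf.symm

end Setup

theorem inv_tower (hB : FanBasicStmt) {n : ℕ} {K : Set (Cone N)} {S : Finset (Ray N)}
    (h2 : 2 ≤ n) (hn : n < N) (hT : FanTower n N K S) : Inv n K := by
  induction hT with
  | base => exact inv_base hn
  | @step K S a b hT hab hS ih =>
    obtain ⟨-, hd, hc, -, hr, -⟩ := hB n N K S h2 hn hT
    have hcard : ({a, b} : Ray N).card = 2 := Finset.card_pair hab
    have hs : ∀ c : Fin N, ({c} : Ray N) ≠ {a, b} := fun c h => by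
      have := congrArg Finset.card h
      rw [hcard] at this
      simp at this
    refine (mkSetup (a := {a}) (b := {b}) (s := {a, b}) (by simpa using hab) (hs a) (hs b)
      (fun m => by simp [pr, Finset.sum_pair hab]) (fun σ => Iff.rfl) hd fun h => ?_).inv_step hc ih
    rcases hr _ h _ (Finset.mem_singleton_self _) with h | h
    · omega
    · exact hS h

end FanPD

/-- Poincare duality for the Chow rings of the fans. -/
theorem fanPD (hB : FanBasicStmt) : FanPDStmt := by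
  intro n N K S h2 hn hT
  obtain ⟨deg, h0, h1, h3⟩ := FanPD.inv_tower hB h2 hn hT
  refine ⟨deg, h0, fun f H => ?_, h3⟩
  have := h1 ∅ f (by simpa [FanPD.xs_empty] using H)
  rwa [FanPD.St_empty] at this

end Pool.Agent.Lib.MP_2c79a0_ag
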