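import Pool.Agent.Lib.MP_2c79a0_ag.Geo

/-!
Poincare duality for the Chow rings of the fans: elementary lemmas and the base fan.
-/

open MvPolynomial

noncomputable section

namespace Pool.Agent.Lib.MP_2c79a0_ag.FanPD

variable {N : ℕ}

/-- The polynomial ring on the rays. -/
abbrev PP (N : ℕ) : Type := MvPolynomial (Ray N) ℚ

/-- The star of a cone. -/
def St (K : Set (Cone N)) (τ : Cone N) : Set (Cone N) := {σ | σ ∪ τ ∈ K}

lemma mem_St {K : Set (Cone N)} {τ σ : Cone N} : σ ∈ St K τ ↔ σ ∪ τ ∈ K := Iff.rfl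

lemma St_empty (K : Set (Cone N)) : St K ∅ = K := by
  ext σ; simp [mem_St]

lemma xs_mem {K : Set (Cone N)} {σ : Cone N} (h : σ ∉ K) : xs σ ∈ JJ K :=
  Ideal.subset_span (Or.inl ⟨σ, h, rfl⟩)

lemma linf_mem (K : Set (Cone N)) {m : Fin N → ℤ} (h : ∑ i, m i = 0) : linf m ∈ JJ K :=
  Ideal.subset_span (Or.inr ⟨m, h, rfl⟩)

lemma JJ_le {K : Set (Cone N)} {I : Ideal (PP N)} (h1 : ∀ σ, σ ∉ K → xs σ ∈ I)
    (h2 : ∀ m : Fin N → ℤ, ∑ i, m i = 0 → linf m ∈ I) : JJ K ≤ I := by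
  refine Ideal.span_le.mpr ?_
  rintro f (⟨σ, h, rfl⟩ | ⟨m, h, rfl⟩)
  · exact h1 σ h
  · exact h2 m h

lemma JJ_anti {K K' : Set (Cone N)} (h : K ⊆ K') : JJ K' ≤ JJ K :=
  JJ_le (fun _ hσ => xs_mem fun h' => hσ (h h')) fun _ hm => linf_mem K hm

lemma xs_empty : xs (∅ : Cone N) = 1 := by simp [xs]

lemma xs_singleton (ρ : Ray N) : xs ({ρ} : Cone N) = X ρ := by simp [xs]

lemma xs_insert {σ : Cone N} {ρ : Ray N} (h : ρ ∉ σ) : xs (insert ρ σ) = X ρ * xs σ := by
  simp [xs, Finset.prod_insert h]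

lemma xs_dvd {σ τ : Cone N} (h : σ ⊆ τ) : xs σ ∣ xs τ :=
  Finset.prod_dvd_prod_of_subset _ _ _ h

lemma xs_insert_dvd (σ : Cone N) (ρ : Ray N) : xs (insert ρ σ) ∣ X ρ * xs σ := by
  by_cases h : ρ ∈ σ
  · rw [Finset.insert_eq_of_mem h]; exact Dvd.intro_left _ rfl
  · rw [xs_insert h]

lemma St_subset {K : Set (Cone N)} (hd : ∀ σ ∈ K, ∀ τ ⊆ σ, τ ∈ K) (τ : Cone N) : St K τ ⊆ K :=
  fun σ hσ => hd _ hσ σ Finset.subset_union_left

lemma mem_JJ_St_of_notMem {K : Set (Cone N)} {τ : Cone N} (h : τ ∉ K) (f : PP N) :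
    f ∈ JJ (St K τ) := by
  have : xs (∅ : Cone N) ∈ JJ (St K τ) := xs_mem (by simpa [mem_St] using h)
  rw [xs_empty] at this
  simpa using Ideal.mul_mem_left _ f this

lemma X_mul_mem {K : Set (Cone N)} {τ : Cone N} {ρ : Ray N} {f : PP N}
    (h : f ∈ JJ (St K (insert ρ τ))) : X ρ * f ∈ JJ (St K τ) := by
  have : JJ (St K (insert ρ τ)) ≤ (JJ (St K τ)).colon {X ρ} := by
    refine JJ_le (fun σ hσ => ?_) fun m hm => ?_
    · rw [Submodule.mem_colon_singleton, smul_eq_mul, mul_comm]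
      refine Ideal.mem_of_dvd _ (xs_insert_dvd σ ρ) (xs_mem fun h' => hσ ?_)
      rw [mem_St] at h' ⊢
      rwa [Finset.union_insert, ← Finset.insert_union]
    · rw [Submodule.mem_colon_singleton, smul_eq_mul]
      exact Ideal.mul_mem_right _ _ (linf_mem _ hm)
  have := this h
  rwa [Submodule.mem_colon_singleton, smul_eq_mul, mul_comm] at this

open Classical in
/-- The induction hypothesis: duality for all stars. -/
def Inv (n : ℕ) (K : Set (Cone N)) : Prop :=
  ∃ deg : PP N →ₗ[ℚ] ℚ, (∀ f ∈ JJ K, deg f = 0) ∧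
    (∀ τ f, (∀ g, deg (xs τ * f * g) = 0) → f ∈ JJ (St K τ)) ∧
    ∀ σ, deg (xs σ) = if σ ∈ K ∧ σ.card = n then 1 else 0

/-! ### The base fan -/

/-- Evaluation: singleton rays go to the hyperplane class. -/
def ev (N : ℕ) : PP N →ₐ[ℚ] Polynomial ℚ :=
  aeval fun ρ : Ray N => if ρ.card = 1 then Polynomial.X else 0

lemma ev_X (ρ : Ray N) : ev N (X ρ) = if ρ.card = 1 then Polynomial.X else 0 := by
  simp [ev]

lemma ev_xs_of_all {σ : Cone N} (h : ∀ ρ ∈ σ, ρ.card = 1) :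
    ev N (xs σ) = Polynomial.X ^ σ.card := by
  rw [xs, map_prod, Finset.prod_congr rfl fun ρ hρ => (ev_X ρ).trans (if_pos (h ρ hρ)),
    Finset.prod_const]

lemma ev_xs_of_not {σ : Cone N} (h : ¬ ∀ ρ ∈ σ, ρ.card = 1) : ev N (xs σ) = 0 := by
  push Not at h
  obtain ⟨ρ, hρ, h⟩ := h
  rw [xs, map_prod]
  exact Finset.prod_eq_zero hρ ((ev_X ρ).trans (if_neg h))

lemma sum_singletons {M : Type} [AddCommMonoid M] (F : Ray N → M) :
    ∑ ρ : Ray N, (if ρ.card = 1 then F ρ else 0) = ∑ i : Fin N, F {i} := by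
  rw [← Finset.sum_filter]
  symm
  refine Finset.sum_bij (fun i _ => ({i} : Ray N)) (by simp) (by simp) ?_ (by simp)
  intro ρ hρ
  simp only [Finset.mem_filter, Finset.mem_univ, true_and] at hρ
  obtain ⟨i, rfl⟩ := Finset.card_eq_one.mp hρ
  exact ⟨i, Finset.mem_univ _, rfl⟩

lemma ev_linf {m : Fin N → ℤ} (h : ∑ i, m i = 0) : ev N (linf m) = 0 := by
  have e : ∀ ρ : Ray N, ev N (C (pr m ρ : ℚ) * X ρ) =
      if ρ.card = 1 then Polynomial.C (pr m ρ : ℚ) * Polynomial.X else 0 := by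
    intro ρ
    rw [map_mul, ev_X, algHom_C, Polynomial.algebraMap_eq]
    split_ifs <;> simp
  rw [linf, map_sum, Finset.sum_congr rfl fun ρ _ => e ρ, sum_singletons, ← Finset.sum_mul,
    ← map_sum]
  have : ∑ i : Fin N, (pr m {i} : ℚ) = 0 := by
    simp only [pr, Finset.sum_singleton]
    exact_mod_cast h
  rw [this]; simp

lemma X_mem_base {n : ℕ} {ρ : Ray N} (h : ρ.card ≠ 1) : (X ρ : PP N) ∈ JJ (baseFan n N) := by
  rw [← xs_singleton]
  exact xs_mem fun h' => h (h'.1 ρ (Finset.mem_singleton_self _))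

lemma X_sub_mem_base {n : ℕ} (i o : Fin N) :
    (X {i} - X {o} : PP N) ∈ JJ (baseFan n N) := by
  set m : Fin N → ℤ := Pi.single i 1 - Pi.single o 1 with hm
  have h0 : ∑ j, m j = 0 := by simp [hm, Finset.sum_sub_distrib]
  have h1 : linf m - ∑ ρ : Ray N, (if ρ.card = 1 then C (pr m ρ : ℚ) * X ρ else 0) ∈
      JJ (baseFan n N) := by
    rw [linf, ← Finset.sum_sub_distrib]
    refine Ideal.sum_mem _ fun ρ _ => ?_
    split_ifs with h
    · simp
    · rw [sub_zero]; exact Ideal.mul_mem_left _ _ (X_mem_base h)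
  rw [sum_singletons] at h1
  have h2 : ∑ j : Fin N, (C (pr m {j} : ℚ) * X {j} : PP N) = X {i} - X {o} := by
    have e : ∀ j : Fin N, (C (pr m {j} : ℚ) * X {j} : PP N) =
        (if j = i then X {j} else 0) - (if j = o then X {j} else 0) := by
      intro j
      simp only [pr, Finset.sum_singleton, hm, Pi.sub_apply, Pi.single_apply]
      split_ifs <;> simp
    rw [Finset.sum_congr rfl fun j _ => e j, Finset.sum_sub_distrib]
    simp
  rw [h2] at h1
  have := Ideal.sub_mem _ (linf_mem (baseFan n N) h0) h1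
  simpa using this

lemma sub_ev_mem {n : ℕ} (o : Fin N) (f : PP N) :
    f - Polynomial.aeval (X {o} : PP N) (ev N f) ∈ JJ (baseFan n N) := by
  have : Ideal.Quotient.mkₐ ℚ (JJ (baseFan n N)) =
      (Ideal.Quotient.mkₐ ℚ (JJ (baseFan n N))).comp
        ((Polynomial.aeval (X {o} : PP N)).comp (ev N)) := by
    refine MvPolynomial.algHom_ext fun ρ => ?_
    simp only [AlgHom.comp_apply, Ideal.Quotient.mkₐ_eq_mk, ev_X]
    rw [Ideal.Quotient.eq]
    split_ifs with h
    · obtain ⟨i, rfl⟩ := Finset.card_eq_one.mp h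
      rw [Polynomial.aeval_X]
      exact X_sub_mem_base i o
    · rw [map_zero, sub_zero]; exact X_mem_base h
  have := DFunLike.congr_fun this f
  simpa only [AlgHom.comp_apply, Ideal.Quotient.mkₐ_eq_mk, Ideal.Quotient.eq] using this

lemma base_down (n : ℕ) : ∀ σ ∈ baseFan n N, ∀ τ ⊆ σ, τ ∈ baseFan n N :=
  fun _ hσ _ hτ => ⟨fun ρ hρ => hσ.1 ρ (hτ hρ), (Finset.card_le_card hτ).trans hσ.2⟩

lemma exists_far {n : ℕ} (hn : n < N) {τ : Cone N} (hτ : τ.card ≤ n) :
    ∃ σ : Cone N, (∀ ρ ∈ σ, ρ.card = 1) ∧ σ.card = n - τ.card + 1 ∧ (σ ∪ τ).card = n + 1 := by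
  set A : Cone N := Finset.univ.image fun i : Fin N => ({i} : Ray N) with hA
  have hc : A.card = N := by
    rw [hA, Finset.card_image_of_injective _ Finset.singleton_injective]; simp
  have h1 : n - τ.card + 1 ≤ (A \ τ).card := by
    have := Finset.le_card_sdiff τ A
    omega
  obtain ⟨σ, hσ, hcard⟩ := Finset.exists_subset_card_eq h1
  refine ⟨σ, fun ρ hρ => ?_, hcard, ?_⟩
  · have := (Finset.mem_sdiff.mp (hσ hρ)).1
    rw [hA, Finset.mem_image] at this
    obtain ⟨i, -, rfl⟩ := this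
    simp
  · rw [Finset.card_union_of_disjoint (Finset.disjoint_of_subset_left hσ Finset.sdiff_disjoint)]
    omega

theorem inv_base {n : ℕ} (hn : n < N) : Inv n (baseFan n N) := by
  classical
  have o : Fin N := ⟨0, by omega⟩
  refine ⟨Polynomial.lcoeff ℚ n ∘ₗ (ev N).toLinearMap, fun f hf => ?_, fun τ f H => ?_,
    fun σ => ?_⟩
  · have : JJ (baseFan n N) ≤ (Ideal.span {(Polynomial.X : Polynomial ℚ) ^ (n + 1)}).comap
        (ev N) := by
      refine JJ_le (fun σ hσ => ?_) fun m hm => ?_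
      · rw [Ideal.mem_comap, Ideal.mem_span_singleton]
        by_cases h : ∀ ρ ∈ σ, ρ.card = 1
        · rw [ev_xs_of_all h]
          refine pow_dvd_pow _ ?_
          by_contra h'
          exact hσ ⟨h, by omega⟩
        · rw [ev_xs_of_not h]; exact dvd_zero _
      · rw [Ideal.mem_comap, ev_linf hm]; exact Ideal.zero_mem _
    have := this hf
    rw [Ideal.mem_comap, Ideal.mem_span_singleton, Polynomial.X_pow_dvd_iff] at this
    exact this n (Nat.lt_succ_self n)
  · by_cases hτ : τ ∈ baseFan n N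
    swap
    · exact mem_JJ_St_of_notMem hτ f
    have hle : JJ (baseFan n N) ≤ JJ (St (baseFan n N) τ) := JJ_anti (St_subset (base_down n) τ)
    have hdvd : (Polynomial.X : Polynomial ℚ) ^ (n - τ.card + 1) ∣ ev N f := by
      rw [Polynomial.X_pow_dvd_iff]
      intro d hd
      have h := H (X {o} ^ (n - τ.card - d))
      have hk := hτ.2
      simp only [LinearMap.comp_apply, AlgHom.toLinearMap_apply, Polynomial.lcoeff_apply, map_mul,
        map_pow, ev_X, Finset.card_singleton, if_true, ev_xs_of_all hτ.1] at h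
      rw [mul_comm _ (ev N f), mul_assoc, ← pow_add] at h
      have e : n = d + (τ.card + (n - τ.card - d)) := by omega
      rw [← Polynomial.coeff_mul_X_pow (ev N f) (τ.card + (n - τ.card - d)) d, ← e]
      exact h
    obtain ⟨σ, h1, h2, h3⟩ := exists_far hn hτ.2
    have h4 : (X {o} : PP N) ^ (n - τ.card + 1) ∈ JJ (St (baseFan n N) τ) := by
      have a1 := hle (sub_ev_mem o (xs σ))
      rw [ev_xs_of_all h1, h2, map_pow, Polynomial.aeval_X] at a1
      have a2 : xs σ ∈ JJ (St (baseFan n N) τ) := xs_mem fun h => by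
        have := h.2
        omega
      simpa using Ideal.sub_mem _ a2 a1
    obtain ⟨q, hq⟩ := hdvd
    have a1 := hle (sub_ev_mem o f)
    rw [hq, map_mul, map_pow, Polynomial.aeval_X] at a1
    simpa using Ideal.add_mem _ a1 (Ideal.mul_mem_right (Polynomial.aeval (X {o} : PP N) q) _ h4)
  · simp only [LinearMap.comp_apply, AlgHom.toLinearMap_apply, Polynomial.lcoeff_apply]
    by_cases h : ∀ ρ ∈ σ, ρ.card = 1
    · rw [ev_xs_of_all h, Polynomial.coeff_X_pow]
      by_cases hc : σ.card = n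
      · rw [if_pos hc.symm, if_pos ⟨⟨h, hc.le⟩, hc⟩]
      · rw [if_neg (Ne.symm hc), if_neg fun h' => hc h'.2]
    · rw [ev_xs_of_not h, if_neg fun h' => h h'.1.1]; simp

end Pool.Agent.Lib.MP_2c79a0_ag.FanPD
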