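import Pool.Agent.Lib.MP_2c79a0_ag.FanPDA

/-!
Poincare duality for the Chow rings of the fans: the data of a stellar subdivision.
-/

open MvPolynomial

noncomputable section

namespace Pool.Agent.Lib.MP_2c79a0_ag.FanPD

variable {N : ℕ}

/-- Pull-back `φ` and the two components `re`, `im` attached to a stellar subdivision. -/
structure Setup (K K' : Set (Cone N)) (a b s : Ray N) where
  ab : a ≠ b
  as : a ≠ s
  bs : b ≠ s
  prs : ∀ m, pr m s = pr m a + pr m b
  mem : ∀ σ, σ ∈ K' ↔ ¬ (a ∈ σ ∧ b ∈ σ) ∧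
    ((s ∉ σ ∧ σ ∈ K) ∨ (s ∈ σ ∧ insert a (insert b (σ.erase s)) ∈ K))
  down : ∀ σ ∈ K, ∀ τ ⊆ σ, τ ∈ K
  sK : ({s} : Cone N) ∉ K
  φ : PP N →ₐ[ℚ] PP N
  φa : φ (X a) = X a + X s
  φb : φ (X b) = X b + X s
  φs : φ (X s) = 0
  φo : ∀ ρ, ρ ≠ a → ρ ≠ b → ρ ≠ s → φ (X ρ) = X ρ
  re : PP N →ₗ[ℚ] PP N
  im : PP N →ₗ[ℚ] PP N
  re_mul : ∀ f g, re (f * g) = re f * re g - X a * X b * im f * im g
  im_mul : ∀ f g, im (f * g) = re f * im g + im f * re g + (X a + X b) * im f * im g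
  re_one : re 1 = 1
  im_one : im 1 = 0
  rea : re (X a) = X a
  ima : im (X a) = -1
  reb : re (X b) = X b
  imb : im (X b) = -1
  res : re (X s) = 0
  ims : im (X s) = 1
  reo : ∀ ρ, ρ ≠ a → ρ ≠ b → ρ ≠ s → re (X ρ) = X ρ
  imo : ∀ ρ, ρ ≠ a → ρ ≠ b → ρ ≠ s → im (X ρ) = 0

/-- The map to the quadratic algebra. -/
def FQ (a b s : Ray N) :
    PP N →ₐ[ℚ] QuadraticAlgebra (PP N) (-(X a * X b)) (X a + X b) :=
  aeval fun ρ => if ρ = s then ⟨0, 1⟩ else if ρ = a ∨ ρ = b then ⟨X ρ, -1⟩ else ⟨X ρ, 0⟩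

/-- The pull-back map. -/
def pull (a b s : Ray N) : PP N →ₐ[ℚ] PP N :=
  aeval fun ρ => if ρ = s then 0 else if ρ = a ∨ ρ = b then X ρ + X s else X ρ

/-- Construction of the data. -/
def mkSetup {K K' : Set (Cone N)} {a b s : Ray N} (ab : a ≠ b) (as : a ≠ s) (bs : b ≠ s)
    (prs : ∀ m, pr m s = pr m a + pr m b)
    (mem : ∀ σ, σ ∈ K' ↔ ¬ (a ∈ σ ∧ b ∈ σ) ∧
      ((s ∉ σ ∧ σ ∈ K) ∨ (s ∈ σ ∧ insert a (insert b (σ.erase s)) ∈ K)))
    (down : ∀ σ ∈ K, ∀ τ ⊆ σ, τ ∈ K) (sK : ({s} : Cone N) ∉ K) : Setup K K' a b s where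
  ab := ab
  as := as
  bs := bs
  prs := prs
  mem := mem
  down := down
  sK := sK
  φ := pull a b s
  φa := by simp [pull, as]
  φb := by simp [pull, bs]
  φs := by simp [pull]
  φo := fun ρ h1 h2 h3 => by simp [pull, h1, h2, h3]
  re := ((QuadraticAlgebra.reₗ _ _).restrictScalars ℚ) ∘ₗ (FQ a b s).toLinearMap
  im := ((QuadraticAlgebra.imₗ _ _).restrictScalars ℚ) ∘ₗ (FQ a b s).toLinearMap
  re_mul := fun f g => by
    simp only [LinearMap.comp_apply, AlgHom.toLinearMap_apply, LinearMap.restrictScalars_apply,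
      QuadraticAlgebra.reₗ_apply, QuadraticAlgebra.imₗ_apply, map_mul, QuadraticAlgebra.re_mul]
    ring
  im_mul := fun f g => by
    simp only [LinearMap.comp_apply, AlgHom.toLinearMap_apply, LinearMap.restrictScalars_apply,
      QuadraticAlgebra.reₗ_apply, QuadraticAlgebra.imₗ_apply, map_mul, QuadraticAlgebra.im_mul]
  re_one := by simp [QuadraticAlgebra.re_one]
  im_one := by simp [QuadraticAlgebra.im_one]
  rea := by simp [FQ, as]
  ima := by simp [FQ, as]
  reb := by simp [FQ, bs]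
  imb := by simp [FQ, bs]
  res := by simp [FQ]
  ims := by simp [FQ]
  reo := fun ρ h1 h2 h3 => by simp [FQ, h1, h2, h3]
  imo := fun ρ h1 h2 h3 => by simp [FQ, h1, h2, h3]

namespace Setup

variable {K K' : Set (Cone N)} {a b s : Ray N} (D : Setup K K' a b s)

/-- Exchange of the two rays. -/
def symm : Setup K K' b a s where
  ab := D.ab.symm
  as := D.bs
  bs := D.as
  prs := fun m => by rw [D.prs, add_comm]
  mem := fun σ => by rw [D.mem, and_comm (a := a ∈ σ), Finset.insert_comm a b]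
  down := D.down
  sK := D.sK
  φ := D.φ
  φa := D.φb
  φb := D.φa
  φs := D.φs
  φo := fun ρ h1 h2 h3 => D.φo ρ h2 h1 h3
  re := D.re
  im := D.im
  re_mul := fun f g => by rw [D.re_mul]; ring
  im_mul := fun f g => by rw [D.im_mul]; ring
  re_one := D.re_one
  im_one := D.im_one
  rea := D.reb
  ima := D.imb
  reb := D.rea
  imb := D.ima
  res := D.res
  ims := D.ims
  reo := fun ρ h1 h2 h3 => D.reo ρ h2 h1 h3
  imo := fun ρ h1 h2 h3 => D.imo ρ h2 h1 h3

lemma re_C (c : ℚ) : D.re (C c) = C c := by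
  have : (C c : PP N) = c • (1 : PP N) := by rw [smul_eq_C_mul, mul_one]
  rw [this, map_smul, D.re_one]

lemma im_C (c : ℚ) : D.im (C c) = 0 := by
  have : (C c : PP N) = c • (1 : PP N) := by rw [smul_eq_C_mul, mul_one]
  rw [this, map_smul, D.im_one, smul_zero]

lemma φ_C (c : ℚ) : D.φ (C c) = C c := by simp

include D in
lemma Xs_mem : (X s : PP N) ∈ JJ K := by
  rw [← xs_singleton]; exact xs_mem D.sK

/-- A cone avoiding the three special rays. -/
def Free (a b s : Ray N) (σ : Cone N) : Prop := a ∉ σ ∧ b ∉ σ ∧ s ∉ σ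

lemma free_xs {σ : Cone N} (h : Free a b s σ) :
    D.φ (xs σ) = xs σ ∧ D.re (xs σ) = xs σ ∧ D.im (xs σ) = 0 := by
  induction σ using Finset.induction_on with
  | empty => simp [xs_empty, D.re_one, D.im_one]
  | insert ρ σ hρ ih =>
    simp only [Free, Finset.mem_insert, not_or] at h
    obtain ⟨⟨h1, h2⟩, ⟨h3, h4⟩, h5, h6⟩ := h
    obtain ⟨i1, i2, i3⟩ := ih ⟨h2, h4, h6⟩
    rw [xs_insert hρ, map_mul, D.re_mul, D.im_mul, i1, i2, i3,
      D.φo ρ (Ne.symm h1) (Ne.symm h3) (Ne.symm h5), D.reo ρ (Ne.symm h1) (Ne.symm h3) (Ne.symm h5),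
      D.imo ρ (Ne.symm h1) (Ne.symm h3) (Ne.symm h5)]
    simp

lemma re_free_mul {σ : Cone N} (h : Free a b s σ) (f : PP N) :
    D.re (xs σ * f) = xs σ * D.re f := by
  rw [D.re_mul, (D.free_xs h).2.1, (D.free_xs h).2.2]; ring

lemma im_free_mul {σ : Cone N} (h : Free a b s σ) (f : PP N) :
    D.im (xs σ * f) = xs σ * D.im f := by
  rw [D.im_mul, (D.free_xs h).2.1, (D.free_xs h).2.2]; ring

/-- Every polynomial is recovered from its components modulo `X a * X b`. -/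
lemma decomp (f : PP N) : ∃ c, f = D.φ (D.re f) + X s * D.φ (D.im f) + X a * X b * c := by
  induction f using MvPolynomial.induction_on with
  | C c => exact ⟨0, by rw [D.re_C, D.im_C, D.φ_C]; simp⟩
  | add f g hf hg =>
    obtain ⟨c, hc⟩ := hf
    obtain ⟨d, hd⟩ := hg
    refine ⟨c + d, ?_⟩
    simp only [map_add]
    linear_combination hc + hd
  | mul_X f ρ hf =>
    obtain ⟨c, hc⟩ := hf
    rw [D.re_mul, D.im_mul]
    by_cases h1 : ρ = a
    · subst h1
      refine ⟨c * X ρ - D.φ (D.im f), ?_⟩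
      simp only [D.rea, D.ima, map_add, map_sub, map_mul, map_neg, map_one, D.φa, D.φb]
      linear_combination X ρ * hc
    by_cases h2 : ρ = b
    · subst h2
      refine ⟨c * X ρ - D.φ (D.im f), ?_⟩
      simp only [D.reb, D.imb, map_add, map_sub, map_mul, map_neg, map_one, D.φa, D.φb]
      linear_combination X ρ * hc
    by_cases h3 : ρ = s
    · subst h3
      refine ⟨c * X ρ + D.φ (D.im f), ?_⟩
      simp only [D.res, D.ims, map_add, map_sub, map_mul, map_zero, map_one, D.φa, D.φb]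
      linear_combination X ρ * hc
    · refine ⟨c * X ρ, ?_⟩
      simp only [D.reo ρ h1 h2 h3, D.imo ρ h1 h2 h3, map_add, map_sub, map_mul, map_zero,
        D.φo ρ h1 h2 h3]
      linear_combination X ρ * hc

/-- Components of a pull-back. -/
lemma comp_φ (f : PP N) : D.im (D.φ f) = 0 ∧ ∃ c, D.re (D.φ f) = f + X s * c := by
  induction f using MvPolynomial.induction_on with
  | C c => exact ⟨by rw [D.φ_C, D.im_C], 0, by rw [D.φ_C, D.re_C]; simp⟩
  | add f g hf hg =>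
    obtain ⟨h1, c, hc⟩ := hf
    obtain ⟨h2, d, hd⟩ := hg
    refine ⟨by simp [h1, h2], c + d, ?_⟩
    simp only [map_add]
    linear_combination hc + hd
  | mul_X f ρ hf =>
    obtain ⟨h0, c, hc⟩ := hf
    rw [map_mul, D.re_mul, D.im_mul, h0, hc]
    by_cases h1 : ρ = a
    · subst h1
      simp only [D.φa, map_add, D.rea, D.ima, D.res, D.ims]
      exact ⟨by ring, c * X ρ, by ring⟩
    by_cases h2 : ρ = b
    · subst h2
      simp only [D.φb, map_add, D.reb, D.imb, D.res, D.ims]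
      exact ⟨by ring, c * X ρ, by ring⟩
    by_cases h3 : ρ = s
    · subst h3
      simp only [D.φs, map_zero]
      exact ⟨by ring, -f, by ring⟩
    · simp only [D.φo ρ h1 h2 h3, D.reo ρ h1 h2 h3, D.imo ρ h1 h2 h3]
      exact ⟨by ring, c * X ρ, by ring⟩

include D in
lemma linf_split (m : Fin N → ℤ) : linf m =
    C (pr m a : ℚ) * (X a + X s) + C (pr m b : ℚ) * (X b + X s) +
      ∑ ρ ∈ ((Finset.univ.erase s).erase a).erase b, C (pr m ρ : ℚ) * X ρ := by
  rw [linf, ← Finset.add_sum_erase _ _ (Finset.mem_univ s),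
    ← Finset.add_sum_erase _ _ (a := a) (by simp [D.as]),
    ← Finset.add_sum_erase _ _ (a := b) (by simp [D.bs, D.ab.symm]), D.prs]
  push_cast
  rw [map_add]
  ring

lemma φ_linf (m : Fin N → ℤ) : D.φ (linf m) = linf m := by
  have h : D.φ (∑ ρ ∈ ((Finset.univ.erase s).erase a).erase b, C (pr m ρ : ℚ) * X ρ) =
      ∑ ρ ∈ ((Finset.univ.erase s).erase a).erase b, C (pr m ρ : ℚ) * X ρ := by
    rw [map_sum]
    refine Finset.sum_congr rfl fun ρ hρ => ?_
    simp only [Finset.mem_erase] at hρ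
    rw [map_mul, D.φ_C, D.φo ρ hρ.2.1 hρ.1 hρ.2.2.1]
  rw [D.linf_split m]
  simp only [map_add, map_mul, h, D.φ_C, D.φa, D.φb, D.φs]
  ring

lemma re_C_mul (c : ℚ) (f : PP N) : D.re (C c * f) = C c * D.re f := by
  rw [D.re_mul, D.re_C, D.im_C]; ring

lemma im_C_mul (c : ℚ) (f : PP N) : D.im (C c * f) = C c * D.im f := by
  rw [D.im_mul, D.re_C, D.im_C]; ring

lemma comp_linf (m : Fin N → ℤ) :
    D.re (linf m) = linf m - C (pr m s : ℚ) * X s ∧ D.im (linf m) = 0 := by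
  have h1 : D.re (∑ ρ ∈ ((Finset.univ.erase s).erase a).erase b, C (pr m ρ : ℚ) * X ρ) =
      ∑ ρ ∈ ((Finset.univ.erase s).erase a).erase b, C (pr m ρ : ℚ) * X ρ := by
    rw [map_sum]
    refine Finset.sum_congr rfl fun ρ hρ => ?_
    simp only [Finset.mem_erase] at hρ
    rw [D.re_C_mul, D.reo ρ hρ.2.1 hρ.1 hρ.2.2.1]
  have h2 : D.im (∑ ρ ∈ ((Finset.univ.erase s).erase a).erase b, C (pr m ρ : ℚ) * X ρ) = 0 := by
    rw [map_sum]
    refine Finset.sum_eq_zero fun ρ hρ => ?_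
    simp only [Finset.mem_erase] at hρ
    rw [D.im_C_mul, D.imo ρ hρ.2.1 hρ.1 hρ.2.2.1, mul_zero]
  rw [D.linf_split m, D.prs]
  simp only [map_add, h1, h2, D.re_C_mul, D.im_C_mul, D.rea, D.reb, D.res, D.ima, D.imb, D.ims]
  push_cast
  rw [map_add]
  exact ⟨by ring, by ring⟩

end Setup

end Pool.Agent.Lib.MP_2c79a0_ag.FanPD
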