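import Pool.Agent.Lib.MP_2c79a0_ag.Cyc

/-!
Fans, charts and models: definitions, and the interface statements of the geometric modules.
-/

open AlgebraicGeometry CategoryTheory TopologicalSpace Algebra

noncomputable section

namespace Pool.Agent.Lib.MP_2c79a0_ag

/-! ### Fans -/

/-- A ray is recorded by the set of coordinates where its `0/1` vector is `1`. -/
abbrev Ray (N : ℕ) : Type := Finset (Fin N)

/-- A cone is a finite set of rays. -/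
abbrev Cone (N : ℕ) : Type := Finset (Ray N)

/-- The fan of `N` general hyperplanes in projective `n`-space. -/
def baseFan (n N : ℕ) : Set (Cone N) := {σ | (∀ ρ ∈ σ, ρ.card = 1) ∧ σ.card ≤ n}

/-- Stellar subdivision along the cone spanned by the rays `{a}` and `{b}`. -/
def blowFan {N : ℕ} (K : Set (Cone N)) (a b : Fin N) : Set (Cone N) :=
  {σ | ¬ (({a} : Ray N) ∈ σ ∧ ({b} : Ray N) ∈ σ) ∧
    ((({a, b} : Ray N) ∉ σ ∧ σ ∈ K) ∨ (({a, b} : Ray N) ∈ σ ∧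
      insert ({a} : Ray N) (insert ({b} : Ray N) (σ.erase ({a, b} : Ray N))) ∈ K))}

/-- Iterated stellar subdivisions, along the pairs in `S`. -/
inductive FanTower (n N : ℕ) : Set (Cone N) → Finset (Ray N) → Prop
  | base : FanTower n N (baseFan n N) ∅
  | step {K : Set (Cone N)} {S : Finset (Ray N)} (a b : Fin N) : FanTower n N K S → a ≠ b →
      ({a, b} : Ray N) ∉ S → FanTower n N (blowFan K a b) (insert ({a, b} : Ray N) S)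

/-- Value of the character `m` on the ray `ρ`. -/
def pr {N : ℕ} (m : Fin N → ℤ) (ρ : Ray N) : ℤ := ∑ i ∈ ρ, m i

/-- Ramification index of the double cover along the divisor of the ray. -/
def ee {N : ℕ} (ρ : Ray N) : ℕ := if ρ.card = 1 then 2 else 1

open Classical in
/-- The divisor of the character `m` on the stratum of the cone `τ`. -/
def rel {N : ℕ} (K : Set (Cone N)) (τ : Cone N) (m : Fin N → ℤ) : Cone N →₀ ℚ :=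
  ∑ ρ : Ray N, if ρ ∉ τ ∧ insert ρ τ ∈ K then
    Finsupp.single (insert ρ τ) ((ee ρ : ℚ) * (pr m ρ : ℚ)) else 0

/-- The span of the divisors of characters. -/
def Rel {N : ℕ} (K : Set (Cone N)) : Submodule ℚ (Cone N →₀ ℚ) :=
  Submodule.span ℚ {c | ∃ τ ∈ K, ∃ m : Fin N → ℤ, ∑ i, m i = 0 ∧ (∀ ρ ∈ τ, pr m ρ = 0) ∧
    c = rel K τ m}

/-- Elementary facts on the fans. -/
def FanBasicStmt : Prop :=
  ∀ (n N : ℕ) (K : Set (Cone N)) (S : Finset (Ray N)), 2 ≤ n → n < N → FanTower n N K S →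
    (∅ : Cone N) ∈ K ∧ (∀ σ ∈ K, ∀ τ ⊆ σ, τ ∈ K) ∧ (∀ σ ∈ K, σ.card ≤ n) ∧
    (∀ τ ∈ K, ∃ σ ∈ K, τ ⊆ σ ∧ σ.card = n) ∧
    (∀ σ ∈ K, ∀ ρ ∈ σ, ρ.card = 1 ∨ ρ ∈ S) ∧ (∀ ρ ∈ S, ρ.card = 2) ∧
    (∀ c d : Fin N, c ≠ d → (({{c}, {d}} : Cone N) ∈ K ↔ ({c, d} : Ray N) ∉ S)) ∧
    (∀ σ ∈ K, σ.card = n → ∃ o : Fin N, ({o} : Ray N) ∈ σ)

open Classical in
/-- Poincare duality for the final fan. -/
def FanMainStmt : Prop :=
  ∀ (n N : ℕ) (K : Set (Cone N)), 2 ≤ n → n < N →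
    FanTower n N K (Finset.powersetCard 2 Finset.univ) →
    ∀ (k l : ℕ) (c : Cone N →₀ ℚ), k + l = n → (∀ σ, c σ ≠ 0 → σ ∈ K ∧ σ.card = k) →
    (∀ τ ∈ K, τ.card = l → ∀ c' : Cone N →₀ ℚ,
      (∀ σ, c' σ ≠ 0 → σ ∈ K ∧ σ.card = k ∧ (Disjoint σ τ ∨ σ ∪ τ ∉ K)) → c - c' ∈ Rel K →
      (c'.sum fun σ a => if σ ∪ τ ∈ K then a else 0) = 0) →
    c ∈ Rel K

open Classical in
/-- The unscaled relations. -/
def rel1 {N : ℕ} (K : Set (Cone N)) (τ : Cone N) (m : Fin N → ℤ) : Cone N →₀ ℚ :=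
  ∑ ρ : Ray N, if ρ ∉ τ ∧ insert ρ τ ∈ K then Finsupp.single (insert ρ τ) (pr m ρ : ℚ) else 0

/-- The span of the unscaled relations. -/
def Rel1 {N : ℕ} (K : Set (Cone N)) : Submodule ℚ (Cone N →₀ ℚ) :=
  Submodule.span ℚ {c | ∃ τ ∈ K, ∃ m : Fin N → ℤ, ∑ i, m i = 0 ∧ (∀ ρ ∈ τ, pr m ρ = 0) ∧
    c = rel1 K τ m}

/-- The squarefree monomial of a cone. -/
def xs {N : ℕ} (σ : Cone N) : MvPolynomial (Ray N) ℚ := ∏ ρ ∈ σ, MvPolynomial.X ρ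

/-- The linear form of a character. -/
def linf {N : ℕ} (m : Fin N → ℤ) : MvPolynomial (Ray N) ℚ :=
  ∑ ρ : Ray N, MvPolynomial.C (pr m ρ : ℚ) * MvPolynomial.X ρ

/-- The ideal defining the Chow ring of a simplicial complex of rays. -/
def JJ {N : ℕ} (K : Set (Cone N)) : Ideal (MvPolynomial (Ray N) ℚ) :=
  Ideal.span ({f | ∃ σ, σ ∉ K ∧ f = xs σ} ∪ {f | ∃ m : Fin N → ℤ, ∑ i, m i = 0 ∧ f = linf m})

/-- Every cone has dual characters. -/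
def HasDual {N : ℕ} (K : Set (Cone N)) : Prop :=
  ∀ σ ∈ K, ∀ ρ ∈ σ, ∃ m : Fin N → ℤ, ∑ i, m i = 0 ∧ pr m ρ = 1 ∧ ∀ ρ' ∈ σ, ρ' ≠ ρ → pr m ρ' = 0

/-- The fans have dual characters. -/
def FanDualStmt : Prop :=
  ∀ (n N : ℕ) (K : Set (Cone N)) (S : Finset (Ray N)), 2 ≤ n → n < N → FanTower n N K S →
    HasDual K

/-- The Chow group given by cones and relations embeds in the Chow ring. -/
def FanInjStmt : Prop :=
  ∀ (N : ℕ) (K : Set (Cone N)), (∅ : Cone N) ∈ K → (∀ σ ∈ K, ∀ τ ⊆ σ, τ ∈ K) → HasDual K →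
    ∀ c : Cone N →₀ ℚ, (∀ σ, c σ ≠ 0 → σ ∈ K) →
      (Finsupp.linearCombination ℚ xs c ∈ JJ K ↔ c ∈ Rel1 K)

open Classical in
/-- Poincare duality for the Chow ring. -/
def FanPDStmt : Prop :=
  ∀ (n N : ℕ) (K : Set (Cone N)) (S : Finset (Ray N)), 2 ≤ n → n < N → FanTower n N K S →
    ∃ deg : MvPolynomial (Ray N) ℚ →ₗ[ℚ] ℚ, (∀ f ∈ JJ K, deg f = 0) ∧
      (∀ f, (∀ g, deg (f * g) = 0) → f ∈ JJ K) ∧
      ∀ σ, deg (xs σ) = if σ ∈ K ∧ σ.card = n then 1 else 0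

/-- The maximal cones. -/
abbrev MaxC (n : ℕ) {N : ℕ} (K : Set (Cone N)) : Type := {σ : Cone N // σ ∈ K ∧ σ.card = n}

/-! ### Blow-up charts -/

/-- `φ` is the chart of the blow-up along `(s, t)` where `s` generates. -/
def IsChart {R R₁ : Type} [CommRing R] [CommRing R₁] (φ : R →+* R₁) (s t : R) (r : R₁) : Prop :=
  φ s ∈ nonZeroDivisors R₁ ∧ φ t = r * φ s ∧
  ∀ (A : Type) [CommRing A] (ψ : R →+* A) (r' : A), ψ s ∈ nonZeroDivisors A → ψ t = r' * ψ s →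
    ∃! ψ' : R₁ →+* A, ψ'.comp φ = ψ

/-- Charts of a blow-up given by its universal property. -/
def BlowStmt : Prop :=
  ∀ (B' B : Scheme.{0}) (f : B' ⟶ B) (C : Closeds B),
    IsBlowUp f (Scheme.IdealSheafData.vanishingIdeal C) →
    (∀ (R R₁ R₂ : Type) [CommRing R] [CommRing R₁] [CommRing R₂] (j : Spec (.of R) ⟶ B)
      [IsOpenImmersion j] (s t : R) (φ₁ : R →+* R₁) (r₁ : R₁) (φ₂ : R →+* R₂) (r₂ : R₂),
      (Ideal.span {s, t}).IsRadical →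
      (∀ P : PrimeSpectrum R, j P ∈ C ↔ s ∈ P.asIdeal ∧ t ∈ P.asIdeal) →
      IsChart φ₁ s t r₁ → IsChart φ₂ t s r₂ →
      ∃ (g₁ : Spec (.of R₁) ⟶ B') (g₂ : Spec (.of R₂) ⟶ B'),
        IsOpenImmersion g₁ ∧ IsOpenImmersion g₂ ∧
        g₁ ≫ f = Spec.map (CommRingCat.ofHom φ₁) ≫ j ∧
        g₂ ≫ f = Spec.map (CommRingCat.ofHom φ₂) ≫ j ∧
        Set.range g₁ ∪ Set.range g₂ = f ⁻¹' Set.range j ∧
        (∀ P : PrimeSpectrum R₁, r₁ ∉ P.asIdeal → g₁ P ∈ Set.range g₂) ∧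
        (∀ P : PrimeSpectrum R₂, r₂ ∉ P.asIdeal → g₂ P ∈ Set.range g₁)) ∧
    (∀ (R : Type) [CommRing R] (j : Spec (.of R) ⟶ B) [IsOpenImmersion j], (∀ P, j P ∉ C) →
      ∃ g : Spec (.of R) ⟶ B', IsOpenImmersion g ∧ g ≫ f = j ∧ Set.range g = f ⁻¹' Set.range j) ∧
    (∀ (T : Scheme.{0}) (h h' : T ⟶ B'), h ≫ f = h' ≫ f → (∀ x, f (h x) ∉ C) → h = h')

/-! ### Charts of the iterated blow-up -/

/-- The field of rational functions in the homogeneous coordinates. -/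
def Om (n : ℕ) : Type := FractionRing (MvPolynomial (Fin (n + 1)) ℂ)

instance (n : ℕ) : Field (Om n) :=
  inferInstanceAs (Field (FractionRing (MvPolynomial (Fin (n + 1)) ℂ)))

instance (n : ℕ) : Algebra (MvPolynomial (Fin (n + 1)) ℂ) (Om n) :=
  inferInstanceAs (Algebra _ (FractionRing (MvPolynomial (Fin (n + 1)) ℂ)))

instance (n : ℕ) : IsFractionRing (MvPolynomial (Fin (n + 1)) ℂ) (Om n) :=
  inferInstanceAs (IsFractionRing _ (FractionRing (MvPolynomial (Fin (n + 1)) ℂ)))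

instance (n : ℕ) : Algebra ℂ (Om n) :=
  ((algebraMap (MvPolynomial (Fin (n + 1)) ℂ) (Om n)).comp MvPolynomial.C).toAlgebra

instance (n : ℕ) : IsScalarTower ℂ (MvPolynomial (Fin (n + 1)) ℂ) (Om n) :=
  IsScalarTower.of_algebraMap_eq fun _ => rfl

section Charts

variable {n : ℕ} (ℓ : Fin (2 * n + 2) → Fin (n + 1) → ℂ)

/-- The linear forms as rational functions. -/
def LL (i : Fin (2 * n + 2)) : Om n := algebraMap (MvPolynomial (Fin (n + 1)) ℂ) _ (lin (ℓ i))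

/-- Coordinate ring of the complement of the hyperplanes. -/
def R0 : Subalgebra ℂ (Om n) := adjoin ℂ {x | ∃ i j, x = LL ℓ i / LL ℓ j}

/-- The ratio of two linear forms as an element of `R0`. -/
def ratio (i j : Fin (2 * n + 2)) : R0 ℓ := ⟨LL ℓ i / LL ℓ j, subset_adjoin ⟨i, j, rfl⟩⟩

/-- The set of hyperplanes involved in a cone. -/
def supp {N : ℕ} (σ : Cone N) : Finset (Fin N) := σ.biUnion id

/-- Coordinate ring of the chart of a maximal cone. -/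
def Rc (σ : Cone (2 * n + 2)) (i0 : Fin (2 * n + 2)) (y : Ray (2 * n + 2) → Om n) :
    Subalgebra ℂ (Om n) :=
  adjoin ℂ ({x | ∃ ρ ∈ σ, x = y ρ} ∪ {x | ∃ j, j ∉ supp σ ∧ x = LL ℓ i0 / LL ℓ j})

/-- The coordinate attached to a ray (`1` if the ray is not in the cone). -/
def yc (σ : Cone (2 * n + 2)) (i0 : Fin (2 * n + 2)) (y : Ray (2 * n + 2) → Om n)
    (ρ : Ray (2 * n + 2)) : Rc ℓ σ i0 y :=
  if h : ρ ∈ σ then ⟨y ρ, subset_adjoin (Or.inl ⟨ρ, h, rfl⟩)⟩ else 1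

/-- Toric coordinates `y` on the chart of the cone `σ`. -/
structure Good (σ : Cone (2 * n + 2)) (i0 : Fin (2 * n + 2)) (y : Ray (2 * n + 2) → Om n) :
    Prop where
  i0_notMem : i0 ∉ supp σ
  card_supp : (supp σ).card = n
  card_eq : σ.card = n
  mono : ∀ i ∈ supp σ, LL ℓ i = LL ℓ i0 * ∏ ρ ∈ σ.filter (i ∈ ·), y ρ
  unimod : ∀ i ∈ supp σ, ∃ lam : Ray (2 * n + 2) → ℤ, ∀ j,
    ∑ ρ ∈ σ.filter (j ∈ ·), lam ρ = if j = i then 1 else 0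
  torus : ∀ ρ ∈ σ, y ρ ∈ R0 ℓ ∧ (y ρ)⁻¹ ∈ R0 ℓ ∧ y ρ ≠ 0

/-- The coordinates after blowing up `y {a} = y {b} = 0`, in the chart where `y {a}` generates. -/
def yStep {N : ℕ} {F : Type} [Field F] (y : Ray N → F) (a b : Fin N) : Ray N → F :=
  Function.update (Function.update y {a, b} (y {a})) {b} (y {b} / y {a})

/-- The cone of the chart where `y {a}` generates. -/
def cStep {N : ℕ} (σ : Cone N) (a b : Fin N) : Cone N :=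
  insert ({a, b} : Ray N) (σ.erase ({a} : Ray N))

end Charts

/-- Algebra of the charts of the iterated blow-up. -/
def ChartBStmt : Prop :=
  ∀ (n : ℕ) (ℓ : Fin (2 * n + 2) → Fin (n + 1) → ℂ), 2 ≤ n → GenPos ℓ →
    (∀ i, LL ℓ i ≠ 0) ∧
    (∀ σ i0 y, Good ℓ σ i0 y →
      Rc ℓ σ i0 y ≤ R0 ℓ ∧ (∀ j, LL ℓ j / LL ℓ i0 ∈ Rc ℓ σ i0 y) ∧
      LocSurj (MvPolynomial.aeval fun ρ : σ => yc ℓ σ i0 y ρ) ∧
      Function.Injective (MvPolynomial.aeval (R := ℂ) fun ρ : σ => yc ℓ σ i0 y ρ) ∧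
      (∃ ev : Rc ℓ σ i0 y →ₐ[ℂ] ℂ, ∀ ρ ∈ σ, ev (yc ℓ σ i0 y ρ) = 0) ∧
      ∀ τ ⊆ σ, (Ideal.span (yc ℓ σ i0 y '' τ)).IsPrime ∧
        ∀ ρ ∈ σ, ρ ∉ τ → yc ℓ σ i0 y ρ ∉ Ideal.span (yc ℓ σ i0 y '' τ)) ∧
    (∀ σ ∈ baseFan n (2 * n + 2), σ.card = n → ∀ i0 ∉ supp σ,
      Good ℓ σ i0 fun ρ => ∏ i ∈ ρ, LL ℓ i / LL ℓ i0) ∧
    (∀ σ i0 y (a b : Fin (2 * n + 2)), Good ℓ σ i0 y → a ≠ b → ({a} : Ray _) ∈ σ →
      ({b} : Ray _) ∈ σ → ({a, b} : Ray _) ∉ σ →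
      Good ℓ (cStep σ a b) i0 (yStep y a b) ∧
      ∃ h : Rc ℓ σ i0 y ≤ Rc ℓ (cStep σ a b) i0 (yStep y a b),
        IsChart (R := Rc ℓ σ i0 y) (R₁ := Rc ℓ (cStep σ a b) i0 (yStep y a b))
          (Subalgebra.inclusion h).toRingHom (yc ℓ σ i0 y {a}) (yc ℓ σ i0 y {b})
          (yc ℓ (cStep σ a b) i0 (yStep y a b) {b}))

attribute [local instance] MvPolynomial.gradedAlgebra

/-- Toric-like charts on a scheme `B` over projective space. -/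
structure BModel {n : ℕ} (ℓ : Fin (2 * n + 2) → Fin (n + 1) → ℂ) (B : Scheme.{0})
    (p : B ⟶ Pn n) (K : Set (Cone (2 * n + 2))) where
  i0 : MaxC n K → Fin (2 * n + 2)
  y : MaxC n K → Ray (2 * n + 2) → Om n
  good : ∀ σ, Good ℓ σ.1 (i0 σ) (y σ)
  le : ∀ σ, Rc ℓ σ.1 (i0 σ) (y σ) ≤ R0 ℓ
  j : ∀ σ, Spec (.of (Rc ℓ σ.1 (i0 σ) (y σ))) ⟶ B
  open_j : ∀ σ, IsOpenImmersion (j σ)
  j0 : Spec (.of (R0 ℓ)) ⟶ B
  open_j0 : IsOpenImmersion j0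
  compat : ∀ σ, Spec.map (CommRingCat.ofHom (Subalgebra.inclusion (le σ)).toRingHom) ≫ j σ = j0
  e0 : HomogeneousLocalization.Away (gr n) (∏ i, lin (ℓ i)) ≃+* R0 ℓ
  he0 : ∀ (h : HomogeneousLocalization.Away (gr n) (∏ i, lin (ℓ i)))
    (P Q : MvPolynomial (Fin (n + 1)) ℂ), h.val * algebraMap _ _ Q = algebraMap _ _ P →
      (e0 h : Om n) * algebraMap _ _ Q = algebraMap _ _ P
  base : ∀ (hF : ∏ i, lin (ℓ i) ∈ gr n (2 * n + 2)) (hm : 0 < 2 * n + 2),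
    j0 ≫ p = Spec.map (CommRingCat.ofHom e0.toRingHom) ≫
      Proj.awayι (gr n) (∏ i, lin (ℓ i)) hF hm
  range0 : Set.range j0 = p ⁻¹' (Dplus (∏ i, lin (ℓ i)) : Set (Pn n))
  D : Ray (2 * n + 2) → Set B
  closed : ∀ ρ, IsClosed (D ρ)
  memD : ∀ σ ρ (P : PrimeSpectrum (Rc ℓ σ.1 (i0 σ) (y σ))),
    j σ P ∈ D ρ ↔ yc ℓ σ.1 (i0 σ) (y σ) ρ ∈ P.asIdeal
  memU : ∀ σ x, x ∈ Set.range (j σ) ↔ ∀ ρ ∉ σ.1, x ∉ D ρ
  memU0 : ∀ x, x ∈ Set.range j0 ↔ ∀ ρ, x ∉ D ρ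
  cover : ∀ x, ∃ σ, x ∈ Set.range (j σ)

/-- The charts of projective space. -/
def TowerBaseStmt : Prop :=
  ∀ (n : ℕ) (ℓ : Fin (2 * n + 2) → Fin (n + 1) → ℂ), 2 ≤ n → GenPos ℓ →
    ∃ M : BModel ℓ (Pn n) (𝟙 _) (baseFan n (2 * n + 2)),
      ∀ i, M.D {i} = (Dplus (lin (ℓ i)) : Set (Pn n))ᶜ

/-- The charts after one more blow-up. -/
def TowerStepStmt : Prop :=
  ∀ (n : ℕ) (ℓ : Fin (2 * n + 2) → Fin (n + 1) → ℂ), 2 ≤ n → GenPos ℓ →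
    ∀ (B B' : Scheme.{0}) (p : B ⟶ Pn n) (f : B' ⟶ B) (K : Set (Cone (2 * n + 2)))
      (S : Finset (Ray (2 * n + 2))) (M : BModel ℓ B p K) (a b : Fin (2 * n + 2)),
      FanTower n (2 * n + 2) K S → a ≠ b → ({a, b} : Ray _) ∉ S →
      IsBlowUp f (Scheme.IdealSheafData.vanishingIdeal (Closeds.closure (M.D {a} ∩ M.D {b}))) →
      ∃ M' : BModel ℓ B' (f ≫ p) (blowFan K a b), ∀ c d, c ≠ d → ({c, d} : Ray _) ≠ {a, b} →
        M'.D {c} ∩ M'.D {d} = closure (f ⁻¹' ((M.D {c} ∩ M.D {d}) \ (M.D {a} ∩ M.D {b})))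

/-! ### Charts of the double cover -/

/-- The properties of a chart of the double cover. -/
structure XChart (n : ℕ) {N : ℕ} (σ : Cone N) (A : Type) [CommRing A] [IsDomain A] [Algebra ℂ A]
    (t : Ray N → A) : Prop where
  ft : FiniteType ℂ A
  dim : dm (gen A) = n
  one : ∀ ρ ∉ σ, t ρ = 1
  prime : ∀ τ ⊆ σ, (Ideal.span (t '' τ)).IsPrime
  notMem : ∀ τ ⊆ σ, ∀ ρ ∈ σ, ρ ∉ τ → t ρ ∉ Ideal.span (t '' τ)
  aff : ∀ τ ⊆ σ, τ.Nonempty → ∀ P : PrimeSpectrum A, Ideal.span (t '' τ) < P.asIdeal →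
    (∀ ρ ∉ τ, t ρ ∉ P.asIdeal) → ∃ c ∈ RatOn (Ideal.span (t '' τ)),
      ∀ z : PrimeSpectrum A, (∀ ρ ∉ τ, t ρ ∉ z.asIdeal) → c z = Finsupp.single P (1 : ℚ) z

/-- The chart of the double cover, given its explicit form. -/
def ChartX2Stmt : Prop :=
  ∀ (n : ℕ) (ℓ : Fin (2 * n + 2) → Fin (n + 1) → ℂ), 2 ≤ n → GenPos ℓ →
    ∀ σ i0 y, Good ℓ σ i0 y → ∀ (o : Fin (2 * n + 2)),
    ({o} : Ray _) ∈ σ → (∀ ρ ∈ σ, ρ ≠ {o} → ρ.card = 2) →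
    ∀ (A : Type) [CommRing A] [IsDomain A] [Algebra ℂ A] (γ : Rc ℓ σ i0 y →ₐ[ℂ] A) (w : A)
      (u : Rc ℓ σ i0 y), (u : Om n) = ∏ j ∈ (supp σ)ᶜ, LL ℓ j / LL ℓ i0 →
      w ^ 2 = γ (u * yc ℓ σ i0 y {o}) →
      Function.Bijective (fun ab : Rc ℓ σ i0 y × Rc ℓ σ i0 y => γ ab.1 + γ ab.2 * w) →
      XChart n σ A (Function.update (fun ρ => γ (yc ℓ σ i0 y ρ)) {o} w)

/-- Algebra of the charts of the double cover. -/
def ChartXStmt : Prop :=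
  ∀ (n : ℕ) (ℓ : Fin (2 * n + 2) → Fin (n + 1) → ℂ), 2 ≤ n → GenPos ℓ →
    ∀ σ i0 y, Good ℓ σ i0 y → ∀ (hle : Rc ℓ σ i0 y ≤ R0 ℓ) (o : Fin (2 * n + 2)),
    ({o} : Ray _) ∈ σ → (∀ ρ ∈ σ, ρ ≠ {o} → ρ.card = 2) →
    ∀ (A : Type) [CommRing A] [IsDomain A] [IsIntegrallyClosed A] [Algebra ℂ A]
      (γ : Rc ℓ σ i0 y →ₐ[ℂ] A) (R' : Type) [CommRing R'] [IsDomain R'] (β : R0 ℓ →+* R')
      (α : A →+* R') (w : R') (h0 : R0 ℓ),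
      (γ : Rc ℓ σ i0 y →+* A).Finite → Function.Injective α →
      (∀ r, α (γ r) = β (Subalgebra.inclusion hle r)) →
      (h0 : Om n) * LL ℓ 0 ^ (2 * n + 2) = ∏ i, LL ℓ i → w ^ 2 = β h0 →
      Function.Bijective (fun ab : R0 ℓ × R0 ℓ => β ab.1 + β ab.2 * w) →
      (∀ r : R', ∃ a b : A, b ≠ 0 ∧ r * α b = α a) →
      ∃ t : Ray (2 * n + 2) → A, XChart n σ A t ∧
        (∀ ρ (P : PrimeSpectrum A), t ρ ∈ P.asIdeal ↔ γ (yc ℓ σ i0 y ρ) ∈ P.asIdeal) ∧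
        ∃ (g : R') (u : Fin (2 * n + 2) → A), IsUnit g ∧ ∀ i, IsUnit (u i) ∧
          β (ratio ℓ i 0) = g * α (u i * ∏ ρ ∈ σ.filter (i ∈ ·), t ρ ^ ee ρ)

/-- Algebra of the unramified part of the double cover. -/
def TorusXStmt : Prop :=
  ∀ (n : ℕ) (ℓ : Fin (2 * n + 2) → Fin (n + 1) → ℂ), 2 ≤ n → GenPos ℓ →
    ∀ (R' : Type) [CommRing R'] [IsDomain R'] [Algebra ℂ R'] (β : R0 ℓ →ₐ[ℂ] R') (w : R')
      (h0 : R0 ℓ), (h0 : Om n) * LL ℓ 0 ^ (2 * n + 2) = ∏ i, LL ℓ i → w ^ 2 = β h0 →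
      Function.Bijective (fun ab : R0 ℓ × R0 ℓ => β ab.1 + β ab.2 * w) →
      FiniteType ℂ R' ∧ dm (gen R') = n ∧ Nonempty (TorusData n R')

/-- Charts on the double cover. -/
structure XModel (n : ℕ) {N : ℕ} (K : Set (Cone N)) (X : Scheme.{0}) where
  integral : IsIntegral X
  noeth : IsLocallyNoetherian X
  U : MaxC n K → X.Opens
  aff : ∀ σ, IsAffineOpen (U σ)
  dom : ∀ σ, IsDomain Γ(X, U σ)
  alg : ∀ σ, Algebra ℂ Γ(X, U σ)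
  t : ∀ σ, Ray N → Γ(X, U σ)
  chart : ∀ σ, XChart n σ.1 Γ(X, U σ) (t σ)
  U0 : X.Opens
  aff0 : IsAffineOpen U0
  dom0 : IsDomain Γ(X, U0)
  alg0 : Algebra ℂ Γ(X, U0)
  ft0 : FiniteType ℂ Γ(X, U0)
  dim0 : dm (gen Γ(X, U0)) = n
  torus : TorusData n Γ(X, U0)
  le : ∀ σ, U0 ≤ U σ
  D : Ray N → Set X
  memD : ∀ σ ρ, ∀ x ∈ U σ, x ∈ D ρ ↔ x ∉ X.basicOpen (t σ ρ)
  memU : ∀ σ x, x ∈ U σ ↔ ∀ ρ ∉ σ.1, x ∉ D ρ
  memU0 : ∀ x, x ∈ U0 ↔ ∀ ρ, x ∉ D ρ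
  cover : ∀ x, ∃ σ, x ∈ U σ
  χ : Fin N → Γ(X, U0)
  chars : ∀ σ, ∃ (g : Γ(X, U0)) (u : Fin N → Γ(X, U σ)), IsUnit g ∧ ∀ i, IsUnit (u i) ∧
    χ i = g * X.presheaf.map (homOfLE (le σ)).op (u i * ∏ ρ ∈ σ.1.filter (i ∈ ·), t σ ρ ^ ee ρ)

/-- The double cover of the final blow-up has charts. -/
def CoverStmt : Prop :=
  ∀ (n : ℕ) (ℓ : Fin (2 * n + 2) → Fin (n + 1) → ℂ), 2 ≤ n → GenPos ℓ →
    ∀ (B X : Scheme.{0}) (p : B ⟶ Pn n) (π : X ⟶ B) (K : Set (Cone (2 * n + 2))),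
      FanTower n (2 * n + 2) K (Finset.powersetCard 2 Finset.univ) → BModel ℓ B p K →
      DoubleCover ℓ π p → Nonempty (XModel n K X)

/-! ### From affine charts to the scheme -/

/-- Points of an affine open set and prime ideals. -/
def PointStmt : Prop :=
  ∀ (X : Scheme.{0}) (U : X.Opens) (hU : IsAffineOpen U) (x z : X) (hx : x ∈ U) (hz : z ∈ U),
    (x ⤳ z ↔ hU.primeIdealOf ⟨x, hx⟩ ≤ hU.primeIdealOf ⟨z, hz⟩) ∧
    Order.coheight z = (hU.primeIdealOf ⟨z, hz⟩).asIdeal.height ∧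
    (∀ r : Γ(X, U), r ∈ (hU.primeIdealOf ⟨z, hz⟩).asIdeal ↔ z ∉ X.basicOpen r) ∧
    (x ⤳ z → primeAt x z =
      (hU.primeIdealOf ⟨x, hx⟩).asIdeal.map (X.presheaf.germ U z hz).hom)

/-- Divisors of rational functions on closures of points. -/
def DivStmt : Prop :=
  ∀ (X : Scheme.{0}) [IsLocallyNoetherian X], ∃ dX : ∀ x : X, X.residueField x → X → ℚ,
    (∀ x θ θ', θ ≠ 0 → θ' ≠ 0 → dX x (θ * θ') = dX x θ + dX x θ') ∧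
    (∀ x θ z, dX x θ z ≠ 0 → x ⤳ z) ∧
    (∀ x θ (k : ℕ), θ ≠ 0 → Order.coheight x + 1 = (k : ℕ∞) → dX x θ ∈ Rat X k) ∧
    ∀ (U : X.Opens) (hU : IsAffineOpen U) [Algebra ℂ Γ(X, U)] [EssFiniteType ℂ Γ(X, U)]
      (x z : X) (hx : x ∈ U) (hz : z ∈ U) (r : Γ(X, U)), r ∉ (hU.primeIdealOf ⟨x, hx⟩).asIdeal →
      dX x (X.evaluation U x hx r) z =
        dv (hU.primeIdealOf ⟨x, hx⟩) r (hU.primeIdealOf ⟨z, hz⟩)

end Pool.Agent.Lib.MP_2c79a0_ag
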