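import Mathlib

/-! Additive length functions on modules and Herbrand quotients of two-periodic complexes
given by multiplications on subquotients. -/

namespace Pool.Agent.Lib.MP_2c79a0_ag.H68Herb

open Submodule

universe u

/-- An additive `ℕ∞`-valued function on `B`-modules. -/
structure AddLen (B : Type u) [CommRing B] where
  len : (N : Type u) → [AddCommGroup N] → [Module B N] → ℕ∞
  zero : ∀ (N : Type u) [AddCommGroup N] [Module B N] [Subsingleton N], len N = 0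
  add : ∀ (N₁ N₂ N₃ : Type u) [AddCommGroup N₁] [Module B N₁] [AddCommGroup N₂] [Module B N₂]
    [AddCommGroup N₃] [Module B N₃] (f : N₁ →ₗ[B] N₂) (g : N₂ →ₗ[B] N₃),
    Function.Injective f → Function.Surjective g → Function.Exact f g →
    len N₂ = len N₁ + len N₃

variable {B : Type u} [CommRing B] (L : AddLen B)

namespace AddLen

variable {M M' X Y Z : Type u} [AddCommGroup M] [Module B M] [AddCommGroup M'] [Module B M']
  [AddCommGroup X] [Module B X] [AddCommGroup Y] [Module B Y] [AddCommGroup Z] [Module B Z]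

lemma len_equiv (e : X ≃ₗ[B] Y) : L.len X = L.len Y := by
  have := L.add X Y PUnit.{u + 1} e 0 e.injective (Function.surjective_to_subsingleton _)
    ((e.exact_zero_iff_surjective _).2 e.surjective)
  rw [this, L.zero PUnit.{u + 1}, add_zero]

lemma len_eq_ker_add_range (f : X →ₗ[B] Y) :
    L.len X = L.len (LinearMap.ker f) + L.len (LinearMap.range f) := by
  refine L.add _ _ _ (LinearMap.ker f).subtype f.rangeRestrict (subtype_injective _)
    f.surjective_rangeRestrict ?_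
  intro x
  simp [LinearMap.rangeRestrict, Subtype.ext_iff]

lemma len_range_eq (f : X →ₗ[B] Y) (g : X →ₗ[B] Z) (h : LinearMap.ker f = LinearMap.ker g) :
    L.len (LinearMap.range f) = L.len (LinearMap.range g) :=
  L.len_equiv (f.quotKerEquivRange.symm.trans ((quotEquivOfEq _ _ h).trans g.quotKerEquivRange))

lemma len_congr {P Q : Submodule B M} (h : P = Q) : L.len P = L.len Q := by subst h; rfl

/-- Relative length of `P` modulo `Q`. -/
def rl (Q P : Submodule B M) : ℕ∞ := L.len (P.map Q.mkQ)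

lemma rl_congr (f : M →ₗ[B] M') {Q P : Submodule B M} {Q' P' : Submodule B M'}
    (h1 : P.map f ⊔ Q' = P' ⊔ Q') (h2 : ∀ x ∈ P, f x ∈ Q' ↔ x ∈ Q) :
    L.rl Q P = L.rl Q' P' := by
  have e1 : P.map Q.mkQ = LinearMap.range (Q.mkQ ∘ₗ P.subtype) := by
    rw [LinearMap.range_comp, range_subtype]
  have e2 : P'.map Q'.mkQ = LinearMap.range (Q'.mkQ ∘ₗ f ∘ₗ P.subtype) := by
    rw [LinearMap.range_comp, LinearMap.range_comp, range_subtype]
    have : ∀ T : Submodule B M', (T ⊔ Q').map Q'.mkQ = T.map Q'.mkQ := by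
      intro T; rw [Submodule.map_sup, mkQ_map_self, sup_bot_eq]
    rw [← this (P.map f), h1, this]
  unfold rl
  rw [L.len_congr e1, L.len_congr e2]
  apply L.len_range_eq
  ext ⟨x, hx⟩
  simp [h2 x hx]

lemma rl_congr_id {Q P Q' P' : Submodule B M}
    (h1 : P ⊔ Q' = P' ⊔ Q') (h2 : ∀ x ∈ P, x ∈ Q' ↔ x ∈ Q) : L.rl Q P = L.rl Q' P' :=
  L.rl_congr LinearMap.id (by simpa using h1) h2

lemma rl_add {Q P S : Submodule B M} (h1 : Q ≤ P) (h2 : P ≤ S) :
    L.rl Q S = L.rl Q P + L.rl P S := by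
  unfold rl
  let f : S.map Q.mkQ →ₗ[B] M ⧸ P := (factor h1) ∘ₗ (S.map Q.mkQ).subtype
  rw [L.len_eq_ker_add_range f]
  congr 1
  · have : LinearMap.ker f = (P.map Q.mkQ).submoduleOf (S.map Q.mkQ) := by
      ext ⟨x, hx⟩
      obtain ⟨y, -, rfl⟩ := hx
      have h0 : (factor h1) (Q.mkQ y) = 0 ↔ y ∈ P := by
        rw [factor_mk, mkQ_apply, Quotient.mk_eq_zero]
      simp only [f, LinearMap.mem_ker, LinearMap.comp_apply, subtype_apply, submoduleOf,
        mem_comap, mem_map, h0]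
      constructor
      · intro h; exact ⟨y, h, rfl⟩
      · rintro ⟨z, hz, hzy⟩
        have := (Submodule.Quotient.eq Q).mp hzy
        have h3 := P.sub_mem hz (h1 this)
        simpa using h3
    rw [L.len_congr this]
    exact L.len_equiv (submoduleOfEquivOfLe (map_mono h2))
  · apply L.len_congr
    rw [LinearMap.range_comp, range_subtype, ← map_comp, factor_comp_mk]

lemma rl_of_le {Q P : Submodule B M} (h : P ≤ Q) : L.rl Q P = 0 := by
  unfold rl
  have : P.map Q.mkQ = ⊥ := by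
    rw [eq_bot_iff, map_le_iff_le_comap, comap_bot, ker_mkQ]; exact h
  rw [L.len_congr this]
  exact L.zero _

lemma rl_top (Q : Submodule B M) : L.rl Q ⊤ = L.len (M ⧸ Q) := by
  unfold rl
  rw [L.len_congr (P := map Q.mkQ ⊤) (Q := ⊤) (by rw [Submodule.map_top, range_mkQ])]
  exact L.len_equiv topEquiv

lemma rl_bot (P : Submodule B M) : L.rl ⊥ P = L.len P := by
  unfold rl
  exact (L.len_equiv (equivMapOfInjective _ (by
    rw [← LinearMap.ker_eq_bot, ker_mkQ]) P)).symm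

/-- Multiplication by a ring element. -/
abbrev mu (M : Type u) [AddCommGroup M] [Module B M] (a : B) : M →ₗ[B] M := LinearMap.lsmul B M a

lemma mem_map_mu {a : B} {J : Submodule B M} {x : M} :
    x ∈ J.map (mu M a) ↔ ∃ y ∈ J, a • y = x := by simp [mu]

lemma mem_comap_mu {a : B} {J : Submodule B M} {x : M} :
    x ∈ J.comap (mu M a) ↔ a • x ∈ J := by simp [mu]

lemma map_mu_le (a : B) (J : Submodule B M) : J.map (mu M a) ≤ J := by
  intro x hx
  obtain ⟨y, hy, rfl⟩ := mem_map_mu.mp hx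
  exact J.smul_mem a hy

lemma le_comap_mu (a : B) (J : Submodule B M) : J ≤ J.comap (mu M a) :=
  fun _ hx => mem_comap_mu.mpr (J.smul_mem a hx)

/-- Length of `ker a / im b` on the subquotient `J / I`. -/
def H (a b : B) (I J : Submodule B M) : ℕ∞ :=
  L.rl (J.map (mu M b) ⊔ I) (I.comap (mu M a) ⊓ J)

lemma half_hex (a b : B) {I J S : Submodule B M} (hIJ : I ≤ J) (hJS : J ≤ S)
    (hab : ∀ x ∈ S, a • b • x ∈ I) :
    ∃ β γ : ℕ∞,
      L.H a b I J = L.rl (J.map (mu M b) ⊔ I) ((S.map (mu M b) ⊔ I) ⊓ J) + β ∧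
      L.H a b I S = β + γ ∧
      L.H a b J S = γ + L.rl (J.map (mu M a) ⊔ I) ((S.map (mu M a) ⊔ I) ⊓ J) := by
  have hbS : S.map (mu M b) ⊔ I ≤ I.comap (mu M a) ⊓ S := by
    refine le_inf (sup_le ?_ (le_comap_mu a I)) (sup_le (map_mu_le b S) (hIJ.trans hJS))
    intro x hx
    obtain ⟨y, hy, rfl⟩ := mem_map_mu.mp hx
    exact mem_comap_mu.mpr (hab y hy)
  refine ⟨L.rl ((S.map (mu M b) ⊔ I) ⊓ J) (I.comap (mu M a) ⊓ J),
    L.rl (S.map (mu M b) ⊔ J) ((I.comap (mu M a) ⊓ S) ⊔ J), ?_, ?_, ?_⟩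
  · unfold H
    apply L.rl_add
    · exact le_inf (sup_le_sup_right (map_mono hJS) _) (sup_le (map_mu_le b J) hIJ)
    · exact inf_le_inf_right _ (hbS.trans inf_le_left)
  · unfold H
    rw [L.rl_add (P := (S.map (mu M b) ⊔ I) ⊔ (I.comap (mu M a) ⊓ J)) le_sup_left
      (sup_le hbS (inf_le_inf_left _ hJS))]
    congr 1
    · symm
      apply L.rl_congr_id
      · rw [sup_comm (S.map (mu M b) ⊔ I) (I.comap (mu M a) ⊓ J), sup_assoc, sup_idem]
      · intro x hx
        exact ⟨fun h => ⟨h, hx.2⟩, fun h => h.1⟩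
    · apply L.rl_congr_id
      · rw [sup_assoc, sup_comm J (S.map (mu M b) ⊔ J), sup_assoc, sup_idem]
      · intro x hx
        constructor
        · intro h
          obtain ⟨y, hy, z, hz, rfl⟩ := mem_sup.mp h
          refine add_mem (mem_sup_left (mem_sup_left hy)) (mem_sup_right ⟨?_, hz⟩)
          have h1 : y ∈ I.comap (mu M a) := (hbS (mem_sup_left hy)).1
          simpa using (I.comap (mu M a)).sub_mem hx.1 h1
        · intro h
          exact (sup_le (sup_le le_sup_left (hIJ.trans le_sup_right))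
            (inf_le_right.trans le_sup_right) : _ ≤ S.map (mu M b) ⊔ J) h
  · unfold H
    rw [L.rl_add (P := (I.comap (mu M a) ⊓ S) ⊔ J)
      (sup_le_sup_right (le_sup_left.trans hbS) _)
      (sup_le (inf_le_inf_right _ (comap_mono hIJ)) (le_inf (le_comap_mu a J) hJS))]
    congr 1
    apply L.rl_congr (mu M a)
    · apply le_antisymm
      · refine sup_le ?_ le_sup_right
        intro x hx
        obtain ⟨y, hy, rfl⟩ := mem_map_mu.mp hx
        exact mem_sup_left ⟨mem_sup_left (mem_map_mu.mpr ⟨y, hy.2, rfl⟩), mem_comap_mu.mp hy.1⟩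
      · refine sup_le ?_ le_sup_right
        rintro x ⟨hx, hxJ⟩
        obtain ⟨y, hy, z, hz, rfl⟩ := mem_sup.mp hx
        obtain ⟨w, hw, rfl⟩ := mem_map_mu.mp hy
        refine add_mem (mem_sup_left (mem_map_mu.mpr ⟨w, ⟨mem_comap_mu.mpr ?_, hw⟩, rfl⟩))
          (mem_sup_right (mem_sup_right hz))
        simpa using J.sub_mem hxJ (hIJ hz)
    · intro x hx
      constructor
      · intro h
        obtain ⟨y, hy, z, hz, hyz⟩ := mem_sup.mp h
        obtain ⟨w, hw, rfl⟩ := mem_map_mu.mp hy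
        have : x = (x - w) + w := by abel
        rw [this]
        refine add_mem (mem_sup_left ⟨mem_comap_mu.mpr ?_, S.sub_mem hx.2 (hJS hw)⟩)
          (mem_sup_right hw)
        have h3 : a • x = a • w + z := hyz.symm
        rw [smul_sub, h3]; simpa using hz
      · intro h
        obtain ⟨y, hy, z, hz, rfl⟩ := mem_sup.mp h
        rw [map_add]
        exact add_mem (mem_sup_right (mem_comap_mu.mp hy.1))
          (mem_sup_left (mem_map_mu.mpr ⟨z, hz, rfl⟩))

/-- Both cohomologies have finite length and the Herbrand difference is `n`. -/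
def Ev (a b : B) (I J : Submodule B M) (n : ℤ) : Prop :=
  ∃ x y : ℕ, L.H a b I J = x ∧ L.H b a I J = y ∧ n = (x : ℤ) - y

variable {L}

lemma Ev.unique {a b : B} {I J : Submodule B M} {n m : ℤ} (h : L.Ev a b I J n)
    (h' : L.Ev a b I J m) : n = m := by
  obtain ⟨x, y, hx, hy, rfl⟩ := h
  obtain ⟨x', y', hx', hy', rfl⟩ := h'
  rw [hx] at hx'; rw [hy] at hy'
  have h1 : x = x' := by exact_mod_cast hx'
  have h2 : y = y' := by exact_mod_cast hy'
  rw [h1, h2]

lemma Ev.symm {a b : B} {I J : Submodule B M} {n : ℤ} (h : L.Ev a b I J n) :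
    L.Ev b a I J (-n) := by
  obtain ⟨x, y, hx, hy, rfl⟩ := h
  exact ⟨y, x, hy, hx, by ring⟩

private lemma fin_of_add {a b : ℕ∞} {n : ℕ} (h : a + b = n) :
    ∃ x y : ℕ, a = x ∧ b = y ∧ x + y = n := by
  have ha : a ≠ ⊤ := by rintro rfl; simp at h
  have hb : b ≠ ⊤ := by rintro rfl; simp at h
  lift a to ℕ using ha
  lift b to ℕ using hb
  exact ⟨a, b, rfl, rfl, by exact_mod_cast h⟩

lemma Ev.add {a b : B} {I J S : Submodule B M} (hIJ : I ≤ J) (hJS : J ≤ S)
    (hab : ∀ x ∈ S, a • b • x ∈ I) {n m : ℤ} (h1 : L.Ev a b I J n) (h2 : L.Ev a b J S m) :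
    L.Ev a b I S (n + m) := by
  obtain ⟨β, γ, e1, e2, e3⟩ := L.half_hex a b hIJ hJS hab
  obtain ⟨β', γ', e1', e2', e3'⟩ := L.half_hex b a hIJ hJS
    (fun x hx => by rw [smul_comm]; exact hab x hx)
  obtain ⟨x, y, hx, hy, rfl⟩ := h1
  obtain ⟨x', y', hx', hy', rfl⟩ := h2
  obtain ⟨p1, p2, q1, rfl, r1⟩ := fin_of_add (e1.symm.trans hx)
  obtain ⟨p3, p4, rfl, q4, r2⟩ := fin_of_add (e3.symm.trans hx')
  obtain ⟨p5, p6, q5, rfl, r3⟩ := fin_of_add (e1'.symm.trans hy)
  obtain ⟨p7, p8, rfl, q8, r4⟩ := fin_of_add (e3'.symm.trans hy')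
  have s1 : p1 = p8 := by rw [q1] at q8; exact_mod_cast q8
  have s2 : p4 = p5 := by rw [q4] at q5; exact_mod_cast q5
  refine ⟨p2 + p3, p6 + p7, by rw [e2]; push_cast; rfl, by rw [e2']; push_cast; rfl, ?_⟩
  push_cast; omega

lemma Ev.sub_left {a b : B} {I J S : Submodule B M} (hIJ : I ≤ J) (hJS : J ≤ S)
    (hab : ∀ x ∈ S, a • b • x ∈ I) {n m : ℤ} (h1 : L.Ev a b I S n) (h2 : L.Ev a b J S m) :
    L.Ev a b I J (n - m) := by
  obtain ⟨β, γ, e1, e2, e3⟩ := L.half_hex a b hIJ hJS hab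
  obtain ⟨β', γ', e1', e2', e3'⟩ := L.half_hex b a hIJ hJS
    (fun x hx => by rw [smul_comm]; exact hab x hx)
  obtain ⟨x, y, hx, hy, rfl⟩ := h1
  obtain ⟨x', y', hx', hy', rfl⟩ := h2
  obtain ⟨p1, p2, rfl, rfl, r1⟩ := fin_of_add (e2.symm.trans hx)
  obtain ⟨p3, p4, q3, q4, r2⟩ := fin_of_add (e3.symm.trans hx')
  obtain ⟨p5, p6, rfl, rfl, r3⟩ := fin_of_add (e2'.symm.trans hy)
  obtain ⟨p7, p8, q7, q8, r4⟩ := fin_of_add (e3'.symm.trans hy')
  have s1 : p2 = p3 := by exact_mod_cast q3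
  have s2 : p6 = p7 := by exact_mod_cast q7
  refine ⟨p8 + p1, p4 + p5, by rw [e1, q8]; push_cast; rfl, by rw [e1', q4]; push_cast; rfl, ?_⟩
  push_cast; omega

lemma Ev.sub_right {a b : B} {I J S : Submodule B M} (hIJ : I ≤ J) (hJS : J ≤ S)
    (hab : ∀ x ∈ S, a • b • x ∈ I) {n m : ℤ} (h1 : L.Ev a b I S n) (h2 : L.Ev a b I J m) :
    L.Ev a b J S (n - m) := by
  obtain ⟨β, γ, e1, e2, e3⟩ := L.half_hex a b hIJ hJS hab
  obtain ⟨β', γ', e1', e2', e3'⟩ := L.half_hex b a hIJ hJS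
    (fun x hx => by rw [smul_comm]; exact hab x hx)
  obtain ⟨x, y, hx, hy, rfl⟩ := h1
  obtain ⟨x', y', hx', hy', rfl⟩ := h2
  obtain ⟨p1, p2, rfl, rfl, r1⟩ := fin_of_add (e2.symm.trans hx)
  obtain ⟨p3, p4, q3, q4, r2⟩ := fin_of_add (e1.symm.trans hx')
  obtain ⟨p5, p6, rfl, rfl, r3⟩ := fin_of_add (e2'.symm.trans hy)
  obtain ⟨p7, p8, q7, q8, r4⟩ := fin_of_add (e1'.symm.trans hy')
  have s1 : p1 = p4 := by exact_mod_cast q4
  have s2 : p5 = p8 := by exact_mod_cast q8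
  refine ⟨p2 + p7, p6 + p3, by rw [e3, q7]; push_cast; rfl, by rw [e3', q3]; push_cast; rfl, ?_⟩
  push_cast; omega

lemma rl_eq_three (a b : B) {I J : Submodule B M} (hIJ : I ≤ J)
    (hab : ∀ x ∈ J, a • b • x ∈ I) :
    L.rl I J = L.rl I (J.map (mu M b) ⊔ I) + L.H a b I J + L.rl I (J.map (mu M a) ⊔ I) := by
  have hb : J.map (mu M b) ⊔ I ≤ I.comap (mu M a) ⊓ J := by
    refine le_inf (sup_le ?_ (le_comap_mu a I)) (sup_le (map_mu_le b J) hIJ)
    intro x hx
    obtain ⟨y, hy, rfl⟩ := mem_map_mu.mp hx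
    exact mem_comap_mu.mpr (hab y hy)
  rw [L.rl_add (P := I.comap (mu M a) ⊓ J) (le_inf (le_comap_mu a I) hIJ) inf_le_right,
    L.rl_add (P := J.map (mu M b) ⊔ I) le_sup_right hb]
  congr 1
  apply L.rl_congr (mu M a)
  · rw [sup_assoc, sup_idem]
  · intro x hx
    exact ⟨fun h => ⟨h, hx⟩, fun h => h.1⟩

/-- A subquotient of finite length has Herbrand difference zero. -/
lemma ev_zero_of_ne_top (a b : B) {I J : Submodule B M} (hIJ : I ≤ J)
    (hab : ∀ x ∈ J, a • b • x ∈ I) (hfin : L.rl I J ≠ ⊤) : L.Ev a b I J 0 := by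
  have e1 := rl_eq_three (L := L) a b hIJ hab
  have e2 := rl_eq_three (L := L) b a hIJ (fun x hx => by rw [smul_comm]; exact hab x hx)
  lift L.rl I J to ℕ using hfin with n hn
  obtain ⟨p1, p2, q1, q2, r1⟩ := fin_of_add e1.symm
  obtain ⟨p3, p4, q3, q4, r2⟩ := fin_of_add q1
  obtain ⟨p5, p6, q5, q6, r3⟩ := fin_of_add e2.symm
  obtain ⟨p7, p8, q7, q8, r4⟩ := fin_of_add q5
  have s1 : p2 = p7 := by rw [q2] at q7; exact_mod_cast q7
  have s2 : p3 = p6 := by rw [q3] at q6; exact_mod_cast q6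
  exact ⟨p4, p8, q4, q8, by omega⟩

/-- Transport of the cohomology along a map inducing an isomorphism of subquotients. -/
lemma H_congr (f : M →ₗ[B] M') (a b : B) {I J : Submodule B M} {I' J' : Submodule B M'}
    (hIJ : I ≤ J) (hIJ' : I' ≤ J')
    (h1 : J.map f ⊔ I' = J') (h2 : ∀ x ∈ J, f x ∈ I' ↔ x ∈ I) :
    L.H a b I J = L.H a b I' J' := by
  unfold H
  apply L.rl_congr f
  · apply le_antisymm
    · refine sup_le ?_ le_sup_right
      rintro _ ⟨x, hx, rfl⟩
      refine mem_sup_left ⟨mem_comap_mu.mpr ?_, ?_⟩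
      · rw [← map_smul]
        exact (h2 _ (J.smul_mem a hx.2)).mpr (mem_comap_mu.mp hx.1)
      · rw [← h1]; exact mem_sup_left ⟨x, hx.2, rfl⟩
    · refine sup_le ?_ le_sup_right
      rintro y ⟨hy1, hy2⟩
      rw [← h1] at hy2
      obtain ⟨_, ⟨x, hx, rfl⟩, z, hz, rfl⟩ := mem_sup.mp hy2
      refine add_mem (mem_sup_left ⟨x, ⟨mem_comap_mu.mpr ?_, hx⟩, rfl⟩)
        (mem_sup_right (mem_sup_right hz))
      rw [← h2 _ (J.smul_mem a hx), map_smul]
      have := I'.sub_mem (mem_comap_mu.mp hy1) (I'.smul_mem a hz)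
      simpa using this
  · intro x hx
    constructor
    · intro h
      obtain ⟨y, hy, z, hz, hyz⟩ := mem_sup.mp h
      obtain ⟨w, hw, rfl⟩ := mem_map_mu.mp hy
      rw [← h1] at hw
      obtain ⟨_, ⟨w1, hw1, rfl⟩, w2, hw2, rfl⟩ := mem_sup.mp hw
      have h3 : x - b • w1 ∈ I := by
        rw [← h2 _ (J.sub_mem hx.2 (J.smul_mem b hw1)), map_sub, map_smul, ← hyz, smul_add]
        have : b • f w1 + b • w2 + z - b • f w1 = b • w2 + z := by abel
        rw [this]
        exact add_mem (I'.smul_mem b hw2) hz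
      have : x = b • w1 + (x - b • w1) := by abel
      rw [this]
      exact add_mem (mem_sup_left (mem_map_mu.mpr ⟨w1, hw1, rfl⟩)) (mem_sup_right h3)
    · intro h
      obtain ⟨y, hy, z, hz, rfl⟩ := mem_sup.mp h
      obtain ⟨w, hw, rfl⟩ := mem_map_mu.mp hy
      rw [map_add, map_smul]
      refine add_mem (mem_sup_left (mem_map_mu.mpr ⟨f w, ?_, rfl⟩))
        (mem_sup_right ((h2 z (hIJ hz)).mpr hz))
      rw [← h1]; exact mem_sup_left ⟨w, hw, rfl⟩

lemma Ev.congr (f : M →ₗ[B] M') {a b : B} {I J : Submodule B M} {I' J' : Submodule B M'}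
    (hIJ : I ≤ J) (hIJ' : I' ≤ J')
    (h1 : J.map f ⊔ I' = J') (h2 : ∀ x ∈ J, f x ∈ I' ↔ x ∈ I) {n : ℤ} :
    L.Ev a b I J n ↔ L.Ev a b I' J' n := by
  unfold Ev
  rw [H_congr f a b hIJ hIJ' h1 h2, H_congr f b a hIJ hIJ' h1 h2]

section Noeth
variable [IsNoetherianRing B]

lemma len_ne_top (N : Type u) [AddCommGroup N] [Module B N] [hN : Module.Finite B N]
    (h : ∀ p ∈ Module.support B N, L.len (B ⧸ p.asIdeal) ≠ ⊤) : L.len N ≠ ⊤ := by
  induction hN using IsNoetherianRing.induction_on_isQuotientEquivQuotientPrime B with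
  | subsingleton N => rw [L.zero]; simp
  | quotient N p e =>
    rw [L.len_equiv e]
    apply h
    rw [e.support_eq, Module.mem_support_iff_of_finite, Ideal.annihilator_quotient]
  | exact N₁ N₂ N₃ f g hf hg hfg h₁ h₃ =>
    rw [L.add _ _ _ f g hf hg hfg]
    rw [Module.support_of_exact hfg hf hg] at h
    exact WithTop.add_ne_top.mpr ⟨h₁ fun p hp => h p (Or.inl hp), h₃ fun p hp => h p (Or.inr hp)⟩

lemma rl_ne_top [Module.Finite B M] {Q P : Submodule B M}
    (h : ∀ p : PrimeSpectrum B, L.len (B ⧸ p.asIdeal) = ⊤ → ∀ x ∈ P, ∃ r ∉ p.asIdeal, r • x ∈ Q) :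
    L.rl Q P ≠ ⊤ := by
  apply len_ne_top
  intro p hp htop
  obtain ⟨⟨_, x, hx, rfl⟩, hm⟩ := Module.mem_support_iff'.mp hp
  obtain ⟨r, hr, hrx⟩ := h p htop x hx
  apply hm r hr
  apply Subtype.ext
  change r • Q.mkQ x = 0
  rw [← map_smul, mkQ_apply, Quotient.mk_eq_zero]
  exact hrx

end Noeth

end AddLen

end Pool.Agent.Lib.MP_2c79a0_ag.H68Herb
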