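import Pool.Agent.Lib.MP_2c79a0_ag.H68Mult

/-! The key lemma: the sum of the orders of the tame symbols vanishes. -/

set_option maxHeartbeats 400000

namespace Pool.Agent.Lib.MP_2c79a0_ag.H68Herb

open Submodule AddLen

universe u

variable {B : Type u} [CommRing B]

/-- Contraction of the ideal generated by `π ^ k` in the localisation at `q`. -/
def symb (q : PrimeSpectrum B) (π : B) (k : ℕ) : Ideal B where
  carrier := {x | ∃ y ∉ q.asIdeal, π ^ k ∣ y * x}
  zero_mem' := ⟨1, q.isPrime.one_notMem, by simp⟩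
  add_mem' := by
    rintro x x' ⟨y, hy, h⟩ ⟨y', hy', h'⟩
    refine ⟨y * y', fun h0 => (q.isPrime.mem_or_mem h0).elim hy hy', ?_⟩
    have : y * y' * (x + x') = y' * (y * x) + y * (y' * x') := by ring
    rw [this]
    exact dvd_add (h.mul_left _) (h'.mul_left _)
  smul_mem' := by
    rintro c x ⟨y, hy, h⟩
    refine ⟨y, hy, ?_⟩
    have : y * (c • x) = c * (y * x) := by rw [smul_eq_mul]; ring
    rw [this]
    exact h.mul_left _

lemma mem_symb {q : PrimeSpectrum B} {π x : B} {k : ℕ} :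
    x ∈ symb q π k ↔ ∃ y ∉ q.asIdeal, π ^ k ∣ y * x := Iff.rfl

lemma symb_zero (q : PrimeSpectrum B) (π : B) : symb q π 0 = ⊤ := by
  rw [eq_top_iff]
  intro x _
  exact ⟨1, q.isPrime.one_notMem, by simp⟩

lemma symb_anti (q : PrimeSpectrum B) (π : B) {k l : ℕ} (h : k ≤ l) : symb q π l ≤ symb q π k := by
  rintro x ⟨y, hy, hx⟩
  exact ⟨y, hy, (pow_dvd_pow π h).trans hx⟩

lemma pow_mem_symb (q : PrimeSpectrum B) (π : B) (k : ℕ) : π ^ k ∈ symb q π k :=
  ⟨1, q.isPrime.one_notMem, by simp⟩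

lemma mul_mem_symb_iff {q : PrimeSpectrum B} {π x z : B} {k : ℕ} (hz : z ∉ q.asIdeal) :
    z * x ∈ symb q π k ↔ x ∈ symb q π k := by
  refine ⟨?_, fun h => Ideal.mul_mem_left _ _ h⟩
  rintro ⟨y, hy, h⟩
  exact ⟨y * z, fun h0 => (q.isPrime.mem_or_mem h0).elim hy hz, by rwa [mul_assoc]⟩

lemma pow_mul_mem_symb_iff [IsDomain B] {q : PrimeSpectrum B} {π x : B} (hπ : π ≠ 0) (i k : ℕ) :
    π ^ i * x ∈ symb q π (i + k) ↔ x ∈ symb q π k := by
  constructor
  · rintro ⟨y, hy, h⟩
    refine ⟨y, hy, ?_⟩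
    rw [pow_add, show y * (π ^ i * x) = π ^ i * (y * x) by ring] at h
    exact (mul_dvd_mul_iff_left (pow_ne_zero i hπ)).mp h
  · rintro ⟨y, hy, h⟩
    refine ⟨y, hy, ?_⟩
    rw [pow_add, show y * (π ^ i * x) = π ^ i * (y * x) by ring]
    exact mul_dvd_mul_left _ h

/-- `π` generates the maximal ideal of the localisation at `q`. -/
structure Unif (q : PrimeSpectrum B) (π : B) : Prop where
  mem : π ∈ q.asIdeal
  ne : π ≠ 0
  gen : ∀ x ∈ q.asIdeal, ∃ y ∉ q.asIdeal, π ∣ y * x

lemma Unif.pow_mem {q : PrimeSpectrum B} {π : B} (h : Unif q π) {x : B} (hx : x ∈ q.asIdeal)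
    (k : ℕ) : x ^ k ∈ symb q π k := by
  obtain ⟨y, hy, hyx⟩ := h.gen x hx
  refine ⟨y ^ k, fun h0 => hy (q.isPrime.mem_of_pow_mem k h0), ?_⟩
  rw [← mul_pow]
  exact pow_dvd_pow_of_dvd hyx k

lemma Unif.le_of_symb_le {q p : PrimeSpectrum B} {π : B} (h : Unif q π) {k : ℕ}
    (hp : symb q π k ≤ p.asIdeal) : q ≤ p :=
  fun _ hx => p.isPrime.mem_of_pow_mem k (hp (h.pow_mem hx k))

lemma Unif.muLen_symb [IsDomain B] {q : PrimeSpectrum B} {π : B} (h : Unif q π) (k : ℕ) :
    (muLen q).len (B ⧸ symb q π k) = k := by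
  let S := Localization.AtPrime q.asIdeal
  have hmap : ∀ k, (symb q π k).map (algebraMap B S) = Ideal.span {(algebraMap B S π) ^ k} := by
    intro k
    apply le_antisymm
    · rw [Ideal.map_le_iff_le_comap]
      rintro x ⟨y, hy, c, hc⟩
      have hu : IsUnit (algebraMap B S y) := IsLocalization.map_units S (⟨y, hy⟩ : q.asIdeal.primeCompl)
      rw [Ideal.mem_comap, ← Ideal.unit_mul_mem_iff_mem _ hu, ← map_mul, hc, map_mul, map_pow]
      exact Ideal.mul_mem_right _ _ (Ideal.subset_span rfl)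
    · rw [Ideal.span_singleton_le_iff_mem, ← map_pow]
      exact Ideal.mem_map_of_mem _ (pow_mem_symb q π k)
  have hmax : Ideal.span {algebraMap B S π} = IsLocalRing.maximalIdeal S := by
    rw [← Localization.AtPrime.map_eq_maximalIdeal, ← pow_one (algebraMap B S π), ← hmap 1]
    apply le_antisymm
    · rw [hmap 1, pow_one, Ideal.span_singleton_le_iff_mem]
      exact Ideal.mem_map_of_mem _ h.mem
    · apply Ideal.map_mono
      intro x hx
      simpa using h.pow_mem hx 1
  have h1 : Ring.ord S (algebraMap B S π) = 1 := by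
    rw [Ring.ord, (Submodule.quotEquivOfEq _ _ hmax).length_eq]
    exact length_quot_maximal _
  have hnz : algebraMap B S π ∈ nonZeroDivisors S := by
    apply mem_nonZeroDivisors_of_ne_zero
    rw [ne_eq, map_eq_zero_iff _ (IsLocalization.injective S q.asIdeal.primeCompl_le_nonZeroDivisors)]
    exact h.ne
  rw [muLen_quot q S, (Submodule.quotEquivOfEq _ _ (hmap k)).length_eq]
  change Ring.ord S _ = _
  rw [Ring.ord_pow hnz, h1]
  simp

variable {L : AddLen B}

lemma lq_ne_top [IsNoetherianRing B] {q : PrimeSpectrum B}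
    (hq : ∀ p, q < p → L.len (B ⧸ p.asIdeal) ≠ ⊤) {x : B} (hx : x ∉ q.asIdeal) :
    L.lq q.asIdeal x ≠ ⊤ := by
  apply len_ne_top
  intro p hp
  rw [Module.mem_support_iff_of_finite, Ideal.annihilator_quotient, sup_le_iff,
    Ideal.span_singleton_le_iff_mem] at hp
  refine hq p (lt_of_le_of_ne hp.1 ?_)
  rintro rfl
  exact hx hp.2

lemma Unif.lq_symb [IsDomain B] [IsNoetherianRing B] {q : PrimeSpectrum B} {π : B} (h : Unif q π)
    (hq : ∀ p, q < p → L.len (B ⧸ p.asIdeal) ≠ ⊤) {x : B} (hx : x ∉ q.asIdeal) (k : ℕ) :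
    L.lq (symb q π k) x = ((k * (L.lq q.asIdeal x).toNat : ℕ) : ℕ∞) := by
  obtain ⟨h1, h2⟩ := lq_eq_sum (L := L) {q} x (by simp) (by simpa using hx)
    (by simpa using lq_ne_top hq hx) (symb q π k) (fun y hy => (mul_mem_symb_iff hx).mp hy) (by
      intro p hp
      have := h.le_of_symb_le hp
      by_cases hpq : p = q
      · left; simp [hpq]
      · right
        refine ⟨hq p (lt_of_le_of_ne this (Ne.symm hpq)), ?_⟩
        simp only [Finset.mem_singleton, forall_eq]
        exact fun h0 => hpq (le_antisymm h0 this))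
  rw [Finset.sum_singleton, h.muLen_symb] at h2
  rw [← ENat.natCast_toNat h1]
  congr 1
  simp only [ENat.toNat_coe] at h2
  exact_mod_cast h2

/-- Multiplying the first map by an element acting injectively. -/
lemma ev_mul_left {a b x : B} {J : Ideal B} (hab : a * b ∈ J) (hx : ∀ y, x * y ∈ J → y ∈ J)
    {t : ℕ} (ht : L.lq (Submodule.comap (mu B a) J) x = t) {n : ℤ} :
    L.Ev a b J ⊤ n ↔ L.Ev (x * a) b J ⊤ (n - t) := by
  have e1 : L.H (x * a) b J ⊤ = L.H a b J ⊤ := by
    unfold H
    congr 2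
    ext y
    rw [mem_comap_mu, mem_comap_mu, smul_eq_mul, smul_eq_mul, mul_assoc]
    exact ⟨hx _, fun h => J.mul_mem_left _ h⟩
  have e2 : L.H b (x * a) J ⊤ = t + L.H b a J ⊤ := by
    unfold H
    rw [L.rl_add (P := (⊤ : Submodule B B).map (mu B a) ⊔ J)]
    · congr 1
      rw [← ht, lq, ← L.rl_top]
      symm
      apply L.rl_congr (mu B a)
      · rw [sup_assoc, sup_comm J, sup_assoc, sup_idem]
      · intro y _
        constructor
        · intro h
          obtain ⟨z, hz, j, hj, hzj⟩ := mem_sup.mp h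
          obtain ⟨c, -, rfl⟩ := mem_map_mu.mp hz
          have : y = (y - x * c) + x * c := by ring
          rw [this]
          refine add_mem (mem_sup_left (mem_comap_mu.mpr ?_))
            (mem_sup_right (Ideal.mul_mem_right _ _ (Ideal.subset_span rfl)))
          have h3 : (x * a) * c + j = a * y := hzj
          have : a • (y - x * c) = j := by rw [smul_eq_mul]; linear_combination -h3
          rwa [this]
        · intro h
          obtain ⟨z, hz, j, hj, rfl⟩ := mem_sup.mp h
          obtain ⟨c, rfl⟩ := Ideal.mem_span_singleton'.mp hj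
          rw [map_add]
          refine add_mem (mem_sup_right (mem_comap_mu.mp hz))
            (mem_sup_left (mem_map_mu.mpr ⟨c, trivial, ?_⟩))
          change x * a * c = a * (c * x)
          ring
    · refine sup_le_sup_right ?_ _
      intro z hz
      obtain ⟨c, -, rfl⟩ := mem_map_mu.mp hz
      exact mem_map_mu.mpr ⟨x * c, trivial, by simp only [smul_eq_mul]; ring⟩
    · refine le_inf (sup_le ?_ (le_comap_mu b J)) le_top
      intro z hz
      obtain ⟨c, -, rfl⟩ := mem_map_mu.mp hz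
      refine mem_comap_mu.mpr ?_
      have : b • a • c = (a * b) * c := by simp only [smul_eq_mul]; ring
      rw [this]
      exact J.mul_mem_right _ hab
  constructor
  · rintro ⟨p1, p2, h1, h2, rfl⟩
    exact ⟨p1, t + p2, by rw [e1, h1], by rw [e2, h2]; push_cast; rfl, by push_cast; ring⟩
  · rintro ⟨p1, p2, h1, h2, h3⟩
    rw [e1] at h1
    rw [e2] at h2
    have hf : L.H b a J ⊤ ≠ ⊤ := by intro h0; rw [h0] at h2; simp at h2
    lift L.H b a J ⊤ to ℕ using hf with p3 hp3
    have : t + p3 = p2 := by exact_mod_cast h2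
    exact ⟨p1, p3, h1, hp3.symm, by omega⟩

section Sym
variable [IsDomain B] {q : PrimeSpectrum B} {π : B}

private lemma d_eq (hπ : π ≠ 0) (i j : ℕ) :
    L.rl (Submodule.map (mu B (π ^ i)) (symb q π j) ⊔ symb q π (i + j + 1)) (symb q π (i + j)) =
      ∑ l ∈ Finset.range i, L.rl (Submodule.map (mu B π) (symb q π (l + j)) ⊔ symb q π (l + j + 2))
        (symb q π (l + j + 1)) := by
  induction i with
  | zero =>
    rw [Finset.range_zero, Finset.sum_empty]
    apply L.rl_of_le
    intro x hx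
    exact mem_sup_left (mem_map_mu.mpr ⟨x, by simpa using hx, by simp⟩)
  | succ i ih =>
    rw [Finset.sum_range_succ, ← ih, show i + 1 + j = i + j + 1 by ring]
    have hm : ∀ k x, π * x ∈ symb q π (k + 1) ↔ x ∈ symb q π k := by
      intro k x
      have := pow_mul_mem_symb_iff (q := q) (x := x) hπ 1 k
      rwa [pow_one, add_comm] at this
    rw [L.rl_add (P := Submodule.map (mu B π) (symb q π (i + j)) ⊔ symb q π (i + j + 2))]
    · congr 1
      symm
      apply L.rl_congr (mu B π)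
      · refine le_antisymm (sup_le_sup_right le_sup_left _) (sup_le (sup_le le_sup_left ?_) le_sup_right)
        exact le_sup_of_le_right le_sup_right
      · intro x _
        constructor
        · intro h
          obtain ⟨z, hz, t, ht, hzt⟩ := mem_sup.mp h
          obtain ⟨c, hc, rfl⟩ := mem_map_mu.mp hz
          have : x = π ^ i * c + (x - π ^ i * c) := by ring
          rw [this]
          refine add_mem (mem_sup_left (mem_map_mu.mpr ⟨c, hc, rfl⟩)) (mem_sup_right ?_)
          rw [← hm]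
          have h3 : π ^ (i + 1) * c + t = π * x := hzt
          have : π * (x - π ^ i * c) = t := by linear_combination -h3
          rwa [this]
        · intro h
          obtain ⟨z, hz, t, ht, rfl⟩ := mem_sup.mp h
          obtain ⟨c, hc, rfl⟩ := mem_map_mu.mp hz
          rw [map_add]
          refine add_mem (mem_sup_left (mem_map_mu.mpr ⟨c, hc, ?_⟩))
            (mem_sup_right ((hm _ _).mpr ht))
          change π ^ (i + 1) * c = π * (π ^ i * c)
          ring
    · refine sup_le_sup_right ?_ _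
      intro z hz
      obtain ⟨c, hc, rfl⟩ := mem_map_mu.mp hz
      exact mem_map_mu.mpr ⟨π ^ i * c, (pow_mul_mem_symb_iff hπ i j).mpr hc, by
        simp only [smul_eq_mul]; ring⟩
    · refine sup_le ?_ (symb_anti q π (by omega))
      intro z hz
      obtain ⟨c, hc, rfl⟩ := mem_map_mu.mp hz
      exact (hm _ _).mpr hc

private lemma c_eq (hπ : π ≠ 0) (i j : ℕ) :
    L.rl ((⊤ : Submodule B B).map (mu B (π ^ i)) ⊔ symb q π (i + j)) (symb q π i) =
      ∑ l' ∈ Finset.range j, ∑ l ∈ Finset.range i,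
        L.rl (Submodule.map (mu B π) (symb q π (l + l')) ⊔ symb q π (l + l' + 2))
          (symb q π (l + l' + 1)) := by
  induction j with
  | zero =>
    rw [Finset.range_zero, Finset.sum_empty]
    exact L.rl_of_le le_sup_right
  | succ j ih =>
    rw [Finset.sum_range_succ, ← ih, ← d_eq hπ, ← add_assoc,
      L.rl_add (P := (⊤ : Submodule B B).map (mu B (π ^ i)) ⊔ symb q π (i + j)), add_comm (L.rl _ _)]
    · congr 1
      symm
      apply L.rl_congr_id
      · refine le_antisymm (sup_le_sup_right le_sup_right _) (sup_le (sup_le ?_ le_sup_left) le_sup_right)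
        exact le_sup_of_le_right le_sup_left
      · intro x hx
        constructor
        · intro h
          obtain ⟨z, hz, t, ht, rfl⟩ := mem_sup.mp h
          obtain ⟨c, -, rfl⟩ := mem_map_mu.mp hz
          refine add_mem (mem_sup_left (mem_map_mu.mpr ⟨c, ?_, rfl⟩)) (mem_sup_right ht)
          rw [← pow_mul_mem_symb_iff hπ i j]
          have := (symb q π (i + j)).sub_mem hx (symb_anti q π (by omega) ht)
          simpa using this
        · intro h
          exact (sup_le_sup_right (map_mono le_top) _ :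
            _ ≤ (⊤ : Submodule B B).map (mu B (π ^ i)) ⊔ symb q π (i + j + 1)) h
    · exact sup_le_sup_left (symb_anti q π (by omega)) _
    · refine sup_le ?_ (symb_anti q π (by omega))
      intro z hz
      obtain ⟨c, -, rfl⟩ := mem_map_mu.mp hz
      exact Ideal.mul_mem_right _ _ (pow_mem_symb q π i)

lemma comap_symb (hπ : π ≠ 0) {a u w : B} {e : ℕ} (hu : u ∉ q.asIdeal) (hw : w ∉ q.asIdeal)
    (ha : w * a = u * π ^ e) (f : ℕ) :
    Submodule.comap (mu B a) (symb q π (e + f)) = symb q π f := by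
  ext y
  rw [mem_comap_mu, smul_eq_mul, ← mul_mem_symb_iff hw, ← mul_assoc, ha, mul_assoc,
    mul_mem_symb_iff hu, pow_mul_mem_symb_iff hπ]

lemma Unif.ev_pow [IsNoetherianRing B] (h : Unif q π)
    (hq : ∀ p, q < p → L.len (B ⧸ p.asIdeal) ≠ ⊤) (e f : ℕ) :
    L.Ev (π ^ e) (π ^ f) (symb q π (e + f)) ⊤ 0 := by
  have key : ∀ e f : ℕ, L.H (π ^ e) (π ^ f) (symb q π (e + f)) ⊤ =
      L.rl ((⊤ : Submodule B B).map (mu B (π ^ f)) ⊔ symb q π (f + e)) (symb q π f) := by
    intro e f
    unfold H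
    rw [comap_symb h.ne q.isPrime.one_notMem q.isPrime.one_notMem rfl, inf_top_eq, add_comm e f]
  have hfin : L.H (π ^ e) (π ^ f) (symb q π (e + f)) ⊤ ≠ ⊤ := by
    rw [key]
    apply rl_ne_top
    intro p hp x hx
    by_cases hqp : q ≤ p
    · have : q = p := by
        by_contra hne
        exact hq p (lt_of_le_of_ne hqp hne) hp
      subst this
      obtain ⟨y, hy, c, hc⟩ := hx
      exact ⟨y, hy, mem_sup_left (mem_map_mu.mpr ⟨c, trivial, hc.symm⟩)⟩
    · obtain ⟨z, hz, hzp⟩ := Set.not_subset.mp hqp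
      exact ⟨z ^ (f + e), fun h0 => hzp (p.isPrime.mem_of_pow_mem _ h0),
        mem_sup_right (Ideal.mul_mem_right _ _ (h.pow_mem hz _))⟩
  have hsym : L.H (π ^ f) (π ^ e) (symb q π (e + f)) ⊤ =
      L.H (π ^ e) (π ^ f) (symb q π (e + f)) ⊤ := by
    rw [key e f, add_comm e f, key f e, c_eq h.ne, c_eq h.ne, Finset.sum_comm]
    refine Finset.sum_congr rfl fun l _ => Finset.sum_congr rfl fun l' _ => ?_
    rw [add_comm l l']
  lift L.H (π ^ e) (π ^ f) (symb q π (e + f)) ⊤ to ℕ using hfin with n hn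
  exact ⟨n, n, hn.symm, hsym, by simp⟩

end Sym

/-- Local factorisation of `a` and `b` at the prime `q`. -/
structure Tame (q : PrimeSpectrum B) (a b : B) where
  π : B
  u : B
  v : B
  w : B
  e : ℕ
  f : ℕ
  unif : Unif q π
  hu : u ∉ q.asIdeal
  hv : v ∉ q.asIdeal
  hw : w ∉ q.asIdeal
  ha : w * a = u * π ^ e
  hb : w * b = v * π ^ f

/-- The order of the tame symbol measured with `L`. -/
noncomputable def Tame.val {q : PrimeSpectrum B} {a b : B} (T : Tame q a b) (L : AddLen B) : ℤ :=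
  T.e * (((L.lq q.asIdeal T.v).toNat : ℤ) - (L.lq q.asIdeal T.w).toNat) -
    T.f * (((L.lq q.asIdeal T.u).toNat : ℤ) - (L.lq q.asIdeal T.w).toNat)

lemma Tame.mul_mem [IsDomain B] {q : PrimeSpectrum B} {a b : B} (T : Tame q a b) :
    a * b ∈ symb q T.π (T.e + T.f) := by
  rw [← mul_mem_symb_iff T.hw, ← mul_mem_symb_iff T.hw]
  have : T.w * (T.w * (a * b)) = T.u * T.v * T.π ^ (T.e + T.f) := by
    rw [show T.w * (T.w * (a * b)) = (T.w * a) * (T.w * b) by ring, T.ha, T.hb]; ring
  rw [this]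
  exact Ideal.mul_mem_left _ _ (pow_mem_symb _ _ _)

lemma Tame.ev [IsDomain B] [IsNoetherianRing B] {q : PrimeSpectrum B} {a b : B} (T : Tame q a b)
    (hq : ∀ p, q < p → L.len (B ⧸ p.asIdeal) ≠ ⊤) :
    L.Ev a b (symb q T.π (T.e + T.f)) ⊤ (T.val L) := by
  obtain ⟨π, u, v, w, e, f, h, hu, hv, hw, ha, hb⟩ := T
  have one := q.isPrime.one_notMem
  have hinj : ∀ x ∉ q.asIdeal, ∀ y, x * y ∈ symb q π (e + f) → y ∈ symb q π (e + f) :=
    fun x hx y hy => (mul_mem_symb_iff hx).mp hy
  have hab : a * b ∈ symb q π (e + f) :=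
    Tame.mul_mem ⟨π, u, v, w, e, f, h, hu, hv, hw, ha, hb⟩
  have hpp : π ^ e * π ^ f ∈ symb q π (e + f) := by rw [← pow_add]; exact pow_mem_symb _ _ _
  have s0 := h.ev_pow hq e f
  have s1 := (ev_mul_left (t := f * (L.lq q.asIdeal u).toNat) hpp (hinj u hu)
    (by rw [comap_symb h.ne one one rfl]; exact h.lq_symb hq hu f)).mp s0
  have s2 := (ev_mul_left (a := π ^ f) (b := u * π ^ e) (x := v) (t := e * (L.lq q.asIdeal v).toNat)
    (by rw [show π ^ f * (u * π ^ e) = u * (π ^ e * π ^ f) by ring]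
        exact Ideal.mul_mem_left _ _ hpp) (hinj v hv)
    (by rw [add_comm e f, comap_symb h.ne one one rfl]; exact h.lq_symb hq hv e)).mp s1.symm
  rw [← ha, ← hb] at s2
  have s3 := (ev_mul_left (a := b) (b := w * a) (x := w) (t := e * (L.lq q.asIdeal w).toNat)
    (by rw [show b * (w * a) = w * (a * b) by ring]
        exact Ideal.mul_mem_left _ _ hab) (hinj w hw)
    (by rw [add_comm e f, comap_symb h.ne hv hw hb]; exact h.lq_symb hq hw e)).mpr
    (by convert s2 using 1; exact add_sub_cancel_right _ _)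
  have s4 := (ev_mul_left (a := a) (b := b) (x := w) (t := f * (L.lq q.asIdeal w).toNat) hab (hinj w hw)
    (by rw [comap_symb h.ne hu hw ha]; exact h.lq_symb hq hw f)).mpr
    (by convert s3.symm using 1; exact add_sub_cancel_right _ _)
  convert s4 using 1
  simp only [Tame.val]
  push_cast; ring

/-- The key lemma. -/
theorem key [IsDomain B] [IsNoetherianRing B] {a b : B} (ha : a ≠ 0) (hb : b ≠ 0)
    (S : Finset (PrimeSpectrum B)) (T : ∀ q : S, Tame q.1 a b)
    (hanti : ∀ q ∈ S, ∀ q' ∈ S, q ≤ q' → q = q')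
    (hS : ∀ q ∈ S, ∀ p, q < p → L.len (B ⧸ p.asIdeal) ≠ ⊤)
    (h : ∀ p : PrimeSpectrum B, a * b ∈ p.asIdeal → p ∈ S ∨ L.len (B ⧸ p.asIdeal) ≠ ⊤) :
    ∑ q : S, (T q).val L = 0 := by
  classical
  let J : S → Ideal B := fun q => symb q.1 (T q).π ((T q).e + (T q).f)
  have hJ : ∀ q, a * b ∈ J q := fun q => (T q).mul_mem
  have habs : ∀ (I : Ideal B), a * b ∈ I → ∀ x : B, a • b • x ∈ I := by
    intro I hI x
    rw [smul_eq_mul, smul_eq_mul, ← mul_assoc]
    exact I.mul_mem_right _ hI
  have main : ∀ U : Finset S, L.Ev a b (U.inf J : Ideal B) ⊤ (∑ q ∈ U, (T q).val L) := by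
    intro U
    induction U using Finset.induction_on with
    | empty =>
      rw [Finset.inf_empty, Finset.sum_empty]
      apply ev_zero_of_ne_top _ _ le_top (fun _ _ => mem_top)
      rw [L.rl_of_le le_top]; simp
    | insert q U hqU ih =>
      rw [Finset.inf_insert, Finset.sum_insert hqU]
      have hU : a * b ∈ U.inf J := by
        rw [Submodule.mem_finsetInf]; exact fun i _ => hJ i
      have t1 : L.Ev a b (J q ⊔ U.inf J : Ideal B) ⊤ 0 := by
        apply ev_zero_of_ne_top _ _ le_top (fun x _ => habs _ (mem_sup_left (hJ q)) x)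
        apply rl_ne_top
        intro p hp x _
        by_cases hle : J q ⊔ U.inf J ≤ p.asIdeal
        · exfalso
          have h1 : q.1 ≤ p := (T q).unif.le_of_symb_le (le_sup_left.trans hle)
          have h2 : q.1 = p := by
            by_contra hne
            exact hS q.1 q.2 p (lt_of_le_of_ne h1 hne) hp
          obtain ⟨i, hi, hip⟩ := (p.isPrime.inf_le').mp (le_sup_right.trans hle)
          have h3 : i.1 ≤ p := (T i).unif.le_of_symb_le hip
          have h4 : i = q := Subtype.ext (hanti _ i.2 _ q.2 (h2 ▸ h3))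
          exact hqU (h4 ▸ hi)
        · obtain ⟨r, hr, hrp⟩ := Set.not_subset.mp hle
          exact ⟨r, hrp, Ideal.mul_mem_right _ _ hr⟩
      have t2 := Ev.sub_left (I := J q) le_sup_left le_top (fun x _ => habs _ (hJ q) x)
        ((T q).ev (hS q.1 q.2)) t1
      have t3 := (Ev.congr (L := L) LinearMap.id (a := a) (b := b) (I := J q ⊓ U.inf J)
        (J := U.inf J) (I' := J q) (J' := J q ⊔ U.inf J) inf_le_right le_sup_left
        (by rw [Submodule.map_id, sup_comm])
        (fun x hx => ⟨fun h0 => ⟨h0, hx⟩, fun h0 => h0.1⟩)).mpr t2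
      have t4 := Ev.add inf_le_right le_top (fun x _ => habs _ (mem_inf.mpr ⟨hJ q, hU⟩) x) t3 ih
      simpa using t4
  have hI : a * b ∈ Ideal.span {a * b} := Ideal.subset_span rfl
  have hle : Ideal.span {a * b} ≤ Finset.univ.inf J := by
    rw [Ideal.span_singleton_le_iff_mem, Submodule.mem_finsetInf]; exact fun i _ => hJ i
  have t1 : L.Ev a b (Ideal.span {a * b}) (Finset.univ.inf J : Ideal B) 0 := by
    apply ev_zero_of_ne_top _ _ hle (fun x _ => habs _ hI x)
    apply rl_ne_top
    intro p hp x hx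
    by_cases hab : a * b ∈ p.asIdeal
    · have hpS : p ∈ S := (h p hab).resolve_right (fun h0 => h0 hp)
      let Tp := T ⟨p, hpS⟩
      obtain ⟨y, hy, c, hc⟩ : x ∈ J ⟨p, hpS⟩ := Submodule.mem_finsetInf.mp hx _ (Finset.mem_univ _)
      refine ⟨Tp.u * Tp.v * y, fun h0 => ?_, ?_⟩
      · rcases p.isPrime.mem_or_mem h0 with h1 | h1
        · exact (p.isPrime.mem_or_mem h1).elim Tp.hu Tp.hv
        · exact hy h1
      · rw [Ideal.mem_span_singleton']
        refine ⟨Tp.w * Tp.w * c, ?_⟩
        rw [smul_eq_mul, mul_assoc (Tp.u * Tp.v), hc,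
          show Tp.w * Tp.w * c * (a * b) = (Tp.w * a) * (Tp.w * b) * c by ring, Tp.ha, Tp.hb]
        ring
    · exact ⟨a * b, hab, Ideal.mul_mem_right _ _ hI⟩
  have t2 := Ev.add hle le_top (fun x _ => habs _ hI x) t1 (main Finset.univ)
  have hz : ∀ a b : B, a ≠ 0 → L.H a b (Ideal.span {a * b}) ⊤ = 0 := by
    intro a b ha
    apply L.rl_of_le
    intro y hy
    obtain ⟨c, hc⟩ := Ideal.mem_span_singleton'.mp (mem_comap_mu.mp hy.1)
    refine mem_sup_left (mem_map_mu.mpr ⟨c, trivial, ?_⟩)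
    apply mul_left_cancel₀ ha
    rw [smul_eq_mul] at hc ⊢
    linear_combination hc
  have t3 : L.Ev a b (Ideal.span {a * b}) ⊤ 0 :=
    ⟨0, 0, hz a b ha, by rw [mul_comm a b]; exact hz b a hb, by simp⟩
  simpa using t2.unique t3

end Pool.Agent.Lib.MP_2c79a0_ag.H68Herb
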