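import Pool.Agent.Lib.MP_2c79a0_ag.H68Herb

/-! Localised lengths and the associativity formula for the Herbrand difference of
multiplication by one element. -/

namespace Pool.Agent.Lib.MP_2c79a0_ag.H68Herb

open Submodule

universe u

variable {A B : Type u} [CommRing A] [CommRing B]

/-- Plain length. -/
noncomputable def plainLen (B : Type u) [CommRing B] : AddLen B where
  len N _ _ := Module.length B N
  zero _ _ _ _ := Module.length_eq_zero
  add _ _ _ _ _ _ _ _ _ f g hf hg h := Module.length_eq_add_of_exact f g hf hg h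

/-- Length of the localisation at a prime. -/
noncomputable def muLen (q : PrimeSpectrum B) : AddLen B where
  len N _ _ := Module.length (Localization.AtPrime q.asIdeal)
    (LocalizedModule q.asIdeal.primeCompl N)
  zero _ _ _ _ := Module.length_eq_zero
  add _ _ _ _ _ _ _ _ _ f g hf hg h :=
    Module.length_eq_add_of_exact (LocalizedModule.map q.asIdeal.primeCompl f)
      (LocalizedModule.map q.asIdeal.primeCompl g)
      (LocalizedModule.map_injective _ f hf) (LocalizedModule.map_surjective _ g hg)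
      (LocalizedModule.map_exact _ f g h)

/-- Restriction of scalars of a linear map along a ring homomorphism. -/
def resMap (φ : A →+* B) {N N' : Type u} [AddCommGroup N] [Module B N] [AddCommGroup N']
    [Module B N'] (f : N →ₗ[B] N') :
    @LinearMap A A _ _ (RingHom.id A) N N' _ _ (Module.compHom N φ) (Module.compHom N' φ) :=
  @LinearMap.mk A A _ _ (RingHom.id A) N N' _ _ (Module.compHom N φ) (Module.compHom N' φ)
    f.toAddHom (fun a x => f.map_smul (φ a) x)

/-- An additive function on `A`-modules gives one on `B`-modules. -/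
def AddLen.res (L : AddLen A) (φ : A →+* B) : AddLen B where
  len N _ _ := @L.len N _ (Module.compHom N φ)
  zero N _ _ _ := @L.zero N _ (Module.compHom N φ) _
  add N₁ N₂ N₃ _ _ _ _ _ _ f g hf hg h :=
    @L.add N₁ N₂ N₃ _ (Module.compHom N₁ φ) _ (Module.compHom N₂ φ) _ (Module.compHom N₃ φ)
      (resMap φ f) (resMap φ g) hf hg h

lemma AddLen.res_len [Algebra A B] (L : AddLen A) (N : Type u) [AddCommGroup N] [Module B N]
    [inst : Module A N] [IsScalarTower A B N] :
    (L.res (algebraMap A B)).len N = L.len N := by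
  have : Module.compHom N (algebraMap A B) = inst := by
    apply Module.ext'
    intro a x
    exact algebraMap_smul B a x
  change @L.len N _ (Module.compHom N (algebraMap A B)) = _
  rw [this]

lemma muLen_eq_of_isLocalizedModule (q : PrimeSpectrum B) (S : Type*) [CommRing S] [Algebra B S]
    [IsLocalization.AtPrime S q.asIdeal] {N : Type u} [AddCommGroup N] [Module B N]
    {N' : Type*} [AddCommGroup N'] [Module B N'] [Module S N'] [IsScalarTower B S N']
    (f : N →ₗ[B] N') [IsLocalizedModule q.asIdeal.primeCompl f] :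
    (muLen q).len N = Module.length S N' := by
  let S' := Localization.AtPrime q.asIdeal
  let e : S ≃ₐ[B] S' := IsLocalization.algEquiv q.asIdeal.primeCompl S S'
  let : Algebra S S' := e.toRingHom.toAlgebra
  let N'' := LocalizedModule q.asIdeal.primeCompl N
  let : Module S N'' := Module.compHom N'' (algebraMap S S')
  have : IsScalarTower S S' N'' := IsScalarTower.of_algebraMap_smul fun _ _ => rfl
  have : IsScalarTower B S N'' := IsScalarTower.of_algebraMap_smul fun b x => by
    change (e (algebraMap B S b)) • x = b • x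
    rw [e.commutes, algebraMap_smul]
  change Module.length S' N'' = _
  rw [← Module.length_eq_of_surjective (S := S) (R := S') (M := N'') e.surjective]
  exact ((IsLocalizedModule.iso q.asIdeal.primeCompl f).extendScalarsOfIsLocalization
    q.asIdeal.primeCompl S).length_eq

lemma muLen_quot (q : PrimeSpectrum B) (S : Type*) [CommRing S] [Algebra B S]
    [IsLocalization.AtPrime S q.asIdeal] (I : Ideal B) :
    (muLen q).len (B ⧸ I) = Module.length S (S ⧸ I.map (algebraMap B S)) := by
  rw [muLen_eq_of_isLocalizedModule q S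
    (I.toLocalizedQuotient' S q.asIdeal.primeCompl (Algebra.linearMap B S))]
  exact (Submodule.quotEquivOfEq _ _ (Ideal.localized'_eq_map S _ I)).length_eq

lemma muLen_eq_zero_iff (q : PrimeSpectrum B) (N : Type u) [AddCommGroup N] [Module B N] :
    (muLen q).len N = 0 ↔ q ∉ Module.support B N := by
  rw [Module.notMem_support_iff]
  exact Module.length_eq_zero_iff

lemma muLen_quot_eq_zero (q : PrimeSpectrum B) (I : Ideal B) (h : ¬ I ≤ q.asIdeal) :
    (muLen q).len (B ⧸ I) = 0 := by
  rw [muLen_eq_zero_iff, Module.mem_support_iff_of_finite, Ideal.annihilator_quotient]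
  exact h

lemma length_quot_maximal {S : Type*} [CommRing S] (m : Ideal S) [hm : m.IsMaximal] :
    Module.length S (S ⧸ m) = 1 := by
  rw [Module.length_eq_one_iff]
  exact isSimpleModule_iff_quot_maximal.mpr ⟨m, hm, ⟨LinearEquiv.refl _ _⟩⟩

lemma muLen_quot_self (q : PrimeSpectrum B) : (muLen q).len (B ⧸ q.asIdeal) = 1 := by
  rw [muLen_quot q (Localization.AtPrime q.asIdeal), Localization.AtPrime.map_eq_maximalIdeal]
  exact length_quot_maximal _

lemma muLen_quot_span (q : PrimeSpectrum B) (S : Type*) [CommRing S] [Algebra B S]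
    [IsLocalization.AtPrime S q.asIdeal] (x : B) :
    (muLen q).len (B ⧸ Ideal.span {x}) = Ring.ord S (algebraMap B S x) := by
  rw [muLen_quot q S, Ring.ord]
  exact (Submodule.quotEquivOfEq _ _ (by rw [Ideal.map_span, Set.image_singleton])).length_eq

namespace AddLen

variable (L : AddLen B)

/-- The length of `B / (q, x)`. -/
def lq (q : Ideal B) (x : B) : ℕ∞ := L.len (B ⧸ (q ⊔ Ideal.span {x}))

variable {L}

lemma map_mu_top (x : B) : (⊤ : Submodule B B).map (mu B x) = Ideal.span {x} := by
  ext y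
  rw [mem_map_mu, Ideal.mem_span_singleton']
  constructor
  · rintro ⟨z, -, rfl⟩; exact ⟨z, mul_comm _ _⟩
  · rintro ⟨z, rfl⟩; exact ⟨z, trivial, mul_comm _ _⟩

lemma H_zero_left (x : B) (I : Ideal B) : L.H 0 x I ⊤ = L.lq I x := by
  unfold H lq
  rw [← L.rl_top, map_mu_top]
  apply L.rl_congr_id
  · rw [top_sup_eq, eq_top_iff]
    intro y _
    exact mem_sup_left ⟨by simp [mem_comap_mu], trivial⟩
  · intro y _; rw [sup_comm]

lemma H_zero_right (x : B) (I : Ideal B) (h : ∀ y, x * y ∈ I → y ∈ I) : L.H x 0 I ⊤ = 0 := by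
  unfold H
  apply L.rl_of_le
  intro y hy
  exact mem_sup_right (h y (mem_comap_mu.mp hy.1))

lemma ev_quot_iff {a b : B} (I : Ideal B) {n : ℤ} :
    L.Ev a b (⊥ : Submodule B (B ⧸ I)) ⊤ n ↔ L.Ev a b I ⊤ n := by
  symm
  refine Ev.congr (Submodule.mkQ I) le_top le_top ?_ ?_
  · rw [Submodule.map_top, range_mkQ, sup_bot_eq]
  · intro x _
    rw [mem_bot, mkQ_apply, Quotient.mk_eq_zero]

variable [IsNoetherianRing B]

/-- Associativity formula. -/
theorem ev_mul (S : Finset (PrimeSpectrum B)) (x : B)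
    (hanti : ∀ q ∈ S, ∀ q' ∈ S, q ≤ q' → q = q')
    (hx : ∀ q ∈ S, x ∉ q.asIdeal) (hfin : ∀ q ∈ S, L.lq q.asIdeal x ≠ ⊤)
    (N : Type u) [AddCommGroup N] [Module B N] [hN : Module.Finite B N]
    (h : ∀ p ∈ Module.support B N, p ∈ S ∨ (L.len (B ⧸ p.asIdeal) ≠ ⊤ ∧ ∀ q ∈ S, ¬ p ≤ q)) :
    (∀ q ∈ S, (muLen q).len N ≠ ⊤) ∧
      L.Ev 0 x (⊥ : Submodule B N) ⊤
        (∑ q ∈ S, (((muLen q).len N).toNat : ℤ) * ((L.lq q.asIdeal x).toNat : ℤ)) := by
  induction hN using IsNoetherianRing.induction_on_isQuotientEquivQuotientPrime B with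
  | subsingleton N =>
    have h0 : ∀ q : PrimeSpectrum B, (muLen q).len N = 0 := fun q => (muLen q).zero N
    refine ⟨fun q _ => by simp [h0], ?_⟩
    simp only [h0, ENat.toNat_zero, Nat.cast_zero, zero_mul, Finset.sum_const_zero]
    apply ev_zero_of_ne_top _ _ le_top (by simp)
    rw [L.rl_bot, L.zero]; simp
  | quotient N p e =>
    have hp : p ∈ Module.support B N := by
      rw [e.support_eq, Module.mem_support_iff_of_finite, Ideal.annihilator_quotient]
    have hcongr : ∀ n, L.Ev 0 x (⊥ : Submodule B N) ⊤ n ↔ L.Ev 0 x p.asIdeal ⊤ n := by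
      intro n
      rw [← ev_quot_iff]
      refine Ev.congr e.toLinearMap le_top le_top ?_ ?_
      · rw [Submodule.map_top, LinearEquiv.range, sup_bot_eq]
      · intro y _; simp
    simp only [fun q => (muLen q).len_equiv e, hcongr]
    rcases h p hp with hpS | ⟨hp1, hp2⟩
    · have h0 : ∀ q ∈ S, q ≠ p → (muLen q).len (B ⧸ p.asIdeal) = 0 := fun q hq hne =>
        muLen_quot_eq_zero q _ fun hle => hne (hanti p hpS q hq hle).symm
      refine ⟨fun q hq => ?_, ?_⟩
      · by_cases hqp : q = p
        · rw [hqp, muLen_quot_self]; simp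
        · rw [h0 q hq hqp]; simp
      · rw [Finset.sum_eq_single_of_mem p hpS (fun q hq hne => by simp [h0 q hq hne]),
          muLen_quot_self]
        refine ⟨(L.lq p.asIdeal x).toNat, 0, ?_, ?_, by simp⟩
        · rw [H_zero_left, ENat.natCast_toNat (hfin p hpS)]
        · exact H_zero_right x _ fun y hy => (p.isPrime.mem_or_mem hy).resolve_left (hx p hpS)
    · have h0 : ∀ q ∈ S, (muLen q).len (B ⧸ p.asIdeal) = 0 := fun q hq =>
        muLen_quot_eq_zero q _ (hp2 q hq)
      refine ⟨fun q hq => by rw [h0 q hq]; simp, ?_⟩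
      rw [Finset.sum_eq_zero (fun q hq => by simp [h0 q hq])]
      apply ev_zero_of_ne_top _ _ le_top (by simp)
      rw [L.rl_top]; exact hp1
  | exact N₁ N₂ N₃ f g hf hg hfg h₁ h₃ =>
    rw [Module.support_of_exact hfg hf hg] at h
    obtain ⟨a1, b1⟩ := h₁ fun p hp => h p (Or.inl hp)
    obtain ⟨a3, b3⟩ := h₃ fun p hp => h p (Or.inr hp)
    have hadd : ∀ q, (muLen q).len N₂ = (muLen q).len N₁ + (muLen q).len N₃ :=
      fun q => (muLen q).add _ _ _ f g hf hg hfg
    refine ⟨fun q hq => by rw [hadd]; exact WithTop.add_ne_top.mpr ⟨a1 q hq, a3 q hq⟩, ?_⟩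
    have c1 := (Ev.congr (L := L) f (a := 0) (b := x) (I := ⊥) (J := ⊤) (I' := ⊥)
      (J' := LinearMap.range f) le_top bot_le (by rw [Submodule.map_top, sup_bot_eq])
      (fun y _ => by simpa using map_eq_zero_iff f hf)).mp b1
    have c3 := (Ev.congr (L := L) g (a := 0) (b := x) (I := LinearMap.range f) (J := ⊤) (I' := ⊥)
      (J' := ⊤) le_top bot_le
      (by rw [Submodule.map_top, sup_bot_eq, LinearMap.range_eq_top.mpr hg])
      (fun y _ => by simpa using hfg y)).mpr b3
    have c := Ev.add bot_le le_top (by simp) c1 c3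
    convert c using 1
    rw [← Finset.sum_add_distrib]
    refine Finset.sum_congr rfl fun q hq => ?_
    rw [hadd, ENat.toNat_add (a1 q hq) (a3 q hq)]
    push_cast; ring

/-- The associativity formula for a cyclic module on which `x` is injective. -/
theorem lq_eq_sum (S : Finset (PrimeSpectrum B)) (x : B)
    (hanti : ∀ q ∈ S, ∀ q' ∈ S, q ≤ q' → q = q')
    (hx : ∀ q ∈ S, x ∉ q.asIdeal) (hfin : ∀ q ∈ S, L.lq q.asIdeal x ≠ ⊤)
    (I : Ideal B) (hI : ∀ y, x * y ∈ I → y ∈ I)
    (h : ∀ p : PrimeSpectrum B, I ≤ p.asIdeal →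
      p ∈ S ∨ (L.len (B ⧸ p.asIdeal) ≠ ⊤ ∧ ∀ q ∈ S, ¬ p ≤ q)) :
    L.lq I x ≠ ⊤ ∧ ((L.lq I x).toNat : ℤ) =
      ∑ q ∈ S, (((muLen q).len (B ⧸ I)).toNat : ℤ) * ((L.lq q.asIdeal x).toNat : ℤ) := by
  obtain ⟨-, h2⟩ := ev_mul S x hanti hx hfin (B ⧸ I) (fun p hp => h p (by
    rwa [Module.mem_support_iff_of_finite, Ideal.annihilator_quotient] at hp))
  rw [ev_quot_iff] at h2
  obtain ⟨a, b, ha, hb, hab⟩ := h2
  rw [H_zero_left] at ha
  rw [H_zero_right x I hI] at hb
  have hb0 : b = 0 := by exact_mod_cast hb.symm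
  rw [ha, hab, hb0]
  simp

end AddLen

end Pool.Agent.Lib.MP_2c79a0_ag.H68Herb
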