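import Pool.Agent.Lib.MP_2c79a0_ag.Cyc

/-!
The key lemma, deduced from the normal case by push-forward along the normalisation.
-/

open scoped nonZeroDivisors

noncomputable section

namespace Pool.Agent.Lib.MP_2c79a0_ag

open Algebra

namespace Key

/-- The normalisation of a finite type domain is finite. -/
lemma exists_normal_dom (A : Type) [CommRing A] [IsDomain A] [Algebra ℂ A] [FiniteType ℂ A] :
    Module.Finite A (integralClosure A (FractionRing A)) := by
  obtain ⟨s, g, hg, hf⟩ := exists_finite_inj_algHom_of_fg ℂ A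
  let P := MvPolynomial (Fin s) ℂ
  let : Algebra P A := g.toRingHom.toAlgebra
  have : Module.Finite P A := hf
  have : FaithfulSMul P A := (faithfulSMul_iff_algebraMap_injective P A).2 hg
  let : Algebra (FractionRing P) (FractionRing A) := FractionRing.liftAlgebra P _
  have : IsScalarTower P (FractionRing P) (FractionRing A) :=
    FractionRing.isScalarTower_liftAlgebra P _
  have : FiniteDimensional (FractionRing P) (FractionRing A) :=
    Module.Finite.of_isLocalization P A P⁰
  have : IsIntegralClosure (integralClosure A (FractionRing A)) P (FractionRing A) :=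
    ⟨Subtype.val_injective, fun {x} =>
      ⟨fun hx => ⟨⟨x, hx.tower_top⟩, rfl⟩, fun ⟨y, hy⟩ => hy ▸ isIntegral_trans _ y.2⟩⟩
  have : Module.Finite P (integralClosure A (FractionRing A)) :=
    IsIntegralClosure.finite P (FractionRing P) (FractionRing A) _
  exact Module.Finite.of_restrictScalars_finite P A _

lemma exists_normal (R : Type) [CommRing R] [Algebra ℂ R] [FiniteType ℂ R] (w : PrimeSpectrum R) :
    ∃ (D : Type) (_ : CommRing D) (_ : IsDomain D) (_ : IsIntegrallyClosed D) (_ : Algebra R D),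
      Module.Finite R D ∧ RingHom.ker (algebraMap R D) = w.asIdeal := by
  have := w.isPrime
  have := exists_normal_dom (R ⧸ w.asIdeal)
  refine ⟨integralClosure (R ⧸ w.asIdeal) (FractionRing (R ⧸ w.asIdeal)), inferInstance,
    inferInstance, integralClosure.isIntegrallyClosedOfFiniteExtension
      (FractionRing (R ⧸ w.asIdeal)), inferInstance, Module.Finite.trans (R ⧸ w.asIdeal) _, ?_⟩
  ext r
  rw [RingHom.mem_ker, IsScalarTower.algebraMap_apply R (R ⧸ w.asIdeal), Subtype.ext_iff]
  change algebraMap (R ⧸ w.asIdeal) (FractionRing (R ⧸ w.asIdeal)) _ = 0 ↔ _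
  rw [map_eq_zero_iff _ (IsFractionRing.injective _ _)]
  exact Ideal.Quotient.eq_zero_iff_mem

section One

variable {R : Type} [CommRing R] [Algebra ℂ R]

lemma ratOn_anti {I J : Ideal R} (h : I ≤ J) : RatOn J ≤ RatOn I :=
  Submodule.span_mono fun _ ⟨w, a, hw, e⟩ => ⟨w, a, h.trans hw, e⟩

lemma G_single (a : R) (w : PrimeSpectrum R) : G a (Finsupp.single w 1) = dv w a := by
  simp [G]

lemma G_eq_zero (a : R) (c : Cyc R) (h : ∀ p, c p ≠ 0 → dv p a = 0) : G a c = 0 := by
  rw [G, Finsupp.linearCombination_apply, Finsupp.sum]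
  exact Finset.sum_eq_zero fun p hp => by rw [h p (Finsupp.mem_support_iff.1 hp), smul_zero]

omit [Algebra ℂ R] in
lemma mem_support_quot (I : Ideal R) (p : PrimeSpectrum R) :
    p ∈ Module.support R (R ⧸ I) ↔ I ≤ p.asIdeal := by
  rw [Module.mem_support_iff_of_finite, Ideal.annihilator_quotient]

variable [EssFiniteType ℂ R]

lemma dm_anti (hD : DimStmt) {p q : PrimeSpectrum R} (h : p ≤ q) : dm q ≤ dm p := by
  rcases h.eq_or_lt with rfl | h
  · exact le_rfl
  · exact (hD.1 R p q h).le

lemma cyc_eq_zero (hC : CycStmt) {M : Type} [AddCommGroup M] [Module R M] [Module.Finite R M]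
    {d : ℕ} (h : ∀ p ∈ Module.support R M, dm p ≠ d) : (cyc d M : Cyc R) = 0 := by
  ext p
  by_contra hp
  have := (hC.1 R).2.2.2.2.2.2 M d p hp
  exact h p this.2 this.1

lemma dimLE_quot (hD : DimStmt) (q : PrimeSpectrum R) : DimLE R (dm q) (R ⧸ q.asIdeal) :=
  fun p hp => dm_anti hD ((mem_support_quot _ p).1 hp)

end One

section Push

variable (R : Type) [CommRing R] [Algebra ℂ R] {D : Type} [CommRing D] [Algebra ℂ D] [Algebra R D]

/-- Push-forward of cycles along a finite map. -/
def push : Cyc D →ₗ[ℚ] Cyc R :=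
  Finsupp.linearCombination ℚ fun q => cyc (dm q) (D ⧸ q.asIdeal)

lemma push_single (q : PrimeSpectrum D) :
    push R (Finsupp.single q 1) = cyc (dm q) (D ⧸ q.asIdeal) := by
  simp [push]

variable {R} [IsScalarTower ℂ R D] [Module.Finite R D]

lemma dm_comap (hD : DimStmt) (q : PrimeSpectrum D) :
    dm (PrimeSpectrum.comap (algebraMap R D) q) = dm q :=
  hD.2.2.2.2.1 R D (IsScalarTower.toAlgHom ℂ R D) (algebraMap_isIntegral_iff.2 inferInstance) q

lemma dimLE_down (hD : DimStmt) {M : Type} [AddCommGroup M] [Module D M] [Module.Finite D M]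
    [Module R M] [IsScalarTower R D M] {d : ℕ} (h : DimLE D d M) : DimLE R d M := by
  have : Module.Finite R M := Module.Finite.trans D M
  intro p hp
  rw [Module.mem_support_iff_of_finite, ← Module.comap_annihilator (R := D)] at hp
  have := p.isPrime
  obtain ⟨Q, h1, h2, h3⟩ := Ideal.exists_ideal_over_prime_of_isIntegral p.asIdeal _ hp
  have e : PrimeSpectrum.comap (algebraMap R D) ⟨Q, h2⟩ = p := PrimeSpectrum.ext h3
  rw [← e, dm_comap hD]
  exact h _ (Module.mem_support_iff_of_finite.2 h1)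

omit [Algebra ℂ R] [Algebra ℂ D] [IsScalarTower ℂ R D] in
lemma mem_support_down (I : Ideal D) (p : PrimeSpectrum R) :
    p ∈ Module.support R (D ⧸ I) ↔ I.comap (algebraMap R D) ≤ p.asIdeal := by
  rw [Module.mem_support_iff_of_finite, ← Module.comap_annihilator (R := D),
    Ideal.annihilator_quotient]

variable [EssFiniteType ℂ R] [EssFiniteType ℂ D]

/-- The push-forward of the cycle of a module is the cycle of the module over the base. -/
lemma push_cyc (hD : DimStmt) (hC : CycStmt) (d : ℕ) (M : Type) [AddCommGroup M] [Module D M]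
    [hM : Module.Finite D M] : ∀ [Module R M] [IsScalarTower R D M], DimLE D d M →
      push R (cyc d M : Cyc D) = cyc d M := by
  have : IsNoetherianRing D := EssFiniteType.isNoetherianRing ℂ D
  induction hM using IsNoetherianRing.induction_on_isQuotientEquivQuotientPrime D with
  | subsingleton N =>
    intro _ _ _
    have : Module.Finite R N := Module.Finite.trans D N
    rw [cyc_eq_zero hC (by simp [Module.support_eq_empty]),
      cyc_eq_zero hC (by simp [Module.support_eq_empty]), map_zero]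
  | quotient N q e =>
    intro _ _ h
    rw [(hC.1 D).2.2.2.1 _ _ d e, (hC.1 R).2.2.2.1 _ _ d (e.restrictScalars R)]
    have hq : dm q ≤ d := h q (e.support_eq ▸ (mem_support_quot _ q).2 le_rfl)
    rcases hq.eq_or_lt with rfl | hq
    · rw [(hC.1 D).2.2.2.2.2.1 q, push_single]
    · rw [cyc_eq_zero hC fun p hp => ((dimLE_quot hD q p hp).trans_lt hq).ne,
        cyc_eq_zero hC fun p hp => ((dimLE_down hD (dimLE_quot hD q) p hp).trans_lt hq).ne,
        map_zero]
  | exact N₁ N₂ N₃ f g hf hg hfg h₁ h₃ =>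
    intro _ _ h
    let : Module R N₁ := Module.compHom N₁ (algebraMap R D)
    let : Module R N₃ := Module.compHom N₃ (algebraMap R D)
    have : IsScalarTower R D N₁ := IsScalarTower.of_compHom R D N₁
    have : IsScalarTower R D N₃ := IsScalarTower.of_compHom R D N₃
    have : Module.Finite R N₂ := Module.Finite.trans D N₂
    rw [(hC.1 D).2.2.2.2.1 N₁ N₂ N₃ f g d hf hg hfg h, map_add,
      h₁ fun p hp => h p (Module.support_subset_of_injective f hf hp),
      h₃ fun p hp => h p (Module.support_subset_of_surjective g hg hp),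
      (hC.1 R).2.2.2.2.1 N₁ N₂ N₃ (f.restrictScalars R) (g.restrictScalars R) d hf hg hfg
        (dimLE_down hD h)]

lemma push_dv (hD : DimStmt) (hC : CycStmt) (q : PrimeSpectrum D) {x : D} (hx : x ∉ q.asIdeal) :
    push R (dv q x) = cyc (dm q - 1) (D ⧸ (q.asIdeal ⊔ Ideal.span {x})) := by
  rw [dv, if_neg hx]
  refine push_cyc hD hC _ _ fun p hp => ?_
  rw [mem_support_quot, sup_le_iff, Ideal.span_singleton_le_iff_mem] at hp
  have h : q < p := lt_of_le_of_ne hp.1 fun e => hx (e ▸ hp.2)
  have := hD.1 D q p h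
  omega

lemma push_ratOn (hD : DimStmt) (hC : CycStmt) (hN : NormStmt) (J : Ideal D) {c : Cyc D}
    (hc : c ∈ RatOn J) : push R c ∈ RatOn (J.comap (algebraMap R D)) := by
  refine (Submodule.span_le (p := (RatOn (J.comap (algebraMap R D))).comap (push R))).2 ?_ hc
  rintro _ ⟨q, x, hq, rfl⟩
  change push R (dv q x) ∈ RatOn _
  by_cases hx : x ∈ q.asIdeal
  · rw [dv, if_pos hx, map_zero]
    exact zero_mem _
  · rw [push_dv hD hC q hx, ← dm_comap (R := R) hD q]
    exact ratOn_anti (Ideal.comap_mono hq) (hN R D q x hx)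

omit [Algebra ℂ R] [Algebra ℂ D] [IsScalarTower ℂ R D] [Module.Finite R D] [EssFiniteType ℂ R]
  [EssFiniteType ℂ D] in
lemma quot_equiv (I : Ideal D) (f : R) :
    Nonempty (QuotSMulTop f (D ⧸ I) ≃ₗ[R] D ⧸ (I ⊔ Ideal.span {algebraMap R D f})) := by
  let g : (D ⧸ I) →ₗ[R] D ⧸ (I ⊔ Ideal.span {algebraMap R D f}) :=
    (Ideal.Quotient.factorₐ R le_sup_left).toLinearMap
  have hg : Function.Surjective g := Ideal.Quotient.factor_surjective le_sup_left
  refine ⟨(Submodule.quotEquivOfEq _ _ ?_).trans (g.quotKerEquivOfSurjective hg)⟩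
  ext y
  obtain ⟨y, rfl⟩ := Ideal.Quotient.mk_surjective y
  rw [Submodule.mem_smul_pointwise_iff_exists, LinearMap.mem_ker]
  change _ ↔ Ideal.Quotient.mk (I ⊔ Ideal.span {algebraMap R D f}) y = 0
  rw [Ideal.Quotient.eq_zero_iff_mem, sup_comm, Ideal.mem_span_singleton_sup]
  constructor
  · rintro ⟨b, -, hb⟩
    obtain ⟨b, rfl⟩ := Ideal.Quotient.mk_surjective b
    refine ⟨b, y - b * algebraMap R D f, ?_, by ring⟩
    rw [← Ideal.Quotient.eq, ← hb, mul_comm, map_mul, Algebra.smul_def]
    rfl
  · rintro ⟨a, b, hb, rfl⟩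
    refine ⟨Ideal.Quotient.mk I a, trivial, ?_⟩
    rw [map_add, Ideal.Quotient.eq_zero_iff_mem.2 hb, add_zero, mul_comm, map_mul,
      Algebra.smul_def]
    rfl

lemma push_G_single (hD : DimStmt) (hC : CycStmt) (f : R) (q : PrimeSpectrum D) :
    push R (dv q (algebraMap R D f)) = G f (cyc (dm q) (D ⧸ q.asIdeal)) := by
  have := q.isPrime
  have hs := (hC.1 R).2.2.2.2.2.2 (D ⧸ q.asIdeal) (dm q)
  by_cases hf : algebraMap R D f ∈ q.asIdeal
  · rw [dv, if_pos hf, map_zero, G_eq_zero]
    intro p hp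
    rw [dv, if_pos ((mem_support_down _ p).1 (hs p hp).2 hf)]
  have hz : ∀ (S : Type) [CommRing S] [Algebra ℂ S] [EssFiniteType ℂ S] (p : PrimeSpectrum S)
      (a : S), dm p = 0 → dv p a = 0 := fun S _ _ _ p a hp => by
    ext z
    by_contra h
    have := ((hC.2.1 S p).1 a z h).2.2.2
    omega
  rcases h : dm q with _ | d
  · rw [hz D q _ h, map_zero, G_eq_zero]
    intro p hp
    rw [← h] at hp
    exact hz R p f ((hs p hp).1.trans h)
  have hm := hC.2.2.1 R (D ⧸ q.asIdeal) f d fun p hp => by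
    refine ⟨h ▸ dimLE_down hD (dimLE_quot hD q) p hp, fun hfp => ?_⟩
    have h1 : PrimeSpectrum.comap (algebraMap R D) q < p :=
      lt_of_le_of_ne ((mem_support_down _ p).1 hp) fun e => hf (by rw [← e] at hfp; exact hfp)
    have h2 := hD.1 R _ _ h1
    rw [dm_comap hD] at h2
    omega
  have : IsNoetherianRing R := EssFiniteType.isNoetherianRing ℂ R
  have : Subsingleton (Submodule.torsionBy R (D ⧸ q.asIdeal) f) := by
    refine ⟨fun x y => Subtype.ext ?_⟩
    have key : ∀ z : Submodule.torsionBy R (D ⧸ q.asIdeal) f, (z : D ⧸ q.asIdeal) = 0 := fun z => by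
      have h1 := (Submodule.mem_torsionBy_iff _ _).1 z.2
      rw [Algebra.smul_def, mul_eq_zero] at h1
      exact h1.resolve_left fun h2 => hf (Ideal.Quotient.eq_zero_iff_mem.1 h2)
    rw [key, key]
  rw [cyc_eq_zero hC (M := Submodule.torsionBy R (D ⧸ q.asIdeal) f)
    (by simp [Module.support_eq_empty]), sub_zero] at hm
  obtain ⟨e⟩ := quot_equiv q.asIdeal f
  rw [push_dv hD hC q hf, ← hm, h, (hC.1 R).2.2.2.1 _ _ d e]
  rfl

lemma push_G (hD : DimStmt) (hC : CycStmt) (f : R) (c : Cyc D) :
    push R (G (algebraMap R D f) c) = G f (push R c) := by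
  have : push R ∘ₗ G (algebraMap R D f) = G f ∘ₗ push R := by
    refine Finsupp.lhom_ext' fun q => LinearMap.ext_ring ?_
    simp only [LinearMap.comp_apply, Finsupp.lsingle_apply]
    rw [G_single, push_single, push_G_single hD hC]
  exact LinearMap.congr_fun this c

lemma push_point (hD : DimStmt) (hC : CycStmt) (q : PrimeSpectrum D) :
    ∃ r : ℚ, r ≠ 0 ∧ push R (Finsupp.single q 1) =
      r • Finsupp.single (PrimeSpectrum.comap (algebraMap R D) q) 1 := by
  set w := PrimeSpectrum.comap (algebraMap R D) q with hw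
  have hd : dm w = dm q := dm_comap hD q
  refine ⟨(lenAt w (D ⧸ q.asIdeal)).toNat, ?_, ?_⟩
  · have h1 : lenAt w (D ⧸ q.asIdeal) ≠ 0 := fun h =>
      ((hC.1 R).2.1 _ w).1 h ((mem_support_down _ w).2 le_rfl)
    have h2 : lenAt w (D ⧸ q.asIdeal) ≠ ⊤ :=
      (hC.1 R).2.2.1 _ w (hd ▸ dimLE_down hD (dimLE_quot hD q))
    simp [h1, h2]
  · rw [push_single]
    ext p
    by_cases hp : p = w
    · rw [hp, (hC.1 R).1, if_pos hd]
      simp
    · rw [Finsupp.smul_apply, Finsupp.single_eq_of_ne hp, smul_zero]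
      by_contra h
      obtain ⟨h1, h2⟩ := (hC.1 R).2.2.2.2.2.2 _ _ p h
      have h3 : w < p := lt_of_le_of_ne ((mem_support_down _ p).1 h2) (Ne.symm hp)
      have := hD.1 R _ _ h3
      omega

end Push

end Key

open Key

theorem keyStmt (hD : DimStmt) (hC : CycStmt) (hN : NormStmt) (hK : KeyNormalStmt) : KeyStmt := by
  intro R _ _ _ w a f
  obtain ⟨D, _, _, _, _, hfin, hker⟩ := exists_normal R w
  let : Algebra ℂ D := ((algebraMap R D).comp (algebraMap ℂ R)).toAlgebra
  have : IsScalarTower ℂ R D := IsScalarTower.of_algebraMap_eq fun _ => rfl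
  have : FiniteType ℂ D := FiniteType.trans (S := R) inferInstance inferInstance
  have hw : PrimeSpectrum.comap (algebraMap R D) (gen D) = w := PrimeSpectrum.ext hker
  obtain ⟨r, hr, e⟩ := push_point (R := R) hD hC (gen D)
  have h := push_ratOn (R := R) hD hC hN _ (hK D (algebraMap R D a) (algebraMap R D f))
  rw [push_G hD hC, ← G_single, push_G hD hC, e, hw, map_smul, map_smul, G_single,
    Submodule.smul_mem_iff _ hr] at h
  refine ratOn_anti (sup_le ?_ ?_) h
  · rw [← hker]
    exact Ideal.ker_le_comap _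
  · rw [Ideal.span_singleton_le_iff_mem]
    exact Ideal.mem_span_singleton_self _

end Pool.Agent.Lib.MP_2c79a0_ag
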