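import Pool.Agent.Lib.MP_2c79a0_ag.Cyc
import Pool.Agent.Lib.MP_2c79a0_ag.H68Key

/-! The key lemma on a normal domain. -/

set_option maxHeartbeats 400000

namespace Pool.Agent.Lib.MP_2c79a0_ag

open H68Herb H68Herb.AddLen

namespace KeyNormal

variable {R : Type} [CommRing R] [IsDomain R]

lemma exists_unif [IsNoetherianRing R] [IsIntegrallyClosed R] (q : PrimeSpectrum R)
    (hq : q.asIdeal.height = 1) :
    ∃ π : R, Unif q π ∧ ∀ a : R, a ≠ 0 →
      ∃ (e : ℕ) (u w : R), u ∉ q.asIdeal ∧ w ∉ q.asIdeal ∧ w * a = u * π ^ e := by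
  let S := Localization.AtPrime q.asIdeal
  have hle := q.asIdeal.primeCompl_le_nonZeroDivisors
  have hinj : Function.Injective (algebraMap R S) := IsLocalization.injective S hle
  have : IsIntegrallyClosed S := isIntegrallyClosed_of_isLocalization S _ hle
  have hdim : Ring.KrullDimLE 1 S := by
    rw [Ring.krullDimLE_iff, IsLocalization.AtPrime.ringKrullDim_eq_height q.asIdeal S, hq]
    simp
  have h3 : IsIntegrallyClosed S ∧
      ∀ P : Ideal S, P ≠ ⊥ → P.IsPrime → P = IsLocalRing.maximalIdeal S :=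
    ⟨this, fun P hP hP' => IsLocalRing.eq_maximalIdeal (hP'.isMaximal_of_ne_bot hP)⟩
  have hT := tfae_of_isNoetherianRing_of_isLocalRing_of_isDomain S
  have h4 : (IsLocalRing.maximalIdeal S).IsPrincipal := (hT.out 3 4).mp h3
  have h6 : ∀ I : Ideal S, I ≠ ⊥ → ∃ n : ℕ, I = IsLocalRing.maximalIdeal S ^ n :=
    (hT.out 3 6).mp h3
  obtain ⟨ϖ, hϖ⟩ := h4
  obtain ⟨⟨π, s⟩, rfl⟩ := IsLocalization.mk'_surjective q.asIdeal.primeCompl ϖ
  have hπ : IsLocalRing.maximalIdeal S = Ideal.span {algebraMap R S π} := by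
    rw [hϖ]
    change Ideal.span _ = _
    rw [Ideal.span_singleton_eq_span_singleton]
    refine ⟨(IsLocalization.map_units S s).unit, ?_⟩
    simp
  have hmem : ∀ x : R, algebraMap R S x ∈ IsLocalRing.maximalIdeal S ↔ x ∈ q.asIdeal :=
    fun x => IsLocalization.AtPrime.to_map_mem_maximal_iff S q.asIdeal x
  have hdiv : ∀ x y : R, algebraMap R S x ∣ algebraMap R S y →
      ∃ c : R, ∃ t ∉ q.asIdeal, t * y = c * x := by
    rintro x y ⟨z, hz⟩
    obtain ⟨⟨c, t⟩, rfl⟩ := IsLocalization.mk'_surjective q.asIdeal.primeCompl z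
    refine ⟨c, t, t.2, hinj ?_⟩
    rw [map_mul, map_mul, hz]
    have := IsLocalization.mk'_spec S c t
    simp only at this ⊢
    rw [← this]; ring
  refine ⟨π, ⟨?_, ?_, ?_⟩, ?_⟩
  · rw [← hmem, hπ]; exact Ideal.subset_span rfl
  · rintro rfl
    apply Ideal.ne_bot_of_height_eq_one hq
    rw [eq_bot_iff]
    intro x hx
    rw [← hmem, hπ, map_zero, Ideal.span_singleton_zero, Ideal.mem_bot,
      map_eq_zero_iff _ hinj] at hx
    exact hx
  · intro x hx
    rw [← hmem, hπ, Ideal.mem_span_singleton] at hx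
    obtain ⟨c, t, ht, h⟩ := hdiv _ _ hx
    exact ⟨t, ht, c, by rw [h, mul_comm]⟩
  · intro a ha
    obtain ⟨e, he⟩ := h6 (Ideal.span {algebraMap R S a}) (by
      rw [ne_eq, Ideal.span_singleton_eq_bot, map_eq_zero_iff _ hinj]; exact ha)
    rw [hπ, Ideal.span_singleton_pow, Ideal.span_singleton_eq_span_singleton, ← map_pow] at he
    obtain ⟨c, t, ht, h⟩ := hdiv _ _ he.symm.dvd
    obtain ⟨c', t', ht', h'⟩ := hdiv _ _ he.dvd
    refine ⟨e, c, t, fun hc => ?_, ht, h⟩
    have h1 : t * t' * a = c * c' * a := by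
      linear_combination t' * h + c * h'
    have h2 := mul_right_cancel₀ ha h1
    have h3 : t * t' ∈ q.asIdeal := by rw [h2]; exact q.asIdeal.mul_mem_right _ hc
    exact (q.isPrime.mem_or_mem h3).elim ht ht'

lemma nonempty_tame [IsNoetherianRing R] [IsIntegrallyClosed R] (q : PrimeSpectrum R)
    (hq : q.asIdeal.height = 1) {a b : R} (ha : a ≠ 0) (hb : b ≠ 0) : Nonempty (Tame q a b) := by
  obtain ⟨π, hπ, h⟩ := exists_unif q hq
  obtain ⟨e, u, w, hu, hw, h1⟩ := h a ha
  obtain ⟨f, v, w', hv, hw', h2⟩ := h b hb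
  have nm : ∀ x y, x ∉ q.asIdeal → y ∉ q.asIdeal → x * y ∉ q.asIdeal :=
    fun x y hx hy h0 => (q.isPrime.mem_or_mem h0).elim hx hy
  exact ⟨⟨π, w' * u, w * v, w * w', e, f, hπ, nm _ _ hw' hu, nm _ _ hw hv, nm _ _ hw hw',
    by linear_combination w' * h1, by linear_combination w * h2⟩⟩

lemma muLen_quot_congr {B : Type} [CommRing B] (q : PrimeSpectrum B) {I J : Ideal B}
    (h1 : ∀ x ∈ I, ∃ y ∉ q.asIdeal, y * x ∈ J) (h2 : ∀ x ∈ J, ∃ y ∉ q.asIdeal, y * x ∈ I) :
    (muLen q).len (B ⧸ I) = (muLen q).len (B ⧸ J) := by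
  let S := Localization.AtPrime q.asIdeal
  have key : ∀ I J : Ideal B, (∀ x ∈ I, ∃ y ∉ q.asIdeal, y * x ∈ J) →
      I.map (algebraMap B S) ≤ J.map (algebraMap B S) := by
    intro I J h
    rw [Ideal.map_le_iff_le_comap]
    intro x hx
    obtain ⟨y, hy, hyx⟩ := h x hx
    have hu : IsUnit (algebraMap B S y) :=
      IsLocalization.map_units S (⟨y, hy⟩ : q.asIdeal.primeCompl)
    rw [Ideal.mem_comap, ← Ideal.unit_mul_mem_iff_mem _ hu, ← map_mul]
    exact Ideal.mem_map_of_mem _ hyx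
  rw [muLen_quot q S, muLen_quot q S]
  exact (Submodule.quotEquivOfEq _ _ (le_antisymm (key I J h1) (key J I h2))).length_eq

lemma muLen_tame {q : PrimeSpectrum R} {a b : R} (T : Tame q a b) :
    (muLen q).len (R ⧸ (⊥ ⊔ Ideal.span {a})) = T.e := by
  rw [← T.unif.muLen_symb]
  apply muLen_quot_congr
  · intro x hx
    rw [bot_sup_eq] at hx
    obtain ⟨c, rfl⟩ := Ideal.mem_span_singleton'.mp hx
    refine ⟨T.w, T.hw, ?_⟩
    rw [show T.w * (c * a) = c * (T.w * a) by ring, T.ha, ← mul_assoc]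
    exact Ideal.mul_mem_left _ _ (pow_mem_symb _ _ _)
  · rintro x ⟨y, hy, c, hc⟩
    refine ⟨T.u * y, fun h0 => (q.isPrime.mem_or_mem h0).elim T.hu hy, ?_⟩
    rw [bot_sup_eq, Ideal.mem_span_singleton']
    exact ⟨T.w * c, by linear_combination c * T.ha - T.u * hc⟩

end KeyNormal

open KeyNormal

theorem keyNormal (hD : DimStmt) (hC : CycStmt) : KeyNormalStmt := by
  classical
  intro R _ _ _ _ _ a f
  obtain ⟨hlt, hcov, ⟨hht, -⟩, -⟩ := hD
  obtain ⟨hB, hV, -⟩ := hC
  obtain ⟨b1, -, b3, -⟩ := hB R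
  have : IsNoetherianRing R := Algebra.EssFiniteType.isNoetherianRing ℂ R
  by_cases ha : a = 0
  · subst ha
    have : dv (gen R) 0 = 0 := by simp [dv]
    rw [this, map_zero]; exact zero_mem _
  by_cases hf : f = 0
  · subst hf
    have : G (0 : R) = 0 := by
      apply Finsupp.lhom_ext'
      intro w
      apply LinearMap.ext_ring
      simp [G, dv]
    rw [this]; exact zero_mem _
  have haf : a * f ≠ 0 := mul_ne_zero ha hf
  have hfin : {q : PrimeSpectrum R | q.asIdeal ∈ (Ideal.span {a * f}).minimalPrimes}.Finite :=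
    (Ideal.finite_minimalPrimes_of_isNoetherianRing R _).preimage
      (fun _ _ _ _ h => PrimeSpectrum.ext h)
  let S := hfin.toFinset
  have hmemS : ∀ q, q ∈ S ↔ q.asIdeal ∈ (Ideal.span {a * f}).minimalPrimes := fun q => by
    simp [S]
  have hdmS : ∀ q ∈ S, dm (gen R) = dm q + 1 := by
    intro q hq
    refine (hcov R (gen R) q).2 (a * f) haf ?_
    change q.asIdeal ∈ (⊥ ⊔ _ : Ideal R).minimalPrimes
    rw [bot_sup_eq]; exact (hmemS q).mp hq
  have hhtS : ∀ q ∈ S, q.asIdeal.height = 1 := by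
    intro q hq
    have h1 := hht R q
    rw [hdmS q hq, Nat.cast_add, Nat.cast_one, add_comm (dm q : ℕ∞)] at h1
    exact ENat.add_left_injective_of_ne_top (by simp) h1
  have hex : ∀ p : PrimeSpectrum R, a * f ∈ p.asIdeal → ∃ q ∈ S, q ≤ p := by
    intro p hp
    obtain ⟨q, hq, hqp⟩ := Ideal.exists_minimalPrimes_le (I := Ideal.span {a * f})
      (J := p.asIdeal) (by simpa using hp)
    exact ⟨⟨q, hq.1.1⟩, (hmemS _).mpr hq, hqp⟩
  have hmono : ∀ p p' : PrimeSpectrum R, p ≤ p' → dm p' ≤ dm p := by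
    intro p p' h
    rcases h.eq_or_lt with rfl | h
    · exact le_rfl
    · exact (hlt R p p' h).le
  let T : ∀ q : S, Tame q.1 a f := fun q => (nonempty_tame q.1 (hhtS q.1 q.2) ha hf).some
  let tm : S → Cyc R := fun q =>
    ((T q).e : ℚ) • (dv q.1 (T q).v - dv q.1 (T q).w) -
      ((T q).f : ℚ) • (dv q.1 (T q).u - dv q.1 (T q).w)
  have hdv : ∀ (q : PrimeSpectrum R) (x : R), x ∉ q.asIdeal → ∀ z, dv q x z =
      if dm z = dm q - 1 then (((muLen z).lq q.asIdeal x).toNat : ℚ) else 0 := by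
    intro q x hx z
    rw [dv, if_neg hx, b1]; rfl
  have hsum : ∑ q : S, tm q = 0 := by
    ext z
    rw [Finsupp.finsetSum_apply, Finsupp.zero_apply]
    by_cases hz : dm z + 2 = dm (gen R)
    · have hS : ∀ q ∈ S, ∀ p, q < p → (muLen z).len (R ⧸ p.asIdeal) ≠ ⊤ := by
        intro q hq p hqp
        apply b3
        intro p' hp'
        rw [Module.mem_support_iff_of_finite, Ideal.annihilator_quotient] at hp'
        have h1 := hmono p p' hp'
        have h2 := hlt R q p hqp
        have h3 := hdmS q hq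
        omega
      have hk := key (L := muLen z) ha hf S T (fun q hq q' hq' h =>
        PrimeSpectrum.ext (le_antisymm h (((hmemS q').mp hq').2 ((hmemS q).mp hq).1 h))) hS
        (fun p hp => by
          obtain ⟨q, hq, hqp⟩ := hex p hp
          rcases hqp.eq_or_lt with rfl | h
          · exact Or.inl hq
          · exact Or.inr (hS q hq p h))
      have hk' : ((∑ q : S, (T q).val (muLen z) : ℤ) : ℚ) = 0 := by rw [hk]; simp
      rw [← hk', Int.cast_sum]
      refine Finset.sum_congr rfl fun q _ => ?_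
      have h3 := hdmS q.1 q.2
      have h4 : dm z = dm q.1 - 1 := by omega
      simp only [tm, Finsupp.sub_apply, Finsupp.smul_apply, smul_eq_mul, hdv _ _ (T q).hu,
        hdv _ _ (T q).hv, hdv _ _ (T q).hw, if_pos h4, Tame.val]
      push_cast; ring
    · refine Finset.sum_eq_zero fun q _ => ?_
      have h3 := hdmS q.1 q.2
      have h0 : ∀ x, dv q.1 x z = 0 := by
        intro x
        by_contra hne
        have := ((hV R q.1).1 x z hne).2.2.2
        omega
      simp [tm, h0]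
  have hgen : dv (gen R) a = ∑ q : S, ((T q).e : ℚ) • Finsupp.single q.1 (1 : ℚ) := by
    ext z
    rw [Finsupp.finsetSum_apply]
    by_cases hz : z ∈ S
    · rw [Finset.sum_eq_single (⟨z, hz⟩ : S)]
      · have h3 := hdmS z hz
        rw [hdv _ _ ha, if_pos (by omega)]
        have := muLen_tame (T ⟨z, hz⟩)
        change (((muLen z).len (R ⧸ (⊥ ⊔ Ideal.span {a}))).toNat : ℚ) = _
        rw [this]; simp
      · intro q _ hne
        have : q.1 ≠ z := fun h => hne (Subtype.ext h)
        simp [Finsupp.single_eq_of_ne this.symm]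
      · simp
    · rw [Finset.sum_eq_zero]
      · by_contra hne
        obtain ⟨-, h1, -, h2⟩ := (hV R (gen R)).1 a z hne
        obtain ⟨q, hq, hqz⟩ := hex z (z.asIdeal.mul_mem_right _ h1)
        rcases hqz.eq_or_lt with rfl | h
        · exact hz hq
        · have := hlt R q z h
          have := hdmS q hq
          omega
      · intro q _
        have : q.1 ≠ z := fun h => hz (h ▸ q.2)
        simp [Finsupp.single_eq_of_ne this.symm]
  have hG : G f (dv (gen R) a) = ∑ q : S, (((T q).e : ℚ) • dv q.1 f - tm q) := by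
    rw [Finset.sum_sub_distrib, hsum, sub_zero, hgen, map_sum]
    refine Finset.sum_congr rfl fun q _ => ?_
    simp [G]
  rw [hG]
  refine Submodule.sum_mem _ fun q _ => ?_
  by_cases hfq : f ∈ q.1.asIdeal
  · have hm : ∀ x, dv q.1 x ∈ RatOn (Ideal.span {f}) := fun x =>
      Submodule.subset_span ⟨q.1, x, by simpa using hfq, rfl⟩
    exact sub_mem (Submodule.smul_mem _ _ (hm _)) (sub_mem
      (Submodule.smul_mem _ _ (sub_mem (hm _) (hm _)))
      (Submodule.smul_mem _ _ (sub_mem (hm _) (hm _))))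
  · have hf0 : (T q).f = 0 := by
      by_contra hne
      have h1 : (T q).w * f ∈ q.1.asIdeal := by
        rw [(T q).hb]
        exact Ideal.mul_mem_left _ _ (Ideal.pow_mem_of_mem _ (T q).unif.mem _ (by omega))
      exact (q.1.isPrime.mem_or_mem h1).elim (T q).hw hfq
    have hv : (T q).v = (T q).w * f := by rw [(T q).hb, hf0]; simp
    have h2 : dv q.1 (T q).v = dv q.1 (T q).w + dv q.1 f := by
      rw [hv]; exact (hV R q.1).2.2.1 _ _ (T q).hw hfq
    have : ((T q).e : ℚ) • dv q.1 f - tm q = 0 := by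
      simp [tm, h2, hf0]
    rw [this]; exact zero_mem _

end Pool.Agent.Lib.MP_2c79a0_ag
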