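import Pool.Agent.Lib.MP_2c79a0_ag.Geo

/-!
Main argument, part A: affine charts of the scheme and rational equivalence.
-/

open AlgebraicGeometry CategoryTheory TopologicalSpace Algebra

set_option linter.unusedSectionVars false

noncomputable section

namespace Pool.Agent.Lib.MP_2c79a0_ag.Main

/-- An affine chart of dimension `n`. -/
structure Ch (n : ℕ) (X : Scheme.{0}) where
  U : X.Opens
  aff : IsAffineOpen U
  dom : IsDomain Γ(X, U)
  alg : Algebra ℂ Γ(X, U)
  ft : FiniteType ℂ Γ(X, U)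
  dim : dm (gen Γ(X, U)) = n

attribute [instance] Ch.dom Ch.alg Ch.ft

/-- Divisors of rational functions. -/
structure DX (X : Scheme.{0}) where
  d : ∀ x : X, X.residueField x → X → ℚ
  mul : ∀ x θ θ', θ ≠ 0 → θ' ≠ 0 → d x (θ * θ') = d x θ + d x θ'
  supp : ∀ x θ z, d x θ z ≠ 0 → x ⤳ z
  rat : ∀ x θ (k : ℕ), θ ≠ 0 → Order.coheight x + 1 = (k : ℕ∞) → d x θ ∈ Rat X k
  chart : ∀ (U : X.Opens) (hU : IsAffineOpen U) [Algebra ℂ Γ(X, U)] [EssFiniteType ℂ Γ(X, U)]
      (x z : X) (hx : x ∈ U) (hz : z ∈ U) (r : Γ(X, U)), r ∉ (hU.primeIdealOf ⟨x, hx⟩).asIdeal →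
      d x (X.evaluation U x hx r) z =
        dv (hU.primeIdealOf ⟨x, hx⟩) r (hU.primeIdealOf ⟨z, hz⟩)

lemma exists_DX (h : DivStmt) (X : Scheme.{0}) [IsLocallyNoetherian X] : Nonempty (DX X) := by
  obtain ⟨d, h1, h2, h3, h4⟩ := h X
  exact ⟨⟨d, h1, h2, h3, h4⟩⟩

/-- The codimension as a natural number. -/
def cod {X : Scheme.{0}} (x : X) : ℕ := (Order.coheight x).toNat

variable {n : ℕ} {X : Scheme.{0}}

namespace Ch

variable (c : Ch n X)

/-- The prime ideal of a point of the chart. -/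
def pt (x : X) (hx : x ∈ c.U) : PrimeSpectrum Γ(X, c.U) := c.aff.primeIdealOf ⟨x, hx⟩

/-- The point of a prime ideal. -/
def fs (P : PrimeSpectrum Γ(X, c.U)) : X := c.aff.fromSpec P

lemma fs_mem (P : PrimeSpectrum Γ(X, c.U)) : c.fs P ∈ c.U := by
  have : c.fs P ∈ Set.range c.aff.fromSpec := ⟨P, rfl⟩
  rwa [c.aff.range_fromSpec] at this

@[simp] lemma fs_pt (x : X) (hx : x ∈ c.U) : c.fs (c.pt x hx) = x :=
  c.aff.fromSpec_primeIdealOf ⟨x, hx⟩

lemma fs_injective : Function.Injective c.fs :=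
  c.aff.fromSpec.isOpenEmbedding.injective

@[simp] lemma pt_fs (P : PrimeSpectrum Γ(X, c.U)) (h : c.fs P ∈ c.U) : c.pt (c.fs P) h = P :=
  c.fs_injective (c.fs_pt _ _)

lemma pt_inj {x y : X} (hx : x ∈ c.U) (hy : y ∈ c.U) (h : c.pt x hx = c.pt y hy) : x = y := by
  rw [← c.fs_pt x hx, h, c.fs_pt]

lemma mem_of_spec {x z : X} (h : x ⤳ z) (hz : z ∈ c.U) : x ∈ c.U :=
  h.mem_open c.U.isOpen hz

/-- The stalk as an algebra over the coordinate ring. -/
abbrev stalkAlg (x : X) (hx : x ∈ c.U) : Algebra Γ(X, c.U) (X.presheaf.stalk x) :=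
  (X.presheaf.germ c.U x hx).hom.toAlgebra

lemma isLoc (x : X) (hx : x ∈ c.U) :
    letI := c.stalkAlg x hx
    IsLocalization.AtPrime (X.presheaf.stalk x) (c.pt x hx).asIdeal :=
  c.aff.isLocalization_stalk ⟨x, hx⟩

variable (hPt : PointStmt)
include hPt

lemma spec_iff {x z : X} (hx : x ∈ c.U) (hz : z ∈ c.U) : x ⤳ z ↔ c.pt x hx ≤ c.pt z hz :=
  (hPt X c.U c.aff x z hx hz).1

lemma mem_pt {z : X} (hz : z ∈ c.U) (r : Γ(X, c.U)) :
    r ∈ (c.pt z hz).asIdeal ↔ z ∉ X.basicOpen r :=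
  (hPt X c.U c.aff z z hz hz).2.2.1 r

lemma ev_eq_zero {z : X} (hz : z ∈ c.U) (r : Γ(X, c.U)) :
    X.evaluation c.U z hz r = 0 ↔ r ∈ (c.pt z hz).asIdeal := by
  rw [c.mem_pt hPt, Scheme.evaluation_eq_zero_iff_notMem_basicOpen]

lemma primeAt_eq {x z : X} (hx : x ∈ c.U) (hz : z ∈ c.U) (h : x ⤳ z) :
    primeAt x z = (c.pt x hx).asIdeal.map (X.presheaf.germ c.U z hz).hom :=
  (hPt X c.U c.aff x z hx hz).2.2.2 h

lemma coheight_add (hD : DimStmt) {z : X} (hz : z ∈ c.U) :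
    Order.coheight z + (dm (c.pt z hz) : ℕ∞) = n := by
  rw [(hPt X c.U c.aff z z hz hz).2.1]
  exact (hD.2.2.1.1 _ (c.pt z hz)).trans (congrArg _ c.dim)

lemma coheight_eq (hD : DimStmt) {z : X} (hz : z ∈ c.U) : Order.coheight z = (cod z : ℕ∞) := by
  have h := c.coheight_add hPt hD hz
  have : Order.coheight z ≠ ⊤ := by
    intro e
    rw [e, top_add] at h
    exact ENat.top_ne_natCast _ h
  exact (ENat.natCast_toNat this).symm

lemma cod_add (hD : DimStmt) {z : X} (hz : z ∈ c.U) : cod z + dm (c.pt z hz) = n := by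
  have h := c.coheight_add hPt hD hz
  rw [c.coheight_eq hPt hD hz] at h
  exact_mod_cast h

lemma comp_iff {v w z : X} (hv : v ∈ c.U) (hw : w ∈ c.U) (hz : z ∈ c.U) :
    Comp v w z ↔
      (c.pt z hz).asIdeal ∈ ((c.pt v hv).asIdeal ⊔ (c.pt w hw).asIdeal).minimalPrimes := by
  constructor
  · rintro ⟨h1, h2, h3⟩
    refine ⟨⟨(c.pt z hz).isPrime, sup_le ((c.spec_iff hPt hv hz).1 h1)
      ((c.spec_iff hPt hw hz).1 h2)⟩, ?_⟩
    rintro q ⟨hq, hle⟩ hqz
    have hm := c.fs_mem ⟨q, hq⟩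
    have e := h3 (c.fs ⟨q, hq⟩)
      ((c.spec_iff hPt hv hm).2 (by rw [pt_fs]; exact le_sup_left.trans hle))
      ((c.spec_iff hPt hw hm).2 (by rw [pt_fs]; exact le_sup_right.trans hle))
      ((c.spec_iff hPt hm hz).2 (by rw [pt_fs]; exact hqz))
    subst e
    rw [pt_fs]
  · rintro ⟨⟨-, hle⟩, hmin⟩
    refine ⟨(c.spec_iff hPt hv hz).2 (le_sup_left.trans hle),
      (c.spec_iff hPt hw hz).2 (le_sup_right.trans hle), fun y h1 h2 h3 => ?_⟩
    have hy := c.mem_of_spec h3 hz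
    have h4 := (c.spec_iff hPt hy hz).1 h3
    have h5 := hmin ⟨(c.pt y hy).isPrime, sup_le ((c.spec_iff hPt hv hy).1 h1)
      ((c.spec_iff hPt hw hy).1 h2)⟩ h4
    exact c.pt_inj hy hz (le_antisymm h4 h5)

omit hPt in
lemma exists_frac {x : X} (hx : x ∈ c.U) (θ : X.residueField x) :
    ∃ r s : Γ(X, c.U), X.evaluation c.U x hx s ≠ 0 ∧
      θ * X.evaluation c.U x hx s = X.evaluation c.U x hx r := by
  obtain ⟨a, rfl⟩ := X.residue_surjective x θ
  let := c.stalkAlg x hx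
  have := c.isLoc x hx
  obtain ⟨⟨r, s⟩, e⟩ := IsLocalization.surj (c.pt x hx).asIdeal.primeCompl
    (S := X.presheaf.stalk x) a
  have hu := IsLocalization.map_units (X.presheaf.stalk x) s
  refine ⟨r, s, ?_, ?_⟩
  · exact (hu.map (X.residue x).hom).ne_zero
  · have := congrArg (X.residue x).hom e
    rw [map_mul] at this
    exact this

end Ch

namespace DX

variable (δ : DX X)

/-- The span of all divisors of rational functions. -/
def RX : Submodule ℚ (X → ℚ) := Submodule.span ℚ {e | ∃ x θ, θ ≠ 0 ∧ e = δ.d x θ}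

lemma d_one (x : X) : δ.d x 1 = 0 := by
  have := δ.mul x 1 1 one_ne_zero one_ne_zero
  rw [mul_one] at this
  simpa using this

lemma exists_chart (hPt : PointStmt) (c : Ch n X) {x : X} (hx : x ∈ c.U) {θ : X.residueField x}
    (hθ : θ ≠ 0) : ∃ r s : Γ(X, c.U), ∀ z (hz : z ∈ c.U),
      δ.d x θ z = (dv (c.pt x hx) r - dv (c.pt x hx) s) (c.pt z hz) := by
  obtain ⟨r, s, hs, e⟩ := c.exists_frac hx θ
  have hr : X.evaluation c.U x hx r ≠ 0 := e ▸ mul_ne_zero hθ hs
  refine ⟨r, s, fun z hz => ?_⟩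
  have h1 := δ.chart c.U c.aff x z hx hz r (mt (c.ev_eq_zero hPt hx r).2 hr)
  have h2 := δ.chart c.U c.aff x z hx hz s (mt (c.ev_eq_zero hPt hx s).2 hs)
  have h3 := congrFun (δ.mul x θ _ hθ hs) z
  rw [e, h1, Pi.add_apply, h2] at h3
  rw [Finsupp.sub_apply]
  unfold Ch.pt
  rw [h3]; ring

variable {ι : Type} [Finite ι] (ch : ι → Ch n X) (hcov : ∀ x, ∃ i, x ∈ (ch i).U)
  (hPt : PointStmt) (hD : DimStmt) (hC : CycStmt)
include hcov hPt hD hC

lemma d_cod {x : X} {θ : X.residueField x} (hθ : θ ≠ 0) {z : X} (h : δ.d x θ z ≠ 0) :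
    cod z = cod x + 1 := by
  obtain ⟨i, hz⟩ := hcov z
  have hx := (ch i).mem_of_spec (δ.supp x θ z h) hz
  obtain ⟨r, s, e⟩ := δ.exists_chart hPt (ch i) hx hθ
  rw [e z hz, Finsupp.sub_apply] at h
  have h1 := (ch i).cod_add hPt hD hz
  have h2 := (ch i).cod_add hPt hD hx
  have h3 : dm ((ch i).pt z hz) + 1 = dm ((ch i).pt x hx) := by
    by_cases hr : dv ((ch i).pt x hx) r ((ch i).pt z hz) = 0
    · have hs : dv ((ch i).pt x hx) s ((ch i).pt z hz) ≠ 0 := fun hs => h (by rw [hr, hs]; simp)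
      exact ((hC.2.1 _ _).1 s _ hs).2.2.2
    · exact ((hC.2.1 _ _).1 r _ hr).2.2.2
  omega

omit hD hC in
lemma d_finite {x : X} {θ : X.residueField x} (hθ : θ ≠ 0) :
    (Function.support (δ.d x θ)).Finite := by
  have : Function.support (δ.d x θ) ⊆ ⋃ i, {z | z ∈ (ch i).U ∧ δ.d x θ z ≠ 0} := by
    intro z hz
    obtain ⟨i, hi⟩ := hcov z
    exact Set.mem_iUnion.2 ⟨i, hi, hz⟩
  refine (Set.finite_iUnion fun i => ?_).subset this
  by_cases hx : x ∈ (ch i).U
  · obtain ⟨r, s, e⟩ := δ.exists_chart hPt (ch i) hx hθ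
    refine ((dv ((ch i).pt x hx) r - dv ((ch i).pt x hx) s).support.finite_toSet.image
      (ch i).fs).subset ?_
    rintro z ⟨hz, h⟩
    refine ⟨(ch i).pt z hz, ?_, (ch i).fs_pt z hz⟩
    rw [e z hz] at h
    simpa using h
  · convert Set.finite_empty
    ext z
    simp only [Set.mem_ofPred_eq, Set.mem_empty_iff_false, iff_false, not_and]
    exact fun hz h => hx ((ch i).mem_of_spec (δ.supp x θ z h) hz)

omit hD hC in
lemma RX_finite {e : X → ℚ} (he : e ∈ δ.RX) : (Function.support e).Finite := by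
  induction he using Submodule.span_induction with
  | mem e h =>
    obtain ⟨x, θ, hθ, rfl⟩ := h
    exact δ.d_finite ch hcov hPt hθ
  | zero => simp
  | add a b _ _ ha hb => exact (ha.union hb).subset (Function.support_add a b)
  | smul r a _ ha => exact ha.subset (Function.support_const_smul_subset r a)

omit hcov hPt hD hC in
/-- The part of codimension `k`. -/
def part (X : Scheme.{0}) (k : ℕ) : (X → ℚ) →ₗ[ℚ] (X → ℚ) where
  toFun e := fun z => if cod z = k then e z else 0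
  map_add' a b := by ext z; by_cases h : cod z = k <;> simp [h]
  map_smul' r a := by ext z; by_cases h : cod z = k <;> simp [h]

omit hcov hPt hD hC in
lemma part_eq_self {k : ℕ} {e : X → ℚ} (h : ∀ z, e z ≠ 0 → cod z = k) : part X k e = e := by
  ext z
  by_cases hz : cod z = k
  · simp [part, hz]
  · have : e z = 0 := by_contra fun h' => hz (h z h')
    simp [part, hz, this]

lemma part_mem {e : X → ℚ} (he : e ∈ δ.RX) (k : ℕ) : part X k e ∈ Rat X k := by
  induction he using Submodule.span_induction with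
  | mem e h =>
    obtain ⟨x, θ, hθ, rfl⟩ := h
    by_cases hk : cod x + 1 = k
    · rw [part_eq_self fun z hz => (δ.d_cod ch hcov hPt hD hC hθ hz).trans hk]
      refine δ.rat x θ k hθ ?_
      obtain ⟨i, hx⟩ := hcov x
      rw [(ch i).coheight_eq hPt hD hx, ← hk]; simp
    · have : part X k (δ.d x θ) = 0 := by
        ext z
        by_cases hz : cod z = k
        · have : δ.d x θ z = 0 := by_contra fun h' =>
            hk ((δ.d_cod ch hcov hPt hD hC hθ h').symm.trans hz)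
          simp [part, this]
        · simp [part, hz]
      rw [this]; exact zero_mem _
  | zero => rw [map_zero]; exact zero_mem _
  | add a b _ _ ha hb => rw [map_add]; exact add_mem ha hb
  | smul r a _ ha => rw [map_smul]; exact Submodule.smul_mem _ r ha

omit hcov hD hC in
/-- Rational equivalences on a chart extend to the scheme. -/
lemma exists_lift (c : Ch n X) (J : Ideal Γ(X, c.U)) {a : Cyc Γ(X, c.U)} (ha : a ∈ RatOn J) :
    ∃ e ∈ δ.RX, (∀ z (hz : z ∈ c.U), e z = a (c.pt z hz)) ∧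
      ∀ z, e z ≠ 0 → ∃ (x : X) (hx : x ∈ c.U), J ≤ (c.pt x hx).asIdeal ∧ x ⤳ z := by
  induction ha using Submodule.span_induction with
  | mem a h =>
    obtain ⟨w, r, hw, rfl⟩ := h
    by_cases hr : r ∈ w.asIdeal
    · exact ⟨0, zero_mem _, fun z hz => by simp [dv, hr], fun z h => (h rfl).elim⟩
    · have hx := c.fs_mem w
      have hr' : r ∉ (c.pt _ hx).asIdeal := by rwa [Ch.pt_fs]
      refine ⟨δ.d (c.fs w) (X.evaluation c.U _ hx r), Submodule.subset_span
        ⟨_, _, mt (c.ev_eq_zero hPt hx r).1 hr', rfl⟩, fun z hz => ?_, fun z h => ?_⟩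
      · have := δ.chart c.U c.aff _ z hx hz r hr'
        rw [this]
        change dv (c.pt _ hx) r (c.pt z hz) = _
        rw [Ch.pt_fs]
      · exact ⟨_, hx, by rwa [Ch.pt_fs], δ.supp _ _ _ h⟩
  | zero => exact ⟨0, zero_mem _, fun z hz => rfl, fun z h => (h rfl).elim⟩
  | add a b _ _ ha hb =>
    obtain ⟨e, he, h1, h2⟩ := ha
    obtain ⟨e', he', h1', h2'⟩ := hb
    refine ⟨e + e', add_mem he he', fun z hz => by simp [h1 z hz, h1' z hz], fun z h => ?_⟩
    by_cases hz : e z = 0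
    · exact h2' z (by simpa [hz] using h)
    · exact h2 z hz
  | smul r a _ ha =>
    obtain ⟨e, he, h1, h2⟩ := ha
    refine ⟨r • e, Submodule.smul_mem _ r he, fun z hz => by simp [h1 z hz], fun z h => ?_⟩
    exact h2 z fun h' => h (by simp [h'])

end DX

open Classical in
lemma mem_of_support {α : Type} (W : Submodule ℚ (α → ℚ)) {g : α → ℚ}
    (hf : (Function.support g).Finite) (h : ∀ z, g z ≠ 0 → Pi.single z (1 : ℚ) ∈ W) : g ∈ W := by
  have : g = ∑ z ∈ hf.toFinset, g z • Pi.single z (1 : ℚ) := by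
    ext y
    simp only [Finset.sum_apply, Pi.smul_apply, smul_eq_mul]
    rw [Finset.sum_eq_single y]
    · simp
    · intro b _ hb; simp [hb.symm]
    · intro hy
      simp only [Set.Finite.mem_toFinset, Function.mem_support, not_not] at hy
      simp [hy]
  rw [this]
  refine Submodule.sum_mem _ fun z hz => Submodule.smul_mem _ _ (h z ?_)
  simpa using hz

end Pool.Agent.Lib.MP_2c79a0_ag.Main
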