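import Pool.Agent.Lib.MP_2c79a0_ag.MainA

/-!
Main argument, part B: strata, and reduction of boundary cycles and products to strata.
-/

open AlgebraicGeometry CategoryTheory TopologicalSpace Algebra

set_option linter.unusedSectionVars false

noncomputable section

namespace Pool.Agent.Lib.MP_2c79a0_ag.Main

/-- The model, repackaged with charts, together with all the facts used. -/
structure Mod (n : ℕ) {N : ℕ} (K : Set (Cone N)) (X : Scheme.{0}) where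
  integral : IsIntegral X
  δ : DX X
  ch : MaxC n K → Ch n X
  t : ∀ σ, Ray N → Γ(X, (ch σ).U)
  chart : ∀ σ, XChart n σ.1 Γ(X, (ch σ).U) (t σ)
  ch0 : Ch n X
  torus : TorusData n Γ(X, ch0.U)
  le : ∀ σ, ch0.U ≤ (ch σ).U
  D : Ray N → Set X
  memD : ∀ σ ρ, ∀ x ∈ (ch σ).U, x ∈ D ρ ↔ x ∉ X.basicOpen (t σ ρ)
  memU : ∀ σ x, x ∈ (ch σ).U ↔ ∀ ρ ∉ σ.1, x ∉ D ρ
  memU0 : ∀ x, x ∈ ch0.U ↔ ∀ ρ, x ∉ D ρ
  cover : ∀ x, ∃ σ, x ∈ (ch σ).U
  χ : Fin N → Γ(X, ch0.U)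
  chars : ∀ σ, ∃ (g : Γ(X, ch0.U)) (u : Fin N → Γ(X, (ch σ).U)), IsUnit g ∧ ∀ i, IsUnit (u i) ∧
    χ i = g * X.presheaf.map (homOfLE (le σ)).op (u i * ∏ ρ ∈ σ.1.filter (i ∈ ·), t σ ρ ^ ee ρ)
  down : ∀ σ ∈ K, ∀ τ ⊆ σ, τ ∈ K
  card_le : ∀ σ ∈ K, σ.card ≤ n
  pure : ∀ τ ∈ K, ∃ σ ∈ K, τ ⊆ σ ∧ σ.card = n
  empty : (∅ : Cone N) ∈ K
  hPt : PointStmt
  hD : DimStmt
  hC : CycStmt

lemma exists_mod {n N : ℕ} {K : Set (Cone N)} {X : Scheme.{0}} (M : XModel n K X)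
    (down : ∀ σ ∈ K, ∀ τ ⊆ σ, τ ∈ K) (card_le : ∀ σ ∈ K, σ.card ≤ n)
    (pure : ∀ τ ∈ K, ∃ σ ∈ K, τ ⊆ σ ∧ σ.card = n) (empty : (∅ : Cone N) ∈ K)
    (hPt : PointStmt) (hD : DimStmt) (hC : CycStmt) (hV : DivStmt) : Nonempty (Mod n K X) := by
  have := M.noeth
  obtain ⟨δ⟩ := exists_DX hV X
  exact ⟨{
    integral := M.integral
    δ := δ
    ch := fun σ => ⟨M.U σ, M.aff σ, M.dom σ, M.alg σ, (@XChart.ft _ _ _ _ _ (M.dom σ) (M.alg σ) _
      (M.chart σ)), (@XChart.dim _ _ _ _ _ (M.dom σ) (M.alg σ) _ (M.chart σ))⟩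
    t := M.t
    chart := M.chart
    ch0 := ⟨M.U0, M.aff0, M.dom0, M.alg0, M.ft0, M.dim0⟩
    torus := M.torus
    le := M.le
    D := M.D
    memD := M.memD
    memU := M.memU
    memU0 := M.memU0
    cover := M.cover
    χ := M.χ
    chars := M.chars
    down := down
    card_le := card_le
    pure := pure
    empty := empty
    hPt := hPt
    hD := hD
    hC := hC }⟩

namespace Mod

variable {n N : ℕ} {K : Set (Cone N)} {X : Scheme.{0}} (M : Mod n K X)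

lemma memD' (σ : MaxC n K) (ρ : Ray N) {x : X} (hx : x ∈ (M.ch σ).U) :
    x ∈ M.D ρ ↔ M.t σ ρ ∈ ((M.ch σ).pt x hx).asIdeal := by
  rw [M.memD σ ρ x hx, (M.ch σ).mem_pt M.hPt]

lemma D_spec {ρ : Ray N} {x z : X} (h : x ⤳ z) (hx : x ∈ M.D ρ) : z ∈ M.D ρ := by
  obtain ⟨σ, hz⟩ := M.cover z
  have hx' := (M.ch σ).mem_of_spec h hz
  rw [M.memD' σ ρ hz]
  exact ((M.ch σ).spec_iff M.hPt hx' hz).1 h ((M.memD' σ ρ hx').1 hx)

lemma mem_of_D {σ : MaxC n K} {ρ : Ray N} {x : X} (hx : x ∈ (M.ch σ).U) (h : x ∈ M.D ρ) :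
    ρ ∈ σ.1 := by_contra fun hρ => (M.memU σ x).1 hx ρ hρ h

/-- The prime ideal of the stratum `τ` in the chart `σ`. -/
def pp (σ : MaxC n K) (τ : Cone N) (h : τ ⊆ σ.1) : PrimeSpectrum Γ(X, (M.ch σ).U) :=
  ⟨Ideal.span (M.t σ '' τ), (M.chart σ).prime τ h⟩

lemma t_mem_pp (σ : MaxC n K) {τ : Cone N} (h : τ ⊆ σ.1) (ρ : Ray N) :
    M.t σ ρ ∈ (M.pp σ τ h).asIdeal ↔ ρ ∈ τ := by
  refine ⟨fun H => by_contra fun hρ => ?_, fun H => Ideal.subset_span ⟨ρ, H, rfl⟩⟩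
  by_cases hσ : ρ ∈ σ.1
  · exact (M.chart σ).notMem τ h ρ hσ hρ H
  · rw [(M.chart σ).one ρ hσ] at H
    exact (M.pp σ τ h).isPrime.ne_top ((Ideal.eq_top_iff_one _).2 H)

lemma pp_le_iff (σ : MaxC n K) {τ : Cone N} (h : τ ⊆ σ.1) (P : PrimeSpectrum Γ(X, (M.ch σ).U)) :
    M.pp σ τ h ≤ P ↔ ∀ ρ ∈ τ, M.t σ ρ ∈ P.asIdeal := by
  change Ideal.span _ ≤ _ ↔ _
  rw [Ideal.span_le]
  exact ⟨fun H ρ hρ => H ⟨ρ, hρ, rfl⟩, fun H _ ⟨ρ, hρ, e⟩ => e ▸ H ρ hρ⟩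

lemma pp_insert (σ : MaxC n K) {τ : Cone N} {ρ : Ray N} (h : insert ρ τ ⊆ σ.1) :
    (M.pp σ τ ((Finset.subset_insert _ _).trans h)).asIdeal ⊔ Ideal.span {M.t σ ρ} =
      (M.pp σ _ h).asIdeal := by
  simp only [pp, Finset.coe_insert, Set.image_insert_eq, Ideal.span_insert, sup_comm]

lemma dm_pp (σ : MaxC n K) (τ : Cone N) (h : τ ⊆ σ.1) : dm (M.pp σ τ h) + τ.card = n := by
  induction τ using Finset.induction_on with
  | empty =>
    have : M.pp σ ∅ h = gen _ := by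
      apply PrimeSpectrum.ext
      simp [pp, gen]
    rw [this, (M.ch σ).dim]; simp
  | insert ρ τ hρ ih =>
    have h' := (Finset.subset_insert ρ τ).trans h
    have h1 := (M.hD.2.1 _ (M.pp σ τ h') (M.pp σ _ h)).2 (M.t σ ρ)
      (by rwa [M.t_mem_pp]) (by
        rw [M.pp_insert σ h]
        have := (M.pp σ _ h).isPrime
        rw [Ideal.minimalPrimes_eq_subsingleton_self]; rfl)
    have := ih h'
    rw [Finset.card_insert_of_notMem hρ]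
    omega

lemma fs_pp_mem_D (σ : MaxC n K) {τ : Cone N} (h : τ ⊆ σ.1) (ρ : Ray N) :
    (M.ch σ).fs (M.pp σ τ h) ∈ M.D ρ ↔ ρ ∈ τ := by
  rw [M.memD' σ ρ ((M.ch σ).fs_mem _), Ch.pt_fs, M.t_mem_pp]

lemma mem_U_of_type {σ : MaxC n K} {τ : Cone N} (h : τ ⊆ σ.1) {x : X}
    (hx : ∀ ρ, x ∈ M.D ρ → ρ ∈ τ) : x ∈ (M.ch σ).U :=
  (M.memU σ x).2 fun ρ hρ H => hρ (h (hx ρ H))

lemma fs_pp_spec (σ : MaxC n K) {τ : Cone N} (h : τ ⊆ σ.1) {x : X} (hx : x ∈ (M.ch σ).U)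
    (H : ∀ ρ ∈ τ, x ∈ M.D ρ) : (M.ch σ).fs (M.pp σ τ h) ⤳ x := by
  rw [(M.ch σ).spec_iff M.hPt ((M.ch σ).fs_mem _) hx, Ch.pt_fs, M.pp_le_iff]
  exact fun ρ hρ => (M.memD' σ ρ hx).1 (H ρ hρ)

lemma fs_pp_eq (σ σ' : MaxC n K) {τ : Cone N} (h : τ ⊆ σ.1) (h' : τ ⊆ σ'.1) :
    (M.ch σ).fs (M.pp σ τ h) = (M.ch σ').fs (M.pp σ' τ h') := by
  have key : ∀ (σ σ' : MaxC n K) (h : τ ⊆ σ.1) (h' : τ ⊆ σ'.1),
      (M.ch σ).fs (M.pp σ τ h) ⤳ (M.ch σ').fs (M.pp σ' τ h') := fun σ σ' h h' =>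
    M.fs_pp_spec σ h (M.mem_U_of_type h fun ρ => (M.fs_pp_mem_D σ' h' ρ).1)
      fun ρ => (M.fs_pp_mem_D σ' h' ρ).2
  exact ((key σ σ' h h').antisymm (key σ' σ h' h)).eq

/-- A maximal cone containing a given cone. -/
def mx {τ : Cone N} (h : τ ∈ K) : MaxC n K :=
  ⟨(M.pure τ h).choose, (M.pure τ h).choose_spec.1, (M.pure τ h).choose_spec.2.2⟩

lemma subset_mx {τ : Cone N} (h : τ ∈ K) : τ ⊆ (M.mx h).1 := (M.pure τ h).choose_spec.2.1

open Classical in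
/-- The generic point of the stratum of a cone. -/
def v (τ : Cone N) : X :=
  if h : τ ∈ K then (M.ch (M.mx h)).fs (M.pp _ τ (M.subset_mx h))
  else (M.ch (M.mx M.empty)).fs (M.pp _ ∅ (M.subset_mx M.empty))

lemma v_eq (σ : MaxC n K) {τ : Cone N} (h : τ ⊆ σ.1) : M.v τ = (M.ch σ).fs (M.pp σ τ h) := by
  rw [v, dif_pos (M.down _ σ.2.1 _ h)]
  exact M.fs_pp_eq _ _ _ _

lemma v_mem_D {τ : Cone N} (h : τ ∈ K) (ρ : Ray N) : M.v τ ∈ M.D ρ ↔ ρ ∈ τ := by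
  rw [M.v_eq _ (M.subset_mx h), M.fs_pp_mem_D]

lemma v_mem_U {τ : Cone N} (h : τ ∈ K) (σ : MaxC n K) : M.v τ ∈ (M.ch σ).U ↔ τ ⊆ σ.1 :=
  ⟨fun H ρ hρ => M.mem_of_D H ((M.v_mem_D h ρ).2 hρ),
    fun H => M.mem_U_of_type H fun ρ => (M.v_mem_D h ρ).1⟩

lemma pt_v (σ : MaxC n K) {τ : Cone N} (h : τ ⊆ σ.1) (hv : M.v τ ∈ (M.ch σ).U) :
    (M.ch σ).pt _ hv = M.pp σ τ h :=
  (M.ch σ).fs_injective (by rw [Ch.fs_pt, M.v_eq σ h])

lemma v_inj {τ τ' : Cone N} (h : τ ∈ K) (h' : τ' ∈ K) (e : M.v τ = M.v τ') : τ = τ' := by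
  ext ρ
  rw [← M.v_mem_D h, e, M.v_mem_D h']

lemma cone_of_D {τ : Cone N} {x : X} (H : ∀ ρ ∈ τ, x ∈ M.D ρ) : τ ∈ K := by
  obtain ⟨σ, hx⟩ := M.cover x
  exact M.down _ σ.2.1 _ fun ρ hρ => M.mem_of_D hx (H ρ hρ)

lemma v_spec_iff {τ : Cone N} (h : τ ∈ K) (x : X) : M.v τ ⤳ x ↔ ∀ ρ ∈ τ, x ∈ M.D ρ := by
  refine ⟨fun H ρ hρ => M.D_spec H ((M.v_mem_D h ρ).2 hρ), fun H => ?_⟩
  obtain ⟨σ, hx⟩ := M.cover x
  have h' : τ ⊆ σ.1 := fun ρ hρ => M.mem_of_D hx (H ρ hρ)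
  rw [M.v_eq σ h']
  exact M.fs_pp_spec σ h' hx H

lemma cod_v {τ : Cone N} (h : τ ∈ K) : cod (M.v τ) = τ.card := by
  have hv := (M.v_mem_U h _).2 (M.subset_mx h)
  have h1 := (M.ch _).cod_add M.hPt M.hD hv
  rw [M.pt_v _ (M.subset_mx h)] at h1
  have h2 := M.dm_pp _ τ (M.subset_mx h)
  omega

include M in
lemma coheight_eq (x : X) : Order.coheight x = (cod x : ℕ∞) := by
  obtain ⟨σ, hx⟩ := M.cover x
  exact (M.ch σ).coheight_eq M.hPt M.hD hx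

lemma RX_finite {e : X → ℚ} (he : e ∈ M.δ.RX) : (Function.support e).Finite :=
  M.δ.RX_finite M.ch M.cover M.hPt he

lemma part_mem {e : X → ℚ} (he : e ∈ M.δ.RX) (k : ℕ) : DX.part X k e ∈ Rat X k :=
  M.δ.part_mem M.ch M.cover M.hPt M.hD M.hC he k

open Classical in
/-- The set of boundary divisors through a point. -/
def ty (x : X) : Cone N := Finset.univ.filter fun ρ => x ∈ M.D ρ

@[simp] lemma mem_ty (x : X) (ρ : Ray N) : ρ ∈ M.ty x ↔ x ∈ M.D ρ := by simp [ty]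

lemma ty_mem (x : X) : M.ty x ∈ K := M.cone_of_D fun ρ => (M.mem_ty x ρ).1

open Classical in
/-- Strata modulo rational equivalence. -/
def W : Submodule ℚ (X → ℚ) :=
  M.δ.RX ⊔ Submodule.span ℚ {e | ∃ τ ∈ K, e = Pi.single (M.v τ) (1 : ℚ)}

open Classical in
lemma single_mem_W (x : X) (hx : (M.ty x).Nonempty) : Pi.single x (1 : ℚ) ∈ M.W := by
  induction hk : n - (M.ty x).card using Nat.strong_induction_on generalizing x with
  | _ k ih =>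
  have hτ := M.ty_mem x
  set τ := M.ty x with hτdef
  set σ := M.mx hτ
  have hs : τ ⊆ σ.1 := M.subset_mx hτ
  have hxU : x ∈ (M.ch σ).U := M.mem_U_of_type hs fun ρ => (M.mem_ty x ρ).2
  have hle : M.pp σ τ hs ≤ (M.ch σ).pt x hxU :=
    (M.pp_le_iff σ hs _).2 fun ρ hρ => (M.memD' σ ρ hxU).1 ((M.mem_ty x ρ).1 hρ)
  rcases hle.eq_or_lt with e | hlt
  · refine Submodule.mem_sup_right (Submodule.subset_span ⟨τ, hτ, ?_⟩)
    rw [M.v_eq σ hs, e, Ch.fs_pt]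
  obtain ⟨a, ha, hav⟩ := (M.chart σ).aff τ hs hx _ hlt fun ρ hρ H =>
    hρ ((M.mem_ty x ρ).2 ((M.memD' σ ρ hxU).2 H))
  obtain ⟨e, he, h1, h2⟩ := M.δ.exists_lift M.hPt (M.ch σ) _ ha
  have hg : Pi.single x (1 : ℚ) - e ∈ M.W := by
    refine mem_of_support _ ?_ fun z hz => ?_
    · refine ((Set.finite_singleton x).union (M.RX_finite he)).subset fun z hz => ?_
      by_contra hc
      simp only [Set.mem_union, Set.mem_singleton_iff, Function.mem_support, not_or,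
        not_not] at hc
      exact hz (by simp [hc.1, hc.2])
    · have hsub : τ ⊆ M.ty z := by
        by_cases hzx : z = x
        · rw [hzx]
        · have hez : e z ≠ 0 := fun h => hz (by simp [hzx, h])
          obtain ⟨y, hy, hJ, hyz⟩ := h2 z hez
          intro ρ hρ
          exact (M.mem_ty z ρ).2 (M.D_spec hyz ((M.memD' σ ρ hy).2
            (hJ (Ideal.subset_span ⟨ρ, hρ, rfl⟩))))
      have hne : τ ≠ M.ty z := by
        intro he'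
        have hzU : z ∈ (M.ch σ).U :=
          M.mem_U_of_type hs fun ρ H => he' ▸ (M.mem_ty z ρ).2 H
        apply hz
        rw [Pi.sub_apply, h1 z hzU, hav _ fun ρ hρ H =>
          hρ (he' ▸ (M.mem_ty z ρ).2 ((M.memD' σ ρ hzU).2 H))]
        by_cases hzx : z = x
        · subst hzx; simp
        · rw [Pi.single_eq_of_ne hzx, Finsupp.single_eq_of_ne, sub_zero]
          exact fun h => hzx ((M.ch σ).pt_inj hzU hxU h)
      have hlt' := Finset.card_lt_card (hsub.ssubset_of_ne hne)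
      have := M.card_le _ (M.ty_mem z)
      exact ih (n - (M.ty z).card) (by omega) z (hx.mono hsub) rfl
  have := add_mem hg (Submodule.mem_sup_left he : e ∈ M.W)
  rwa [sub_add_cancel] at this

lemma mem_W_of_boundary {g : X → ℚ} (hf : (Function.support g).Finite)
    (h : ∀ z ∈ M.ch0.U, g z = 0) : g ∈ M.W := by
  classical
  refine mem_of_support _ hf fun z hz => M.single_mem_W z ?_
  by_contra hc
  rw [Finset.not_nonempty_iff_eq_empty] at hc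
  refine hz (h z ((M.memU0 z).2 fun ρ H => ?_))
  have := (M.mem_ty z ρ).2 H
  rw [hc] at this
  exact Finset.notMem_empty _ this

open Classical in
/-- The intersection of two subvarieties. -/
def _root_.Pool.Agent.Lib.MP_2c79a0_ag.Main.inter1 {X : Scheme.{0}} (v w : X) : X → ℚ :=
  fun z => if Comp v w z then (serre v w z : ℚ) else 0

include M in
lemma comp_finite (v w : X) : {z | Comp v w z}.Finite := by
  have : {z | Comp v w z} ⊆ ⋃ σ, {z | z ∈ (M.ch σ).U ∧ Comp v w z} := by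
    intro z hz
    obtain ⟨i, hi⟩ := M.cover z
    exact Set.mem_iUnion.2 ⟨i, hi, hz⟩
  refine (Set.finite_iUnion fun σ => ?_).subset this
  by_cases h : v ∈ (M.ch σ).U ∧ w ∈ (M.ch σ).U
  · have : IsNoetherianRing Γ(X, (M.ch σ).U) := Algebra.FiniteType.isNoetherianRing ℂ _
    have hf := Ideal.finite_minimalPrimes_of_isNoetherianRing _
      (((M.ch σ).pt v h.1).asIdeal ⊔ ((M.ch σ).pt w h.2).asIdeal)
    have hf' := hf.preimage (f := fun P : PrimeSpectrum Γ(X, (M.ch σ).U) => P.asIdeal)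
      (fun _ _ _ _ e => PrimeSpectrum.ext e)
    refine (hf'.image (M.ch σ).fs).subset ?_
    rintro z ⟨hz, hc⟩
    exact ⟨(M.ch σ).pt z hz, ((M.ch σ).comp_iff M.hPt h.1 h.2 hz).1 hc, Ch.fs_pt _ _ _⟩
  · convert Set.finite_empty
    ext z
    simp only [Set.mem_ofPred_eq, Set.mem_empty_iff_false, iff_false, not_and]
    exact fun hz hc => h ⟨(M.ch σ).mem_of_spec hc.1 hz, (M.ch σ).mem_of_spec hc.2.1 hz⟩

include M in
lemma inter1_finite (v w : X) : (Function.support (inter1 v w)).Finite :=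
  (M.comp_finite v w).subset fun _ hz => by_contra fun h => hz (if_neg h)

lemma inter1_mem_W (hP : ProdStmt) {v w : X} (hv : 0 < cod v) (hw : 0 < cod w)
    (hp : ∀ z, Comp v w z → cod z = cod v + cod w) : inter1 v w ∈ M.W := by
  by_cases h : v ∈ M.ch0.U ∧ w ∈ M.ch0.U
  swap
  · refine M.mem_W_of_boundary (M.inter1_finite v w) fun z hz => if_neg fun hc => ?_
    exact h ⟨M.ch0.mem_of_spec hc.1 hz, M.ch0.mem_of_spec hc.2.1 hz⟩
  obtain ⟨hv0, hw0⟩ := h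
  have hne : ∀ x (hx : x ∈ M.ch0.U), 0 < cod x → (M.ch0.pt x hx).asIdeal ≠ ⊥ := by
    intro x hx h0 e
    have h1 := M.ch0.cod_add M.hPt M.hD hx
    have h2 : M.ch0.pt x hx = gen _ := PrimeSpectrum.ext e
    rw [h2, M.ch0.dim] at h1
    omega
  obtain ⟨c, hc, hcv⟩ := hP n _ M.torus _ _ (hne v hv0 hv) (hne w hw0 hw)
  obtain ⟨e, he, h1, -⟩ := M.δ.exists_lift M.hPt M.ch0 _ hc
  have dv' := M.ch0.cod_add M.hPt M.hD hv0
  have dw' := M.ch0.cod_add M.hPt M.hD hw0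
  have hg : inter1 v w - e ∈ M.W := by
    refine M.mem_W_of_boundary (((M.inter1_finite v w).union (M.RX_finite he)).subset
      (Function.support_sub _ _)) fun z hz => ?_
    rw [Pi.sub_apply, h1 z hz, sub_eq_zero]
    have dz := M.ch0.cod_add M.hPt M.hD hz
    by_cases hc' : Comp v w z
    · let := M.ch0.stalkAlg z hz
      have := M.ch0.isLoc z hz
      have h3 := hp z hc'
      rw [(hcv _).2 ((M.ch0.comp_iff M.hPt hv0 hw0 hz).1 hc') (by omega) (X.presheaf.stalk z),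
        inter1, if_pos hc', serre, M.ch0.primeAt_eq M.hPt hv0 hz hc'.1,
        M.ch0.primeAt_eq M.hPt hw0 hz hc'.2.1]
      rfl
    · rw [inter1, if_neg hc']
      by_contra hne'
      obtain ⟨h2, h3, h4⟩ := (hcv _).1 (Ne.symm hne')
      have := (M.ch0.pt z hz).isPrime
      obtain ⟨q, hq, hqz⟩ := Ideal.exists_minimalPrimes_le
        (I := (M.ch0.pt v hv0).asIdeal ⊔ (M.ch0.pt w hw0).asIdeal) (J := (M.ch0.pt z hz).asIdeal)
        (sup_le h2 h3)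
      have hq' := M.ch0.fs_mem ⟨q, hq.1.1⟩
      have hc2 : Comp v w (M.ch0.fs ⟨q, hq.1.1⟩) :=
        (M.ch0.comp_iff M.hPt hv0 hw0 hq').2 (by rw [Ch.pt_fs]; exact hq)
      have h5 := hp _ hc2
      have h6 := M.ch0.cod_add M.hPt M.hD hq'
      rw [Ch.pt_fs] at h6
      have hle : (⟨q, hq.1.1⟩ : PrimeSpectrum _) ≤ M.ch0.pt z hz := hqz
      rcases hle.eq_or_lt with e' | hlt
      · rw [e', Ch.fs_pt] at hc2
        exact hc' hc2
      · have := M.hD.1 _ _ _ hlt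
        omega
  have := add_mem hg (Submodule.mem_sup_left he : e ∈ M.W)
  rwa [sub_add_cancel] at this

end Mod

end Pool.Agent.Lib.MP_2c79a0_ag.Main
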