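import Pool.Agent.Lib.MP_2c79a0_ag.MainB
import Pool.Agent.Lib.MP_2c79a0_ag.Once

/-!
Main argument, part C: transversal strata have intersection multiplicity one.
-/

open AlgebraicGeometry CategoryTheory TopologicalSpace Algebra

set_option linter.unusedSectionVars false

noncomputable section

namespace Pool.Agent.Lib.MP_2c79a0_ag.Main

section Alg

variable {B : Type} [CommRing B] [Algebra ℂ B] [EssFiniteType ℂ B] {ι : Type} [DecidableEq ι]
  (t : ι → B) (σ0 : Finset ι) (hp : ∀ τ ⊆ σ0, (Ideal.span (t '' τ)).IsPrime)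
  (hn : ∀ τ ⊆ σ0, ∀ ρ ∈ σ0, ρ ∉ τ → t ρ ∉ Ideal.span (t '' τ))

omit [Algebra ℂ B] [EssFiniteType ℂ B] in
lemma ofList_map (l : List ι) : Ideal.ofList (l.map t) = Ideal.span (t '' l.toFinset) := by
  unfold Ideal.ofList
  congr 1
  ext x
  simp

include hn in
lemma Gs_single (hD : DimStmt) (hC : CycStmt) (l : List ι) (hl : l.Nodup) (τ τ' : Finset ι)
    (hτ : τ ⊆ σ0) (hτ' : τ' ⊆ σ0) (e : τ' = τ ∪ l.toFinset) (hd : ∀ ρ ∈ l, ρ ∉ τ) :
    Gs (l.map t) (Finsupp.single (⟨_, hp τ hτ⟩ : PrimeSpectrum B) 1) =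
      Finsupp.single (⟨_, hp τ' hτ'⟩ : PrimeSpectrum B) 1 ∧
    dm (⟨_, hp τ hτ⟩ : PrimeSpectrum B) = dm (⟨_, hp τ' hτ'⟩ : PrimeSpectrum B) + l.length := by
  induction l generalizing τ with
  | nil =>
    simp only [List.toFinset_nil, Finset.union_empty] at e
    subst e
    simp [Gs]
  | cons ρ l ih =>
    rw [List.nodup_cons] at hl
    have hρ : ρ ∈ σ0 := hτ' (by simp [e])
    have h1 : insert ρ τ ⊆ σ0 := Finset.insert_subset hρ hτ
    have h2 := hn τ hτ ρ hρ (hd ρ (by simp))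
    have h3 : Ideal.span (t '' τ) ⊔ Ideal.span {t ρ} = Ideal.span (t '' (insert ρ τ : Finset ι)) := by
      simp only [Finset.coe_insert, Set.image_insert_eq, Ideal.span_insert, sup_comm]
    obtain ⟨i1, i2⟩ := ih hl.2 (insert ρ τ) h1 (by rw [e]; ext; simp) (by
      intro x hx
      rw [Finset.mem_insert, not_or]
      exact ⟨fun h => hl.1 (h ▸ hx), hd x (by simp [hx])⟩)
    constructor
    · rw [List.map_cons, Gs, LinearMap.comp_apply, G, Finsupp.linearCombination_single, one_smul,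
        (hC.2.1 B ⟨_, hp τ hτ⟩).2.2.2.2 (t ρ) ⟨_, hp _ h1⟩ h2 h3, i1]
    · have := (hD.2.1 B ⟨_, hp τ hτ⟩ ⟨_, hp _ h1⟩).2 (t ρ) h2 (by
        have := hp _ h1
        simp only [h3]
        rw [Ideal.minimalPrimes_eq_subsingleton_self]; rfl)
      rw [this, i2, List.length_cons, add_assoc]

omit [Algebra ℂ B] [EssFiniteType ℂ B] in
include hp hn in
lemma weaklyRegular (l : List ι) (hl : l.Nodup) (hs : ∀ ρ ∈ l, ρ ∈ σ0) :
    RingTheory.Sequence.IsWeaklyRegular B (l.map t) := by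
  refine ⟨fun i hi => ?_⟩
  rw [List.length_map] at hi
  rw [← List.map_take, ofList_map, List.getElem_map, isSMulRegular_quotient_iff_mem_of_smul_mem]
  have h1 : (l.take i).toFinset ⊆ σ0 := fun x hx =>
    hs x (List.mem_of_mem_take (List.mem_toFinset.1 hx))
  have h2 : l[i] ∉ (l.take i).toFinset := by
    rw [List.mem_toFinset, List.mem_take_iff_getElem]
    rintro ⟨j, hj, e⟩
    have := (hl.getElem_inj_iff).1 e
    omega
  intro x hx
  rw [smul_eq_mul, Ideal.mul_top] at hx ⊢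
  exact ((hp _ h1).mem_or_mem hx).resolve_left (hn _ h1 _ (hs _ (List.getElem_mem _)) h2)

include hp hn in
lemma serreRing_eq_one [IsLocalRing B] (hD : DimStmt) (hC : CycStmt) (hS : SerreStmt)
    (hm : Ideal.span (t '' σ0) = IsLocalRing.maximalIdeal B) (σ τ : Finset ι)
    (hd : Disjoint σ τ) (e : σ ∪ τ = σ0) :
    serreRing B (Ideal.span (t '' σ)) (Ideal.span (t '' τ)) = 1 := by
  have : IsNoetherianRing B := Algebra.EssFiniteType.isNoetherianRing ℂ B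
  have hσ : σ ⊆ σ0 := e ▸ Finset.subset_union_left
  have hτ : τ ⊆ σ0 := e ▸ Finset.subset_union_right
  have h0 : Ideal.ofList (σ.toList.map t) = Ideal.span (t '' σ) := by
    rw [ofList_map, Finset.toList_toFinset]
  have hcl : IsLocalRing.closedPoint B = ⟨_, hp σ0 le_rfl⟩ := PrimeSpectrum.ext hm.symm
  obtain ⟨g1, g2⟩ := Gs_single t σ0 hp hn hD hC σ.toList σ.nodup_toList τ σ0 hτ le_rfl
    (by rw [Finset.toList_toFinset, Finset.union_comm, e])
    (fun ρ hρ => Finset.disjoint_left.1 hd (Finset.mem_toList.1 hρ))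
  have key := hS B B (σ.toList.map t) (Ideal.span (t '' σ)) (Ideal.span (t '' τ))
    (weaklyRegular t σ0 hp hn _ σ.nodup_toList fun ρ hρ => hσ (Finset.mem_toList.1 hρ))
    Ideal.Quotient.mk_surjective (by rw [h0]; rfl) (by
      intro P h1 h2
      rw [Algebra.algebraMap_self, Ideal.map_id] at h1
      rw [h0] at h2
      apply PrimeSpectrum.ext
      have h3 : IsLocalRing.maximalIdeal B ≤ P.asIdeal := by
        rw [← hm, ← e, Finset.coe_union, Set.image_union, Ideal.span_union]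
        exact sup_le h2 h1
      exact ((IsLocalRing.maximalIdeal.isMaximal B).eq_of_le P.isPrime.ne_top h3).symm)
  have h4 : cyc (dm (IsLocalRing.closedPoint B) + (σ.toList.map t).length)
      (B ⧸ (Ideal.span (t '' τ)).map (algebraMap B B)) =
      Finsupp.single (⟨_, hp τ hτ⟩ : PrimeSpectrum B) (1 : ℚ) := by
    rw [← (hC.1 B).2.2.2.2.2.1 ⟨_, hp τ hτ⟩, g2, hcl, List.length_map]
    exact (hC.1 B).2.2.2.1 _ _ _ (Submodule.quotEquivOfEq _ _ (by
      rw [Algebra.algebraMap_self, Ideal.map_id]))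
  rw [h4, g1, hcl, Finsupp.single_eq_same] at key
  exact_mod_cast key

end Alg

namespace Mod

variable {n N : ℕ} {K : Set (Cone N)} {X : Scheme.{0}} (M : Mod n K X)

lemma comp_v_iff {σ τ : Cone N} (hσ : σ ∈ K) (hτ : τ ∈ K) (z : X) :
    Comp (M.v σ) (M.v τ) z ↔ σ ∪ τ ∈ K ∧ z = M.v (σ ∪ τ) := by
  constructor
  · rintro ⟨h1, h2, h3⟩
    rw [M.v_spec_iff hσ] at h1
    rw [M.v_spec_iff hτ] at h2
    have h4 : ∀ ρ ∈ σ ∪ τ, z ∈ M.D ρ := fun ρ hρ => (Finset.mem_union.1 hρ).elim (h1 ρ) (h2 ρ)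
    have h5 := M.cone_of_D h4
    refine ⟨h5, (h3 _ ?_ ?_ ((M.v_spec_iff h5 z).2 h4)).symm⟩
    · exact (M.v_spec_iff hσ _).2 fun ρ hρ => (M.v_mem_D h5 ρ).2 (Finset.mem_union_left _ hρ)
    · exact (M.v_spec_iff hτ _).2 fun ρ hρ => (M.v_mem_D h5 ρ).2 (Finset.mem_union_right _ hρ)
  · rintro ⟨h5, rfl⟩
    refine ⟨(M.v_spec_iff hσ _).2 fun ρ hρ => (M.v_mem_D h5 ρ).2 (Finset.mem_union_left _ hρ),
      (M.v_spec_iff hτ _).2 fun ρ hρ => (M.v_mem_D h5 ρ).2 (Finset.mem_union_right _ hρ),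
      fun y h1 h2 h3 => ?_⟩
    rw [M.v_spec_iff hσ] at h1
    rw [M.v_spec_iff hτ] at h2
    exact (h3.antisymm ((M.v_spec_iff h5 y).2 fun ρ hρ =>
      (Finset.mem_union.1 hρ).elim (h1 ρ) (h2 ρ))).eq

lemma serre_v (hS : SerreStmt) {σ τ : Cone N} (h : σ ∪ τ ∈ K) (hd : Disjoint σ τ)
    (hc : (σ ∪ τ).card = n) : serre (M.v σ) (M.v τ) (M.v (σ ∪ τ)) = 1 := by
  let s : MaxC n K := ⟨σ ∪ τ, h, hc⟩
  have hσ := M.down _ h σ Finset.subset_union_left
  have hτ := M.down _ h τ Finset.subset_union_right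
  have hz : M.v (σ ∪ τ) ∈ (M.ch s).U := (M.v_mem_U h s).2 le_rfl
  have hvσ : M.v σ ∈ (M.ch s).U := (M.v_mem_U hσ s).2 Finset.subset_union_left
  have hvτ : M.v τ ∈ (M.ch s).U := (M.v_mem_U hτ s).2 Finset.subset_union_right
  have hcomp := (M.comp_v_iff hσ hτ _).2 ⟨h, rfl⟩
  let := (M.ch s).stalkAlg _ hz
  have hloc := (M.ch s).isLoc _ hz
  rw [M.pt_v s le_rfl] at hloc
  let : Algebra ℂ (X.presheaf.stalk (M.v (σ ∪ τ))) :=
    ((algebraMap Γ(X, (M.ch s).U) _).comp (algebraMap ℂ _)).toAlgebra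
  have : IsScalarTower ℂ Γ(X, (M.ch s).U) (X.presheaf.stalk (M.v (σ ∪ τ))) :=
    IsScalarTower.of_algebraMap_eq fun _ => rfl
  have : EssFiniteType Γ(X, (M.ch s).U) (X.presheaf.stalk (M.v (σ ∪ τ))) :=
    EssFiniteType.of_isLocalization _ (M.pp s (σ ∪ τ) le_rfl).asIdeal.primeCompl
  have : EssFiniteType ℂ (X.presheaf.stalk (M.v (σ ∪ τ))) :=
    EssFiniteType.comp ℂ Γ(X, (M.ch s).U) _
  have hmap : ∀ τ' : Cone N, (Ideal.span (M.t s '' τ')).map
      (algebraMap Γ(X, (M.ch s).U) (X.presheaf.stalk (M.v (σ ∪ τ)))) =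
      Ideal.span ((fun ρ => algebraMap _ _ (M.t s ρ)) '' τ') := fun τ' => by
    rw [Ideal.map_span, Set.image_image]
  have hdisj : ∀ τ' (h' : τ' ⊆ σ ∪ τ), Disjoint
      ((M.pp s (σ ∪ τ) le_rfl).asIdeal.primeCompl : Set Γ(X, (M.ch s).U))
      (Ideal.span (M.t s '' τ') : Set Γ(X, (M.ch s).U)) := fun τ' h' => by
    rw [Set.disjoint_left]
    exact fun a ha hb => ha (Ideal.span_mono (Set.image_mono (by exact_mod_cast h')) hb)
  rw [serre, (M.ch s).primeAt_eq M.hPt hvσ hz hcomp.1, (M.ch s).primeAt_eq M.hPt hvτ hz hcomp.2.1,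
    M.pt_v s Finset.subset_union_left, M.pt_v s Finset.subset_union_right]
  change serreRing _ ((Ideal.span (M.t s '' σ)).map (algebraMap _ _))
    ((Ideal.span (M.t s '' τ)).map (algebraMap _ _)) = 1
  rw [hmap, hmap]
  refine serreRing_eq_one _ (σ ∪ τ) (fun τ' h' => ?_) (fun τ' h' ρ hρ hρ' => ?_) M.hD M.hC hS ?_
    σ τ hd rfl
  · rw [← hmap]
    exact IsLocalization.isPrime_of_isPrime_disjoint _ _ _ ((M.chart s).prime τ' h') (hdisj τ' h')
  · rw [← hmap, ← Ideal.mem_under, IsLocalization.under_map_of_isPrime_disjoint _ _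
      ((M.chart s).prime τ' h') (hdisj τ' h')]
    exact (M.chart s).notMem τ' h' ρ hρ hρ'
  · rw [← hmap]
    exact IsLocalization.AtPrime.map_eq_maximalIdeal (M.pp s (σ ∪ τ) le_rfl).asIdeal _

open Classical in
lemma inter1_v (hS : SerreStmt) {σ τ : Cone N} (hσ : σ ∈ K) (hτ : τ ∈ K)
    (hd : Disjoint σ τ ∨ σ ∪ τ ∉ K) (hc : σ.card + τ.card = n) :
    inter1 (M.v σ) (M.v τ) = if σ ∪ τ ∈ K then Pi.single (M.v (σ ∪ τ)) 1 else 0 := by
  ext z
  rw [inter1, M.comp_v_iff hσ hτ]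
  by_cases h : σ ∪ τ ∈ K
  · have hd' := hd.resolve_right (not_not.2 h)
    rw [if_pos h]
    by_cases hz : z = M.v (σ ∪ τ)
    · subst hz
      rw [if_pos ⟨h, rfl⟩, M.serre_v hS h hd' (by rw [Finset.card_union_of_disjoint hd', hc])]
      simp
    · rw [if_neg fun H => hz H.2, Pi.single_eq_of_ne hz]
  · rw [if_neg h, if_neg fun H => h H.1]; rfl

end Mod

end Pool.Agent.Lib.MP_2c79a0_ag.Main
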