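import Pool.Agent.Lib.MP_2c79a0_ag.MainC

/-!
Main argument, part D: divisors of characters on strata.
-/

open AlgebraicGeometry CategoryTheory TopologicalSpace Algebra

set_option linter.unusedSectionVars false

noncomputable section

namespace Pool.Agent.Lib.MP_2c79a0_ag.Main

open Classical in
/-- An element as a unit (`1` if it is not a unit). -/
def toU {O : Type} [CommRing O] (a : O) : Oˣ := if h : IsUnit a then h.unit else 1

lemma coe_toU {O : Type} [CommRing O] {a : O} (h : IsUnit a) : (toU a : O) = a := by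
  simp [toU, h]

/-- The divisor map as a homomorphism on units. -/
def DX.hom {X : Scheme.{0}} (δ : DX X) (x : X) : (X.residueField x)ˣ →* Multiplicative (X → ℚ) :=
  MonoidHom.mk' (fun θ => Multiplicative.ofAdd (δ.d x θ)) fun a b => by
    rw [Units.val_mul, δ.mul x _ _ a.ne_zero b.ne_zero, ofAdd_add]

lemma prod_zpow_sum {F ι : Type} [Field F] {g : F} (hg : g ≠ 0) (s : Finset ι) (m : ι → ℤ) :
    ∏ i ∈ s, g ^ m i = g ^ ∑ i ∈ s, m i := by
  classical
  induction s using Finset.induction_on with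
  | empty => simp
  | insert a s ha ih => rw [Finset.prod_insert ha, Finset.sum_insert ha, ih, zpow_add₀ hg]

lemma prod_zpow_aux {F : Type} [Field F] {N : ℕ} (σ τ : Cone N) (hτ : τ ⊆ σ) (m : Fin N → ℤ)
    (hm : ∑ i, m i = 0) (hmτ : ∀ ρ ∈ τ, pr m ρ = 0) (g : F) (hg : g ≠ 0) (u : Fin N → F)
    (t : Ray N → F) (ht : ∀ ρ ∈ σ, t ρ ≠ 0) :
    ∏ i, (g * (u i * ∏ ρ ∈ σ.filter (i ∈ ·), t ρ ^ ee ρ)) ^ m i =
      (∏ i, u i ^ m i) * ∏ ρ ∈ σ \ τ, t ρ ^ ((ee ρ : ℤ) * pr m ρ) := by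
  simp only [mul_zpow, Finset.prod_mul_distrib]
  have h1 : ∏ i, g ^ m i = 1 := by
    rw [prod_zpow_sum hg, hm, zpow_zero]
  rw [h1, one_mul]
  congr 1
  have h2 : ∀ i, (∏ ρ ∈ σ.filter (i ∈ ·), t ρ ^ ee ρ) ^ m i =
      ∏ ρ ∈ σ, if i ∈ ρ then t ρ ^ ((ee ρ : ℤ) * m i) else 1 := fun i => by
    rw [← Finset.prod_zpow, Finset.prod_filter]
    refine Finset.prod_congr rfl fun ρ _ => ?_
    rw [zpow_mul, zpow_natCast]
  simp only [h2]
  rw [Finset.prod_comm, ← Finset.prod_sdiff hτ]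
  have h3 : ∀ ρ ∈ σ, (∏ i, if i ∈ ρ then t ρ ^ ((ee ρ : ℤ) * m i) else 1) =
      t ρ ^ ((ee ρ : ℤ) * pr m ρ) := fun ρ hρ => by
    rw [← Finset.prod_filter, prod_zpow_sum (ht ρ hρ), pr, Finset.mul_sum]
    congr 2
    ext i; simp
  rw [Finset.prod_congr rfl fun ρ hρ => h3 ρ (Finset.mem_sdiff.1 hρ).1,
    Finset.prod_congr rfl fun ρ hρ => h3 ρ (hτ hρ),
    Finset.prod_eq_one (s := τ) fun ρ hρ => by rw [hmτ ρ hρ, mul_zero, zpow_zero], mul_one]

namespace Mod

variable {n N : ℕ} {K : Set (Cone N)} {X : Scheme.{0}} (M : Mod n K X)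

/-- The unit parts of the characters. -/
def uu (σ : MaxC n K) : Fin N → Γ(X, (M.ch σ).U) := (M.chars σ).choose_spec.choose

lemma uu_unit (σ : MaxC n K) (i : Fin N) : IsUnit (M.uu σ i) :=
  ((M.chars σ).choose_spec.choose_spec.2 i).1

/-- The character `m` as a unit of the local ring at a point of type `τ`. -/
def Th (σ : MaxC n K) (τ : Cone N) (m : Fin N → ℤ) (x : X) (hx : x ∈ (M.ch σ).U) :
    (X.presheaf.stalk x)ˣ :=
  (∏ i, toU (X.presheaf.germ _ x hx (M.uu σ i)) ^ m i) *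
    ∏ ρ ∈ σ.1 \ τ, toU (X.presheaf.germ _ x hx (M.t σ ρ)) ^ ((ee ρ : ℤ) * pr m ρ)

lemma germ_t_unit (σ : MaxC n K) {ρ : Ray N} {x : X} (hx : x ∈ (M.ch σ).U) (h : x ∉ M.D ρ) :
    IsUnit (X.presheaf.germ _ x hx (M.t σ ρ)) := by
  rw [M.memD σ ρ x hx, not_not] at h
  exact (X.mem_basicOpen _ x hx).1 h

lemma Th_eq {τ : Cone N} {m : Fin N → ℤ} (hm : ∑ i, m i = 0) (hmτ : ∀ ρ ∈ τ, pr m ρ = 0)
    {x : X} (hxτ : ∀ ρ, x ∈ M.D ρ → ρ ∈ τ) (σ σ' : MaxC n K) (h : τ ⊆ σ.1) (h' : τ ⊆ σ'.1)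
    (hx : x ∈ (M.ch σ).U) (hx' : x ∈ (M.ch σ').U) : M.Th σ τ m x hx = M.Th σ' τ m x hx' := by
  have := M.integral
  have hne : Nonempty M.ch0.U := ⟨⟨_, M.ch0.fs_mem (gen _)⟩⟩
  have key : ∀ (σ : MaxC n K) (h : τ ⊆ σ.1) (hx : x ∈ (M.ch σ).U),
      algebraMap _ X.functionField (M.Th σ τ m x hx : X.presheaf.stalk x) =
        ∏ i, X.germToFunctionField _ (M.χ i) ^ m i := by
    intro σ h hx
    have : Nonempty (M.ch σ).U := ⟨⟨x, hx⟩⟩
    obtain ⟨hg, hu⟩ := (M.chars σ).choose_spec.choose_spec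
    have hres : ∀ a : Γ(X, (M.ch σ).U), X.germToFunctionField _
        (X.presheaf.map (homOfLE (M.le σ)).op a) = X.germToFunctionField _ a := fun a =>
      X.presheaf.germ_res_apply (homOfLE (M.le σ)) _ _ a
    have h1 : ∀ i, X.germToFunctionField _ (M.χ i) = X.germToFunctionField _ (M.chars σ).choose *
        (X.germToFunctionField _ (M.uu σ i) *
          ∏ ρ ∈ σ.1.filter (i ∈ ·), X.germToFunctionField _ (M.t σ ρ) ^ ee ρ) := fun i => by
      rw [(hu i).2, map_mul, hres, map_mul, map_prod]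
      simp only [map_pow]
      rfl
    simp only [h1]
    rw [prod_zpow_aux σ.1 τ h m hm hmτ _ (hg.map _).ne_zero _ _ fun ρ hρ H =>
      (M.chart σ).notMem ∅ (Finset.empty_subset _) ρ hρ (Finset.notMem_empty _) (by
        rw [X.germToFunctionField_injective _ (H.trans (map_zero _).symm)]; exact zero_mem _)]
    change ((Units.map (algebraMap (X.presheaf.stalk x) X.functionField).toMonoidHom
      (M.Th σ τ m x hx) : X.functionFieldˣ) : X.functionField) = _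
    have hc : ∀ a : (X.presheaf.stalk x)ˣ,
        ((Units.map (algebraMap (X.presheaf.stalk x) X.functionField).toMonoidHom a :
          X.functionFieldˣ) : X.functionField) = algebraMap _ _ (a : X.presheaf.stalk x) :=
      fun _ => rfl
    simp only [Th, map_mul, map_prod, map_zpow, Units.val_mul, Units.coe_prod,
      Units.val_zpow_eq_zpow_val]
    congr 1
    · refine Finset.prod_congr rfl fun i _ => ?_
      rw [hc, coe_toU ((M.uu_unit σ i).map _),
        Scheme.algebraMap_germ_eq_germToFunctionField]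
    · refine Finset.prod_congr rfl fun ρ hρ => ?_
      rw [hc, coe_toU (M.germ_t_unit σ hx fun H =>
        (Finset.mem_sdiff.1 hρ).2 (hxτ ρ H)), Scheme.algebraMap_germ_eq_germToFunctionField]
  apply Units.ext
  apply IsFractionRing.injective (X.presheaf.stalk x) X.functionField
  rw [key σ h hx, key σ' h' hx']

open Classical in
/-- The cycle on `X` of a combination of cones. -/
def xi : (Cone N →₀ ℚ) →ₗ[ℚ] (X → ℚ) :=
  Finsupp.linearCombination ℚ fun σ => Pi.single (M.v σ) (1 : ℚ)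

lemma d_Th (σ : MaxC n K) {τ : Cone N} (hτ : τ ∈ K) (h : τ ⊆ σ.1) (m : Fin N → ℤ)
    (hx : M.v τ ∈ (M.ch σ).U) {z : X} (hz : z ∈ (M.ch σ).U) :
    M.δ.d (M.v τ) (Units.map (X.residue _).hom.toMonoidHom (M.Th σ τ m _ hx) : (X.residueField _)ˣ)
      z = M.xi (rel K τ m) z := by
  classical
  have hev : ∀ r : Γ(X, (M.ch σ).U), r ∉ (M.pp σ τ h).asIdeal →
      IsUnit (X.presheaf.germ _ _ hx r) →
      Multiplicative.toAdd (M.δ.hom _ (Units.map (X.residue _).hom.toMonoidHom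
        (toU (X.presheaf.germ _ _ hx r)))) z = dv (M.pp σ τ h) r ((M.ch σ).pt z hz) := by
    intro r hr hu
    rw [← M.pt_v σ h hx] at hr ⊢
    refine Eq.trans ?_ (M.δ.chart _ (M.ch σ).aff _ z hx hz r hr)
    change M.δ.d _ ((X.residue (M.v τ)).hom
      (Units.val (toU (X.presheaf.germ _ _ hx r)))) z = _
    rw [coe_toU hu]
    rfl
  change Multiplicative.toAdd (M.δ.hom _ _) z = _
  simp only [Th, map_mul, map_prod, map_zpow, toAdd_mul, toAdd_prod, toAdd_zpow, Pi.add_apply,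
    Finset.sum_apply, Pi.smul_apply]
  have h1 : ∀ i, dv (M.pp σ τ h) (M.uu σ i) ((M.ch σ).pt z hz) = 0 := fun i => by
    by_contra H
    exact ((M.ch σ).pt z hz).isPrime.ne_top (Ideal.eq_top_of_isUnit_mem _
      ((M.hC.2.1 _ _).1 _ _ H).2.1 (M.uu_unit σ i))
  rw [Finset.sum_eq_zero fun i _ => by
    rw [hev _ (fun H => (M.pp σ τ h).isPrime.ne_top (Ideal.eq_top_of_isUnit_mem _ H
      (M.uu_unit σ i))) ((M.uu_unit σ i).map _), h1, smul_zero], zero_add]
  rw [rel, map_sum, Finset.sum_apply, ← Finset.sum_subset (Finset.subset_univ (σ.1 \ τ))]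
  · refine Finset.sum_congr rfl fun ρ hρ => ?_
    obtain ⟨hρ1, hρ2⟩ := Finset.mem_sdiff.1 hρ
    have hi : insert ρ τ ⊆ σ.1 := Finset.insert_subset hρ1 h
    have hn : M.t σ ρ ∉ (M.pp σ τ h).asIdeal := by rwa [M.t_mem_pp]
    rw [hev _ hn (M.germ_t_unit σ hx fun H => hρ2 ((M.v_mem_D hτ ρ).1 H)),
      if_pos ⟨hρ2, M.down _ σ.2.1 _ hi⟩, xi, Finsupp.linearCombination_single,
      (M.hC.2.1 _ _).2.2.2.2 _ (M.pp σ _ hi) hn (M.pp_insert σ hi), Pi.smul_apply,
      M.v_eq σ hi]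
    by_cases e : z = (M.ch σ).fs (M.pp σ _ hi)
    · subst e
      simp
    · rw [Pi.single_eq_of_ne e, Finsupp.single_eq_of_ne, smul_zero, smul_zero]
      exact fun H => e (by rw [← H, Ch.fs_pt])
  · intro ρ _ hρ
    split_ifs with H
    · rw [xi, Finsupp.linearCombination_single, Pi.smul_apply, Pi.single_eq_of_ne, smul_zero]
      rintro rfl
      exact hρ (Finset.mem_sdiff.2 ⟨(M.v_mem_U H.2 σ).1 hz (Finset.mem_insert_self _ _), H.1⟩)
    · simp

lemma xi_rel_mem {τ : Cone N} (hτ : τ ∈ K) {m : Fin N → ℤ} (hm : ∑ i, m i = 0)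
    (hmτ : ∀ ρ ∈ τ, pr m ρ = 0) : M.xi (rel K τ m) ∈ M.δ.RX := by
  classical
  have hx := (M.v_mem_U hτ _).2 (M.subset_mx hτ)
  refine Submodule.subset_span ⟨M.v τ, (Units.map (X.residue _).hom.toMonoidHom
    (M.Th _ τ m _ hx) : (X.residueField _)ˣ), Units.ne_zero _, ?_⟩
  ext z
  obtain ⟨σ, hz⟩ := M.cover z
  by_cases h : τ ⊆ σ.1
  · have hx' := (M.v_mem_U hτ _).2 h
    rw [M.Th_eq hm hmτ (fun ρ => (M.v_mem_D hτ ρ).1) _ σ (M.subset_mx hτ) h hx hx',
      M.d_Th σ hτ h m hx' hz]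
  · have h1 : ∀ θ, M.δ.d (M.v τ) θ z = 0 := fun θ => by_contra fun H =>
      h ((M.v_mem_U hτ σ).1 ((M.ch σ).mem_of_spec (M.δ.supp _ _ _ H) hz))
    rw [h1, rel, map_sum, Finset.sum_apply]
    refine Finset.sum_eq_zero fun ρ _ => ?_
    split_ifs with H
    · rw [xi, Finsupp.linearCombination_single, Pi.smul_apply, Pi.single_eq_of_ne, smul_zero]
      rintro rfl
      exact h ((Finset.subset_insert _ _).trans ((M.v_mem_U H.2 σ).1 hz))
    · simp

lemma xi_Rel_mem {c : Cone N →₀ ℚ} (hc : c ∈ Rel K) : M.xi c ∈ M.δ.RX := by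
  induction hc using Submodule.span_induction with
  | mem c h =>
    obtain ⟨τ, hτ, m, hm, hmτ, rfl⟩ := h
    exact M.xi_rel_mem hτ hm hmτ
  | zero => rw [map_zero]; exact zero_mem _
  | add a b _ _ ha hb => rw [map_add]; exact add_mem ha hb
  | smul r a _ ha => rw [map_smul]; exact Submodule.smul_mem _ r ha

end Mod

end Pool.Agent.Lib.MP_2c79a0_ag.Main
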