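import Pool.Agent.Lib.MP_2c79a0_ag.MainD

/-!
Main argument, part E: conclusion from the interface statements.
-/

open AlgebraicGeometry CategoryTheory TopologicalSpace Algebra

set_option linter.unusedSectionVars false

noncomputable section

namespace Pool.Agent.Lib.MP_2c79a0_ag.Main

lemma inter_eq_sum {X : Scheme.{0}} (a b : X → ℚ) (s t : Finset X) (hs : ∀ v, a v ≠ 0 → v ∈ s)
    (ht : ∀ w, b w ≠ 0 → w ∈ t) :
    inter a b = ∑ v ∈ s, ∑ w ∈ t, (a v * b w) • inter1 v w := by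
  classical
  ext z
  have h1 : ∀ v, (∑ᶠ w, if Comp v w z then a v * b w * (serre v w z : ℚ) else 0) =
      ∑ w ∈ t, a v * b w * inter1 v w z := fun v => by
    rw [finsum_eq_sum_of_support_subset (s := t)]
    · refine Finset.sum_congr rfl fun w _ => ?_
      unfold inter1
      split_ifs <;> simp
    · intro w hw
      refine ht w fun h => hw ?_
      simp [h]
  simp only [inter, Finset.sum_apply, Pi.smul_apply, smul_eq_mul]
  rw [finsum_congr h1, finsum_eq_sum_of_support_subset (s := s)]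
  intro v hv
  refine hs v fun h => hv ?_
  simp [h]

namespace Mod

variable {n N : ℕ} {K : Set (Cone N)} {X : Scheme.{0}} (M : Mod n K X)

include M in
lemma cod_eq {x : X} {k : ℕ} (h : Order.coheight x = k) : cod x = k := by
  rw [M.coheight_eq] at h
  exact_mod_cast h

include M in
lemma proper_cod {a b : X → ℚ} (hp : Proper a b) {v w z : X} (hv : a v ≠ 0) (hw : b w ≠ 0)
    (h : Comp v w z) : cod z = cod v + cod w := by
  have := hp v w z hv hw h
  rw [M.coheight_eq, M.coheight_eq, M.coheight_eq] at this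
  exact_mod_cast this

lemma inter_mem (hP : ProdStmt) {i j : ℕ} (hi : 0 < i) (hj : 0 < j) {a b : X → ℚ}
    (ha : IsCycle X i a) (hb : IsCycle X j b) (hp : Proper a b) :
    inter a b ∈ M.W ∧ ∀ z, inter a b z ≠ 0 → cod z = i + j := by
  rw [inter_eq_sum a b ha.1.toFinset hb.1.toFinset (by simp) (by simp)]
  constructor
  · refine Submodule.sum_mem _ fun v hv => Submodule.sum_mem _ fun w hw =>
      Submodule.smul_mem _ _ ?_
    have hv' : a v ≠ 0 := by simpa using hv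
    have hw' : b w ≠ 0 := by simpa using hw
    exact M.inter1_mem_W hP (by rwa [M.cod_eq (ha.2 v hv')]) (by rwa [M.cod_eq (hb.2 w hw')])
      fun z hz => M.proper_cod hp hv' hw' hz
  · intro z hz
    rw [Finset.sum_apply] at hz
    obtain ⟨v, hv, hz⟩ := Finset.exists_ne_zero_of_sum_ne_zero hz
    rw [Finset.sum_apply] at hz
    obtain ⟨w, hw, hz⟩ := Finset.exists_ne_zero_of_sum_ne_zero hz
    have hv' : a v ≠ 0 := by simpa using hv
    have hw' : b w ≠ 0 := by simpa using hw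
    have hc : Comp v w z := by_contra fun h => hz (by simp [inter1, h])
    rw [M.proper_cod hp hv' hw' hc, M.cod_eq (ha.2 v hv'), M.cod_eq (hb.2 w hw')]

lemma xi_ne {c : Cone N →₀ ℚ} {x : X} (h : M.xi c x ≠ 0) : ∃ σ, c σ ≠ 0 ∧ x = M.v σ := by
  classical
  rw [xi, Finsupp.linearCombination_apply, Finsupp.sum, Finset.sum_apply] at h
  obtain ⟨σ, hσ, h⟩ := Finset.exists_ne_zero_of_sum_ne_zero h
  refine ⟨σ, Finsupp.mem_support_iff.1 hσ, by_contra fun e => h ?_⟩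
  rw [Pi.smul_apply, Pi.single_eq_of_ne e, smul_zero]

lemma xi_v {c : Cone N →₀ ℚ} (hc : ∀ σ, c σ ≠ 0 → σ ∈ K) {σ : Cone N} (hσ : σ ∈ K) :
    M.xi c (M.v σ) = c σ := by
  classical
  rw [xi, Finsupp.linearCombination_apply, Finsupp.sum, Finset.sum_apply, Finset.sum_eq_single σ]
  · simp
  · intro τ hτ hne
    rw [Pi.smul_apply, Pi.single_eq_of_ne, smul_zero]
    exact fun e => hne (M.v_inj hσ (hc τ (Finsupp.mem_support_iff.1 hτ)) e).symm
  · intro h
    simp [Finsupp.notMem_support_iff.1 h]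

lemma xi_cod {c : Cone N →₀ ℚ} {k : ℕ} (hc : ∀ σ, c σ ≠ 0 → σ ∈ K ∧ σ.card = k) (x : X)
    (h : M.xi c x ≠ 0) : cod x = k := by
  obtain ⟨σ, hσ, rfl⟩ := M.xi_ne h
  rw [M.cod_v (hc σ hσ).1, (hc σ hσ).2]

lemma xi_cycle {c : Cone N →₀ ℚ} {k : ℕ} (hc : ∀ σ, c σ ≠ 0 → σ ∈ K ∧ σ.card = k) :
    IsCycle X k (M.xi c) := by
  refine ⟨(c.support.finite_toSet.image M.v).subset fun x hx => ?_, fun x hx => ?_⟩
  · obtain ⟨σ, hσ, rfl⟩ := M.xi_ne hx
    exact ⟨σ, Finsupp.mem_support_iff.2 hσ, rfl⟩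
  · rw [M.coheight_eq, M.xi_cod hc x hx]

lemma xi_Rat {c : Cone N →₀ ℚ} {k : ℕ} (hc : ∀ σ, c σ ≠ 0 → σ ∈ K ∧ σ.card = k)
    (h : c ∈ Rel K) : M.xi c ∈ Rat X k := by
  have := M.part_mem (M.xi_Rel_mem h) k
  rwa [DX.part_eq_self (M.xi_cod hc)] at this

lemma exists_xi {g : X → ℚ} (hg : g ∈ M.W) {k : ℕ} (hk : ∀ z, g z ≠ 0 → cod z = k) :
    ∃ c : Cone N →₀ ℚ, (∀ σ, c σ ≠ 0 → σ ∈ K ∧ σ.card = k) ∧ g - M.xi c ∈ Rat X k := by
  classical
  obtain ⟨e, he, s, hs, rfl⟩ := Submodule.mem_sup.1 hg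
  have key : ∃ c : Cone N →₀ ℚ, (∀ σ, c σ ≠ 0 → σ ∈ K ∧ σ.card = k) ∧
      DX.part X k s = M.xi c := by
    clear hk hg
    induction hs using Submodule.span_induction with
    | mem s h =>
      obtain ⟨τ, hτ, rfl⟩ := h
      by_cases hc : τ.card = k
      · refine ⟨Finsupp.single τ 1, fun σ hσ => ?_, ?_⟩
        · rw [Finsupp.single_apply_ne_zero] at hσ
          rw [hσ.1]; exact ⟨hτ, hc⟩
        · rw [xi, Finsupp.linearCombination_single, one_smul]
          refine DX.part_eq_self fun z hz => ?_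
          have : z = M.v τ := by_contra fun e => hz (Pi.single_eq_of_ne e _)
          rw [this, M.cod_v hτ, hc]
      · refine ⟨0, fun σ hσ => (hσ rfl).elim, ?_⟩
        ext z
        by_cases e : z = M.v τ
        · subst e; simp [DX.part, M.cod_v hτ, hc]
        · simp [DX.part, e]
    | zero => exact ⟨0, fun σ hσ => (hσ rfl).elim, by simp⟩
    | add a b _ _ ha hb =>
      obtain ⟨c, h1, h2⟩ := ha
      obtain ⟨c', h1', h2'⟩ := hb
      refine ⟨c + c', fun σ hσ => ?_, by rw [map_add, map_add, h2, h2']⟩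
      by_cases h : c σ = 0
      · exact h1' σ (by simpa [h] using hσ)
      · exact h1 σ h
    | smul r a _ ha =>
      obtain ⟨c, h1, h2⟩ := ha
      exact ⟨r • c, fun σ hσ => h1 σ fun h => hσ (by simp [h]), by rw [map_smul, map_smul, h2]⟩
  obtain ⟨c, h1, h2⟩ := key
  refine ⟨c, h1, ?_⟩
  rw [← DX.part_eq_self hk, map_add, h2, add_sub_cancel_right]
  exact M.part_mem he k

open Classical in
lemma degree (hS : SerreStmt) {k l : ℕ} (hkl : k + l = n) {τ : Cone N} (hτ : τ ∈ K)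
    (hl : τ.card = l) {c : Cone N →₀ ℚ}
    (hc : ∀ σ, c σ ≠ 0 → σ ∈ K ∧ σ.card = k ∧ (Disjoint σ τ ∨ σ ∪ τ ∉ K)) :
    Proper (M.xi c) (Pi.single (M.v τ) 1) ∧
    ∑ᶠ z, inter (M.xi c) (Pi.single (M.v τ) 1) z = c.sum fun σ a => if σ ∪ τ ∈ K then a else 0 := by
  have hδ : ∀ w, (Pi.single (M.v τ) (1 : ℚ) : X → ℚ) w ≠ 0 → w = M.v τ := fun w hw =>
    by_contra fun e => hw (Pi.single_eq_of_ne e _)
  constructor
  · intro v w z hv hw h
    obtain ⟨σ, hσ, rfl⟩ := M.xi_ne hv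
    rw [hδ w hw] at h ⊢
    obtain ⟨h1, h2, h3⟩ := hc σ hσ
    obtain ⟨h4, rfl⟩ := (M.comp_v_iff h1 hτ z).1 h
    rw [M.coheight_eq, M.coheight_eq, M.coheight_eq, M.cod_v h4, M.cod_v h1, M.cod_v hτ,
      Finset.card_union_of_disjoint (h3.resolve_right (not_not.2 h4)), Nat.cast_add]
  · rw [inter_eq_sum _ _ (c.support.image M.v) {M.v τ} (fun v hv => by
      obtain ⟨σ, hσ, rfl⟩ := M.xi_ne hv
      exact Finset.mem_image_of_mem _ (Finsupp.mem_support_iff.2 hσ))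
      (fun w hw => Finset.mem_singleton.2 (hδ w hw)),
      Finset.sum_image fun σ hσ σ' hσ' e => M.v_inj (hc σ (Finsupp.mem_support_iff.1 hσ)).1
        (hc σ' (Finsupp.mem_support_iff.1 hσ')).1 e]
    simp only [Finset.sum_singleton, Pi.single_eq_same, mul_one, Finset.sum_apply]
    rw [finsum_sum_comm _ _ fun σ _ => (M.inter1_finite _ _).subset
      (Function.support_const_smul_subset _ _), Finsupp.sum]
    refine Finset.sum_congr rfl fun σ hσ => ?_
    obtain ⟨h1, h2, h3⟩ := hc σ (Finsupp.mem_support_iff.1 hσ)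
    rw [M.xi_v (fun σ hσ => (hc σ hσ).1) h1, M.inter1_v hS h1 hτ h3 (by omega)]
    split_ifs with h
    · rw [finsum_eq_single _ (M.v (σ ∪ τ)) fun x hx => by simp [hx]]
      simp
    · simp

include M in
theorem main (hP : ProdStmt) (hS : SerreStmt) (hF : FanMainStmt) (hn : 2 ≤ n) (hN : n < N)
    (hK : FanTower n N K (Finset.powersetCard 2 Finset.univ)) {i j : ℕ} (hi : 0 < i) (hj : 0 < j)
    {r : ℕ} (a b : Fin r → X → ℚ) (ha : ∀ s, IsCycle X i (a s)) (hb : ∀ s, IsCycle X j (b s))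
    (hp : ∀ s, Proper (a s) (b s)) (hnum : NumTriv X n (i + j) (∑ s, inter (a s) (b s))) :
    ∑ s, inter (a s) (b s) ∈ Rat X (i + j) := by
  classical
  obtain ⟨c, hc, hγ⟩ := M.exists_xi (k := i + j) (Submodule.sum_mem _ fun s (_ : s ∈ Finset.univ) =>
    (M.inter_mem hP hi hj (ha s) (hb s) (hp s)).1) (fun z hz => by
      rw [Finset.sum_apply] at hz
      obtain ⟨s, -, hz⟩ := Finset.exists_ne_zero_of_sum_ne_zero hz
      exact (M.inter_mem hP hi hj (ha s) (hb s) (hp s)).2 z hz)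
  suffices h : c ∈ Rel K by
    have := add_mem hγ (M.xi_Rat hc h)
    rwa [sub_add_cancel] at this
  by_cases hk : i + j ≤ n
  swap
  · have : c = 0 := by
      ext σ
      by_contra h
      have := M.card_le σ (hc σ h).1
      have := (hc σ h).2
      omega
    rw [this]; exact zero_mem _
  refine hF n N K hn hN hK (i + j) (n - (i + j)) c (by omega) hc fun τ hτ hl c' hc' hrel => ?_
  obtain ⟨h1, h2⟩ := M.degree hS (by omega : i + j + (n - (i + j)) = n) hτ hl hc'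
  have hc'' : ∀ σ, c' σ ≠ 0 → σ ∈ K ∧ σ.card = i + j := fun σ h => ⟨(hc' σ h).1, (hc' σ h).2.1⟩
  rw [← h2]
  refine hnum (n - (i + j)) _ _ (by omega) (M.xi_cycle hc'') ?_ ?_ h1
  · have := M.xi_cycle (c := Finsupp.single τ 1) (k := n - (i + j)) fun σ hσ => by
      rw [Finsupp.single_apply_ne_zero] at hσ
      rw [hσ.1]; exact ⟨hτ, hl⟩
    rwa [xi, Finsupp.linearCombination_single, one_smul] at this
  · have h3 := M.xi_Rat (c := c - c') (k := i + j) (fun σ hσ => by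
      by_cases h : c σ = 0
      · exact hc'' σ fun h' => hσ (by simp [h, h'])
      · exact hc σ h) hrel
    have := add_mem hγ h3
    rwa [map_sub, sub_add_sub_cancel] at this

end Mod

lemma tower_model (hB : TowerBaseStmt) (hS : TowerStepStmt) {n : ℕ} (hn : 2 ≤ n)
    {ℓ : Fin (2 * n + 2) → Fin (n + 1) → ℂ} (hℓ : GenPos ℓ) {B : Scheme.{0}} {p : B ⟶ Pn n}
    {Z : Finset (Fin (2 * n + 2)) → Set B} {S : Finset (Finset (Fin (2 * n + 2)))}
    (h : Tower ℓ B p Z S) : ∃ K, FanTower n (2 * n + 2) K S ∧ ∃ M : BModel ℓ B p K,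
      ∀ c d, c ≠ d → ({c, d} : Ray _) ∉ S → Z {c, d} = M.D {c} ∩ M.D {d} := by
  induction h with
  | base =>
    obtain ⟨M, hM⟩ := hB n ℓ hn hℓ
    refine ⟨_, FanTower.base, M, fun c d _ _ => ?_⟩
    rw [hM, hM]
    simp
  | step s f _ hs hsS hf ih =>
    obtain ⟨K, hK, M, hM⟩ := ih
    obtain ⟨a, b, hab, rfl⟩ := Finset.card_eq_two.1 hs
    rw [hM a b hab hsS] at hf
    obtain ⟨M', hM'⟩ := hS n ℓ hn hℓ _ _ _ f K _ M a b hK hab hsS hf
    refine ⟨_, FanTower.step a b hK hab hsS, M', fun c d hcd hS' => ?_⟩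
    rw [Finset.mem_insert, not_or] at hS'
    rw [hM' c d hcd hS'.1, hM a b hab hsS, ← hM c d hcd hS'.2]

theorem final (hD : DimStmt) (hC : CycStmt) (hP : ProdStmt) (hS : SerreStmt)
    (hFB : FanBasicStmt) (hF : FanMainStmt) (hB : TowerBaseStmt) (hT : TowerStepStmt)
    (hX : CoverStmt) (hPt : PointStmt) (hV : DivStmt)
    {n : ℕ} (hn : 2 ≤ n) {ℓ : Fin (2 * n + 2) → Fin (n + 1) → ℂ} (hℓ : GenPos ℓ)
    {B X : Scheme.{0}} {p : B ⟶ Pn n} {Z : Finset (Fin (2 * n + 2)) → Set B}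
    (hTw : Tower ℓ B p Z (Finset.powersetCard 2 Finset.univ)) {π : X ⟶ B}
    (hπ : DoubleCover ℓ π p) {i j : ℕ} (hi : 0 < i) (hj : 0 < j)
    {r : ℕ} (a b : Fin r → X → ℚ) (ha : ∀ s, IsCycle X i (a s)) (hb : ∀ s, IsCycle X j (b s))
    (hp : ∀ s, Proper (a s) (b s)) (hnum : NumTriv X n (i + j) (∑ s, inter (a s) (b s))) :
    ∑ s, inter (a s) (b s) ∈ Rat X (i + j) := by
  obtain ⟨K, hK, M, -⟩ := tower_model hB hT hn hℓ hTw
  obtain ⟨M'⟩ := hX n ℓ hn hℓ B X p π K hK M hπ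
  obtain ⟨h1, h2, h3, h4, -⟩ := hFB n _ K _ hn (by omega) hK
  obtain ⟨M''⟩ := exists_mod M' h2 h3 h4 h1 hPt hD hC hV
  exact M''.main hP hS hF hn (by omega) hK hi hj a b ha hb hp hnum

end Pool.Agent.Lib.MP_2c79a0_ag.Main
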