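import Pool.Agent.Lib.MP_2c79a0_ag.Cyc

/-!
The finite push-forward of a principal divisor is rationally trivial.
-/

open Matrix

namespace Pool.Agent.Lib.MP_2c79a0_ag.Norm

/-- A multiplicative-to-additive function on invertible matrices, with values in a rational vector
space, that kills the scalars is zero. -/
theorem matrix_hom_zero {K : Type} [Field K] [CharZero K] {n : Type} [Fintype n] [DecidableEq n]
    {W : Type} [AddCommGroup W] [Module ℚ W] (φ : Matrix n n K → W)
    (hmul : ∀ A B, A.det ≠ 0 → B.det ≠ 0 → φ (A * B) = φ A + φ B)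
    (hsc : ∀ c : K, c ≠ 0 → φ (c • (1 : Matrix n n K)) = 0) (A : Matrix n n K) (hA : A.det ≠ 0) :
    φ A = 0 := by
  have hconj : ∀ P A B : Matrix n n K, P.det ≠ 0 → A.det ≠ 0 → B.det ≠ 0 → P * A = B * P →
      φ A = φ B := by
    intro P A B hP hA hB e
    have h1 := hmul P A hP hA
    have h2 := hmul B P hB hP
    rw [e, h2, add_comm] at h1
    exact (add_left_cancel h1).symm
  have h1 : φ 1 = 0 := by simpa using hsc 1 one_ne_zero
  refine diagonal_transvection_induction_of_det_ne_zero (fun A => φ A = 0) A hA ?_ ?_ ?_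
  · intro D hD
    have hD' : ∀ i, D i ≠ 0 := by
      rw [det_diagonal] at hD
      exact fun i => Finset.prod_ne_zero_iff.mp hD i (Finset.mem_univ i)
    have hdet : ∀ E : n → K, (∀ i, E i ≠ 0) → (diagonal E).det ≠ 0 := by
      intro E hE
      rw [det_diagonal]
      exact Finset.prod_ne_zero_iff.mpr fun i _ => hE i
    have hperm : ∀ σ : Equiv.Perm n, φ (diagonal (fun i => D (σ i))) = φ (diagonal D) := by
      intro σ
      refine (hconj (σ.permMatrix K) _ _ ?_ hD (hdet _ fun i => hD' _) ?_).symm
      · rw [det_permutation]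
        rcases Int.units_eq_one_or (Equiv.Perm.sign σ) with h | h <;> simp [h]
      · ext i j
        simp only [mul_diagonal, diagonal_mul, Equiv.Perm.permMatrix, PEquiv.toMatrix_apply,
          Equiv.toPEquiv_apply, Option.mem_def, Option.some.injEq]
        split_ifs with h
        · subst h; simp
        · simp
    have hprod : ∀ s : Finset (Equiv.Perm n),
        φ (diagonal (fun i => ∏ σ ∈ s, D (σ i))) = (s.card : ℚ) • φ (diagonal D) := by
      intro s
      induction s using Finset.induction_on with
      | empty => simpa using h1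
      | insert σ s hσ ih =>
        have e : diagonal (fun i => ∏ τ ∈ insert σ s, D (τ i)) =
            diagonal (fun i => D (σ i)) * diagonal (fun i => ∏ τ ∈ s, D (τ i)) := by
          rw [diagonal_mul_diagonal]
          congr 1
          ext i
          rw [Finset.prod_insert hσ]
        rw [e, hmul _ _ (hdet _ fun i => hD' _)
          (hdet _ fun i => Finset.prod_ne_zero_iff.mpr fun τ _ => hD' _), ih, hperm,
          Finset.card_insert_of_notMem hσ]
        push_cast
        rw [add_smul, one_smul, add_comm]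
    have hconst : ∀ i j : n, ∏ σ : Equiv.Perm n, D (σ i) = ∏ σ : Equiv.Perm n, D (σ j) := by
      intro i j
      refine Fintype.prod_equiv (Equiv.mulRight (Equiv.swap i j)) _ _ ?_
      intro σ
      simp
    have key : (Fintype.card (Equiv.Perm n) : ℚ) • φ (diagonal D) = 0 := by
      rw [← Finset.card_univ, ← hprod]
      rcases isEmpty_or_nonempty n with hn | ⟨⟨i⟩⟩
      · rw [← h1]; congr 1; exact Subsingleton.elim _ _
      · have e : diagonal (fun j => ∏ σ : Equiv.Perm n, D (σ j)) =
            (∏ σ : Equiv.Perm n, D (σ i)) • (1 : Matrix n n K) := by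
          rw [smul_one_eq_diagonal]
          congr 1
          ext j
          exact hconst j i
        rw [e]
        exact hsc _ (Finset.prod_ne_zero_iff.mpr fun τ _ => hD' _)
    have hc : (Fintype.card (Equiv.Perm n) : ℚ) ≠ 0 := by
      exact_mod_cast Fintype.card_ne_zero
    exact (smul_eq_zero.mp key).resolve_left hc
  · rintro ⟨i, j, hij, c⟩
    rw [TransvectionStruct.toMatrix_mk]
    have hd : ∀ c : K, (transvection i j c).det ≠ 0 := fun c => by
      rw [det_transvection_of_ne _ _ hij]; exact one_ne_zero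
    have e1 : φ (transvection i j c) = φ (transvection i j (c + c)) := by
      refine hconj (diagonal (fun k => if k = i then (2 : K) else 1)) _ _ ?_ (hd _) (hd _) ?_
      · rw [det_diagonal]
        refine Finset.prod_ne_zero_iff.mpr fun k _ => ?_
        split_ifs <;> simp
      · ext a b
        simp only [mul_diagonal, diagonal_mul, transvection, Matrix.add_apply, Matrix.one_apply,
          Matrix.single_apply]
        by_cases ha : a = i <;> by_cases hb : b = j
        · subst ha hb
          simp [hij, hij.symm]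
          ring
        · subst ha
          by_cases hab : a = b
          · subst hab; simp [hij.symm]
          · simp [hab, Ne.symm hb]
        · subst hb
          by_cases hab : a = b
          · subst hab; simp [ha, Ne.symm ha]
          · simp [hab, Ne.symm ha]
        · by_cases hab : a = b
          · subst hab; simp [ha, Ne.symm ha]
          · simp [hab, Ne.symm ha]
    rw [← transvection_mul_transvection_same _ _ hij, hmul _ _ (hd _) (hd _)] at e1
    simpa using e1
  · intro A B hA hB h1 h2
    rw [hmul A B hA hB, h1, h2, add_zero]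


/-- The same for endomorphisms of a finite dimensional vector space. -/
theorem end_hom_zero {K : Type} [Field K] [CharZero K] {V : Type} [AddCommGroup V] [Module K V]
    [Module.Finite K V] {W : Type} [AddCommGroup W] [Module ℚ W] (φ : (V →ₗ[K] V) → W)
    (hmul : ∀ f g : V →ₗ[K] V, Function.Injective f → Function.Injective g →
      φ (f ∘ₗ g) = φ f + φ g)
    (hsc : ∀ c : K, c ≠ 0 → φ (c • LinearMap.id) = 0) (f : V →ₗ[K] V)
    (hf : Function.Injective f) : φ f = 0 := by
  classical
  let b := Module.finBasis K V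
  have hinj : ∀ A : Matrix (Fin (Module.finrank K V)) (Fin (Module.finrank K V)) K,
      A.det ≠ 0 → Function.Injective (Matrix.toLin b b A) := by
    intro A hA
    rw [← LinearMap.ker_eq_bot]
    by_contra h
    apply hA
    rw [← LinearMap.det_toLin b A]
    exact LinearMap.det_eq_zero_iff_ker_ne_bot.mpr h
  have := matrix_hom_zero (fun A => φ (Matrix.toLin b b A)) (fun A B hA hB => by
      simp only [Matrix.toLin_mul b b b]
      exact hmul _ _ (hinj A hA) (hinj B hB))
    (fun c hc => by
      simp only [map_smul, Matrix.toLin_one]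
      exact hsc c hc) (LinearMap.toMatrix b b f) (by
      rw [LinearMap.det_toMatrix]
      intro h
      exact LinearMap.det_eq_zero_iff_ker_ne_bot.mp h (LinearMap.ker_eq_bot.mpr hf))
  simpa using this

open scoped nonZeroDivisors in
/-- The same for injective endomorphisms of a finite torsion free module over a domain. -/
theorem mod_hom_zero {A : Type} [CommRing A] [IsDomain A] [IsNoetherianRing A] [CharZero A]
    {M : Type} [AddCommGroup M] [Module A M] [Module.Finite A M]
    (htf : ∀ (a : A) (m : M), a ≠ 0 → a • m = 0 → m = 0)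
    {W : Type} [AddCommGroup W] [Module ℚ W] (ψ : (M →ₗ[A] M) → W)
    (hmul : ∀ f g : M →ₗ[A] M, Function.Injective f → Function.Injective g →
      ψ (f ∘ₗ g) = ψ f + ψ g)
    (hsc : ∀ c : A, c ≠ 0 → ψ (c • LinearMap.id) = 0) (f : M →ₗ[A] M)
    (hf : Function.Injective f) : ψ f = 0 := by
  let K := FractionRing A
  let V := LocalizedModule A⁰ M
  let ι : M →ₗ[A] V := LocalizedModule.mkLinearMap A⁰ M
  have : Module.FinitePresentation A M := Module.finitePresentation_of_finite A M
  have : CharZero K := charZero_of_injective_algebraMap (IsFractionRing.injective A K)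
  have hι : Function.Injective ι := by
    rw [injective_iff_map_eq_zero]
    intro m hm
    obtain ⟨s, hs⟩ := (IsLocalizedModule.eq_zero_iff A⁰ ι).mp hm
    exact htf s m (nonZeroDivisors.coe_ne_zero s) hs
  have hscinj : ∀ c : A, c ≠ 0 → Function.Injective (c • LinearMap.id : M →ₗ[A] M) := by
    intro c hc
    rw [injective_iff_map_eq_zero]
    intro m hm
    exact htf c m hc hm
  have hV : ∀ (c : A) (v : V), c ≠ 0 → c • v = 0 → v = 0 := by
    intro c v hc h
    rw [← algebraMap_smul K, smul_eq_zero] at h
    exact h.resolve_left (by simpa using hc)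
  have hex : ∀ g : V →ₗ[K] V, ∃ (u : M →ₗ[A] M) (s : A), s ≠ 0 ∧ ∀ m, ι (u m) = s • g (ι m) := by
    intro g
    obtain ⟨u, s, h⟩ := Module.FinitePresentation.exists_lift_of_isLocalizedModule A⁰ ι
      (g.restrictScalars A ∘ₗ ι)
    exact ⟨u, s, nonZeroDivisors.coe_ne_zero s, fun m => LinearMap.congr_fun h m⟩
  choose U s hs hU using hex
  have hinj : ∀ (g : V →ₗ[K] V) (u : M →ₗ[A] M) (t : A), Function.Injective g → t ≠ 0 →
      (∀ m, ι (u m) = t • g (ι m)) → Function.Injective u := by
    intro g u t hg ht h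
    rw [injective_iff_map_eq_zero]
    intro m hm
    have h1 := h m
    rw [hm, map_zero] at h1
    have h2 := hV t _ ht h1.symm
    have h3 : ι m = 0 := hg (by rw [h2, map_zero])
    exact hι (by rw [h3, map_zero])
  have hwd : ∀ (g : V →ₗ[K] V) (u : M →ₗ[A] M) (t : A), Function.Injective g → t ≠ 0 →
      (∀ m, ι (u m) = t • g (ι m)) → ψ (U g) = ψ u := by
    intro g u t hg ht h
    have e : (t • LinearMap.id : M →ₗ[A] M) ∘ₗ U g = (s g • LinearMap.id : M →ₗ[A] M) ∘ₗ u := by
      ext m
      apply hι
      simp only [LinearMap.comp_apply, LinearMap.smul_apply, LinearMap.id_apply, map_smul, hU, h]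
      rw [smul_comm]
    have h1 := hmul _ _ (hscinj t ht) (hinj g _ _ hg (hs g) (hU g))
    have h2 := hmul _ _ (hscinj _ (hs g)) (hinj g _ _ hg ht h)
    rw [e, h2, hsc _ ht, hsc _ (hs g), zero_add, zero_add] at h1
    exact h1.symm
  have main := end_hom_zero (K := K) (V := V) (fun g => ψ (U g)) (fun g h hg hh => by
      show ψ (U (g ∘ₗ h)) = ψ (U g) + ψ (U h)
      rw [← hmul _ _ (hinj g _ _ hg (hs g) (hU g)) (hinj h _ _ hh (hs h) (hU h))]
      refine hwd _ _ (s g * s h) (hg.comp hh) (mul_ne_zero (hs g) (hs h)) fun m => ?_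
      simp only [LinearMap.comp_apply, hU, LinearMap.map_smul_of_tower, mul_smul])
    (fun c hc => by
      show ψ (U (c • LinearMap.id)) = 0
      obtain ⟨a, b, hb, rfl⟩ := IsFractionRing.div_surjective (A := A) c
      have hb0 : b ≠ 0 := nonZeroDivisors.ne_zero hb
      have ha0 : a ≠ 0 := by
        rintro rfl
        simp at hc
      rw [← hsc a ha0]
      refine hwd _ _ b ?_ hb0 fun m => ?_
      · rw [injective_iff_map_eq_zero]
        intro v hv
        exact (smul_eq_zero.mp hv).resolve_left hc
      · have hb1 : algebraMap A K b ≠ 0 := by simpa using hb0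
        simp only [LinearMap.smul_apply, LinearMap.id_apply, map_smul]
        rw [← algebraMap_smul K b, ← algebraMap_smul K a, smul_smul, mul_div_cancel₀ _ hb1])
    (LocalizedModule.map A⁰ f) (LocalizedModule.map_injective A⁰ f hf)
  rw [← main]
  refine (hwd _ _ 1 (LocalizedModule.map_injective A⁰ f hf) one_ne_zero fun m => ?_).symm
  rw [one_smul]
  exact (LocalizedModule.map_mk A⁰ f m 1).symm


/-- The cokernel of an injective endomorphism of a finite module over a domain is torsion. -/
theorem exists_smul_mem_range {A : Type} [CommRing A] [IsDomain A] {M : Type} [AddCommGroup M]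
    [Module A M] [Module.Finite A M] (f : M →ₗ[A] M) (hf : Function.Injective f) :
    ∃ c : A, c ≠ 0 ∧ ∀ m, c • m ∈ LinearMap.range f := by
  have h1 := (LinearMap.range f).finrank_quotient_add_finrank
  rw [← (LinearEquiv.ofInjective f hf).finrank_eq] at h1
  have h2 : Module.finrank A (M ⧸ LinearMap.range f) = 0 := by omega
  obtain ⟨c, hc, hc0⟩ := Submodule.annihilator_top_inter_nonZeroDivisors
    (Module.finrank_eq_zero_iff_isTorsion.mp h2)
  refine ⟨c, nonZeroDivisors.ne_zero hc0, fun m => ?_⟩
  rw [← Submodule.Quotient.mk_eq_zero, Submodule.Quotient.mk_smul]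
  exact Submodule.mem_annihilator.mp hc _ Submodule.mem_top

section Cycles

open Algebra

variable {R : Type} [CommRing R] [Algebra ℂ R] [EssFiniteType ℂ R]

/-- Additivity of the cycle of the cokernel under composition. -/
theorem cyc_coker_comp (hC : CycBasicStmt) {M : Type} [AddCommGroup M] [Module R M]
    [Module.Finite R M] (u v : M →ₗ[R] M) (hu : Function.Injective u) (e : ℕ)
    (h : DimLE R e (M ⧸ LinearMap.range (u ∘ₗ v))) :
    (cyc e (M ⧸ LinearMap.range (u ∘ₗ v)) : Cyc R) =
      cyc e (M ⧸ LinearMap.range u) + cyc e (M ⧸ LinearMap.range v) := by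
  rw [add_comm]
  let f : (M ⧸ LinearMap.range v) →ₗ[R] (M ⧸ LinearMap.range (u ∘ₗ v)) :=
    Submodule.mapQ _ _ u (by rintro _ ⟨m, rfl⟩; exact ⟨m, rfl⟩)
  let g : (M ⧸ LinearMap.range (u ∘ₗ v)) →ₗ[R] (M ⧸ LinearMap.range u) :=
    Submodule.factor (LinearMap.range_comp_le_range v u)
  refine (hC R).2.2.2.2.1 _ _ _ f g e ?_ (Submodule.factor_surjective _) ?_ h
  · rw [injective_iff_map_eq_zero]
    intro m hm
    obtain ⟨m, rfl⟩ := Submodule.Quotient.mk_surjective _ m
    obtain ⟨k, hk⟩ := (Submodule.Quotient.mk_eq_zero _).mp hm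
    exact (Submodule.Quotient.mk_eq_zero _).mpr ⟨k, hu hk⟩
  · intro m
    obtain ⟨m, rfl⟩ := Submodule.Quotient.mk_surjective _ m
    constructor
    · intro hm
      obtain ⟨k, rfl⟩ := (Submodule.Quotient.mk_eq_zero _).mp hm
      exact ⟨Submodule.Quotient.mk k, rfl⟩
    · rintro ⟨k, hk⟩
      obtain ⟨k, rfl⟩ := Submodule.Quotient.mk_surjective _ k
      rw [← hk]
      exact (Submodule.Quotient.mk_eq_zero _).mpr ⟨k, rfl⟩

/-- Primes in the support of a module killed by `z` and by an element outside `z`. -/
theorem lt_of_mem_support {z : PrimeSpectrum R} {N : Type} [AddCommGroup N] [Module R N]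
    (hz : ∀ a ∈ z.asIdeal, ∀ m : N, a • m = 0) {c : R} (hc : c ∉ z.asIdeal)
    (hcN : ∀ m : N, c • m = 0) {p : PrimeSpectrum R} (hp : p ∈ Module.support R N) : z < p := by
  have h := Module.annihilator_le_of_mem_support hp
  refine lt_of_le_of_ne (fun a ha => h (Module.mem_annihilator.mpr (hz a ha))) ?_
  rintro rfl
  exact hc (h (Module.mem_annihilator.mpr hcN))

theorem cyc_eq_zero (hC : CycBasicStmt) {N : Type} [AddCommGroup N] [Module R N]
    [Module.Finite R N] (e : ℕ) (h : ∀ p, p ∉ Module.support R N) : (cyc e N : Cyc R) = 0 := by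
  ext p
  by_contra hp
  exact h p ((hC R).2.2.2.2.2.2 N e p hp).2

theorem G_mem_ratOn (J : Ideal R) (a : R) (c : Cyc R) (h : ∀ p, c p ≠ 0 → J ≤ p.asIdeal) :
    G a c ∈ RatOn J := by
  rw [G, Finsupp.linearCombination_apply]
  refine Submodule.sum_mem _ fun p hp => Submodule.smul_mem _ _ ?_
  exact Submodule.subset_span ⟨p, a, h p (Finsupp.mem_support_iff.mp hp), rfl⟩

/-- The case of a scalar. -/
theorem cyc_quotSMulTop_mem (hD : DimLtStmt) (hC : CycBasicStmt) (hM : McycStmt)
    (z : PrimeSpectrum R) {M : Type} [AddCommGroup M] [Module R M] [Module.Finite R M]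
    (hz : ∀ a ∈ z.asIdeal, ∀ m : M, a • m = 0) (b : R) (hb : b ∉ z.asIdeal)
    (hinj : ∀ m : M, b • m = 0 → m = 0) :
    (cyc (dm z - 1) (QuotSMulTop b M) : Cyc R) ∈ RatOn z.asIdeal := by
  have hle : ∀ p ∈ Module.support R M, z ≤ p := fun p hp a ha =>
    Module.annihilator_le_of_mem_support hp (Module.mem_annihilator.mpr (hz a ha))
  have hlt : ∀ p ∈ Module.support R M, b ∈ p.asIdeal → dm p < dm z := fun p hp hbp =>
    hD R z p (lt_of_le_of_ne (hle p hp) (by rintro rfl; exact hb hbp))
  have h1 := hM R M b (dm z - 1) (fun p hp => ⟨by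
    rcases (hle p hp).eq_or_lt with h | h
    · subst h; omega
    · have := hD R z p h; omega, fun hbp => by have := hlt p hp hbp; omega⟩)
  have : IsNoetherianRing R := EssFiniteType.isNoetherianRing ℂ R
  have : Subsingleton (Submodule.torsionBy R M b) := by
    refine ⟨fun x y => Subtype.ext ?_⟩
    rw [hinj x x.2, hinj y y.2]
  rw [cyc_eq_zero hC (N := Submodule.torsionBy R M b) _ (by
    rw [Module.support_eq_empty]; simp), sub_zero] at h1
  rw [h1]
  exact G_mem_ratOn _ _ _ fun p hp => hle p ((hC R).2.2.2.2.2.2 M _ p hp).2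

open scoped Pointwise in
/-- The cokernel of an injective endomorphism of a finite torsion free `R / z`-module has a
rationally trivial cycle. -/
theorem cyc_coker_mem (hD : DimLtStmt) (hC : CycBasicStmt) (hM : McycStmt)
    (z : PrimeSpectrum R) {M : Type} [AddCommGroup M] [Module R M] [Module.Finite R M]
    [Module (R ⧸ z.asIdeal) M] [IsScalarTower R (R ⧸ z.asIdeal) M]
    (htf : ∀ (a : R ⧸ z.asIdeal) (m : M), a ≠ 0 → a • m = 0 → m = 0)
    (f : M →ₗ[R ⧸ z.asIdeal] M) (hf : Function.Injective f) :
    (cyc (dm z - 1) (M ⧸ LinearMap.range (f.restrictScalars R)) : Cyc R) ∈ RatOn z.asIdeal := by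
  have : IsNoetherianRing R := EssFiniteType.isNoetherianRing ℂ R
  have : Module.Finite (R ⧸ z.asIdeal) M := Module.Finite.of_restrictScalars_finite R _ _
  have : CharZero (R ⧸ z.asIdeal) :=
    charZero_of_injective_algebraMap (algebraMap ℂ (R ⧸ z.asIdeal)).injective
  have hsm : ∀ (a : R) (m : M), a • m = Ideal.Quotient.mk z.asIdeal a • m := fun a m =>
    (algebraMap_smul (R ⧸ z.asIdeal) a m).symm
  have hz : ∀ a ∈ z.asIdeal, ∀ m : M, a • m = 0 := fun a ha m => by
    rw [hsm, Ideal.Quotient.eq_zero_iff_mem.mpr ha, zero_smul]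
  have := mod_hom_zero htf (W := Cyc R ⧸ RatOn z.asIdeal)
    (fun u => Submodule.Quotient.mk
      (cyc (dm z - 1) (M ⧸ LinearMap.range (u.restrictScalars R)) : Cyc R))
    (fun u v hu hv => by
      show Submodule.Quotient.mk (cyc (dm z - 1)
        (M ⧸ LinearMap.range (u.restrictScalars R ∘ₗ v.restrictScalars R)) : Cyc R) = _
      rw [cyc_coker_comp hC (u.restrictScalars R) (v.restrictScalars R) hu,
        Submodule.Quotient.mk_add]
      obtain ⟨c, hc, hcm⟩ := exists_smul_mem_range (u ∘ₗ v) (hu.comp hv)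
      obtain ⟨c, rfl⟩ := Ideal.Quotient.mk_surjective c
      intro p hp
      have h := hD R z p (lt_of_mem_support (c := c) (fun a ha m => by
        obtain ⟨m, rfl⟩ := Submodule.Quotient.mk_surjective _ m
        rw [← Submodule.Quotient.mk_smul, hz a ha, Submodule.Quotient.mk_zero])
        (fun h => hc (Ideal.Quotient.eq_zero_iff_mem.mpr h)) (fun m => by
        obtain ⟨m, rfl⟩ := Submodule.Quotient.mk_surjective _ m
        rw [← Submodule.Quotient.mk_smul, Submodule.Quotient.mk_eq_zero, hsm]
        exact hcm m) hp)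
      omega)
    (fun c hc => by
      obtain ⟨c, rfl⟩ := Ideal.Quotient.mk_surjective c
      show Submodule.Quotient.mk _ = 0
      rw [Submodule.Quotient.mk_eq_zero]
      have e : LinearMap.range ((Ideal.Quotient.mk z.asIdeal c • LinearMap.id :
          M →ₗ[R ⧸ z.asIdeal] M).restrictScalars R) = c • (⊤ : Submodule R M) := by
        ext m
        rw [Submodule.mem_smul_pointwise_iff_exists]
        constructor
        · rintro ⟨k, rfl⟩
          exact ⟨k, Submodule.mem_top, hsm c k⟩
        · rintro ⟨k, -, rfl⟩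
          exact ⟨k, (hsm c k).symm⟩
      rw [(hC R).2.2.2.1 _ _ _ (Submodule.quotEquivOfEq _ _ e)]
      exact cyc_quotSMulTop_mem hD hC hM z hz c
        (fun h => hc (Ideal.Quotient.eq_zero_iff_mem.mpr h))
        (fun m hm => htf _ m hc (by rw [← hsm, hm]))) f hf
  exact (Submodule.Quotient.mk_eq_zero _).mp this

end Cycles

end Pool.Agent.Lib.MP_2c79a0_ag.Norm

namespace Pool.Agent.Lib.MP_2c79a0_ag

/-- Finite push-forward of a principal divisor is rationally trivial. -/
theorem normStmt (hD : DimStmt) (hC : CycStmt) : NormStmt := by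
  intro R D _ _ _ _ _ _ q x hx
  set z := PrimeSpectrum.comap (algebraMap R D) q with hz
  let : Algebra (R ⧸ z.asIdeal) (D ⧸ q.asIdeal) :=
    Ideal.Quotient.algebraQuotientOfLEComap (le_of_eq rfl)
  have : IsScalarTower R (R ⧸ z.asIdeal) (D ⧸ q.asIdeal) :=
    IsScalarTower.of_algebraMap_eq fun _ => rfl
  have hinj : Function.Injective (algebraMap (R ⧸ z.asIdeal) (D ⧸ q.asIdeal)) :=
    Ideal.quotientMap_injective' (le_of_eq rfl)
  have hx0 : Ideal.Quotient.mk q.asIdeal x ≠ 0 := fun h =>
    hx (Ideal.Quotient.eq_zero_iff_mem.mp h)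
  have h := Norm.cyc_coker_mem hD.1 hC.1 hC.2.2.1 z (M := D ⧸ q.asIdeal)
    (fun a m ha ham => by
      rw [Algebra.smul_def, mul_eq_zero] at ham
      exact ham.resolve_left fun h => ha (hinj (by rw [h, map_zero])))
    (LinearMap.mulLeft (R ⧸ z.asIdeal) (Ideal.Quotient.mk q.asIdeal x))
    (mul_right_injective₀ hx0)
  have e : LinearMap.range ((LinearMap.mulLeft (R ⧸ z.asIdeal)
      (Ideal.Quotient.mk q.asIdeal x)).restrictScalars R) =
      ((Ideal.span {x}).map (Ideal.Quotient.mkₐ R q.asIdeal)).restrictScalars R := by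
    ext m
    rw [Submodule.restrictScalars_mem, Ideal.map_span, Set.image_singleton,
      Ideal.mem_span_singleton]
    constructor
    · rintro ⟨k, rfl⟩
      exact ⟨k, rfl⟩
    · rintro ⟨k, rfl⟩
      exact ⟨k, rfl⟩
  rw [(hC.1 R).2.2.2.1 _ _ _ ((Submodule.quotEquivOfEq _ _ e).trans
    ((Submodule.Quotient.restrictScalarsEquiv R _).trans
      (DoubleQuot.quotQuotEquivQuotSupₐ R q.asIdeal (Ideal.span {x})).toLinearEquiv))] at h
  exact h

end Pool.Agent.Lib.MP_2c79a0_ag
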