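import Pool.Agent.Lib.MP_2c79a0_ag.Cyc

/-!
Flat pull-back of cycles, and rational triviality of proper subvarieties of affine space.
-/

open scoped TensorProduct
open Algebra

noncomputable section

namespace Pool.Agent.Lib.MP_2c79a0_ag

namespace Pb

/-- Colon ideals are compatible with flat maps. -/
lemma flat_colon {R E : Type} [CommRing R] [CommRing E] (f : R →+* E) (hf : f.Flat) (J : Ideal R)
    (x : R) (y : E) (h : y * f x ∈ J.map f) : y ∈ (J.colon {x}).map f := by
  algebraize [f]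
  let g : R →ₗ[R] R ⧸ J := J.mkQ ∘ₗ LinearMap.toSpanSingleton R R x
  have hex : Function.Exact (J.colon {x}).subtype g := by
    intro r
    simp only [g, LinearMap.comp_apply, LinearMap.toSpanSingleton_apply, Submodule.mkQ_apply,
      Submodule.Quotient.mk_eq_zero, Submodule.coe_subtype, Subtype.range_coe_subtype,
      Set.mem_ofPred_eq, Submodule.mem_colon_singleton]
  have key : ∀ z ∈ J.map f, z ⊗ₜ[R] (J.mkQ 1) = (0 : E ⊗[R] (R ⧸ J)) := by
    intro z hz
    have : ∀ e : E, (e * z) ⊗ₜ[R] (J.mkQ 1) = (0 : E ⊗[R] (R ⧸ J)) := by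
      induction hz using Submodule.span_induction with
      | mem z hz =>
        obtain ⟨j, hj, rfl⟩ := hz
        intro e
        have : e * f j = j • e := by rw [Algebra.smul_def, mul_comm]; rfl
        rw [this, TensorProduct.smul_tmul, ← map_smul, smul_eq_mul, mul_one, Submodule.mkQ_apply,
          (Submodule.Quotient.mk_eq_zero J).2 hj, TensorProduct.tmul_zero]
      | zero => intro e; rw [mul_zero, TensorProduct.zero_tmul]
      | add a b _ _ ha hb => intro e; rw [mul_add, TensorProduct.add_tmul, ha, hb, add_zero]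
      | smul a b _ hb => intro e; rw [smul_eq_mul, ← mul_assoc, hb]
    simpa using this 1
  have h0 : LinearMap.lTensor E g (y ⊗ₜ[R] 1) = 0 := by
    have e1 : y * f x = x • y := by rw [Algebra.smul_def, mul_comm]; rfl
    have := key _ h
    rw [e1, TensorProduct.smul_tmul, ← map_smul] at this
    rw [LinearMap.lTensor_tmul, ← this]
    simp [g]
  obtain ⟨t, ht⟩ := (Module.Flat.lTensor_exact E hex _).1 h0
  have e2 : y = TensorProduct.rid R E (LinearMap.lTensor E (J.colon {x}).subtype t) := by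
    rw [ht, TensorProduct.rid_tmul, one_smul]
  rw [e2]
  clear ht e2
  induction t using TensorProduct.induction_on with
  | zero => simp
  | tmul e r =>
    rw [LinearMap.lTensor_tmul, TensorProduct.rid_tmul, Algebra.smul_def]
    exact Ideal.mul_mem_right _ _ (Ideal.mem_map_of_mem f r.2)
  | add a b ha hb => rw [map_add, map_add]; exact Ideal.add_mem _ ha hb

section Quot

variable {R : Type} [CommRing R]

lemma mem_supp (K : Ideal R) (p : PrimeSpectrum R) :
    p ∈ Module.support R (R ⧸ K) ↔ K ≤ p.asIdeal := by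
  rw [Module.mem_support_iff_of_finite, Ideal.annihilator_quotient]

variable [Algebra ℂ R]

lemma G_apply (a : R) (c : Cyc R) : G a c = c.sum fun w x => x • dv w a :=
  Finsupp.linearCombination_apply _ _

lemma G_mem (a : R) (c : Cyc R) (N : Submodule ℚ (Cyc R)) (h : ∀ w, c w ≠ 0 → dv w a ∈ N) :
    G a c ∈ N := by
  rw [G_apply]
  exact N.sum_mem fun w hw => N.smul_mem _ (h w (Finsupp.mem_support_iff.1 hw))

omit [Algebra ℂ R] in
lemma mem_of_single (c : Cyc R) (N : Submodule ℚ (Cyc R))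
    (h : ∀ w, c w ≠ 0 → Finsupp.single w (1 : ℚ) ∈ N) : c ∈ N := by
  rw [← Finsupp.sum_single c]
  refine N.sum_mem fun w hw => ?_
  have := N.smul_mem (c w) (h w (Finsupp.mem_support_iff.1 hw))
  rwa [Finsupp.smul_single, smul_eq_mul, mul_one] at this

variable [EssFiniteType ℂ R]

lemma cyc_ne (hC : CycBasicStmt) {K : Ideal R} {d : ℕ} {p : PrimeSpectrum R}
    (h : cyc d (R ⧸ K) p ≠ 0) : dm p = d ∧ K ≤ p.asIdeal := by
  obtain ⟨h1, h2⟩ := (hC R).2.2.2.2.2.2 _ d p h
  exact ⟨h1, (mem_supp K p).1 h2⟩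

lemma cyc_zero (hC : CycBasicStmt) {K : Ideal R} {d : ℕ}
    (h : ∀ p : PrimeSpectrum R, K ≤ p.asIdeal → dm p ≠ d) : (cyc d (R ⧸ K) : Cyc R) = 0 := by
  ext p
  by_contra hp
  obtain ⟨h1, h2⟩ := cyc_ne hC hp
  exact h p h2 h1

lemma cyc_ses (hC : CycBasicStmt) (K K' : Ideal R) (x : R) (d : ℕ)
    (h : ∀ y, y * x ∈ K ↔ y ∈ K') (hd : ∀ p : PrimeSpectrum R, K ≤ p.asIdeal → dm p ≤ d) :
    (cyc d (R ⧸ K) : Cyc R) = cyc d (R ⧸ K') + cyc d (R ⧸ (K ⊔ Ideal.span {x})) := by
  refine (hC R).2.2.2.2.1 _ _ _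
    (Submodule.mapQ K' K (LinearMap.toSpanSingleton R R x) fun y hy => (h y).2 hy)
    (Submodule.factor le_sup_left) d ?_ (Submodule.factor_surjective _) ?_
    fun p hp => hd p ((mem_supp K p).1 hp)
  · rw [injective_iff_map_eq_zero]
    intro y hy
    obtain ⟨y, rfl⟩ := Submodule.Quotient.mk_surjective _ y
    rw [Submodule.mapQ_apply, Submodule.Quotient.mk_eq_zero] at hy
    exact (Submodule.Quotient.mk_eq_zero _).2 ((h y).1 hy)
  · intro y
    obtain ⟨y, rfl⟩ := Submodule.Quotient.mk_surjective _ y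
    have e : Submodule.factor (le_sup_left : K ≤ K ⊔ Ideal.span {x}) (Submodule.Quotient.mk y) =
      Submodule.Quotient.mk y := rfl
    rw [e, Submodule.Quotient.mk_eq_zero, sup_comm, Ideal.mem_span_singleton_sup]
    constructor
    · rintro ⟨a, b, hb, rfl⟩
      refine ⟨Submodule.Quotient.mk a, ?_⟩
      rw [Submodule.mapQ_apply, Submodule.Quotient.eq]
      simpa using hb
    · rintro ⟨a, ha⟩
      obtain ⟨a, rfl⟩ := Submodule.Quotient.mk_surjective _ a
      rw [Submodule.mapQ_apply, eq_comm, Submodule.Quotient.eq] at ha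
      exact ⟨a, _, ha, by simp⟩

lemma cyc_cut (hC : CycBasicStmt) (hM : McycStmt) (K : Ideal R) (x : R) (d : ℕ)
    (h : ∀ y, y * x ∈ K → y ∈ K)
    (hd : ∀ p : PrimeSpectrum R, K ≤ p.asIdeal → dm p ≤ d + 1 ∧ (x ∈ p.asIdeal → dm p ≤ d)) :
    (cyc d (R ⧸ (K ⊔ Ideal.span {x})) : Cyc R) = G x (cyc (d + 1) (R ⧸ K)) := by
  have : IsNoetherianRing R := EssFiniteType.isNoetherianRing ℂ R
  rw [← hM R (R ⧸ K) x d fun p hp => hd p ((mem_supp K p).1 hp)]
  have h0 : (cyc d (Submodule.torsionBy R (R ⧸ K) x) : Cyc R) = 0 := by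
    have : Subsingleton (Submodule.torsionBy R (R ⧸ K) x) := by
      refine subsingleton_of_forall_eq 0 ?_
      rintro ⟨y, hy⟩
      obtain ⟨y, rfl⟩ := Submodule.Quotient.mk_surjective _ y
      rw [Submodule.mem_torsionBy_iff, ← Submodule.Quotient.mk_smul,
        Submodule.Quotient.mk_eq_zero, smul_eq_mul, mul_comm] at hy
      exact Subtype.ext ((Submodule.Quotient.mk_eq_zero _).2 (h y hy))
    ext p
    by_contra hp
    have := ((hC R).2.2.2.2.2.2 _ d p hp).2
    rw [Module.support_eq_empty] at this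
    exact this
  rw [h0, sub_zero]
  refine (hC R).2.2.2.1 _ _ d ((Submodule.quotientQuotientEquivQuotientSup K _).symm.trans
    (Submodule.quotEquivOfEq _ _ ?_))
  ext y
  rw [Submodule.mem_smul_pointwise_iff_exists, Submodule.mem_map]
  constructor
  · rintro ⟨a, ha, rfl⟩
    obtain ⟨b, rfl⟩ := Ideal.mem_span_singleton'.1 ha
    exact ⟨K.mkQ b, trivial, by rw [← map_smul, smul_eq_mul, mul_comm]⟩
  · rintro ⟨b, -, rfl⟩
    obtain ⟨b, rfl⟩ := K.mkQ_surjective b
    exact ⟨b * x, Ideal.mem_span_singleton'.2 ⟨b, rfl⟩, by rw [← map_smul, smul_eq_mul, mul_comm]⟩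

lemma dm_anti (hD : DimStmt) {p q : PrimeSpectrum R} (h : p ≤ q) : dm q ≤ dm p := by
  rcases h.eq_or_lt with rfl | h
  exacts [le_rfl, (hD.1 R p q h).le]

end Quot

section Pull

variable {R S : Type} [CommRing R] [Algebra ℂ R] [CommRing S] [Algebra ℂ S]
  {φ : R →ₐ[ℂ] S} {I : Ideal S} {e : ℕ}

lemma pb_single (w : PrimeSpectrum R) : pb φ I e (Finsupp.single w 1) =
    cyc (dm w + e) (S ⧸ (I ⊔ w.asIdeal.map (φ : R →+* S))) := by
  rw [pb, Finsupp.linearCombination_single, one_smul]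

lemma colon_iff (hf : ((Ideal.Quotient.mk I).comp (φ : R →+* S)).Flat) (J : Ideal R) (x : R)
    (y : S) : y * φ x ∈ I ⊔ J.map (φ : R →+* S) ↔ y ∈ I ⊔ (J.colon {x}).map (φ : R →+* S) := by
  constructor
  · intro h
    rw [sup_comm, ← Ideal.mem_quotient_iff_mem_sup, Ideal.map_map] at h ⊢
    exact flat_colon _ hf J x _ (by rw [map_mul] at h; exact h)
  · intro h
    obtain ⟨a, ha, b, hb, rfl⟩ := Submodule.mem_sup.1 h
    rw [add_mul]
    refine Submodule.add_mem_sup (I.mul_mem_right _ ha) ?_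
    clear h
    induction hb using Submodule.span_induction with
    | mem z hz =>
      obtain ⟨j, hj, rfl⟩ := hz
      have := Ideal.mem_map_of_mem (φ : R →+* S) (Submodule.mem_colon_singleton.1 hj)
      rwa [smul_eq_mul, map_mul] at this
    | zero => simp
    | add a b _ _ ha hb => rw [add_mul]; exact Ideal.add_mem _ ha hb
    | smul a b _ hb => rw [smul_eq_mul, mul_assoc]; exact Ideal.mul_mem_left _ _ hb

lemma le_cm {J : Ideal R} {Z : PrimeSpectrum S} (h : I ⊔ J.map (φ : R →+* S) ≤ Z.asIdeal) :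
    I ≤ Z.asIdeal ∧ J ≤ (cm φ Z).asIdeal :=
  ⟨le_sup_left.trans h, Ideal.map_le_iff_le_comap.1 (le_sup_right.trans h)⟩

lemma sup_map (J : Ideal R) (x : R) : I ⊔ (J ⊔ Ideal.span {x}).map (φ : R →+* S) =
    I ⊔ J.map (φ : R →+* S) ⊔ Ideal.span {φ x} := by
  rw [Ideal.map_sup, Ideal.map_span, Set.image_singleton, sup_assoc]
  rfl

variable [EssFiniteType ℂ R] [EssFiniteType ℂ S]

/-- The pull-back of the cycle of a quotient ring. -/
lemma pb_cyc (hD : DimStmt) (hC : CycBasicStmt)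
    (hf : ((Ideal.Quotient.mk I).comp (φ : R →+* S)).Flat)
    (he : ∀ Z : PrimeSpectrum S, I ≤ Z.asIdeal → dm Z ≤ dm (cm φ Z) + e) (d : ℕ) (J : Ideal R) :
    (∀ p : PrimeSpectrum R, J ≤ p.asIdeal → dm p ≤ d) →
    pb φ I e (cyc d (R ⧸ J)) = cyc (d + e) (S ⧸ (I ⊔ J.map (φ : R →+* S))) := by
  have : IsNoetherianRing R := EssFiniteType.isNoetherianRing ℂ R
  induction J using IsNoetherian.induction with
  | hgt J ih =>
  intro hd
  by_cases hp : Ideal.IsPrime J
  · let p : PrimeSpectrum R := ⟨J, hp⟩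
    rcases (hd p le_rfl).eq_or_lt with h | h
    · subst h
      rw [show (cyc (dm p) (R ⧸ J) : Cyc R) = Finsupp.single p 1 from (hC R).2.2.2.2.2.1 p,
        pb_single]
    · rw [cyc_zero hC fun q hq => ((dm_anti hD (show p ≤ q from hq)).trans_lt h).ne, map_zero,
        cyc_zero hC]
      intro Z hZ
      obtain ⟨h1, h2⟩ := le_cm hZ
      have := he Z h1
      have := dm_anti hD (show p ≤ cm φ Z from h2)
      omega
  · rcases Ideal.not_isPrime_iff.1 hp with rfl | ⟨y, hy, x, hx, hxy⟩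
    · rw [cyc_zero hC fun q hq => (q.2.ne_top (top_le_iff.1 hq)).elim, map_zero, cyc_zero hC]
      intro Z hZ
      exact ((cm φ Z).2.ne_top (top_le_iff.1 (le_cm hZ).2)).elim
    · have l1 : J ≤ J.colon {x} := fun a ha =>
        Submodule.mem_colon_singleton.2 (Ideal.mul_mem_right _ _ ha)
      have g1 : J.colon {x} > J :=
        lt_of_le_of_ne l1 fun h => hy (h ▸ Submodule.mem_colon_singleton.2 hxy)
      have g2 : J ⊔ Ideal.span {x} > J := lt_of_le_of_ne le_sup_left fun h =>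
        hx (h ▸ Ideal.mem_sup_right (Ideal.mem_span_singleton_self x))
      rw [cyc_ses hC J (J.colon {x}) x d (fun _ => Submodule.mem_colon_singleton.symm) hd, map_add,
        ih _ g1 fun q hq => hd q (l1.trans hq), ih _ g2 fun q hq => hd q (le_sup_left.trans hq),
        cyc_ses hC _ _ (φ x) (d + e) (colon_iff hf J x), sup_map]
      intro Z hZ
      obtain ⟨h1, h2⟩ := le_cm hZ
      have := he Z h1
      have := hd _ h2
      omega

end Pull

end Pb

open Pb in
theorem pbStmt (hD : DimStmt) (hC : CycBasicStmt) (hV : DvStmt) (hM : McycStmt) : PbStmt := by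
  intro R S _ _ _ _ _ _ φ I e hf he
  have main : ∀ (w : PrimeSpectrum R) (a : R),
      pb φ I e (dv w a) = G (φ a) (pb φ I e (Finsupp.single w 1)) := by
    intro w a
    rw [pb_single]
    have lt : a ∉ w.asIdeal → ∀ q : PrimeSpectrum R, w ≤ q → a ∈ q.asIdeal → dm q < dm w :=
      fun ha q h1 h2 => hD.1 R w q (lt_of_le_of_ne h1 fun h => ha (h ▸ h2))
    by_cases ha : a ∈ w.asIdeal
    · rw [dv, if_pos ha, map_zero, eq_comm, ← Submodule.mem_bot ℚ]
      refine G_mem _ _ _ fun Z hZ => ?_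
      rw [dv, if_pos (show φ a ∈ Z.asIdeal from (le_cm (cyc_ne hC hZ).2).2 ha)]
      exact Submodule.zero_mem _
    · rcases hw : dm w with _ | d
      · have h0 : dv w a = 0 := by
          ext z
          by_contra hz
          have := ((hV R w).1 a z hz).2.2.2
          omega
        rw [h0, map_zero, eq_comm, ← Submodule.mem_bot ℚ]
        refine G_mem _ _ _ fun Z hZ => ?_
        rw [Submodule.mem_bot]
        ext z
        by_contra hz
        obtain ⟨h1, h2, -, -⟩ := (hV S Z).1 _ z hz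
        have := lt ha (cm φ z) (le_cm ((cyc_ne hC hZ).2.trans h1.le)).2 h2
        omega
      · rw [dv, if_neg ha, hw, Nat.add_sub_cancel, pb_cyc hD hC hf he, sup_map,
          Nat.add_right_comm d 1 e]
        · refine cyc_cut hC hM _ _ _ (fun y hy => ?_) fun Z hZ => ?_
          · rw [colon_iff hf] at hy
            refine sup_le_sup_left (Ideal.map_mono fun b hb => ?_) I hy
            exact (w.2.mem_or_mem (Submodule.mem_colon_singleton.1 hb)).resolve_right ha
          · obtain ⟨h1, h2⟩ := le_cm hZ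
            have := he Z h1
            have := dm_anti hD (show w ≤ cm φ Z from h2)
            refine ⟨by omega, fun h => ?_⟩
            have := lt ha (cm φ Z) h2 h
            omega
        · intro q hq
          have := lt ha q (le_sup_left.trans hq)
            (hq (Ideal.mem_sup_right (Ideal.mem_span_singleton_self a)))
          omega
  refine ⟨main, fun c hc => ?_⟩
  refine (Submodule.span_le.2 ?_ : RatOn ⊥ ≤ (RatOn I).comap (pb φ I e)) hc
  rintro _ ⟨w, a, -, rfl⟩
  show pb φ I e (dv w a) ∈ RatOn I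
  rw [main, pb_single]
  exact G_mem _ _ _ fun Z hZ => Submodule.subset_span ⟨Z, _, (le_cm (cyc_ne hC hZ).2).1, rfl⟩

namespace Pb

open Polynomial

/-- All proper subvarieties are rationally trivial. -/
def Aff (R : Type) [CommRing R] [Algebra ℂ R] : Prop :=
  ∀ P : PrimeSpectrum R, P.asIdeal ≠ ⊥ → Finsupp.single P (1 : ℚ) ∈ RatOn (⊥ : Ideal R)

lemma Aff.transfer (hR : ResStmt) {A R : Type} [CommRing A] [Algebra ℂ A] [EssFiniteType ℂ A]
    [CommRing R] [Algebra ℂ R] (hA : Aff A) (ψ : A →ₐ[ℂ] R) (h : LocSurj ψ)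
    (hi : Function.Injective ψ) : Aff R := by
  intro P hP
  have h1 : (cm ψ P).asIdeal ≠ ⊥ := by
    intro h0
    refine hP (eq_bot_iff.2 fun r hr => ?_)
    obtain ⟨a, s, hs, e⟩ := h r
    have ha : a ∈ (cm ψ P).asIdeal := by
      rw [mem_cm, ← e]; exact P.asIdeal.mul_mem_right _ hr
    rw [h0, Ideal.mem_bot] at ha
    rw [ha, map_zero] at e
    exact Ideal.mem_bot.2 (hs.mul_left_eq_zero.1 e)
  have h2 := (hR A R ψ h).2.2.2.2.2.1 ⊥ (fun k hk => ⟨1, by simp, by
    rw [one_mul, Ideal.mem_bot]; exact hi (hk.trans (map_zero ψ).symm)⟩) _ (hA _ h1)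
  rw [Ideal.map_bot] at h2
  have h3 : res ψ h (Finsupp.single (cm ψ P) 1) = Finsupp.single P 1 := by
    ext Q
    rw [res_apply, Finsupp.single_apply_left h.cm_injective]
  rwa [h3] at h2

lemma Aff.equiv (hR : ResStmt) {A R : Type} [CommRing A] [Algebra ℂ A] [EssFiniteType ℂ A]
    [CommRing R] [Algebra ℂ R] (hA : Aff A) (ψ : A ≃ₐ[ℂ] R) : Aff R :=
  hA.transfer hR ψ.toAlgHom (fun r => ⟨ψ.symm r, 1, by simp, by simp⟩) ψ.injective

variable {A : Type} [CommRing A] [Algebra ℂ A]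

/-- The extension of a prime to the polynomial ring. -/
def ext (z : PrimeSpectrum A) : PrimeSpectrum A[X] :=
  ⟨z.asIdeal.map C, Ideal.isPrime_map_C_of_isPrime⟩

omit [Algebra ℂ A] in
lemma mem_ext (z : PrimeSpectrum A) (f : A[X]) : f ∈ (ext z).asIdeal ↔ ∀ n, f.coeff n ∈ z.asIdeal :=
  Ideal.mem_map_C_iff

lemma ext_le (Q : PrimeSpectrum A[X]) : ext (cm CAlgHom Q) ≤ Q :=
  Ideal.map_le_iff_le_comap.2 le_rfl

lemma cm_ext (z : PrimeSpectrum A) : cm CAlgHom (ext z) = z := by
  ext a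
  rw [mem_cm, mem_ext]
  refine ⟨fun h => by simpa using h 0, fun h n => ?_⟩
  show (C a).coeff n ∈ _
  rw [coeff_C]
  split_ifs
  exacts [h, Ideal.zero_mem _]

variable [FiniteType ℂ A]

lemma dm_ext (hD : DimStmt) (z : PrimeSpectrum A) : dm (ext z) = dm z + 1 := by
  have h1 := hD.2.2.2.2.2.1 A (ext z)
  rw [cm_ext] at h1
  let ev : A[X] →ₐ[ℂ] A := (aeval (0 : A)).restrictScalars ℂ
  have hev : ∀ f, ev f = f.coeff 0 := fun f => by
    show aeval (0 : A) f = _
    rw [coeff_zero_eq_aeval_zero]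
  have h2 := hD.2.2.2.1 _ _ ev (fun r => ⟨C r, 1, by simp, by simp [hev]⟩) z
  have h3 : ext z < cm ev z := by
    refine lt_of_le_of_ne (fun f hf => ?_) fun h => ?_
    · rw [mem_cm, hev]; exact (mem_ext z f).1 hf 0
    · have : X ∈ (ext z).asIdeal := by rw [h, mem_cm, hev, coeff_X_zero]; exact Ideal.zero_mem _
      have := (mem_ext z X).1 this 1
      rw [coeff_X_one] at this
      exact z.2.ne_top ((Ideal.eq_top_iff_one _).2 this)
  have := hD.1 _ _ _ h3
  omega

lemma ext_rat (hD : DimStmt) (hC : CycStmt) (hA : Aff A) (z : PrimeSpectrum A)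
    (hz : z.asIdeal ≠ ⊥) : Finsupp.single (ext z) (1 : ℚ) ∈ RatOn (⊥ : Ideal A[X]) := by
  have hf : ((Ideal.Quotient.mk (⊥ : Ideal A[X])).comp
      ((CAlgHom : A →ₐ[ℂ] A[X]) : A →+* A[X])).Flat := by
    refine RingHom.Flat.comp ?_ (RingHom.Flat.of_bijective (RingEquiv.quotientBot _).symm.bijective)
    exact RingHom.flat_algebraMap_iff.2 (inferInstance : Module.Flat A A[X])
  have h := (hC.2.2.2.2 A A[X] CAlgHom ⊥ 1 hf fun Z _ => hD.2.2.2.2.2.1 A Z).2 _ (hA z hz)
  have e : ∀ K : Ideal A[X], K = (ext z).asIdeal →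
      (cyc (dm z + 1) (A[X] ⧸ K) : Cyc A[X]) = Finsupp.single (ext z) 1 := by
    rintro _ rfl
    rw [← dm_ext hD]
    exact (hC.1 _).2.2.2.2.2.1 _
  rwa [pb_single, e (⊥ ⊔ z.asIdeal.map ((CAlgHom : A →ₐ[ℂ] A[X]) : A →+* A[X])) (bot_sup_eq _)]
    at h

lemma aff_poly (hD : DimStmt) (hC : CycStmt) (hA : Aff A) : Aff A[X] := by
  classical
  intro P hP
  set p := cm CAlgHom P with hp
  rcases (ext_le P).eq_or_lt with h | h
  · rw [← h]
    refine ext_rat hD hC hA _ fun h0 => hP ?_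
    rw [← h]
    show Ideal.map C (cm CAlgHom P).asIdeal = ⊥
    rw [h0, Ideal.map_bot]
  have hex : ∃ n, ∃ r ∈ P.asIdeal, r ∉ (ext p).asIdeal ∧ r.natDegree = n := by
    obtain ⟨r, h1, h2⟩ := SetLike.exists_of_lt (show (ext p).asIdeal < P.asIdeal from h)
    exact ⟨_, r, h1, h2, rfl⟩
  obtain ⟨r, rP, rp, hr⟩ := Nat.find_spec hex
  have hmin : ∀ f ∈ P.asIdeal, f.natDegree < r.natDegree → f ∈ (ext p).asIdeal := by
    intro f hf hlt
    by_contra hn
    exact Nat.find_min hex (hr ▸ hlt) ⟨f, hf, hn, rfl⟩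
  have hc : r.leadingCoeff ∉ p.asIdeal := by
    intro hc
    have h1 : C r.leadingCoeff * X ^ r.natDegree ∈ (ext p).asIdeal :=
      Ideal.mul_mem_right _ _ (Ideal.mem_map_of_mem _ hc)
    have h2 := r.eraseLead_add_C_mul_X_pow
    have h3 : r.eraseLead ∈ (ext p).asIdeal := by
      rcases r.eraseLead_natDegree_lt_or_eraseLead_eq_zero with h4 | h4
      · refine hmin _ ?_ h4
        rw [eq_sub_of_add_eq h2]
        exact Ideal.sub_mem _ rP (h.le h1)
      · rw [h4]; exact Ideal.zero_mem _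
    exact rp (h2 ▸ Ideal.add_mem _ h3 h1)
  have hpos : 0 < r.natDegree := by
    refine Nat.pos_of_ne_zero fun h0 => hc ?_
    show C r.leadingCoeff ∈ P.asIdeal
    rw [leadingCoeff, h0, ← eq_C_of_natDegree_eq_zero h0]
    exact rP
  have hdiv : ∀ Q : PrimeSpectrum A[X], ext p ≤ Q → r ∈ Q.asIdeal →
      C r.leadingCoeff ∉ Q.asIdeal → P ≤ Q := by
    intro Q h1 h2 h3 f
    induction hn : f.natDegree using Nat.strong_induction_on generalizing f with
    | h n ih =>
    intro hf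
    rcases lt_or_ge f.natDegree r.natDegree with h4 | h4
    · exact h1 (hmin f hf h4)
    · have h5 := natDegree_cancelLeads_lt_of_natDegree_le_natDegree h4 (hpos.trans_le h4)
      have h6 : r.cancelLeads f ∈ Q.asIdeal := ih _ (hn ▸ h5) rfl
        (Ideal.sub_mem _ (Ideal.mul_mem_left _ _ hf) (Ideal.mul_mem_left _ _ rP))
      rw [cancelLeads, Nat.sub_eq_zero_of_le h4, pow_zero, mul_one] at h6
      have h7 := Ideal.add_mem _ h6
        (Ideal.mul_mem_left _ (C f.leadingCoeff * X ^ (f.natDegree - r.natDegree)) h2)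
      rw [sub_add_cancel] at h7
      exact (Q.2.mem_or_mem h7).resolve_left h3
  have hDr : dv (ext p) r ∈ RatOn (⊥ : Ideal A[X]) := Submodule.subset_span ⟨_, _, bot_le, rfl⟩
  have dP : dm P < dm (ext p) := hD.1 _ _ _ h
  have de := dm_ext hD p
  have hsup : (ext p).asIdeal ⊔ Ideal.span {r} ≤ P.asIdeal :=
    sup_le h.le ((Ideal.span_singleton_le_iff_mem _).2 rP)
  have hP0 : 0 < dv (ext p) r P := by
    refine (hC.2.1 _ _).2.1 r P rp ⟨⟨P.2, hsup⟩, fun Q hQ hle => ?_⟩
    exact hdiv ⟨Q, hQ.1⟩ (le_sup_left.trans hQ.2)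
      (hQ.2 (Ideal.mem_sup_right (Ideal.mem_span_singleton_self r))) fun h1 => hc (hle h1)
  have hrest : (dv (ext p) r).erase P ∈ RatOn (⊥ : Ideal A[X]) := by
    refine mem_of_single _ _ fun Q hQ => ?_
    have hne : Q ≠ P := by
      rintro rfl
      exact hQ Finsupp.erase_same
    rw [Finsupp.erase_ne hne] at hQ
    obtain ⟨a1, a2, -, a4⟩ := (hC.2.1 _ _).1 r Q hQ
    by_cases hq : C r.leadingCoeff ∈ Q.asIdeal
    · have b1 : p ≤ cm CAlgHom Q := Ideal.map_le_iff_le_comap.1 a1.le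
      have b2 := hD.1 _ _ _ (lt_of_le_of_ne b1 fun e => hc (e ▸ hq))
      have b3 := dm_ext hD (cm CAlgHom Q)
      rcases (ext_le Q).eq_or_lt with e | e
      · rw [← e]
        refine ext_rat hD hC hA _ fun h0 => hc ?_
        have : r.leadingCoeff ∈ (cm CAlgHom Q).asIdeal := hq
        rw [h0, Ideal.mem_bot] at this
        rw [this]
        exact Ideal.zero_mem _
      · have := hD.1 _ _ _ e
        omega
    · have := hD.1 _ _ _ (lt_of_le_of_ne (hdiv Q a1.le a2 hq) hne.symm)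
      omega
  have h8 := Submodule.smul_mem _ (dv (ext p) r P)⁻¹ (Submodule.sub_mem _ hDr hrest)
  rwa [sub_eq_of_eq_add (Finsupp.single_add_erase P _).symm, Finsupp.smul_single, smul_eq_mul,
    inv_mul_cancel₀ hP0.ne'] at h8

lemma aff_fin (hD : DimStmt) (hC : CycStmt) (n : ℕ) : Aff (MvPolynomial (Fin n) ℂ) := by
  induction n with
  | zero =>
    refine Aff.equiv hC.2.2.2.1 (A := ℂ) (fun P hP => ?_) (MvPolynomial.isEmptyAlgEquiv ℂ _).symm
    exact (hP ((Ideal.eq_bot_or_top _).resolve_right P.2.ne_top)).elim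
  | succ n h => exact (aff_poly hD hC h).equiv hC.2.2.2.1 (MvPolynomial.finSuccEquiv ℂ n).symm

lemma aff_mv (hD : DimStmt) (hC : CycStmt) (ι : Type) [Finite ι] : Aff (MvPolynomial ι ℂ) :=
  (aff_fin hD hC _).equiv hC.2.2.2.1 (MvPolynomial.renameEquiv ℂ (Finite.equivFin ι).symm)

end Pb

theorem affStmt (hD : DimStmt) (hC : CycStmt) : AffStmt :=
  fun ι _ _ _ _ ψ h hi => (Pb.aff_mv hD hC ι).transfer hC.2.2.2.1 ψ h hi

end Pool.Agent.Lib.MP_2c79a0_ag
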