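import Pool.Agent.Lib.MP_2c79a0_ag.ProdB

/-!
The Serre product on an unramified double cover of a localisation of affine space.
-/

open scoped TensorProduct

noncomputable section

namespace Pool.Agent.Lib.MP_2c79a0_ag

open Algebra

namespace Prod

variable {n : ℕ} {R : Type} [CommRing R] [Algebra ℂ R]

lemma coeff_eq (hD : DimStmt) (hC : CycStmt) (hS : SerreStmt) [FiniteType ℂ R] (T : TorusData n R)
    {p q z : PrimeSpectrum R} (hz : z.asIdeal ∈ (p.asIdeal ⊔ q.asIdeal).minimalPrimes)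
    (hd : dm z + n = dm p + dm q) (A : Type) [CommRing A] [Algebra R A]
    [IsLocalization.AtPrime A z.asIdeal] :
    dg T (cross p q) z =
      serreRing A (p.asIdeal.map (algebraMap R A)) (q.asIdeal.map (algebraMap R A)) := by
  have hpz : p ≤ z := le_sup_left.trans hz.1.2
  obtain ⟨B, _, _, _, ψ, hl, hk, hp, hZ, hfl, hreg⟩ := exists_loc T p z hpz
  have hR := hC.2.2.2.1 _ B ψ hl
  have := hR.1
  have : IsNoetherianRing R := Algebra.FiniteType.isNoetherianRing ℂ R
  have : IsNoetherianRing A := IsLocalization.isNoetherianRing z.asIdeal.primeCompl A inferInstance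
  have hu : ∀ k, IsUnit (ψ k) ↔ mu R k ∉ z.asIdeal := by
    intro k
    rw [← mem_cm, ← hZ, mem_cm]
    exact (IsLocalRing.notMem_maximalIdeal).symm
  have hy : ∀ y : z.asIdeal.primeCompl, IsUnit ((ψ.comp (inr R) : R →+* B) y) := fun y =>
    (hu (inr R y)).2 (by rw [mu_inr]; exact y.2)
  obtain ⟨α, hα0⟩ : ∃ α : A →+* B, ∀ r, α (algebraMap R A r) = ψ (inr R r) :=
    ⟨IsLocalization.lift hy, fun r => IsLocalization.lift_eq hy r⟩
  let := (ψ.comp (inr R) : R →+* B).toAlgebra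
  let := α.toAlgebra
  have hα : ∀ r, algebraMap A B (algebraMap R A r) = ψ (inr R r) := hα0
  have : IsScalarTower R A B := IsScalarTower.of_algebraMap_eq fun r => (hα r).symm
  have : Module.Flat A B :=
    (Module.flat_iff_of_isLocalization A z.asIdeal.primeCompl B).2 hfl
  have hI : Ideal.ofList ((fs T).map ψ) = (Ideal.ofList (fs T)).map (ψ : R ⊗[ℂ] R →+* B) := by
    rw [Ideal.map_ofList, RingHom.coe_coe]
  have hcong : ∀ k, ψ k - algebraMap A B (algebraMap R A (mu R k)) ∈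
      Ideal.ofList ((fs T).map ψ) := by
    intro k
    have h1 := Ideal.mem_map_of_mem (ψ : R ⊗[ℂ] R →+* B) (diag T k)
    rw [← hI, RingHom.coe_coe, map_mul, Ideal.unit_mul_mem_iff_mem _ ((hu _).2 fun h =>
      z.2.ne_top (Ideal.eq_top_of_isUnit_mem _ h (mu_unit T))), map_sub] at h1
    rwa [hα]
  have hpI : ∀ r ∈ p.asIdeal, ψ (inr R r) ∈ Ideal.ofList ((fs T).map ψ) := by
    intro r hr
    have h1 := hcong (inl R r)
    rwa [hp r hr, zero_sub, neg_mem_iff, mu_inl, hα] at h1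
  have hJ : (q.asIdeal.map (algebraMap R A)).map (algebraMap A B) =
      (xi p q).map (ψ : R ⊗[ℂ] R →+* B) := by
    have h1 : (p.asIdeal.map (inl R : R →+* R ⊗[ℂ] R)).map (ψ : R ⊗[ℂ] R →+* B) = ⊥ := by
      rw [Ideal.map_map, Ideal.map_eq_bot_iff_le_ker]
      exact hp
    rw [xi, Ideal.map_sup, h1, bot_sup_eq, Ideal.map_map, Ideal.map_map]
    congr 1
    exact RingHom.ext hα
  have h1 := hS A B ((fs T).map ψ) (p.asIdeal.map (algebraMap R A))
    (q.asIdeal.map (algebraMap R A)) hreg ?_ ?_ ?_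
  · rw [h1, dg_apply, ← hZ, ← res_apply ψ hl, res_Gs hC ψ hl hk _ _ fun P hP =>
      le_sup_left.trans (cross_ne hC hP).2, cross, hR.2.2.1 (xi p q) _ (kerLE_mono hk le_sup_left), hJ,
      List.length_map, length_fs, ← hD.2.2.2.1 _ _ ψ hl, hZ, hD.2.2.2.1 _ _ _ locSurj_mu, hd]
  · intro b
    obtain ⟨b, rfl⟩ := Ideal.Quotient.mk_surjective b
    obtain ⟨a, s, hs, e⟩ := hl b
    obtain ⟨v, hv⟩ := (IsLocalization.map_units A
      (⟨mu R s, (hu s).1 hs⟩ : z.asIdeal.primeCompl)).exists_right_inv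
    refine ⟨algebraMap R A (mu R a) * v, ?_⟩
    have e1 := Ideal.Quotient.eq.2 (hcong a)
    have e2 := Ideal.Quotient.eq.2 (hcong s)
    have e3 := congrArg (fun x => Ideal.Quotient.mk (Ideal.ofList ((fs T).map ψ))
      (algebraMap A B x)) hv
    simp only [map_mul, map_one] at e3
    rw [RingHom.comp_apply, map_mul, map_mul, ← e1, ← e, map_mul, e2, mul_assoc, e3, mul_one]
  · apply le_antisymm
    · rw [Ideal.map_le_iff_le_comap]
      intro r hr
      rw [Ideal.mem_comap, Ideal.mem_comap, hα]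
      exact hpI r hr
    · intro a ha
      obtain ⟨⟨r, u⟩, e⟩ := IsLocalization.surj z.asIdeal.primeCompl a
      have h2 : ψ (inr R r) ∈ (Ideal.ofList (fs T) ⊔
          p.asIdeal.map (inl R : R →+* R ⊗[ℂ] R)).map (ψ : R ⊗[ℂ] R →+* B) := by
        refine Ideal.map_mono le_sup_left ?_
        rw [← hI, ← hα, ← e, map_mul]
        exact Ideal.mul_mem_right _ _ ha
      obtain ⟨s, hs, h3⟩ := mem_map_loc hl (kerLE_mono hk le_sup_right) h2
      have h4 : Ideal.ofList (fs T) ⊔ p.asIdeal.map (inl R : R →+* R ⊗[ℂ] R) ≤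
          (cm (mu R) p).asIdeal := by
        refine sup_le (fun k hk => ?_) (Ideal.map_le_iff_le_comap.2 fun k hk => ?_)
        · rw [mem_cm, mu_fs T hk]
          exact Ideal.zero_mem _
        · rwa [Ideal.mem_comap, mem_cm, RingHom.coe_coe, mu_inl]
      have h5 := h4 h3
      rw [mem_cm, map_mul, mu_inr] at h5
      have h6 : r ∈ p.asIdeal := (p.2.mem_or_mem h5).resolve_left fun h => (hu s).1 hs (hpz h)
      rw [← Ideal.mul_unit_mem_iff_mem _ (IsLocalization.map_units A u), e]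
      exact Ideal.mem_map_of_mem _ h6
  · intro P hP1 hP2
    have h2 : P ≤ IsLocalRing.closedPoint B := IsLocalRing.le_maximalIdeal P.2.ne_top
    have h3 : z.asIdeal ≤ (cm (ψ.comp (inr R)) P).asIdeal := by
      refine hz.2 ⟨(cm _ P).2, sup_le (fun r hr => hP2 (hpI r hr)) fun r hr => ?_⟩ fun r hr => ?_
      · rw [mem_cm, AlgHom.comp_apply, ← hα]
        exact hP1 (Ideal.mem_map_of_mem _ (Ideal.mem_map_of_mem _ hr))
      · have h4 : inr R r ∈ (cm ψ (IsLocalRing.closedPoint B)).asIdeal := h2 hr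
        rwa [hZ, mem_cm, mu_inr] at h4
    refine le_antisymm h2 ((hl.cm_le_iff _ _).1 fun k hk => ?_)
    rw [hZ] at hk
    have h4 : ψ (inr R (mu R k)) ∈ P.asIdeal := h3 hk
    have h5 := P.asIdeal.add_mem (hP2 (hcong k)) (hα _ ▸ h4)
    rwa [sub_add_cancel] at h5

end Prod

theorem prodStmt (hD : DimStmt) (hC : CycStmt) (hK : KeyStmt) (hA : AffStmt) (hS : SerreStmt) :
    ProdStmt := by
  intro n R _ _ _ _ T p q hp hq
  exact ⟨Prod.dg T (Prod.cross p q), Prod.dg_cross_rat hD hC hK hA T hp hq, fun z =>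
    ⟨Prod.dg_ne hD hC T, fun hz hd A _ _ _ => Prod.coeff_eq hD hC hS T hz hd A⟩⟩

end Pool.Agent.Lib.MP_2c79a0_ag
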