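import Pool.Agent.Lib.MP_2c79a0_ag.Cyc

/-!
Algebra of an unramified double cover of a localisation of affine space.
-/

open scoped TensorProduct

noncomputable section

namespace Pool.Agent.Lib.MP_2c79a0_ag.Prod

open MvPolynomial Algebra

variable {n : ℕ} {R : Type} [CommRing R] [Algebra ℂ R]

/-- the map from the polynomial ring -/
abbrev ph (T : TorusData n R) : MvPolynomial (Fin n) ℂ →ₐ[ℂ] R := aeval T.x

/-- the left inclusion -/
abbrev inl (R : Type) [CommRing R] [Algebra ℂ R] : R →ₐ[ℂ] R ⊗[ℂ] R :=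
  Algebra.TensorProduct.includeLeft

/-- the right inclusion -/
abbrev inr (R : Type) [CommRing R] [Algebra ℂ R] : R →ₐ[ℂ] R ⊗[ℂ] R :=
  Algebra.TensorProduct.includeRight

/-- the multiplication map -/
abbrev mu (R : Type) [CommRing R] [Algebra ℂ R] : R ⊗[ℂ] R →ₐ[ℂ] R :=
  Algebra.TensorProduct.lmul' ℂ

/-- the equations of the diagonal -/
def fs (T : TorusData n R) : List (R ⊗[ℂ] R) :=
  List.ofFn fun i => inl R (T.x i) - inr R (T.x i)

lemma length_fs (T : TorusData n R) : (fs T).length = n := by simp [fs]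

lemma iota_ph (T : TorusData n R) (a : MvPolynomial (Fin n) ℂ) : T.ι (ph T a) = ph T a := by
  have : (T.ι : R →ₐ[ℂ] R).comp (ph T) = ph T := by
    ext i
    simp [T.fix]
  exact AlgHom.congr_fun this a

lemma decomp (T : TorusData n R) (r : R) :
    ∃ a b, T.ι a = a ∧ T.ι b = b ∧ r = a + b * T.w := by
  obtain ⟨v, hv⟩ := T.unit.exists_right_inv
  have h1 : T.ι v = -v := by
    have h2 := congrArg T.ι hv
    rw [map_mul, T.neg, map_one] at h2
    linear_combination (-v) * h2 - (T.ι v) * hv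
  refine ⟨(1 / 2 : ℂ) • (r + T.ι r), (1 / 2 : ℂ) • ((r - T.ι r) * v), ?_, ?_, ?_⟩
  · rw [map_smul, map_add, T.invol, add_comm]
  · rw [map_smul, map_mul, map_sub, T.invol, h1]
    congr 1
    ring
  · rw [smul_mul_assoc, ← smul_add, mul_assoc, mul_comm v, hv, mul_one, add_add_sub_cancel,
      ← two_smul ℂ r, smul_smul]
    norm_num

lemma two_unit (R : Type) [CommRing R] [Algebra ℂ R] : IsUnit (2 : R) := by
  have := (IsUnit.mk0 (2 : ℂ) two_ne_zero).map (algebraMap ℂ R)
  rwa [map_ofNat] at this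

/-- the elements of the polynomial ring that become units -/
def den (T : TorusData n R) : Submonoid (MvPolynomial (Fin n) ℂ) :=
  (IsUnit.submonoid R).comap (ph T)

/-- the map from the localisation -/
def ph1 (T : TorusData n R) : Localization (den T) →ₐ[ℂ] R :=
  IsLocalization.liftAlgHom (M := den T) (f := ph T) fun y => y.2

lemma ph1_alg (T : TorusData n R) (a : MvPolynomial (Fin n) ℂ) :
    ph1 T (algebraMap _ _ a) = ph T a := by
  simp [ph1]

lemma ph1_spec (T : TorusData n R) (l : Localization (den T)) :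
    ∃ a s, IsUnit (ph T s) ∧ l * algebraMap _ _ s = algebraMap _ _ a ∧
      ph1 T l * ph T s = ph T a := by
  obtain ⟨⟨a, s⟩, h⟩ := IsLocalization.surj (den T) l
  exact ⟨a, s, s.2, h, by rw [← ph1_alg, ← ph1_alg, ← map_mul, h]⟩

lemma ph1_fix (T : TorusData n R) (l : Localization (den T)) : T.ι (ph1 T l) = ph1 T l := by
  obtain ⟨a, s, hs, -, h⟩ := ph1_spec T l
  have h1 := congrArg T.ι h
  rw [map_mul, iota_ph, iota_ph, ← h] at h1
  exact hs.mul_right_cancel h1

lemma ph1_zero (T : TorusData n R) (l : Localization (den T)) (h0 : ph1 T l = 0) : l = 0 := by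
  obtain ⟨a, s, hs, h1, h⟩ := ph1_spec T l
  rw [h0, zero_mul] at h
  have h2 : a = 0 := T.inj (by rw [map_zero]; exact h.symm)
  rw [h2, map_zero] at h1
  exact (IsLocalization.map_units (Localization (den T)) (⟨s, hs⟩ : den T)).mul_left_eq_zero.1 h1

lemma ph1_surj (T : TorusData n R) (r : R) (hr : T.ι r = r) : ∃ l, ph1 T l = r := by
  obtain ⟨a, s, hs, h⟩ := T.frac r hr
  refine ⟨IsLocalization.mk' _ a (⟨s, hs⟩ : den T), hs.mul_right_cancel ?_⟩
  rw [h, ← ph1_alg T s, ← map_mul]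
  exact (congrArg (ph1 T) (IsLocalization.mk'_spec _ a (⟨s, hs⟩ : den T))).trans (ph1_alg T a)

lemma ph1_props (T : TorusData n R) :
    (ph1 T : Localization (den T) →+* R).Flat ∧ (ph1 T : Localization (den T) →+* R).IsIntegral := by
  let := (ph1 T : Localization (den T) →+* R).toAlgebra
  let f : (Localization (den T) × Localization (den T)) →ₗ[Localization (den T)] R :=
    LinearMap.coprod (Algebra.linearMap _ R) (LinearMap.toSpanSingleton _ R T.w)
  have hf : ∀ a b, f (a, b) = ph1 T a + ph1 T b * T.w := fun a b => rfl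
  have h1 : Function.Bijective f := by
    constructor
    · rw [injective_iff_map_eq_zero]
      rintro ⟨a, b⟩ h
      rw [hf] at h
      have h2 := congrArg T.ι h
      rw [map_add, map_mul, ph1_fix, ph1_fix, T.neg, map_zero] at h2
      have h3 : 2 * ph1 T a = 0 := by linear_combination h + h2
      have h4 : ph1 T a = 0 := (two_unit R).mul_right_eq_zero.1 h3
      rw [h4, zero_add] at h
      rw [ph1_zero T a h4, ph1_zero T b (T.unit.mul_left_eq_zero.1 h)]
      rfl
    · intro r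
      obtain ⟨a, b, ha, hb, rfl⟩ := decomp T r
      obtain ⟨a, rfl⟩ := ph1_surj T a ha
      obtain ⟨b, rfl⟩ := ph1_surj T b hb
      exact ⟨(a, b), hf a b⟩
  let e := LinearEquiv.ofBijective f h1
  have : Module.Finite (Localization (den T)) R := Module.Finite.equiv e
  exact ⟨Module.Flat.of_linearEquiv e.symm, fun r => Algebra.IsIntegral.isIntegral r⟩

lemma ph_eq (T : TorusData n R) :
    (ph1 T).comp (IsScalarTower.toAlgHom ℂ _ (Localization (den T))) = ph T :=
  AlgHom.ext fun a => ph1_alg T a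

lemma ph_flat (T : TorusData n R) : (ph T : MvPolynomial (Fin n) ℂ →+* R).Flat := by
  rw [← ph_eq]
  exact RingHom.Flat.comp
    (RingHom.flat_algebraMap_iff.2 (IsLocalization.flat (Localization (den T)) (den T)))
    (ph1_props T).1

lemma locSurj_loc {S : Type} [CommRing S] [Algebra ℂ S] (M : Submonoid S) (L : Type) [CommRing L]
    [Algebra S L] [Algebra ℂ L] [IsScalarTower ℂ S L] [IsLocalization M L] :
    LocSurj (IsScalarTower.toAlgHom ℂ S L) := by
  intro l
  obtain ⟨⟨a, s⟩, h⟩ := IsLocalization.surj M l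
  exact ⟨a, s, IsLocalization.map_units L s, h⟩

lemma locSurj_surj {S L : Type} [CommRing S] [Algebra ℂ S] [CommRing L] [Algebra ℂ L]
    {φ : S →ₐ[ℂ] L} (h : Function.Surjective φ) : LocSurj φ := by
  intro l
  obtain ⟨a, rfl⟩ := h l
  exact ⟨a, 1, by simp, by simp⟩

lemma dm_ph (hD : DimStmt) (T : TorusData n R) (Z : PrimeSpectrum R) : dm (cm (ph T) Z) = dm Z := by
  rw [← hD.2.2.2.2.1 _ _ (ph1 T) (ph1_props T).2 Z,
    ← hD.2.2.2.1 _ _ _ (locSurj_loc (den T) (Localization (den T))) (cm (ph1 T) Z), ← ph_eq]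
  rfl

lemma norm_mem (T : TorusData n R) (r : R) :
    ∃ a s, IsUnit (ph T s) ∧ r * T.ι r * ph T s = ph T a :=
  T.frac _ (by rw [map_mul, T.invol, mul_comm])

lemma diag (T : TorusData n R) (k : R ⊗[ℂ] R) :
    (inl R T.w + inr R T.w) * (k - inr R (mu R k)) ∈ Ideal.ofList (fs T) := by
  let π := Ideal.Quotient.mkₐ ℂ (Ideal.ofList (fs T))
  let l := π.comp (inl R)
  let r := π.comp (inr R)
  have h1 : l.comp (ph T) = r.comp (ph T) := by
    ext i
    simp only [AlgHom.comp_apply, aeval_X, l, r, π, Ideal.Quotient.mkₐ_eq_mk, Ideal.Quotient.eq]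
    exact Ideal.subset_span (List.mem_ofFn.2 ⟨i, rfl⟩)
  have h2 : ∀ b, T.ι b = b → l b = r b := by
    intro b hb
    obtain ⟨a, s, hs, h⟩ := T.frac b hb
    refine (hs.map l).mul_right_cancel ?_
    rw [← map_mul, h]
    have e1 := AlgHom.congr_fun h1 s
    have e2 := AlgHom.congr_fun h1 a
    simp only [AlgHom.comp_apply] at e1 e2
    rw [e1, e2, ← map_mul, h]
  have h3 : ∀ b, (l T.w + r T.w) * (l b - r b) = 0 := by
    intro b
    obtain ⟨a, c, ha, hc, rfl⟩ := decomp T b
    have h4 := h2 (T.w * T.w) (by rw [map_mul, T.neg]; ring)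
    rw [map_mul, map_mul] at h4
    rw [map_add, map_add, map_mul, map_mul, h2 a ha, h2 c hc]
    linear_combination r c * h4
  rw [← Ideal.Quotient.eq_zero_iff_mem]
  change π _ = 0
  rw [map_mul, map_add, map_sub]
  change (l T.w + r T.w) * (π k - r (mu R k)) = 0
  induction k using TensorProduct.induction_on with
  | zero => simp
  | tmul a b =>
    have h5 : π (a ⊗ₜ b) = l a * r b := by
      simp only [l, r, AlgHom.comp_apply, ← map_mul]
      simp
    rw [h5, Algebra.TensorProduct.lmul'_apply_tmul, map_mul]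
    linear_combination r b * h3 a
  | add x y hx hy =>
    rw [map_add, map_add, map_add]
    linear_combination hx + hy

lemma mu_inl (r : R) : mu R (inl R r) = r := by simp

lemma mu_inr (r : R) : mu R (inr R r) = r := by simp

lemma mu_unit (T : TorusData n R) : IsUnit (mu R (inl R T.w + inr R T.w)) := by
  rw [map_add, mu_inl, mu_inr, ← two_mul]
  exact (two_unit R).mul T.unit

lemma mu_fs (T : TorusData n R) {k : R ⊗[ℂ] R} (hk : k ∈ Ideal.ofList (fs T)) : mu R k = 0 := by
  have : Ideal.ofList (fs T) ≤ RingHom.ker (mu R) := by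
    rw [Ideal.span_le]
    intro f hf
    obtain ⟨i, rfl⟩ := List.mem_ofFn.1 hf
    simp
  exact this hk

lemma kerLE_mu (T : TorusData n R) : KerLE (mu R) (Ideal.ofList (fs T)) := by
  intro k hk
  refine ⟨_, mu_unit T, ?_⟩
  simpa [hk] using diag T k

lemma locSurj_mu : LocSurj (mu R) := locSurj_surj fun r => ⟨inl R r, mu_inl r⟩

lemma reg_X (A : Type) [CommRing A] (n : ℕ) :
    RingTheory.Sequence.IsWeaklyRegular (MvPolynomial (Fin n) A)
      (List.ofFn fun i : Fin n => (X i : MvPolynomial (Fin n) A)) := by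
  classical
  refine ⟨fun i hi => ?_⟩
  have hi' : i < n := by simpa using hi
  have h1 : Ideal.ofList ((List.ofFn fun i : Fin n => (X i : MvPolynomial (Fin n) A)).take i) =
      Ideal.span (X '' {j : Fin n | j.1 < i}) := by
    unfold Ideal.ofList
    congr 1
    ext f
    simp only [Set.mem_ofPred_eq, List.mem_take_iff_getElem, List.getElem_ofFn, List.length_ofFn,
      Set.mem_image]
    constructor
    · rintro ⟨j, hj, rfl⟩
      exact ⟨⟨j, by omega⟩, by change j < i; omega, rfl⟩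
    · rintro ⟨j, hj, rfl⟩
      exact ⟨j.1, by have := j.2; omega, rfl⟩
  rw [isSMulRegular_quotient_iff_mem_of_smul_mem, h1, smul_eq_mul, Ideal.mul_top]
  intro F hF
  rw [mem_ideal_span_X_image] at hF ⊢
  intro m hm
  obtain ⟨j, hj, h⟩ := hF (Finsupp.single ⟨i, hi'⟩ 1 + m) (by
    rw [mem_support_iff] at hm ⊢
    rwa [List.getElem_ofFn, smul_eq_mul, coeff_X_mul])
  refine ⟨j, hj, ?_⟩
  have h2 : (⟨i, hi'⟩ : Fin n) ≠ j := by
    rintro rfl
    simp at hj
  simpa [Finsupp.single_eq_of_ne' h2] using h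

lemma flat_quot {S D : Type} [CommRing S] [Algebra ℂ S] [CommRing D] [Algebra ℂ D]
    (φ : R →ₐ[ℂ] S) (g : S →ₐ[ℂ] D) (hg : Function.Surjective g) (I : Ideal S)
    (hI : RingHom.ker g = I) (h : (g.comp φ : R →+* D).Flat) :
    ((Ideal.Quotient.mk I).comp (φ : R →+* S)).Flat := by
  subst hI
  rw [← RingHom.Flat.comp_iff_of_bijective_left
    (g := (Ideal.quotientKerAlgEquivOfSurjective hg).toAlgHom.toRingHom)
    (Ideal.quotientKerAlgEquivOfSurjective hg).bijective]
  exact h

lemma flat_inl (D : Type) [CommRing D] [Algebra ℂ D] :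
    ((Algebra.TensorProduct.includeLeft : R →ₐ[ℂ] R ⊗[ℂ] D) : R →+* R ⊗[ℂ] D).Flat :=
  RingHom.flat_algebraMap_iff.2 (inferInstanceAs (Module.Flat R (R ⊗[ℂ] D)))

lemma flat_inr (D : Type) [CommRing D] [Algebra ℂ D] :
    ((Algebra.TensorProduct.includeRight : R →ₐ[ℂ] D ⊗[ℂ] R) : R →+* D ⊗[ℂ] R).Flat := by
  have h := RingHom.Flat.comp (flat_inl (R := R) D) (RingHom.Flat.of_bijective
    (f := (Algebra.TensorProduct.comm ℂ R D).toAlgHom.toRingHom)
    (Algebra.TensorProduct.comm ℂ R D).bijective)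
  convert h using 1
  ext r
  simp

lemma flat_left (q : Ideal R) :
    ((Ideal.Quotient.mk (q.map (inr R : R →+* R ⊗[ℂ] R))).comp (inl R : R →+* R ⊗[ℂ] R)).Flat := by
  refine flat_quot (inl R) (Algebra.TensorProduct.map (AlgHom.id ℂ R) (Ideal.Quotient.mkₐ ℂ q))
    (Algebra.TensorProduct.map_surjective _ _ Function.surjective_id
      (Ideal.Quotient.mkₐ_surjective ℂ q)) _ ?_ ?_
  · rw [Algebra.TensorProduct.lTensor_ker _ (Ideal.Quotient.mkₐ_surjective ℂ q)]
    exact congrArg (Ideal.map _) Ideal.mk_ker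
  · rw [Algebra.TensorProduct.map_comp_includeLeft]
    exact flat_inl _

lemma ker_right (p : Ideal R) :
    RingHom.ker (Algebra.TensorProduct.map (Ideal.Quotient.mkₐ ℂ p) (AlgHom.id ℂ R)) =
      p.map (inl R : R →+* R ⊗[ℂ] R) := by
  rw [Algebra.TensorProduct.rTensor_ker _ (Ideal.Quotient.mkₐ_surjective ℂ p)]
  exact congrArg (Ideal.map _) Ideal.mk_ker

lemma flat_right (p : Ideal R) :
    ((Ideal.Quotient.mk (p.map (inl R : R →+* R ⊗[ℂ] R))).comp (inr R : R →+* R ⊗[ℂ] R)).Flat := by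
  refine flat_quot (inr R) (Algebra.TensorProduct.map (Ideal.Quotient.mkₐ ℂ p) (AlgHom.id ℂ R))
    (Algebra.TensorProduct.map_surjective _ _ (Ideal.Quotient.mkₐ_surjective ℂ p)
      Function.surjective_id) _ (ker_right p) ?_
  rw [Algebra.TensorProduct.map_comp_includeRight]
  exact flat_inr _

lemma reg_tensor (T : TorusData n R) (A : Type) [CommRing A] [Algebra ℂ A] (t : Fin n → A) :
    RingTheory.Sequence.IsWeaklyRegular (A ⊗[ℂ] R)
      (List.ofFn fun i => t i ⊗ₜ[ℂ] (1 : R) - (1 : A) ⊗ₜ[ℂ] T.x i) := by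
  let σ : MvPolynomial (Fin n) A →ₐ[A] MvPolynomial (Fin n) A := aeval fun i => C (t i) - X i
  have hσ : σ.comp σ = AlgHom.id A _ := by
    ext1 i
    simp [σ]
  have hb : Function.Bijective σ :=
    Function.Involutive.bijective fun a => AlgHom.congr_fun hσ a
  let e := (algebraTensorAlgEquiv (σ := Fin n) ℂ A).symm
  let g := Algebra.TensorProduct.map (AlgHom.id A A) (ph T)
  have hg : g.toRingHom.Flat :=
    RingHom.Flat.tensorProductMap (RingHom.Flat.id A) (ph_flat T)
  have h := ((RingHom.Flat.of_bijective (f := σ.toRingHom) hb).comp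
    (RingHom.Flat.of_bijective (f := e.toAlgHom.toRingHom) e.bijective)).comp hg
  let := (g.toRingHom.comp (e.toAlgHom.toRingHom.comp σ.toRingHom)).toAlgebra
  have : Module.Flat (MvPolynomial (Fin n) A) (A ⊗[ℂ] R) := h
  have h1 := (reg_X A n).of_flat (S := A ⊗[ℂ] R)
  rw [List.map_ofFn] at h1
  have h3 : (fun i => t i ⊗ₜ[ℂ] (1 : R) - (1 : A) ⊗ₜ[ℂ] T.x i) =
      (algebraMap (MvPolynomial (Fin n) A) (A ⊗[ℂ] R)) ∘ fun i => X i := by
    funext i
    change _ = g (e (σ (X i)))
    have h2 : e (C (t i)) = t i ⊗ₜ 1 := by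
      rw [← algebraMap_eq, AlgEquiv.commutes]
      rfl
    simp only [σ, aeval_X, map_sub, h2]
    simp [e, g]
  rw [h3]
  exact h1

lemma exists_loc_aux {S D : Type} [CommRing S] [Algebra ℂ S] [CommRing D] [Algebra ℂ D]
    (g : S →ₐ[ℂ] D) (hg : Function.Surjective g) (Z : PrimeSpectrum S)
    (hk : RingHom.ker g ≤ Z.asIdeal) :
    ∃ (B : Type) (_ : CommRing B) (_ : Algebra ℂ B) (_ : IsLocalRing B) (j : D →ₐ[ℂ] B),
      (j : D →+* B).Flat ∧ LocSurj (j.comp g) ∧ KerLE (j.comp g) (RingHom.ker g) ∧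
      cm (j.comp g) (IsLocalRing.closedPoint B) = Z := by
  have hZ : (Z.asIdeal.map g).IsPrime := Ideal.map_isPrime_of_surjective hg hk
  have hc : (Z.asIdeal.map g).comap g = Z.asIdeal := by
    rw [Ideal.comap_map_of_surjective g hg, sup_eq_left]
    exact hk
  refine ⟨Localization.AtPrime (Z.asIdeal.map g), inferInstance, inferInstance, inferInstance,
    IsScalarTower.toAlgHom ℂ D _, RingHom.flat_algebraMap_iff.2
      (IsLocalization.flat _ (Z.asIdeal.map g).primeCompl), ?_, ?_, ?_⟩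
  · intro b
    obtain ⟨a, s, hs, h⟩ := locSurj_loc (Z.asIdeal.map g).primeCompl _ b
    obtain ⟨a, rfl⟩ := hg a
    obtain ⟨s, rfl⟩ := hg s
    exact ⟨a, s, hs, h⟩
  · intro k hk
    obtain ⟨⟨s, hs⟩, h⟩ := (IsLocalization.map_eq_zero_iff
      (Z.asIdeal.map g).primeCompl (Localization.AtPrime (Z.asIdeal.map g)) (g k)).1 hk
    obtain ⟨s, rfl⟩ := hg s
    refine ⟨s, IsLocalization.map_units _ (⟨g s, hs⟩ : (Z.asIdeal.map g).primeCompl), ?_⟩
    rw [RingHom.mem_ker, map_mul]
    exact h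
  · ext k
    exact (IsLocalization.AtPrime.to_map_mem_maximal_iff
      (Localization.AtPrime (Z.asIdeal.map g)) (Z.asIdeal.map g) (g k)).trans
      (SetLike.ext_iff.1 hc k)

/-- the local ring of `V(p) × Spec R` at the diagonal point `z` -/
lemma exists_loc (T : TorusData n R) (p z : PrimeSpectrum R) (hpz : p ≤ z) :
    ∃ (B : Type) (_ : CommRing B) (_ : Algebra ℂ B) (_ : IsLocalRing B) (ψ : R ⊗[ℂ] R →ₐ[ℂ] B),
      LocSurj ψ ∧ KerLE ψ (p.asIdeal.map (inl R : R →+* R ⊗[ℂ] R)) ∧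
      (∀ r ∈ p.asIdeal, ψ (inl R r) = 0) ∧ cm ψ (IsLocalRing.closedPoint B) = cm (mu R) z ∧
      (ψ.comp (inr R) : R →+* B).Flat ∧
      RingTheory.Sequence.IsWeaklyRegular B ((fs T).map ψ) := by
  let g := Algebra.TensorProduct.map (Ideal.Quotient.mkₐ ℂ p.asIdeal) (AlgHom.id ℂ R)
  have hg : Function.Surjective g := Algebra.TensorProduct.map_surjective _ _
    (Ideal.Quotient.mkₐ_surjective ℂ p.asIdeal) Function.surjective_id
  have hk : RingHom.ker g ≤ (cm (mu R) z).asIdeal := by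
    rw [ker_right, Ideal.map_le_iff_le_comap]
    intro r hr
    change mu R (inl R r) ∈ z.asIdeal
    rw [mu_inl]
    exact hpz hr
  obtain ⟨B, _, _, _, j, h1, h2, h3, h4⟩ := exists_loc_aux g hg (cm (mu R) z) hk
  refine ⟨B, inferInstance, inferInstance, inferInstance, j.comp g, h2, ker_right p.asIdeal ▸ h3,
    ?_, h4, ?_, ?_⟩
  · intro r hr
    have : g (inl R r) = 0 := by
      rw [← RingHom.mem_ker, ker_right]
      exact Ideal.mem_map_of_mem _ hr
    rw [AlgHom.comp_apply, this, map_zero]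
  · have h5 : g.comp (inr R) = Algebra.TensorProduct.includeRight :=
      Algebra.TensorProduct.map_comp_includeRight _ _
    rw [AlgHom.comp_assoc, h5]
    exact (flat_inr _).comp h1
  · let := j.toRingHom.toAlgebra
    have : Module.Flat ((R ⧸ p.asIdeal) ⊗[ℂ] R) B := h1
    have h5 := (reg_tensor T (R ⧸ p.asIdeal) fun i => Ideal.Quotient.mk _ (T.x i)).of_flat (S := B)
    rw [List.map_ofFn] at h5
    rw [fs, List.map_ofFn]
    have h6 : (j.comp g) ∘ (fun i => inl R (T.x i) - inr R (T.x i)) =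
        algebraMap ((R ⧸ p.asIdeal) ⊗[ℂ] R) B ∘ fun i =>
          Ideal.Quotient.mk p.asIdeal (T.x i) ⊗ₜ[ℂ] (1 : R) - (1 : R ⧸ p.asIdeal) ⊗ₜ[ℂ] T.x i := by
      funext i
      change j (g _) = j _
      simp [g]
    rw [h6]
    exact h5

end Pool.Agent.Lib.MP_2c79a0_ag.Prod
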