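import Pool.Agent.Lib.MP_2c79a0_ag.ProdA
import Pool.Agent.Lib.MP_2c79a0_ag.Once

/-!
Intersection with the diagonal on an unramified double cover of a localisation of affine space.
-/

open scoped TensorProduct

noncomputable section

namespace Pool.Agent.Lib.MP_2c79a0_ag

open Algebra

namespace Prod

section General

variable {S : Type} [CommRing S] [Algebra ℂ S]

lemma ratOn_anti {I J : Ideal S} (h : I ≤ J) : RatOn J ≤ RatOn I :=
  Submodule.span_mono fun _ ⟨w, a, hw, e⟩ => ⟨w, a, h.trans hw, e⟩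

lemma dm_anti (hD : DimStmt) [EssFiniteType ℂ S] {p q : PrimeSpectrum S} (h : p ≤ q) :
    dm q ≤ dm p := by
  rcases h.eq_or_lt with rfl | h
  · exact le_rfl
  · exact (hD.1 S p q h).le

lemma eq_of_dm (hD : DimStmt) [EssFiniteType ℂ S] {p q : PrimeSpectrum S} (h : p ≤ q)
    (e : dm q = dm p) : p = q := by
  rcases h.eq_or_lt with rfl | h
  · rfl
  · exact absurd e (hD.1 S p q h).ne

lemma G_single (a : S) (w : PrimeSpectrum S) : G a (Finsupp.single w 1) = dv w a := by simp [G]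

lemma G_ne (hC : CycStmt) [EssFiniteType ℂ S] {a : S} {c : Cyc S} {z : PrimeSpectrum S}
    (h : G a c z ≠ 0) : ∃ w, c w ≠ 0 ∧ w < z ∧ dm z + 1 = dm w := by
  by_contra hcon
  apply h
  rw [G, Finsupp.linearCombination_apply, Finsupp.sum_apply]
  refine Finset.sum_eq_zero fun w hw => ?_
  change c w * dv w a z = 0
  rw [mul_eq_zero]
  right
  by_contra h1
  obtain ⟨h2, -, -, h3⟩ := (hC.2.1 S w).1 a z h1
  exact hcon ⟨w, Finsupp.mem_support_iff.1 hw, h2, h3⟩

lemma Gs_ne (hC : CycStmt) [EssFiniteType ℂ S] (l : List S) : ∀ {c : Cyc S} {z : PrimeSpectrum S},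
    Gs l c z ≠ 0 → ∃ w, c w ≠ 0 ∧ w ≤ z ∧ dm z + l.length = dm w := by
  induction l with
  | nil => exact fun h => ⟨_, h, le_rfl, rfl⟩
  | cons a l ih =>
    intro c z h
    obtain ⟨w, h1, h2, h3⟩ := ih (c := G a c) h
    obtain ⟨v, h4, h5, h6⟩ := G_ne hC h1
    exact ⟨v, h4, h5.le.trans h2, by rw [List.length_cons]; omega⟩

lemma Gs_rat (hK : KeyStmt) [FiniteType ℂ S] (l : List S) : ∀ (J : Ideal S) (c : Cyc S),
    c ∈ RatOn J → Gs l c ∈ RatOn (J ⊔ Ideal.ofList l) := by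
  induction l with
  | nil => exact fun J c h => by simpa [Gs] using h
  | cons a l ih =>
    intro J c h
    rw [Ideal.ofList_cons, ← sup_assoc]
    refine ih _ (G a c) ?_
    have h1 : RatOn J ≤ (RatOn (J ⊔ Ideal.span {a})).comap (G a) := by
      rw [RatOn, Submodule.span_le]
      rintro _ ⟨w, b, hw, rfl⟩
      exact ratOn_anti (sup_le_sup_right hw _) (hK S w b a)
    exact h1 h

lemma kerLE_mono {R : Type} [CommRing R] [Algebra ℂ R] {φ : S →ₐ[ℂ] R} {I J : Ideal S}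
    (h : KerLE φ I) (hIJ : I ≤ J) : KerLE φ J := fun k hk => by
  obtain ⟨s, h1, h2⟩ := h k hk
  exact ⟨s, h1, hIJ h2⟩

lemma res_Gs (hC : CycStmt) [EssFiniteType ℂ S] {R : Type} [CommRing R] [Algebra ℂ R]
    (φ : S →ₐ[ℂ] R) (h : LocSurj φ) {I : Ideal S} (hI : KerLE φ I) (l : List S) :
    ∀ c : Cyc S, (∀ p, c p ≠ 0 → I ≤ p.asIdeal) →
      res φ h (Gs l c) = Gs (l.map φ) (res φ h c) := by
  induction l with
  | nil => exact fun c _ => rfl
  | cons a l ih =>
    intro c hc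
    have h1 := (hC.2.2.2.1 S R φ h).2.2.2.2.1 c a fun p hp => kerLE_mono hI (hc p hp)
    change res φ h (Gs l (G a c)) = Gs (l.map φ) (G (φ a) (res φ h c))
    rw [← h1]
    refine ih _ fun p hp => ?_
    obtain ⟨w, h2, h3, -⟩ := G_ne hC hp
    exact (hc w h2).trans h3.le

lemma mem_supp [EssFiniteType ℂ S] (I : Ideal S) (p : PrimeSpectrum S) :
    p ∈ Module.support S (S ⧸ I) ↔ I ≤ p.asIdeal := by
  rw [Module.mem_support_iff_of_finite, Ideal.annihilator_quotient]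

lemma cyc_ne (hC : CycStmt) [EssFiniteType ℂ S] {I : Ideal S} {d : ℕ} {p : PrimeSpectrum S}
    (h : cyc d (S ⧸ I) p ≠ 0) : dm p = d ∧ I ≤ p.asIdeal := by
  have := (hC.1 S).2.2.2.2.2.2 (S ⧸ I) d p h
  rwa [mem_supp] at this

lemma mem_map_loc {R : Type} [CommRing R] [Algebra ℂ R] {φ : S →ₐ[ℂ] R} (h : LocSurj φ)
    {I : Ideal S} (hI : KerLE φ I) {k : S} (hk : φ k ∈ I.map (φ : S →+* R)) :
    ∃ s, IsUnit (φ s) ∧ s * k ∈ I := by
  have key : ∀ b ∈ I.map (φ : S →+* R), ∃ s, ∃ a ∈ I, IsUnit (φ s) ∧ b * φ s = φ a := by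
    intro b hb
    induction hb using Submodule.span_induction with
    | mem x hx =>
      obtain ⟨a, ha, rfl⟩ := hx
      exact ⟨1, a, ha, by simp, by simp⟩
    | zero => exact ⟨1, 0, I.zero_mem, by simp, by simp⟩
    | add x y _ _ hx hy =>
      obtain ⟨s, a, ha, hs, e⟩ := hx
      obtain ⟨t, b, hb, ht, e'⟩ := hy
      refine ⟨s * t, a * t + b * s, I.add_mem (I.mul_mem_right _ ha) (I.mul_mem_right _ hb),
        by simpa using ⟨hs, ht⟩, ?_⟩
      simp only [map_mul, map_add, ← e, ← e']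
      ring
    | smul r x _ hx =>
      obtain ⟨s, a, ha, hs, e⟩ := hx
      obtain ⟨b, t, ht, e'⟩ := h r
      refine ⟨s * t, b * a, I.mul_mem_left _ ha, by simpa using ⟨hs, ht⟩, ?_⟩
      simp only [map_mul, ← e, ← e', smul_eq_mul]
      ring
  obtain ⟨s, a, ha, hs, e⟩ := key _ hk
  obtain ⟨t, ht, h1⟩ := hI (k * s - a) (by rw [map_sub, map_mul, e, sub_self])
  refine ⟨t * s, by simpa using ⟨ht, hs⟩, ?_⟩
  have h2 := I.add_mem h1 (I.mul_mem_left t ha)
  convert h2 using 1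
  ring

end General

variable {n : ℕ} {R : Type} [CommRing R] [Algebra ℂ R]

instance ft [FiniteType ℂ R] : FiniteType ℂ (R ⊗[ℂ] R) :=
  Algebra.FiniteType.trans (S := R) inferInstance inferInstance

/-- the involution as an algebra map -/
abbrev io (T : TorusData n R) : R →ₐ[ℂ] R := T.ι

lemma locSurj_io (T : TorusData n R) : LocSurj (io T) := locSurj_surj T.ι.surjective

lemma cm_cm (T : TorusData n R) (z : PrimeSpectrum R) : cm (io T) (cm (io T) z) = z := by
  ext r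
  change T.ι (T.ι r) ∈ z.asIdeal ↔ _
  rw [T.invol]

lemma map_io (T : TorusData n R) (p : PrimeSpectrum R) :
    p.asIdeal.map (io T : R →+* R) = (cm (io T) p).asIdeal := by
  apply le_antisymm
  · rw [Ideal.map_le_iff_le_comap]
    intro r hr
    change T.ι (T.ι r) ∈ p.asIdeal
    rwa [T.invol]
  · intro r hr
    rw [← T.invol r]
    exact Ideal.mem_map_of_mem (io T : R →+* R) hr

lemma kerLE_inj {S : Type} [CommRing S] [Algebra ℂ S] {φ : S →ₐ[ℂ] R} (h : Function.Injective φ)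
    (I : Ideal S) : KerLE φ I := fun k hk =>
  ⟨1, by simp, by rw [h (hk.trans (map_zero φ).symm), mul_zero]; exact I.zero_mem⟩

lemma res_io_single (T : TorusData n R) (z : PrimeSpectrum R) (t : ℚ) :
    res (io T) (locSurj_io T) (Finsupp.single z t) = Finsupp.single (cm (io T) z) t := by
  classical
  ext P
  rw [res_apply, Finsupp.single_apply, Finsupp.single_apply]
  refine if_congr ⟨fun h => ?_, fun h => ?_⟩ rfl rfl
  · rw [h, cm_cm]
  · rw [← h, cm_cm]

lemma pair_rat (hD : DimStmt) (hC : CycStmt) (hA : AffStmt) [IsDomain R] [FiniteType ℂ R]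
    (T : TorusData n R) (z : PrimeSpectrum R) (hz : z.asIdeal ≠ ⊥) :
    Finsupp.single z (1 : ℚ) + Finsupp.single (cm (io T) z) 1 ∈ RatOn (⊥ : Ideal R) := by
  classical
  have hy : (cm (ph T) z).asIdeal ≠ ⊥ := by
    obtain ⟨r, hr, hr0⟩ := Submodule.exists_mem_ne_zero_of_ne_bot hz
    obtain ⟨a, s, hs, e⟩ := norm_mem T r
    intro h
    have h1 : a ∈ (cm (ph T) z).asIdeal := by
      rw [mem_cm, ← e, mul_assoc]
      exact z.asIdeal.mul_mem_right _ hr
    rw [h, Ideal.mem_bot] at h1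
    rw [h1, map_zero] at e
    exact mul_ne_zero (mul_ne_zero hr0 ((map_ne_zero_iff _ T.ι.injective).2 hr0)) hs.ne_zero e
  have h1 := hA (Fin n) _ (AlgHom.id ℂ _) (locSurj_surj Function.surjective_id)
    Function.injective_id _ hy
  have h2 := (hC.2.2.2.2 _ R (ph T) ⊥ 0 ((ph_flat T).comp (RingHom.Flat.of_bijective
    ((Ideal.Quotient.mk_bijective_iff_eq_bot _).2 rfl)))
    fun Z _ => (dm_ph hD T Z).ge).2 _ h1
  rw [pb, Finsupp.linearCombination_single, one_smul, add_zero, bot_sup_eq, dm_ph hD] at h2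
  set I := (cm (ph T) z).asIdeal.map (ph T : MvPolynomial (Fin n) ℂ →+* R) with hI
  have h3 : ∀ Z : PrimeSpectrum R, I ≤ Z.asIdeal → z ≤ Z ∨ z ≤ cm (io T) Z := by
    intro Z hZ
    refine Ideal.subset_union.1 fun r hr => ?_
    obtain ⟨a, s, hs, e⟩ := norm_mem T r
    have h4 : a ∈ (cm (ph T) z).asIdeal := by
      rw [mem_cm, ← e, mul_assoc]
      exact z.asIdeal.mul_mem_right _ hr
    have h5 : ph T a ∈ Z.asIdeal := hZ (Ideal.mem_map_of_mem _ h4)
    rw [← e, Ideal.mul_unit_mem_iff_mem _ hs] at h5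
    exact Z.2.mem_or_mem h5
  have hio : ∀ Z : PrimeSpectrum R, dm (cm (io T) Z) = dm Z := hD.2.2.2.1 _ _ _ (locSurj_io T)
  have h4 : ∀ Z, (cyc (dm z) (R ⧸ I) : Cyc R) Z ≠ 0 → Z = z ∨ Z = cm (io T) z := by
    intro Z hZ
    obtain ⟨h5, h6⟩ := cyc_ne hC hZ
    rcases h3 Z h6 with h | h
    · exact Or.inl (eq_of_dm hD h h5).symm
    · right
      rw [eq_of_dm hD h ((hio Z).trans h5), cm_cm]
  have h5 : (cyc (dm z) (R ⧸ I) : Cyc R) z ≠ 0 := by
    rw [(hC.1 R).1, if_pos rfl, Nat.cast_ne_zero, Ne, ENat.toNat_eq_zero, not_or]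
    constructor
    · rw [(hC.1 R).2.1, not_not, mem_supp, hI, Ideal.map_le_iff_le_comap]
      exact le_rfl
    · refine (hC.1 R).2.2.1 _ z fun Z hZ => ?_
      rcases h3 Z ((mem_supp I Z).1 hZ) with h | h
      · exact dm_anti hD h
      · exact (hio Z).ge.trans (dm_anti hD h)
  have h6 : (cyc (dm z) (R ⧸ I) : Cyc R) (cm (io T) z) = (cyc (dm z) (R ⧸ I) : Cyc R) z := by
    have h7 := (hC.2.2.2.1 R R (io T) (locSurj_io T)).2.2.1 I (dm z) (kerLE_inj T.ι.injective I)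
    have h8 : I.map (io T : R →+* R) = I := by
      rw [hI, Ideal.map_map]
      congr 1
      exact RingHom.ext fun a => iota_ph T a
    rw [h8] at h7
    rw [← res_apply (io T) (locSurj_io T), h7]
  set δ : Cyc R := Finsupp.single z 1 + Finsupp.single (cm (io T) z) 1 with hδ
  have h7 : δ (cm (io T) z) = δ z := by
    rw [← res_apply (io T) (locSurj_io T), hδ, map_add, res_io_single, res_io_single, cm_cm,
      add_comm]
  have h8 : δ = (δ z / (cyc (dm z) (R ⧸ I) : Cyc R) z) • (cyc (dm z) (R ⧸ I) : Cyc R) := by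
    ext Z
    rw [Finsupp.smul_apply, smul_eq_mul]
    by_cases e1 : Z = z
    · rw [e1, div_mul_cancel₀ _ h5]
    by_cases e2 : Z = cm (io T) z
    · rw [e2, h6, h7, div_mul_cancel₀ _ h5]
    have h9 : (cyc (dm z) (R ⧸ I) : Cyc R) Z = 0 := by
      by_contra h
      exact (h4 Z h).elim e1 e2
    rw [h9, mul_zero, hδ, Finsupp.add_apply, Finsupp.single_eq_of_ne e1,
      Finsupp.single_eq_of_ne e2, add_zero]
  rw [h8]
  exact Submodule.smul_mem _ _ h2

/-- the ideal of the product of two subvarieties -/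
def xi (p q : PrimeSpectrum R) : Ideal (R ⊗[ℂ] R) :=
  p.asIdeal.map (inl R : R →+* R ⊗[ℂ] R) ⊔ q.asIdeal.map (inr R : R →+* R ⊗[ℂ] R)

/-- the exterior product of two subvarieties -/
def cross (p q : PrimeSpectrum R) : Cyc (R ⊗[ℂ] R) := cyc (dm p + dm q) ((R ⊗[ℂ] R) ⧸ xi p q)

/-- intersection with the diagonal -/
def dg (T : TorusData n R) : Cyc (R ⊗[ℂ] R) →ₗ[ℚ] Cyc R := res (mu R) locSurj_mu ∘ₗ Gs (fs T)

lemma dg_apply (T : TorusData n R) (c : Cyc (R ⊗[ℂ] R)) (z : PrimeSpectrum R) :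
    dg T c z = Gs (fs T) c (cm (mu R) z) := rfl

lemma dg_rat (hC : CycStmt) (hK : KeyStmt) [FiniteType ℂ R] (T : TorusData n R)
    {J : Ideal (R ⊗[ℂ] R)} {c : Cyc (R ⊗[ℂ] R)} (h : c ∈ RatOn J) :
    dg T c ∈ RatOn (⊥ : Ideal R) :=
  ratOn_anti bot_le ((hC.2.2.2.1 _ R (mu R) locSurj_mu).2.2.2.2.2.1 _
    (kerLE_mono (kerLE_mu T) le_sup_right) _ (Gs_rat hK (fs T) J c h))

lemma cross_left (hD : DimStmt) (hC : CycStmt) [FiniteType ℂ R] {p p' : PrimeSpectrum R}
    (q : PrimeSpectrum R)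
    (h : Finsupp.single p (1 : ℚ) + Finsupp.single p' 1 ∈ RatOn (⊥ : Ideal R)) :
    cross p q + cross p' q ∈ RatOn (q.asIdeal.map (inr R : R →+* R ⊗[ℂ] R)) := by
  have h1 := (hC.2.2.2.2 R _ (inl R) _ (dm q) (flat_left q.asIdeal) fun Z hZ =>
    (hD.2.2.2.2.2.2.1 R R Z).trans (Nat.add_le_add_left
      (dm_anti hD (Ideal.map_le_iff_le_comap.1 hZ)) _)).2 _ h
  simp only [map_add, pb, Finsupp.linearCombination_single, one_smul] at h1
  unfold cross xi
  rwa [sup_comm (p.asIdeal.map _), sup_comm (p'.asIdeal.map _)]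

lemma cross_right (hD : DimStmt) (hC : CycStmt) [FiniteType ℂ R] (p : PrimeSpectrum R)
    {q q' : PrimeSpectrum R}
    (h : Finsupp.single q (1 : ℚ) + Finsupp.single q' 1 ∈ RatOn (⊥ : Ideal R)) :
    cross p q + cross p q' ∈ RatOn (p.asIdeal.map (inl R : R →+* R ⊗[ℂ] R)) := by
  have h1 := (hC.2.2.2.2 R _ (inr R) _ (dm p) (flat_right p.asIdeal) fun Z hZ =>
    (hD.2.2.2.2.2.2.1 R R Z).trans ((add_comm _ _).trans_le (Nat.add_le_add_left
      (dm_anti hD (Ideal.map_le_iff_le_comap.1 hZ)) _))).2 _ h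
  simp only [map_add, pb, Finsupp.linearCombination_single, one_smul] at h1
  unfold cross xi
  rwa [add_comm (dm p), add_comm (dm p)]

lemma cross_ne (hC : CycStmt) [FiniteType ℂ R] {p q : PrimeSpectrum R}
    {Z : PrimeSpectrum (R ⊗[ℂ] R)} (h : cross p q Z ≠ 0) :
    dm Z = dm p + dm q ∧ xi p q ≤ Z.asIdeal := cyc_ne hC h

lemma dg_ne (hD : DimStmt) (hC : CycStmt) [FiniteType ℂ R] (T : TorusData n R)
    {p q z : PrimeSpectrum R} (h : dg T (cross p q) z ≠ 0) :
    p ≤ z ∧ q ≤ z ∧ dm z + n = dm p + dm q := by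
  obtain ⟨Z, h1, h2, h3⟩ := Gs_ne hC (fs T) h
  obtain ⟨h4, h5⟩ := cross_ne hC h1
  rw [hD.2.2.2.1 _ _ _ locSurj_mu, length_fs] at h3
  refine ⟨fun r hr => ?_, fun r hr => ?_, h3.trans h4⟩
  · have := h2 (h5 (Ideal.mem_sup_left (Ideal.mem_map_of_mem _ hr)))
    rwa [mem_cm, RingHom.coe_coe, mu_inl] at this
  · have := h2 (h5 (Ideal.mem_sup_right (Ideal.mem_map_of_mem _ hr)))
    rwa [mem_cm, RingHom.coe_coe, mu_inr] at this

lemma res_io_dg (hD : DimStmt) (hC : CycStmt) [FiniteType ℂ R] (T : TorusData n R)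
    (p q : PrimeSpectrum R) :
    res (io T) (locSurj_io T) (dg T (cross p q)) = dg T (cross (cm (io T) p) (cm (io T) q)) := by
  let τ : R ⊗[ℂ] R →ₐ[ℂ] R ⊗[ℂ] R := Algebra.TensorProduct.map (io T) (io T)
  have hτ : Function.Bijective τ := (Algebra.TensorProduct.congr T.ι T.ι).bijective
  have hl : LocSurj τ := locSurj_surj hτ.2
  have h1 : (fs T).map τ = fs T := by
    rw [fs, List.map_ofFn]
    congr 1
    funext i
    simp [τ, T.fix]
  have h2 := res_Gs hC τ hl (kerLE_inj hτ.1 ⊥) (fs T) (cross p q) fun _ _ => bot_le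
  have h3 : res τ hl (cross p q) = cross (cm (io T) p) (cm (io T) q) := by
    have h4 : (xi p q).map (τ : _ →+* _) = xi (cm (io T) p) (cm (io T) q) := by
      rw [xi, xi, Ideal.map_sup, ← map_io, ← map_io, Ideal.map_map, Ideal.map_map, Ideal.map_map,
        Ideal.map_map]
      congr 2 <;> exact RingHom.ext fun r => by simp [τ]
    unfold cross
    rw [(hC.2.2.2.1 _ _ τ hl).2.2.1 _ _ (kerLE_inj hτ.1 _), h4,
      hD.2.2.2.1 _ _ _ (locSurj_io T), hD.2.2.2.1 _ _ _ (locSurj_io T)]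
  ext z
  rw [res_apply, dg_apply, dg_apply, ← h3, ← h1, ← h2, res_apply, h1]
  congr 1
  have h5 : (io T).comp (mu R) = (mu R).comp τ := by
    ext <;> simp [τ]
  ext k
  rw [mem_cm, mem_cm, mem_cm, mem_cm, ← AlgHom.comp_apply, h5, AlgHom.comp_apply]

lemma dg_cross_rat (hD : DimStmt) (hC : CycStmt) (hK : KeyStmt) (hA : AffStmt) [IsDomain R]
    [FiniteType ℂ R] (T : TorusData n R) {p q : PrimeSpectrum R} (hp : p.asIdeal ≠ ⊥)
    (hq : q.asIdeal ≠ ⊥) : dg T (cross p q) ∈ RatOn (⊥ : Ideal R) := by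
  have h1 := dg_rat hC hK T (cross_left hD hC q (pair_rat hD hC hA T p hp))
  have h2 := dg_rat hC hK T (cross_right hD hC (cm (io T) p) (pair_rat hD hC hA T q hq))
  rw [map_add] at h1 h2
  rw [← res_io_dg hD hC] at h2
  have h3 : ∀ z, dg T (cross p q) z ≠ 0 → z.asIdeal ≠ ⊥ := fun z hz h =>
    hp (le_bot_iff.1 (h ▸ (dg_ne hD hC T hz).1))
  generalize dg T (cross p q) = c at h1 h2 h3 ⊢
  have h4 : c + res (io T) (locSurj_io T) c ∈ RatOn (⊥ : Ideal R) := by
    have h5 : c + res (io T) (locSurj_io T) c = ∑ z ∈ c.support,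
        c z • (Finsupp.single z (1 : ℚ) + Finsupp.single (cm (io T) z) 1) := by
      conv_lhs => rw [← Finsupp.sum_single c, Finsupp.sum, map_sum, ← Finset.sum_add_distrib]
      refine Finset.sum_congr rfl fun z _ => ?_
      rw [res_io_single, smul_add, Finsupp.smul_single_one, Finsupp.smul_single_one]
    rw [h5]
    exact Submodule.sum_mem _ fun z hz => Submodule.smul_mem _ _
      (pair_rat hD hC hA T z (h3 z (Finsupp.mem_support_iff.1 hz)))
  have h6 := Submodule.smul_mem _ (1 / 2 : ℚ) (Submodule.add_mem _ h4 (Submodule.sub_mem _ h1 h2))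
  convert h6 using 1
  module

end Prod

end Pool.Agent.Lib.MP_2c79a0_ag
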