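import Pool.Agent.Lib.MP_2c79a0_ag.Cyc

/-!
Restriction of cycles along a localisation of a quotient.
-/

noncomputable section

namespace Pool.Agent.Lib.MP_2c79a0_ag

namespace Res

open Algebra

/-- The local length of `S / I` is the length of the quotient of the local ring. -/
lemma lenAt_quot {S : Type} [CommRing S] (p : PrimeSpectrum S) (I : Ideal S) :
    lenAt p (S ⧸ I) = Module.length (Localization.AtPrime p.asIdeal)
      (Localization.AtPrime p.asIdeal ⧸
        I.map (algebraMap S (Localization.AtPrime p.asIdeal))) := by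
  unfold lenAt
  have e1 := (IsLocalizedModule.iso p.asIdeal.primeCompl
    (Submodule.toLocalizedQuotient' (Localization.AtPrime p.asIdeal) p.asIdeal.primeCompl
      (Algebra.linearMap S (Localization.AtPrime p.asIdeal)) I)).extendScalarsOfIsLocalization
      p.asIdeal.primeCompl (Localization.AtPrime p.asIdeal)
  rw [e1.length_eq]
  exact (Submodule.quotEquivOfEq _ _
    (Ideal.localized'_eq_map (Localization.AtPrime p.asIdeal) p.asIdeal.primeCompl I)).length_eq

/-- Lengths of cyclic modules along a surjective ring map. -/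
lemma length_quot_comap {A B : Type} [CommRing A] [CommRing B] (ψ : A →+* B)
    (hψ : Function.Surjective ψ) (J : Ideal B) :
    Module.length A (A ⧸ J.comap ψ) = Module.length B (B ⧸ J) := by
  let _ : Algebra A B := ψ.toAlgebra
  rw [← Module.length_eq_of_surjective (S := A) (R := B) (M := B ⧸ J) hψ]
  let g : (A ⧸ J.comap ψ) →ₐ[A] (B ⧸ J) :=
    Ideal.quotientMapₐ J (Algebra.ofId A B) (fun _ hx => hx)
  have hg : Function.Bijective g :=
    ⟨Ideal.quotientMap_injective (I := J) (f := ψ),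
      Ideal.quotientMap_surjective (I := J) (f := ψ) (H := le_rfl) hψ⟩
  exact (LinearEquiv.ofBijective g.toLinearMap hg).length_eq

variable {S R : Type} [CommRing S] [Algebra ℂ S] [CommRing R] [Algebra ℂ R] {φ : S →ₐ[ℂ] R}

lemma exists_of_mem_map (h : LocSurj φ) (I : Ideal S) {r : R} (hr : r ∈ I.map (φ : S →+* R)) :
    ∃ i ∈ I, ∃ s, IsUnit (φ s) ∧ r * φ s = φ i := by
  unfold Ideal.map at hr
  induction hr using Submodule.span_induction with
  | mem x hx =>
    obtain ⟨i, hi, rfl⟩ := hx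
    exact ⟨i, hi, 1, by simp, by simp⟩
  | zero => exact ⟨0, I.zero_mem, 1, by simp, by simp⟩
  | add x y _ _ hx hy =>
    obtain ⟨i, hi, s, hs, e⟩ := hx
    obtain ⟨j, hj, t, ht, e'⟩ := hy
    refine ⟨i * t + j * s, I.add_mem (I.mul_mem_right _ hi) (I.mul_mem_right _ hj), s * t,
      by rw [map_mul]; exact hs.mul ht, ?_⟩
    rw [map_add, map_mul, map_mul, map_mul, ← e, ← e']
    ring
  | smul c x _ hx =>
    obtain ⟨i, hi, s, hs, e⟩ := hx
    obtain ⟨a, t, ht, e'⟩ := h c
    refine ⟨a * i, I.mul_mem_left _ hi, s * t, by rw [map_mul]; exact hs.mul ht, ?_⟩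
    rw [map_mul, map_mul, ← e, ← e', smul_eq_mul]
    ring

lemma exists_of_map_mem_map (h : LocSurj φ) {I : Ideal S} (hI : KerLE φ I) {a : S}
    (ha : φ a ∈ I.map (φ : S →+* R)) : ∃ s, IsUnit (φ s) ∧ s * a ∈ I := by
  obtain ⟨i, hi, s, hs, e⟩ := exists_of_mem_map h I ha
  obtain ⟨t, ht, hk⟩ := hI (a * s - i) (by rw [map_sub, map_mul, e, sub_self])
  refine ⟨t * s, by rw [map_mul]; exact ht.mul hs, ?_⟩
  have : t * s * a = t * (a * s - i) + t * i := by ring
  rw [this]
  exact I.add_mem hk (I.mul_mem_left _ hi)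

lemma not_mem_of_unit {s : S} (hs : IsUnit (φ s)) (P : PrimeSpectrum R) :
    s ∉ (cm φ P).asIdeal := fun hm =>
  P.isPrime.ne_top (P.asIdeal.eq_top_of_isUnit_mem ((mem_cm φ P s).mp hm) hs)

lemma map_cm (h : LocSurj φ) (P : PrimeSpectrum R) :
    (cm φ P).asIdeal.map (φ : S →+* R) = P.asIdeal := by
  apply le_antisymm
  · exact Ideal.map_le_iff_le_comap.mpr fun _ hx => hx
  · intro r hr
    obtain ⟨a, s, hs, e⟩ := h r
    have ha : a ∈ (cm φ P).asIdeal := by
      rw [mem_cm, ← e]; exact P.asIdeal.mul_mem_right _ hr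
    have h2 : φ a ∈ (cm φ P).asIdeal.map (φ : S →+* R) := Ideal.mem_map_of_mem _ ha
    rw [← e] at h2
    exact (Ideal.mul_unit_mem_iff_mem _ hs).mp h2

lemma kerLE_mono {I J : Ideal S} (hI : KerLE φ I) (hIJ : I ≤ J) : KerLE φ J := fun k hk => by
  obtain ⟨s, hs, e⟩ := hI k hk
  exact ⟨s, hs, hIJ e⟩

lemma kerLE_cm (P : PrimeSpectrum R) : KerLE φ (cm φ P).asIdeal := fun k hk =>
  ⟨1, by simp, by rw [one_mul, mem_cm, hk]; exact P.asIdeal.zero_mem⟩

lemma mem_range_iff (h : LocSurj φ) (p : PrimeSpectrum S) : p ∈ Set.range (cm φ) ↔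
    RingHom.ker (φ : S →+* R) ≤ p.asIdeal ∧ ∀ s ∈ p.asIdeal, ¬ IsUnit (φ s) := by
  constructor
  · rintro ⟨P, rfl⟩
    refine ⟨fun k hk => ?_, fun s hs hu => not_mem_of_unit hu P hs⟩
    have hk' : φ k = 0 := hk
    rw [mem_cm, hk']
    exact P.asIdeal.zero_mem
  · rintro ⟨hk, hu⟩
    have hK : KerLE φ p.asIdeal := fun k hk0 => ⟨1, by simp, by rw [one_mul]; exact hk hk0⟩
    have key : ∀ a, φ a ∈ p.asIdeal.map (φ : S →+* R) → a ∈ p.asIdeal := by
      intro a ha
      obtain ⟨s, hs, e⟩ := exists_of_map_mem_map h hK ha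
      exact (p.isPrime.mem_or_mem e).resolve_left fun hs' => hu s hs' hs
    have hP : (p.asIdeal.map (φ : S →+* R)).IsPrime := by
      refine ⟨fun e => p.isPrime.ne_top ((Ideal.eq_top_iff_one _).mpr (key 1 ?_)), ?_⟩
      · rw [e]; trivial
      · intro r r' hrr
        obtain ⟨a, s, hs, e⟩ := h r
        obtain ⟨a', s', hs', e'⟩ := h r'
        have h1 : a * a' ∈ p.asIdeal := by
          apply key
          have : φ (a * a') = r * r' * (φ s * φ s') := by rw [map_mul, ← e, ← e']; ring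
          rw [this]
          exact Ideal.mul_mem_right _ _ hrr
        rcases p.isPrime.mem_or_mem h1 with h2 | h2
        · left
          have h3 : φ a ∈ p.asIdeal.map (φ : S →+* R) := Ideal.mem_map_of_mem _ h2
          rw [← e] at h3
          exact (Ideal.mul_unit_mem_iff_mem _ hs).mp h3
        · right
          have h3 : φ a' ∈ p.asIdeal.map (φ : S →+* R) := Ideal.mem_map_of_mem _ h2
          rw [← e'] at h3
          exact (Ideal.mul_unit_mem_iff_mem _ hs').mp h3
    refine ⟨⟨_, hP⟩, PrimeSpectrum.ext (le_antisymm (fun a ha => key a ha) fun a ha => ?_)⟩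
    exact Ideal.mem_map_of_mem (φ : S →+* R) ha

/-- A prime that is not in the range but contains the kernel up to units meets the units. -/
lemma exists_unit_of_not_range (h : LocSurj φ) {p : PrimeSpectrum S} (hK : KerLE φ p.asIdeal)
    (hp : p ∉ Set.range (cm φ)) : ∃ s ∈ p.asIdeal, IsUnit (φ s) := by
  by_contra hne
  have hu : ∀ s ∈ p.asIdeal, ¬ IsUnit (φ s) := fun s hs hu => hne ⟨s, hs, hu⟩
  refine hp ((mem_range_iff h p).mpr ⟨fun k hk => ?_, hu⟩)
  obtain ⟨s, hs, e⟩ := hK k hk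
  exact (p.isPrime.mem_or_mem e).resolve_left fun hs' => hu s hs' hs

lemma essFiniteType [EssFiniteType ℂ S] (h : LocSurj φ) : EssFiniteType ℂ R := by
  classical
  obtain ⟨σ, hσ⟩ := (essFiniteType_iff ℂ S).mp inferInstance
  refine (essFiniteType_iff ℂ R).mpr ⟨σ.image φ, fun r => ?_⟩
  have hm : ∀ x ∈ adjoin ℂ (σ : Set S), φ x ∈ adjoin ℂ ((σ.image φ : Finset R) : Set R) := by
    intro x hx
    rw [Finset.coe_image, Algebra.adjoin_image]
    exact ⟨x, hx, rfl⟩
  obtain ⟨a, s, hs, e⟩ := h r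
  obtain ⟨t, ht, htu, hst⟩ := hσ s
  obtain ⟨t', ht', htu', hat⟩ := hσ a
  refine ⟨φ (s * t * t'), hm _ (Subalgebra.mul_mem _ hst ht'), ?_, ?_⟩
  · rw [map_mul, map_mul]
    exact (hs.mul (htu.map φ)).mul (htu'.map φ)
  · have : r * φ (s * t * t') = φ (a * t' * t) := by
      rw [map_mul, map_mul, map_mul, map_mul, ← e]; ring
    rw [this]
    exact hm _ (Subalgebra.mul_mem _ hat ht)

/-- The map of local rings. -/
def locMap (φ : S →ₐ[ℂ] R) (P : PrimeSpectrum R) :
    Localization.AtPrime (cm φ P).asIdeal →+* Localization.AtPrime P.asIdeal :=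
  Localization.localRingHom (cm φ P).asIdeal P.asIdeal (φ : S →+* R) rfl

lemma locMap_surjective (h : LocSurj φ) (P : PrimeSpectrum R) :
    Function.Surjective (locMap φ P) := by
  intro x
  obtain ⟨⟨r, u⟩, rfl⟩ := IsLocalization.mk'_surjective P.asIdeal.primeCompl x
  obtain ⟨a, s, hs, e⟩ := h r
  obtain ⟨b, s', hs', e'⟩ := h u
  have hb : b ∉ (cm φ P).asIdeal := by
    rw [mem_cm, ← e']
    intro hm
    exact u.2 ((Ideal.mul_unit_mem_iff_mem _ hs').mp hm)
  have hbs : b * s ∈ (cm φ P).asIdeal.primeCompl :=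
    Submonoid.mul_mem _ hb (not_mem_of_unit hs P)
  refine ⟨IsLocalization.mk' _ (a * s') (⟨b * s, hbs⟩ : (cm φ P).asIdeal.primeCompl), ?_⟩
  unfold locMap
  rw [Localization.localRingHom_mk', IsLocalization.mk'_eq_iff_eq]
  congr 1
  change (u : R) * φ (a * s') = φ (b * s) * r
  rw [map_mul, map_mul, ← e, ← e']
  ring

lemma comap_locMap (h : LocSurj φ) (P : PrimeSpectrum R) {I : Ideal S} (hI : KerLE φ I) :
    ((I.map (φ : S →+* R)).map (algebraMap R (Localization.AtPrime P.asIdeal))).comap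
      (locMap φ P) = I.map (algebraMap S (Localization.AtPrime (cm φ P).asIdeal)) := by
  ext x
  obtain ⟨⟨a, s⟩, rfl⟩ := IsLocalization.mk'_surjective (cm φ P).asIdeal.primeCompl x
  rw [Ideal.mem_comap]
  unfold locMap
  rw [Localization.localRingHom_mk', IsLocalization.mk'_mem_map_algebraMap_iff,
    IsLocalization.mk'_mem_map_algebraMap_iff]
  constructor
  · rintro ⟨u, hu, hua⟩
    obtain ⟨b, s', hs', e'⟩ := h u
    have hb : b ∉ (cm φ P).asIdeal := by
      rw [mem_cm, ← e']
      intro hm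
      exact hu ((Ideal.mul_unit_mem_iff_mem _ hs').mp hm)
    have h1 : φ (b * a) ∈ I.map (φ : S →+* R) := by
      have : φ (b * a) = u * (φ : S →+* R) a * φ s' := by
        rw [map_mul, ← e']
        change u * φ s' * φ a = u * φ a * φ s'
        ring
      rw [this]
      exact Ideal.mul_mem_right _ _ hua
    obtain ⟨t, ht, e⟩ := exists_of_map_mem_map h hI h1
    exact ⟨t * b, Submonoid.mul_mem _ (not_mem_of_unit ht P) hb, by rwa [mul_assoc]⟩
  · rintro ⟨t, ht, hta⟩
    refine ⟨φ t, ht, ?_⟩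
    have h2 : (φ : S →+* R) (t * a) ∈ I.map (φ : S →+* R) := Ideal.mem_map_of_mem _ hta
    rwa [map_mul] at h2

lemma lenAt_eq (h : LocSurj φ) (P : PrimeSpectrum R) {I : Ideal S} (hI : KerLE φ I) :
    lenAt (cm φ P) (S ⧸ I) = lenAt P (R ⧸ I.map (φ : S →+* R)) := by
  rw [lenAt_quot, lenAt_quot, ← length_quot_comap _ (locMap_surjective h P),
    comap_locMap h P hI]

lemma res_single_cm (h : LocSurj φ) (P : PrimeSpectrum R) (x : ℚ) :
    res φ h (Finsupp.single (cm φ P) x) = Finsupp.single P x := by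
  classical
  ext Q
  rw [res_apply, Finsupp.single_apply, Finsupp.single_apply]
  simp only [h.cm_injective.eq_iff]

lemma res_single_of_not_range (h : LocSurj φ) {p : PrimeSpectrum S} (hp : p ∉ Set.range (cm φ))
    (x : ℚ) : res φ h (Finsupp.single p x) = 0 := by
  classical
  ext Q
  rw [res_apply, Finsupp.single_apply, if_neg fun e => hp ⟨Q, e.symm⟩]
  rfl

section

variable [EssFiniteType ℂ S]

lemma res_cyc (hD : DimStmt) (hC : CycBasicStmt) (h : LocSurj φ) (I : Ideal S) (d : ℕ)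
    (hI : KerLE φ I) : res φ h (cyc d (S ⧸ I)) = cyc d (R ⧸ I.map (φ : S →+* R)) := by
  have := essFiniteType h
  ext P
  rw [res_apply, (hC S).1, (hC R).1, hD.2.2.2.1 S R φ h P, lenAt_eq h P hI]

lemma res_dv (hD : DimStmt) (hC : CycBasicStmt) (h : LocSurj φ) (P : PrimeSpectrum R) (a : S) :
    res φ h (dv (cm φ P) a) = dv P (φ a) := by
  unfold dv
  by_cases ha : φ a ∈ P.asIdeal
  · rw [if_pos ha, if_pos ((mem_cm φ P a).mpr ha), map_zero]
  · rw [if_neg ha, if_neg fun hm => ha ((mem_cm φ P a).mp hm),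
      res_cyc hD hC h _ _ (kerLE_mono (kerLE_cm P) le_sup_left), hD.2.2.2.1 S R φ h P]
    have e : ((cm φ P).asIdeal ⊔ Ideal.span {a}).map (φ : S →+* R) =
        P.asIdeal ⊔ Ideal.span {φ a} := by
      rw [Ideal.map_sup, map_cm h, Ideal.map_span, Set.image_singleton]
      rfl
    rw [e]

lemma res_dv_of_not_range (hV : DvStmt) (h : LocSurj φ) {p : PrimeSpectrum S}
    (hK : KerLE φ p.asIdeal) (hp : p ∉ Set.range (cm φ)) (a : S) : res φ h (dv p a) = 0 := by
  obtain ⟨s, hs, hu⟩ := exists_unit_of_not_range h hK hp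
  ext Q
  rw [res_apply]
  by_contra hne
  exact not_mem_of_unit hu Q (((hV S p).1 a _ hne).1.le hs)

lemma res_G (hD : DimStmt) (hC : CycBasicStmt) (hV : DvStmt) (h : LocSurj φ) (c : Cyc S) (a : S)
    (hc : ∀ p, c p ≠ 0 → KerLE φ p.asIdeal) : res φ h (G a c) = G (φ a) (res φ h c) := by
  conv_lhs => rw [← Finsupp.sum_single c]
  conv_rhs => rw [← Finsupp.sum_single c]
  simp only [Finsupp.sum, map_sum]
  refine Finset.sum_congr rfl fun p hp => ?_
  have hK := hc p (Finsupp.mem_support_iff.mp hp)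
  by_cases hr : p ∈ Set.range (cm φ)
  · obtain ⟨P, rfl⟩ := hr
    rw [res_single_cm]
    unfold G
    rw [Finsupp.linearCombination_single, Finsupp.linearCombination_single, map_smul,
      res_dv hD hC]
  · rw [res_single_of_not_range h hr, map_zero]
    unfold G
    rw [Finsupp.linearCombination_single, map_smul, res_dv_of_not_range hV h hK hr, smul_zero]

lemma res_ratOn (hD : DimStmt) (hC : CycBasicStmt) (hV : DvStmt) (h : LocSurj φ) (I : Ideal S)
    (hI : KerLE φ I) (c : Cyc S) (hc : c ∈ RatOn I) :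
    res φ h c ∈ RatOn (I.map (φ : S →+* R)) := by
  have : RatOn I ≤ (RatOn (I.map (φ : S →+* R))).comap (res φ h) := by
    refine Submodule.span_le.mpr ?_
    rintro _ ⟨w, a, hw, rfl⟩
    change res φ h (dv w a) ∈ RatOn (I.map (φ : S →+* R))
    by_cases hr : w ∈ Set.range (cm φ)
    · obtain ⟨P, rfl⟩ := hr
      rw [res_dv hD hC]
      exact Submodule.subset_span ⟨P, φ a, Ideal.map_le_iff_le_comap.mpr hw, rfl⟩
    · rw [res_dv_of_not_range hV h (kerLE_mono hI hw) hr]
      exact Submodule.zero_mem _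
  exact this hc

lemma ratOn_lift (hD : DimStmt) (hC : CycBasicStmt) (hV : DvStmt) (h : LocSurj φ) (J : Ideal R)
    (c : Cyc R) (hc : c ∈ RatOn J) :
    ∃ c' ∈ RatOn (J.comap (φ : S →+* R)), res φ h c' = c := by
  have := essFiniteType h
  have : RatOn J ≤ (RatOn (J.comap (φ : S →+* R))).map (res φ h) := by
    refine Submodule.span_le.mpr ?_
    rintro _ ⟨P, r, hP, rfl⟩
    change dv P r ∈ (RatOn (J.comap (φ : S →+* R))).map (res φ h)
    by_cases hr : r ∈ P.asIdeal
    · have : dv P r = 0 := by unfold dv; rw [if_pos hr]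
      rw [this]
      exact Submodule.zero_mem _
    · obtain ⟨a, s, hs, e⟩ := h r
      have h0 : dv P (φ s) = 0 := by
        ext z
        by_contra hne
        exact z.isPrime.ne_top (z.asIdeal.eq_top_of_isUnit_mem ((hV R P).1 _ z hne).2.1 hs)
      have h1 : dv P (φ a) = dv P r := by
        rw [← e, (hV R P).2.2.1 r (φ s) hr (not_mem_of_unit hs P), h0, add_zero]
      refine ⟨dv (cm φ P) a, Submodule.subset_span ⟨cm φ P, a, fun x hx => hP hx, rfl⟩, ?_⟩
      rw [res_dv hD hC, h1]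
  exact this hc

end

end Res

/-- Restriction along localisations of quotients. -/
theorem resStmt (hD : DimStmt) (hC : CycBasicStmt) (hV : DvStmt) : ResStmt := by
  intro S R _ _ _ _ _ φ h
  exact ⟨Res.essFiniteType h, Res.mem_range_iff h, Res.res_cyc hD hC h, Res.res_dv hD hC h,
    Res.res_G hD hC hV h, Res.res_ratOn hD hC hV h, Res.ratOn_lift hD hC hV h⟩

end Pool.Agent.Lib.MP_2c79a0_ag
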