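import Pool.Agent.Lib.MP_2c79a0_ag.Cyc
import Pool.Agent.Lib.MP_2c79a0_ag.Once

/-!
Module-theoretic lemmas for the comparison of the Serre multiplicity with iterated divisors.
-/

open Function
open scoped Pointwise

noncomputable section

namespace Pool.Agent.Lib.MP_2c79a0_ag.Serre

section Ses

variable {B : Type} [CommRing B] {X Y Z : Type} [AddCommGroup X] [Module B X]
  [AddCommGroup Y] [Module B Y] [AddCommGroup Z] [Module B Z]

lemma exists_inj (f : B) (a : X →ₗ[B] Y) (h : Exact (fun x : X => f • x) a) :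
    ∃ i : QuotSMulTop f X →ₗ[B] Y, Injective i ∧ ∀ y, y ∈ Set.range i ↔ y ∈ Set.range a := by
  have hk : (f • ⊤ : Submodule B X) = LinearMap.ker a := by
    ext x
    rw [LinearMap.mem_ker, h x, Submodule.mem_smul_pointwise_iff_exists]
    simp
  refine ⟨Submodule.liftQ _ a hk.le, ?_, fun y => ⟨?_, ?_⟩⟩
  · rw [← LinearMap.ker_eq_bot]
    exact Submodule.ker_liftQ_eq_bot _ _ _ hk.ge
  · rintro ⟨x, rfl⟩
    obtain ⟨x, rfl⟩ := Submodule.Quotient.mk_surjective _ x
    exact ⟨x, rfl⟩
  · rintro ⟨x, rfl⟩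
    exact ⟨Submodule.Quotient.mk x, rfl⟩

lemma exists_ses (f : B) (a : X →ₗ[B] Y) (δ : Y →ₗ[B] Z) (h : Exact (fun x : X => f • x) a)
    (h2 : Exact a δ) (h3 : Exact δ (fun z : Z => f • z)) :
    ∃ (i : QuotSMulTop f X →ₗ[B] Y) (q : Y →ₗ[B] Submodule.torsionBy B Z f),
      Injective i ∧ Surjective q ∧ Exact i q := by
  obtain ⟨i, hi, hr⟩ := exists_inj f a h
  have hm : ∀ y, δ y ∈ Submodule.torsionBy B Z f := fun y =>
    (Submodule.mem_torsionBy_iff _ _).2 ((h3 (δ y)).2 ⟨y, rfl⟩)
  refine ⟨i, δ.codRestrict _ hm, hi, ?_, fun y => ?_⟩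
  · rintro ⟨z, hz⟩
    obtain ⟨y, rfl⟩ := (h3 z).1 ((Submodule.mem_torsionBy_iff _ _).1 hz)
    exact ⟨y, rfl⟩
  · rw [hr y, ← h2 y]
    exact Subtype.ext_iff

lemma exists_equiv (f : B) (a : X →ₗ[B] Y) (h : Exact (fun x : X => f • x) a)
    (hs : Surjective a) : Nonempty (QuotSMulTop f X ≃ₗ[B] Y) := by
  obtain ⟨i, hi, hr⟩ := exists_inj f a h
  exact ⟨LinearEquiv.ofBijective i ⟨hi, fun y => (hr y).2 (hs y)⟩⟩

lemma mem_of_ann {f : B} (h : ∀ x : X, f • x = 0) {p : PrimeSpectrum B}
    (hp : p ∈ Module.support B X) : f ∈ p.asIdeal :=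
  Module.annihilator_le_of_mem_support hp (Module.mem_annihilator.2 h)

lemma supp_quot {f : B} {p : PrimeSpectrum B} (hp : p ∈ Module.support B (QuotSMulTop f X)) :
    f ∈ p.asIdeal ∧ p ∈ Module.support B X := by
  refine ⟨mem_of_ann (fun x => ?_) hp,
    Module.support_subset_of_surjective _ (Submodule.mkQ_surjective _) hp⟩
  obtain ⟨x, rfl⟩ := Submodule.Quotient.mk_surjective _ x
  rw [← Submodule.Quotient.mk_smul, Submodule.Quotient.mk_eq_zero]
  exact Submodule.smul_mem_pointwise_smul _ _ _ Submodule.mem_top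

lemma supp_tors {f : B} {p : PrimeSpectrum B}
    (hp : p ∈ Module.support B (Submodule.torsionBy B X f)) :
    f ∈ p.asIdeal ∧ p ∈ Module.support B X :=
  ⟨mem_of_ann (fun x => Subtype.ext ((Submodule.mem_torsionBy_iff _ _).1 x.2)) hp,
    Module.support_subset_of_injective _ (Submodule.subtype_injective _) hp⟩

end Ses

section Len

variable {A B : Type} [CommRing A] [CommRing B] [Algebra A B]

lemma length_restrict (M : ModuleCat.{0} B)
    (h : ∀ b : B, ∃ a : A, ∀ x : M, b • x = algebraMap A B a • x) :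
    Module.length A ((ModuleCat.restrictScalars (algebraMap A B)).obj M) = Module.length B M := by
  let e : Submodule A ((ModuleCat.restrictScalars (algebraMap A B)).obj M) ≃o Submodule B M :=
    { toFun := fun U =>
        { carrier := {x : M | (x : (ModuleCat.restrictScalars (algebraMap A B)).obj M) ∈ U}
          add_mem' := fun hx hy => U.add_mem hx hy
          zero_mem' := U.zero_mem
          smul_mem' := fun b x hx => by
            obtain ⟨a, ha⟩ := h b
            have := U.smul_mem a hx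
            rw [ha]
            exact this }
      invFun := fun V =>
        { carrier := {x | (show M from x) ∈ V}
          add_mem' := fun hx hy => V.add_mem hx hy
          zero_mem' := V.zero_mem
          smul_mem' := fun a x hx => V.smul_mem (algebraMap A B a) hx }
      left_inv := fun _ => rfl
      right_inv := fun _ => rfl
      map_rel_iff' := Iff.rfl }
  rw [Module.length, Module.length, WithBot.unbot_inj, Order.krullDim_eq_of_orderIso e]

lemma lenAt_closed [IsLocalRing B] (M : Type) [AddCommGroup M] [Module B M] :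
    lenAt (IsLocalRing.closedPoint B) M = Module.length B M := by
  have H : (IsLocalRing.closedPoint B).asIdeal.primeCompl ≤ IsUnit.submonoid B := fun x hx => by
    by_contra h
    exact hx h
  have := IsLocalization.self H
  have := isLocalizedModule_id (IsLocalRing.closedPoint B).asIdeal.primeCompl M B
  have hs : Surjective
      (algebraMap B (Localization.AtPrime (IsLocalRing.closedPoint B).asIdeal)) :=
    (IsLocalization.atUnits B _ (S := Localization.AtPrime (IsLocalRing.closedPoint B).asIdeal)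
      H).surjective
  rw [lenAt, ← Module.length_eq_of_surjective hs]
  exact (IsLocalizedModule.iso (IsLocalRing.closedPoint B).asIdeal.primeCompl
    (LinearMap.id : M →ₗ[B] M)).length_eq

end Len

section Step

variable {B : Type} [CommRing B] [Algebra ℂ B] [Algebra.EssFiniteType ℂ B]

lemma cyc_zero (hC : CycStmt) (d : ℕ) (M : Type) [AddCommGroup M] [Module B M] [Subsingleton M] :
    (cyc d M : Cyc B) = 0 := by
  ext p
  by_contra h
  have := ((hC.1 B).2.2.2.2.2.2 M d p h).2
  rw [Module.support_eq_empty] at this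
  exact this

lemma G_unit (hC : CycStmt) {u : B} (hu : IsUnit u) : G u = 0 := by
  refine Finsupp.lhom_ext' fun w => LinearMap.ext_ring ?_
  ext z
  by_contra h
  have h1 : dv w u z ≠ 0 := by simpa [G] using h
  exact z.isPrime.ne_top (Ideal.eq_top_of_isUnit_mem _ ((hC.2.1 B w).1 u z h1).2.1 hu)

lemma Gs_unit (hC : CycStmt) {u : B} (hu : IsUnit u) : ∀ l : List B, u ∈ l → Gs l = 0
  | [], h => by simp at h
  | a :: l, h => by
    rcases List.mem_cons.1 h with rfl | h
    · rw [Gs, G_unit hC hu, LinearMap.comp_zero]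
    · rw [Gs, Gs_unit hC hu l h, LinearMap.zero_comp]

lemma dim_le [IsLocalRing B] (hD : DimStmt) (p : PrimeSpectrum B) (l : List B)
    (hl : Ideal.ofList l ≤ IsLocalRing.maximalIdeal B)
    (h : ∀ q : PrimeSpectrum B, p ≤ q → Ideal.ofList l ≤ q.asIdeal →
      q = IsLocalRing.closedPoint B) :
    dm p ≤ dm (IsLocalRing.closedPoint B) + l.length := by
  refine hD.2.2.1.2 B p _ l ⟨⟨(IsLocalRing.closedPoint B).isPrime,
    sup_le (IsLocalRing.le_maximalIdeal p.isPrime.ne_top) hl⟩, fun q hq _ => ?_⟩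
  have := h ⟨q, hq.1⟩ (le_sup_left.trans hq.2) (le_sup_right.trans hq.2)
  rw [← this]

/-- The alternating sum of the cycles of a family of modules. -/
def chi (B : Type) [CommRing B] [Algebra ℂ B] (d K : ℕ) (X : ℕ → Type) [∀ k, AddCommGroup (X k)]
    [∀ k, Module B (X k)] : Cyc B :=
  ∑ k ∈ Finset.range (K + 1), (-1 : ℚ) ^ k • (cyc d (X k) : Cyc B)

variable {X Y : ℕ → Type} [∀ k, AddCommGroup (X k)] [∀ k, Module B (X k)]
  [∀ k, AddCommGroup (Y k)] [∀ k, Module B (Y k)]

lemma chi_congr (hC : CycStmt) (d K : ℕ) (e : ∀ k, X k ≃ₗ[B] Y k) : chi B d K X = chi B d K Y :=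
  Finset.sum_congr rfl fun k _ => by rw [(hC.1 B).2.2.2.1 _ _ d (e k)]

lemma step (hC : CycStmt) (f : B) (a : ∀ k, X k →ₗ[B] Y k)
    (h1 : ∀ k, Exact (fun x : X k => f • x) (a k)) (h0 : Surjective (a 0))
    (h2 : ∀ k, ∃ δ : Y (k + 1) →ₗ[B] X k, Exact (a (k + 1)) δ ∧ Exact δ (fun x : X k => f • x))
    (hf : ∀ k, Module.Finite B (X k)) :
    (∀ k, Module.Finite B (Y k)) ∧
    (∀ s, (∀ k, s < k → Subsingleton (X k)) → ∀ k, s + 1 < k → Subsingleton (Y k)) ∧
    (∀ k, ∀ p ∈ Module.support B (Y k), f ∈ p.asIdeal ∧ ∃ j, p ∈ Module.support B (X j)) ∧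
    ∀ d K, Subsingleton (X K) →
      (∀ k, ∀ p ∈ Module.support B (X k), dm p ≤ d + 1 ∧ (f ∈ p.asIdeal → dm p ≤ d)) →
      chi B d K Y = G f (chi B (d + 1) K X) := by
  have : IsNoetherianRing B := Algebra.EssFiniteType.isNoetherianRing ℂ B
  obtain ⟨e⟩ := exists_equiv f (a 0) (h1 0) h0
  have hs : ∀ k, ∃ (i : QuotSMulTop f (X (k + 1)) →ₗ[B] Y (k + 1))
      (q : Y (k + 1) →ₗ[B] Submodule.torsionBy B (X k) f),
      Injective i ∧ Surjective q ∧ Exact i q := fun k => by
    obtain ⟨δ, h3, h4⟩ := h2 k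
    exact exists_ses f (a (k + 1)) δ (h1 (k + 1)) h3 h4
  have hY : ∀ k, Module.Finite B (Y k) := by
    rintro (_ | k)
    · exact Module.Finite.equiv e
    · obtain ⟨i, q, hi, hq, hiq⟩ := hs k
      exact Module.Finite.of_exact hiq hq
  have hS : ∀ k, ∀ p ∈ Module.support B (Y k),
      f ∈ p.asIdeal ∧ ∃ j, p ∈ Module.support B (X j) := by
    rintro (_ | k) p hp
    · rw [← e.support_eq] at hp
      exact ⟨(supp_quot hp).1, 0, (supp_quot hp).2⟩
    · obtain ⟨i, q, hi, hq, hiq⟩ := hs k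
      rw [Module.support_of_exact hiq hi hq] at hp
      rcases hp with hp | hp
      · exact ⟨(supp_quot hp).1, _, (supp_quot hp).2⟩
      · exact ⟨(supp_tors hp).1, _, (supp_tors hp).2⟩
  refine ⟨hY, fun s h k hk => ?_, hS, fun d K hK hd => ?_⟩
  · obtain ⟨k, rfl⟩ : ∃ j, k = j + 1 := ⟨k - 1, by omega⟩
    obtain ⟨δ, h3, h4⟩ := h2 k
    have := h k (by omega)
    have := h (k + 1) (by omega)
    refine subsingleton_of_forall_eq 0 fun y => ?_
    obtain ⟨x, rfl⟩ := (h3 y).1 (Subsingleton.elim _ _)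
    rw [Subsingleton.elim x 0, map_zero]
  · have e0 : (cyc d (Y 0) : Cyc B) = cyc d (QuotSMulTop f (X 0)) :=
      ((hC.1 B).2.2.2.1 _ _ d e).symm
    have e1 : ∀ k, (cyc d (Y (k + 1)) : Cyc B) =
        cyc d (QuotSMulTop f (X (k + 1))) + cyc d (Submodule.torsionBy B (X k) f) := fun k => by
      obtain ⟨i, q, hi, hq, hiq⟩ := hs k
      refine (hC.1 B).2.2.2.2.1 _ _ _ i q d hi hq hiq fun p hp => ?_
      obtain ⟨hfp, j, hj⟩ := hS _ p hp
      exact (hd j p hj).2 hfp
    have e2 : ∀ k, G f (cyc (d + 1) (X k)) =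
        cyc d (QuotSMulTop f (X k)) - cyc d (Submodule.torsionBy B (X k) f) := fun k =>
      (hC.2.2.1 B (X k) f d (hd k)).symm
    have e3 : (cyc d (Submodule.torsionBy B (X K) f) : Cyc B) = 0 := cyc_zero hC d _
    have key : ∀ n, chi B d n Y = G f (chi B (d + 1) n X) +
        (-1 : ℚ) ^ n • (cyc d (Submodule.torsionBy B (X n) f) : Cyc B) := by
      intro n
      induction n with
      | zero => simp [chi, e0, e2]
      | succ n ih =>
        have a1 : chi B d (n + 1) Y = chi B d n Y + (-1 : ℚ) ^ (n + 1) • cyc d (Y (n + 1)) :=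
          Finset.sum_range_succ _ _
        have a2 : chi B (d + 1) (n + 1) X =
            chi B (d + 1) n X + (-1 : ℚ) ^ (n + 1) • cyc (d + 1) (X (n + 1)) :=
          Finset.sum_range_succ _ _
        rw [a1, a2, ih, map_add, map_smul, e1, e2, pow_succ]
        module
    rw [key K, e3, smul_zero, add_zero]

end Step

end Pool.Agent.Lib.MP_2c79a0_ag.Serre
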