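import Pool.Agent.Lib.MP_2c79a0_ag.SerreA
import Pool.Agent.Lib.MP_2c79a0_ag.SerreB

/-!
The Serre multiplicity equals the multiplicity obtained by cutting with a regular sequence.
-/

open CategoryTheory Function
open scoped Pointwise TensorProduct

noncomputable section

namespace Pool.Agent.Lib.MP_2c79a0_ag

namespace Serre

variable {A B : Type} [CommRing A] [CommRing B] [Algebra A B] [Algebra ℂ B]
  [Algebra.EssFiniteType ℂ B] [IsLocalRing B]

lemma induct (hD : DimStmt) (hC : CycStmt) (P : ChainComplex (ModuleCat.{0} A) ℕ)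
    (hP : ∀ k, Module.Flat A (P.X k)) (K : ℕ) (l : List B) :
    ∀ (N : Type) [AddCommGroup N] [Module B N] [Module A N] [IsScalarTower A B N] (s : ℕ),
      RingTheory.Sequence.IsWeaklyRegular N l → Ideal.ofList l ≤ IsLocalRing.maximalIdeal B →
      (∀ k, Module.Finite B (H B P N k)) → (∀ k, s < k → Subsingleton (H B P N k)) →
      (∀ k, ∀ p ∈ Module.support B (H B P N k), Ideal.ofList l ≤ p.asIdeal →
        p = IsLocalRing.closedPoint B) → s + l.length ≤ K →
      (∀ k, Module.Finite B (H B P (N ⧸ (Ideal.ofList l • ⊤ : Submodule B N)) k)) ∧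
      (∀ k, s + l.length < k →
        Subsingleton (H B P (N ⧸ (Ideal.ofList l • ⊤ : Submodule B N)) k)) ∧
      chi B (dm (IsLocalRing.closedPoint B)) K (H B P (N ⧸ (Ideal.ofList l • ⊤ : Submodule B N))) =
        Gs l (chi B (dm (IsLocalRing.closedPoint B) + l.length) K (H B P N)) := by
  induction l with
  | nil =>
    intro N _ _ _ _ s _ _ hf hs _ _
    have e : (N ⧸ (Ideal.ofList ([] : List B) • ⊤ : Submodule B N)) ≃ₗ[B] N :=
      Submodule.quotEquivOfEqBot _ (by simp)
    refine ⟨fun k => Module.Finite.equiv (HE P e k).symm, fun k hk => ?_,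
      chi_congr hC _ _ (HE P e)⟩
    have := hs k (by simpa using hk)
    exact (HE P e k).toEquiv.subsingleton
  | cons f l ih =>
    intro N _ _ _ _ s hr hm hf hs hp hK
    rw [RingTheory.Sequence.isWeaklyRegular_cons_iff] at hr
    rw [Ideal.ofList_cons, sup_le_iff] at hm
    have hex : Exact (f • (LinearMap.id : N →ₗ[B] N)) (f • ⊤ : Submodule B N).mkQ := by
      intro x
      rw [Submodule.mkQ_apply, Submodule.Quotient.mk_eq_zero,
        Submodule.mem_smul_pointwise_iff_exists]
      simp
    obtain ⟨h1, h0, h2⟩ := les P hP (f • (LinearMap.id : N →ₗ[B] N)) (f • ⊤ : Submodule B N).mkQ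
      hr.1 (Submodule.mkQ_surjective _) hex
    have hfun : ∀ k, ⇑(HM P (f • (LinearMap.id : N →ₗ[B] N)) k) = fun x => f • x :=
      fun k => funext (HM_smul P f k)
    simp only [hfun] at h1 h2
    obtain ⟨g1, g2, g3, g4⟩ := step (X := H B P N) (Y := H B P (QuotSMulTop f N)) hC f
      (HM P (f • ⊤ : Submodule B N).mkQ) h1 h0 h2 hf
    have hl : (f :: l).length = l.length + 1 := rfl
    obtain ⟨i1, i2, i3⟩ := ih (QuotSMulTop f N) (s + 1) hr.2 hm.2 g1 (g2 s hs)
      (fun k p hk hlp => by
        obtain ⟨hfp, j, hj⟩ := g3 k p hk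
        refine hp j p hj ?_
        rw [Ideal.ofList_cons]
        exact sup_le ((Ideal.span_singleton_le_iff_mem _).2 hfp) hlp) (by omega)
    have e := Submodule.quotOfListConsSMulTopEquivQuotSMulTopInner N f l
    refine ⟨fun k => Module.Finite.equiv (HE P e k).symm, fun k hk => ?_, ?_⟩
    · have := i2 k (by omega)
      exact (HE P e k).toEquiv.subsingleton
    · rw [chi_congr hC _ _ (HE P e), i3, g4 _ K (hs K (by omega)) fun k p hk => ⟨?_, fun hfp => ?_⟩]
      · rfl
      · refine dim_le hD p (f :: l) ?_ fun q hq hlq => hp k q (Module.mem_support_mono hq hk) hlq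
        rw [Ideal.ofList_cons]
        exact sup_le hm.1 hm.2
      · refine dim_le hD p l hm.2 fun q hq hlq => hp k q (Module.mem_support_mono hq hk) ?_
        rw [Ideal.ofList_cons]
        exact sup_le ((Ideal.span_singleton_le_iff_mem _).2 (hq hfp)) hlq

omit [Algebra ℂ B] [Algebra.EssFiniteType ℂ B] in
/-- The Serre sum in terms of the homology over `B`. -/
lemma serre_eq (L : Ideal B) (I J : Ideal A)
    (hs : Surjective ((Ideal.Quotient.mk L).comp (algebraMap A B)))
    (hI : I = L.comap (algebraMap A B)) (Q : ProjectiveResolution (ModuleCat.of A (A ⧸ J))) :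
    serreRing A I J = ∑ᶠ k : ℕ, (-1) ^ k * ((lenAt (IsLocalRing.closedPoint B)
      (H B Q.complex (B ⧸ (L • ⊤ : Submodule B B)) k)).toNat : ℤ) := by
  have hL : (L • ⊤ : Submodule B B) = L := by rw [smul_eq_mul, Ideal.mul_top]
  let φ : A →ₗ[A] (B ⧸ (L • ⊤ : Submodule B B)) :=
    ((L • ⊤ : Submodule B B).mkQ.restrictScalars A) ∘ₗ Algebra.linearMap A B
  have hb : ∀ b : B, ∃ a : A, b - algebraMap A B a ∈ L := fun b => by
    obtain ⟨a, ha⟩ := hs (Ideal.Quotient.mk L b)
    exact ⟨a, Ideal.Quotient.eq.1 ha.symm⟩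
  have hφ : Surjective φ := fun x => by
    obtain ⟨b, rfl⟩ := Submodule.Quotient.mk_surjective _ x
    obtain ⟨a, ha⟩ := hb b
    refine ⟨a, ((Submodule.Quotient.eq _).2 ?_).symm⟩
    rw [hL]
    exact ha
  have hk : I = LinearMap.ker φ := by
    ext a
    rw [hI, LinearMap.mem_ker]
    change _ ↔ Submodule.Quotient.mk (algebraMap A B a) = (0 : B ⧸ (L • ⊤ : Submodule B B))
    rw [Submodule.Quotient.mk_eq_zero, hL, Ideal.mem_comap]
  let e : (B ⧸ (L • ⊤ : Submodule B B)) ≃ₗ[A] ModuleCat.of A (A ⧸ I) :=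
    (Submodule.quotEquivOfEq _ _ hk ≪≫ₗ φ.quotKerEquivOfSurjective hφ).symm
  refine finsum_congr fun k => ?_
  obtain ⟨i⟩ := tor_equiv (B := B) Q e k
  rw [i.toLinearEquiv.length_eq, length_restrict, lenAt_closed]
  intro b
  obtain ⟨a, ha⟩ := hb b
  refine ⟨a, fun x => ?_⟩
  rw [← sub_eq_zero, ← sub_smul]
  refine H_ann Q.complex _ (fun n => ?_) k x
  obtain ⟨n, rfl⟩ := Submodule.Quotient.mk_surjective _ n
  rw [← Submodule.Quotient.mk_smul, Submodule.Quotient.mk_eq_zero]
  exact Submodule.smul_mem_smul ha Submodule.mem_top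

end Serre

open Serre in
theorem serreStmt (hD : DimStmt) (hC : CycStmt) : SerreStmt := by
  intro A B _ _ _ _ _ _ _ _ fs I J hr hs hI hP
  let Q : ProjectiveResolution (ModuleCat.of A (A ⧸ J)) := projectiveResolution _
  rw [serre_eq (Ideal.ofList fs) I J hs hI Q]
  by_cases hm : Ideal.ofList fs ≤ IsLocalRing.maximalIdeal B
  · have hflat : ∀ k, Module.Flat A (Q.complex.X k) := fun k => by
      have := Q.projective k
      infer_instance
    obtain ⟨b1, ⟨b0⟩⟩ := base B Q
    let e : H B Q.complex B 0 ≃ₗ[B] B ⧸ J.map (algebraMap A B) :=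
      b0 ≪≫ₗ (Algebra.TensorProduct.quotIdealMapEquivTensorQuot B J).toLinearEquiv.symm
    have hs0 : ∀ k, 0 < k → Subsingleton (H B Q.complex B k) := by
      rintro (_ | k) hk
      · omega
      · exact b1 k
    obtain ⟨i1, i2, i3⟩ := induct hD hC Q.complex hflat fs.length fs B 0 hr hm
      (by
        rintro (_ | k)
        · exact Module.Finite.equiv e.symm
        · have := b1 k
          infer_instance)
      hs0
      (by
        rintro (_ | k) p hp hl
        · rw [e.support_eq, Module.mem_support_iff_of_finite, Ideal.annihilator_quotient] at hp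
          exact hP p hp hl
        · have := b1 k
          rw [Module.support_eq_empty] at hp
          exact hp.elim)
      (by omega)
    have r1 : chi B (dm (IsLocalRing.closedPoint B) + fs.length) fs.length (H B Q.complex B) =
        cyc (dm (IsLocalRing.closedPoint B) + fs.length) (B ⧸ J.map (algebraMap A B)) := by
      rw [chi, Finset.sum_range_succ', Finset.sum_eq_zero, zero_add, pow_zero, one_smul]
      · exact (hC.1 B).2.2.2.1 _ _ _ e
      · intro k _
        have := b1 k
        rw [cyc_zero hC, smul_zero]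
    rw [← r1, ← i3, chi, finsum_eq_sum_of_support_subset (s := Finset.range (fs.length + 1)),
      Finsupp.finsetSum_apply, Int.cast_sum]
    · refine Finset.sum_congr rfl fun k _ => ?_
      have := i1 k
      rw [Finsupp.smul_apply, (hC.1 B).1, if_pos rfl]
      simp
    · intro k hk
      by_contra h
      have := i2 k (by simp at h; omega)
      apply hk
      simp [lenAt_closed]
  · obtain ⟨u, hu, hu'⟩ : ∃ u ∈ fs, IsUnit u := by
      by_contra h
      refine hm (Ideal.span_le.2 fun u hu => ?_)
      by_contra h'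
      exact h ⟨u, hu, IsLocalRing.notMem_maximalIdeal.1 h'⟩
    have ht : Ideal.ofList fs = ⊤ := Ideal.eq_top_of_isUnit_mem _ (Ideal.subset_span hu) hu'
    have h0 : ∀ k, Subsingleton (H B Q.complex (B ⧸ (Ideal.ofList fs • ⊤ : Submodule B B)) k) :=
      fun k => subsingleton_of_forall_eq 0 fun x => by
        rw [← one_smul B x]
        refine H_ann Q.complex _ (fun n => ?_) k x
        obtain ⟨n, rfl⟩ := Submodule.Quotient.mk_surjective _ n
        rw [← Submodule.Quotient.mk_smul, Submodule.Quotient.mk_eq_zero]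
        exact Submodule.smul_mem_smul (ht ▸ Submodule.mem_top) Submodule.mem_top
    rw [Gs_unit hC hu' fs hu]
    simp [lenAt_closed]

end Pool.Agent.Lib.MP_2c79a0_ag
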