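import Pool.Agent.Lib.MP_2c79a0_ag.Cyc

/-!
Homology of the complexes obtained by tensoring a complex of flat modules with a module over an
algebra: functoriality, the long exact sequence, comparison with `Tor`.
-/

open CategoryTheory CategoryTheory.Limits
open scoped TensorProduct

noncomputable section

namespace Pool.Agent.Lib.MP_2c79a0_ag.Serre

variable (A B : Type) [CommRing A] [CommRing B] [Algebra A B]

section TF

variable (N : Type) [AddCommGroup N] [Module B N] [Module A N] [IsScalarTower A B N]

/-- Tensoring with a `B`-module, as a functor from `A`-modules to `B`-modules. -/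
def TF : ModuleCat.{0} A ⥤ ModuleCat.{0} B where
  obj M := ModuleCat.of B (N ⊗[A] M)
  map g := ModuleCat.ofHom (TensorProduct.AlgebraTensorModule.map LinearMap.id g.hom)
  map_id M := by
    ext1
    simp
  map_comp f g := by
    ext1
    simp only [ModuleCat.hom_comp, ModuleCat.hom_ofHom]
    rw [← TensorProduct.AlgebraTensorModule.map_comp]
    simp

lemma TF_map_apply {M M' : ModuleCat.{0} A} (g : M ⟶ M') (x : N ⊗[A] M) :
    ((TF A B N).map g).hom x = LinearMap.lTensor N g.hom x := by
  induction x with
  | zero => exact (map_zero _).trans (map_zero _).symm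
  | tmul n m => rfl
  | add x y hx hy => exact (map_add _ _ _).trans (by rw [hx, hy, map_add]; rfl)

instance : (TF A B N).Additive where
  map_add {M M' f g} := by
    ext1
    refine LinearMap.ext fun x => ?_
    change ((TF A B N).map (f + g)).hom x = ((TF A B N).map f).hom x + ((TF A B N).map g).hom x
    rw [TF_map_apply, TF_map_apply, TF_map_apply]
    simp [LinearMap.lTensor_add]
    rfl

variable {A B N}
variable {N' : Type} [AddCommGroup N'] [Module B N'] [Module A N'] [IsScalarTower A B N']

variable (A) in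
/-- The natural transformation induced by a `B`-linear map. -/
def TN (φ : N →ₗ[B] N') : TF A B N ⟶ TF A B N' where
  app M := ModuleCat.ofHom (TensorProduct.AlgebraTensorModule.map φ LinearMap.id)
  naturality M M' g := by
    ext1
    simp only [TF, ModuleCat.hom_comp, ModuleCat.hom_ofHom]
    rw [← TensorProduct.AlgebraTensorModule.map_comp, ← TensorProduct.AlgebraTensorModule.map_comp]
    simp

lemma TN_app_apply (φ : N →ₗ[B] N') (M : ModuleCat.{0} A) (x : N ⊗[A] M) :
    ((TN A φ).app M).hom x = LinearMap.rTensor M (φ.restrictScalars A) x := by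
  induction x with
  | zero => exact (map_zero _).trans (map_zero _).symm
  | tmul n m => rfl
  | add x y hx hy => exact (map_add _ _ _).trans (by rw [hx, hy, map_add]; rfl)

end TF

variable {A} (P : ChainComplex (ModuleCat.{0} A) ℕ)

section C

variable (N : Type) [AddCommGroup N] [Module B N] [Module A N] [IsScalarTower A B N]

/-- The tensored complex. -/
def CN : ChainComplex (ModuleCat.{0} B) ℕ := ((TF A B N).mapHomologicalComplex _).obj P

/-- Its homology. -/
abbrev H (k : ℕ) : Type := ((CN B P N).homology k : ModuleCat.{0} B)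

variable {B N}
variable {N' : Type} [AddCommGroup N'] [Module B N'] [Module A N'] [IsScalarTower A B N']
variable {N'' : Type} [AddCommGroup N''] [Module B N''] [Module A N''] [IsScalarTower A B N'']

/-- The induced map of complexes. -/
def CM (φ : N →ₗ[B] N') : CN B P N ⟶ CN B P N' :=
  (NatTrans.mapHomologicalComplex (TN A φ) _).app P

lemma CM_f_apply (φ : N →ₗ[B] N') (k : ℕ) (x : N ⊗[A] P.X k) :
    ((CM P φ).f k).hom x = LinearMap.rTensor (P.X k) (φ.restrictScalars A) x :=
  TN_app_apply φ (P.X k) x

lemma CM_comp (φ : N →ₗ[B] N') (ψ : N' →ₗ[B] N'') : CM P (ψ ∘ₗ φ) = CM P φ ≫ CM P ψ := by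
  ext k : 1
  ext1
  refine LinearMap.ext fun x => ?_
  change ((CM P (ψ ∘ₗ φ)).f k).hom x = ((CM P ψ).f k).hom (((CM P φ).f k).hom x)
  rw [CM_f_apply, CM_f_apply, CM_f_apply, ← LinearMap.rTensor_comp_apply]
  rfl

lemma CM_smul (b : B) : CM P (b • (LinearMap.id : N →ₗ[B] N)) = b • 𝟙 (CN B P N) := by
  ext k : 1
  ext1
  refine LinearMap.ext fun (x : N ⊗[A] P.X k) => ?_
  refine (CM_f_apply P _ k x).trans ?_
  change _ = b • x
  induction x with
  | zero => simp
  | tmul n m => simp [TensorProduct.smul_tmul']
  | add x y hx hy => rw [map_add, hx, hy, smul_add]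

lemma CM_zero : CM P (0 : N →ₗ[B] N') = 0 := by
  ext k : 1
  ext1
  refine LinearMap.ext fun x => ?_
  change ((CM P (0 : N →ₗ[B] N')).f k).hom x = 0
  rw [CM_f_apply]
  simp
  rfl

/-- The induced map on homology. -/
def HM (φ : N →ₗ[B] N') (k : ℕ) : H B P N k →ₗ[B] H B P N' k :=
  (HomologicalComplex.homologyMap (CM P φ) k).hom

lemma HM_comp (φ : N →ₗ[B] N') (ψ : N' →ₗ[B] N'') (k : ℕ) :
    HM P (ψ ∘ₗ φ) k = HM P ψ k ∘ₗ HM P φ k := by
  simp only [HM, CM_comp, HomologicalComplex.homologyMap_comp, ModuleCat.hom_comp]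

lemma HM_smul (b : B) (k : ℕ) (x : H B P N k) :
    HM P (b • (LinearMap.id : N →ₗ[B] N)) k x = b • x := by
  have h : HomologicalComplex.homologyMap (b • 𝟙 (CN B P N)) k = b • 𝟙 _ := by
    have h1 : (HomologicalComplex.shortComplexFunctor _ _ k).map (b • 𝟙 (CN B P N)) =
        b • 𝟙 ((CN B P N).sc k) := rfl
    change ShortComplex.homologyMap _ = _
    rw [h1, ShortComplex.homologyMap_smul, ShortComplex.homologyMap_id]
    rfl
  simp only [HM, CM_smul, h]
  rfl

lemma HM_zero (k : ℕ) : HM P (0 : N →ₗ[B] N') k = 0 := by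
  simp only [HM, CM_zero, HomologicalComplex.homologyMap_zero]
  rfl

lemma HM_id (k : ℕ) (x : H B P N k) : HM P (LinearMap.id : N →ₗ[B] N) k x = x := by
  simpa using HM_smul P (1 : B) k x

/-- Elements killing `N` kill the homology. -/
lemma H_ann (b : B) (hb : ∀ n : N, b • n = 0) (k : ℕ) (x : H B P N k) : b • x = 0 := by
  have h : b • (LinearMap.id : N →ₗ[B] N) = 0 := LinearMap.ext hb
  rw [← HM_smul, h, HM_zero]
  rfl

/-- Isomorphic modules have isomorphic homology. -/
def HE (e : N ≃ₗ[B] N') (k : ℕ) : H B P N k ≃ₗ[B] H B P N' k :=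
  LinearEquiv.ofLinearMap (HM P e.toLinearMap k) (HM P e.symm.toLinearMap k)
    (by
      rw [← HM_comp]
      refine LinearMap.ext fun x => ?_
      simpa using HM_id P k x)
    (by
      rw [← HM_comp]
      refine LinearMap.ext fun x => ?_
      simpa using HM_id P k x)

/-- The long exact sequence. -/
lemma les (hP : ∀ k, Module.Flat A (P.X k)) (φ : N →ₗ[B] N') (ψ : N' →ₗ[B] N'')
    (hφ : Function.Injective φ) (hψ : Function.Surjective ψ) (he : Function.Exact φ ψ) :
    (∀ k, Function.Exact (HM P φ k) (HM P ψ k)) ∧ Function.Surjective (HM P ψ 0) ∧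
    ∀ k, ∃ δ : H B P N'' (k + 1) →ₗ[B] H B P N k,
      Function.Exact (HM P ψ (k + 1)) δ ∧ Function.Exact δ (HM P φ k) := by
  have hz : CM P φ ≫ CM P ψ = 0 := by
    rw [← CM_comp, he.linearMap_comp_eq_zero, CM_zero]
  let S : ShortComplex (ChainComplex (ModuleCat.{0} B) ℕ) := ShortComplex.mk _ _ hz
  have hepi : ∀ k, Function.Surjective ((CM P ψ).f k).hom := fun k => by
    have : ⇑((CM P ψ).f k).hom = LinearMap.rTensor (P.X k) (ψ.restrictScalars A) :=
      funext (CM_f_apply P ψ k)
    rw [this]
    exact LinearMap.rTensor_surjective _ hψ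
  have hS : S.ShortExact := by
    refine HomologicalComplex.shortExact_of_degreewise_shortExact S fun k => ?_
    have := hP k
    have e1 : ⇑((CM P φ).f k).hom = LinearMap.rTensor (P.X k) (φ.restrictScalars A) :=
      funext (CM_f_apply P φ k)
    have e2 : ⇑((CM P ψ).f k).hom = LinearMap.rTensor (P.X k) (ψ.restrictScalars A) :=
      funext (CM_f_apply P ψ k)
    refine ShortComplex.ShortExact.mk' ?_ ?_ ?_
    · rw [ShortComplex.ShortExact.moduleCat_exact_iff_function_exact]
      change Function.Exact ((CM P φ).f k).hom ((CM P ψ).f k).hom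
      rw [e1, e2]
      exact Module.Flat.rTensor_exact _ he
    · rw [ModuleCat.mono_iff_injective]
      change Function.Injective ((CM P φ).f k).hom
      rw [e1]
      exact Module.Flat.rTensor_preserves_injective_linearMap _ hφ
    · rw [ModuleCat.epi_iff_surjective]
      exact hepi k
  refine ⟨fun k => ?_, ?_, fun k => ⟨(hS.δ (k + 1) k rfl).hom, ?_, ?_⟩⟩
  · have := hS.homology_exact₂ k
    rwa [ShortComplex.ShortExact.moduleCat_exact_iff_function_exact] at this
  · have : Epi ((CM P ψ).f 0) := (ModuleCat.epi_iff_surjective _).2 (hepi 0)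
    have := HomologicalComplex.epi_homologyMap_of_epi_of_not_rel (CM P ψ) 0 (by simp)
    exact (ModuleCat.epi_iff_surjective _).1 this
  · have := hS.homology_exact₃ (k + 1) k rfl
    rwa [ShortComplex.ShortExact.moduleCat_exact_iff_function_exact] at this
  · have := hS.homology_exact₁ (k + 1) k rfl
    rwa [ShortComplex.ShortExact.moduleCat_exact_iff_function_exact] at this

/-- Comparison with `Tor`. -/
lemma tor_equiv {X Y : ModuleCat.{0} A} (Q : ProjectiveResolution Y) (e : N ≃ₗ[A] X) (k : ℕ) :
    Nonempty (((Tor (ModuleCat.{0} A) k).obj X).obj Y ≅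
      (ModuleCat.restrictScalars (algebraMap A B)).obj ((CN B Q.complex N).homology k)) := by
  let R := ModuleCat.restrictScalars.{0} (algebraMap A B)
  have hR : R.PreservesHomology := by
    refine Functor.preservesHomology_of_map_exact R fun S hS => ?_
    rw [ShortComplex.ShortExact.moduleCat_exact_iff_function_exact] at hS ⊢
    exact hS
  let F := (MonoidalCategory.tensoringLeft (ModuleCat.{0} A)).obj X
  let ε : ∀ M : ModuleCat.{0} A, (TF A B N ⋙ R).obj M ≃ₗ[A] F.obj M := fun M =>
    AddEquiv.toLinearEquiv (R := A) (M := (TF A B N ⋙ R).obj M) (M₂ := F.obj M)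
      (TensorProduct.congr e (LinearEquiv.refl A M)).toAddEquiv (fun a (x : N ⊗[A] M) => by
        change TensorProduct.congr e (LinearEquiv.refl A M) (algebraMap A B a • x) =
          a • TensorProduct.congr e (LinearEquiv.refl A M) x
        rw [algebraMap_smul, map_smul])
  let η : TF A B N ⋙ R ≅ F := NatIso.ofComponents (fun M => (ε M).toModuleIso) (by
    intro M M' g
    ext1
    refine LinearMap.ext fun (x : N ⊗[A] M) => ?_
    change TensorProduct.congr e (LinearEquiv.refl A M') (((TF A B N).map g).hom x) =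
      LinearMap.lTensor X g.hom (TensorProduct.congr e (LinearEquiv.refl A M) x)
    rw [TF_map_apply]
    induction x with
    | zero => simp
    | tmul n m => simp
    | add x y hx hy => simp only [map_add, hx, hy])
  refine ⟨Q.isoLeftDerivedObj F k ≪≫
    (HomologicalComplex.homologyFunctor _ _ k).mapIso
      ((NatIso.mapHomologicalComplex η.symm _).app Q.complex) ≪≫ ?_⟩
  exact ((CN B Q.complex N).sc k).mapHomologyIso R

end C

/-- Homology for a flat algebra. -/
lemma base [Module.Flat A B] {Y : ModuleCat.{0} A} (Q : ProjectiveResolution Y) :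
    (∀ k, Subsingleton (H B Q.complex B (k + 1))) ∧
      Nonempty (H B Q.complex B 0 ≃ₗ[B] B ⊗[A] Y) := by
  have hF : (TF A B B).PreservesHomology := by
    refine Functor.preservesHomology_of_map_exact _ fun S hS => ?_
    rw [ShortComplex.ShortExact.moduleCat_exact_iff_function_exact] at hS ⊢
    have e1 : ⇑((TF A B B).map S.f).hom = LinearMap.lTensor B S.f.hom :=
      funext (TF_map_apply A B B S.f)
    have e2 : ⇑((TF A B B).map S.g).hom = LinearMap.lTensor B S.g.hom :=
      funext (TF_map_apply A B B S.g)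
    change Function.Exact ((TF A B B).map S.f).hom ((TF A B B).map S.g).hom
    rw [e1, e2]
    exact Module.Flat.lTensor_exact B hS
  let π := ((TF A B B).mapHomologicalComplex _).map Q.π
  have hq : QuasiIso π := inferInstance
  let e := (HomologicalComplex.singleMapHomologicalComplex (TF A B B) (ComplexShape.down ℕ) 0).app Y
  have iso : ∀ k, Nonempty ((CN B Q.complex B).homology k ≅
      ((HomologicalComplex.single _ (ComplexShape.down ℕ) 0).obj ((TF A B B).obj Y)).homology k) :=
    fun k => ⟨isoOfQuasiIsoAt π k ≪≫ (HomologicalComplex.homologyFunctor _ _ k).mapIso e⟩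
  refine ⟨fun k => ?_, ?_⟩
  · obtain ⟨i⟩ := iso (k + 1)
    have := (HomologicalComplex.isZero_single_obj_homology (ComplexShape.down ℕ) 0
      ((TF A B B).obj Y) (k + 1) (by omega)).of_iso i
    exact ModuleCat.isZero_iff_subsingleton.1 this
  · obtain ⟨i⟩ := iso 0
    exact ⟨(i ≪≫ HomologicalComplex.singleObjHomologySelfIso _ _ _).toLinearEquiv⟩

end Pool.Agent.Lib.MP_2c79a0_ag.Serre
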