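import Pool.Agent.Lib.MP_2c79a0_ag.Geo

/-!
The standard charts of projective space attached to hyperplanes in general position.
-/

open AlgebraicGeometry CategoryTheory TopologicalSpace Algebra

noncomputable section

namespace Pool.Agent.Lib.MP_2c79a0_ag

attribute [local instance] MvPolynomial.gradedAlgebra

namespace TowerBase

open MvPolynomial HomogeneousLocalization

variable {n : ℕ}

lemma lin_hom (v : Fin (n + 1) → ℂ) : (lin v).IsHomogeneous 1 :=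
  IsHomogeneous.sum _ _ _ fun _ _ => isHomogeneous_C_mul_X _ _

/-- product of the linear forms in `T` -/
def GT (ℓ : Fin (2 * n + 2) → Fin (n + 1) → ℂ) (T : Finset (Fin (2 * n + 2))) :
    MvPolynomial (Fin (n + 1)) ℂ := ∏ j ∈ T, lin (ℓ j)

lemma GT_mem (ℓ : Fin (2 * n + 2) → Fin (n + 1) → ℂ) (T : Finset (Fin (2 * n + 2))) :
    GT ℓ T ∈ gr n T.card := by
  have := IsHomogeneous.prod T (fun j => lin (ℓ j)) (fun _ => 1) fun j _ => lin_hom _
  simpa [GT] using this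

lemma alg_GT (ℓ : Fin (2 * n + 2) → Fin (n + 1) → ℂ) (T : Finset (Fin (2 * n + 2))) :
    algebraMap _ (Om n) (GT ℓ T) = ∏ j ∈ T, LL ℓ j := by
  simp [GT, LL]

lemma X_eq {ℓ : Fin (2 * n + 2) → Fin (n + 1) → ℂ} (hg : GenPos ℓ)
    (s : Finset (Fin (2 * n + 2))) (hs : s.card = n + 1) (k : Fin (n + 1)) :
    ∃ c : s → ℂ, (X k : MvPolynomial (Fin (n + 1)) ℂ) = ∑ i : s, C (c i) * lin (ℓ i) := by
  have h1 := (hg s hs.le).span_eq_top_of_card_eq_finrank' (by simp [hs])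
  have h2 : (Pi.single k 1 : Fin (n + 1) → ℂ) ∈ Submodule.span ℂ (Set.range fun i : s => ℓ i) := by
    rw [h1]; trivial
  obtain ⟨c, hc⟩ := (Submodule.mem_span_range_iff_exists_fun ℂ).1 h2
  refine ⟨c, ?_⟩
  have h3 : ∀ k', ∑ i : s, c i * ℓ i k' = (Pi.single k 1 : Fin (n + 1) → ℂ) k' := by
    intro k'
    have := congrFun hc k'
    simpa [Finset.sum_apply] using this
  simp only [lin, Finset.mul_sum, ← mul_assoc, ← C_mul]
  rw [Finset.sum_comm]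
  simp only [← Finset.sum_mul, ← map_sum, h3]
  rw [Finset.sum_eq_single k]
  · simp
  · intro b _ hb
    simp [hb]
  · simp

lemma scale {a : MvPolynomial (Fin (n + 1)) ℂ} {m : ℕ} (ha : a.IsHomogeneous m) (c : Om n) :
    aeval (fun k => c * algebraMap (MvPolynomial (Fin (n + 1)) ℂ) (Om n) (X k)) a =
      c ^ m * algebraMap _ _ a := by
  conv_rhs => rw [a.as_sum, map_sum, Finset.mul_sum]
  conv_lhs => rw [a.as_sum, map_sum]
  refine Finset.sum_congr rfl fun d hd => ?_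
  have h := ha.degree_eq_sum_deg_support hd
  rw [aeval_monomial, monomial_eq, map_mul, Finsupp.prod, Finsupp.prod, map_prod]
  simp only [mul_pow, Finset.prod_mul_distrib, Finset.prod_pow_eq_pow_sum, map_pow, ← h]
  have : algebraMap (MvPolynomial (Fin (n + 1)) ℂ) (Om n) (C (coeff d a)) =
      algebraMap ℂ (Om n) (coeff d a) := rfl
  rw [this]
  ring

lemma aeval_mem (R : Subalgebra ℂ (Om n)) (x : Fin (n + 1) → Om n) (hx : ∀ k, x k ∈ R)
    (a : MvPolynomial (Fin (n + 1)) ℂ) : aeval x a ∈ R := by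
  induction a using MvPolynomial.induction_on with
  | C r => rw [aeval_C]; exact R.algebraMap_mem r
  | add p q hp hq => rw [map_add]; exact add_mem hp hq
  | mul_X p k hp => rw [map_mul, aeval_X]; exact mul_mem hp (hx k)

/-- the map from the localisation to the fraction field -/
def lft (G : MvPolynomial (Fin (n + 1)) ℂ) (hG : algebraMap _ (Om n) G ≠ 0) :
    Localization.Away G →+* Om n :=
  IsLocalization.Away.lift G (g := algebraMap _ (Om n)) (IsUnit.mk0 _ hG)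

lemma lft_alg (G : MvPolynomial (Fin (n + 1)) ℂ) (hG : algebraMap _ (Om n) G ≠ 0)
    (a : MvPolynomial (Fin (n + 1)) ℂ) : lft G hG (algebraMap _ _ a) = algebraMap _ _ a :=
  IsLocalization.Away.lift_eq _ _ _

/-- degree zero fractions as rational functions -/
def emb (G : MvPolynomial (Fin (n + 1)) ℂ) (hG : algebraMap _ (Om n) G ≠ 0) :
    Away (gr n) G →+* Om n :=
  (lft G hG).comp (algebraMap _ _)

lemma emb_apply (G : MvPolynomial (Fin (n + 1)) ℂ) (hG : algebraMap _ (Om n) G ≠ 0)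
    (h : Away (gr n) G) : emb G hG h = lft G hG h.val := rfl

lemma emb_spec (G : MvPolynomial (Fin (n + 1)) ℂ) (hG : algebraMap _ (Om n) G ≠ 0)
    (h : Away (gr n) G) (P Q : MvPolynomial (Fin (n + 1)) ℂ)
    (hPQ : h.val * algebraMap _ _ Q = algebraMap _ _ P) :
    emb G hG h * algebraMap _ _ Q = algebraMap _ _ P := by
  rw [emb_apply, ← lft_alg G hG, ← lft_alg G hG, ← map_mul, hPQ]

lemma emb_mk {G : MvPolynomial (Fin (n + 1)) ℂ} (hG : algebraMap _ (Om n) G ≠ 0) {d : ℕ}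
    (hd : G ∈ gr n d) (k : ℕ) (a : MvPolynomial (Fin (n + 1)) ℂ) (ha : a ∈ gr n (k • d)) :
    emb G hG (Away.mk (gr n) hd k a ha) = algebraMap _ _ a / algebraMap _ _ G ^ k := by
  rw [emb_apply, Away.val_mk, eq_div_iff (pow_ne_zero _ hG), ← map_pow, ← lft_alg G hG,
    ← lft_alg G hG, ← map_mul]
  congr 1
  rw [Localization.mk_eq_mk']
  exact IsLocalization.mk'_spec (Localization.Away G) a (⟨G ^ k, k, rfl⟩ : Submonoid.powers G)

lemma emb_inj {G : MvPolynomial (Fin (n + 1)) ℂ} (hG : algebraMap _ (Om n) G ≠ 0) {d : ℕ}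
    (hd : G ∈ gr n d) : Function.Injective (emb G hG) := by
  rw [injective_iff_map_eq_zero]
  intro h hh
  obtain ⟨k, a, ha, rfl⟩ := Away.mk_surjective (gr n) hd h
  rw [emb_mk, div_eq_zero_iff, or_iff_left (pow_ne_zero _ hG)] at hh
  have : a = 0 := (IsFractionRing.injective (MvPolynomial (Fin (n + 1)) ℂ) (Om n))
    (hh.trans (map_zero _).symm)
  subst this
  ext
  simp [Localization.mk_zero]

/-- the ring generated by the ratios with denominators in `T` -/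
def RT (ℓ : Fin (2 * n + 2) → Fin (n + 1) → ℂ) (T : Finset (Fin (2 * n + 2))) :
    Subalgebra ℂ (Om n) := adjoin ℂ {x | ∃ i, ∃ j ∈ T, x = LL ℓ i / LL ℓ j}

lemma GT_ne {ℓ : Fin (2 * n + 2) → Fin (n + 1) → ℂ} (hL : ∀ i, LL ℓ i ≠ 0)
    (T : Finset (Fin (2 * n + 2))) : algebraMap _ (Om n) (GT ℓ T) ≠ 0 := by
  rw [alg_GT]
  exact Finset.prod_ne_zero_iff.2 fun j _ => hL j

lemma mem_RT_iff {ℓ : Fin (2 * n + 2) → Fin (n + 1) → ℂ} (hg : GenPos ℓ) (hL : ∀ i, LL ℓ i ≠ 0)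
    {T : Finset (Fin (2 * n + 2))} {i0 : Fin (2 * n + 2)} (hi0 : i0 ∈ T) (x : Om n) :
    x ∈ RT ℓ T ↔ ∃ h, emb (GT ℓ T) (GT_ne hL T) h = x := by
  classical
  constructor
  · intro hx
    induction hx using Algebra.adjoin_induction with
    | mem x hx =>
      obtain ⟨i, j, hj, rfl⟩ := hx
      have hm : lin (ℓ i) * GT ℓ (T.erase j) ∈ gr n (1 • T.card) := by
        have := SetLike.mul_mem_graded (A := gr n) (lin_hom (ℓ i)) (GT_mem ℓ (T.erase j))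
        have e : 1 + (T.erase j).card = 1 • T.card := by
          have := Finset.card_pos.2 ⟨j, hj⟩
          rw [Finset.card_erase_of_mem hj, one_smul]
          omega
        rwa [e] at this
      refine ⟨Away.mk (gr n) (GT_mem ℓ T) 1 _ hm, ?_⟩
      rw [emb_mk, pow_one, map_mul, alg_GT, alg_GT, ← Finset.mul_prod_erase T _ hj]
      have h1 : ∏ k ∈ T.erase j, LL ℓ k ≠ 0 := Finset.prod_ne_zero_iff.2 fun k _ => hL k
      rw [mul_div_mul_right _ _ h1]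
      rfl
    | algebraMap r =>
      have hm : (C r : MvPolynomial (Fin (n + 1)) ℂ) ∈ gr n (0 • T.card) := by
        rw [zero_smul]; exact isHomogeneous_C _ r
      refine ⟨Away.mk (gr n) (GT_mem ℓ T) 0 _ hm, ?_⟩
      rw [emb_mk, pow_zero, div_one]
      rfl
    | add x y _ _ hx hy =>
      obtain ⟨a, rfl⟩ := hx
      obtain ⟨b, rfl⟩ := hy
      exact ⟨a + b, map_add _ _ _⟩
    | mul x y _ _ hx hy =>
      obtain ⟨a, rfl⟩ := hx
      obtain ⟨b, rfl⟩ := hy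
      exact ⟨a * b, map_mul _ _ _⟩
  · rintro ⟨h, rfl⟩
    obtain ⟨k, a, ha, rfl⟩ := Away.mk_surjective (gr n) (GT_mem ℓ T) h
    have hr : ∀ i, ∀ j ∈ T, LL ℓ i / LL ℓ j ∈ RT ℓ T :=
      fun i j hj => subset_adjoin ⟨i, j, hj, rfl⟩
    obtain ⟨s, -, hs⟩ := Finset.exists_subset_card_eq (s := (Finset.univ : Finset (Fin (2 * n + 2))))
      (n := n + 1) (by simp; omega)
    have hX : ∀ k, (LL ℓ i0)⁻¹ * algebraMap (MvPolynomial (Fin (n + 1)) ℂ) (Om n) (X k) ∈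
        RT ℓ T := by
      intro k
      obtain ⟨c, hc⟩ := X_eq hg s hs k
      rw [hc, map_sum, Finset.mul_sum]
      refine sum_mem fun i _ => ?_
      rw [map_mul]
      have e : (LL ℓ i0)⁻¹ * (algebraMap (MvPolynomial (Fin (n + 1)) ℂ) (Om n) (C (c i)) *
          algebraMap (MvPolynomial (Fin (n + 1)) ℂ) (Om n) (lin (ℓ i))) =
          algebraMap ℂ (Om n) (c i) * (LL ℓ i / LL ℓ i0) := by
        rw [div_eq_mul_inv]
        show _ * (algebraMap ℂ (Om n) (c i) * LL ℓ i) = _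
        ring
      rw [e]
      exact mul_mem (Subalgebra.algebraMap_mem _ _) (hr _ _ hi0)
    have h1 := aeval_mem (RT ℓ T) _ hX a
    rw [scale (m := k • T.card) ha] at h1
    have h2 : (∏ j ∈ T, LL ℓ i0 / LL ℓ j) ^ k ∈ RT ℓ T :=
      pow_mem (prod_mem fun j hj => hr _ _ hj) k
    have h3 := mul_mem h1 h2
    rw [emb_mk, alg_GT]
    convert h3 using 1
    rw [Finset.prod_div_distrib, Finset.prod_const, div_pow, ← pow_mul, smul_eq_mul, mul_comm k,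
      inv_pow]
    have h4 : LL ℓ i0 ^ (T.card * k) ≠ 0 := pow_ne_zero _ (hL i0)
    have h5 : (∏ j ∈ T, LL ℓ j) ^ k ≠ 0 :=
      pow_ne_zero _ (Finset.prod_ne_zero_iff.2 fun j _ => hL j)
    field_simp

lemma exists_equiv {ℓ : Fin (2 * n + 2) → Fin (n + 1) → ℂ} (hg : GenPos ℓ) (hL : ∀ i, LL ℓ i ≠ 0)
    {T : Finset (Fin (2 * n + 2))} {i0 : Fin (2 * n + 2)} (hi0 : i0 ∈ T)
    (R : Subalgebra ℂ (Om n)) (hR : R = RT ℓ T) :
    ∃ e : Away (gr n) (GT ℓ T) ≃+* R, ∀ h, (e h : Om n) = emb (GT ℓ T) (GT_ne hL T) h := by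
  subst hR
  let φ : Away (gr n) (GT ℓ T) →+* RT ℓ T :=
    (emb (GT ℓ T) (GT_ne hL T)).codRestrict (RT ℓ T) fun h => (mem_RT_iff hg hL hi0 _).2 ⟨h, rfl⟩
  refine ⟨RingEquiv.ofBijective φ ⟨fun a b hab => ?_, fun x => ?_⟩, fun h => rfl⟩
  · exact emb_inj (GT_ne hL T) (GT_mem ℓ T) (congrArg Subtype.val hab)
  · obtain ⟨h, hh⟩ := (mem_RT_iff hg hL hi0 x.1).1 x.2
    exact ⟨h, Subtype.ext hh⟩

lemma R0_eq (ℓ : Fin (2 * n + 2) → Fin (n + 1) → ℂ) : R0 ℓ = RT ℓ Finset.univ := by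
  unfold R0 RT
  congr 1
  ext x
  simp

lemma single_of_mem {σ : Cone (2 * n + 2)} (hσ : ∀ ρ ∈ σ, ρ.card = 1) {i : Fin (2 * n + 2)} :
    i ∈ supp σ ↔ ({i} : Ray _) ∈ σ := by
  unfold supp
  rw [Finset.mem_biUnion]
  constructor
  · rintro ⟨ρ, hρ, hi⟩
    obtain ⟨a, rfl⟩ := Finset.card_eq_one.1 (hσ ρ hρ)
    rw [_root_.id, Finset.mem_singleton] at hi
    rwa [hi]
  · intro h
    exact ⟨_, h, Finset.mem_singleton_self i⟩

lemma Rc_eq {ℓ : Fin (2 * n + 2) → Fin (n + 1) → ℂ} (hL : ∀ i, LL ℓ i ≠ 0)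
    {σ : Cone (2 * n + 2)} {i0 : Fin (2 * n + 2)} (hi0 : i0 ∉ supp σ)
    (h : ∀ j, LL ℓ j / LL ℓ i0 ∈ Rc ℓ σ i0 fun ρ => ∏ i ∈ ρ, LL ℓ i / LL ℓ i0) :
    (Rc ℓ σ i0 fun ρ => ∏ i ∈ ρ, LL ℓ i / LL ℓ i0) = RT ℓ (supp σ)ᶜ := by
  apply le_antisymm
  · refine adjoin_le ?_
    rintro x (⟨ρ, hρ, rfl⟩ | ⟨j, hj, rfl⟩)
    · exact prod_mem fun i _ => subset_adjoin ⟨i, i0, Finset.mem_compl.2 hi0, rfl⟩
    · exact subset_adjoin ⟨i0, j, Finset.mem_compl.2 hj, rfl⟩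
  · refine adjoin_le ?_
    rintro x ⟨i, j, hj, rfl⟩
    have h1 : LL ℓ i0 / LL ℓ j ∈ Rc ℓ σ i0 fun ρ => ∏ i ∈ ρ, LL ℓ i / LL ℓ i0 :=
      subset_adjoin (Or.inr ⟨j, Finset.mem_compl.1 hj, rfl⟩)
    have h2 := mul_mem (h i) h1
    rwa [div_mul_div_cancel₀ (hL i0)] at h2

lemma mem_Dplus_GT (ℓ : Fin (2 * n + 2) → Fin (n + 1) → ℂ) (T : Finset (Fin (2 * n + 2)))
    (x : Pn n) : x ∈ Dplus (GT ℓ T) ↔ ∀ j ∈ T, x ∈ Dplus (lin (ℓ j)) := by
  have hp : (ProjectiveSpectrum.asHomogeneousIdeal (𝒜 := gr n) x).toIdeal.IsPrime :=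
    ProjectiveSpectrum.isPrime x
  show GT ℓ T ∉ (ProjectiveSpectrum.asHomogeneousIdeal (𝒜 := gr n) x).toIdeal ↔
    ∀ j ∈ T, lin (ℓ j) ∉ (ProjectiveSpectrum.asHomogeneousIdeal (𝒜 := gr n) x).toIdeal
  rw [GT, Ideal.IsPrime.prod_mem_iff]
  simp

/-- the chart attached to an isomorphism -/
def ch {G : MvPolynomial (Fin (n + 1)) ℂ} {d : ℕ} (hG : G ∈ gr n d) (hd : 0 < d) {R : Type}
    [CommRing R] (e : Away (gr n) G ≃+* R) : Spec (.of R) ⟶ Pn n :=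
  Spec.map (CommRingCat.ofHom e.toRingHom) ≫ Proj.awayι (gr n) G hG hd

lemma isIso_map {A R : Type} [CommRing A] [CommRing R] (e : A ≃+* R) :
    IsIso (Spec.map (CommRingCat.ofHom e.toRingHom)) := by
  have : IsIso (CommRingCat.ofHom e.toRingHom) := e.toCommRingCatIso.isIso_hom
  infer_instance

lemma ch_open {G : MvPolynomial (Fin (n + 1)) ℂ} {d : ℕ} (hG : G ∈ gr n d) (hd : 0 < d) {R : Type}
    [CommRing R] (e : Away (gr n) G ≃+* R) : IsOpenImmersion (ch hG hd e) := by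
  have := isIso_map e
  exact IsOpenImmersion.comp _ (Proj.awayι (gr n) G hG hd)

lemma ch_range {G : MvPolynomial (Fin (n + 1)) ℂ} {d : ℕ} (hG : G ∈ gr n d) (hd : 0 < d)
    {R : Type} [CommRing R] (e : Away (gr n) G ≃+* R) :
    Set.range (ch hG hd e) = (Dplus G : Set (Pn n)) := by
  have := isIso_map e
  have h1 := (Scheme.Hom.opensRange_comp_of_isIso (Spec.map (CommRingCat.ofHom e.toRingHom))
    (Proj.awayι (gr n) G hG hd)).trans (Proj.opensRange_awayι (gr n) G hG hd)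
  exact congrArg (fun U : (Pn n).Opens => (U : Set (Pn n))) h1

lemma ch_mem {G : MvPolynomial (Fin (n + 1)) ℂ} {d : ℕ} (hG : G ∈ gr n d) (hd : 0 < d)
    {R : Type} [CommRing R] (e : Away (gr n) G ≃+* R) {g : MvPolynomial (Fin (n + 1)) ℂ}
    (hg : g ∈ gr n 1) (P : PrimeSpectrum R) :
    ch hG hd e P ∈ Dplus g ↔ e (Away.isLocalizationElem hG hg) ∉ P.asIdeal := by
  have h1 := Proj.awayι_preimage_basicOpen (gr n) hG hd hg one_pos
  have h2 : ch hG hd e P ∈ Dplus g ↔ (Spec.map (CommRingCat.ofHom e.toRingHom) P) ∈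
      Proj.awayι (gr n) G hG hd ⁻¹ᵁ Proj.basicOpen (gr n) g := Iff.rfl
  rw [h2, h1]
  exact Iff.rfl

lemma awayι_congr {G : MvPolynomial (Fin (n + 1)) ℂ} {d d' : ℕ} (hG : G ∈ gr n d) (hd : 0 < d)
    (hG' : G ∈ gr n d') (hd' : 0 < d') :
    Proj.awayι (gr n) G hG hd = Proj.awayι (gr n) G hG' hd' := rfl

lemma card_le {ℓ : Fin (2 * n + 2) → Fin (n + 1) → ℂ} (hg : GenPos ℓ) (x : Pn n)
    (Z : Finset (Fin (2 * n + 2))) (hZ : ∀ i ∈ Z, x ∉ Dplus (lin (ℓ i))) : Z.card ≤ n := by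
  by_contra hc
  obtain ⟨s, hs1, hs⟩ := Finset.exists_subset_card_eq (s := Z) (n := n + 1) (by omega)
  set I := (ProjectiveSpectrum.asHomogeneousIdeal (𝒜 := gr n) x).toIdeal with hI
  have hX : ∀ k, (X k : MvPolynomial (Fin (n + 1)) ℂ) ∈ I := by
    intro k
    obtain ⟨c, hc⟩ := X_eq hg s hs k
    rw [hc]
    refine sum_mem fun i _ => I.mul_mem_left _ ?_
    have := hZ i (hs1 i.2)
    exact not_not.1 this
  refine ProjectiveSpectrum.not_irrelevant_le (𝒜 := gr n) x ?_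
  rw [HomogeneousIdeal.irrelevant_le]
  intro i hi p hp
  have hp' : p.IsHomogeneous i := hp
  show p ∈ I
  have h1 : p ∈ Ideal.span (X '' (Set.univ : Set (Fin (n + 1)))) := by
    rw [mem_ideal_span_X_image]
    intro m hm
    by_contra hcon
    push Not at hcon
    have h2 := hp'.degree_eq_sum_deg_support hm
    rw [Finset.sum_eq_zero fun k _ => hcon k trivial] at h2
    omega
  refine Ideal.span_le.2 ?_ h1
  rintro _ ⟨k, -, rfl⟩
  exact hX k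

/-- the divisor of a ray -/
def DD (ℓ : Fin (2 * n + 2) → Fin (n + 1) → ℂ) (ρ : Ray (2 * n + 2)) : Set (Pn n) :=
  {x | ∃ i, ρ = {i} ∧ x ∉ Dplus (lin (ℓ i))}

lemma DD_single (ℓ : Fin (2 * n + 2) → Fin (n + 1) → ℂ) (i : Fin (2 * n + 2)) :
    DD ℓ {i} = (Dplus (lin (ℓ i)) : Set (Pn n))ᶜ := by
  ext x
  constructor
  · rintro ⟨j, hj, hx⟩
    rw [Finset.singleton_inj] at hj
    subst hj
    exact hx
  · intro hx
    exact ⟨i, rfl, hx⟩

lemma DD_closed (ℓ : Fin (2 * n + 2) → Fin (n + 1) → ℂ) (ρ : Ray (2 * n + 2)) :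
    IsClosed (DD ℓ ρ) := by
  by_cases h : ∃ i, ρ = {i}
  · obtain ⟨i, rfl⟩ := h
    rw [DD_single]
    exact (Dplus (lin (ℓ i))).isOpen.isClosed_compl
  · have : DD ℓ ρ = ∅ := by
      ext x
      simp only [Set.mem_empty_iff_false, iff_false]
      rintro ⟨i, hi, -⟩
      exact h ⟨i, hi⟩
    rw [this]
    exact isClosed_empty

lemma exists_i0 (σ : MaxC n (baseFan n (2 * n + 2))) : ∃ i0, i0 ∉ supp σ.1 := by
  have h1 : (supp σ.1).card ≤ ∑ ρ ∈ σ.1, (_root_.id ρ : Finset _).card := Finset.card_biUnion_le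
  rw [Finset.sum_congr rfl fun ρ hρ => show (_root_.id ρ : Finset _).card = 1 from σ.2.1.1 ρ hρ,
    Finset.sum_const, smul_eq_mul, mul_one, σ.2.2] at h1
  by_contra hc
  push Not at hc
  have h2 : supp σ.1 = Finset.univ := Finset.eq_univ_of_forall hc
  rw [h2, Finset.card_univ, Fintype.card_fin] at h1
  omega

lemma memD_aux {ℓ : Fin (2 * n + 2) → Fin (n + 1) → ℂ} (hL : ∀ i, LL ℓ i ≠ 0)
    {σ : Cone (2 * n + 2)} (hσ : ∀ ρ ∈ σ, ρ.card = 1) {i0 : Fin (2 * n + 2)}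
    (h : ∀ j, LL ℓ j / LL ℓ i0 ∈ Rc ℓ σ i0 fun ρ => ∏ i ∈ ρ, LL ℓ i / LL ℓ i0)
    (hd : 0 < ((supp σ)ᶜ).card)
    (e : Away (gr n) (GT ℓ (supp σ)ᶜ) ≃+* Rc ℓ σ i0 fun ρ => ∏ i ∈ ρ, LL ℓ i / LL ℓ i0)
    (he : ∀ h, (e h : Om n) = emb (GT ℓ (supp σ)ᶜ) (GT_ne hL _) h) (ρ : Ray (2 * n + 2))
    (P : PrimeSpectrum (Rc ℓ σ i0 fun ρ => ∏ i ∈ ρ, LL ℓ i / LL ℓ i0)) :
    ch (GT_mem ℓ (supp σ)ᶜ) hd e P ∈ DD ℓ ρ ↔
      yc ℓ σ i0 (fun ρ => ∏ i ∈ ρ, LL ℓ i / LL ℓ i0) ρ ∈ P.asIdeal := by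
  by_cases hρ : ρ ∈ σ
  · obtain ⟨i, rfl⟩ := Finset.card_eq_one.1 (hσ ρ hρ)
    rw [DD_single, Set.mem_compl_iff, SetLike.mem_coe, ch_mem _ _ _ (lin_hom (ℓ i)), not_not]
    let u : Fin (2 * n + 2) → Rc ℓ σ i0 fun ρ => ∏ i ∈ ρ, LL ℓ i / LL ℓ i0 := fun j =>
      if hj : j ∉ supp σ then ⟨LL ℓ i0 / LL ℓ j, subset_adjoin (Or.inr ⟨j, hj, rfl⟩)⟩ else 1
    have hu : ∀ j, IsUnit (u j) := by
      intro j
      by_cases hj : j ∉ supp σ
      · refine IsUnit.of_mul_eq_one ⟨_, h j⟩ (Subtype.ext ?_)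
        simp only [u, dif_pos hj, MulMemClass.coe_mul, OneMemClass.coe_one]
        rw [div_mul_div_cancel₀ (hL j), div_self (hL i0)]
      · simp only [u, dif_neg hj]
        exact isUnit_one
    have h1 : e (Away.isLocalizationElem (GT_mem ℓ (supp σ)ᶜ) (lin_hom (ℓ i))) =
        yc ℓ σ i0 (fun ρ => ∏ i ∈ ρ, LL ℓ i / LL ℓ i0) {i} ^ ((supp σ)ᶜ).card *
          ∏ j ∈ (supp σ)ᶜ, u j := by
      apply Subtype.ext
      rw [he, emb_mk, pow_one, map_pow, alg_GT]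
      simp only [MulMemClass.coe_mul, SubmonoidClass.coe_pow, SubmonoidClass.coe_finsetProd, yc,
        dif_pos hρ, Finset.prod_singleton]
      have h3 : ∏ j ∈ (supp σ)ᶜ, (u j : Om n) = ∏ j ∈ (supp σ)ᶜ, LL ℓ i0 / LL ℓ j :=
        Finset.prod_congr rfl fun j hj => by simp only [u, dif_pos (Finset.mem_compl.1 hj)]
      rw [h3, Finset.prod_div_distrib,
        Finset.prod_const, div_pow, div_mul_div_cancel₀ (pow_ne_zero _ (hL i0))]
      rfl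
    have h2 : IsUnit (∏ j ∈ (supp σ)ᶜ, u j) := IsUnit.prod_iff.2 fun j _ => hu j
    rw [h1, Ideal.mul_unit_mem_iff_mem _ h2, P.isPrime.pow_mem_iff_mem _ hd]
  · have h1 : yc ℓ σ i0 (fun ρ => ∏ i ∈ ρ, LL ℓ i / LL ℓ i0) ρ = 1 := dif_neg hρ
    rw [h1]
    refine iff_of_false ?_ (P.isPrime.one_notMem)
    rintro ⟨i, rfl, hx⟩
    have h2 : ch (GT_mem ℓ (supp σ)ᶜ) hd e P ∈ Dplus (GT ℓ (supp σ)ᶜ) := by
      rw [← SetLike.mem_coe, ← ch_range (GT_mem ℓ (supp σ)ᶜ) hd e]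
      exact ⟨P, rfl⟩
    refine hx ((mem_Dplus_GT ℓ _ _).1 h2 i (Finset.mem_compl.2 fun hi => hρ ?_))
    exact (single_of_mem hσ).1 hi

lemma compat_aux {ℓ : Fin (2 * n + 2) → Fin (n + 1) → ℂ} (hL : ∀ i, LL ℓ i ≠ 0)
    (T : Finset (Fin (2 * n + 2))) (hd : 0 < T.card)
    (hd0 : 0 < (Finset.univ : Finset (Fin (2 * n + 2))).card)
    {R R' : Subalgebra ℂ (Om n)} (hle : R ≤ R')
    (e : Away (gr n) (GT ℓ T) ≃+* R) (he : ∀ h, (e h : Om n) = emb (GT ℓ T) (GT_ne hL _) h)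
    (e0 : Away (gr n) (GT ℓ Finset.univ) ≃+* R')
    (he0 : ∀ h, (e0 h : Om n) = emb (GT ℓ Finset.univ) (GT_ne hL _) h) :
    Spec.map (CommRingCat.ofHom (Subalgebra.inclusion hle).toRingHom) ≫ ch (GT_mem ℓ T) hd e =
      ch (GT_mem ℓ Finset.univ) hd0 e0 := by
  have hx : GT ℓ Finset.univ = GT ℓ T * GT ℓ Tᶜ := (Finset.prod_mul_prod_compl T _).symm
  have h1 := Proj.SpecMap_awayMap_awayι (gr n) (GT_mem ℓ T) hd (GT_mem ℓ Tᶜ) hx
  rw [awayι_congr _ _ (GT_mem ℓ Finset.univ) hd0] at h1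
  unfold ch
  rw [← h1]
  have h2 : (Subalgebra.inclusion hle).toRingHom.comp e.toRingHom =
      e0.toRingHom.comp (awayMap (gr n) (GT_mem ℓ Tᶜ) hx) := by
    refine RingHom.ext fun h => Subtype.ext ?_
    obtain ⟨k, a, ha, rfl⟩ := Away.mk_surjective (gr n) (GT_mem ℓ T) h
    show (e _ : Om n) = e0 (awayMap (gr n) (GT_mem ℓ Tᶜ) hx _)
    rw [he, he0, awayMap_mk, emb_mk, emb_mk, map_mul, map_pow, hx, map_mul, mul_pow,
      mul_div_mul_right _ _ (pow_ne_zero _ (GT_ne hL Tᶜ))]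
  have h3 : Spec.map (CommRingCat.ofHom (Subalgebra.inclusion hle).toRingHom) ≫
      Spec.map (CommRingCat.ofHom e.toRingHom) = Spec.map (CommRingCat.ofHom e0.toRingHom) ≫
      Spec.map (CommRingCat.ofHom (awayMap (gr n) (GT_mem ℓ Tᶜ) hx)) := by
    rw [← Spec.map_comp, ← Spec.map_comp, ← CommRingCat.ofHom_comp, ← CommRingCat.ofHom_comp, h2]
  exact (Category.assoc _ _ _).symm.trans
    ((congrArg (· ≫ Proj.awayι (gr n) (GT ℓ T) (GT_mem ℓ T) hd) h3).trans (Category.assoc _ _ _))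

lemma exists_cone {ℓ : Fin (2 * n + 2) → Fin (n + 1) → ℂ} (hg : GenPos ℓ) (x : Pn n) :
    ∃ σ : MaxC n (baseFan n (2 * n + 2)), ∀ j ∉ supp σ.1, x ∈ Dplus (lin (ℓ j)) := by
  classical
  have h1 := card_le hg x (Finset.univ.filter fun i => x ∉ Dplus (lin (ℓ i)))
    fun i hi => (Finset.mem_filter.1 hi).2
  obtain ⟨Z, hZ1, -, hZ⟩ := Finset.exists_subsuperset_card_eq (n := n) (Finset.subset_univ _) h1
    (by simp; omega)
  have hc : (Z.image fun i => ({i} : Ray _)).card = n := by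
    rw [Finset.card_image_of_injective _ Finset.singleton_injective, hZ]
  have hs : ∀ ρ ∈ Z.image fun i => ({i} : Ray _), ρ.card = 1 := by
    intro ρ hρ
    obtain ⟨i, -, rfl⟩ := Finset.mem_image.1 hρ
    exact Finset.card_singleton i
  refine ⟨⟨Z.image fun i => ({i} : Ray _), ⟨hs, hc.le⟩, hc⟩, fun j hj => ?_⟩
  by_contra hx
  exact hj ((single_of_mem hs).2 (Finset.mem_image.2
    ⟨j, hZ1 (Finset.mem_filter.2 ⟨Finset.mem_univ _, hx⟩), rfl⟩))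

end TowerBase

open TowerBase in
theorem towerBase (hC : ChartBStmt) : TowerBaseStmt := by
  intro n ℓ hn hg
  obtain ⟨hL, h2, h3, -⟩ := hC n ℓ hn hg
  choose i0 hi0 using exists_i0 (n := n)
  have hgood : ∀ σ : MaxC n (baseFan n (2 * n + 2)),
      Good ℓ σ.1 (i0 σ) fun ρ => ∏ i ∈ ρ, LL ℓ i / LL ℓ (i0 σ) :=
    fun σ => h3 σ.1 σ.2.1 σ.2.2 (i0 σ) (hi0 σ)
  have hd : ∀ σ : MaxC n (baseFan n (2 * n + 2)), 0 < ((supp σ.1)ᶜ).card :=
    fun σ => Finset.card_pos.2 ⟨i0 σ, Finset.mem_compl.2 (hi0 σ)⟩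
  have hd0 : 0 < (Finset.univ : Finset (Fin (2 * n + 2))).card :=
    Finset.card_pos.2 ⟨0, Finset.mem_univ _⟩
  choose e he using fun σ : MaxC n (baseFan n (2 * n + 2)) =>
    exists_equiv hg hL (Finset.mem_compl.2 (hi0 σ)) _
      (Rc_eq hL (hi0 σ) (h2 _ _ _ (hgood σ)).2.1)
  obtain ⟨e0, he0⟩ := exists_equiv hg hL (Finset.mem_univ 0) _ (R0_eq ℓ)
  have hU : ∀ (σ : MaxC n (baseFan n (2 * n + 2))) (x : Pn n),
      x ∈ Set.range (ch (GT_mem ℓ _) (hd σ) (e σ)) ↔ ∀ j ∉ supp σ.1, x ∈ Dplus (lin (ℓ j)) := by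
    intro σ x
    rw [ch_range, SetLike.mem_coe, mem_Dplus_GT]
    simp only [Finset.mem_compl]
  refine ⟨{
    i0 := i0
    y := fun σ ρ => ∏ i ∈ ρ, LL ℓ i / LL ℓ (i0 σ)
    good := hgood
    le := fun σ => (h2 _ _ _ (hgood σ)).1
    j := fun σ => ch (GT_mem ℓ _) (hd σ) (e σ)
    open_j := fun σ => ch_open _ _ _
    j0 := ch (GT_mem ℓ _) hd0 e0
    open_j0 := ch_open _ _ _
    compat := fun σ => compat_aux hL _ (hd σ) hd0 _ (e σ) (he σ) e0 he0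
    e0 := e0
    he0 := fun h P Q hPQ => ?_
    base := fun hF hm => Category.comp_id _
    range0 := ch_range _ _ _
    D := DD ℓ
    closed := DD_closed ℓ
    memD := fun σ ρ P =>
      memD_aux hL σ.2.1.1 (h2 _ _ _ (hgood σ)).2.1 (hd σ) (e σ) (he σ) ρ P
    memU := fun σ x => ?_
    memU0 := fun x => ?_
    cover := fun x => ?_ }, DD_single ℓ⟩
  · exact (congrArg (· * _) (he0 h)).trans (emb_spec _ (GT_ne hL _) h P Q hPQ)
  · rw [hU]
    constructor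
    · rintro h ρ hρ ⟨i, rfl, hx⟩
      exact hx (h i fun hi => hρ ((single_of_mem σ.2.1.1).1 hi))
    · intro h j hj
      by_contra hx
      exact h {j} (fun hj' => hj ((single_of_mem σ.2.1.1).2 hj')) ⟨j, rfl, hx⟩
  · rw [ch_range, SetLike.mem_coe, mem_Dplus_GT]
    constructor
    · rintro h ρ ⟨i, rfl, hx⟩
      exact hx (h i (Finset.mem_univ _))
    · intro h j _
      by_contra hx
      exact h {j} ⟨j, rfl, hx⟩
  · obtain ⟨σ, hσ⟩ := exists_cone hg x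
    exact ⟨σ, (hU σ x).2 hσ⟩

end Pool.Agent.Lib.MP_2c79a0_ag
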