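import Pool.Agent.Lib.MP_2c79a0_ag.Geo

/-!
The charts after one more blow-up.
-/

open AlgebraicGeometry CategoryTheory TopologicalSpace Algebra

noncomputable section

namespace Pool.Agent.Lib.MP_2c79a0_ag

namespace TowerStep

lemma mem_closure_chart {R : Type} [CommRing R] {X : Scheme.{0}} (g : Spec (.of R) ⟶ X)
    [IsOpenImmersion g] (W : Set X) (P : PrimeSpectrum R) :
    g P ∈ closure W ↔ P ∈ closure {Q : PrimeSpectrum R | g Q ∈ W} := by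
  have h := g.isOpenEmbedding.isOpenMap.preimage_closure_eq_closure_preimage g.continuous W
  exact Set.ext_iff.1 h P

lemma mem_closure_prime {R : Type} [CommRing R] (I : Ideal R) (hI : I.IsPrime) (y : R)
    (hy : y ∉ I) (W : Set (PrimeSpectrum R))
    (hW : ∀ Q, Q ∈ W ↔ I ≤ Q.asIdeal ∧ y ∉ Q.asIdeal) (P : PrimeSpectrum R) :
    P ∈ closure W ↔ I ≤ P.asIdeal := by
  constructor
  · intro hP
    have h1 : W ⊆ PrimeSpectrum.zeroLocus (I : Set R) := fun Q hQ => ((hW Q).1 hQ).1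
    exact closure_minimal h1 (PrimeSpectrum.isClosed_zeroLocus _) hP
  · intro hP
    have h1 : ({⟨I, hI⟩} : Set (PrimeSpectrum R)) ⊆ W := by
      rintro Q rfl
      exact (hW _).2 ⟨le_rfl, hy⟩
    apply closure_mono h1
    rw [PrimeSpectrum.closure_singleton]
    exact hP

section Rays

variable {N : ℕ} {a b : Fin N}

lemma pair_ne (h : a ≠ b) (c : Fin N) : ({a, b} : Ray N) ≠ {c} := by
  intro e
  have := congrArg Finset.card e
  rw [Finset.card_pair h, Finset.card_singleton] at this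
  omega

lemma single_ne (h : a ≠ b) : ({a} : Ray N) ≠ {b} := fun e => h (Finset.singleton_injective e)

lemma mem_cStep {σ : Cone N} {ρ : Ray N} :
    ρ ∈ cStep σ a b ↔ ρ = {a, b} ∨ (ρ ≠ {a} ∧ ρ ∈ σ) := by
  simp [cStep]

lemma blowFan_comm (K : Set (Cone N)) (a b : Fin N) : blowFan K a b = blowFan K b a := by
  ext σ
  simp only [blowFan, Set.mem_ofPred_eq, Finset.pair_comm b a, and_comm (a := ({b} : Ray N) ∈ σ),
    Finset.insert_comm ({b} : Ray N)]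

lemma cStep_mem {K : Set (Cone N)} {σ : Cone N} (hab : a ≠ b) (hσ : σ ∈ K)
    (ha : ({a} : Ray N) ∈ σ) (hb : ({b} : Ray N) ∈ σ) (hs : ({a, b} : Ray N) ∉ σ) :
    cStep σ a b ∈ blowFan K a b := by
  refine ⟨fun h => ?_, Or.inr ⟨mem_cStep.2 (Or.inl rfl), ?_⟩⟩
  · rcases mem_cStep.1 h.1 with h | h
    · exact pair_ne hab a h.symm
    · exact h.1 rfl
  · convert hσ using 1
    ext ρ
    simp only [Finset.mem_insert, Finset.mem_erase, mem_cStep]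
    constructor
    · rintro (rfl | rfl | ⟨h1, h2 | h2⟩)
      · exact ha
      · exact hb
      · exact absurd h2 h1
      · exact h2.2
    · intro h
      by_cases h1 : ρ = {a}
      · exact Or.inl h1
      · exact Or.inr (Or.inr ⟨fun e => hs (e ▸ h), Or.inr ⟨h1, h⟩⟩)

/-- A maximal cone of the subdivided fan through the new ray and `{b}`. -/
lemma eq_cStep {K : Set (Cone N)} {σ' : Cone N} (hab : a ≠ b) (h : σ' ∈ blowFan K a b)
    (hs : ({a, b} : Ray N) ∈ σ') (hb : ({b} : Ray N) ∈ σ') :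
    ∃ σ ∈ K, σ.card = σ'.card ∧ ({a} : Ray N) ∈ σ ∧ ({b} : Ray N) ∈ σ ∧ cStep σ a b = σ' := by
  have ha : ({a} : Ray N) ∉ σ' := fun ha => h.1 ⟨ha, hb⟩
  have hK := (h.2.resolve_left fun h' => h'.1 hs).2
  have hb' : ({b} : Ray N) ∈ σ'.erase {a, b} :=
    Finset.mem_erase.2 ⟨(pair_ne hab b).symm, hb⟩
  rw [Finset.insert_eq_of_mem hb'] at hK
  have ha' : ({a} : Ray N) ∉ σ'.erase {a, b} := fun h' => ha (Finset.mem_of_mem_erase h')
  refine ⟨_, hK, ?_, Finset.mem_insert_self _ _, Finset.mem_insert_of_mem hb', ?_⟩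
  · rw [Finset.card_insert_of_notMem ha', Finset.card_erase_add_one hs]
  · rw [cStep, Finset.erase_insert ha', Finset.insert_erase hs]

lemma mem_or {n : ℕ} {K : Set (Cone N)} {σ' : Cone N} (hab : a ≠ b) (hK : ∀ σ ∈ K, σ.card ≤ n)
    (h : σ' ∈ blowFan K a b) (hc : σ'.card = n) (hs : ({a, b} : Ray N) ∈ σ') :
    ({a} : Ray N) ∈ σ' ∨ ({b} : Ray N) ∈ σ' := by
  by_contra hn
  rw [not_or] at hn
  have h1 := hK _ (h.2.resolve_left fun h' => h'.1 hs).2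
  have hb' : ({b} : Ray N) ∉ σ'.erase {a, b} := fun h' => hn.2 (Finset.mem_of_mem_erase h')
  have ha' : ({a} : Ray N) ∉ insert ({b} : Ray N) (σ'.erase {a, b}) := by
    intro h'
    rcases Finset.mem_insert.1 h' with h' | h'
    · exact single_ne hab h'
    · exact hn.1 (Finset.mem_of_mem_erase h')
  rw [Finset.card_insert_of_notMem ha', Finset.card_insert_of_notMem hb',
    Finset.card_erase_add_one hs] at h1
  omega

end Rays

section Div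

variable {N : ℕ} {B B' : Scheme.{0}}

/-- The divisors on the blow-up. -/
structure DD (f : B' ⟶ B) (D : Ray N → Set B) (C : Set B) (a b : Fin N) (D' : Ray N → Set B') :
    Prop where
  ne : a ≠ b
  closed : ∀ ρ, IsClosed (D ρ)
  hC : ∀ x, x ∈ C ↔ x ∈ D {a} ∧ x ∈ D {b}
  empty : ∀ x, x ∉ D {a, b}
  hs : D' {a, b} = f ⁻¹' C
  ha : D' {a} = closure (f ⁻¹' (D {a} \ C))
  hb : D' {b} = closure (f ⁻¹' (D {b} \ C))
  ho : ∀ ρ, ρ ≠ {a, b} → ρ ≠ {a} → ρ ≠ {b} → D' ρ = f ⁻¹' D ρ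

variable {f : B' ⟶ B} {D : Ray N → Set B} {C : Set B} {a b : Fin N} {D' : Ray N → Set B'}

lemma DD.symm (h : DD f D C a b D') : DD f D C b a D' where
  ne := h.ne.symm
  closed := h.closed
  hC x := (h.hC x).trans and_comm
  empty := by rw [Finset.pair_comm]; exact h.empty
  hs := by rw [Finset.pair_comm]; exact h.hs
  ha := h.hb
  hb := h.ha
  ho ρ h1 h2 h3 := h.ho ρ (by rwa [Finset.pair_comm]) h3 h2

lemma DD.closedC (h : DD f D C a b D') : IsClosed C := by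
  have : C = D {a} ∩ D {b} := Set.ext h.hC
  rw [this]
  exact (h.closed _).inter (h.closed _)

lemma DD.closed' (h : DD f D C a b D') (ρ : Ray N) : IsClosed (D' ρ) := by
  by_cases h1 : ρ = {a, b}
  · rw [h1, h.hs]; exact h.closedC.preimage f.continuous
  by_cases h2 : ρ = {a}
  · rw [h2, h.ha]; exact isClosed_closure
  by_cases h3 : ρ = {b}
  · rw [h3, h.hb]; exact isClosed_closure
  rw [h.ho ρ h1 h2 h3]
  exact (h.closed ρ).preimage f.continuous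

lemma DD.sub (h : DD f D C a b D') {ρ : Ray N} (h1 : ρ ≠ {a, b}) {x : B'} (hx : x ∈ D' ρ) :
    f x ∈ D ρ := by
  have key : ∀ τ, closure (f ⁻¹' (D τ \ C)) ⊆ f ⁻¹' D τ := fun τ =>
    closure_minimal (fun _ hy => hy.1) ((h.closed τ).preimage f.continuous)
  by_cases h2 : ρ = {a}
  · rw [h2, h.ha] at hx; rw [h2]; exact key _ hx
  by_cases h3 : ρ = {b}
  · rw [h3, h.hb] at hx; rw [h3]; exact key _ hx
  rwa [h.ho ρ h1 h2 h3] at hx

lemma DD.off (h : DD f D C a b D') (ρ : Ray N) {x : B'} (hx : f x ∉ C) :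
    x ∈ D' ρ ↔ f x ∈ D ρ := by
  by_cases h1 : ρ = {a, b}
  · rw [h1, h.hs]
    exact ⟨fun h' => absurd h' hx, fun h' => absurd h' (h.empty _)⟩
  refine ⟨h.sub h1, fun h' => ?_⟩
  by_cases h2 : ρ = {a}
  · rw [h2, h.ha]; rw [h2] at h'; exact subset_closure ⟨h', hx⟩
  by_cases h3 : ρ = {b}
  · rw [h3, h.hb]; rw [h3] at h'; exact subset_closure ⟨h', hx⟩
  rwa [h.ho ρ h1 h2 h3]

open Classical in
lemma exists_DD (f : B' ⟶ B) (D : Ray N → Set B) (hab : a ≠ b) (hD : ∀ ρ, IsClosed (D ρ))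
    (he : ∀ x, x ∉ D {a, b}) : ∃ D', DD f D (D {a} ∩ D {b}) a b D' := by
  refine ⟨fun ρ => if ρ = {a, b} then f ⁻¹' (D {a} ∩ D {b}) else
    if ρ = {a} ∨ ρ = {b} then closure (f ⁻¹' (D ρ \ (D {a} ∩ D {b}))) else f ⁻¹' D ρ,
    hab, hD, fun _ => Iff.rfl, he, ?_, ?_, ?_, ?_⟩
  · simp
  · rw [if_neg (pair_ne hab a).symm, if_pos (Or.inl rfl)]
  · rw [if_neg (pair_ne hab b).symm, if_pos (Or.inr rfl)]
  · intro ρ h1 h2 h3
    rw [if_neg h1, if_neg (by tauto)]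

end Div

section Charts

variable {n : ℕ} {ℓ : Fin (2 * n + 2) → Fin (n + 1) → ℂ}

lemma yc_of_notMem {σ : Cone (2 * n + 2)} {i0 : Fin (2 * n + 2)} {y : Ray (2 * n + 2) → Om n}
    {ρ : Ray (2 * n + 2)} (h : ρ ∉ σ) : yc ℓ σ i0 y ρ = 1 := dif_neg h

lemma yc_coe {σ : Cone (2 * n + 2)} {i0 : Fin (2 * n + 2)} {y : Ray (2 * n + 2) → Om n}
    {ρ : Ray (2 * n + 2)} (h : ρ ∈ σ) : (yc ℓ σ i0 y ρ : Om n) = y ρ := by
  rw [yc, dif_pos h]

lemma yc_notMem {σ : Cone (2 * n + 2)} {i0 : Fin (2 * n + 2)} {y : Ray (2 * n + 2) → Om n}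
    {ρ : Ray (2 * n + 2)} (h : ρ ∉ σ) (P : PrimeSpectrum (Rc ℓ σ i0 y)) :
    yc ℓ σ i0 y ρ ∉ P.asIdeal := by
  rw [yc_of_notMem h]
  exact (Ideal.ne_top_iff_one _).1 P.isPrime.ne_top

/-- The primality facts on a chart. -/
def Primes (ℓ : Fin (2 * n + 2) → Fin (n + 1) → ℂ) : Prop :=
  ∀ σ i0 y, Good ℓ σ i0 y → ∀ τ ⊆ σ, (Ideal.span (yc ℓ σ i0 y '' τ)).IsPrime ∧
    ∀ ρ ∈ σ, ρ ∉ τ → yc ℓ σ i0 y ρ ∉ Ideal.span (yc ℓ σ i0 y '' τ)

lemma closure_stratum (hP : Primes ℓ) {σ : Cone (2 * n + 2)} {i0 : Fin (2 * n + 2)}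
    {y : Ray (2 * n + 2) → Om n} (hg : Good ℓ σ i0 y) (τ : Cone (2 * n + 2))
    (ρ : Ray (2 * n + 2)) (hρ : ρ ∉ τ) (W : Set (PrimeSpectrum (Rc ℓ σ i0 y)))
    (hW : ∀ Q, Q ∈ W ↔ (∀ ρ' ∈ τ, yc ℓ σ i0 y ρ' ∈ Q.asIdeal) ∧ yc ℓ σ i0 y ρ ∉ Q.asIdeal)
    (P : PrimeSpectrum (Rc ℓ σ i0 y)) :
    P ∈ closure W ↔ ∀ ρ' ∈ τ, yc ℓ σ i0 y ρ' ∈ P.asIdeal := by
  have hle : ∀ Q : PrimeSpectrum (Rc ℓ σ i0 y), Ideal.span (yc ℓ σ i0 y '' τ) ≤ Q.asIdeal ↔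
      ∀ ρ' ∈ τ, yc ℓ σ i0 y ρ' ∈ Q.asIdeal := by
    intro Q
    rw [Ideal.span_le, Set.image_subset_iff]
    rfl
  by_cases hτ : τ ⊆ σ
  · obtain ⟨h1, h2⟩ := hP σ i0 y hg τ hτ
    rw [← hle]
    refine mem_closure_prime _ h1 (yc ℓ σ i0 y ρ) ?_ W (fun Q => by rw [hW, hle]) P
    by_cases h3 : ρ ∈ σ
    · exact h2 ρ h3 hρ
    · exact yc_notMem h3 ⟨_, h1⟩
  · obtain ⟨ρ', h1, h2⟩ := Finset.not_subset.1 hτ
    have : W = ∅ := Set.eq_empty_of_forall_notMem fun Q hQ =>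
      yc_notMem h2 Q (((hW Q).1 hQ).1 ρ' h1)
    rw [this, closure_empty]
    exact ⟨fun h => h.elim, fun h => yc_notMem h2 P (h ρ' h1)⟩

variable {B B' : Scheme.{0}} {f : B' ⟶ B} {D : Ray (2 * n + 2) → Set B} {C : Set B}
  {a b : Fin (2 * n + 2)} {D' : Ray (2 * n + 2) → Set B'}

/-- The divisors on a chart of the blow-up where `y {a}` generates. -/
lemma memD_step (hP : Primes ℓ) (h : DD f D C a b D') {σ : Cone (2 * n + 2)}
    {i0 : Fin (2 * n + 2)} {y : Ray (2 * n + 2) → Om n} (hg : Good ℓ σ i0 y)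
    (ha : ({a} : Ray _) ∈ σ) (hb : ({b} : Ray _) ∈ σ)
    (hg' : Good ℓ (cStep σ a b) i0 (yStep y a b))
    (hle : Rc ℓ σ i0 y ≤ Rc ℓ (cStep σ a b) i0 (yStep y a b))
    (j : Spec (.of (Rc ℓ σ i0 y)) ⟶ B)
    (hj : ∀ ρ (P : PrimeSpectrum (Rc ℓ σ i0 y)), j P ∈ D ρ ↔ yc ℓ σ i0 y ρ ∈ P.asIdeal)
    (g : Spec (.of (Rc ℓ (cStep σ a b) i0 (yStep y a b))) ⟶ B') [IsOpenImmersion g]
    (hgf : g ≫ f = Spec.map (CommRingCat.ofHom (Subalgebra.inclusion hle).toRingHom) ≫ j)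
    (ρ : Ray (2 * n + 2)) (P : PrimeSpectrum (Rc ℓ (cStep σ a b) i0 (yStep y a b))) :
    g P ∈ D' ρ ↔ yc ℓ (cStep σ a b) i0 (yStep y a b) ρ ∈ P.asIdeal := by
  have hab := h.ne
  have hf : ∀ ρ (Q : PrimeSpectrum (Rc ℓ (cStep σ a b) i0 (yStep y a b))),
      f (g Q) ∈ D ρ ↔ Subalgebra.inclusion hle (yc ℓ σ i0 y ρ) ∈ Q.asIdeal := by
    intro ρ Q
    have h1 : f (g Q) = j (PrimeSpectrum.comap (Subalgebra.inclusion hle).toRingHom Q) := by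
      rw [← Scheme.Hom.comp_apply, hgf, Scheme.Hom.comp_apply]
      rfl
    rw [h1, hj]
    rfl
  have hs' : ({a, b} : Ray _) ∈ cStep σ a b := mem_cStep.2 (Or.inl rfl)
  have hb' : ({b} : Ray _) ∈ cStep σ a b := mem_cStep.2 (Or.inr ⟨single_ne hab.symm, hb⟩)
  have ha' : ({a} : Ray _) ∉ cStep σ a b := by
    intro h'
    rcases mem_cStep.1 h' with h' | h'
    · exact pair_ne hab a h'.symm
    · exact h'.1 rfl
  have e1 : Subalgebra.inclusion hle (yc ℓ σ i0 y {a}) =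
      yc ℓ (cStep σ a b) i0 (yStep y a b) {a, b} := by
    apply Subtype.ext
    rw [Subalgebra.coe_inclusion, yc_coe ha, yc_coe hs', yStep,
      Function.update_of_ne (pair_ne hab b), Function.update_self]
  have e2 : Subalgebra.inclusion hle (yc ℓ σ i0 y {b}) =
      yc ℓ (cStep σ a b) i0 (yStep y a b) {b} * yc ℓ (cStep σ a b) i0 (yStep y a b) {a, b} := by
    apply Subtype.ext
    rw [Subalgebra.coe_inclusion, Subalgebra.coe_mul, yc_coe hb, yc_coe hs', yc_coe hb', yStep,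
      Function.update_of_ne (pair_ne hab b), Function.update_self, Function.update_self,
      div_mul_cancel₀ _ (hg.torus _ ha).2.2]
  have hC : ∀ Q : PrimeSpectrum (Rc ℓ (cStep σ a b) i0 (yStep y a b)),
      f (g Q) ∈ C ↔ yc ℓ (cStep σ a b) i0 (yStep y a b) {a, b} ∈ Q.asIdeal := by
    intro Q
    rw [h.hC, hf, hf, e1, e2]
    exact ⟨fun h' => h'.1, fun h' => ⟨h', Ideal.mul_mem_left _ _ h'⟩⟩
  by_cases h1 : ρ = {a, b}
  · rw [h1, h.hs]; exact hC P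
  by_cases h2 : ρ = {a}
  · rw [h2, h.ha, mem_closure_chart]
    have : {Q : PrimeSpectrum (Rc ℓ (cStep σ a b) i0 (yStep y a b)) |
        g Q ∈ f ⁻¹' (D {a} \ C)} = ∅ := by
      refine Set.eq_empty_of_forall_notMem fun Q hQ => hQ.2 ?_
      rw [hC, ← e1, ← hf]
      exact hQ.1
    rw [this, closure_empty]
    exact ⟨fun h => h.elim, fun h => yc_notMem ha' P h⟩
  by_cases h3 : ρ = {b}
  · rw [h3, h.hb, mem_closure_chart]
    rw [closure_stratum hP hg' {{b}} {a, b} (by simpa using pair_ne hab b)]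
    · simp
    · intro Q
      change f (g Q) ∈ D {b} ∧ f (g Q) ∉ C ↔ _
      rw [hC, hf, e2]
      simp only [Finset.mem_singleton, forall_eq]
      constructor
      · rintro ⟨h4, h5⟩
        exact ⟨(Q.isPrime.mem_or_mem h4).resolve_right h5, h5⟩
      · rintro ⟨h4, h5⟩
        exact ⟨Ideal.mul_mem_right _ _ h4, h5⟩
  rw [h.ho ρ h1 h2 h3]
  change f (g P) ∈ D ρ ↔ _
  rw [hf]
  have e3 : Subalgebra.inclusion hle (yc ℓ σ i0 y ρ) =
      yc ℓ (cStep σ a b) i0 (yStep y a b) ρ := by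
    by_cases h4 : ρ ∈ σ
    · apply Subtype.ext
      rw [Subalgebra.coe_inclusion, yc_coe h4, yc_coe (mem_cStep.2 (Or.inr ⟨h2, h4⟩)), yStep,
        Function.update_of_ne h3, Function.update_of_ne h1]
    · rw [yc_of_notMem h4, yc_of_notMem (fun h5 => ?_), map_one]
      rcases mem_cStep.1 h5 with h5 | h5
      · exact h1 h5
      · exact h4 h5.2
  rw [e3]

/-- The data of a chart of the blow-up. -/
def Pack (ℓ : Fin (2 * n + 2) → Fin (n + 1) → ℂ) (j0 : Spec (.of (R0 ℓ)) ⟶ B')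
    (D' : Ray (2 * n + 2) → Set B') (σ : Cone (2 * n + 2)) : Prop :=
  ∃ (i0 : Fin (2 * n + 2)) (y : Ray (2 * n + 2) → Om n) (_ : Good ℓ σ i0 y)
    (le : Rc ℓ σ i0 y ≤ R0 ℓ) (g : Spec (.of (Rc ℓ σ i0 y)) ⟶ B'), IsOpenImmersion g ∧
    Spec.map (CommRingCat.ofHom (Subalgebra.inclusion le).toRingHom) ≫ g = j0 ∧
    (∀ ρ (P : PrimeSpectrum (Rc ℓ σ i0 y)), g P ∈ D' ρ ↔ yc ℓ σ i0 y ρ ∈ P.asIdeal) ∧
    ∀ x, x ∈ Set.range g ↔ ∀ ρ ∉ σ, x ∉ D' ρ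

lemma Pack.not_mem {σ : Cone (2 * n + 2)} {i0 : Fin (2 * n + 2)} {y : Ray (2 * n + 2) → Om n}
    {g : Spec (.of (Rc ℓ σ i0 y)) ⟶ B'}
    (h : ∀ ρ (P : PrimeSpectrum (Rc ℓ σ i0 y)), g P ∈ D' ρ ↔ yc ℓ σ i0 y ρ ∈ P.asIdeal)
    {x : B'} (hx : x ∈ Set.range g) : ∀ ρ ∉ σ, x ∉ D' ρ := by
  obtain ⟨P, rfl⟩ := hx
  exact fun ρ hρ h' => yc_notMem hρ P ((h ρ P).1 h')

variable {p : B ⟶ Pn n} {K : Set (Cone (2 * n + 2))}

/-- Charts away from the centre. -/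
lemma pack_triv (M : BModel ℓ B p K) (h : DD f M.D C a b D') (σ : MaxC n K)
    (hs : ({a, b} : Ray _) ∉ σ.1) (hC : ∀ P, M.j σ P ∉ C)
    (j0 : Spec (.of (R0 ℓ)) ⟶ B') (hj0 : j0 ≫ f = M.j0)
    (huniq : ∀ (T : Scheme.{0}) (k k' : T ⟶ B'), k ≫ f = k' ≫ f → (∀ x, f (k x) ∉ C) → k = k')
    (g : Spec (.of (Rc ℓ σ.1 (M.i0 σ) (M.y σ))) ⟶ B') (hg : IsOpenImmersion g)
    (hgf : g ≫ f = M.j σ) (hr : Set.range g = f ⁻¹' Set.range (M.j σ)) :
    Pack ℓ j0 D' σ.1 := by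
  have h1 : ∀ P, f (g P) = M.j σ P := fun P => by rw [← Scheme.Hom.comp_apply, hgf]
  have hD : ∀ ρ (P : PrimeSpectrum (Rc ℓ σ.1 (M.i0 σ) (M.y σ))),
      g P ∈ D' ρ ↔ yc ℓ σ.1 (M.i0 σ) (M.y σ) ρ ∈ P.asIdeal := by
    intro ρ P
    rw [h.off ρ (by rw [h1]; exact hC _), h1]
    exact M.memD σ ρ P
  refine ⟨M.i0 σ, M.y σ, M.good σ, M.le σ, g, hg, ?_, hD, fun x => ⟨Pack.not_mem hD, fun hx => ?_⟩⟩
  · apply huniq
    · rw [Category.assoc, hgf, hj0, M.compat]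
    · intro x
      rw [Scheme.Hom.comp_apply, h1]
      exact hC _
  · rw [hr]
    have h2 : f x ∉ C := by
      have := hx _ hs
      rwa [h.hs] at this
    exact (M.memU σ _).2 fun ρ hρ h' => hx ρ hρ ((h.off ρ h2).2 h')

/-- Charts meeting the centre. -/
lemma pack_step (hP : Primes ℓ) (M : BModel ℓ B p K) (h : DD f M.D C a b D') (σ : MaxC n K)
    (ha : ({a} : Ray _) ∈ σ.1) (hb : ({b} : Ray _) ∈ σ.1)
    (j0 : Spec (.of (R0 ℓ)) ⟶ B') (hj0 : j0 ≫ f = M.j0)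
    (huniq : ∀ (T : Scheme.{0}) (k k' : T ⟶ B'), k ≫ f = k' ≫ f → (∀ x, f (k x) ∉ C) → k = k')
    (hg₁ : Good ℓ (cStep σ.1 a b) (M.i0 σ) (yStep (M.y σ) a b))
    (hg₂ : Good ℓ (cStep σ.1 b a) (M.i0 σ) (yStep (M.y σ) b a))
    (le₁ : Rc ℓ (cStep σ.1 a b) (M.i0 σ) (yStep (M.y σ) a b) ≤ R0 ℓ)
    (hle₁ : Rc ℓ σ.1 (M.i0 σ) (M.y σ) ≤ Rc ℓ (cStep σ.1 a b) (M.i0 σ) (yStep (M.y σ) a b))
    (hle₂ : Rc ℓ σ.1 (M.i0 σ) (M.y σ) ≤ Rc ℓ (cStep σ.1 b a) (M.i0 σ) (yStep (M.y σ) b a))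
    (g₁ : Spec (.of (Rc ℓ (cStep σ.1 a b) (M.i0 σ) (yStep (M.y σ) a b))) ⟶ B')
    (g₂ : Spec (.of (Rc ℓ (cStep σ.1 b a) (M.i0 σ) (yStep (M.y σ) b a))) ⟶ B')
    (ho₁ : IsOpenImmersion g₁) (ho₂ : IsOpenImmersion g₂)
    (hf₁ : g₁ ≫ f = Spec.map (CommRingCat.ofHom (Subalgebra.inclusion hle₁).toRingHom) ≫ M.j σ)
    (hf₂ : g₂ ≫ f = Spec.map (CommRingCat.ofHom (Subalgebra.inclusion hle₂).toRingHom) ≫ M.j σ)
    (hr : Set.range g₁ ∪ Set.range g₂ = f ⁻¹' Set.range (M.j σ))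
    (h21 : ∀ P : PrimeSpectrum (Rc ℓ (cStep σ.1 b a) (M.i0 σ) (yStep (M.y σ) b a)),
      yc ℓ (cStep σ.1 b a) (M.i0 σ) (yStep (M.y σ) b a) {a} ∉ P.asIdeal → g₂ P ∈ Set.range g₁) :
    Pack ℓ j0 D' (cStep σ.1 a b) := by
  have hD₁ := memD_step hP h (M.good σ) ha hb hg₁ hle₁ (M.j σ) (M.memD σ) g₁ hf₁
  have hD₂ := memD_step hP h.symm (M.good σ) hb ha hg₂ hle₂ (M.j σ) (M.memD σ) g₂ hf₂
  have hcomp : (Spec.map (CommRingCat.ofHom (Subalgebra.inclusion le₁).toRingHom) ≫ g₁) ≫ f =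
      M.j0 := by
    rw [Category.assoc, hf₁, ← Category.assoc, ← Spec.map_comp, ← M.compat σ]
    rfl
  refine ⟨M.i0 σ, _, hg₁, le₁, g₁, ho₁, ?_, hD₁, fun x => ⟨Pack.not_mem hD₁, fun hx => ?_⟩⟩
  · apply huniq
    · rw [hcomp, hj0]
    · intro x hx
      rw [← Scheme.Hom.comp_apply, hcomp] at hx
      exact (M.memU0 _).1 ⟨x, rfl⟩ _ ((h.hC _).1 hx).1
  · have h1 : x ∈ Set.range g₁ ∪ Set.range g₂ := by
      rw [hr]
      refine (M.memU σ _).2 fun ρ hρ h' => ?_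
      by_cases h2 : ρ = {a, b}
      · exact h.empty _ (h2 ▸ h')
      have h3 : ρ ≠ {a} := fun e => hρ (e ▸ ha)
      have h4 : ρ ≠ {b} := fun e => hρ (e ▸ hb)
      refine hx ρ (fun h5 => ?_) (by rw [h.ho ρ h2 h3 h4]; exact h')
      rcases mem_cStep.1 h5 with h5 | h5
      · exact h2 h5
      · exact hρ h5.2
    rcases h1 with h1 | ⟨P, rfl⟩
    · exact h1
    · refine h21 P fun h2 => hx {a} (fun h5 => ?_) ((hD₂ _ P).2 h2)
      rcases mem_cStep.1 h5 with h5 | h5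
      · exact pair_ne h.ne a h5.symm
      · exact h5.1 rfl

/-- Strata are the closures of their parts away from a further divisor. -/
lemma inter_eq_closure (hP : Primes ℓ) (M : BModel ℓ B p K) (c d ρ : Ray (2 * n + 2))
    (hc : ρ ≠ c) (hd : ρ ≠ d) : M.D c ∩ M.D d = closure ((M.D c ∩ M.D d) \ M.D ρ) := by
  ext x
  obtain ⟨σ, P, rfl⟩ := M.cover x
  have := M.open_j σ
  rw [mem_closure_chart, closure_stratum hP (M.good σ) {c, d} ρ (by simp [hc, hd])]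
  · simp only [Set.mem_inter_iff, Finset.mem_insert, Finset.mem_singleton, forall_eq_or_imp,
      forall_eq]
    exact and_congr (M.memD σ c P) (M.memD σ d P)
  · intro Q
    simp only [Set.mem_ofPred_eq, Set.mem_sdiff, Set.mem_inter_iff, Finset.mem_insert,
      Finset.mem_singleton, forall_eq_or_imp, forall_eq]
    exact and_congr (and_congr (M.memD σ c Q) (M.memD σ d Q)) (not_congr (M.memD σ ρ Q))

end Charts

end TowerStep

open TowerStep in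
theorem towerStep (hF : FanBasicStmt) (hB : BlowStmt) (hC : ChartBStmt) : TowerStepStmt := by
  intro n ℓ hn hℓ B B' p f K S M a b hK hab hS hf
  obtain ⟨-, -, hcard, -, hray, -, -, -⟩ := hF n _ K S hn (by omega) hK
  obtain ⟨-, hgood, -, hstep⟩ := hC n ℓ hn hℓ
  have hP : Primes ℓ := fun σ i0 y hg => (hgood σ i0 y hg).2.2.2.2.2
  have hs : ∀ σ ∈ K, ({a, b} : Ray _) ∉ σ := by
    intro σ hσ h
    rcases hray σ hσ _ h with h | h
    · rw [Finset.card_pair hab] at h; omega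
    · exact hS h
  have hempty : ∀ x, x ∉ M.D {a, b} := by
    intro x hx
    obtain ⟨σ, hσ⟩ := M.cover x
    exact (M.memU σ x).1 hσ _ (hs _ σ.2.1) hx
  obtain ⟨D', hD⟩ := exists_DD f M.D hab M.closed hempty
  have hcl : ∀ x, x ∈ Closeds.closure (M.D {a} ∩ M.D {b}) ↔ x ∈ M.D {a} ∩ M.D {b} := by
    intro x
    change x ∈ closure (M.D {a} ∩ M.D {b}) ↔ _
    rw [hD.closedC.closure_eq]
  obtain ⟨hB1, hB2, hB3⟩ := hB B' B f _ hf
  have huniq : ∀ (T : Scheme.{0}) (k k' : T ⟶ B'), k ≫ f = k' ≫ f →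
      (∀ x, f (k x) ∉ M.D {a} ∩ M.D {b}) → k = k' :=
    fun T k k' h1 h2 => hB3 T k k' h1 fun x hx => h2 x ((hcl _).1 hx)
  have := M.open_j0
  obtain ⟨j0, ho0, hj0, hr0⟩ := hB2 (R0 ℓ) M.j0 fun P hP =>
    (M.memU0 _).1 ⟨P, rfl⟩ _ ((hcl _).1 hP).1
  -- charts away from the centre
  have triv : ∀ σ : MaxC n K, ¬ (({a} : Ray _) ∈ σ.1 ∧ ({b} : Ray _) ∈ σ.1) →
      Pack ℓ j0 D' σ.1 ∧ ∀ x, f x ∈ Set.range (M.j σ) → ∀ ρ ∉ σ.1, x ∉ D' ρ := by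
    intro σ hσ
    have h1 : ∀ P, M.j σ P ∉ M.D {a} ∩ M.D {b} := by
      intro P hP
      refine hσ ⟨?_, ?_⟩
      · by_contra h
        exact (M.memU σ _).1 ⟨P, rfl⟩ _ h hP.1
      · by_contra h
        exact (M.memU σ _).1 ⟨P, rfl⟩ _ h hP.2
    have := M.open_j σ
    obtain ⟨g, hg, hgf, hr⟩ := hB2 _ (M.j σ) fun P hP => h1 P ((hcl _).1 hP)
    refine ⟨pack_triv M hD σ (hs _ σ.2.1) h1 j0 hj0 huniq g hg hgf hr, ?_⟩
    rintro x ⟨P, hx⟩ ρ hρ h'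
    rw [hD.off ρ (hx ▸ h1 P)] at h'
    exact (M.memU σ _).1 ⟨P, hx⟩ ρ hρ h'
  -- charts meeting the centre
  have step : ∀ σ : MaxC n K, ({a} : Ray _) ∈ σ.1 → ({b} : Ray _) ∈ σ.1 →
      Pack ℓ j0 D' (cStep σ.1 a b) ∧ Pack ℓ j0 D' (cStep σ.1 b a) ∧
      (cStep σ.1 a b).card = n ∧ (cStep σ.1 b a).card = n ∧
      ∀ x, f x ∈ Set.range (M.j σ) →
        (∀ ρ ∉ cStep σ.1 a b, x ∉ D' ρ) ∨ ∀ ρ ∉ cStep σ.1 b a, x ∉ D' ρ := by
    intro σ ha hb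
    obtain ⟨hg₁, hle₁, hch₁⟩ := hstep σ.1 _ _ a b (M.good σ) hab ha hb (hs _ σ.2.1)
    obtain ⟨hg₂, hle₂, hch₂⟩ := hstep σ.1 _ _ b a (M.good σ) hab.symm hb ha
      (by rw [Finset.pair_comm]; exact hs _ σ.2.1)
    have hrad : (Ideal.span {yc ℓ σ.1 (M.i0 σ) (M.y σ) {a},
        yc ℓ σ.1 (M.i0 σ) (M.y σ) {b}}).IsRadical := by
      have := (hP _ _ _ (M.good σ) {{a}, {b}} (by
        intro ρ hρ
        rcases Finset.mem_insert.1 hρ with rfl | hρ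
        · exact ha
        · rw [Finset.mem_singleton.1 hρ]; exact hb)).1
      rw [Finset.coe_pair, Set.image_pair] at this
      exact this.isRadical
    have := M.open_j σ
    obtain ⟨g₁, g₂, ho₁, ho₂, hf₁, hf₂, hr, h12, h21⟩ := hB1 _ _ _ (M.j σ) _ _ _ _ _ _ hrad
      (fun P => (hcl _).trans (and_congr (M.memD σ _ P) (M.memD σ _ P))) hch₁ hch₂
    refine ⟨pack_step hP M hD σ ha hb j0 hj0 huniq hg₁ hg₂ (hgood _ _ _ hg₁).1 hle₁ hle₂ g₁ g₂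
        ho₁ ho₂ hf₁ hf₂ hr h21,
      pack_step hP M hD.symm σ hb ha j0 hj0 huniq hg₂ hg₁ (hgood _ _ _ hg₂).1 hle₂ hle₁ g₂ g₁
        ho₂ ho₁ hf₂ hf₁ ((Set.union_comm _ _).trans hr) h12, hg₁.card_eq, hg₂.card_eq, ?_⟩
    intro x hx
    have h1 : x ∈ Set.range g₁ ∪ Set.range g₂ := by rw [hr]; exact hx
    rcases h1 with h1 | h1
    · exact Or.inl (Pack.not_mem
        (memD_step hP hD (M.good σ) ha hb hg₁ hle₁ (M.j σ) (M.memD σ) g₁ hf₁) h1)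
    · exact Or.inr (Pack.not_mem
        (memD_step hP hD.symm (M.good σ) hb ha hg₂ hle₂ (M.j σ) (M.memD σ) g₂ hf₂) h1)
  have pack : ∀ σ' : MaxC n (blowFan K a b), Pack ℓ j0 D' σ'.1 := by
    rintro ⟨σ', h1, h2⟩
    by_cases h3 : ({a, b} : Ray _) ∈ σ'
    · rcases mem_or hab hcard h1 h2 h3 with h4 | h4
      · obtain ⟨σ, h5, h6, h7, h8, rfl⟩ := eq_cStep hab.symm (blowFan_comm K a b ▸ h1)
          (by rwa [Finset.pair_comm]) h4
        exact (step ⟨σ, h5, h6.trans h2⟩ h8 h7).2.1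
      · obtain ⟨σ, h5, h6, h7, h8, rfl⟩ := eq_cStep hab h1 h3 h4
        exact (step ⟨σ, h5, h6.trans h2⟩ h7 h8).1
    · exact (triv ⟨σ', (h1.2.resolve_right fun h => h3 h.1).2, h2⟩ h1.1).1
  have cover : ∀ x, ∃ σ' : MaxC n (blowFan K a b), ∀ ρ ∉ σ'.1, x ∉ D' ρ := by
    intro x
    obtain ⟨σ, hσ⟩ := M.cover (f x)
    by_cases h1 : ({a} : Ray _) ∈ σ.1 ∧ ({b} : Ray _) ∈ σ.1
    · obtain ⟨-, -, h2, h3, h4⟩ := step σ h1.1 h1.2
      rcases h4 x hσ with h4 | h4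
      · exact ⟨⟨_, cStep_mem hab σ.2.1 h1.1 h1.2 (hs _ σ.2.1), h2⟩, h4⟩
      · refine ⟨⟨_, ?_, h3⟩, h4⟩
        rw [blowFan_comm]
        exact cStep_mem hab.symm σ.2.1 h1.2 h1.1 (by rw [Finset.pair_comm]; exact hs _ σ.2.1)
    · exact ⟨⟨σ.1, ⟨h1, Or.inl ⟨hs _ σ.2.1, σ.2.1⟩⟩, σ.2.2⟩, (triv σ h1).2 x hσ⟩
  choose i0 y good le g hg using pack
  let M' : BModel ℓ B' (f ≫ p) (blowFan K a b) :=
    { i0 := i0
      y := y
      good := good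
      le := le
      j := g
      open_j := fun σ => (hg σ).1
      j0 := j0
      open_j0 := ho0
      compat := fun σ => (hg σ).2.1
      e0 := M.e0
      he0 := M.he0
      base := fun h1 h2 => by rw [← Category.assoc, hj0, M.base h1 h2]
      range0 := by
        rw [hr0, M.range0]
        ext x
        simp only [Set.mem_preimage, Scheme.Hom.comp_apply]
      D := D'
      closed := hD.closed'
      memD := fun σ => (hg σ).2.2.1
      memU := fun σ => (hg σ).2.2.2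
      memU0 := by
        intro x
        rw [hr0, Set.mem_preimage, M.memU0]
        constructor
        · intro h ρ h'
          rw [hD.off ρ fun h2 => h _ h2.1] at h'
          exact h ρ h'
        · intro h ρ h'
          have h2 : f x ∉ M.D {a} ∩ M.D {b} := by
            have := h {a, b}
            rwa [hD.hs] at this
          exact h ρ ((hD.off ρ h2).2 h')
      cover := fun x => by
        obtain ⟨σ, hσ⟩ := cover x
        exact ⟨σ, ((hg σ).2.2.2 x).2 hσ⟩ }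
  refine ⟨M', fun c d _ _ => ?_⟩
  rw [inter_eq_closure hP M' {c} {d} {a, b} (pair_ne hab c) (pair_ne hab d)]
  congr 1
  ext x
  change (x ∈ D' {c} ∧ x ∈ D' {d}) ∧ x ∉ D' {a, b} ↔
    (f x ∈ M.D {c} ∧ f x ∈ M.D {d}) ∧ f x ∉ M.D {a} ∩ M.D {b}
  rw [hD.hs]
  refine and_congr_left fun h => ?_
  rw [hD.off _ h, hD.off _ h]

end Pool.Agent.Lib.MP_2c79a0_ag
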